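import Mathlib

/-! # Characters of prime order killing a proper subgroup of a finite abelian group -/

set_option autoImplicit false

namespace Lin43

/-- A proper subgroup `D` of a finite abelian group is killed by a nontrivial homomorphism to a
cyclic group of prime order: take a maximal subgroup containing `D`; the quotient is simple and
abelian. -/
theorem exists_char {A : Type*} [CommGroup A] [Finite A] (D : Subgroup A) (hD : D ≠ ⊤) :
    ∃ (l : ℕ) (_ : Fact l.Prime) (χ : A →* Multiplicative (ZMod l)),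
      (∀ d ∈ D, χ d = 1) ∧ ∃ a, χ a ≠ 1 := by
  obtain ⟨M, hM, hDM⟩ := (eq_top_or_exists_le_coatom D).resolve_left hD
  obtain ⟨a, ha⟩ : ∃ a, a ∉ M := by
    by_contra hcon
    push Not at hcon
    exact hM.1 (Subgroup.eq_top_iff' M |>.2 hcon)
  have hnt : Nontrivial (A ⧸ M) :=
    ⟨⟨(a : A ⧸ M), 1, fun h => ha ((QuotientGroup.eq_one_iff a).1 h)⟩⟩
  have hsimple : IsSimpleGroup (A ⧸ M) := by
    refine ⟨fun H _ => ?_⟩
    have h1 : M ≤ H.comap (QuotientGroup.mk' M) := by
      intro x hx
      rw [Subgroup.mem_comap, QuotientGroup.mk'_apply, (QuotientGroup.eq_one_iff x).2 hx]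
      exact H.one_mem
    rcases hM.le_iff.1 h1 with h2 | h2
    · right
      rw [Subgroup.eq_top_iff']
      intro x
      obtain ⟨y, rfl⟩ := QuotientGroup.mk'_surjective M x
      have h3 : y ∈ H.comap (QuotientGroup.mk' M) := by
        rw [h2]
        exact Subgroup.mem_top y
      exact h3
    · left
      rw [Subgroup.eq_bot_iff_forall]
      intro x hx
      obtain ⟨y, rfl⟩ := QuotientGroup.mk'_surjective M x
      have h3 : y ∈ H.comap (QuotientGroup.mk' M) := hx
      rw [h2] at h3
      exact (QuotientGroup.eq_one_iff y).2 h3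
  have hcyc : IsCyclic (A ⧸ M) := inferInstance
  have hp : (Nat.card (A ⧸ M)).Prime := IsSimpleGroup.prime_card
  refine ⟨Nat.card (A ⧸ M), ⟨hp⟩,
    (zmodCyclicMulEquiv hcyc).symm.toMonoidHom.comp (QuotientGroup.mk' M), ?_, a, ?_⟩
  · intro d hd
    rw [MonoidHom.comp_apply, QuotientGroup.mk'_apply, (QuotientGroup.eq_one_iff d).2 (hDM hd),
      map_one]
  · intro h
    rw [MonoidHom.comp_apply] at h
    have h1 : QuotientGroup.mk' M a = 1 := (zmodCyclicMulEquiv hcyc).symm.map_eq_one_iff.1 h
    exact ha ((QuotientGroup.eq_one_iff a).1 h1)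

end Lin43
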