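import Mathlib

/-! # Subgroups of `GL_2(F)` with many tori and without unipotents: contradiction

Vector form of paragraph 4, A2, steps 2 to 4. -/

set_option autoImplicit false

namespace Lin43.A2

open Matrix

variable {F : Type*} [Field F]

/-- Determinant of two vectors. -/
def D (v w : Fin 2 → F) : F := v 0 * w 1 - v 1 * w 0

/-- The action. -/
def act (l : GeneralLinearGroup (Fin 2) F) (v : Fin 2 → F) : Fin 2 → F :=
  (l : Matrix (Fin 2) (Fin 2) F).mulVec v

theorem act_mul (l m : GeneralLinearGroup (Fin 2) F) (v : Fin 2 → F) :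
    act (l * m) v = act l (act m v) := by
  unfold act
  rw [Units.val_mul, Matrix.mulVec_mulVec]

theorem act_one (v : Fin 2 → F) : act (1 : GeneralLinearGroup (Fin 2) F) v = v := by
  simp [act]

theorem act_smul (l : GeneralLinearGroup (Fin 2) F) (c : F) (v : Fin 2 → F) :
    act l (c • v) = c • act l v := by
  simp [act, Matrix.mulVec_smul]

theorem act_add (l : GeneralLinearGroup (Fin 2) F) (v w : Fin 2 → F) :
    act l (v + w) = act l v + act l w := by
  simp [act, Matrix.mulVec_add]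

theorem act_inv_act (l : GeneralLinearGroup (Fin 2) F) (v : Fin 2 → F) :
    act l⁻¹ (act l v) = v := by
  rw [← act_mul, inv_mul_cancel, act_one]

theorem act_act_inv (l : GeneralLinearGroup (Fin 2) F) (v : Fin 2 → F) :
    act l (act l⁻¹ v) = v := by
  rw [← act_mul, mul_inv_cancel, act_one]

theorem act_inv_eig (l : GeneralLinearGroup (Fin 2) F) {v : Fin 2 → F} {x : F} (hx0 : x ≠ 0)
    (hx : act l v = x • v) : act l⁻¹ v = x⁻¹ • v := by
  have h : x • act l⁻¹ v = v := by
    rw [← act_smul, ← hx, act_inv_act]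
  calc act l⁻¹ v = (x⁻¹ * x) • act l⁻¹ v := by rw [inv_mul_cancel₀ hx0, one_smul]
    _ = x⁻¹ • v := by rw [mul_smul, h]

theorem D_act (l : GeneralLinearGroup (Fin 2) F) (v w : Fin 2 → F) :
    D (act l v) (act l w) = (l : Matrix (Fin 2) (Fin 2) F).det * D v w := by
  simp only [D, act, Matrix.mulVec, dotProduct, Fin.sum_univ_two, Matrix.det_fin_two]
  ring

theorem det_ne (l : GeneralLinearGroup (Fin 2) F) :
    (l : Matrix (Fin 2) (Fin 2) F).det ≠ 0 :=
  ((Matrix.isUnit_iff_isUnit_det _).1 l.isUnit).ne_zero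

theorem D_smul_left (c : F) (v w : Fin 2 → F) : D (c • v) w = c * D v w := by
  simp [D]; ring

theorem D_smul_right (c : F) (v w : Fin 2 → F) : D v (c • w) = c * D v w := by
  simp [D]; ring

theorem D_add_left (u v w : Fin 2 → F) : D (u + v) w = D u w + D v w := by
  simp [D]; ring

theorem D_add_right (u v w : Fin 2 → F) : D u (v + w) = D u v + D u w := by
  simp [D]; ring

theorem D_self (v : Fin 2 → F) : D v v = 0 := by
  simp [D]; ring

theorem D_comm (v w : Fin 2 → F) : D v w = - D w v := by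
  simp [D]; ring

theorem ne_zero_left {v w : Fin 2 → F} (h : D v w ≠ 0) : v ≠ 0 := by
  rintro rfl
  apply h
  simp [D]

theorem ne_zero_right {v w : Fin 2 → F} (h : D v w ≠ 0) : w ≠ 0 := by
  rintro rfl
  apply h
  simp [D]

/-- Expansion in a basis. -/
theorem expand {v w : Fin 2 → F} (h : D v w ≠ 0) (u : Fin 2 → F) :
    ∃ x y : F, u = x • v + y • w := by
  refine ⟨D u w / D v w, D v u / D v w, ?_⟩
  have e : ∀ i : Fin 2, u i = (D u w / D v w) * v i + (D v u / D v w) * w i := by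
    intro i
    field_simp
    fin_cases i <;> simp [D] <;> ring
  funext i
  simpa using e i

/-- Parallel vectors. -/
theorem par {v u : Fin 2 → F} (hv : v ≠ 0) (h : D v u = 0) : ∃ x : F, u = x • v := by
  by_cases h0 : v 0 = 0
  · have h1 : v 1 ≠ 0 := by
      intro h1
      apply hv
      funext i
      fin_cases i
      · simpa using h0
      · simpa using h1
    refine ⟨u 1 / v 1, ?_⟩
    funext i
    have hh : v 0 * u 1 - v 1 * u 0 = 0 := h
    fin_cases i
    · simp only [h0, zero_mul, zero_sub, neg_eq_zero, mul_eq_zero, h1, false_or] at hh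
      simp [h0, hh]
    · simp [h1]
  · refine ⟨u 0 / v 0, ?_⟩
    funext i
    have hh : v 0 * u 1 - v 1 * u 0 = 0 := h
    fin_cases i
    · simp [h0]
    · simp only [Fin.mk_one, Pi.smul_apply, smul_eq_mul]
      field_simp
      linear_combination hh

/-- The partner relation. -/
def Par (L : Subgroup (GeneralLinearGroup (Fin 2) F)) (v w : Fin 2 → F) : Prop :=
  D v w ≠ 0 ∧ ∀ l ∈ L, D (act l v) v = 0 → D (act l w) w = 0

variable {L : Subgroup (GeneralLinearGroup (Fin 2) F)}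

theorem Par.smul {v w : Fin 2 → F} (h : Par L v w) {c d : F} (hc : c ≠ 0) (hd : d ≠ 0) :
    Par L (c • v) (d • w) := by
  refine ⟨?_, ?_⟩
  · rw [D_smul_left, D_smul_right]
    exact mul_ne_zero hc (mul_ne_zero hd h.1)
  · intro l hl hh
    rw [act_smul, D_smul_left, D_smul_right] at hh ⊢
    have h1 : D (act l v) v = 0 := by
      rcases mul_eq_zero.1 hh with h2 | h2
      · exact absurd h2 hc
      rcases mul_eq_zero.1 h2 with h2 | h2
      · exact absurd h2 hc
      exact h2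
    rw [h.2 l hl h1]
    simp

theorem Par.act {v w : Fin 2 → F} (h : Par L v w) {m : GeneralLinearGroup (Fin 2) F}
    (hm : m ∈ L) : Par L (act m v) (act m w) := by
  refine ⟨?_, ?_⟩
  · rw [D_act]
    exact mul_ne_zero (det_ne m) h.1
  · intro l hl hh
    have key : ∀ u : Fin 2 → F, D (A2.act (m⁻¹ * l * m) u) u = 0 ↔
        D (A2.act l (A2.act m u)) (A2.act m u) = 0 := by
      intro u
      have e : D (A2.act l (A2.act m u)) (A2.act m u) =
          (m : Matrix (Fin 2) (Fin 2) F).det * D (A2.act (m⁻¹ * l * m) u) u := by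
        rw [← D_act, act_mul, act_mul, act_act_inv]
      rw [e, mul_eq_zero]
      simp [det_ne m]
    rw [← key] at hh ⊢
    exact h.2 _ (L.mul_mem (L.mul_mem (L.inv_mem hm) hl) hm) hh

/-- Torus elements at every point. -/
def Tor (L : Subgroup (GeneralLinearGroup (Fin 2) F)) : Prop :=
  ∀ (v : Fin 2 → F), v ≠ 0 → ∀ t : F, t ≠ 0 → t ^ 2 ≠ 1 → ∃ l ∈ L, ∃ (a : F) (w : Fin 2 → F),
    a ≠ 0 ∧ D v w ≠ 0 ∧ act l v = (t ^ 2 * a) • v ∧ act l w = a • w

/-- No unipotents. -/
def NoU (L : Subgroup (GeneralLinearGroup (Fin 2) F)) : Prop :=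
  ∀ k ∈ L, ∀ v : Fin 2 → F, v ≠ 0 → act k v = v →
    (k : Matrix (Fin 2) (Fin 2) F).det = 1 → k = 1

theorem exists_par {t : F} (ht : t ≠ 0) (ht2 : t ^ 2 ≠ 1) (hT : Tor L) (hN : NoU L)
    {v : Fin 2 → F} (hv : v ≠ 0) : ∃ w, Par L v w := by
  obtain ⟨l0, hl0, a, w, ha, hD, h1, h2⟩ := hT v hv t ht ht2
  refine ⟨w, hD, ?_⟩
  intro l hl hh
  have hta : t ^ 2 * a ≠ 0 := mul_ne_zero (pow_ne_zero 2 ht) ha
  have hh' : D v (act l v) = 0 := by rw [D_comm, hh, neg_zero]
  obtain ⟨x, hx⟩ := par hv hh'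
  have hx0 : x ≠ 0 := by
    rintro rfl
    rw [zero_smul] at hx
    have := act_inv_act l v
    rw [hx] at this
    apply hv
    rw [← this]
    simp [act]
  have i1 : act l⁻¹ v = x⁻¹ • v := act_inv_eig l hx0 hx
  have i2 : act l0⁻¹ v = (t ^ 2 * a)⁻¹ • v := act_inv_eig l0 hta h1
  have hk : l * l0 * l⁻¹ * l0⁻¹ = 1 := by
    apply hN _ (L.mul_mem (L.mul_mem (L.mul_mem hl hl0) (L.inv_mem hl)) (L.inv_mem hl0)) v hv
    · simp only [act_mul, i2, act_smul, i1, h1, hx, smul_smul]
      convert one_smul F v using 2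
      field_simp
    · have h3 : Matrix.GeneralLinearGroup.det (l * l0 * l⁻¹ * l0⁻¹) = 1 := by
        simp only [map_mul, map_inv]
        rw [mul_comm (Matrix.GeneralLinearGroup.det l) (Matrix.GeneralLinearGroup.det l0)]
        group
      exact congrArg (fun u : Fˣ => (u : F)) h3
  have hcomm : l * l0 = l0 * l := by
    have h3 : l * l0 * l⁻¹ * l0⁻¹ * (l0 * l) = l0 * l := by rw [hk, one_mul]
    rw [← h3]
    group
  have h5 : act l0 (act l w) = a • act l w := by
    rw [← act_mul, ← hcomm, act_mul, h2, act_smul]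
  obtain ⟨x', y', hxy⟩ := expand hD (act l w)
  have h6 : x' = 0 := by
    rw [hxy, act_add, act_smul, act_smul, h1, h2] at h5
    have h7 := congrArg (fun u => D u w) h5
    simp only [D_add_left, D_smul_left, D_self, smul_add] at h7
    have h8 : x' * a * (t ^ 2 - 1) * D v w = 0 := by linear_combination h7
    rcases mul_eq_zero.1 h8 with h9 | h9
    · rcases mul_eq_zero.1 h9 with h9 | h9
      · rcases mul_eq_zero.1 h9 with h9 | h9
        · exact h9
        · exact absurd h9 ha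
      · exact absurd (sub_eq_zero.1 h9) ht2
    · exact absurd h9 hD
  rw [hxy, h6]
  simp [D_smul_left, D_self, zero_smul]

/-- An element of `L` with two eigenvectors given by a partner pair. -/
theorem tor_par {t : F} (ht : t ≠ 0) (ht2 : t ^ 2 ≠ 1) (hT : Tor L) {v w : Fin 2 → F}
    (h : Par L v w) : ∃ l ∈ L, ∃ a : F, a ≠ 0 ∧ act l v = (t ^ 2 * a) • v ∧ act l w = a • w := by
  obtain ⟨l, hl, a, w0, ha, hD, h1, h2⟩ := hT v (ne_zero_left h.1) t ht ht2
  refine ⟨l, hl, a, ha, h1, ?_⟩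
  have h3 : D (act l v) v = 0 := by rw [h1, D_smul_left, D_self, mul_zero]
  have h4 := h.2 l hl h3
  obtain ⟨x, y, hxy⟩ := expand hD w
  have hy : y ≠ 0 := by
    rintro rfl
    apply h.1
    rw [hxy, D_add_right, D_smul_right, D_smul_right, D_self]
    ring
  have hx : x = 0 := by
    rw [hxy, act_add, act_smul, act_smul, h1, h2] at h4
    simp only [D_add_left, D_smul_left, D_add_right, D_smul_right, D_self] at h4
    have h8 : a * (t ^ 2 - 1) * x * y * D v w0 = 0 := by
      rw [D_comm w0 v] at h4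
      linear_combination h4
    rcases mul_eq_zero.1 h8 with h9 | h9
    · rcases mul_eq_zero.1 h9 with h9 | h9
      · rcases mul_eq_zero.1 h9 with h9 | h9
        · rcases mul_eq_zero.1 h9 with h9 | h9
          · exact absurd h9 ha
          · exact absurd (sub_eq_zero.1 h9) ht2
        · exact h9
      · exact absurd h9 hy
    · exact absurd h9 hD
  rw [hxy, hx, zero_smul, zero_add, act_smul, h2, smul_smul, smul_smul, mul_comm]

theorem eig_two {t : F} (ht2 : t ^ 2 ≠ 1) {v w u : Fin 2 → F} (hD : D v w ≠ 0)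
    {l : GeneralLinearGroup (Fin 2) F} {a : F} (ha : a ≠ 0) (h1 : act l v = (t ^ 2 * a) • v)
    (h2 : act l w = a • w) (hu : D (act l u) u = 0) :
    (∃ x : F, u = x • v) ∨ (∃ y : F, u = y • w) := by
  obtain ⟨x, y, hxy⟩ := expand hD u
  rw [hxy, act_add, act_smul, act_smul, h1, h2] at hu
  simp only [D_add_left, D_smul_left, D_add_right, D_smul_right, D_self] at hu
  have h8 : a * (t ^ 2 - 1) * x * y * D v w = 0 := by
    rw [D_comm w v] at hu
    linear_combination hu
  rcases mul_eq_zero.1 h8 with h9 | h9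
  · rcases mul_eq_zero.1 h9 with h9 | h9
    · rcases mul_eq_zero.1 h9 with h9 | h9
      · rcases mul_eq_zero.1 h9 with h9 | h9
        · exact absurd h9 ha
        · exact absurd (sub_eq_zero.1 h9) ht2
      · right
        exact ⟨y, by rw [hxy, h9, zero_smul, zero_add]⟩
    · left
      exact ⟨x, by rw [hxy, h9, zero_smul, add_zero]⟩
  · exact absurd h9 hD

/-- Uniqueness of the partner. -/
theorem Par.uniq {t : F} (ht : t ≠ 0) (ht2 : t ^ 2 ≠ 1) (hT : Tor L) {v w w' : Fin 2 → F}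
    (h : Par L v w) (h' : Par L v w') : ∃ y : F, w' = y • w := by
  obtain ⟨l, hl, a, ha, h1, h2⟩ := tor_par ht ht2 hT h
  have h3 : D (A2.act l v) v = 0 := by rw [h1, D_smul_left, D_self, mul_zero]
  rcases eig_two ht2 h.1 ha h1 h2 (h'.2 l hl h3) with ⟨x, hx⟩ | h4
  · exfalso
    apply h'.1
    rw [hx, D_smul_right, D_self, mul_zero]
  · exact h4

/-- Symmetry of the partner relation. -/
theorem Par.symm {t : F} (ht : t ≠ 0) (ht2 : t ^ 2 ≠ 1) (hT : Tor L) (hN : NoU L)
    {v w : Fin 2 → F} (h : Par L v w) : Par L w v := by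
  obtain ⟨l, hl, a, ha, h1, h2⟩ := tor_par ht ht2 hT h
  obtain ⟨u, hu⟩ := exists_par ht ht2 hT hN (ne_zero_right h.1)
  have h3 : D (A2.act l w) w = 0 := by rw [h2, D_smul_left, D_self, mul_zero]
  rcases eig_two ht2 h.1 ha h1 h2 (hu.2 l hl h3) with ⟨x, hx⟩ | ⟨y, hy⟩
  · have hx0 : x ≠ 0 := by
      rintro rfl
      rw [zero_smul] at hx
      exact ne_zero_right hu.1 hx
    have h5 := hu.smul (c := 1) (d := x⁻¹) one_ne_zero (inv_ne_zero hx0)
    rw [one_smul, hx, smul_smul, inv_mul_cancel₀ hx0, one_smul] at h5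
    exact h5
  · exfalso
    apply hu.1
    rw [hy, D_smul_right, D_self, mul_zero]

section Coord

variable {v0 w0 : Fin 2 → F}

/-- The point with coordinate `z`. -/
def pt (v0 w0 : Fin 2 → F) (z : F) : Fin 2 → F := z • v0 + w0

theorem D_pt (z r : F) : D (pt v0 w0 z) (pt v0 w0 r) = (z - r) * D v0 w0 := by
  simp only [pt, D_add_left, D_add_right, D_smul_left, D_smul_right, D_self]
  rw [D_comm w0 v0]
  ring

theorem par_ne (z r : F) (h : Par L (pt v0 w0 z) (pt v0 w0 r)) : z ≠ r := by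
  rintro rfl
  exact h.1 (D_self _)

theorem pt_uniq {t : F} (ht : t ≠ 0) (ht2 : t ^ 2 ≠ 1) (hT : Tor L) (h0 : D v0 w0 ≠ 0)
    {v : Fin 2 → F} {r r' : F}
    (h : Par L v (pt v0 w0 r)) (h' : Par L v (pt v0 w0 r')) : r = r' := by
  obtain ⟨y, hy⟩ := h.uniq ht ht2 hT h'
  have h1 : D (pt v0 w0 r) (pt v0 w0 r') = 0 := by rw [hy, D_smul_right, D_self, mul_zero]
  rw [D_pt] at h1
  rcases mul_eq_zero.1 h1 with h2 | h2
  · exact sub_eq_zero.1 h2
  · exact absurd h2 h0

theorem exists_pt {t : F} (ht : t ≠ 0) (ht2 : t ^ 2 ≠ 1) (hT : Tor L) (hN : NoU L)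
    (h : Par L v0 w0) {z : F} (hz : z ≠ 0) :
    ∃ r : F, r ≠ 0 ∧ Par L (pt v0 w0 z) (pt v0 w0 r) := by
  have h1 : D v0 (pt v0 w0 z) = D v0 w0 := by
    simp only [pt, D_add_right, D_smul_right, D_self]
    ring
  have h2 : pt v0 w0 z ≠ 0 := by
    apply ne_zero_right (v := v0)
    rw [h1]
    exact h.1
  obtain ⟨w, hw⟩ := exists_par ht ht2 hT hN h2
  obtain ⟨x, y, hxy⟩ := expand h.1 w
  have hy : y ≠ 0 := by
    rintro rfl
    rw [zero_smul, add_zero] at hxy
    have hx : x ≠ 0 := by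
      rintro rfl
      rw [zero_smul] at hxy
      exact ne_zero_right hw.1 hxy
    have h3 := (hw.smul (c := 1) (d := x⁻¹) one_ne_zero (inv_ne_zero hx))
    rw [one_smul, hxy, smul_smul, inv_mul_cancel₀ hx, one_smul] at h3
    have h4 := h3.symm ht ht2 hT hN
    obtain ⟨y, hy⟩ := h.uniq ht ht2 hT h4
    have h5 : D (pt v0 w0 z) w0 = 0 := by rw [hy, D_smul_left, D_self, mul_zero]
    simp only [pt, D_add_left, D_smul_left, D_self, add_zero] at h5
    rcases mul_eq_zero.1 h5 with h6 | h6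
    · exact hz h6
    · exact h.1 h6
  have hx : x ≠ 0 := by
    rintro rfl
    rw [zero_smul, zero_add] at hxy
    have h3 := (hw.smul (c := 1) (d := y⁻¹) one_ne_zero (inv_ne_zero hy))
    rw [one_smul, hxy, smul_smul, inv_mul_cancel₀ hy, one_smul] at h3
    have h4 := h3.symm ht ht2 hT hN
    obtain ⟨y, hy⟩ := (h.symm ht ht2 hT hN).uniq ht ht2 hT h4
    apply h.1
    rw [← h1, hy, D_smul_right, D_self, mul_zero]
  refine ⟨x / y, div_ne_zero hx hy, ?_⟩
  have h3 := (hw.smul (c := 1) (d := y⁻¹) one_ne_zero (inv_ne_zero hy))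
  rw [one_smul, hxy] at h3
  have h4 : y⁻¹ • (x • v0 + y • w0) = pt v0 w0 (x / y) := by
    rw [smul_add, smul_smul, smul_smul, inv_mul_cancel₀ hy, one_smul, pt, div_eq_inv_mul]
  rw [h4] at h3
  exact h3

theorem par_sq (hT : Tor L) (h : Par L v0 w0) {z r s : F} (hs : s ≠ 0)
    (hp : Par L (pt v0 w0 z) (pt v0 w0 r)) :
    Par L (pt v0 w0 (s ^ 2 * z)) (pt v0 w0 (s ^ 2 * r)) := by
  by_cases hs2 : s ^ 2 = 1
  · rw [hs2, one_mul, one_mul]
    exact hp
  obtain ⟨l, hl, a, ha, h1, h2⟩ := tor_par hs hs2 hT h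
  have h3 : ∀ u : F, a⁻¹ • A2.act l (pt v0 w0 u) = pt v0 w0 (s ^ 2 * u) := by
    intro u
    simp only [pt, act_add, act_smul, h1, h2, smul_add, smul_smul]
    rw [inv_mul_cancel₀ ha, one_smul]
    congr 2
    field_simp
  have h4 := (hp.act hl).smul (inv_ne_zero ha) (inv_ne_zero ha)
  rw [h3, h3] at h4
  exact h4

/-- The partner of the point `z` is `κ z` or `κ⁻¹ z`. -/
theorem ratio [Finite F] {t : F} (ht : t ≠ 0) (ht2 : t ^ 2 ≠ 1) (hT : Tor L) (hN : NoU L)
    (h : Par L v0 w0) {κ : F} (hκ : κ ≠ 0) (h1 : Par L (pt v0 w0 1) (pt v0 w0 κ)) {z r : F}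
    (hz : z ≠ 0) (hr : r ≠ 0) (hp : Par L (pt v0 w0 z) (pt v0 w0 r)) : r = κ * z ∨ κ * r = z := by
  have h1' := h1.symm ht ht2 hT hN
  have hp' := hp.symm ht ht2 hT hN
  by_cases c1 : ∃ s : F, z = s ^ 2
  · obtain ⟨s, rfl⟩ := c1
    have hs : s ≠ 0 := by
      rintro rfl
      exact hz (by ring)
    have h2 := par_sq hT h hs h1
    rw [mul_one] at h2
    left
    rw [pt_uniq ht ht2 hT h.1 hp h2]
    ring
  by_cases c2 : ∃ s : F, κ * z = s ^ 2
  · obtain ⟨s, hs'⟩ := c2
    have hs : s ≠ 0 := by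
      rintro rfl
      exact mul_ne_zero hκ hz (by rw [hs']; ring)
    have h2 := par_sq hT h (s := s / κ) (div_ne_zero hs hκ) h1'
    have e : (s / κ) ^ 2 * κ = z := by
      field_simp
      rw [← hs']
    rw [e, mul_one] at h2
    right
    rw [pt_uniq ht ht2 hT h.1 hp h2]
    field_simp
    rw [← hs']
  -- product of two nonsquares
  have prod : ∀ a b : F, a ≠ 0 → b ≠ 0 → (¬ ∃ s : F, a = s ^ 2) → (¬ ∃ s : F, b = s ^ 2) →
      ∃ s : F, a * b = s ^ 2 := by
    intro a b ha hb na nb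
    have := Fintype.ofFinite F
    by_cases hch : ringChar F = 2
    · exfalso
      apply na
      obtain ⟨s, hs⟩ := FiniteField.isSquare_of_char_two hch a
      exact ⟨s, by rw [hs]; ring⟩
    · have key : ∀ c : F, c ≠ 0 → (¬ ∃ s : F, c = s ^ 2) → c ^ (Fintype.card F / 2) = -1 := by
        intro c hc nc
        rcases FiniteField.pow_dichotomy hch hc with h3 | h3
        · exfalso
          apply nc
          obtain ⟨s, hs⟩ := (FiniteField.isSquare_iff hch hc).2 h3
          exact ⟨s, by rw [hs]; ring⟩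
        · exact h3
      have h3 : (a * b) ^ (Fintype.card F / 2) = 1 := by
        rw [mul_pow, key a ha na, key b hb nb]
        ring
      obtain ⟨s, hs⟩ := (FiniteField.isSquare_iff hch (mul_ne_zero ha hb)).2 h3
      exact ⟨s, by rw [hs]; ring⟩
  -- κ is a square
  have hκsq : ∃ u : F, κ = u ^ 2 := by
    by_contra hn
    exact c2 (prod κ z hκ hz hn c1)
  obtain ⟨u, hu⟩ := hκsq
  have hu0 : u ≠ 0 := by
    rintro rfl
    exact hκ (by rw [hu]; ring)
  have h2 := par_sq hT h hu0 h1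
  rw [← hu, mul_one] at h2
  have hκκ : κ * κ = 1 := pt_uniq ht ht2 hT h.1 h2 h1'
  by_cases c3 : ∃ s : F, r = s ^ 2
  · obtain ⟨s, rfl⟩ := c3
    have hs : s ≠ 0 := by
      rintro rfl
      exact hr (by ring)
    have h2 := par_sq hT h hs h1
    rw [mul_one] at h2
    right
    rw [pt_uniq ht ht2 hT h.1 hp' h2]
    ring
  · obtain ⟨s, hs'⟩ := prod r z hr hz c3 c1
    have hs : s ≠ 0 := by
      rintro rfl
      exact mul_ne_zero hr hz (by rw [hs']; ring)
    have h4 := par_sq hT h (s := s / z) (div_ne_zero hs hz) hp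
    have e : (s / z) ^ 2 * z = r := by
      field_simp
      rw [← hs']
      ring
    rw [e] at h4
    have h5 : (s / z) ^ 2 * r = z := pt_uniq ht ht2 hT h.1 h4 hp'
    have h6 : r * r = z * z := by
      have h7 : s ^ 2 * r = z ^ 3 := by
        have h8 : (s / z) ^ 2 * z ^ 2 = s ^ 2 := by
          field_simp
        calc s ^ 2 * r = ((s / z) ^ 2 * r) * z ^ 2 := by rw [← h8]; ring
          _ = z ^ 3 := by rw [h5]; ring
      rw [← hs'] at h7
      have h9 : z * (r * r - z * z) = 0 := by linear_combination h7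
      rcases mul_eq_zero.1 h9 with h10 | h10
      · exact absurd h10 hz
      · linear_combination h10
    have h7 : r = - z := by
      rcases mul_self_eq_mul_self_iff.1 h6 with h8 | h8
      · exact absurd h8.symm (par_ne z r hp)
      · exact h8
    have h8 : κ = -1 := by
      have h9 : κ * κ = 1 * 1 := by rw [hκκ]; ring
      rcases mul_self_eq_mul_self_iff.1 h9 with h10 | h10
      · exact absurd h10.symm (par_ne 1 κ h1)
      · exact h10
    left
    rw [h7, h8]
    ring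

end Coord

open Polynomial in
theorem exists_eval_ne [Fintype F] (f : Polynomial F) (hf : f ≠ 0)
    (hd : f.natDegree < Fintype.card F) : ∃ t : F, f.eval t ≠ 0 := by
  by_contra hcon
  push Not at hcon
  exact hf (Polynomial.eq_zero_of_natDegree_lt_card_of_eval_eq_zero' f Finset.univ
    (fun i _ => hcon i) (by rwa [Finset.card_univ]))

open Polynomial in
theorem exists_good [Fintype F] (hq : 13 < Fintype.card F) {κ : F} (hκ : κ ≠ 0) :
    ∃ t : F, t ≠ 0 ∧ t ^ 2 ≠ 1 ∧ t ^ 2 ≠ κ ∧ (t ^ 2) ^ 2 - (1 + κ) * t ^ 2 + 1 ≠ 0 ∧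
      κ * (t ^ 2) ^ 2 - (1 + κ) * t ^ 2 + κ ≠ 0 := by
  have m1 : (X ^ 2 - C (1 : F)).Monic := monic_X_pow_sub_C 1 two_ne_zero
  have m2 : (X ^ 2 - C κ).Monic := monic_X_pow_sub_C κ two_ne_zero
  set p3 : F[X] := X ^ 4 + (C (-(1 + κ)) * X ^ 2 + C 1) with hp3
  set p4 : F[X] := C κ * X ^ 4 + (C (-(1 + κ)) * X ^ 2 + C κ) with hp4
  have d0 : ∀ a b : F, (C a * X ^ 2 + C b : F[X]).natDegree ≤ 2 := by
    intro a b
    compute_degree
  have n3 : p3 ≠ 0 := by
    intro h0
    have := congrArg (fun p : F[X] => p.coeff 4) h0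
    simp only [hp3] at this
    rw [coeff_add, coeff_eq_zero_of_natDegree_lt (lt_of_le_of_lt (d0 _ _) (by norm_num))] at this
    simp at this
  have n4 : p4 ≠ 0 := by
    intro h0
    have := congrArg (fun p : F[X] => p.coeff 4) h0
    simp only [hp4] at this
    rw [coeff_add, coeff_eq_zero_of_natDegree_lt (lt_of_le_of_lt (d0 _ _) (by norm_num))] at this
    simp at this
    exact hκ this
  have e3 : p3.natDegree ≤ 4 := by
    rw [hp3]
    compute_degree
  have e4 : p4.natDegree ≤ 4 := by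
    rw [hp4]
    compute_degree
  have e1 : (X ^ 2 - C (1 : F)).natDegree ≤ 2 := by
    compute_degree
  have e2 : (X ^ 2 - C κ).natDegree ≤ 2 := by
    compute_degree
  obtain ⟨t, ht⟩ := exists_eval_ne (X * (X ^ 2 - C (1 : F)) * (X ^ 2 - C κ) * p3 * p4)
    (mul_ne_zero (mul_ne_zero (mul_ne_zero (mul_ne_zero X_ne_zero m1.ne_zero) m2.ne_zero) n3) n4)
    (by
      refine lt_of_le_of_lt ?_ hq
      refine natDegree_mul_le_of_le (m := 9) (n := 4) ?_ e4
      refine natDegree_mul_le_of_le (m := 5) (n := 4) ?_ e3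
      refine natDegree_mul_le_of_le (m := 3) (n := 2) ?_ e2
      refine natDegree_mul_le_of_le (m := 1) (n := 2) ?_ e1
      exact natDegree_X_le)
  simp only [hp3, hp4, eval_mul, eval_add, eval_sub, eval_pow, eval_X, eval_C] at ht
  refine ⟨t, ?_, ?_, ?_, ?_, ?_⟩
  · rintro rfl
    exact ht (by ring)
  · intro h0
    exact ht (by rw [h0]; ring)
  · intro h0
    exact ht (by rw [h0]; ring)
  · intro h0
    apply ht
    have : t ^ 4 + (-(1 + κ) * t ^ 2 + 1) = 0 := by linear_combination h0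
    rw [this]
    ring
  · intro h0
    apply ht
    have : κ * t ^ 4 + (-(1 + κ) * t ^ 2 + κ) = 0 := by linear_combination h0
    rw [this]
    ring

/-- The contradiction. -/
theorem core [Fintype F] (hq : 13 < Fintype.card F) (hT : Tor L) (hN : NoU L) : False := by
  obtain ⟨t, ht, ht2, -⟩ := exists_good hq (κ := (1 : F)) one_ne_zero
  have hv : (![1, 0] : Fin 2 → F) ≠ 0 := by
    intro h0
    simpa using congrFun h0 0
  obtain ⟨w0, h0⟩ := exists_par ht ht2 hT hN hv
  generalize (![1, 0] : Fin 2 → F) = v0 at h0 hv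
  obtain ⟨κ, hκ, h1⟩ := exists_pt ht ht2 hT hN h0 (z := 1) one_ne_zero
  have hκ1 : (1 : F) ≠ κ := par_ne 1 κ h1
  obtain ⟨s, hs, hs2, hsκ, q1, q2⟩ := exists_good hq hκ
  obtain ⟨l, hl, a, ha, l1, l2⟩ := tor_par hs hs2 hT h1
  generalize hc : s ^ 2 = c at *
  have k1 : κ - 1 ≠ 0 := sub_ne_zero.2 hκ1.symm
  have k2 : 1 - c ≠ 0 := sub_ne_zero.2 (Ne.symm hs2)
  have k3 : κ - c ≠ 0 := sub_ne_zero.2 (Ne.symm hsκ)
  have m1 : (κ - 1) • act l v0 = a • ((κ - c) • v0 + (1 - c) • w0) := by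
    have e : (κ - 1) • v0 = pt v0 w0 κ + (-1 : F) • pt v0 w0 1 := by
      simp only [pt]
      module
    rw [← act_smul, e, act_add, act_smul, l1, l2]
    simp only [pt]
    module
  have m2 : (κ - 1) • act l w0 = a • ((κ * (c - 1)) • v0 + (κ * c - 1) • w0) := by
    have e : (κ - 1) • w0 = κ • pt v0 w0 1 + (-1 : F) • pt v0 w0 κ := by
      simp only [pt]
      module
    rw [← act_smul, e, act_add, act_smul, act_smul, l1, l2]
    simp only [pt]
    module
  have hw0 : (κ - c) / (1 - c) ≠ 0 := div_ne_zero k3 k2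
  have m3 : (a⁻¹ * (1 - c)⁻¹ * (κ - 1)) • act l v0 = pt v0 w0 ((κ - c) / (1 - c)) := by
    rw [mul_smul, m1, smul_smul, smul_add, smul_smul, smul_smul, pt]
    congr 1
    · congr 1
      field_simp
    · convert one_smul F w0 using 2
      field_simp
  have m4 : (a⁻¹ * (κ - 1)) • act l w0 = (κ * (c - 1)) • v0 + (κ * c - 1) • w0 := by
    rw [mul_smul, m2, smul_smul, inv_mul_cancel₀ ha, one_smul]
  have P1 := (h0.act hl).smul (c := a⁻¹ * (1 - c)⁻¹ * (κ - 1)) (d := a⁻¹ * (κ - 1))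
    (mul_ne_zero (mul_ne_zero (inv_ne_zero ha) (inv_ne_zero k2)) k1)
    (mul_ne_zero (inv_ne_zero ha) k1)
  rw [m3, m4] at P1
  obtain ⟨r, hr, P2⟩ := exists_pt ht ht2 hT hN h0 hw0
  obtain ⟨y, hy⟩ := P2.uniq ht ht2 hT P1
  have e1 : D (pt v0 w0 r) ((κ * (c - 1)) • v0 + (κ * c - 1) • w0) = 0 := by
    rw [hy, D_smul_right, D_self, mul_zero]
  have e2 : r * (κ * c - 1) - κ * (c - 1) = 0 := by
    simp only [pt, D_add_left, D_add_right, D_smul_left, D_smul_right, D_self] at e1
    rw [D_comm w0 v0] at e1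
    have e3 : (r * (κ * c - 1) - κ * (c - 1)) * D v0 w0 = 0 := by linear_combination e1
    rcases mul_eq_zero.1 e3 with e4 | e4
    · exact e4
    · exact absurd e4 h0.1
  have e3 : (κ - c) / (1 - c) * (1 - c) = κ - c := by field_simp
  rcases ratio ht ht2 hT hN h0 hκ h1 hw0 hr P2 with e4 | e4
  · generalize (κ - c) / (1 - c) = w at *
    apply q1
    rw [e4] at e2
    have e5 : κ * (w * (κ * c - 1) - (c - 1)) = 0 := by linear_combination e2
    have e6 : w * (κ * c - 1) - (c - 1) = 0 := (mul_eq_zero.1 e5).resolve_left hκ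
    have e7 : (κ - 1) * (c ^ 2 - (1 + κ) * c + 1) = 0 := by
      linear_combination (κ * c - 1) * e3 - (1 - c) * e6
    exact (mul_eq_zero.1 e7).resolve_left k1
  · generalize (κ - c) / (1 - c) = w at *
    apply q2
    have e6 : w * (κ * c - 1) - κ * κ * (c - 1) = 0 := by
      rw [← e4]
      linear_combination κ * e2
    have e7 : (κ - 1) * (κ * c ^ 2 - (1 + κ) * c + κ) = 0 := by
      linear_combination (1 - c) * e6 - (κ * c - 1) * e3
    exact (mul_eq_zero.1 e7).resolve_left k1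

end Lin43.A2
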