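import Pool.Agent.Lib.MP_43150e_al.Lin.Gen
import Pool.Agent.Lib.MP_43150e_al.Lin.A2Core

/-! # A subgroup of `GL_2(F)` with large tori everywhere contains a full unipotent group

Paragraph 4, A2. `L ≤ GL_2(F)`, `|F| > 59`; for every `g ∈ SL_2(F)` and `t ≠ 0` some `l ∈ L` with
`g⁻¹ l g = [[t² a, b], [0, a]]`. Then for some `g` all `g [[1, c], [0, 1]] g⁻¹` are in `L`.

Step 1. For `g` let `A_g = {c | g [[1,c],[0,1]] g⁻¹ ∈ L}`, an additive subgroup, closed under multiplication
by squares `t²` (conjugate by the given elements). Every element of `F` is a difference of two squares (or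
a square in characteristic 2), so `A_g ≠ 0` implies `A_g = F` and we are done. Assume `A_g = 0` for all `g`.

Step 2. Let `P` be a point of the projective line, `L_P` its stabiliser in `L`. A nonscalar `l ∈ L_P` has two
different eigenvalues (otherwise `l^(q-1)` is a nontrivial unipotent) and two elements of `L_P` commute modulo
nothing (their commutator is unipotent, so `1`); so all nonscalar elements of `L_P` (there are some) have
the same second fixed point `P'`. `P ↦ P'` is an involution commuting with `L`.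

Step 3. Conjugate so that `P = ∞ = [1:0]`, `P' = 0 = [0:1]`. So `diag(t² d, d) ∈ L` for all `t ≠ 0` (some `d`).
The involution `ρ` on `F \ {0}` satisfies `ρ(t² z) = t² ρ(z)`. With `κ = ρ(1) ≠ 1`: for `z ≠ 0`,
`ρ(z)/z ∈ {κ, κ⁻¹}` (`ρ(z) = κ z` on squares; if `κ` is a square then `κ² = 1` and `ρ(z) = -z` everywhere;
if `κ` is not a square, `ρ(z) = κ⁻¹ z` on nonsquares).

Step 4. For each square `c ≠ 1` the group `L` contains (a scalar multiple of) the element with fixed
points `1, κ` and multiplier `c` or `c⁻¹`; it maps `∞` to `w = (1 - cκ)/(1 - c)` and `0` to `w' = κ(1-c)/(κ-c)`. So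
`ρ(w) = w'` if `w ≠ 0`, hence `κ(1-c)² = κ^(±1) (κ-c)(1-cκ)`, i.e. `c² - (1+κ)c + 1 = 0` or
`κ(1+c²) - c(1+κ) = 0`. So at most `6` squares: contradiction. -/

set_option autoImplicit false

namespace Lin43

open Matrix

/-- Additive subgroups of a finite field closed under multiplication by squares. -/
theorem addSubgroup_sq {F : Type*} [Field F] [Finite F] (A : AddSubgroup F)
    (hA : ∀ t : F, ∀ a ∈ A, t ^ 2 * a ∈ A) (hne : ∃ a ∈ A, a ≠ 0) : A = ⊤ := by
  obtain ⟨a, ha, ha0⟩ := hne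
  rw [eq_top_iff]
  intro x _
  have := Fintype.ofFinite F
  by_cases hch : ringChar F = 2
  · obtain ⟨s, hs⟩ := FiniteField.isSquare_of_char_two hch (x / a)
    have e : x = s ^ 2 * a := by
      rw [pow_two, ← hs]
      field_simp
    rw [e]
    exact hA s a ha
  · have h2 : (2 : F) ≠ 0 := Ring.two_ne_zero hch
    have e : x = ((x / a + 1) / 2) ^ 2 * a - ((x / a - 1) / 2) ^ 2 * a := by
      field_simp
      ring
    rw [e]
    exact A.sub_mem (hA _ a ha) (hA _ a ha)

/-- Every nonzero vector is the first column of an element of `SL_2`. -/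
theorem exists_col {F : Type*} [Field F] (v : Fin 2 → F) (hv : v ≠ 0) :
    ∃ g : SpecialLinearGroup (Fin 2) F,
      (g : Matrix (Fin 2) (Fin 2) F) 0 0 = v 0 ∧ (g : Matrix (Fin 2) (Fin 2) F) 1 0 = v 1 := by
  by_cases h0 : v 0 = 0
  · have h1 : v 1 ≠ 0 := by
      intro h1
      apply hv
      funext i
      fin_cases i
      · simpa using h0
      · simpa using h1
    refine ⟨⟨!![0, -(v 1)⁻¹; v 1, 0], ?_⟩, ?_, ?_⟩
    · rw [Matrix.det_fin_two_of]
      field_simp
      ring
    · simp [h0]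
    · simp
  · refine ⟨⟨!![v 0, 0; v 1, (v 0)⁻¹], ?_⟩, ?_, ?_⟩
    · rw [Matrix.det_fin_two_of]
      field_simp
      ring
    · simp
    · simp

/-- The set of `c` such that the conjugate of `[[1, c], [0, 1]]` is in `L`. -/
def uSub {F : Type*} [Field F] (L : Subgroup (GeneralLinearGroup (Fin 2) F))
    (g : SpecialLinearGroup (Fin 2) F) : AddSubgroup F where
  carrier := {c | ∃ l ∈ L, (l : Matrix (Fin 2) (Fin 2) F) * (g : Matrix (Fin 2) (Fin 2) F) =
        (g : Matrix (Fin 2) (Fin 2) F) * !![1, c; 0, 1]}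
  zero_mem' := by
    refine ⟨1, L.one_mem, ?_⟩
    rw [← Matrix.one_fin_two]
    simp
  add_mem' := by
    rintro c d ⟨l, hl, h1⟩ ⟨m, hm, h2⟩
    refine ⟨l * m, L.mul_mem hl hm, ?_⟩
    rw [Units.val_mul, Matrix.mul_assoc, h2, ← Matrix.mul_assoc, h1, Matrix.mul_assoc]
    congr 1
    simp
    ring
  neg_mem' := by
    rintro c ⟨l, hl, h1⟩
    refine ⟨l⁻¹, L.inv_mem hl, ?_⟩
    have e : (!![1, c; 0, 1] : Matrix (Fin 2) (Fin 2) F) * !![1, -c; 0, 1] = 1 := by
      rw [Matrix.one_fin_two]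
      simp
    have e2 : ((l⁻¹ : GeneralLinearGroup (Fin 2) F) : Matrix (Fin 2) (Fin 2) F) *
        (l : Matrix (Fin 2) (Fin 2) F) = 1 := by
      rw [← Units.val_mul, inv_mul_cancel, Units.val_one]
    calc ((l⁻¹ : GeneralLinearGroup (Fin 2) F) : Matrix (Fin 2) (Fin 2) F) *
          (g : Matrix (Fin 2) (Fin 2) F)
        = ((l⁻¹ : GeneralLinearGroup (Fin 2) F) : Matrix (Fin 2) (Fin 2) F) *
          ((g : Matrix (Fin 2) (Fin 2) F) * (!![1, c; 0, 1] * !![1, -c; 0, 1])) := by
          rw [e, Matrix.mul_one]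
      _ = ((l⁻¹ : GeneralLinearGroup (Fin 2) F) : Matrix (Fin 2) (Fin 2) F) *
          (((l : Matrix (Fin 2) (Fin 2) F) * (g : Matrix (Fin 2) (Fin 2) F)) *
            !![1, -c; 0, 1]) := by
          rw [h1, Matrix.mul_assoc]
      _ = (g : Matrix (Fin 2) (Fin 2) F) * !![1, -c; 0, 1] := by
          rw [Matrix.mul_assoc, ← Matrix.mul_assoc, e2, Matrix.one_mul]

theorem mem_uSub {F : Type*} [Field F] (L : Subgroup (GeneralLinearGroup (Fin 2) F))
    (g : SpecialLinearGroup (Fin 2) F) (c : F) : c ∈ uSub L g ↔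
      ∃ l ∈ L, (l : Matrix (Fin 2) (Fin 2) F) * (g : Matrix (Fin 2) (Fin 2) F) =
        (g : Matrix (Fin 2) (Fin 2) F) * !![1, c; 0, 1] := Iff.rfl

theorem uSub_sq {F : Type*} [Field F] (L : Subgroup (GeneralLinearGroup (Fin 2) F))
    (g : SpecialLinearGroup (Fin 2) F)
    (h : ∀ (t : F), t ≠ 0 → ∃ l ∈ L, ∃ a b : F,
      (l : Matrix (Fin 2) (Fin 2) F) * (g : Matrix (Fin 2) (Fin 2) F) =
        (g : Matrix (Fin 2) (Fin 2) F) * !![t ^ 2 * a, b; 0, a]) (t : F) (c : F)
    (hc : c ∈ uSub L g) : t ^ 2 * c ∈ uSub L g := by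
  by_cases ht : t = 0
  · rw [ht]
    simp [(uSub L g).zero_mem]
  obtain ⟨l, hl, a, b, h1⟩ := h t ht
  obtain ⟨m, hm, h2⟩ := hc
  refine ⟨l * m * l⁻¹, L.mul_mem (L.mul_mem hl hm) (L.inv_mem hl), ?_⟩
  set M : Matrix (Fin 2) (Fin 2) F := (g : Matrix (Fin 2) (Fin 2) F) with hM
  set T : Matrix (Fin 2) (Fin 2) F := !![t ^ 2 * a, b; 0, a] with hT
  have e2 : ((l⁻¹ : GeneralLinearGroup (Fin 2) F) : Matrix (Fin 2) (Fin 2) F) *
      (l : Matrix (Fin 2) (Fin 2) F) = 1 := by
    rw [← Units.val_mul, inv_mul_cancel, Units.val_one]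
  have e3 : ((l⁻¹ : GeneralLinearGroup (Fin 2) F) : Matrix (Fin 2) (Fin 2) F) * (M * T) = M := by
    rw [← h1, ← Matrix.mul_assoc, e2, Matrix.one_mul]
  have e4 : T * !![1, c; 0, 1] = !![1, t ^ 2 * c; 0, 1] * T := by
    rw [hT]
    simp
    ring
  have hdet : IsUnit T := by
    rw [Matrix.isUnit_iff_isUnit_det]
    have h3 := congrArg Matrix.det h1
    rw [Matrix.det_mul, Matrix.det_mul, hM, g.det_coe, mul_one, one_mul] at h3
    rw [← h3]
    exact (Matrix.isUnit_iff_isUnit_det _).1 l.isUnit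
  apply hdet.mul_right_cancel
  rw [Units.val_mul, Units.val_mul, Matrix.mul_assoc, Matrix.mul_assoc, e3, Matrix.mul_assoc,
    h2, ← Matrix.mul_assoc, h1, Matrix.mul_assoc, e4, Matrix.mul_assoc]

theorem a2 {F : Type*} [Field F] [Fintype F] (hq : 59 < Fintype.card F)
    (L : Subgroup (GeneralLinearGroup (Fin 2) F))
    (h : ∀ (g : SpecialLinearGroup (Fin 2) F) (t : F), t ≠ 0 → ∃ l ∈ L, ∃ a b : F,
      (l : Matrix (Fin 2) (Fin 2) F) * (g : Matrix (Fin 2) (Fin 2) F) =
        (g : Matrix (Fin 2) (Fin 2) F) * !![t ^ 2 * a, b; 0, a]) :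
    ∃ g : SpecialLinearGroup (Fin 2) F, ∀ c : F, ∃ l ∈ L,
      (l : Matrix (Fin 2) (Fin 2) F) * (g : Matrix (Fin 2) (Fin 2) F) =
        (g : Matrix (Fin 2) (Fin 2) F) * !![1, c; 0, 1] := by
  by_cases hex : ∃ g : SpecialLinearGroup (Fin 2) F, ∃ c ∈ uSub L g, c ≠ 0
  · obtain ⟨g, c, hc, hc0⟩ := hex
    refine ⟨g, fun d => ?_⟩
    have h1 : uSub L g = ⊤ := addSubgroup_sq (uSub L g)
      (fun t a ha => uSub_sq L g (h g) t a ha) ⟨c, hc, hc0⟩
    rw [← mem_uSub, h1]
    trivial
  push Not at hex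
  exfalso
  refine A2.core (L := L) (lt_trans (by norm_num) hq) ?_ ?_
  · -- tori
    intro v hv t ht ht2
    obtain ⟨g, g0, g1⟩ := exists_col v hv
    obtain ⟨l, hl, a, b, h1⟩ := h g t ht
    have hdg : (g : Matrix (Fin 2) (Fin 2) F).det = 1 := g.det_coe
    have ha : a ≠ 0 := by
      rintro rfl
      have h3 := congrArg Matrix.det h1
      rw [Matrix.det_mul, Matrix.det_mul, hdg, mul_one, one_mul] at h3
      apply A2.det_ne l
      rw [h3, Matrix.det_fin_two_of]
      ring
    have k1 : a - t ^ 2 * a ≠ 0 := by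
      have : a - t ^ 2 * a = a * (1 - t ^ 2) := by ring
      rw [this]
      exact mul_ne_zero ha (sub_ne_zero.2 (Ne.symm ht2))
    generalize (g : Matrix (Fin 2) (Fin 2) F) = M at g0 g1 h1 hdg
    have e : ∀ i j, ((l : Matrix (Fin 2) (Fin 2) F) * M) i j =
        (M * !![t ^ 2 * a, b; 0, a]) i j := fun i j => by rw [h1]
    have e00 := e 0 0
    have e10 := e 1 0
    have e01 := e 0 1
    have e11 := e 1 1
    simp only [Matrix.mul_apply, Fin.sum_univ_two, Matrix.of_apply, Matrix.cons_val', Matrix.cons_val_zero,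
      Matrix.cons_val_one, Matrix.cons_val_fin_one] at e00 e10 e01 e11
    rw [Matrix.det_fin_two] at hdg
    have hv' : v = ![M 0 0, M 1 0] := by
      funext i
      fin_cases i
      · simp [g0]
      · simp [g1]
    refine ⟨l, hl, a, (b / (a - t ^ 2 * a)) • v + ![M 0 1, M 1 1], ha, ?_, ?_, ?_⟩
    · rw [A2.D_add_right, A2.D_smul_right, A2.D_self, hv']
      simp only [A2.D, Matrix.cons_val_zero, Matrix.cons_val_one]
      have : (b / (a - t ^ 2 * a)) * 0 + (M 0 0 * M 1 1 - M 1 0 * M 0 1) = 1 := by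
        linear_combination hdg
      rw [this]
      exact one_ne_zero
    · rw [hv']
      funext i
      fin_cases i
      · simp only [A2.act, Matrix.mulVec, dotProduct, Fin.sum_univ_two, Pi.smul_apply, smul_eq_mul]
        simpa [mul_comm] using e00
      · simp only [A2.act, Matrix.mulVec, dotProduct, Fin.sum_univ_two, Pi.smul_apply, smul_eq_mul]
        simpa [mul_comm] using e10
    · have key : ∀ i : Fin 2, (l : Matrix (Fin 2) (Fin 2) F) i 0 *
          ((b / (a - t ^ 2 * a)) * M 0 0 + M 0 1) + (l : Matrix (Fin 2) (Fin 2) F) i 1 *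
          ((b / (a - t ^ 2 * a)) * M 1 0 + M 1 1) = a * ((b / (a - t ^ 2 * a)) * M i 0 + M i 1) := by
        intro i
        have e0 : (l : Matrix (Fin 2) (Fin 2) F) i 0 * M 0 0 +
            (l : Matrix (Fin 2) (Fin 2) F) i 1 * M 1 0 = t ^ 2 * a * M i 0 := by
          fin_cases i
          · simpa [mul_comm] using e00
          · simpa [mul_comm] using e10
        have e1 : (l : Matrix (Fin 2) (Fin 2) F) i 0 * M 0 1 +
            (l : Matrix (Fin 2) (Fin 2) F) i 1 * M 1 1 = b * M i 0 + a * M i 1 := by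
          fin_cases i
          · simpa [mul_comm] using e01
          · simpa [mul_comm] using e11
        have e2 : b / (a - t ^ 2 * a) * (a - t ^ 2 * a) = b := by field_simp
        linear_combination (b / (a - t ^ 2 * a)) * e0 + e1 - M i 0 * e2
      rw [hv']
      funext i
      fin_cases i
      · simpa [A2.act, Matrix.mulVec, dotProduct, Fin.sum_univ_two] using key 0
      · simpa [A2.act, Matrix.mulVec, dotProduct, Fin.sum_univ_two] using key 1
  · -- no unipotents
    intro k hk v hv h1 h2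
    obtain ⟨g, g0, g1⟩ := exists_col v hv
    have hdg : (g : Matrix (Fin 2) (Fin 2) F).det = 1 := g.det_coe
    have ex : ∃ c : F, (k : Matrix (Fin 2) (Fin 2) F) * (g : Matrix (Fin 2) (Fin 2) F) =
        (g : Matrix (Fin 2) (Fin 2) F) * !![1, c; 0, 1] := by
      generalize (g : Matrix (Fin 2) (Fin 2) F) = M at g0 g1 hdg
      have q0 := congrFun h1 0
      have q1 := congrFun h1 1
      simp only [A2.act, Matrix.mulVec, dotProduct, Fin.sum_univ_two, ← g0, ← g1] at q0 q1
      generalize (k : Matrix (Fin 2) (Fin 2) F) = N at q0 q1 h2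
      rw [Matrix.det_fin_two] at hdg h2
      have hd : M 0 0 * (N 1 0 * M 0 1 + N 1 1 * M 1 1) -
          M 1 0 * (N 0 0 * M 0 1 + N 0 1 * M 1 1) = 1 := by
        linear_combination (-(N 1 0 * M 0 1 + N 1 1 * M 1 1)) * q0 +
          (N 0 0 * M 0 1 + N 0 1 * M 1 1) * q1 + (M 0 0 * M 1 1 - M 0 1 * M 1 0) * h2 + hdg
      refine ⟨M 1 1 * (N 0 0 * M 0 1 + N 0 1 * M 1 1) - M 0 1 * (N 1 0 * M 0 1 + N 1 1 * M 1 1), ?_⟩
      ext i j
      fin_cases i <;> fin_cases j <;> simp [Matrix.mul_apply, Fin.sum_univ_two]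
      · linear_combination q0
      · linear_combination M 0 1 * hd - (N 0 0 * M 0 1 + N 0 1 * M 1 1) * hdg
      · linear_combination q1
      · linear_combination M 1 1 * hd - (N 1 0 * M 0 1 + N 1 1 * M 1 1) * hdg
    obtain ⟨c, hc⟩ := ex
    have hc0 : c = 0 := hex g c ⟨k, hk, hc⟩
    rw [hc0, ← Matrix.one_fin_two, Matrix.mul_one] at hc
    have hu : IsUnit (g : Matrix (Fin 2) (Fin 2) F) := by
      rw [Matrix.isUnit_iff_isUnit_det, hdg]
      exact isUnit_one
    have h3 : (k : Matrix (Fin 2) (Fin 2) F) = 1 := by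
      apply hu.mul_right_cancel
      rw [hc, Matrix.one_mul]
    exact Units.ext h3

end Lin43
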