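import Mathlib

/-! # The arithmetic of Dickson's classification

`n i` are the orders of the point stabilisers (mod scalars) of the orbits on `P¹(q²)`, `i₀` is the
orbit `P¹(q)`. Paragraph 4, T2. `N = (q+1) a m`, `R = ∑_(i ≠ i₀) (1 - 1/n_i) = 1 - 2/N - (a-2)/(a m)`; terms with
`n_i ≥ 2` are at least `1/2` and less than `1`.

`a ≥ 2`: `R < 1`, so at most one nontrivial term; none would give `(q+1)(am - a + 2) = 2`; one, `n`, gives
`N = n e`, `e = 2 + (q+1)(a-2)`, `q + 1 = n n'`, so `n' a m = e`, `n' ∣ 2`. `n' = 1`, `b = q/a`: `m = q+1-2b`, divides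
`q - 1 = m + 2b - 2`: `b = 1` (so `a = q`) or `m ≤ 2b - 2`, `a < 4`: `a = 2`, `m = 1`, fine, or `a = 3`, `b + 1` divides
`3b - 1`, so `4`, `q ≤ 9`. `n' = 2`: `2m = q+1-2b`, `m ∣ 2b - 2`, `b = 1` or `a < 6`, `a` odd: `a = 3` or `5`, `q ≤ 25`.
`a = 1`: `R = 1 + 1/m - 2/N`. `m ≥ 3`: two terms, `1/n1 + 1/n2 = 1 - 1/m + 2/N`, one is `2`: `q + 1 ≤ 20`.
`m = 2`: two terms, `(2, q+1)` or `q + 1 ≤ 30`. `m = 1`: two terms equal to `N`, or three: `(2, 2, N/2)` or
`(2, 3, ≤ 5)`, `N = q + 1 ≤ 60`. -/

set_option autoImplicit false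

namespace Lin43

/-- `a ≥ 2`, one nontrivial orbit. -/
theorem ar_one (q c m b n n' : ℕ) (hq : 59 < q) (hqb : q = (c + 2) * b) (hm : m ∣ q - 1)
    (hn' : q + 1 = n * n') (he : n' * ((c + 2) * m) = 2 + (q + 1) * c) :
    c + 2 = q ∨ ((c + 2) * m ≤ 2 ∧ (q + 1) * ((c + 2) * m) ≤ 2 * n) := by
  have hb : 1 ≤ b := by
    rcases Nat.eq_zero_or_pos b with h | h
    · subst h; omega
    · exact h
  have h2 : n' ∣ 2 := by
    have h3 : n' ∣ 2 + (q + 1) * c := ⟨(c + 2) * m, he.symm⟩
    have h4 : n' ∣ (q + 1) * c := by rw [hn']; exact Dvd.intro_left (n * c) (by ring)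
    exact (Nat.dvd_add_left h4).1 h3
  have h3 : n' = 1 ∨ n' = 2 := (Nat.dvd_prime Nat.prime_two).1 h2
  rcases h3 with h3 | h3
  · subst h3
    have h4 : m = 1 + b * c := by
      have h5 : (c + 2) * m = (c + 2) * (1 + b * c) := by
        rw [hqb] at he
        nlinarith
      exact Nat.eq_of_mul_eq_mul_left (by omega) h5
    have h5 : m ∣ 2 * b - 2 := by
      have h6 : q - 1 = m + (2 * b - 2) := by
        have h7 : q = b * c + 2 * b := by rw [hqb]; ring
        omega
      rw [h6] at hm
      exact (Nat.dvd_add_right (dvd_refl m)).1 hm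
    rcases Nat.lt_or_ge b 2 with hb2 | hb2
    · have hb1 : b = 1 := by omega
      subst hb1
      left
      omega
    · have h6 : m ≤ 2 * b - 2 := Nat.le_of_dvd (by omega) h5
      have h7 : c < 2 := by
        by_contra h8
        have h9 : 2 ≤ c := by omega
        have h10 : b * 2 ≤ b * c := Nat.mul_le_mul_left b h9
        omega
      rcases (show c = 0 ∨ c = 1 by omega) with h8 | h8
      · subst h8
        right
        have h9 : m = 1 := by omega
        subst h9
        constructor
        · norm_num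
        · rw [hn']
          omega
      · subst h8
        exfalso
        have h9 : m = b + 1 := by omega
        subst h9
        have h10 : b + 1 ∣ 4 := by
          have h11 : 2 * (b + 1) = (2 * b - 2) + 4 := by omega
          have h12 : b + 1 ∣ (2 * b - 2) + 4 := by rw [← h11]; exact Dvd.intro_left 2 rfl
          exact (Nat.dvd_add_right h5).1 h12
        have := Nat.le_of_dvd (by norm_num) h10
        omega
  · subst h3
    have h4 : 2 * m = 1 + b * c := by
      have h5 : (c + 2) * (2 * m) = (c + 2) * (1 + b * c) := by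
        rw [hqb] at he
        nlinarith
      exact Nat.eq_of_mul_eq_mul_left (by omega) h5
    have h7 : q = b * c + 2 * b := by rw [hqb]; ring
    have h5 : m ∣ 2 * b - 2 := by
      have h6 : q - 1 = m * 2 + (2 * b - 2) := by omega
      rw [h6] at hm
      exact (Nat.dvd_add_right (Dvd.intro 2 rfl)).1 hm
    rcases Nat.lt_or_ge b 2 with hb2 | hb2
    · have hb1 : b = 1 := by omega
      subst hb1
      left
      omega
    · exfalso
      have h6 : m ≤ 2 * b - 2 := Nat.le_of_dvd (by omega) h5
      have h8 : c < 4 := by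
        by_contra h8
        have h9 : 4 ≤ c := by omega
        have h10 : b * 4 ≤ b * c := Nat.mul_le_mul_left b h9
        omega
      have h9 : 2 * m ∣ 4 * b - 4 := by
        obtain ⟨d, hd⟩ := h5
        refine ⟨d, ?_⟩
        have h10 : 4 * b - 4 = 2 * (2 * b - 2) := by omega
        rw [h10, hd]
        ring
      rcases (show c = 0 ∨ c = 1 ∨ c = 2 ∨ c = 3 by omega) with h10 | h10 | h10 | h10
      · subst h10; omega
      · subst h10
        have h11 : 2 * m = b + 1 := by omega
        rw [h11] at h9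
        have h12 : b + 1 ∣ 8 := by
          have h13 : 4 * (b + 1) = (4 * b - 4) + 8 := by omega
          have h14 : b + 1 ∣ (4 * b - 4) + 8 := by rw [← h13]; exact Dvd.intro_left 4 rfl
          exact (Nat.dvd_add_right h9).1 h14
        have := Nat.le_of_dvd (by norm_num) h12
        omega
      · subst h10; omega
      · subst h10
        have h11 : 2 * m = 3 * b + 1 := by omega
        rw [h11] at h9
        obtain ⟨d, hd⟩ := h9
        have h12 : d < 2 := by
          by_contra h13
          have h14 : 2 ≤ d := by omega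
          have h15 : (3 * b + 1) * 2 ≤ (3 * b + 1) * d := Nat.mul_le_mul_left _ h14
          omega
        rcases (show d = 0 ∨ d = 1 by omega) with h13 | h13
        · subst h13; omega
        · subst h13; omega

/-- `a = 1`, two nontrivial orbits. -/
theorem ar_pair (q m' x y : ℕ) (hq : 59 < q) (hx : 2 ≤ x) (hxy : x ≤ y)
    (h : (x + y) * ((q + 1) * (m' + 1)) = x * y * ((q + 1) * m' + 2)) :
    m' + 1 ≤ 2 ∧ (q + 1) * (m' + 1) ≤ 2 * y := by
  rcases (show m' = 0 ∨ m' = 1 ∨ 2 ≤ m' by omega) with hm | hm | hm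
  · subst hm
    refine ⟨by norm_num, ?_⟩
    by_contra h1
    have h2 : 2 * y < q + 1 := by omega
    have h3 : x * (2 * y) ≤ x * (q + 1) := Nat.mul_le_mul_left x h2.le
    have h4 : (x + y) * (q + 1) = x * (2 * y) := by
      have h5 := h
      simp only [Nat.zero_add, Nat.mul_one, Nat.mul_zero] at h5
      rw [h5]; ring
    have h5 : 0 < y * (q + 1) := Nat.mul_pos (by omega) (by omega)
    nlinarith
  · subst hm
    refine ⟨by norm_num, ?_⟩
    have h1 : 2 * ((x + y) * (q + 1)) = x * y * (q + 3) := by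
      have h5 := h
      ring_nf at h5 ⊢
      omega
    rcases (show x = 2 ∨ x = 3 ∨ 4 ≤ x by omega) with h2 | h2 | h2
    · subst h2
      have h3 : q + 1 = y := by nlinarith
      omega
    · subst h2
      exfalso
      have h3 : 6 * (q + 1) = y * (q + 7) := by nlinarith
      have h4 : y < 6 := by
        by_contra h5
        have h6 : 6 ≤ y := by omega
        have h7 : 6 * (q + 7) ≤ y * (q + 7) := Nat.mul_le_mul_right _ h6
        omega
      rcases (show y = 3 ∨ y = 4 ∨ y = 5 by omega) with h5 | h5 | h5 <;> subst h5 <;> omega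
    · exfalso
      have h3 : 4 * y * (q + 3) ≤ x * y * (q + 3) :=
        Nat.mul_le_mul_right _ (Nat.mul_le_mul_right _ h2)
      have h4 : 2 * ((x + y) * (q + 1)) ≤ 2 * ((y + y) * (q + 1)) :=
        Nat.mul_le_mul_left _ (Nat.mul_le_mul_right _ (by omega))
      nlinarith
  · exfalso
    obtain ⟨s, rfl⟩ : ∃ s, m' = s + 2 := ⟨m' - 2, by omega⟩
    obtain ⟨Q, hQ⟩ : ∃ Q, q + 1 = Q := ⟨_, rfl⟩
    rw [hQ] at h
    have hQ60 : 60 < Q := by omega
    rcases (show x = 2 ∨ 3 ≤ x by omega) with h2 | h2
    · subst h2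
      have h3 : 2 * (Q * (s + 3)) = y * (Q * (s + 1) + 4) := by
        have h5 := h
        ring_nf at h5 ⊢
        nlinarith
      have h4 : y < 6 := by
        by_contra h5
        have h6 : 6 ≤ y := by omega
        have h7 : 6 * (Q * (s + 1) + 4) ≤ y * (Q * (s + 1) + 4) := Nat.mul_le_mul_right _ h6
        nlinarith
      rcases (show y = 2 ∨ y = 3 ∨ y = 4 ∨ y = 5 by omega) with h5 | h5 | h5 | h5
      · subst h5
        nlinarith
      · subst h5
        -- 2Qs + 6Q = 3Qs + 3Q + 12
        have h6 : 3 * Q = Q * s + 12 := by nlinarith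
        rcases Nat.lt_or_ge s 3 with h7 | h7
        · rcases (show s = 0 ∨ s = 1 ∨ s = 2 by omega) with h8 | h8 | h8 <;> subst h8 <;> omega
        · have : Q * 3 ≤ Q * s := Nat.mul_le_mul_left _ h7
          omega
      · subst h5
        -- 2Qs + 6Q = 4Qs + 4Q + 16
        have h6 : 2 * Q = 2 * (Q * s) + 16 := by nlinarith
        rcases Nat.lt_or_ge s 1 with h7 | h7
        · have h8 : s = 0 := by omega
          subst h8; omega
        · have : Q * 1 ≤ Q * s := Nat.mul_le_mul_left _ h7
          omega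
      · subst h5
        -- 2Qs + 6Q = 5Qs + 5Q + 20
        have h6 : Q = 3 * (Q * s) + 20 := by nlinarith
        rcases Nat.lt_or_ge s 1 with h7 | h7
        · have h8 : s = 0 := by omega
          subst h8; omega
        · have : Q * 1 ≤ Q * s := Nat.mul_le_mul_left _ h7
          omega
    · have h3 : 3 * y * (Q * (s + 2) + 2) ≤ x * y * (Q * (s + 2) + 2) :=
        Nat.mul_le_mul_right _ (Nat.mul_le_mul_right _ h2)
      have h4 : (x + y) * (Q * (s + 2 + 1)) ≤ (y + y) * (Q * (s + 2 + 1)) :=
        Nat.mul_le_mul_right _ (by omega)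
      have h5 : 0 ≤ y * Q * s := Nat.zero_le _
      have h6 : 0 < y := by omega
      nlinarith

/-- `a = m = 1`, three nontrivial orbits. -/
theorem ar_triple (q x y z : ℕ) (hq : 59 < q) (hx : 2 ≤ x) (hxy : x ≤ y) (hyz : y ≤ z)
    (h : (x * y + y * z + x * z) * (q + 1) = x * y * z * (q + 3)) :
    q + 1 ≤ 2 * z := by
  rcases (show x = 2 ∨ 3 ≤ x by omega) with h2 | h2
  · subst h2
    rcases (show y = 2 ∨ y = 3 ∨ 4 ≤ y by omega) with h3 | h3 | h3
    · subst h3
      have h4 : q + 1 = 2 * z := by nlinarith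
      omega
    · subst h3
      exfalso
      have h4 : 6 * (q + 1) = z * (q + 13) := by nlinarith
      have h5 : z < 6 := by
        by_contra h5
        have h6 : 6 ≤ z := by omega
        have h7 : 6 * (q + 13) ≤ z * (q + 13) := Nat.mul_le_mul_right _ h6
        omega
      rcases (show z = 3 ∨ z = 4 ∨ z = 5 by omega) with h6 | h6 | h6 <;> subst h6 <;> omega
    · exfalso
      have h4 : 4 * z ≤ y * z := Nat.mul_le_mul_right _ h3
      have h5 : 2 * y + y * z + 2 * z ≤ 2 * (y * z) := by nlinarith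
      have h6 : (2 * y + y * z + 2 * z) * (q + 1) ≤ 2 * (y * z) * (q + 1) :=
        Nat.mul_le_mul_right _ h5
      have h7 : 0 < y * z := Nat.mul_pos (by omega) (by omega)
      nlinarith
  · exfalso
    have h3 : x * y ≤ y * z := by nlinarith
    have h4 : x * z ≤ y * z := Nat.mul_le_mul_right _ hxy
    have h5 : 3 * (y * z) ≤ x * (y * z) := Nat.mul_le_mul_right _ h2
    have h6 : x * y + y * z + x * z ≤ x * y * z := by nlinarith
    have h7 : (x * y + y * z + x * z) * (q + 1) ≤ x * y * z * (q + 1) := Nat.mul_le_mul_right _ h6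
    have h8 : 0 < x * y * z := by
      have : 0 < x := by omega
      have : 0 < y := by omega
      have : 0 < z := by omega
      positivity
    nlinarith

theorem ar {ι : Type*} [Fintype ι] [DecidableEq ι] (q a m : ℕ) (n : ι → ℕ) (i₀ : ι)
    (hq : 59 < q) (ha : a ∣ q) (hm : m ∣ q - 1) (hn : ∀ i, 1 ≤ n i) (hi₀ : n i₀ = a * m)
    (hdvd : ∀ i, i ≠ i₀ → n i ∣ q + 1)
    (hsum : ∑ i, (1 - 1 / (n i : ℚ)) =
      2 - 2 / (((q : ℚ) + 1) * a * m) - ((a : ℚ) - 1) / (a * m)) :
    a = q ∨ (a * m ≤ 2 ∧ ∃ i, i ≠ i₀ ∧ (q + 1) * (a * m) ≤ 2 * n i) := by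
  classical
  have ha1 : 1 ≤ a := Nat.pos_of_dvd_of_pos ha (by omega)
  have hm1 : 1 ≤ m := Nat.pos_of_dvd_of_pos hm (by omega)
  set S : Finset ι := (Finset.univ.erase i₀).filter (fun i => 2 ≤ n i) with hS
  have hSmem : ∀ i, i ∈ S ↔ i ≠ i₀ ∧ 2 ≤ n i := by
    intro i; simp [hS]
  have hA : (0 : ℚ) < a := by exact_mod_cast ha1
  have hM : (0 : ℚ) < m := by exact_mod_cast hm1
  have hQ : (59 : ℚ) < q := by exact_mod_cast hq
  have hR : ∑ i ∈ S, (1 - 1 / (n i : ℚ)) =
      1 - 2 / (((q : ℚ) + 1) * a * m) - ((a : ℚ) - 2) / (a * m) := by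
    have h1 : ∑ i, (1 - 1 / (n i : ℚ)) = (1 - 1 / (n i₀ : ℚ)) +
        ∑ i ∈ Finset.univ.erase i₀, (1 - 1 / (n i : ℚ)) :=
      (Finset.add_sum_erase _ _ (Finset.mem_univ i₀)).symm
    have h2 : ∑ i ∈ S, (1 - 1 / (n i : ℚ)) =
        ∑ i ∈ Finset.univ.erase i₀, (1 - 1 / (n i : ℚ)) := by
      rw [hS]
      apply Finset.sum_filter_of_ne
      intro i _ hi
      by_contra h3
      have h4 : n i = 1 := by have := hn i; omega
      apply hi
      rw [h4]; norm_num
    rw [h2]
    rw [h1, hi₀] at hsum
    push_cast at hsum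
    have h3 : ((a : ℚ) - 2) / (a * m) = (a - 1) / (a * m) - 1 / (a * m) := by ring
    rw [h3]
    linarith
  have hterm : ∀ i ∈ S, (1 / 2 : ℚ) ≤ 1 - 1 / (n i : ℚ) := by
    intro i hi
    have h1 : (2 : ℚ) ≤ n i := by exact_mod_cast ((hSmem i).1 hi).2
    have h2 : 1 / (n i : ℚ) ≤ 1 / 2 := one_div_le_one_div_of_le (by norm_num) h1
    linarith
  have hcard : (S.card : ℚ) * (1 / 2) ≤ ∑ i ∈ S, (1 - 1 / (n i : ℚ)) := by
    have := Finset.card_nsmul_le_sum S (fun i => 1 - 1 / (n i : ℚ)) (1 / 2) hterm
    simpa using this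
  rcases Nat.lt_or_ge a 2 with ha2 | ha2
  · -- a = 1
    have ha' : a = 1 := by omega
    subst ha'
    right
    simp only [one_mul, Nat.cast_one, mul_one] at hR ⊢
    have hR2 : ∑ i ∈ S, (1 - 1 / (n i : ℚ)) = 1 + ((q : ℚ) - 1) / ((q + 1) * m) := by
      rw [hR]
      field_simp
      ring
    have hfrac : 0 < ((q : ℚ) - 1) / ((q + 1) * m) := by
      apply div_pos <;> nlinarith
    have hfrac2 : ((q : ℚ) - 1) / ((q + 1) * m) < 1 / m := by
      rw [div_lt_div_iff₀ (by positivity) hM]
      nlinarith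
    have hm1' : (1 : ℚ) ≤ m := by exact_mod_cast hm1
    have hm2' : 1 / (m : ℚ) ≤ 1 := by
      rw [div_le_one hM]; exact hm1'
    have hc : S.card < 4 := by
      have h1 : (S.card : ℚ) < 4 := by linarith
      exact_mod_cast h1
    rcases (show S.card = 0 ∨ S.card = 1 ∨ S.card = 2 ∨ S.card = 3 by omega) with h | h | h | h
    · exfalso
      rw [Finset.card_eq_zero] at h
      rw [h, Finset.sum_empty] at hR2
      linarith
    · exfalso
      obtain ⟨i, hi⟩ := Finset.card_eq_one.1 h
      rw [hi, Finset.sum_singleton] at hR2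
      have h1 : 0 < 1 / (n i : ℚ) := by
        have : (0 : ℚ) < n i := by exact_mod_cast hn i
        positivity
      linarith
    · obtain ⟨i, j, hij, hSij⟩ := Finset.card_eq_two.1 h
      have hi := (hSmem i).1 (by rw [hSij]; simp)
      have hj := (hSmem j).1 (by rw [hSij]; simp)
      rw [hSij, Finset.sum_pair hij] at hR2
      obtain ⟨m', rfl⟩ : ∃ m', m = m' + 1 := ⟨m - 1, by omega⟩
      have hni : (0 : ℚ) < n i := by exact_mod_cast hn i
      have hnj : (0 : ℚ) < n j := by exact_mod_cast hn j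
      have key : (n i + n j) * ((q + 1) * (m' + 1)) = n i * n j * ((q + 1) * m' + 2) := by
        have h1 : ((n i : ℚ) + n j) * ((q + 1) * (m' + 1)) = n i * n j * ((q + 1) * m' + 2) := by
          push_cast at hR2
          field_simp at hR2
          linarith
        exact_mod_cast h1
      rcases le_total (n i) (n j) with hle | hle
      · obtain ⟨h1, h2⟩ := ar_pair q m' (n i) (n j) hq hi.2 hle key
        exact ⟨h1, j, hj.1, h2⟩
      · obtain ⟨h1, h2⟩ := ar_pair q m' (n j) (n i) hq hj.2 hle (by rw [add_comm, mul_comm (n j)]; exact key)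
        exact ⟨h1, i, hi.1, h2⟩
    · obtain ⟨i, j, k, hij, hik, hjk, hSijk⟩ := Finset.card_eq_three.1 h
      have hi := (hSmem i).1 (by rw [hSijk]; simp)
      have hj := (hSmem j).1 (by rw [hSijk]; simp)
      have hk := (hSmem k).1 (by rw [hSijk]; simp)
      have hm' : m = 1 := by
        by_contra hne
        have h2 : (2 : ℚ) ≤ m := by exact_mod_cast (show 2 ≤ m by omega)
        have h3 : 1 / (m : ℚ) ≤ 1 / 2 := one_div_le_one_div_of_le (by norm_num) h2
        have h5 : (S.card : ℚ) = 3 := by rw [h]; norm_num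
        rw [h5] at hcard
        linarith
      subst hm'
      rw [hSijk, Finset.sum_insert (by simp [hij, hik]), Finset.sum_pair hjk] at hR2
      have hni : (0 : ℚ) < n i := by exact_mod_cast hn i
      have hnj : (0 : ℚ) < n j := by exact_mod_cast hn j
      have hnk : (0 : ℚ) < n k := by exact_mod_cast hn k
      have keyQ : ((n i : ℚ) * n j + n j * n k + n i * n k) * (q + 1) = n i * n j * n k * (q + 3) := by
        push_cast at hR2
        field_simp at hR2
        linarith
      have key : (n i * n j + n j * n k + n i * n k) * (q + 1) = n i * n j * n k * (q + 3) := by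
        exact_mod_cast keyQ
      refine ⟨by norm_num, ?_⟩
      simp only [mul_one]
      -- sort
      rcases le_total (n i) (n j) with h1 | h1 <;> rcases le_total (n j) (n k) with h2 | h2 <;>
        rcases le_total (n i) (n k) with h3 | h3
      · exact ⟨k, hk.1, ar_triple q (n i) (n j) (n k) hq hi.2 h1 h2 key⟩
      · exact ⟨k, hk.1, ar_triple q (n i) (n j) (n k) hq hi.2 h1 h2 key⟩
      · exact ⟨j, hj.1, ar_triple q (n i) (n k) (n j) hq hi.2 h3 h2 (by linarith [key, mul_comm (n j) (n k)])⟩
      · exact ⟨j, hj.1, ar_triple q (n k) (n i) (n j) hq hk.2 h3 h1 (by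
          have e1 : n k * n i + n i * n j + n k * n j = n i * n j + n j * n k + n i * n k := by ring
          have e2 : n k * n i * n j = n i * n j * n k := by ring
          rw [e1, e2]; exact key)⟩
      · exact ⟨k, hk.1, ar_triple q (n j) (n i) (n k) hq hj.2 h1 h3 (by
          have e1 : n j * n i + n i * n k + n j * n k = n i * n j + n j * n k + n i * n k := by ring
          have e2 : n j * n i * n k = n i * n j * n k := by ring
          rw [e1, e2]; exact key)⟩
      · exact ⟨i, hi.1, ar_triple q (n j) (n k) (n i) hq hj.2 h2 h3 (by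
          have e1 : n j * n k + n k * n i + n j * n i = n i * n j + n j * n k + n i * n k := by ring
          have e2 : n j * n k * n i = n i * n j * n k := by ring
          rw [e1, e2]; exact key)⟩
      · exact ⟨i, hi.1, ar_triple q (n k) (n j) (n i) hq hk.2 h2 h1 (by
          have e1 : n k * n j + n j * n i + n k * n i = n i * n j + n j * n k + n i * n k := by ring
          have e2 : n k * n j * n i = n i * n j * n k := by ring
          rw [e1, e2]; exact key)⟩
      · exact ⟨i, hi.1, ar_triple q (n k) (n j) (n i) hq hk.2 h2 h1 (by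
          have e1 : n k * n j + n j * n i + n k * n i = n i * n j + n j * n k + n i * n k := by ring
          have e2 : n k * n j * n i = n i * n j * n k := by ring
          rw [e1, e2]; exact key)⟩
  · -- a ≥ 2
    obtain ⟨c, rfl⟩ : ∃ c, a = c + 2 := ⟨a - 2, by omega⟩
    have hRlt : ∑ i ∈ S, (1 - 1 / (n i : ℚ)) < 1 := by
      rw [hR]
      have h1 : 0 < 2 / (((q : ℚ) + 1) * ((c + 2 : ℕ) : ℚ) * m) := by positivity
      have h2 : 0 ≤ (((c + 2 : ℕ) : ℚ) - 2) / (((c + 2 : ℕ) : ℚ) * m) := by
        apply div_nonneg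
        · push_cast; linarith [(Nat.cast_nonneg c : (0 : ℚ) ≤ c)]
        · positivity
      linarith
    have hc : S.card < 2 := by
      have h1 : (S.card : ℚ) < 2 := by linarith
      exact_mod_cast h1
    have hC : (0 : ℚ) ≤ c := Nat.cast_nonneg c
    rcases (show S.card = 0 ∨ S.card = 1 by omega) with h | h
    · exfalso
      rw [Finset.card_eq_zero] at h
      rw [h, Finset.sum_empty] at hR
      push_cast at hR
      field_simp at hR
      have h1 : (1 : ℚ) ≤ m := by exact_mod_cast hm1
      nlinarith [mul_nonneg hC (sub_nonneg.2 h1)]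
    · obtain ⟨i, hi⟩ := Finset.card_eq_one.1 h
      have hi' := (hSmem i).1 (by rw [hi]; simp)
      rw [hi, Finset.sum_singleton] at hR
      obtain ⟨n', hn'⟩ := hdvd i hi'.1
      obtain ⟨b, hb⟩ := ha
      have hni : (0 : ℚ) < n i := by exact_mod_cast hn i
      have key : n i * (n' * ((c + 2) * m)) = n i * (2 + (q + 1) * c) := by
        have h1 : ((n i : ℚ)) * (2 + (q + 1) * c) = (q + 1) * ((c + 2) * m) := by
          push_cast at hR
          field_simp at hR
          linarith
        have h2 : n i * (2 + (q + 1) * c) = (q + 1) * ((c + 2) * m) := by exact_mod_cast h1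
        rw [h2, hn']
        ring
      have key2 := Nat.eq_of_mul_eq_mul_left (hn i) key
      rcases ar_one q c m b (n i) n' hq hb hm hn' key2 with h1 | ⟨h1, h2⟩
      · exact Or.inl h1
      · exact Or.inr ⟨h1, i, hi'.1, h2⟩

end Lin43
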