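import Mathlib

/-! # Orbit formula for a group whose nontrivial elements have one or two fixed points -/

set_option autoImplicit false

namespace Lin43

/-- `Z` acts trivially, the elements of `P` have one fixed point, all others two. By Burnside's
lemma `r |G| = |Z| |X| + 2 (|G| - |Z|) - |P|` and `|X| = ∑ |G|/|G_ω|`. -/
theorem orb_formula {G X : Type*} [Group G] [Finite G] [MulAction G X] [Finite X]
    (Z P : Set G) (hZ : ∀ g ∈ Z, ∀ x : X, g • x = x) (hdisj : Disjoint Z P)
    (hP : ∀ g ∈ P, Nat.card (MulAction.fixedBy X g) = 1)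
    (h2 : ∀ g, g ∉ Z → g ∉ P → Nat.card (MulAction.fixedBy X g) = 2)
    [Fintype (Quotient (MulAction.orbitRel G X))] :
    ∑ ω : Quotient (MulAction.orbitRel G X),
      (1 - (Nat.card Z : ℚ) / (Nat.card (MulAction.stabilizer G (Quotient.out ω)) : ℚ)) =
      2 - (2 * (Nat.card Z : ℚ) + (Nat.card P : ℚ)) / (Nat.card G : ℚ) := by
  classical
  have : Fintype G := Fintype.ofFinite G
  have : Fintype X := Fintype.ofFinite X
  -- Burnside
  have hB : (∑ g : G, Fintype.card (MulAction.fixedBy X g)) =
      Fintype.card (Quotient (MulAction.orbitRel G X)) * Fintype.card G :=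
    MulAction.sum_card_fixedBy_eq_card_orbits_mul_card_group G X
  -- class equation
  have hC : Fintype.card X = ∑ ω : Quotient (MulAction.orbitRel G X),
      Fintype.card G / Fintype.card (MulAction.stabilizer G (Quotient.out ω)) :=
    MulAction.card_eq_sum_card_group_div_card_stabilizer G X
  have hGpos : (0 : ℚ) < (Fintype.card G : ℚ) := by
    exact_mod_cast Fintype.card_pos
  -- value of each fixed point count
  have hfix : ∀ g : G, (Fintype.card (MulAction.fixedBy X g) : ℚ) =
      2 + ((if g ∈ Z then (Fintype.card X : ℚ) - 2 else 0) + (if g ∈ P then (-1 : ℚ) else 0)) := by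
    intro g
    by_cases hgZ : g ∈ Z
    · have hgP : g ∉ P := fun h => Set.disjoint_left.1 hdisj hgZ h
      have hall : MulAction.fixedBy X g = Set.univ := by
        ext x
        simp [MulAction.mem_fixedBy, hZ g hgZ x]
      have : Fintype.card (MulAction.fixedBy X g) = Fintype.card X := by
        rw [← Nat.card_eq_fintype_card, ← Nat.card_eq_fintype_card, hall, Nat.card_univ]
      rw [this, if_pos hgZ, if_neg hgP]
      ring
    · by_cases hgP : g ∈ P
      · have := hP g hgP
        rw [Nat.card_eq_fintype_card] at this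
        rw [this, if_neg hgZ, if_pos hgP]
        norm_num
      · have := h2 g hgZ hgP
        rw [Nat.card_eq_fintype_card] at this
        rw [this, if_neg hgZ, if_neg hgP]
        norm_num
  have hcZ : ((Finset.univ.filter (fun g : G => g ∈ Z)).card : ℚ) = (Nat.card Z : ℚ) := by
    rw [Nat.card_eq_fintype_card, Fintype.card_subtype]
  have hcP : ((Finset.univ.filter (fun g : G => g ∈ P)).card : ℚ) = (Nat.card P : ℚ) := by
    rw [Nat.card_eq_fintype_card, Fintype.card_subtype]
  have hsum : (∑ g : G, (Fintype.card (MulAction.fixedBy X g) : ℚ)) =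
      2 * (Fintype.card G : ℚ) + ((Nat.card Z : ℚ) * ((Fintype.card X : ℚ) - 2) -
        (Nat.card P : ℚ)) := by
    rw [Finset.sum_congr rfl (fun g _ => hfix g), Finset.sum_add_distrib,
      Finset.sum_add_distrib, Finset.sum_ite, Finset.sum_ite]
    simp only [Finset.sum_const, Finset.card_univ, nsmul_eq_mul, hcZ, hcP, mul_zero, add_zero]
    ring
  have hB' : (∑ g : G, (Fintype.card (MulAction.fixedBy X g) : ℚ)) =
      (Fintype.card (Quotient (MulAction.orbitRel G X)) : ℚ) * (Fintype.card G : ℚ) := by
    have := congrArg (fun n : ℕ => (n : ℚ)) hB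
    push_cast at this
    exact this
  have hC' : (Fintype.card X : ℚ) = ∑ ω : Quotient (MulAction.orbitRel G X),
      (Fintype.card G : ℚ) / (Fintype.card (MulAction.stabilizer G (Quotient.out ω)) : ℚ) := by
    rw [hC]
    push_cast
    refine Finset.sum_congr rfl (fun ω _ => ?_)
    rw [Nat.cast_div]
    · rw [← Nat.card_eq_fintype_card, ← Nat.card_eq_fintype_card]
      exact Subgroup.card_subgroup_dvd_card _
    · exact_mod_cast Fintype.card_ne_zero
  have hL : ∑ ω : Quotient (MulAction.orbitRel G X),
      (1 - (Nat.card Z : ℚ) / (Nat.card (MulAction.stabilizer G (Quotient.out ω)) : ℚ)) =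
      (Fintype.card (Quotient (MulAction.orbitRel G X)) : ℚ) -
        (Nat.card Z : ℚ) * ((Fintype.card X : ℚ) / (Fintype.card G : ℚ)) := by
    rw [Finset.sum_sub_distrib, hC', Finset.sum_div, Finset.mul_sum]
    simp only [Finset.sum_const, Finset.card_univ, nsmul_eq_mul, mul_one]
    congr 1
    refine Finset.sum_congr rfl (fun ω _ => ?_)
    rw [Nat.card_eq_fintype_card (α := MulAction.stabilizer G (Quotient.out ω))]
    have h1 : (Fintype.card (MulAction.stabilizer G (Quotient.out ω)) : ℚ) ≠ 0 := by
      exact_mod_cast Fintype.card_ne_zero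
    field_simp
  rw [hL, Nat.card_eq_fintype_card (α := G)]
  rw [hB'] at hsum
  field_simp
  linarith

end Lin43
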