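import Pool.Agent.Lib.MP_43150e_al.Lin.Fix
import Pool.Agent.Lib.MP_43150e_al.Lin.Orb
import Pool.Agent.Lib.MP_43150e_al.Lin.Ar

/-! # T2: transitive subgroups of `GL_2(F)`, `|F| > 59`

Paragraph 4, T2. `E = FiniteField.Extension F p 2`, `X = OnePoint E`, `L` acts through `mapE`. `Z` = scalars
(`q - 1`), `P` = nonscalar elements with `trace² = 4 det`; by transitivity `|P| = (q-1)(q+1)(a-1)`,
`a = |{c | [[1,c],[0,1]] ∈ L}|`. The orbit of `∞` is `P¹(F)`, its stabiliser is `L ∩ B_2` of order `(q-1) a m` with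
`a ∣ q` and `m ∣ q - 1` (`m` = number of ratios `l_00 / l_11`). `orb_formula` and `ar` with
`n ω = |stabiliser| / (q - 1)`; `card_stab_dvd` gives `n ω ∣ q + 1` for the other orbits; `exists_commute` gives
`z`. -/

set_option autoImplicit false

namespace Lin43

open Matrix

/-- Order of a finite subgroup through a homomorphism. -/
theorem card_ker_inf {G H : Type*} [Group G] [Group H] [Finite G] (f : G →* H) (K : Subgroup G) :
    Nat.card (f.ker ⊓ K : Subgroup G) * Nat.card (K.map f) = Nat.card K := by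
  rw [← Subgroup.relIndex_ker, ← Subgroup.inf_relIndex_right f.ker K,
    ← Subgroup.relIndex_bot_left (H := (f.ker ⊓ K : Subgroup G)),
    Subgroup.relIndex_mul_relIndex _ _ _ bot_le inf_le_right, Subgroup.relIndex_bot_left]

/-- A group of triangular `2 × 2` matrices containing the scalars. -/
theorem tri_card {F : Type*} [Field F] [Fintype F] (B : Subgroup (GeneralLinearGroup (Fin 2) F))
    (hB : ∀ l ∈ B, (l : Matrix (Fin 2) (Fin 2) F) 1 0 = 0)
    (hsc : ∀ c : F, c ≠ 0 → inG B (Matrix.scalar (Fin 2) c)) :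
    ∃ a m : ℕ, a ∣ Fintype.card F ∧ m ∣ Fintype.card F - 1 ∧
      Nat.card {l : B // ((l : GeneralLinearGroup (Fin 2) F) :
        Matrix (Fin 2) (Fin 2) F).mulVec ![1, 0] = ![1, 0]} = a * m ∧
      Nat.card B = (Fintype.card F - 1) * (a * m) ∧
      Nat.card {l : B // ((l : GeneralLinearGroup (Fin 2) F) : Matrix (Fin 2) (Fin 2) F) ∉
          Set.range (scalar (Fin 2)) ∧
        ((l : GeneralLinearGroup (Fin 2) F) : Matrix (Fin 2) (Fin 2) F).trace ^ 2 =
          4 * ((l : GeneralLinearGroup (Fin 2) F) : Matrix (Fin 2) (Fin 2) F).det} +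
        (Fintype.card F - 1) = (Fintype.card F - 1) * a ∧
      (a = Fintype.card F → ∀ c : F, inG B !![1, c; 0, 1]) := by
  classical
  have hdet : ∀ l : B, ((l : GeneralLinearGroup (Fin 2) F) : Matrix (Fin 2) (Fin 2) F) 0 0 *
      ((l : GeneralLinearGroup (Fin 2) F) : Matrix (Fin 2) (Fin 2) F) 1 1 ≠ 0 := by
    intro l h
    have h1 := GeneralLinearGroup.det_ne_zero (l : GeneralLinearGroup (Fin 2) F)
    apply h1
    rw [det_fin_two, hB l l.2, h]
    ring
  have h00 : ∀ l : B, ((l : GeneralLinearGroup (Fin 2) F) : Matrix (Fin 2) (Fin 2) F) 0 0 ≠ 0 :=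
    fun l h => hdet l (by rw [h, zero_mul])
  have h11 : ∀ l : B, ((l : GeneralLinearGroup (Fin 2) F) : Matrix (Fin 2) (Fin 2) F) 1 1 ≠ 0 :=
    fun l h => hdet l (by rw [h, mul_zero])
  have hmul : ∀ l l' : B, ∀ i j : Fin 2,
      (((l * l' : B) : GeneralLinearGroup (Fin 2) F) : Matrix (Fin 2) (Fin 2) F) i j =
      ((l : GeneralLinearGroup (Fin 2) F) : Matrix (Fin 2) (Fin 2) F) i 0 *
      ((l' : GeneralLinearGroup (Fin 2) F) : Matrix (Fin 2) (Fin 2) F) 0 j +
      ((l : GeneralLinearGroup (Fin 2) F) : Matrix (Fin 2) (Fin 2) F) i 1 *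
      ((l' : GeneralLinearGroup (Fin 2) F) : Matrix (Fin 2) (Fin 2) F) 1 j := by
    intro l l' i j
    rw [Subgroup.coe_mul, Units.val_mul, Matrix.mul_apply, Fin.sum_univ_two]
  let χ : B →* Fˣ := MonoidHom.mk' (fun l => Units.mk0 _ (h00 l)) (by
    intro l l'
    ext
    simp only [Units.val_mk0, Units.val_mul]
    rw [hmul, hB l' l'.2]
    ring)
  let χ' : B →* Fˣ := MonoidHom.mk' (fun l => Units.mk0 _ (h11 l)) (by
    intro l l'
    ext
    simp only [Units.val_mk0, Units.val_mul]
    rw [hmul, hB l l.2]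
    ring)
  let ψ : B →* Fˣ := χ' / χ
  have hχ : ∀ l : B, l ∈ χ.ker ↔
      ((l : GeneralLinearGroup (Fin 2) F) : Matrix (Fin 2) (Fin 2) F) 0 0 = 1 := by
    intro l
    rw [MonoidHom.mem_ker, Units.ext_iff]
    rfl
  have hψ : ∀ l : B, l ∈ ψ.ker ↔
      ((l : GeneralLinearGroup (Fin 2) F) : Matrix (Fin 2) (Fin 2) F) 1 1 =
      ((l : GeneralLinearGroup (Fin 2) F) : Matrix (Fin 2) (Fin 2) F) 0 0 := by
    intro l
    rw [MonoidHom.mem_ker]
    change χ' l / χ l = 1 ↔ _
    rw [div_eq_one, Units.ext_iff]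
    rfl
  have hcu : Nat.card Fˣ = Fintype.card F - 1 := by
    rw [Nat.card_eq_fintype_card, Fintype.card_units]
  have hχs : ∀ u : Fˣ, ∃ l ∈ ψ.ker, χ l = u := by
    intro u
    obtain ⟨k, hk, hk2⟩ := hsc u u.ne_zero
    refine ⟨⟨k, hk⟩, ?_, ?_⟩
    · rw [hψ]
      simp [hk2]
    · ext
      change (k : Matrix (Fin 2) (Fin 2) F) 0 0 = u
      simp [hk2]
  have e1 : (ψ.ker).map χ = ⊤ := by
    rw [eq_top_iff]
    intro u _
    obtain ⟨l, hl, hl2⟩ := hχs u
    exact ⟨l, hl, hl2⟩
  have e2 : (⊤ : Subgroup B).map χ = ⊤ := by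
    rw [eq_top_iff]
    intro u _
    obtain ⟨l, hl, hl2⟩ := hχs u
    exact ⟨l, Subgroup.mem_top _, hl2⟩
  have c1 := card_ker_inf χ ψ.ker
  rw [e1, Subgroup.card_top, hcu] at c1
  have c2 := card_ker_inf χ (⊤ : Subgroup B)
  rw [e2, Subgroup.card_top, Subgroup.card_top, hcu, inf_top_eq] at c2
  have c3 := card_ker_inf ψ χ.ker
  rw [inf_comm] at c3
  let θ : (χ.ker ⊓ ψ.ker : Subgroup B) →* Multiplicative F := MonoidHom.mk'
    (fun l => Multiplicative.ofAdd ((((l : B) : GeneralLinearGroup (Fin 2) F) :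
      Matrix (Fin 2) (Fin 2) F) 0 1)) (by
    intro l l'
    rw [← ofAdd_add]
    congr 1
    rw [Subgroup.coe_mul, hmul]
    have a1 := (hχ l).1 l.2.1
    have a2 := (hχ l').1 l'.2.1
    have a3 := (hψ l').1 l'.2.2
    rw [a3, a1, a2]
    ring)
  have hθ : ∀ l : (χ.ker ⊓ ψ.ker : Subgroup B), (((l : B) : GeneralLinearGroup (Fin 2) F) :
      Matrix (Fin 2) (Fin 2) F) = !![1, Multiplicative.toAdd (θ l); 0, 1] := by
    intro l
    have a1 := (hχ l).1 l.2.1
    have a3 := (hψ l).1 l.2.2
    have a4 := hB (l : B) (l : B).2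
    ext i j
    fin_cases i <;> fin_cases j
    · simpa using a1
    · simp [θ]
    · simpa using a4
    · simpa [a1] using a3
  have hinj : Function.Injective θ := by
    intro l l' h
    apply Subtype.ext
    apply Subtype.ext
    apply Units.ext
    rw [hθ l, hθ l', h]
  refine ⟨Nat.card (χ.ker ⊓ ψ.ker : Subgroup B), Nat.card ((χ.ker).map ψ), ?_, ?_, ?_, ?_, ?_, ?_⟩
  · have := Subgroup.card_dvd_of_injective θ hinj
    rwa [Nat.card_congr Multiplicative.toAdd, Nat.card_eq_fintype_card (α := F)] at this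
  · have := Subgroup.card_subgroup_dvd_card ((χ.ker).map ψ)
    rwa [hcu] at this
  · rw [c3]
    refine Nat.card_congr (Equiv.subtypeEquivRight ?_)
    intro l
    rw [hχ]
    constructor
    · intro h
      have := congrFun h 0
      simpa using this
    · intro h
      have := hB l l.2
      ext i
      fin_cases i
      · simpa using h
      · simpa using this
  · rw [c3, mul_comm, c2]
  · rw [mul_comm (Fintype.card F - 1) _, c1]
    have hs : Nat.card {l : B // ((l : GeneralLinearGroup (Fin 2) F) : Matrix (Fin 2) (Fin 2) F) ∈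
          Set.range (scalar (Fin 2))} = Fintype.card F - 1 := by
      rw [← hcu]
      symm
      refine Nat.card_congr (Equiv.ofBijective (fun u : Fˣ =>
        (⟨⟨GeneralLinearGroup.scalar (Fin 2) u, ?_⟩, ⟨(u : F), ?_⟩⟩ :
        {l : B // ((l : GeneralLinearGroup (Fin 2) F) : Matrix (Fin 2) (Fin 2) F) ∈
          Set.range (scalar (Fin 2))})) ⟨?_, ?_⟩)
      · obtain ⟨k, hk, hk2⟩ := hsc u u.ne_zero
        have : k = GeneralLinearGroup.scalar (Fin 2) u := Units.ext hk2
        rwa [← this]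
      · rfl
      · intro u v h
        have h2 := congrArg (fun x : {l : B // ((l : GeneralLinearGroup (Fin 2) F) :
          Matrix (Fin 2) (Fin 2) F) ∈ Set.range (scalar (Fin 2))} =>
          (((x : B) : GeneralLinearGroup (Fin 2) F) : Matrix (Fin 2) (Fin 2) F) 0 0) h
        ext
        simpa using h2
      · rintro ⟨l, c, hc⟩
        have hc0 : c ≠ 0 := by
          intro h0
          apply h00 l
          rw [← hc, h0]
          simp
        refine ⟨Units.mk0 c hc0, ?_⟩
        apply Subtype.ext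
        apply Subtype.ext
        apply Units.ext
        exact hc
    rw [← hs, ← Nat.card_sum]
    refine Nat.card_congr (Equiv.ofBijective (fun x => Sum.elim (fun y => (⟨y.1, ?_⟩ : ψ.ker))
      (fun y => (⟨y.1, ?_⟩ : ψ.ker)) x) ⟨?_, ?_⟩)
    · rw [hψ]
      have h1 := y.2.2
      rw [trace_fin_two, det_fin_two, hB y.1 y.1.2] at h1
      have h2 : (((y.1 : GeneralLinearGroup (Fin 2) F) : Matrix (Fin 2) (Fin 2) F) 1 1 -
        ((y.1 : GeneralLinearGroup (Fin 2) F) : Matrix (Fin 2) (Fin 2) F) 0 0) ^ 2 = 0 := by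
        linear_combination h1
      exact sub_eq_zero.1 (pow_eq_zero_iff (two_ne_zero) |>.1 h2)
    · rw [hψ]
      obtain ⟨c, hc⟩ := y.2
      rw [← hc]
      simp
    · rintro (x | x) (y | y) h
      · have := congrArg (fun z : ψ.ker => (z : B)) h
        simp only [Sum.elim_inl] at this
        rw [Subtype.ext this]
      · exfalso
        have := congrArg (fun z : ψ.ker => (z : B)) h
        simp only [Sum.elim_inl, Sum.elim_inr] at this
        apply x.2.1
        rw [this]
        exact y.2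
      · exfalso
        have := congrArg (fun z : ψ.ker => (z : B)) h
        simp only [Sum.elim_inl, Sum.elim_inr] at this
        apply y.2.1
        rw [← this]
        exact x.2
      · have := congrArg (fun z : ψ.ker => (z : B)) h
        simp only [Sum.elim_inr] at this
        rw [Subtype.ext this]
    · intro z
      by_cases hz : (((z : B) : GeneralLinearGroup (Fin 2) F) : Matrix (Fin 2) (Fin 2) F) ∈
          Set.range (scalar (Fin 2))
      · exact ⟨Sum.inr ⟨z.1, hz⟩, rfl⟩
      · refine ⟨Sum.inl ⟨z.1, hz, ?_⟩, rfl⟩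
        have h1 := (hψ z.1).1 z.2
        rw [trace_fin_two, det_fin_two, hB z.1 z.1.2, h1]
        ring
  · intro ha c
    have hb : Function.Bijective θ := by
      rw [Nat.bijective_iff_injective_and_card]
      refine ⟨hinj, ?_⟩
      rw [ha, Nat.card_congr Multiplicative.toAdd, Nat.card_eq_fintype_card (α := F)]
    obtain ⟨l, hl⟩ := hb.2 (Multiplicative.ofAdd c)
    refine ⟨l.1.1, l.1.2, ?_⟩
    rw [hθ l, hl]
    rfl

theorem card_conj {G X : Type*} [Group G] [MulAction G X] [Finite G] (x₀ : X) (P : Set G)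
    (hconj : ∀ g h : G, g ∈ P → h * g * h⁻¹ ∈ P)
    (h1 : ∀ g ∈ P, ∃ h : G, ∀ k : G, g • (k • x₀) = k • x₀ ↔ k • x₀ = h • x₀) :
    Nat.card P * Nat.card (MulAction.stabilizer G x₀) =
      Nat.card G * Nat.card {g : G // g ∈ P ∧ g • x₀ = x₀} := by
  classical
  have := Fintype.ofFinite G
  have e : (Σ g : P, {k : G // (g : G) • (k • x₀) = k • x₀}) ≃
      (Σ k : G, {g : P // (g : G) • (k • x₀) = k • x₀}) :=
    { toFun := fun x => ⟨x.2.1, ⟨x.1, x.2.2⟩⟩
      invFun := fun x => ⟨x.2.1, ⟨x.1, x.2.2⟩⟩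
      left_inv := fun x => rfl
      right_inv := fun x => rfl }
  have c := Nat.card_congr e
  rw [Nat.card_sigma, Nat.card_sigma] at c
  have c1 : ∀ g : P, Nat.card {k : G // (g : G) • (k • x₀) = k • x₀} =
      Nat.card (MulAction.stabilizer G x₀) := by
    intro g
    obtain ⟨h, hh⟩ := h1 g g.2
    refine Nat.card_congr
      { toFun := fun k => ⟨h⁻¹ * k.1, ?_⟩
        invFun := fun s => ⟨h * s.1, ?_⟩
        left_inv := fun k => by simp
        right_inv := fun s => by simp }
    · rw [MulAction.mem_stabilizer_iff, mul_smul, (hh k.1).1 k.2, inv_smul_smul]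
    · rw [hh, mul_smul, MulAction.mem_stabilizer_iff.1 s.2]
  have c2 : ∀ k : G, Nat.card {g : P // (g : G) • (k • x₀) = k • x₀} =
      Nat.card {g : G // g ∈ P ∧ g • x₀ = x₀} := by
    intro k
    refine Nat.card_congr
      { toFun := fun g => ⟨k⁻¹ * g.1.1 * k, ?_, ?_⟩
        invFun := fun g => ⟨⟨k * g.1 * k⁻¹, hconj _ _ g.2.1⟩, ?_⟩
        left_inv := fun g => by
          apply Subtype.ext
          apply Subtype.ext
          simp [mul_assoc]
        right_inv := fun g => by
          apply Subtype.ext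
          simp [mul_assoc] }
    · have := hconj g.1.1 k⁻¹ g.1.2
      rwa [inv_inv] at this
    · rw [mul_smul, mul_smul, g.2, inv_smul_smul]
    · change (k * g.1 * k⁻¹) • k • x₀ = k • x₀
      rw [mul_smul, inv_smul_smul, mul_smul, g.2.2]
  simp only [c1, c2, Finset.sum_const, Finset.card_univ, smul_eq_mul] at c
  rw [Nat.card_eq_fintype_card (α := P), Nat.card_eq_fintype_card (α := G)]
  exact c

theorem card_inf_pred {G : Type*} [Group G] (L B : Subgroup G) (r : G → Prop)
    (hB : ∀ g, g ∈ B ↔ g ∈ L ∧ r g) (p : G → Prop) :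
    Nat.card {l : B // p l} = Nat.card {l : L // r l ∧ p l} :=
  Nat.card_congr
    { toFun := fun x => ⟨⟨x.1.1, ((hB _).1 x.1.2).1⟩, ((hB _).1 x.1.2).2, x.2⟩
      invFun := fun x => ⟨⟨x.1.1, (hB _).2 ⟨x.1.2, x.2.1⟩⟩, x.2.2⟩
      left_inv := fun _ => rfl
      right_inv := fun _ => rfl }

/-- `|L| = (q² - 1) f`. -/
theorem card_trans {F : Type*} [Field F] [Fintype F]
    (L : Subgroup (GeneralLinearGroup (Fin 2) F))
    (htr : ∀ v : Fin 2 → F, v ≠ 0 → ∃ l ∈ L,
      (l : Matrix (Fin 2) (Fin 2) F).mulVec ![1, 0] = v) :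
    Nat.card L = (Fintype.card F ^ 2 - 1) *
      Nat.card {l : L // ((l : GeneralLinearGroup (Fin 2) F) :
        Matrix (Fin 2) (Fin 2) F).mulVec ![1, 0] = ![1, 0]} := by
  classical
  have hne : ∀ l : L, ((l : GeneralLinearGroup (Fin 2) F) :
        Matrix (Fin 2) (Fin 2) F).mulVec ![1, 0] ≠ 0 := by
    intro l h
    have h2 := GeneralLinearGroup.det_ne_zero (l : GeneralLinearGroup (Fin 2) F)
    apply h2
    rw [← Matrix.exists_mulVec_eq_zero_iff]
    refine ⟨![1, 0], ?_, h⟩
    intro h3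
    have := congrFun h3 0
    simp at this
  let φ : L → {v : Fin 2 → F // v ≠ 0} := fun l => ⟨_, hne l⟩
  have c := Nat.card_congr (Equiv.sigmaFiberEquiv φ)
  rw [Nat.card_sigma] at c
  have c1 : ∀ v : {v : Fin 2 → F // v ≠ 0}, Nat.card {l : L // φ l = v} =
      Nat.card {l : L // ((l : GeneralLinearGroup (Fin 2) F) :
        Matrix (Fin 2) (Fin 2) F).mulVec ![1, 0] = ![1, 0]} := by
    intro v
    obtain ⟨h, hh, hv⟩ := htr v v.2
    have hv' : ((h⁻¹ : GeneralLinearGroup (Fin 2) F) : Matrix (Fin 2) (Fin 2) F).mulVec v =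
        ![1, 0] := by
      rw [← hv, Matrix.mulVec_mulVec, ← Units.val_mul, inv_mul_cancel, Units.val_one,
        Matrix.one_mulVec]
    refine Nat.card_congr
      { toFun := fun l => ⟨⟨h, hh⟩⁻¹ * l.1, ?_⟩
        invFun := fun l => ⟨⟨h, hh⟩ * l.1, ?_⟩
        left_inv := fun l => by simp
        right_inv := fun l => by simp }
    · have h1 : ((l.1 : GeneralLinearGroup (Fin 2) F) :
        Matrix (Fin 2) (Fin 2) F).mulVec ![1, 0] = v := congrArg Subtype.val l.2
      rw [Subgroup.coe_mul, Units.val_mul, ← Matrix.mulVec_mulVec, h1]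
      exact hv'
    · apply Subtype.ext
      change ((((⟨h, hh⟩ : L) * l.1 : L) : GeneralLinearGroup (Fin 2) F) :
        Matrix (Fin 2) (Fin 2) F).mulVec ![1, 0] = v
      rw [Subgroup.coe_mul, Units.val_mul, ← Matrix.mulVec_mulVec, l.2]
      exact hv
  simp only [c1, Finset.sum_const, Finset.card_univ, smul_eq_mul] at c
  rw [← c]
  congr 1
  have := Set.card_ne_eq (0 : Fin 2 → F)
  rw [Fintype.card_fun, Fintype.card_fin] at this
  rw [← this]
  rfl

theorem t2_aux {F E : Type*} [Field F] [Fintype F] [Field E] [Finite E] [DecidableEq E]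
    [Algebra F E] (hE : Module.finrank F E = 2) (hq : 59 < Fintype.card F)
    (L : Subgroup (GeneralLinearGroup (Fin 2) F))
    (hsc : ∀ c : F, c ≠ 0 → inG L (Matrix.scalar (Fin 2) c))
    (htr : ∀ v : Fin 2 → F, v ≠ 0 → ∃ l ∈ L,
      (l : Matrix (Fin 2) (Fin 2) F).mulVec ![1, 0] = v) :
    (∀ c : F, inG L !![1, c; 0, 1]) ∨
    (Nat.card {l : L // ((l : GeneralLinearGroup (Fin 2) F) :
        Matrix (Fin 2) (Fin 2) F).mulVec ![1, 0] = ![1, 0]} ≤ 2 ∧
      ∃ z : Matrix (Fin 2) (Fin 2) F, ¬ HasEV z ∧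
        Nat.card L ≤ 2 * Nat.card {l : L // Commute ((l : GeneralLinearGroup (Fin 2) F) :
          Matrix (Fin 2) (Fin 2) F) z}) := by
  classical
  set q := Fintype.card F with hqdef
  let _ : MulAction L (OnePoint E) := MulAction.compHom (OnePoint E) ((mapE F E).comp L.subtype)
  have hsm : ∀ (l : L) (x : OnePoint E), l • x = mapE F E (l : GeneralLinearGroup (Fin 2) F) • x :=
    fun _ _ => rfl
  have : Finite (OnePoint E) := inferInstanceAs (Finite (Option E))
  let _ : Fintype (Quotient (MulAction.orbitRel L (OnePoint E))) := Fintype.ofFinite _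
  -- the stabiliser of infinity
  have hinf : ∀ l : GeneralLinearGroup (Fin 2) F, mapE F E l • (OnePoint.infty : OnePoint E) =
      OnePoint.infty ↔ (l : Matrix (Fin 2) (Fin 2) F) 1 0 = 0 := by
    intro l
    rw [OnePoint.smul_infty_eq_self_iff]
    change algebraMap F E ((l : Matrix (Fin 2) (Fin 2) F) 1 0) = 0 ↔ _
    exact map_eq_zero_iff _ (algebraMap F E).injective
  let B : Subgroup (GeneralLinearGroup (Fin 2) F) :=
    L ⊓ (MulAction.stabilizer (GeneralLinearGroup (Fin 2) E) (OnePoint.infty : OnePoint E)).comap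
      (mapE F E)
  have hBm : ∀ g, g ∈ B ↔ g ∈ L ∧ (g : Matrix (Fin 2) (Fin 2) F) 1 0 = 0 := by
    intro g
    rw [Subgroup.mem_inf, Subgroup.mem_comap, MulAction.mem_stabilizer_iff, hinf]
  obtain ⟨a, m, ha, hm, hf, hBc, hPc, hfull⟩ := tri_card B (fun l hl => ((hBm l).1 hl).2) (by
    intro c hc
    obtain ⟨k, hk, hk2⟩ := hsc c hc
    refine ⟨k, (hBm k).2 ⟨hk, ?_⟩, hk2⟩
    rw [hk2]
    simp)
  rw [← hqdef] at ha hm hBc hPc hfull
  -- cardinalities
  have hf' : Nat.card {l : L // ((l : GeneralLinearGroup (Fin 2) F) :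
        Matrix (Fin 2) (Fin 2) F).mulVec ![1, 0] = ![1, 0]} = a * m := by
    rw [← hf, card_inf_pred L B _ hBm (fun l => (l : Matrix (Fin 2) (Fin 2) F).mulVec ![1, 0] =
      ![1, 0])]
    refine Nat.card_congr (Equiv.subtypeEquivRight ?_)
    intro l
    constructor
    · intro h
      refine ⟨?_, h⟩
      have := congrFun h 1
      simpa using this
    · exact fun h => h.2
  have hLc := card_trans L htr
  rw [hf', ← hqdef] at hLc
  have hq1 : 1 < q := by omega
  have hqsq : q ^ 2 - 1 = (q - 1) * (q + 1) := by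
    obtain ⟨t, ht⟩ : ∃ t, q = t + 1 := ⟨q - 1, by omega⟩
    rw [ht]
    simp only [Nat.add_sub_cancel]
    have : (t + 1) ^ 2 = t * (t + 1 + 1) + 1 := by ring
    omega
  rw [hqsq] at hLc
  have hLpos : 0 < Nat.card L := Nat.card_pos
  have ham : 0 < a * m := by
    rcases Nat.eq_zero_or_pos (a * m) with h | h
    · rw [h] at hLc
      omega
    · exact h
  have hapos : 0 < a := Nat.pos_of_mul_pos_right ham
  have hmpos : 0 < m := Nat.pos_of_mul_pos_left ham
  have hScard : Nat.card (MulAction.stabilizer L (OnePoint.infty : OnePoint E)) =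
      (q - 1) * (a * m) := by
    rw [← hBc]
    have e1 : Nat.card {l : B // True} = Nat.card B :=
      Nat.card_congr (Equiv.subtypeUnivEquiv (fun _ => trivial))
    rw [← e1, card_inf_pred L B _ hBm (fun _ => True)]
    refine Nat.card_congr (Equiv.subtypeEquivRight ?_)
    intro l
    rw [MulAction.mem_stabilizer_iff, hsm, hinf]
    simp
  -- the sets Z and P
  let Z' : Subgroup L := (GeneralLinearGroup.scalar (Fin 2) (R := F)).range.subgroupOf L
  have hZ'm : ∀ l : L, l ∈ Z' ↔ ((l : GeneralLinearGroup (Fin 2) F) :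
      Matrix (Fin 2) (Fin 2) F) ∈ Set.range (scalar (Fin 2)) := by
    intro l
    rw [Subgroup.mem_subgroupOf]
    constructor
    · rintro ⟨u, hu⟩
      exact ⟨u, by rw [← hu]; rfl⟩
    · rintro ⟨c, hc⟩
      have hc0 : c ≠ 0 := by
        rintro rfl
        apply GeneralLinearGroup.det_ne_zero (l : GeneralLinearGroup (Fin 2) F)
        rw [← hc]
        simp
      exact ⟨Units.mk0 c hc0, Units.ext hc⟩
  have hZc : Nat.card Z' = q - 1 := by
    have h1 : (GeneralLinearGroup.scalar (Fin 2) (R := F)).range ≤ L := by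
      rintro _ ⟨u, rfl⟩
      obtain ⟨k, hk, hk2⟩ := hsc u u.ne_zero
      have : k = GeneralLinearGroup.scalar (Fin 2) u := Units.ext hk2
      rwa [← this]
    have h2 : Function.Injective (GeneralLinearGroup.scalar (Fin 2) (R := F)) := by
      intro u v h
      have h3 := congrArg (fun x : GeneralLinearGroup (Fin 2) F =>
        (x : Matrix (Fin 2) (Fin 2) F) 0 0) h
      ext
      simpa using h3
    rw [Nat.card_congr (Subgroup.subgroupOfEquivOfLe h1).toEquiv,
      ← Nat.card_congr (MonoidHom.ofInjective h2).toEquiv, Nat.card_eq_fintype_card,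
      Fintype.card_units]
  let P : Set L := {l | ((l : GeneralLinearGroup (Fin 2) F) : Matrix (Fin 2) (Fin 2) F) ∉
          Set.range (scalar (Fin 2)) ∧
        ((l : GeneralLinearGroup (Fin 2) F) : Matrix (Fin 2) (Fin 2) F).trace ^ 2 =
          4 * ((l : GeneralLinearGroup (Fin 2) F) : Matrix (Fin 2) (Fin 2) F).det}
  have hPinf : Nat.card {g : L // g ∈ P ∧ g • (OnePoint.infty : OnePoint E) = OnePoint.infty} +
      (q - 1) = (q - 1) * a := by
    rw [← hPc, card_inf_pred L B _ hBm (fun l => (l : Matrix (Fin 2) (Fin 2) F) ∉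
          Set.range (scalar (Fin 2)) ∧ (l : Matrix (Fin 2) (Fin 2) F).trace ^ 2 =
          4 * (l : Matrix (Fin 2) (Fin 2) F).det)]
    congr 1
    refine Nat.card_congr (Equiv.subtypeEquivRight ?_)
    intro l
    rw [hsm, hinf, and_comm]
    rfl
  have hPconj : ∀ g h : L, g ∈ P → h * g * h⁻¹ ∈ P := by
    rintro g h ⟨h1, h2⟩
    have hval : (((h * g * h⁻¹ : L) : GeneralLinearGroup (Fin 2) F) : Matrix (Fin 2) (Fin 2) F) =
        ((h : GeneralLinearGroup (Fin 2) F) : Matrix (Fin 2) (Fin 2) F) *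
        ((g : GeneralLinearGroup (Fin 2) F) : Matrix (Fin 2) (Fin 2) F) *
        ((h : GeneralLinearGroup (Fin 2) F)⁻¹ : GeneralLinearGroup (Fin 2) F) := rfl
    have hi1 : ((h : GeneralLinearGroup (Fin 2) F) : Matrix (Fin 2) (Fin 2) F) *
      (((h : GeneralLinearGroup (Fin 2) F)⁻¹ : GeneralLinearGroup (Fin 2) F) :
        Matrix (Fin 2) (Fin 2) F) = 1 := Units.mul_inv _
    have hi2 : (((h : GeneralLinearGroup (Fin 2) F)⁻¹ : GeneralLinearGroup (Fin 2) F) :
        Matrix (Fin 2) (Fin 2) F) *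
      ((h : GeneralLinearGroup (Fin 2) F) : Matrix (Fin 2) (Fin 2) F) = 1 := Units.inv_mul _
    refine ⟨?_, ?_⟩
    · rintro ⟨c, hc⟩
      apply h1
      refine ⟨c, ?_⟩
      rw [hval] at hc
      have h3 : ((g : GeneralLinearGroup (Fin 2) F) : Matrix (Fin 2) (Fin 2) F) =
          (((h : GeneralLinearGroup (Fin 2) F)⁻¹ : GeneralLinearGroup (Fin 2) F) :
            Matrix (Fin 2) (Fin 2) F) * (scalar (Fin 2) c) *
          ((h : GeneralLinearGroup (Fin 2) F) : Matrix (Fin 2) (Fin 2) F) := by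
        rw [hc]
        simp only [mul_assoc, hi2, mul_one]
        rw [← mul_assoc, hi2, one_mul]
      rw [h3, ← Matrix.scalar_comm c (fun _ => Commute.all _ _), mul_assoc, hi2, mul_one]
    · rw [hval, Matrix.trace_mul_cycle, hi2, one_mul, Matrix.det_mul, Matrix.det_mul, h2]
      have h4 := congrArg Matrix.det hi1
      rw [Matrix.det_mul, Matrix.det_one] at h4
      linear_combination (-4 * ((g : GeneralLinearGroup (Fin 2) F) :
        Matrix (Fin 2) (Fin 2) F).det) * h4
  have hPfix : ∀ g ∈ P, ∃ h : L, ∀ k : L, g • (k • (OnePoint.infty : OnePoint E)) =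
      k • (OnePoint.infty : OnePoint E) ↔ k • (OnePoint.infty : OnePoint E) =
      h • (OnePoint.infty : OnePoint E) := by
    rintro g ⟨h1, h2⟩
    -- an eigenvector
    obtain ⟨lam, hlam⟩ : ∃ lam : F, (((g : GeneralLinearGroup (Fin 2) F) :
        Matrix (Fin 2) (Fin 2) F) - scalar (Fin 2) lam).det = 0 := by
      rw [trace_fin_two, det_fin_two] at h2
      by_cases h20 : (2 : F) = 0
      · have : CharP F 2 := CharTwo.of_one_ne_zero_of_two_eq_zero one_ne_zero h20
        obtain ⟨r, hr⟩ := FiniteField.isSquare_of_char_two (ringChar.eq F 2 ▸ rfl)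
          (((g : GeneralLinearGroup (Fin 2) F) : Matrix (Fin 2) (Fin 2) F).det)
        rw [det_fin_two] at hr
        have h4 : (4 : F) = 0 := by linear_combination 2 * h20
        rw [h4, zero_mul] at h2
        have h5 := pow_eq_zero_iff (two_ne_zero) |>.1 h2
        refine ⟨r, ?_⟩
        rw [det_fin_two]
        simp only [Matrix.sub_apply, scalar_apply, diagonal_apply_eq, ne_eq, Fin.isValue,
          zero_ne_one, one_ne_zero, not_false_eq_true, diagonal_apply_ne, sub_zero]
        linear_combination hr - r * h5 + r * r * h20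
      · refine ⟨((g : GeneralLinearGroup (Fin 2) F) : Matrix (Fin 2) (Fin 2) F).trace / 2, ?_⟩
        rw [det_fin_two, trace_fin_two]
        simp only [Matrix.sub_apply, scalar_apply, diagonal_apply_eq, ne_eq, Fin.isValue,
          zero_ne_one, one_ne_zero, not_false_eq_true, diagonal_apply_ne, sub_zero]
        field_simp
        linear_combination -h2
    obtain ⟨v, hv, hv2⟩ := Matrix.exists_mulVec_eq_zero_iff.2 hlam
    obtain ⟨h, hh, hhv⟩ := htr v hv
    refine ⟨⟨h, hh⟩, ?_⟩
    have hfx : g • ((⟨h, hh⟩ : L) • (OnePoint.infty : OnePoint E)) =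
        (⟨h, hh⟩ : L) • (OnePoint.infty : OnePoint E) := by
      rw [← inv_smul_eq_iff, ← mul_smul, ← mul_smul, hsm, hinf]
      rw [Matrix.sub_mulVec] at hv2
      have e2 : (scalar (Fin 2) lam).mulVec v = lam • v := by
        rw [Matrix.scalar_apply, ← Matrix.smul_one_eq_diagonal, Matrix.smul_mulVec,
          Matrix.one_mulVec]
      rw [e2, sub_eq_zero] at hv2
      have e3 : ((((⟨h, hh⟩ : L)⁻¹ * g * (⟨h, hh⟩ : L) : L) : GeneralLinearGroup (Fin 2) F) :
          Matrix (Fin 2) (Fin 2) F).mulVec ![1, 0] = lam • ![1, 0] := by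
        have e4 : ((((⟨h, hh⟩ : L)⁻¹ * g * (⟨h, hh⟩ : L) : L) : GeneralLinearGroup (Fin 2) F) :
          Matrix (Fin 2) (Fin 2) F) = ((h⁻¹ : GeneralLinearGroup (Fin 2) F) :
            Matrix (Fin 2) (Fin 2) F) * ((g : GeneralLinearGroup (Fin 2) F) :
            Matrix (Fin 2) (Fin 2) F) * (h : Matrix (Fin 2) (Fin 2) F) := rfl
        rw [e4, ← Matrix.mulVec_mulVec, ← Matrix.mulVec_mulVec, hhv, hv2, Matrix.mulVec_smul,
          ← hhv, Matrix.mulVec_mulVec, Units.inv_mul, Matrix.one_mulVec]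
      have e5 := congrFun e3 1
      simpa using e5
    have huniq := fix_parabolic hE (g : GeneralLinearGroup (Fin 2) F) h1 h2
    rw [Nat.card_eq_one_iff_unique] at huniq
    intro k
    constructor
    · intro hk
      have := huniq.1.elim ⟨k • (OnePoint.infty : OnePoint E), hk⟩
        ⟨(⟨h, hh⟩ : L) • (OnePoint.infty : OnePoint E), hfx⟩
      exact congrArg Subtype.val this
    · intro hk
      rw [hk]
      exact hfx
  have hPcard := card_conj (OnePoint.infty : OnePoint E) P hPconj hPfix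
  -- the orbit formula
  have horb := orb_formula (G := L) (X := OnePoint E) (Z' : Set L) P
    (fun g hg x => fix_scalar _ ((hZ'm g).1 hg) x)
    (by
      rw [Set.disjoint_left]
      intro g hg hg2
      exact hg2.1 ((hZ'm g).1 hg))
    (fun g hg => fix_parabolic hE _ hg.1 hg.2)
    (fun g hg hg2 => by
      have h1 : ((g : GeneralLinearGroup (Fin 2) F) : Matrix (Fin 2) (Fin 2) F) ∉
          Set.range (scalar (Fin 2)) := fun h => hg ((hZ'm g).2 h)
      exact fix_two hE _ h1 (fun h => hg2 ⟨h1, h⟩))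
  have hZc' : Nat.card ((Z' : Set L) : Type _) = q - 1 := hZc
  rw [hZc'] at horb
  -- the numbers
  let n : Quotient (MulAction.orbitRel L (OnePoint E)) → ℕ := fun ω =>
    Nat.card (MulAction.stabilizer L (Quotient.out ω)) / (q - 1)
  have hdvd : ∀ x : OnePoint E, q - 1 ∣ Nat.card (MulAction.stabilizer L x) := by
    intro x
    rw [← hZc]
    apply Subgroup.card_dvd_of_le
    intro g hg
    exact fix_scalar _ ((hZ'm g).1 hg) x
  have hnmul : ∀ ω, (q - 1) * n ω = Nat.card (MulAction.stabilizer L (Quotient.out ω)) :=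
    fun ω => Nat.mul_div_cancel' (hdvd _)
  have hnpos : ∀ ω, 1 ≤ n ω := by
    intro ω
    have h1 := hnmul ω
    have h2 : 0 < Nat.card (MulAction.stabilizer L (Quotient.out ω)) := Nat.card_pos
    rcases Nat.eq_zero_or_pos (n ω) with h | h
    · rw [h, mul_zero] at h1
      omega
    · exact h
  let i₀ : Quotient (MulAction.orbitRel L (OnePoint E)) := Quotient.mk _ OnePoint.infty
  have hi₀ : n i₀ = a * m := by
    have h1 : Nat.card (MulAction.stabilizer L (Quotient.out i₀)) =
        Nat.card (MulAction.stabilizer L (OnePoint.infty : OnePoint E)) := by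
      have h2 : (MulAction.orbitRel L (OnePoint E)) (Quotient.out i₀) OnePoint.infty :=
        Quotient.mk_out (s := MulAction.orbitRel L (OnePoint E)) OnePoint.infty
      exact Nat.card_congr (MulAction.stabilizerEquivStabilizerOfOrbitRel h2).toEquiv
    have h3 := hnmul i₀
    rw [h1, hScard] at h3
    exact Nat.eq_of_mul_eq_mul_left (by omega) h3
  have hnd : ∀ i, i ≠ i₀ → ∃ τ : E, τ ∉ Set.range (algebraMap F E) ∧
      Quotient.out i = (τ : OnePoint E) := by
    intro i hi
    have hno : ∀ l : L, Quotient.out i ≠ l • (OnePoint.infty : OnePoint E) := by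
      intro l hl
      apply hi
      rw [← Quotient.out_eq i]
      apply Quotient.sound
      change Quotient.out i ∈ MulAction.orbit L (OnePoint.infty : OnePoint E)
      exact ⟨l, hl.symm⟩
    rcases OnePoint.ne_infty_iff_exists.1 (fun h => hno 1 (by rw [one_smul]; exact h)) with ⟨τ, hτ⟩
    refine ⟨τ, ?_, hτ.symm⟩
    rintro ⟨t, rfl⟩
    obtain ⟨l, hl, hl2⟩ := htr ![t, 1] (by
      intro h
      have := congrFun h 1
      simp at this)
    apply hno ⟨l, hl⟩
    rw [← hτ, hsm, OnePoint.smul_infty_eq_ite]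
    have e1 := congrFun hl2 0
    have e2 := congrFun hl2 1
    simp only [mulVec_fin_two, cons_val_zero, cons_val_one, mul_one, mul_zero, add_zero] at e1 e2
    have e3 : (mapE F E l) 1 0 = algebraMap F E ((l : Matrix (Fin 2) (Fin 2) F) 1 0) := rfl
    have e4 : (mapE F E l) 0 0 = algebraMap F E ((l : Matrix (Fin 2) (Fin 2) F) 0 0) := rfl
    change _ = if (mapE F E l) 1 0 = 0 then _ else (((mapE F E l) 0 0 / (mapE F E l) 1 0 : E) :
      OnePoint E)
    rw [e3, e4, e1, e2, map_one, if_neg one_ne_zero, div_one]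
  have hndvd : ∀ i, i ≠ i₀ → n i ∣ q + 1 := by
    intro i hi
    obtain ⟨τ, hτ, hτ2⟩ := hnd i hi
    have h1 := card_stab_dvd hE ((MulAction.stabilizer L (Quotient.out i)).map L.subtype) τ hτ (by
      rintro _ ⟨l, hl, rfl⟩
      have := MulAction.mem_stabilizer_iff.1 hl
      rw [hτ2] at this
      exact this)
    rw [Nat.card_congr ((MulAction.stabilizer L (Quotient.out i)).equivMapOfInjective L.subtype
      L.subtype_injective).symm.toEquiv, ← hnmul i, Nat.card_eq_fintype_card (α := F), ← hqdef,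
      hqsq] at h1
    exact Nat.dvd_of_mul_dvd_mul_left (by omega) h1
  have hsum : ∑ i, (1 - 1 / (n i : ℚ)) =
      2 - 2 / (((q : ℚ) + 1) * a * m) - ((a : ℚ) - 1) / (a * m) := by
    have hq1' : ((q - 1 : ℕ) : ℚ) = (q : ℚ) - 1 := by
      rw [Nat.cast_sub (by omega), Nat.cast_one]
    have hqne : (q : ℚ) - 1 ≠ 0 := by
      rw [← hq1']
      exact_mod_cast (by omega : q - 1 ≠ 0)
    have hqne2 : (q : ℚ) + 1 ≠ 0 := by positivity
    have ham' : (a : ℚ) ≠ 0 := by exact_mod_cast hapos.ne'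
    have hmm' : (m : ℚ) ≠ 0 := by exact_mod_cast hmpos.ne'
    have hterm : ∀ i, (1 - 1 / (n i : ℚ)) = (1 - ((q - 1 : ℕ) : ℚ) /
        (Nat.card (MulAction.stabilizer L (Quotient.out i)) : ℚ)) := by
      intro i
      have hni : (n i : ℚ) ≠ 0 := by exact_mod_cast Nat.one_le_iff_ne_zero.1 (hnpos i)
      rw [← hnmul i, Nat.cast_mul, hq1']
      field_simp
    rw [Finset.sum_congr rfl (fun i _ => hterm i), horb]
    -- card of P
    have hP1 : (Nat.card P : ℚ) = ((q : ℚ) ^ 2 - 1) * ((a : ℚ) - 1) := by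
      have h1 : (Nat.card P : ℚ) * (((q : ℚ) - 1) * (a * m)) =
          (((q : ℚ) - 1) * (q + 1)) * (a * m) * (Nat.card {g : L // g ∈ P ∧
            g • (OnePoint.infty : OnePoint E) = OnePoint.infty} : ℚ) := by
        rw [hScard, hLc] at hPcard
        rw [← hq1']
        exact_mod_cast hPcard
      have h2 : (Nat.card {g : L // g ∈ P ∧
            g • (OnePoint.infty : OnePoint E) = OnePoint.infty} : ℚ) + ((q : ℚ) - 1) =
            ((q : ℚ) - 1) * a := by
        rw [← hq1']
        exact_mod_cast hPinf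
      have h3 : (((q : ℚ) - 1) * (a * m)) ≠ 0 := mul_ne_zero hqne (mul_ne_zero ham' hmm')
      apply mul_right_cancel₀ h3
      rw [h1, eq_sub_of_add_eq h2]
      ring
    have hL1 : (Nat.card L : ℚ) = (((q : ℚ) - 1) * (q + 1)) * (a * m) := by
      rw [hLc, ← hq1']
      push_cast
      ring
    rw [hP1, hL1, hq1']
    field_simp
    ring
  rcases ar q a m n i₀ hq ha hm hnpos hi₀ hndvd hsum with h | ⟨h1, i, hi, h2⟩
  · left
    intro c
    obtain ⟨k, hk, hk2⟩ := hfull h c
    exact ⟨k, ((hBm k).1 hk).1, hk2⟩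
  · right
    refine ⟨by rw [hf']; exact h1, ?_⟩
    obtain ⟨τ, hτ, hτ2⟩ := hnd i hi
    obtain ⟨z, hz, hz2⟩ := exists_commute hE τ hτ
    refine ⟨z, hz, ?_⟩
    have h3 : Nat.card {l : L // Commute ((l : GeneralLinearGroup (Fin 2) F) :
          Matrix (Fin 2) (Fin 2) F) z} = (q - 1) * n i := by
      rw [hnmul i]
      refine Nat.card_congr (Equiv.subtypeEquivRight ?_)
      intro l
      rw [MulAction.mem_stabilizer_iff, hτ2, ← hz2]
      rfl
    rw [h3, hLc]
    calc (q - 1) * (q + 1) * (a * m) = (q - 1) * ((q + 1) * (a * m)) := by ring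
      _ ≤ (q - 1) * (2 * n i) := Nat.mul_le_mul_left _ h2
      _ = 2 * ((q - 1) * n i) := by ring

theorem t2 {F : Type*} [Field F] [Fintype F] (hq : 59 < Fintype.card F)
    (L : Subgroup (GeneralLinearGroup (Fin 2) F))
    (hsc : ∀ c : F, c ≠ 0 → inG L (Matrix.scalar (Fin 2) c))
    (htr : ∀ v : Fin 2 → F, v ≠ 0 → ∃ l ∈ L,
      (l : Matrix (Fin 2) (Fin 2) F).mulVec ![1, 0] = v) :
    (∀ c : F, inG L !![1, c; 0, 1]) ∨
    (Nat.card {l : L // ((l : GeneralLinearGroup (Fin 2) F) :
        Matrix (Fin 2) (Fin 2) F).mulVec ![1, 0] = ![1, 0]} ≤ 2 ∧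
      ∃ z : Matrix (Fin 2) (Fin 2) F, ¬ HasEV z ∧
        Nat.card L ≤ 2 * Nat.card {l : L // Commute ((l : GeneralLinearGroup (Fin 2) F) :
          Matrix (Fin 2) (Fin 2) F) z}) := by
  classical
  have : Fact (ringChar F).Prime := ⟨CharP.char_is_prime F (ringChar F)⟩
  have : Finite (FiniteField.Extension F (ringChar F) 2) := Module.finite_of_finite F
  exact t2_aux (E := FiniteField.Extension F (ringChar F) 2)
    (FiniteField.finrank_extension F (ringChar F) 2) hq L hsc htr

end Lin43
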