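import Pool.Agent.Lib.MP_43150e_al.Lin.Kol

/-! # Automorphisms of `PSL_n(F)` permute the conjugates of the Borel subgroup

`π(U)` is a Sylow `p`-subgroup of `PSL_n(F)` (by `kolchin`: a Sylow `p`-subgroup `R` above it, `V`
= preimage of `R`, `V_p` a Sylow `p`-subgroup of `V`, maps onto `R`, `|R| ≤ |V_p| ≤ |U|`), `π(B)` is its
normaliser (`norm_uni`; if `s⁻¹ u s = c u'` with `c` scalar, `u'` unitriangular, then `c = 1` since both
have `p`-power order and `c^(p^a) = 1` gives `c = 1` in characteristic `p`). Sylow's theorem. -/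

set_option autoImplicit false

namespace Lin43

open Matrix Pointwise

theorem ab_finite (n : ℕ) (F : Type*) [Field F] [Finite F] :
    Finite (SpecialLinearGroup (Fin n) F) :=
  inferInstanceAs (Finite {A : Matrix (Fin n) (Fin n) F // A.det = 1})

/-- `U` is a Sylow subgroup. -/
theorem ab_sylow {n : ℕ} {F : Type*} [Field F] [Finite F] (p : ℕ) [Fact p.Prime] [CharP F p] :
    ∃ S : Sylow p (SpecialLinearGroup (Fin n) F), (S : Subgroup _) = uniS n F := by
  have hfin := ab_finite n F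
  refine ⟨{ uniS n F with
    isPGroup' := isPGroup_uniS p
    is_maximal' := ?_ }, rfl⟩
  intro Q hQ hle
  have hle' : uniS n F ≤ Q := hle
  obtain ⟨m, hm⟩ := kolchin p Q hQ
  refine (Subgroup.eq_of_le_of_card_ge hle' ?_).symm
  refine Nat.card_le_card_of_injective (fun v : Q => (⟨m⁻¹ * v.1 * m, hm v.1 v.2⟩ : uniS n F)) ?_
  intro v v' h
  have h1 : m⁻¹ * v.1 * m = m⁻¹ * v'.1 * m := congrArg Subtype.val h
  exact Subtype.ext (mul_left_cancel (mul_right_cancel h1))

/-- Conjugates of unitriangular matrices under triangular ones. -/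
theorem ab_conj {n : ℕ} {F : Type*} [Field F] {s u : SpecialLinearGroup (Fin n) F}
    (hs : UT (s : Matrix (Fin n) (Fin n) F)) (hu : UU (u : Matrix (Fin n) (Fin n) F)) :
    UU ((s⁻¹ * u * s : SpecialLinearGroup (Fin n) F) : Matrix (Fin n) (Fin n) F) := by
  have hsi : UT ((s⁻¹ : SpecialLinearGroup (Fin n) F) : Matrix (Fin n) (Fin n) F) :=
    (borelS n F).inv_mem hs
  have h1 : ((s⁻¹ : SpecialLinearGroup (Fin n) F) : Matrix (Fin n) (Fin n) F) *
      (s : Matrix (Fin n) (Fin n) F) = 1 := by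
    rw [← Matrix.SpecialLinearGroup.coe_mul, inv_mul_cancel, Matrix.SpecialLinearGroup.coe_one]
  rw [Matrix.SpecialLinearGroup.coe_mul, Matrix.SpecialLinearGroup.coe_mul]
  refine ⟨(hsi.mul hu.1).mul hs, fun i => ?_⟩
  rw [(hsi.mul hu.1).mul_diag hs, hsi.mul_diag hu.1, hu.2, mul_one, ← hsi.mul_diag hs, h1,
    Matrix.one_apply_eq]

/-- The elements which normalise the image of `U`. -/
theorem ab_norm {n : ℕ} {F : Type*} [Field F] [Finite F] (s : SpecialLinearGroup (Fin n) F) :
    (∀ u ∈ uniS n F, toP n F (s⁻¹ * u * s) ∈ (uniS n F).map (toP n F)) ↔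
      UT (s : Matrix (Fin n) (Fin n) F) := by
  obtain ⟨p, hp⟩ := CharP.exists F
  have hpp : Fact p.Prime := ⟨CharP.char_is_prime F p⟩
  constructor
  · intro h
    refine norm_uni s fun u hu => ?_
    obtain ⟨u', hu', h1⟩ := h u hu
    have hz : u'⁻¹ * (s⁻¹ * u * s) ∈ Subgroup.center (SpecialLinearGroup (Fin n) F) :=
      QuotientGroup.eq.1 h1
    obtain ⟨z, hzz⟩ : ∃ z, z = u'⁻¹ * (s⁻¹ * u * s) := ⟨_, rfl⟩
    rw [← hzz] at hz
    have h2 : s⁻¹ * u * s = u' * z := by rw [hzz, mul_inv_cancel_left]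
    suffices h3 : z = 1 by
      rw [h2, h3, mul_one]
      exact hu'
    rcases Nat.eq_zero_or_pos n with rfl | hn
    · exact Subsingleton.elim _ _
    obtain ⟨c, hc⟩ := center_scalar z hz
    obtain ⟨a, ha⟩ := isPGroup_uniS (n := n) (F := F) p ⟨u, hu⟩
    obtain ⟨b, hb⟩ := isPGroup_uniS (n := n) (F := F) p ⟨u', hu'⟩
    have ha' : u ^ p ^ a = 1 := congrArg Subtype.val ha
    have hb' : u' ^ p ^ b = 1 := congrArg Subtype.val hb
    have hu1 : u ^ p ^ (a + b) = 1 := by rw [pow_add, pow_mul, ha', one_pow]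
    have hu2 : u' ^ p ^ (a + b) = 1 := by rw [add_comm, pow_add, pow_mul, hb', one_pow]
    have hcomm : Commute u' z := (Subgroup.mem_center_iff.1 hz u')
    have h4 : z ^ p ^ (a + b) = 1 := by
      have e : (s⁻¹ * u * s) ^ p ^ (a + b) = 1 := by
        have e0 : s⁻¹ * u * s = s⁻¹ * u * (s⁻¹)⁻¹ := by rw [inv_inv]
        rw [e0, conj_pow, hu1, mul_one, mul_inv_cancel]
      rw [h2, hcomm.mul_pow, hu2, one_mul] at e
      exact e
    have h5 := congrArg (fun g : SpecialLinearGroup (Fin n) F =>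
      (g : Matrix (Fin n) (Fin n) F) ⟨0, hn⟩ ⟨0, hn⟩) h4
    simp only [Matrix.SpecialLinearGroup.coe_pow, Matrix.SpecialLinearGroup.coe_one] at h5
    rw [hc, ← map_pow, Matrix.scalar_apply, Matrix.diagonal_apply_eq, Matrix.one_apply_eq] at h5
    have hexp : ExpChar F p := ExpChar.prime hpp.out
    have h6 : c = 1 := by
      have h7 := (ExpChar.pow_prime_pow_mul_eq_one_iff p (a + b) 1 c).1 (by rw [mul_one]; exact h5)
      rwa [pow_one] at h7
    refine Subtype.ext ?_
    change (z : Matrix (Fin n) (Fin n) F) = ((1 : SpecialLinearGroup (Fin n) F) :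
      Matrix (Fin n) (Fin n) F)
    rw [hc, h6, map_one, Matrix.SpecialLinearGroup.coe_one]
  · intro hs u hu
    exact ⟨_, ab_conj hs hu, rfl⟩

/-- `autB` and `autU` with the same `m`. -/
theorem autBU {n : ℕ} {F : Type*} [Field F] [Finite F]
    (β : ProjectiveSpecialLinearGroup (Fin n) F ≃* ProjectiveSpecialLinearGroup (Fin n) F) :
    ∃ m : SpecialLinearGroup (Fin n) F, (∀ s : SpecialLinearGroup (Fin n) F,
      β (toP n F s) ∈ (borelS n F).map (toP n F) ↔
        UT ((m⁻¹ * s * m : SpecialLinearGroup (Fin n) F) : Matrix (Fin n) (Fin n) F)) ∧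
      ∀ s : SpecialLinearGroup (Fin n) F,
        β (toP n F s) ∈ (uniS n F).map (toP n F) ↔
          ∃ u : SpecialLinearGroup (Fin n) F, UU (u : Matrix (Fin n) (Fin n) F) ∧
            toP n F s = toP n F (m * u * m⁻¹) := by
  obtain ⟨p, hp⟩ := CharP.exists F
  have hpp : Fact p.Prime := ⟨CharP.char_is_prime F p⟩
  have hfin := ab_finite n F
  have hsurj : Function.Surjective (toP n F) := QuotientGroup.mk'_surjective _
  have hfinP : Finite (ProjectiveSpecialLinearGroup (Fin n) F) := Finite.of_surjective _ hsurj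
  obtain ⟨S, hS⟩ := ab_sylow (n := n) (F := F) p
  let Q : Sylow p (ProjectiveSpecialLinearGroup (Fin n) F) := S.mapSurjective hsurj
  have hQ : (Q : Subgroup _) = (uniS n F).map (toP n F) := by
    rw [← hS]
    rfl
  let Q' : Sylow p (ProjectiveSpecialLinearGroup (Fin n) F) :=
    Q.mapSurjective (f := β.symm.toMonoidHom) β.symm.surjective
  have hQ' : ∀ x, x ∈ (Q' : Subgroup _) ↔ β x ∈ (uniS n F).map (toP n F) := by
    intro x
    rw [← hQ]
    constructor
    · rintro ⟨y, hy, rfl⟩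
      change β (β.symm y) ∈ (Q : Subgroup _)
      rw [MulEquiv.apply_symm_apply]
      exact hy
    · intro hx
      exact ⟨β x, hx, β.symm_apply_apply x⟩
  obtain ⟨g, hg⟩ := MulAction.exists_smul_eq (ProjectiveSpecialLinearGroup (Fin n) F) Q Q'
  obtain ⟨m, rfl⟩ := hsurj g
  have hU : ∀ x, β x ∈ (uniS n F).map (toP n F) ↔
      (toP n F m)⁻¹ * x * toP n F m ∈ (uniS n F).map (toP n F) := by
    intro x
    rw [← hQ', ← hg, ← hQ]
    change x ∈ MulAut.conj (toP n F m) • (Q : Subgroup _) ↔ _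
    rw [Subgroup.mem_pointwise_smul_iff_inv_smul_mem, ← map_inv, MulAut.smul_def,
      MulAut.conj_apply, inv_inv]
  refine ⟨m, ?_, ?_⟩
  · intro s
    obtain ⟨s', hs'⟩ := hsurj (β (toP n F s))
    rw [← hs', mem_borelS_map, ← ab_norm s', ← ab_norm (m⁻¹ * s * m)]
    constructor
    · intro h u hu
      obtain ⟨u', hu'⟩ := hsurj (β (toP n F (m * u * m⁻¹)))
      have h1 : toP n F u' ∈ (uniS n F).map (toP n F) := by
        rw [hu', hU, ← map_inv, ← map_mul, ← map_mul]
        refine ⟨u, hu, ?_⟩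
        congr 1
        group
      obtain ⟨u₁, hu₁, h2⟩ := h1
      have h3 := h u₁ hu₁
      rw [map_mul, map_mul, map_inv, h2, hu', hs', ← map_inv, ← map_mul, ← map_mul, hU,
        ← map_inv, ← map_inv, ← map_mul, ← map_mul, ← map_mul, ← map_mul] at h3
      have e : m⁻¹ * (s⁻¹ * (m * u * m⁻¹) * s) * m =
          (m⁻¹ * s * m)⁻¹ * u * (m⁻¹ * s * m) := by group
      rwa [e] at h3
    · intro h u hu
      obtain ⟨x, hx⟩ := β.surjective (toP n F u)
      obtain ⟨v, rfl⟩ := hsurj x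
      have h1 : β (toP n F v) ∈ (uniS n F).map (toP n F) := by
        rw [hx]
        exact ⟨u, hu, rfl⟩
      rw [hU, ← map_inv, ← map_mul, ← map_mul] at h1
      obtain ⟨u₁, hu₁, h2⟩ := h1
      have h3 := h u₁ hu₁
      rw [map_mul, map_mul, map_inv, hs', ← hx, ← map_inv, ← map_mul, ← map_mul, hU,
        ← map_inv, ← map_inv, ← map_mul, ← map_mul, ← map_mul, ← map_mul]
      have e : m⁻¹ * (s⁻¹ * v * s) * m = (m⁻¹ * s * m)⁻¹ * (m⁻¹ * v * m) * (m⁻¹ * s * m) := by
        group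
      rw [e, map_mul, map_mul _ ((m⁻¹ * s * m)⁻¹), ← h2, ← map_mul, ← map_mul]
      exact h3
  · intro s
    rw [hU, ← map_inv, ← map_mul, ← map_mul]
    constructor
    · rintro ⟨u, hu, h⟩
      refine ⟨u, hu, ?_⟩
      rw [map_mul, map_mul, h, ← map_mul, ← map_mul]
      congr 1
      group
    · rintro ⟨u, hu, h⟩
      refine ⟨u, hu, ?_⟩
      rw [map_mul, map_mul, h, ← map_mul, ← map_mul]
      congr 1
      group

theorem autB {n : ℕ} {F : Type*} [Field F] [Finite F]
    (β : ProjectiveSpecialLinearGroup (Fin n) F ≃* ProjectiveSpecialLinearGroup (Fin n) F) :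
    ∃ m : SpecialLinearGroup (Fin n) F, ∀ s : SpecialLinearGroup (Fin n) F,
      β (toP n F s) ∈ (borelS n F).map (toP n F) ↔
        UT ((m⁻¹ * s * m : SpecialLinearGroup (Fin n) F) : Matrix (Fin n) (Fin n) F) := by
  obtain ⟨m, h, -⟩ := autBU β
  exact ⟨m, h⟩

/-- The image of the unitriangular group under an automorphism of `PSL_n(F)`: the same statement
for `U` (used for horocycles). `m` can be taken as in `autB` for the same `β`. -/
theorem autU {n : ℕ} {F : Type*} [Field F] [Finite F]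
    (β : ProjectiveSpecialLinearGroup (Fin n) F ≃* ProjectiveSpecialLinearGroup (Fin n) F) :
    ∃ m : SpecialLinearGroup (Fin n) F, ∀ s : SpecialLinearGroup (Fin n) F,
      β (toP n F s) ∈ (uniS n F).map (toP n F) ↔
        ∃ u : SpecialLinearGroup (Fin n) F, UU (u : Matrix (Fin n) (Fin n) F) ∧
          toP n F s = toP n F (m * u * m⁻¹) := by
  obtain ⟨m, -, h⟩ := autBU β
  exact ⟨m, h⟩

end Lin43
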