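import Pool.Agent.Lib.MP_43150e_al.Lin.Gen

/-! # An irreducible group containing all transvections with one centre contains `SL_n` -/

set_option autoImplicit false

namespace Lin43

open Matrix

variable {n : ℕ} {F : Type*} [Field F]

theorem inS_one (K : Subgroup (SpecialLinearGroup (Fin n) F)) :
    inS K (1 : Matrix (Fin n) (Fin n) F) :=
  ⟨1, K.one_mem, Matrix.SpecialLinearGroup.coe_one⟩

/-- Conjugation by an element of `K`. -/
theorem inS_conj (K : Subgroup (SpecialLinearGroup (Fin n) F)) (k : SpecialLinearGroup (Fin n) F)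
    (hk : k ∈ K) (v : Fin n → F)
    (hv : ∀ φ : Fin n → F, φ ⬝ᵥ v = 0 → inS K (tv v φ)) :
    ∀ φ : Fin n → F, φ ⬝ᵥ (k : Matrix (Fin n) (Fin n) F).mulVec v = 0 →
      inS K (tv ((k : Matrix (Fin n) (Fin n) F).mulVec v) φ) := by
  intro φ hφ
  have h1 : Matrix.vecMul φ (k : Matrix (Fin n) (Fin n) F) ⬝ᵥ v = 0 := by
    rw [← Matrix.dotProduct_mulVec]
    exact hφ
  obtain ⟨s, hs, hs2⟩ := hv _ h1
  have hkk : (k : Matrix (Fin n) (Fin n) F) * ((k⁻¹ : SpecialLinearGroup (Fin n) F) :
      Matrix (Fin n) (Fin n) F) = 1 := by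
    rw [← Matrix.SpecialLinearGroup.coe_mul, mul_inv_cancel, Matrix.SpecialLinearGroup.coe_one]
  refine ⟨k * s * k⁻¹, K.mul_mem (K.mul_mem hk hs) (K.inv_mem hk), ?_⟩
  rw [Matrix.SpecialLinearGroup.coe_mul, Matrix.SpecialLinearGroup.coe_mul, hs2,
    conj_tv _ _ hkk, Matrix.vecMul_vecMul, hkk, Matrix.vecMul_one]

/-- The subspace of the centres. -/
def centreS (K : Subgroup (SpecialLinearGroup (Fin n) F)) : Submodule F (Fin n → F) where
  carrier := {v | ∀ φ : Fin n → F, φ ⬝ᵥ v = 0 → inS K (tv v φ)}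
  zero_mem' := by
    intro φ _
    have h : tv (0 : Fin n → F) φ = 1 := by
      rw [tv, Matrix.zero_vecMulVec, add_zero]
    rw [h]
    exact inS_one K
  smul_mem' := by
    intro c v hv φ hφ
    rcases eq_or_ne c 0 with hc | hc
    · have h : tv (c • v) φ = 1 := by
        rw [hc, zero_smul, tv, Matrix.zero_vecMulVec, add_zero]
      rw [h]
      exact inS_one K
    · rw [tv_smul]
      apply hv
      rw [dotProduct_smul, smul_eq_mul] at hφ
      rw [smul_dotProduct, smul_eq_mul]
      exact hφ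
  add_mem' := by
    intro v v' hv hv' φ hφ
    by_cases h : v' ∈ Submodule.span F {v}
    · obtain ⟨c, rfl⟩ := Submodule.mem_span_singleton.1 h
      have h2 : v + c • v = (1 + c) • v := by rw [add_smul, one_smul]
      rw [h2] at hφ ⊢
      rcases eq_or_ne (1 + c) 0 with hc | hc
      · have h : tv ((1 + c) • v) φ = 1 := by
          rw [hc, zero_smul, tv, Matrix.zero_vecMulVec, add_zero]
        rw [h]
        exact inS_one K
      · rw [tv_smul]
        apply hv
        rw [dotProduct_smul, smul_eq_mul] at hφ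
        rw [smul_dotProduct, smul_eq_mul]
        exact hφ
    · obtain ⟨f, hf1, hf2⟩ := Submodule.exists_le_ker_of_notMem h
      have hfv : f v = 0 := hf2 (Submodule.mem_span_singleton_self v)
      have key : ∀ w : Fin n → F, (fun i => (f v')⁻¹ * f (Pi.single i 1)) ⬝ᵥ w =
          (f v')⁻¹ * f w := by
        intro w
        have h1 : f w = ∑ i, f (Pi.single i 1) * w i := by
          conv_lhs => rw [pi_eq_sum_univ' w]
          rw [map_sum]
          refine Finset.sum_congr rfl fun i _ => ?_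
          rw [map_smul, smul_eq_mul, mul_comm]
        rw [h1, dotProduct, Finset.mul_sum]
        refine Finset.sum_congr rfl fun i _ => ?_
        rw [mul_assoc]
      have hk0 := hv _ (by rw [key v, hfv, mul_zero])
      obtain ⟨k, hk, hk2⟩ := hk0
      have h3 := inS_conj K k hk v' hv'
      rw [hk2, tv_mulVec, key v', inv_mul_cancel₀ hf1, one_smul, add_comm v' v] at h3
      exact h3 φ hφ

theorem mem_centreS (K : Subgroup (SpecialLinearGroup (Fin n) F)) (v : Fin n → F) :
    v ∈ centreS K ↔ ∀ φ : Fin n → F, φ ⬝ᵥ v = 0 → inS K (tv v φ) := Iff.rfl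

/-- The vectors `v` such that all `1 + v ⊗ φ` (`φ ⬝ v = 0`) belong to `K` form a `K`-invariant
subspace: for independent `v, v'` choose `ψ` with `ψ ⬝ v = 0`, `ψ ⬝ v' = 1`; then `1 + v ⊗ ψ ∈ K` maps `v'`
to `v' + v`. -/
theorem l4 (K : Subgroup (SpecialLinearGroup (Fin n) F)) (v₀ : Fin n → F) (hv₀ : v₀ ≠ 0)
    (hE : ∀ φ : Fin n → F, φ ⬝ᵥ v₀ = 0 → inS K (tv v₀ φ))
    (hirr : ∀ W : Submodule F (Fin n → F),
      (∀ k ∈ K, ∀ w ∈ W, (k : Matrix (Fin n) (Fin n) F).mulVec w ∈ W) → W = ⊥ ∨ W = ⊤) :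
    K = ⊤ := by
  have h1 : centreS K = ⊤ := by
    rcases hirr (centreS K) (fun k hk w hw => inS_conj K k hk w hw) with h | h
    · exact absurd ((Submodule.mem_bot F).1 (h ▸ (mem_centreS K v₀).2 hE)) hv₀
    · exact h
  refine gen K fun i j hij c => ?_
  have h2 : (Pi.single i 1 : Fin n → F) ∈ centreS K := h1 ▸ Submodule.mem_top
  rw [← tv_single]
  refine (mem_centreS K _).1 h2 _ ?_
  rw [dotProduct_single, Pi.single_eq_of_ne hij, zero_mul]

/-- The subspaces invariant under all unitriangular matrices of determinant one are the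
`E_i = {v | v_k = 0 for k ≥ i}`. -/
theorem inv_uni (W : Submodule F (Fin n → F))
    (hW : ∀ u : SpecialLinearGroup (Fin n) F, UU (u : Matrix (Fin n) (Fin n) F) →
      ∀ w ∈ W, (u : Matrix (Fin n) (Fin n) F).mulVec w ∈ W) :
    ∃ i : ℕ, i ≤ n ∧ ∀ v : Fin n → F, v ∈ W ↔ ∀ k : Fin n, i ≤ (k : ℕ) → v k = 0 := by
  classical
  have hex : ∃ i : ℕ, ∀ v ∈ W, ∀ k : Fin n, i ≤ (k : ℕ) → v k = 0 :=
    ⟨n, fun v _ k hk => absurd k.2 (not_lt.2 hk)⟩
  obtain ⟨i, hi, hmin⟩ : ∃ i : ℕ, (∀ v ∈ W, ∀ k : Fin n, i ≤ (k : ℕ) → v k = 0) ∧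
      ∀ j < i, ¬ ∀ v ∈ W, ∀ k : Fin n, j ≤ (k : ℕ) → v k = 0 :=
    ⟨Nat.find hex, Nat.find_spec hex, fun j hj => Nat.find_min hex hj⟩
  have hin : i ≤ n := by
    by_contra h
    exact hmin n (not_le.1 h) fun v _ k hk => absurd k.2 (not_lt.2 hk)
  refine ⟨i, hin, fun v => ⟨fun h => hi v h, fun h => ?_⟩⟩
  rcases Nat.eq_zero_or_pos i with h0 | h0
  · have h1 : v = 0 := by
      funext k
      exact h k (by omega)
    rw [h1]
    exact W.zero_mem
  · have h2 := hmin (i - 1) (by omega)
    push Not at h2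
    obtain ⟨x, hx, k, hk, hxk⟩ := h2
    have hki : (k : ℕ) = i - 1 := by
      by_contra hne
      exact hxk (hi x hx k (by omega))
    -- all vectors of `E_{i-1}` are in `W`
    have h3 : ∀ w : Fin n → F, (∀ l : Fin n, i - 1 ≤ (l : ℕ) → w l = 0) → w ∈ W := by
      intro w hw
      have hφ : (Pi.single k (x k)⁻¹ : Fin n → F) ⬝ᵥ w = 0 := by
        rw [single_dotProduct, hw k (by omega), mul_zero]
      have hu : UU (tv w (Pi.single k (x k)⁻¹ : Fin n → F)) := by
        constructor
        · intro a b hab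
          rw [tv, Matrix.add_apply, Matrix.one_apply_ne hab.ne', Matrix.vecMulVec_apply, zero_add]
          by_cases hb : b = k
          · have h4 : w a = 0 := hw a (by
              rw [hb, Fin.lt_def] at hab
              omega)
            rw [h4, zero_mul]
          · rw [Pi.single_eq_of_ne hb, mul_zero]
        · intro a
          rw [tv, Matrix.add_apply, Matrix.one_apply_eq, Matrix.vecMulVec_apply]
          by_cases ha : a = k
          · rw [ha, hw k (by omega), zero_mul, add_zero]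
          · rw [Pi.single_eq_of_ne ha, mul_zero, add_zero]
      have h5 := hW (tvS w _ hφ) hu x hx
      have h6 : ((tvS w _ hφ : SpecialLinearGroup (Fin n) F) :
          Matrix (Fin n) (Fin n) F).mulVec x = x + w := by
        change (tv w (Pi.single k (x k)⁻¹ : Fin n → F)).mulVec x = x + w
        rw [tv_mulVec, single_dotProduct, inv_mul_cancel₀ hxk, one_smul]
      rw [h6] at h5
      have h7 := W.sub_mem h5 hx
      rwa [add_sub_cancel_left] at h7
    have h8 : v - (v k * (x k)⁻¹) • x ∈ W := by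
      apply h3
      intro l hl
      rw [Pi.sub_apply, Pi.smul_apply, smul_eq_mul]
      by_cases hlk : l = k
      · rw [hlk, mul_assoc, inv_mul_cancel₀ hxk, mul_one, sub_self]
      · have h9 : (l : ℕ) ≠ k := fun h => hlk (Fin.ext h)
        rw [h l (by omega), hi x hx l (by omega), mul_zero, sub_zero]
    have h10 := W.add_mem h8 (W.smul_mem (v k * (x k)⁻¹) hx)
    rwa [sub_add_cancel] at h10

end Lin43
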