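import Pool.Agent.Lib.MP_43150e_al.Lin.StW
import Pool.Agent.Lib.MP_43150e_al.Lin.L4
import Pool.Agent.Lib.MP_43150e_al.Lin.AutB

/-! # Automorphisms of `PSL_n(F)` permute the stabilisers of points and hyperplanes -/

set_option autoImplicit false

namespace Lin43

open Matrix Module

variable {n : ℕ} {F : Type*} [Field F]

/-- The index of the stabiliser of a point. -/
theorem index_stW_pt [Finite F] (v : Fin n → F) (hv : v ≠ 0) :
    (stW (Submodule.span F {v})).index * (Nat.card F - 1) = Nat.card F ^ n - 1 := by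
  have h1 : stW (Submodule.span F {v}) =
      MulAction.stabilizer (SpecialLinearGroup (Fin n) F) (Projectivization.mk F v hv) := by
    ext s
    rw [mem_stW_span, MulAction.mem_stabilizer_iff, Projectivization.smul_mk,
      Projectivization.mk_eq_mk_iff']
    exact exists_congr fun c => eq_comm
  have h2 : MulAction.IsPretransitive (SpecialLinearGroup (Fin n) F)
      (Projectivization F (Fin n → F)) :=
    (inferInstance : MulAction.IsPreprimitive (SpecialLinearGroup (Fin n) F)
      (Projectivization F (Fin n → F))).toIsPretransitive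
  rw [h1, MulAction.index_stabilizer_of_transitive, ← Projectivization.card, Nat.card_fun,
    Nat.card_eq_fintype_card (α := Fin n), Fintype.card_fin]

/-- The inverse transpose. -/
def invT (n : ℕ) (F : Type*) [Field F] :
    SpecialLinearGroup (Fin n) F →* SpecialLinearGroup (Fin n) F where
  toFun s := (s⁻¹).transpose
  map_one' := by
    refine Subtype.ext ?_
    change (((1 : SpecialLinearGroup (Fin n) F)⁻¹ : SpecialLinearGroup (Fin n) F) :
      Matrix (Fin n) (Fin n) F)ᵀ = 1
    rw [inv_one, Matrix.SpecialLinearGroup.coe_one, Matrix.transpose_one]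
  map_mul' a b := by
    refine Subtype.ext ?_
    change (((a * b)⁻¹ : SpecialLinearGroup (Fin n) F) : Matrix (Fin n) (Fin n) F)ᵀ =
      ((a⁻¹ : SpecialLinearGroup (Fin n) F) : Matrix (Fin n) (Fin n) F)ᵀ *
        ((b⁻¹ : SpecialLinearGroup (Fin n) F) : Matrix (Fin n) (Fin n) F)ᵀ
    rw [_root_.mul_inv_rev, Matrix.SpecialLinearGroup.coe_mul, Matrix.transpose_mul]

theorem invT_surj : Function.Surjective (invT n F) := by
  intro s
  refine ⟨(s.transpose)⁻¹, ?_⟩
  change ((s.transpose)⁻¹)⁻¹.transpose = s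
  rw [inv_inv]
  exact Subtype.ext (Matrix.transpose_transpose _)

/-- The index of the stabiliser of a hyperplane. -/
theorem index_stW_hyp [Finite F] (φ : Fin n → F) (hφ : φ ≠ 0) :
    (stW (kerφ φ)).index * (Nat.card F - 1) = Nat.card F ^ n - 1 := by
  have h1 : stW (kerφ φ) = (stW (Submodule.span F {φ})).comap (invT n F) := by
    ext s
    rw [Subgroup.mem_comap, mem_stW_span, ← inv_mem_iff (H := stW (kerφ φ)), mem_stW_kerφ]
    refine exists_congr fun c => ?_
    change _ ↔ ((s⁻¹ : SpecialLinearGroup (Fin n) F) : Matrix (Fin n) (Fin n) F)ᵀ.mulVec φ = _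
    rw [Matrix.mulVec_transpose]
  rw [h1, Subgroup.index_comap_of_surjective _ invT_surj, index_stW_pt φ hφ]

/-- The index of the stabiliser of a point or of a hyperplane. -/
theorem index_stW [Finite F] (hn : 2 ≤ n) (W : Submodule F (Fin n → F))
    (hW : finrank F W = 1 ∨ finrank F W + 1 = n) :
    (stW W).index * (Nat.card F - 1) = Nat.card F ^ n - 1 := by
  rcases hW with hW | hW
  · obtain ⟨v, hv, h⟩ := finrank_eq_one_iff'.1 hW
    have e : W = Submodule.span F {(v : Fin n → F)} := by
      apply le_antisymm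
      · intro w hw
        obtain ⟨c, hc⟩ := h ⟨w, hw⟩
        exact Submodule.mem_span_singleton.2 ⟨c, congrArg Subtype.val hc⟩
      · rw [Submodule.span_singleton_le_iff_mem]
        exact v.2
    rw [e]
    exact index_stW_pt _ fun h0 => hv (Subtype.ext h0)
  · obtain ⟨φ, hφ, e⟩ := exists_kerφ W hW
    rw [e]
    exact index_stW_hyp φ hφ

/-- The matrices `[[1, 0], [C, 1]]` with respect to a coordinate subspace. -/
def lowC (I : Finset (Fin n)) (C : {i // i ∉ I} → {j // j ∈ I} → F) : Matrix (Fin n) (Fin n) F :=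
  Matrix.of fun i j => if h : i ∉ I ∧ j ∈ I then C ⟨i, h.1⟩ ⟨j, h.2⟩ else 0

theorem lowC_det (I : Finset (Fin n)) (C : {i // i ∉ I} → {j // j ∈ I} → F) :
    (1 + lowC I C).det = 1 := by
  have h1 : lowC I C = Matrix.diagonal (fun i => if i ∈ I then (0 : F) else 1) * lowC I C := by
    ext i j
    rw [Matrix.diagonal_mul]
    by_cases h : i ∈ I
    · rw [if_pos h, zero_mul]
      exact dif_neg fun h' => h'.1 h
    · rw [if_neg h, one_mul]
  have h2 : lowC I C * Matrix.diagonal (fun i => if i ∈ I then (0 : F) else 1) = 0 := by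
    ext i j
    rw [Matrix.mul_diagonal]
    by_cases h : j ∈ I
    · rw [if_pos h, mul_zero]
      rfl
    · rw [if_neg h, mul_one]
      exact dif_neg fun h' => h h'.2
  rw [h1, Matrix.det_one_add_mul_comm, h2, add_zero, Matrix.det_one]

/-- `[[1, 0], [C, 1]]` as an element of `SL_n(F)`. -/
def lowS (I : Finset (Fin n)) (C : {i // i ∉ I} → {j // j ∈ I} → F) :
    SpecialLinearGroup (Fin n) F := ⟨1 + lowC I C, lowC_det I C⟩

theorem lowS_mulVec (I : Finset (Fin n)) (C : {i // i ∉ I} → {j // j ∈ I} → F)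
    (x : Fin n → F) (i : Fin n) (hi : i ∈ I) :
    ((lowS I C : SpecialLinearGroup (Fin n) F) : Matrix (Fin n) (Fin n) F).mulVec x i = x i := by
  change (1 + lowC I C).mulVec x i = _
  rw [Matrix.add_mulVec, Matrix.one_mulVec, Pi.add_apply, add_eq_left]
  change ∑ j, lowC I C i j * x j = 0
  refine Finset.sum_eq_zero fun j _ => ?_
  have : lowC I C i j = 0 := dif_neg fun h' => h'.1 hi
  rw [this, zero_mul]

theorem lowS_single (I : Finset (Fin n)) (C : {i // i ∉ I} → {j // j ∈ I} → F)
    (i j : Fin n) (hi : i ∉ I) (hj : j ∈ I) :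
    ((lowS I C : SpecialLinearGroup (Fin n) F) : Matrix (Fin n) (Fin n) F).mulVec
      (Pi.single j 1) i = C ⟨i, hi⟩ ⟨j, hj⟩ := by
  change (1 + lowC I C).mulVec (Pi.single j 1) i = _
  rw [Matrix.mulVec_single_one]
  change (1 + lowC I C) i j = _
  have hij : i ≠ j := fun h => hi (h ▸ hj)
  rw [Matrix.add_apply, Matrix.one_apply_ne hij, zero_add]
  exact dif_pos ⟨hi, hj⟩

/-- A subspace of dimension `d` has at least `q^(d (n-d))` images: the matrices `[[1, 0], [C, 1]]`. -/
theorem index_stW_ge [Finite F] (W : Submodule F (Fin n → F)) :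
    Nat.card F ^ (finrank F W * (n - finrank F W)) ≤ (stW W).index := by
  classical
  have hle : finrank F W ≤ n := by
    have := Submodule.finrank_le W
    rwa [finrank_fin_fun] at this
  obtain ⟨I, -, hI⟩ := Finset.exists_subset_card_eq (s := (Finset.univ : Finset (Fin n)))
    (n := finrank F W) (by rwa [Finset.card_univ, Fintype.card_fin])
  obtain ⟨g, hg⟩ := sl_coord W I hI.symm
  have hinj : Function.Injective (fun C : {i // i ∉ I} → {j // j ∈ I} → F =>
      ((g * lowS I C * g⁻¹ : SpecialLinearGroup (Fin n) F) :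
        SpecialLinearGroup (Fin n) F ⧸ stW W)) := by
    intro C C' h
    have h1 : (g * lowS I C * g⁻¹)⁻¹ * (g * lowS I C' * g⁻¹) ∈ stW W := QuotientGroup.eq.1 h
    funext i j
    obtain ⟨i, hi⟩ := i
    obtain ⟨j, hj⟩ := j
    have h2 : (g : Matrix (Fin n) (Fin n) F).mulVec (Pi.single j 1) ∈ W := by
      rw [hg]
      intro k hk
      have hkj : k ≠ j := fun h => hk (h.symm ▸ hj)
      exact Pi.single_eq_of_ne hkj _
    have h3 := h1 _ h2
    rw [Matrix.mulVec_mulVec, ← Matrix.SpecialLinearGroup.coe_mul] at h3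
    have e : (g * lowS I C * g⁻¹)⁻¹ * (g * lowS I C' * g⁻¹) * g =
        g * ((lowS I C)⁻¹ * lowS I C') := by group
    rw [e, Matrix.SpecialLinearGroup.coe_mul, ← Matrix.mulVec_mulVec, hg] at h3
    set x := ((((lowS I C)⁻¹ * lowS I C' : SpecialLinearGroup (Fin n) F)) :
      Matrix (Fin n) (Fin n) F).mulVec (Pi.single j 1) with hx
    have h4 : ((lowS I C : SpecialLinearGroup (Fin n) F) : Matrix (Fin n) (Fin n) F).mulVec x =
        ((lowS I C' : SpecialLinearGroup (Fin n) F) : Matrix (Fin n) (Fin n) F).mulVec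
          (Pi.single j 1) := by
      rw [hx, Matrix.mulVec_mulVec, ← Matrix.SpecialLinearGroup.coe_mul, mul_inv_cancel_left]
    have h5 : x = Pi.single j 1 := by
      funext k
      by_cases hk : k ∈ I
      · have h6 := congrFun h4 k
        rwa [lowS_mulVec _ _ _ _ hk, lowS_mulVec _ _ _ _ hk] at h6
      · have hkj : k ≠ j := fun h => hk (h.symm ▸ hj)
        rw [h3 k hk, Pi.single_eq_of_ne hkj]
    have h7 := congrFun h4 i
    rwa [h5, lowS_single _ _ _ _ hi hj, lowS_single _ _ _ _ hi hj] at h7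
  have hc := Nat.card_le_card_of_injective _ hinj
  rw [Nat.card_fun, Nat.card_fun, ← pow_mul] at hc
  have e1 : Nat.card {j // j ∈ I} = finrank F W := by
    rw [Nat.card_eq_fintype_card, Fintype.card_coe, hI]
  have e2 : Nat.card {i // i ∉ I} = n - finrank F W := by
    rw [Nat.card_eq_fintype_card, Fintype.card_subtype_compl, Fintype.card_coe, hI,
      Fintype.card_fin]
  rw [e1, e2] at hc
  exact hc

/-- Paragraph 1, AUTP. The preimage `K` of the image of `stW W` contains a conjugate of the Borel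
subgroup (`autB`), has index `(q^n - 1)/(q - 1)`, so it is reducible (`l4`), fixes some `W'`;
`index_stW_ge` leaves the dimensions `1` and `n - 1`, and equality of the indices gives
equality. -/
theorem autP [Finite F] (hn : 3 ≤ n)
    (β : ProjectiveSpecialLinearGroup (Fin n) F ≃* ProjectiveSpecialLinearGroup (Fin n) F)
    (W : Submodule F (Fin n → F)) (hW : finrank F W = 1 ∨ finrank F W + 1 = n) :
    ∃ W' : Submodule F (Fin n → F), (finrank F W' = 1 ∨ finrank F W' + 1 = n) ∧
      ∀ s : SpecialLinearGroup (Fin n) F,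
        β (toP n F s) ∈ (stW W).map (toP n F) ↔ s ∈ stW W' := by
  classical
  have hq : 1 < Nat.card F := Finite.one_lt_card
  have hle : finrank F W ≤ n := by
    have := Submodule.finrank_le W
    rwa [finrank_fin_fun] at this
  -- the group K
  obtain ⟨K, hK⟩ : ∃ K : Subgroup (SpecialLinearGroup (Fin n) F),
      K = ((stW W).map (toP n F)).comap (β.toMonoidHom.comp (toP n F)) := ⟨_, rfl⟩
  have hmemK : ∀ s, s ∈ K ↔ β (toP n F s) ∈ (stW W).map (toP n F) := by
    intro s
    rw [hK]
    rfl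
  have hsurj : Function.Surjective (toP n F) := QuotientGroup.mk'_surjective _
  have hidx : K.index * (Nat.card F - 1) = Nat.card F ^ n - 1 := by
    rw [hK, Subgroup.index_comap_of_surjective, Subgroup.index_map_eq _ hsurj,
      index_stW (by omega) W hW]
    · intro z hz
      have h1 := (mem_stW_map W z).1
      apply h1
      rw [MonoidHom.mem_ker.1 hz]
      exact Subgroup.one_mem _
    · exact β.surjective.comp hsurj
  -- W contains a flag
  obtain ⟨I, hI, hIcard⟩ : ∃ I : Finset (Fin n), (∀ i j : Fin n, i < j → j ∈ I → i ∈ I) ∧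
      I.card = finrank F W := by
    refine ⟨Finset.univ.filter fun i : Fin n => (i : ℕ) < finrank F W, ?_, ?_⟩
    · intro i j hij hj
      rw [Finset.mem_filter] at hj ⊢
      exact ⟨Finset.mem_univ _, lt_trans hij hj.2⟩
    · rw [Fin.card_filter_val_lt, min_eq_right hle]
  obtain ⟨g, hg⟩ := sl_coord W I hIcard.symm
  have hborel : ∀ b : SpecialLinearGroup (Fin n) F, UT (b : Matrix (Fin n) (Fin n) F) →
      g * b * g⁻¹ ∈ stW W := by
    intro b hb w hw
    have h1 : (g : Matrix (Fin n) (Fin n) F).mulVec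
        (((g⁻¹ : SpecialLinearGroup (Fin n) F) : Matrix (Fin n) (Fin n) F).mulVec w) = w := by
      rw [Matrix.mulVec_mulVec, ← Matrix.SpecialLinearGroup.coe_mul, mul_inv_cancel,
        Matrix.SpecialLinearGroup.coe_one, Matrix.one_mulVec]
    have h2 : ∀ i, i ∉ I →
        ((g⁻¹ : SpecialLinearGroup (Fin n) F) : Matrix (Fin n) (Fin n) F).mulVec w i = 0 := by
      rw [← hg, h1]
      exact hw
    rw [Matrix.SpecialLinearGroup.coe_mul, Matrix.SpecialLinearGroup.coe_mul,
      ← Matrix.mulVec_mulVec, ← Matrix.mulVec_mulVec, hg]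
    intro i hi
    change ∑ j, (b : Matrix (Fin n) (Fin n) F) i j *
      ((g⁻¹ : SpecialLinearGroup (Fin n) F) : Matrix (Fin n) (Fin n) F).mulVec w j = 0
    refine Finset.sum_eq_zero fun j _ => ?_
    by_cases hj : j < i
    · rw [hb i j hj, zero_mul]
    · rw [h2 j, mul_zero]
      intro hjI
      rcases eq_or_lt_of_le (not_lt.1 hj) with h | h
      · exact hi (h ▸ hjI)
      · exact hi (hI i j h hjI)
  -- K contains a conjugate of the Borel subgroup
  obtain ⟨m, hm⟩ := autB (β.trans (MulAut.conj (toP n F g)⁻¹))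
  have hmK : ∀ s : SpecialLinearGroup (Fin n) F,
      UT ((m⁻¹ * s * m : SpecialLinearGroup (Fin n) F) : Matrix (Fin n) (Fin n) F) → s ∈ K := by
    intro s hs
    obtain ⟨b, hb, hbs⟩ := (hm s).2 hs
    rw [hmemK]
    refine ⟨g * b * g⁻¹, hborel b hb, ?_⟩
    rw [map_mul, map_mul, map_inv, hbs]
    change toP n F g * ((toP n F g)⁻¹ * β (toP n F s) * ((toP n F g)⁻¹)⁻¹) * (toP n F g)⁻¹ = _
    group
  -- K is reducible
  have hKtop : K ≠ ⊤ := by
    intro h
    rw [h, Subgroup.index_top, one_mul] at hidx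
    have h1 : Nat.card F ^ 1 < Nat.card F ^ n := Nat.pow_lt_pow_right hq (by omega)
    rw [pow_one] at h1
    omega
  have hn0 : 0 < n := by omega
  have hE : ∀ φ : Fin n → F,
      φ ⬝ᵥ ((m : Matrix (Fin n) (Fin n) F).mulVec (Pi.single ⟨0, hn0⟩ 1)) = 0 →
      inS K (tv ((m : Matrix (Fin n) (Fin n) F).mulVec (Pi.single ⟨0, hn0⟩ 1)) φ) := by
    intro φ hφ
    refine ⟨tvS _ φ hφ, hmK _ ?_, rfl⟩
    have e : ((m⁻¹ * tvS ((m : Matrix (Fin n) (Fin n) F).mulVec (Pi.single ⟨0, hn0⟩ 1)) φ hφ * m :
        SpecialLinearGroup (Fin n) F) : Matrix (Fin n) (Fin n) F) =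
        tv (Pi.single ⟨0, hn0⟩ 1) (Matrix.vecMul φ (m : Matrix (Fin n) (Fin n) F)) := by
      rw [Matrix.SpecialLinearGroup.coe_mul, Matrix.SpecialLinearGroup.coe_mul]
      change ((m⁻¹ : SpecialLinearGroup (Fin n) F) : Matrix (Fin n) (Fin n) F) *
        tv _ φ * (m : Matrix (Fin n) (Fin n) F) = _
      rw [conj_tv, Matrix.mulVec_mulVec, ← Matrix.SpecialLinearGroup.coe_mul, inv_mul_cancel,
        Matrix.SpecialLinearGroup.coe_one, Matrix.one_mulVec]
      rw [← Matrix.SpecialLinearGroup.coe_mul, inv_mul_cancel, Matrix.SpecialLinearGroup.coe_one]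
    rw [e]
    intro i j hij
    have hi : i ≠ ⟨0, hn0⟩ := by
      rintro rfl
      exact absurd hij (Nat.not_lt_zero _)
    rw [tv, Matrix.add_apply, Matrix.vecMulVec_apply, Matrix.one_apply_ne hij.ne',
      Pi.single_eq_of_ne hi, zero_mul, zero_add]
  have hv₀ : (m : Matrix (Fin n) (Fin n) F).mulVec (Pi.single ⟨0, hn0⟩ 1) ≠ 0 := by
    intro h
    have h1 := congrArg ((m⁻¹ : SpecialLinearGroup (Fin n) F) :
      Matrix (Fin n) (Fin n) F).mulVec h
    rw [Matrix.mulVec_mulVec, ← Matrix.SpecialLinearGroup.coe_mul, inv_mul_cancel,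
      Matrix.SpecialLinearGroup.coe_one, Matrix.one_mulVec, Matrix.mulVec_zero] at h1
    have h2 := congrFun h1 ⟨0, hn0⟩
    rw [Pi.single_eq_same] at h2
    exact one_ne_zero h2
  obtain ⟨W', hinv, hbot, htop⟩ : ∃ W' : Submodule F (Fin n → F),
      (∀ k ∈ K, ∀ w ∈ W', (k : Matrix (Fin n) (Fin n) F).mulVec w ∈ W') ∧ W' ≠ ⊥ ∧ W' ≠ ⊤ := by
    by_contra hcon
    push Not at hcon
    refine hKtop (l4 K _ hv₀ hE fun W' h => ?_)
    by_cases h1 : W' = ⊥
    · exact Or.inl h1
    · exact Or.inr (hcon W' h h1)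
  have hKW : K ≤ stW W' := fun k hk => hinv k hk
  -- dimensions
  have hpos : 0 < finrank F W' := Submodule.one_le_finrank_iff.2 hbot
  have hlt : finrank F W' < n := by
    have := Submodule.finrank_lt htop
    rwa [finrank_fin_fun] at this
  have hmul : K.relIndex (stW W') * (stW W').index = K.index := Subgroup.relIndex_mul_index hKW
  have hKpos : 0 < K.index := Nat.pos_of_ne_zero Subgroup.FiniteIndex.index_ne_zero
  have hdvd : (stW W').index ≤ K.index := Nat.le_of_dvd hKpos ⟨_, by rw [mul_comm]; exact hmul.symm⟩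
  have hge := index_stW_ge W'
  have hdim : finrank F W' = 1 ∨ finrank F W' + 1 = n := by
    by_contra hcon
    push Not at hcon
    obtain ⟨h1, h2⟩ := hcon
    have h3 : n ≤ finrank F W' * (n - finrank F W') := by
      obtain ⟨a, ha⟩ := Nat.exists_eq_add_of_lt hlt
      obtain ⟨b, hb⟩ : ∃ b, finrank F W' = b + 2 := ⟨finrank F W' - 2, by omega⟩
      obtain ⟨c, hc⟩ : ∃ c, n - finrank F W' = c + 2 := ⟨n - finrank F W' - 2, by omega⟩
      rw [hc, hb]
      have : n = b + c + 4 := by omega
      rw [this]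
      nlinarith [Nat.zero_le (b * c)]
    have h4 : Nat.card F ^ n ≤ K.index :=
      le_trans (Nat.pow_le_pow_right (by omega) h3) (le_trans hge hdvd)
    have h5 : K.index * 1 ≤ K.index * (Nat.card F - 1) := Nat.mul_le_mul_left _ (by omega)
    have h6 : 0 < Nat.card F ^ n := Nat.pow_pos (by omega)
    omega
  refine ⟨W', hdim, fun s => ?_⟩
  rw [← hmemK]
  have hrel : K.relIndex (stW W') = 1 := by
    have h1 := index_stW (by omega) W' hdim
    have h2 : (stW W').index = K.index := by
      rw [← hidx] at h1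
      exact Nat.eq_of_mul_eq_mul_right (by omega) h1
    rw [h2] at hmul
    exact Nat.eq_of_mul_eq_mul_right hKpos (by rw [hmul, one_mul])
  have hWK : stW W' ≤ K := Subgroup.relIndex_eq_one.1 hrel
  exact ⟨fun h => hKW h, fun h => hWK h⟩

end Lin43
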