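import Pool.Agent.Lib.MP_43150e_al.Lin.Tri

/-! # Block matrices `[[a, w], [0, D]]` and the matrices `1 + v ⊗ φ` -/

set_option autoImplicit false

namespace Lin43

open Matrix

section
variable {m : ℕ} {F : Type*} [Field F]

theorem blk_zz (a : F) (w : Fin m → F) (D : Matrix (Fin m) (Fin m) F) : blk a w D 0 0 = a := rfl

theorem blk_zs (a : F) (w : Fin m → F) (D : Matrix (Fin m) (Fin m) F) (j : Fin m) :
    blk a w D 0 j.succ = w j := rfl

theorem blk_sz (a : F) (w : Fin m → F) (D : Matrix (Fin m) (Fin m) F) (i : Fin m) :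
    blk a w D i.succ 0 = 0 := rfl

theorem blk_ss (a : F) (w : Fin m → F) (D : Matrix (Fin m) (Fin m) F) (i j : Fin m) :
    blk a w D i.succ j.succ = D i j := rfl

theorem blk_mul (a a' : F) (w w' : Fin m → F) (D D' : Matrix (Fin m) (Fin m) F) :
    blk a w D * blk a' w' D' = blk (a * a') (a • w' + Matrix.vecMul w D') (D * D') := by
  ext i j
  rw [Matrix.mul_apply, Fin.sum_univ_succ]
  refine Fin.cases ?_ (fun i => ?_) i <;> refine Fin.cases ?_ (fun j => ?_) j
  · simp only [blk_zz, blk_zs, blk_sz, mul_zero, Finset.sum_const_zero, add_zero]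
  · simp only [blk_zz, blk_zs, blk_ss]
    rfl
  · simp only [blk_zz, blk_sz, mul_zero, zero_mul, Finset.sum_const_zero, add_zero]
  · simp only [blk_sz, blk_ss, zero_mul, zero_add]
    rfl

theorem blk_one : blk (1 : F) (0 : Fin m → F) 1 = 1 := by
  ext i j
  refine Fin.cases ?_ (fun i => ?_) i <;> refine Fin.cases ?_ (fun j => ?_) j
  · rw [blk_zz, Matrix.one_apply_eq]
  · rw [blk_zs, Matrix.one_apply_ne (Fin.succ_ne_zero j).symm, Pi.zero_apply]
  · rw [blk_sz, Matrix.one_apply_ne (Fin.succ_ne_zero i)]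
  · rw [blk_ss, Matrix.one_apply, Matrix.one_apply]
    simp only [Fin.succ_inj]

theorem blk_inj {a a' : F} {w w' : Fin m → F} {D D' : Matrix (Fin m) (Fin m) F}
    (h : blk a w D = blk a' w' D') : a = a' ∧ w = w' ∧ D = D' := by
  refine ⟨?_, ?_, ?_⟩
  · exact congrFun (congrFun h 0) 0
  · funext j
    exact congrFun (congrFun h 0) j.succ
  · ext i j
    exact congrFun (congrFun h i.succ) j.succ

theorem blk_det (a : F) (w : Fin m → F) (D : Matrix (Fin m) (Fin m) F) :
    (blk a w D).det = a * D.det := by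
  rw [Matrix.det_succ_column_zero, Fin.sum_univ_succ]
  have h1 : ∀ i : Fin m, (-1 : F) ^ ((i.succ : Fin (m + 1)) : ℕ) * blk a w D i.succ 0 *
      det ((blk a w D).submatrix (i.succ).succAbove Fin.succ) = 0 := by
    intro i
    rw [blk_sz, mul_zero, zero_mul]
  rw [Finset.sum_eq_zero fun i _ => h1 i, add_zero, blk_zz, Fin.val_zero, pow_zero, one_mul]
  rfl

/-- A matrix with first column `(a, 0, .., 0)` is a block matrix. -/
theorem exists_blk (M : Matrix (Fin (m + 1)) (Fin (m + 1)) F) (h : ∀ i, i ≠ 0 → M i 0 = 0) :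
    ∃ (w : Fin m → F) (D : Matrix (Fin m) (Fin m) F), M = blk (M 0 0) w D := by
  refine ⟨fun j => M 0 j.succ, Matrix.of fun i j => M i.succ j.succ, ?_⟩
  ext i j
  refine Fin.cases ?_ (fun i => ?_) i <;> refine Fin.cases ?_ (fun j => ?_) j
  · rfl
  · rfl
  · rw [blk_sz, h _ (Fin.succ_ne_zero i)]
  · rfl

theorem blk_UT (a : F) (w : Fin m → F) (D : Matrix (Fin m) (Fin m) F) :
    UT (blk a w D) ↔ UT D := by
  constructor
  · intro h i j hij
    have h1 := h i.succ j.succ (Fin.succ_lt_succ_iff.2 hij)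
    rwa [blk_ss] at h1
  · intro h i
    refine Fin.cases ?_ (fun i => ?_) i
    · intro j hj
      exact absurd hj (Fin.not_lt_zero j)
    · intro j
      refine Fin.cases ?_ (fun j => ?_) j
      · intro _
        exact blk_sz a w D i
      · intro hij
        rw [blk_ss]
        exact h i j (Fin.succ_lt_succ_iff.1 hij)

theorem blk_mulVec (a : F) (w : Fin m → F) (D : Matrix (Fin m) (Fin m) F) (c : F)
    (v : Fin m → F) :
    (blk a w D).mulVec (Fin.cons c v : Fin (m + 1) → F) =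
      (Fin.cons (a * c + w ⬝ᵥ v) (D.mulVec v) : Fin (m + 1) → F) := by
  funext i
  have h1 : ∀ i : Fin (m + 1), (blk a w D).mulVec (Fin.cons c v : Fin (m + 1) → F) i =
      blk a w D i 0 * c + ∑ j : Fin m, blk a w D i j.succ * v j := by
    intro i
    rw [Matrix.mulVec, dotProduct, Fin.sum_univ_succ]
    rfl
  rw [h1]
  refine Fin.cases ?_ (fun i => ?_) i
  · rw [Fin.cons_zero]
    rfl
  · rw [Fin.cons_succ, blk_sz, zero_mul, zero_add]
    rfl

/-- `blk 1 w 1` is `1 + e_0 ⊗ (0, w)`. -/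
theorem blk_one_eq_tv (w : Fin m → F) :
    blk 1 w 1 = tv (Pi.single 0 1) (Fin.cons 0 w : Fin (m + 1) → F) := by
  ext i j
  rw [tv, Matrix.add_apply, Matrix.vecMulVec_apply]
  refine Fin.cases ?_ (fun i => ?_) i <;> refine Fin.cases ?_ (fun j => ?_) j
  · rw [blk_zz, Matrix.one_apply_eq, Fin.cons_zero, mul_zero, add_zero]
  · rw [blk_zs, Matrix.one_apply_ne (Fin.succ_ne_zero j).symm, Fin.cons_succ, Pi.single_eq_same,
      one_mul, zero_add]
  · rw [blk_sz, Matrix.one_apply_ne (Fin.succ_ne_zero i), Fin.cons_zero, mul_zero, add_zero]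
  · rw [blk_ss, Pi.single_eq_of_ne (Fin.succ_ne_zero i), zero_mul, add_zero, Matrix.one_apply,
      Matrix.one_apply]
    simp only [Fin.succ_inj]

end

section
variable {n : ℕ} {F : Type*} [Field F]

theorem det_tv (v φ : Fin n → F) (h : φ ⬝ᵥ v = 0) : (tv v φ).det = 1 := by
  rw [tv, Matrix.vecMulVec_eq Unit, Matrix.det_one_add_replicateCol_mul_replicateRow, h, add_zero]

/-- `1 + v ⊗ φ` as an element of `SL_n`. -/
def tvS (v φ : Fin n → F) (h : φ ⬝ᵥ v = 0) : SpecialLinearGroup (Fin n) F :=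
  ⟨tv v φ, det_tv v φ h⟩

theorem tv_mul_tv (v v' φ : Fin n → F) (h : φ ⬝ᵥ v' = 0) :
    tv v φ * tv v' φ = tv (v + v') φ := by
  rw [tv, tv, tv, Matrix.add_mul, Matrix.mul_add, Matrix.mul_add, Matrix.vecMulVec_mul_vecMulVec,
    h, zero_smul, Matrix.vecMulVec_zero, add_zero, Matrix.one_mul, Matrix.one_mul, Matrix.mul_one,
    Matrix.add_vecMulVec]
  abel

theorem tv_mul_tv' (v φ φ' : Fin n → F) (h : φ ⬝ᵥ v = 0) :
    tv v φ * tv v φ' = tv v (φ + φ') := by
  rw [tv, tv, tv, Matrix.add_mul, Matrix.mul_add, Matrix.mul_add, Matrix.vecMulVec_mul_vecMulVec,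
    h, zero_smul, Matrix.vecMulVec_zero, add_zero, Matrix.one_mul, Matrix.one_mul, Matrix.mul_one,
    Matrix.vecMulVec_add]
  abel

theorem tv_pow (v φ : Fin n → F) (h : φ ⬝ᵥ v = 0) (k : ℕ) :
    (tv v φ) ^ k = tv ((k : F) • v) φ := by
  induction k with
  | zero => rw [pow_zero, Nat.cast_zero, zero_smul, tv, Matrix.zero_vecMulVec, add_zero]
  | succ k ih =>
    rw [pow_succ, ih, tv_mul_tv _ _ _ h, Nat.cast_succ, add_smul, one_smul]

/-- Conjugation: `g (1 + v ⊗ φ) g⁻¹ = 1 + g v ⊗ φ g⁻¹`. -/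
theorem conj_tv (g g' : Matrix (Fin n) (Fin n) F) (h : g * g' = 1) (v φ : Fin n → F) :
    g * tv v φ * g' = tv (g.mulVec v) (Matrix.vecMul φ g') := by
  rw [tv, tv, Matrix.mul_add, Matrix.add_mul, Matrix.mul_one, h, Matrix.mul_vecMulVec,
    Matrix.vecMulVec_mul]

theorem tv_smul (c : F) (v φ : Fin n → F) : tv (c • v) φ = tv v (c • φ) := by
  rw [tv, tv, Matrix.smul_vecMulVec, Matrix.vecMulVec_smul]

theorem tv_mulVec (v φ w : Fin n → F) : (tv v φ).mulVec w = w + (φ ⬝ᵥ w) • v := by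
  rw [tv, Matrix.add_mulVec, Matrix.one_mulVec, Matrix.vecMulVec_mulVec, op_smul_eq_smul]

/-- Elementary matrices. -/
theorem tv_single (i j : Fin n) (c : F) :
    tv (Pi.single i 1) (Pi.single j c) = 1 + Matrix.single i j c := by
  rw [tv]
  congr 1
  ext k l
  rw [Matrix.vecMulVec_apply, Matrix.single_apply, Pi.single_apply, Pi.single_apply]
  by_cases hk : k = i
  · by_cases hl : l = j
    · rw [if_pos hk, if_pos hl, if_pos ⟨hk.symm, hl.symm⟩, one_mul]
    · have h1 : ¬ (i = k ∧ j = l) := fun h => hl h.2.symm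
      rw [if_pos hk, if_neg hl, if_neg h1, one_mul]
  · have h1 : ¬ (i = k ∧ j = l) := fun h => hk h.1.symm
    rw [if_neg hk, if_neg h1, zero_mul]

theorem tv_ne_one {v φ : Fin n → F} (hv : v ≠ 0) (hφ : φ ≠ 0) : tv v φ ≠ 1 := by
  intro h
  rw [tv] at h
  exact Matrix.vecMulVec_ne_zero hv hφ (add_eq_left.1 h)

end

end Lin43
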