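import Mathlib

/-! # The block argument -/

set_option autoImplicit false

namespace Lin43

open MulAction

/-- `Γ` primitive, `j(Q)` normal in `Γ` and transitive, `P ≤ Q` contains the stabiliser of `x` in `Q` and
is invariant under the automorphisms given by `Γ_x`. Then `P` fixes `x` or `P = Q`: the set
`{g | g x ∈ j(P) x}` is a subgroup containing the maximal subgroup `Γ_x`. -/
theorem block_lemma {Γ Ω Q : Type*} [Group Γ] [MulAction Γ Ω] [Group Q]
    (hprim : IsPreprimitive Γ Ω) (j : Q →* Γ)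
    (hj : ∀ g : Γ, ∃ β : Q ≃* Q, ∀ m, j (β m) = g * j m * g⁻¹)
    (htr : ∀ x y : Ω, ∃ m : Q, j m • x = y) (x : Ω) (P : Subgroup Q)
    (hK : ∀ t : Q, j t • x = x → t ∈ P)
    (hinv : ∀ g : Γ, g • x = x → ∀ β : Q ≃* Q, (∀ m, j (β m) = g * j m * g⁻¹) →
      ∀ t ∈ P, β t ∈ P) :
    (∀ t ∈ P, j t • x = x) ∨ P = ⊤ := by
  rcases subsingleton_or_nontrivial Ω with hs | hn
  · exact Or.inl fun t _ => Subsingleton.elim _ _
  -- `H = {g | g x ∈ j(P) x}`
  let H : Subgroup Γ :=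
    { carrier := {g | ∃ t ∈ P, g • x = j t • x}
      one_mem' := ⟨1, P.one_mem, by rw [map_one]⟩
      mul_mem' := by
        rintro a b ⟨t, ht, ha⟩ ⟨s, hs, hb⟩
        have hu : ((j t)⁻¹ * a) • x = x := by
          rw [mul_smul, ha, inv_smul_smul]
        obtain ⟨β, hβ⟩ := hj ((j t)⁻¹ * a)
        refine ⟨t * β s, P.mul_mem ht (hinv _ hu β hβ s hs), ?_⟩
        have e : j (t * β s) = a * j s * ((j t)⁻¹ * a)⁻¹ := by
          rw [map_mul, hβ s]
          group
        rw [e, mul_smul (a * j s), inv_smul_eq_iff.mpr hu.symm, mul_smul, mul_smul, hb]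
      inv_mem' := by
        rintro a ⟨t, ht, ha⟩
        have hu : ((j t)⁻¹ * a) • x = x := by
          rw [mul_smul, ha, inv_smul_smul]
        have hu' : ((j t)⁻¹ * a)⁻¹ • x = x := inv_smul_eq_iff.mpr hu.symm
        obtain ⟨β, hβ⟩ := hj ((j t)⁻¹ * a)⁻¹
        refine ⟨β t⁻¹, hinv _ hu' β hβ t⁻¹ (P.inv_mem ht), ?_⟩
        have e : j (β t⁻¹) = a⁻¹ * ((j t)⁻¹ * a) := by
          rw [hβ t⁻¹, map_inv]
          group
        rw [e, mul_smul a⁻¹, hu] }
  have hH : ∀ g : Γ, g ∈ H ↔ ∃ t ∈ P, g • x = j t • x := fun g => Iff.rfl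
  have hle : stabilizer Γ x ≤ H := fun g hg =>
    (hH g).2 ⟨1, P.one_mem, by rw [map_one, one_smul]; exact hg⟩
  have hco : IsCoatom (stabilizer Γ x) := IsPreprimitive.isCoatom_stabilizer_of_isPreprimitive Γ x
  rcases hco.le_iff.mp hle with h | h
  · refine Or.inr (eq_top_iff.mpr fun m _ => ?_)
    obtain ⟨t, ht, he⟩ := (hH (j m)).1 (h ▸ Subgroup.mem_top _)
    have h1 : j (t⁻¹ * m) • x = x := by
      rw [map_mul, mul_smul, he, map_inv, inv_smul_smul]
    have h2 := P.mul_mem ht (hK _ h1)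
    rwa [mul_inv_cancel_left] at h2
  · refine Or.inl fun t ht => ?_
    have h1 : j t ∈ H := (hH _).2 ⟨t, ht, rfl⟩
    rw [h] at h1
    exact h1

end Lin43
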