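import Pool.Agent.Lib.MP_43150e_al.Lin.Tri

/-! # Two flags have a common adapted basis

For `m ∈ SL_n` and a diagonal `t` with product one there is `b ∈ B` with diagonal `t` and
`m⁻¹ b m ∈ B`. Proof: for each `i` let `k(i)` be minimal such that some `v_i` in `E_(i+1)` with
`i`-th coordinate one has `N v_i` supported on the rows below `k(i)`, where `N = m⁻¹`. Then
`i ↦ k(i)` is injective, so the basis `v` is adapted to both flags; `b v_i = t_i v_i`. -/

set_option autoImplicit false

namespace Lin43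

open Matrix

variable {n : ℕ} {F : Type*} [Field F]

/-- `v` lies in `E_(i+1)`, has coordinate one at `i`, and `N v` is supported on the rows
below `k`. -/
def LastB (N : Matrix (Fin n) (Fin n) F) (i : Fin n) (k : ℕ) (v : Fin n → F) : Prop :=
  (∀ j, i < j → v j = 0) ∧ v i = 1 ∧ ∀ j : Fin n, k ≤ (j : ℕ) → (N *ᵥ v) j = 0

theorem lastB_top (N : Matrix (Fin n) (Fin n) F) (i : Fin n) :
    LastB N i n (Pi.single i 1) := by
  refine ⟨?_, ?_, ?_⟩
  · intro j hj
    exact Pi.single_eq_of_ne hj.ne' _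
  · exact Pi.single_eq_same _ _
  · intro j hj
    exact absurd j.2 (not_lt.2 hj)

/-- A basis adapted to the standard flag and to its image under `N⁻¹`. -/
theorem adapted (N : Matrix (Fin n) (Fin n) F) (hN : IsUnit N.det) :
    ∃ (V : Matrix (Fin n) (Fin n) F) (e : Equiv.Perm (Fin n)), UU V ∧
      UT ((N * V).submatrix id e) := by
  classical
  have hex : ∀ i, ∃ k, ∃ v, LastB N i k v := fun i => ⟨n, Pi.single i 1, lastB_top N i⟩
  obtain ⟨kk, hk, hmin⟩ : ∃ kk : Fin n → ℕ, (∀ i, ∃ v, LastB N i (kk i) v) ∧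
      ∀ i k v, LastB N i k v → kk i ≤ k :=
    ⟨fun i => Nat.find (hex i), fun i => Nat.find_spec (hex i),
      fun i k v h => Nat.find_min' (hex i) ⟨v, h⟩⟩
  choose v hv using hk
  have hle : ∀ i, kk i ≤ n := fun i => hmin i n _ (lastB_top N i)
  have hpos : ∀ i, 0 < kk i := by
    intro i
    rcases Nat.eq_zero_or_pos (kk i) with h | h
    · exfalso
      have h1 : N *ᵥ v i = 0 := by
        funext j
        exact (hv i).2.2 j (by rw [h]; exact Nat.zero_le _)
      have h2 : v i = 0 := Matrix.eq_zero_of_mulVec_eq_zero hN.ne_zero h1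
      have h3 := (hv i).2.1
      rw [h2] at h3
      exact zero_ne_one h3
    · exact h
  have hrow : ∀ i (j : Fin n), (j : ℕ) = kk i - 1 → (N *ᵥ v i) j ≠ 0 := by
    intro i j hj h0
    have h1 : LastB N i (kk i - 1) (v i) := by
      refine ⟨(hv i).1, (hv i).2.1, fun l hl => ?_⟩
      by_cases h : kk i ≤ (l : ℕ)
      · exact (hv i).2.2 l h
      · have h2 : l = j := by
          apply Fin.ext
          omega
        rw [h2]
        exact h0
    have h2 := hmin i _ _ h1
    have h3 := hpos i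
    omega
  have hlt : ∀ i, kk i - 1 < n := by
    intro i
    have h1 := hpos i
    have h2 := hle i
    omega
  have hne : ∀ i i' : Fin n, i < i' → kk i ≠ kk i' := by
    intro i i' hii h
    have hj := hrow i ⟨kk i' - 1, hlt i'⟩ (by rw [h])
    obtain ⟨j, hjd⟩ : ∃ j : Fin n, j = ⟨kk i' - 1, hlt i'⟩ := ⟨_, rfl⟩
    rw [← hjd] at hj
    have hjv : (j : ℕ) = kk i' - 1 := by rw [hjd]
    have h1 : LastB N i' (kk i' - 1) (v i' - ((N *ᵥ v i') j / (N *ᵥ v i) j) • v i) := by
      refine ⟨fun l hl => ?_, ?_, fun l hl => ?_⟩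
      · rw [Pi.sub_apply, Pi.smul_apply, (hv i').1 l hl, (hv i).1 l (hii.trans hl), smul_zero,
          sub_zero]
      · rw [Pi.sub_apply, Pi.smul_apply, (hv i').2.1, (hv i).1 i' hii, smul_zero, sub_zero]
      · rw [Matrix.mulVec_sub, Matrix.mulVec_smul, Pi.sub_apply, Pi.smul_apply, smul_eq_mul]
        by_cases h2 : kk i' ≤ (l : ℕ)
        · rw [(hv i').2.2 l h2, (hv i).2.2 l (by rw [h]; exact h2), mul_zero, sub_zero]
        · have h3 : l = j := by
            apply Fin.ext
            omega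
          rw [h3, div_mul_cancel₀ _ hj, sub_self]
    have h2 := hmin i' _ _ h1
    have h3 := hpos i'
    omega
  have hpinj : Function.Injective (fun i => (⟨kk i - 1, hlt i⟩ : Fin n)) := by
    intro i i' h
    have h1 : kk i - 1 = kk i' - 1 := congrArg Fin.val h
    have h2 := hpos i
    have h3 := hpos i'
    have h4 : kk i = kk i' := by omega
    rcases lt_trichotomy i i' with h5 | h5 | h5
    · exact absurd h4 (hne i i' h5)
    · exact h5
    · exact absurd h4.symm (hne i' i h5)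
  obtain ⟨p, hp⟩ : ∃ p : Equiv.Perm (Fin n), ∀ i, ((p i : Fin n) : ℕ) = kk i - 1 :=
    ⟨Equiv.ofBijective _ (Finite.injective_iff_bijective.1 hpinj), fun i => rfl⟩
  refine ⟨Matrix.of (fun i j => v j i), p.symm, ⟨fun i j h => (hv j).1 i h,
    fun i => (hv i).2.1⟩, ?_⟩
  intro i j h
  have h1 : ((N * Matrix.of (fun i j => v j i)).submatrix id p.symm) i j =
      (N *ᵥ v (p.symm j)) i := by
    rw [Matrix.submatrix_apply, Matrix.mul_apply]
    rfl
  rw [h1]
  apply (hv (p.symm j)).2.2 i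
  have h2 := hp (p.symm j)
  rw [Equiv.apply_symm_apply] at h2
  have h3 := hpos (p.symm j)
  have h4 : (j : ℕ) < (i : ℕ) := h
  omega

theorem br (m : SpecialLinearGroup (Fin n) F) (t : Fin n → F) (ht : ∏ i, t i = 1) :
    ∃ b : SpecialLinearGroup (Fin n) F, UT (b : Matrix (Fin n) (Fin n) F) ∧
      (∀ i, (b : Matrix (Fin n) (Fin n) F) i i = t i) ∧
      UT ((m⁻¹ * b * m : SpecialLinearGroup (Fin n) F) : Matrix (Fin n) (Fin n) F) := by
  classical
  obtain ⟨N, hNd⟩ : ∃ N : Matrix (Fin n) (Fin n) F,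
      N = ((m⁻¹ : SpecialLinearGroup (Fin n) F) : Matrix (Fin n) (Fin n) F) := ⟨_, rfl⟩
  have hNdet : N.det = 1 := by rw [hNd]; exact (m⁻¹).2
  have hNm : N * (m : Matrix (Fin n) (Fin n) F) = 1 := by
    rw [hNd, ← Matrix.SpecialLinearGroup.coe_mul, inv_mul_cancel, Matrix.SpecialLinearGroup.coe_one]
  obtain ⟨V, e, hV, hW⟩ := adapted N (by rw [hNdet]; exact isUnit_one)
  have hVdet : V.det = 1 := by
    rw [hV.1.det]
    exact Finset.prod_eq_one fun i _ => hV.2 i
  have hVu : IsUnit V.det := by rw [hVdet]; exact isUnit_one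
  have hVi : V * V⁻¹ = 1 := Matrix.mul_nonsing_inv V hVu
  have hVi' : V⁻¹ * V = 1 := Matrix.nonsing_inv_mul V hVu
  have hVI : UU V⁻¹ := hV.of_mul_eq_one hVi
  have hD : UT (Matrix.diagonal t) := fun i j h => Matrix.diagonal_apply_ne _ h.ne'
  have hbdet : (V * Matrix.diagonal t * V⁻¹).det = 1 := by
    rw [Matrix.det_mul, Matrix.det_mul, Matrix.det_diagonal, ht, mul_one, ← Matrix.det_mul, hVi,
      Matrix.det_one]
  refine ⟨⟨V * Matrix.diagonal t * V⁻¹, hbdet⟩, (hV.1.mul hD).mul hVI.1, fun i => ?_, ?_⟩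
  · have h1 : (V * Matrix.diagonal t * V⁻¹) i i = t i := by
      rw [(hV.1.mul hD).mul_diag hVI.1, hV.1.mul_diag hD, hV.2, hVI.2, one_mul, mul_one,
        Matrix.diagonal_apply_eq]
    exact h1
  · rw [Matrix.SpecialLinearGroup.coe_mul, Matrix.SpecialLinearGroup.coe_mul, ← hNd]
    obtain ⟨W, hWd⟩ : ∃ W : Matrix (Fin n) (Fin n) F, W = (N * V).submatrix id e := ⟨_, rfl⟩
    rw [← hWd] at hW
    have hWI : W * ((V⁻¹ * (m : Matrix (Fin n) (Fin n) F)).submatrix e id) = 1 := by
      rw [hWd, ← Matrix.submatrix_mul (N * V) (V⁻¹ * (m : Matrix (Fin n) (Fin n) F)) id e id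
        e.bijective, Matrix.mul_assoc, ← Matrix.mul_assoc V, hVi, Matrix.one_mul, hNm,
        Matrix.submatrix_id_id]
    have hUI := UT.of_mul_eq_one hW hWI
    have hDe : UT (Matrix.diagonal (t ∘ e)) := fun i j h => Matrix.diagonal_apply_ne _ h.ne'
    have hkey : N * (V * Matrix.diagonal t * V⁻¹) * (m : Matrix (Fin n) (Fin n) F) =
        W * Matrix.diagonal (t ∘ e) *
          ((V⁻¹ * (m : Matrix (Fin n) (Fin n) F)).submatrix e id) := by
      rw [hWd, ← Matrix.submatrix_diagonal_equiv t e,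
        ← Matrix.submatrix_mul (N * V) (Matrix.diagonal t) id e e e.bijective,
        ← Matrix.submatrix_mul (N * V * Matrix.diagonal t)
          (V⁻¹ * (m : Matrix (Fin n) (Fin n) F)) id e id e.bijective,
        Matrix.submatrix_id_id]
      simp only [Matrix.mul_assoc]
    have h2 : UT (N * (V * Matrix.diagonal t * V⁻¹) * (m : Matrix (Fin n) (Fin n) F)) := by
      rw [hkey]
      exact (hW.mul hDe).mul hUI
    exact h2

end Lin43
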