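import Pool.Agent.Lib.MP_43150e_al.Crit
import Pool.Agent.Lib.MP_43150e_al.Lin.CharEx
import Pool.Agent.Lib.MP_43150e_al.Lin.Bruhat
import Pool.Agent.Lib.MP_43150e_al.Lin.AutB

/-! # E1: spreading implies flag-transitive or torus-full

If some diagonal `t` is missing in `K^g ∩ B`, the image `D` of `K^g ∩ B` in the torus is a proper
subgroup; `exists_char` gives `χ : T → C_l` killing `D`. Apply `Spr43.criterionQ` with `P = B`,
`φ = toP`, `ψ = χ ∘ diag`, `H = (borelS n F).map (toP n F)`, at the point `g • x`: condition (i) by `autB`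
and `br`, condition (iii) by the choice of `χ` (note: `j (toP b) • g x = g x` iff `g⁻¹ b g ∈ K`). So (ii)
fails, i.e. `B` is transitive on `Ω`, which gives `S = K B`. -/

set_option autoImplicit false

namespace Lin43

open Matrix Spr43

/-- The diagonal of an upper triangular matrix of determinant one. -/
noncomputable def e1dg (n : ℕ) (F : Type*) [Field F] : borelS n F →* (Fin n → Fˣ) where
  toFun b i := Units.mk0 ((b : SpecialLinearGroup (Fin n) F) i i : F) (by
    have h1 : ∏ i, ((b : SpecialLinearGroup (Fin n) F) : Matrix (Fin n) (Fin n) F) i i = 1 := by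
      have h2 : UT ((b : SpecialLinearGroup (Fin n) F) : Matrix (Fin n) (Fin n) F) := b.2
      rw [← h2.det]
      exact (b : SpecialLinearGroup (Fin n) F).2
    intro h3
    have h4 := Finset.prod_eq_zero (f := fun i =>
      ((b : SpecialLinearGroup (Fin n) F) : Matrix (Fin n) (Fin n) F) i i) (Finset.mem_univ i) h3
    exact zero_ne_one (h4.symm.trans h1))
  map_one' := by
    funext i
    apply Units.ext
    exact Matrix.one_apply_eq i
  map_mul' a b := by
    funext i
    apply Units.ext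
    exact UT.mul_diag a.2 b.2 i

theorem e1dg_val {n : ℕ} {F : Type*} [Field F] (b : borelS n F) (i : Fin n) :
    (e1dg n F b i : F) = (b : SpecialLinearGroup (Fin n) F) i i := rfl

theorem e1 {n : ℕ} {F Γ Ω : Type*} [Field F] [Finite F] [Group Γ] [MulAction Γ Ω] [Fintype Ω]
    [DecidableEq Ω] (j : ProjectiveSpecialLinearGroup (Fin n) F →* Γ)
    (hj : ∀ g : Γ, ∃ β : ProjectiveSpecialLinearGroup (Fin n) F ≃*
      ProjectiveSpecialLinearGroup (Fin n) F, ∀ m, j (β m) = g * j m * g⁻¹)
    (hsp : IsSpreading Γ Ω) (x : Ω) :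
    (∀ s : SpecialLinearGroup (Fin n) F, ∃ k ∈ stabS j x,
      UT ((k⁻¹ * s : SpecialLinearGroup (Fin n) F) : Matrix (Fin n) (Fin n) F)) ∨
    (∀ (g : SpecialLinearGroup (Fin n) F) (t : Fin n → F), ∏ i, t i = 1 →
      ∃ k ∈ stabS j x,
        UT ((g⁻¹ * k * g : SpecialLinearGroup (Fin n) F) : Matrix (Fin n) (Fin n) F) ∧
        ∀ i, ((g⁻¹ * k * g : SpecialLinearGroup (Fin n) F) : Matrix (Fin n) (Fin n) F) i i
          = t i) := by
  by_contra hcon
  rw [not_or] at hcon
  obtain ⟨hFT, hTF⟩ := hcon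
  push Not at hTF
  obtain ⟨g, t, ht, hk⟩ := hTF
  -- the torus and the image of the stabiliser
  let dg : borelS n F →* (e1dg n F).range := (e1dg n F).rangeRestrict
  let D₀ : Subgroup (borelS n F) :=
    { carrier := {h | g * h * g⁻¹ ∈ stabS j x}
      one_mem' := by
        change g * 1 * g⁻¹ ∈ stabS j x
        rw [mul_one, mul_inv_cancel]
        exact (stabS j x).one_mem
      mul_mem' := by
        intro a b ha hb
        have h1 : g * ((a : SpecialLinearGroup (Fin n) F) * b) * g⁻¹ =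
            (g * a * g⁻¹) * (g * b * g⁻¹) := by group
        change g * ((a : SpecialLinearGroup (Fin n) F) * b) * g⁻¹ ∈ stabS j x
        rw [h1]
        exact (stabS j x).mul_mem ha hb
      inv_mem' := by
        intro a ha
        have h1 : g * (a : SpecialLinearGroup (Fin n) F)⁻¹ * g⁻¹ = (g * a * g⁻¹)⁻¹ := by group
        change g * (a : SpecialLinearGroup (Fin n) F)⁻¹ * g⁻¹ ∈ stabS j x
        rw [h1]
        exact (stabS j x).inv_mem ha }
  obtain ⟨bt, hbt, hbt', -⟩ := br (1 : SpecialLinearGroup (Fin n) F) t ht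
  have hD : D₀.map dg ≠ ⊤ := by
    intro h
    have h1 : dg ⟨bt, hbt⟩ ∈ D₀.map dg := by
      rw [h]
      exact Subgroup.mem_top _
    obtain ⟨b, hb, hbb⟩ := h1
    have h2 : e1dg n F b = e1dg n F ⟨bt, hbt⟩ := congrArg Subtype.val hbb
    have h3 : g⁻¹ * (g * (b : SpecialLinearGroup (Fin n) F) * g⁻¹) * g = b := by group
    obtain ⟨i, hi⟩ := hk (g * b * g⁻¹) hb (by rw [h3]; exact b.2)
    apply hi
    rw [h3, ← hbt' i, ← e1dg_val b i, h2]
    rfl
  obtain ⟨l, hl, χ, hχ, a, ha⟩ := exists_char (D₀.map dg) hD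
  refine criterionQ j hj l ((toP n F).comp (borelS n F).subtype) (χ.comp dg)
    ((borelS n F).map (toP n F)) (j (toP n F g⁻¹) • x) ?_ ?_ ?_ hsp
  · intro β
    obtain ⟨m, hm⟩ := autB β
    obtain ⟨b₀, hb₀⟩ := (e1dg n F).rangeRestrict_surjective a
    have h1 : ∏ i, ((b₀ : SpecialLinearGroup (Fin n) F) : Matrix (Fin n) (Fin n) F) i i = 1 := by
      have h2 : UT ((b₀ : SpecialLinearGroup (Fin n) F) : Matrix (Fin n) (Fin n) F) := b₀.2
      rw [← h2.det]
      exact (b₀ : SpecialLinearGroup (Fin n) F).2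
    obtain ⟨b, hb, hb', hbm⟩ := br m _ h1
    refine ⟨⟨b, hb⟩, ?_, ?_⟩
    · have h2 : dg ⟨b, hb⟩ = a := by
        rw [← hb₀]
        apply Subtype.ext
        funext i
        apply Units.ext
        exact hb' i
      rw [MonoidHom.comp_apply, h2]
      exact ha
    · exact (hm b).2 hbm
  · by_contra hcon
    push Not at hcon
    apply hFT
    intro s
    obtain ⟨h, hh, hhx⟩ := hcon x (j (toP n F s⁻¹) • x)
    obtain ⟨b, hb, rfl⟩ := hh
    refine ⟨s * b, ?_, ?_⟩
    · rw [mem_stabS, map_mul, map_mul, mul_smul, hhx, ← mul_smul, ← map_mul, ← map_mul,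
        mul_inv_cancel, map_one, map_one, one_smul]
    · have h1 : (s * b)⁻¹ * s = b⁻¹ := by group
      rw [h1]
      exact (borelS n F).inv_mem hb
  · intro h hh
    have h1 : g * (h : SpecialLinearGroup (Fin n) F) * g⁻¹ ∈ stabS j x := by
      rw [mem_stabS, map_mul, map_mul, map_mul, map_mul, mul_smul, mul_smul]
      have h2 : j (toP n F h) • (j (toP n F g⁻¹) • x) = j (toP n F g⁻¹) • x := hh
      rw [h2, ← mul_smul, ← map_mul, ← map_mul, mul_inv_cancel, map_one, map_one, one_smul]
    rw [MonoidHom.comp_apply]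
    exact hχ _ ⟨h, h1, rfl⟩

end Lin43
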