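import Pool.Agent.Lib.MP_43150e_al.Lin.Gen

/-! # `PSL_n(F)` is simple -/

set_option autoImplicit false

namespace Lin43

open Matrix

open scoped LinearAlgebra.Projectivization

open Matrix.SpecialLinearGroup in
/-- The line stabilisers generate `SL_n`. -/
theorem simple_iSup_lineStab {n : ℕ} {F : Type*} [Field F] :
    (⨆ p : ℙ F (Fin n → F), lineStab p.submodule) =
      (⊤ : Subgroup (SpecialLinearGroup (Fin n) F)) := by
  refine gen _ fun i j hij c => ?_
  refine ⟨transvection hij c, ?_, by simp [transvection_coe]⟩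
  have h1 : (Pi.single i (1 : F) : Fin n → F) ≠ 0 := Pi.single_ne_zero_iff.2 one_ne_zero
  have h2 : transvection hij c ∈
      lineStab (Projectivization.mk F (Pi.single i (1 : F) : Fin n → F) h1).submodule := by
    rw [Projectivization.submodule_mk]
    exact SL2Gen.transvection_mem_lineStab hij c
  exact Subgroup.mem_iSup_of_mem _ h2

theorem simple_iSup_iwasawaT {n : ℕ} {F : Type*} [Field F] :
    iSup (PSL.iwasawaT (F := F) (ι := Fin n)) = ⊤ := by
  have step1 : iSup (PSL.iwasawaT (F := F) (ι := Fin n)) =
      Subgroup.map (QuotientGroup.mk' (Subgroup.center (Matrix.SpecialLinearGroup (Fin n) F)))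
        (⨆ p : ℙ F (Fin n → F),
          Matrix.SpecialLinearGroup.lineStab (F := F) (ι := Fin n) p.submodule) := by
    rw [Subgroup.map_iSup]
  rw [step1, simple_iSup_lineStab]
  exact Subgroup.map_top_of_surjective _ (QuotientGroup.mk'_surjective _)

open MulAction

/-- The Iwasawa structure on `PSL_n(F)`. -/
noncomputable abbrev simpleIwa (n : ℕ) (F : Type*) [Field F] :
    IwasawaStructure (ProjectiveSpecialLinearGroup (Fin n) F) (ℙ F (Fin n → F)) where
  T := PSL.iwasawaT
  is_comm p := by
    have hSL : IsMulCommutative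
        (Matrix.SpecialLinearGroup.lineStab (F := F) (ι := Fin n) p.submodule) := by
      rw [← Projectivization.mk_rep p, Projectivization.submodule_mk]
      exact Matrix.SpecialLinearGroup.lineStab_isMulCommutative_of_span p.rep p.rep_nonzero
    exact Subgroup.map_isMulCommutative _ _
  is_conj g p := by
    obtain ⟨g_SL, rfl⟩ := QuotientGroup.mk_surjective g
    rw [Matrix.ProjectiveSpecialLinearGroup.smul_proj_mk]
    change Subgroup.map _ _ = _
    rw [PSL.smul_submodule, Matrix.SpecialLinearGroup.lineStab_smul,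
      PSL.iwasawaT_map_conj]
  is_generator := simple_iSup_iwasawaT

/-- `SL_n(F)` is perfect. -/
theorem simple_perfect_SL {n : ℕ} {F : Type*} [Field F] (hF : 4 ≤ Nat.card F) :
    Group.IsPerfect (SpecialLinearGroup (Fin n) F) := by
  obtain ⟨s, hs, hs2⟩ := exists_sq_ne_one hF
  refine ⟨gen _ fun i j hij c => ?_⟩
  obtain ⟨t, u, h⟩ := transv_comm hs hs2 i j hij c
  exact ⟨t * u * t⁻¹ * u⁻¹, Subgroup.commutator_mem_commutator (Subgroup.mem_top _)
    (Subgroup.mem_top _), h⟩

theorem simple_perfect {n : ℕ} {F : Type*} [Field F] (hF : 4 ≤ Nat.card F) :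
    Group.IsPerfect (ProjectiveSpecialLinearGroup (Fin n) F) := by
  have := simple_perfect_SL (n := n) hF
  exact Group.IsPerfect.ofSurjective (f := QuotientGroup.mk' _) (QuotientGroup.mk'_surjective _)

/-- Iwasawa's criterion as in Mathlib's `Mathlib/LinearAlgebra/Projectivization/PSL/PSL2.lean` (the case
`n = 2`): only the generation (`gen`) and the perfectness (`transv_comm`) have to be replaced. -/
theorem psl_simple {n : ℕ} (hn : 2 ≤ n) {F : Type*} [Field F] (hF : 4 ≤ Nat.card F) :
    IsSimpleGroup (ProjectiveSpecialLinearGroup (Fin n) F) := by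
  have : Nontrivial (Fin n) := Fin.nontrivial_iff_two_le.2 hn
  exact MulAction.IwasawaStructure.isSimpleGroup (simple_perfect hF).commutator_eq_top
    (simpleIwa n F) inferInstance

theorem psl_noncomm {n : ℕ} (hn : 2 ≤ n) {F : Type*} [Field F] (hF : 4 ≤ Nat.card F) :
    ∃ a b : ProjectiveSpecialLinearGroup (Fin n) F, a * b ≠ b * a := by
  have : Nontrivial (Fin n) := Fin.nontrivial_iff_two_le.2 hn
  have := simple_perfect (n := n) (F := F) hF
  by_contra! h
  exact Group.IsPerfect.not_isMulCommutative
    (G := ProjectiveSpecialLinearGroup (Fin n) F) ⟨⟨h⟩⟩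

end Lin43
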