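import Pool.Agent.Lib.MP_43150e_al.CaseB
import Pool.Agent.Lib.MP_43150e_al.Lin.E1
import Pool.Agent.Lib.MP_43150e_al.Lin.Simple

/-! # Case B: `M = PSL_n(F)^ι`, all projections of the point stabiliser are onto (paragraph 8) -/

set_option autoImplicit false

namespace Lin43

open Matrix Spr43

/-- `SL_n` is not a product of two conjugates of the Borel subgroup. -/
theorem caseBL_prod {n : ℕ} (hn : 2 ≤ n) {F : Type*} [Field F]
    (m : SpecialLinearGroup (Fin n) F)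
    (h : ∀ s : SpecialLinearGroup (Fin n) F, ∃ s₁ ∈ borelS n F, ∃ s₂ ∈ borelS n F,
      s = m * s₁ * m⁻¹ * s₂) : False := by
  have hm : m ∈ borelS n F := by
    obtain ⟨s₁, h₁, s₂, h₂, h3⟩ := h m
    have h4 : m⁻¹ = s₁⁻¹ * s₂⁻¹ := by
      have h5 : m = m * (s₁ * m⁻¹ * s₂) := by
        calc m = m * s₁ * m⁻¹ * s₂ := h3
          _ = m * (s₁ * m⁻¹ * s₂) := by group
      have h6 : s₁ * m⁻¹ * s₂ = 1 := (mul_eq_left.1 h5.symm)
      have h7 : m⁻¹ = s₁⁻¹ * (s₁ * m⁻¹ * s₂) * s₂⁻¹ := by group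
      rw [h7, h6, mul_one]
    have h5 : m = (s₁⁻¹ * s₂⁻¹)⁻¹ := by rw [← h4, inv_inv]
    rw [h5]
    exact inv_mem (mul_mem (inv_mem h₁) (inv_mem h₂))
  have hall : ∀ s : SpecialLinearGroup (Fin n) F, s ∈ borelS n F := by
    intro s
    obtain ⟨s₁, h₁, s₂, h₂, h3⟩ := h s
    rw [h3]
    exact mul_mem (mul_mem (mul_mem hm h₁) (inv_mem hm)) h₂
  have h0 : (⟨0, by omega⟩ : Fin n) ≠ ⟨1, by omega⟩ := by
    intro h
    exact absurd (congrArg Fin.val h) (by norm_num)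
  have h1 := hall ⟨Matrix.transvection ⟨1, by omega⟩ ⟨0, by omega⟩ 1,
    Matrix.det_transvection_of_ne _ _ h0.symm 1⟩
  have h2 := h1 ⟨1, by omega⟩ ⟨0, by omega⟩ (by
    rw [Fin.lt_def]
    norm_num)
  change Matrix.transvection (⟨1, by omega⟩ : Fin n) ⟨0, by omega⟩ (1 : F) ⟨1, by omega⟩
    ⟨0, by omega⟩ = 0 at h2
  rw [Matrix.transvection, Matrix.add_apply, Matrix.one_apply_ne h0.symm, zero_add,
    Matrix.single_apply_same] at h2
  exact one_ne_zero h2

/-- The image of the centre in the torus is proper. -/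
theorem caseBL_char {n : ℕ} (hn : 2 ≤ n) {F : Type*} [Field F] [Finite F]
    (hF : 4 ≤ Nat.card F) :
    ∃ (l : ℕ) (_ : Fact l.Prime) (ψ : borelS n F →* Multiplicative (ZMod l)),
      (∀ b : borelS n F, toP n F b = 1 → ψ b = 1) ∧
      (∀ b b' : borelS n F, (∀ i, ((b : SpecialLinearGroup (Fin n) F) :
        Matrix (Fin n) (Fin n) F) i i = ((b' : SpecialLinearGroup (Fin n) F) :
        Matrix (Fin n) (Fin n) F) i i) → ψ b = ψ b') ∧ ∃ b, ψ b ≠ 1 := by
  let dg : borelS n F →* (e1dg n F).range := (e1dg n F).rangeRestrict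
  let D₀ : Subgroup (borelS n F) := (toP n F).ker.comap (borelS n F).subtype
  have hmem : ∀ b : borelS n F, b ∈ D₀ ↔ toP n F b = 1 := fun b => Iff.rfl
  have hD : D₀.map dg ≠ ⊤ := by
    intro h
    obtain ⟨s, hs, hs2⟩ := exists_sq_ne_one hF
    obtain ⟨i0, i1, h01⟩ : ∃ i0 i1 : Fin n, i0 ≠ i1 := by
      refine ⟨⟨0, by omega⟩, ⟨1, by omega⟩, fun h => ?_⟩
      exact absurd (congrArg Fin.val h) (by norm_num)
    obtain ⟨t, ht⟩ : ∃ t : Fin n → F, ∀ i, t i = if i = i0 then s else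
      if i = i1 then s⁻¹ else 1 := ⟨_, fun _ => rfl⟩
    have ht0 : t i0 = s := by
      rw [ht, if_pos rfl]
    have ht1 : t i1 = s⁻¹ := by
      rw [ht, if_neg h01.symm, if_pos rfl]
    have hprod : ∏ i, t i = 1 := by
      rw [Fintype.prod_eq_mul i0 i1 h01, ht0, ht1, mul_inv_cancel₀ hs]
      rintro i ⟨h1, h2⟩
      rw [ht, if_neg h1, if_neg h2]
    obtain ⟨b, hb, hb', -⟩ := br (1 : SpecialLinearGroup (Fin n) F) t hprod
    have h1 : dg ⟨b, hb⟩ ∈ D₀.map dg := by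
      rw [h]
      exact Subgroup.mem_top _
    obtain ⟨z, hz, hzb⟩ := h1
    have h2 : e1dg n F z = e1dg n F ⟨b, hb⟩ := congrArg Subtype.val hzb
    have hz' : (z : SpecialLinearGroup (Fin n) F) ∈
        Subgroup.center (SpecialLinearGroup (Fin n) F) := (QuotientGroup.eq_one_iff _).1 hz
    obtain ⟨c, hc⟩ := center_scalar _ hz'
    have h3 : ∀ i, t i = c := by
      intro i
      have h4 := congrArg Units.val (congrFun h2 i)
      rw [e1dg_val, e1dg_val, hc, Matrix.scalar_apply, Matrix.diagonal_apply_eq] at h4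
      rw [h4]
      exact (hb' i).symm
    apply hs2
    have h4 : s = s⁻¹ := by
      rw [← ht1, ← ht0, h3, h3]
    rw [pow_two]
    nth_rewrite 2 [h4]
    exact mul_inv_cancel₀ hs
  obtain ⟨l, hl, χ, hχ, a, ha⟩ := exists_char (D₀.map dg) hD
  refine ⟨l, hl, χ.comp dg, fun b hb => hχ _ ⟨b, hb, rfl⟩, fun b b' h => ?_, ?_⟩
  · have h1 : dg b = dg b' := by
      apply Subtype.ext
      funext i
      apply Units.ext
      exact h i
    rw [MonoidHom.comp_apply, h1]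
    rfl
  · obtain ⟨b, hb⟩ := (e1dg n F).rangeRestrict_surjective a
    refine ⟨b, ?_⟩
    change χ (dg b) ≠ 1
    have h1 : dg b = a := hb
    rw [h1]
    exact ha

/-- Exactly as `Spr43.caseB` (read it): `exists_graph`, `mulSingle_mem_iff`, `autPi`, `criterionQ` with
`H` = functions with all values in `π(B)`, `P = borelS`, `φ b = mulSingle i₀ (π b)`, `ψ = χ ∘ diag` with `χ` a
nontrivial character of prime order of the torus killing the scalars (`exists_char`). (i) by `autB`, `br`.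
(ii): otherwise `PSL = α(π B) π(B)`, a product of two conjugates of `π(B)` (`autB`), so `π B = PSL`. -/
theorem caseBL {Γ Ω ι F : Type*} {n : ℕ} (hn : 2 ≤ n) [Field F] [Finite F]
    (hF : 4 ≤ Nat.card F) [Group Γ] [MulAction Γ Ω] [Fintype Ω]
    [DecidableEq Ω] [Finite ι] (j : (ι → ProjectiveSpecialLinearGroup (Fin n) F) →* Γ)
    (hj : ∀ g : Γ, ∃ β : (ι → ProjectiveSpecialLinearGroup (Fin n) F) ≃*
      (ι → ProjectiveSpecialLinearGroup (Fin n) F), ∀ m, j (β m) = g * j m * g⁻¹)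
    (hfaith : ∀ m : ι → ProjectiveSpecialLinearGroup (Fin n) F,
      (∀ x : Ω, j m • x = x) → m = 1)
    (htr : ∀ x y : Ω, ∃ m : ι → ProjectiveSpecialLinearGroup (Fin n) F, j m • x = y)
    (x : Ω) (hx : ∃ y : Ω, y ≠ x)
    (hproj : ∀ (i : ι) (t : ProjectiveSpecialLinearGroup (Fin n) F),
      ∃ m : ι → ProjectiveSpecialLinearGroup (Fin n) F, j m • x = x ∧ m i = t) :
    ¬ IsSpreading Γ Ω := by
  classical
  have hsimple : IsSimpleGroup (ProjectiveSpecialLinearGroup (Fin n) F) := psl_simple hn hF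
  have hT := psl_noncomm hn hF
  let K : Subgroup (ι → ProjectiveSpecialLinearGroup (Fin n) F) :=
    (MulAction.stabilizer Γ x).comap j
  have hKm : ∀ m, m ∈ K ↔ j m • x = x := fun m => Iff.rfl
  have hprojK : ∀ (i : ι) (t : ProjectiveSpecialLinearGroup (Fin n) F), ∃ m ∈ K, m i = t :=
    fun i t => hproj i t
  have hKne : ∃ i₀, ∃ t, Pi.mulSingle i₀ t ∉ K := by
    by_contra hcon
    push Not at hcon
    obtain ⟨y, hy⟩ := hx
    obtain ⟨m, hm⟩ := htr x y
    have h1 : m ∈ K := Subgroup.pi_mem_of_mulSingle_mem m fun i => hcon i (m i)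
    rw [hKm] at h1
    exact hy (hm.symm.trans h1)
  obtain ⟨i₀, hi₀⟩ := hKne
  obtain ⟨i₁, α, hne, hα⟩ := exists_graph hT K hprojK i₀ hi₀
  obtain ⟨l, hl, ψ, hψ1, hψ2, b₀, hb₀⟩ := caseBL_char (n := n) hn hF
  let H : Subgroup (ι → ProjectiveSpecialLinearGroup (Fin n) F) :=
    Subgroup.pi Set.univ fun _ => (borelS n F).map (toP n F)
  have hH : ∀ m, m ∈ H ↔ ∀ i, m i ∈ (borelS n F).map (toP n F) := by
    intro m
    rw [Subgroup.mem_pi]
    exact ⟨fun h i => h i (Set.mem_univ i), fun h i _ => h i⟩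
  refine criterionQ j hj l ((MonoidHom.mulSingle
    (fun _ : ι => ProjectiveSpecialLinearGroup (Fin n) F) i₀).comp
      ((toP n F).comp (borelS n F).subtype)) ψ H x ?_ ?_ ?_
  · intro β
    obtain ⟨τ, α', hτ⟩ := autPi hT β
    obtain ⟨m, hm⟩ := autB (α' i₀)
    have h1 : ∏ i, ((b₀ : SpecialLinearGroup (Fin n) F) : Matrix (Fin n) (Fin n) F) i i = 1 := by
      have h2 : UT ((b₀ : SpecialLinearGroup (Fin n) F) : Matrix (Fin n) (Fin n) F) := b₀.2
      rw [← h2.det]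
      exact (b₀ : SpecialLinearGroup (Fin n) F).2
    obtain ⟨b, hb, hb', hbm⟩ := br m _ h1
    refine ⟨⟨b, hb⟩, ?_, ?_⟩
    · rw [hψ2 ⟨b, hb⟩ b₀ hb']
      exact hb₀
    · rw [hH]
      intro k
      obtain ⟨k, rfl⟩ := τ.surjective k
      change β (Pi.mulSingle i₀ (toP n F b)) (τ k) ∈ _
      rw [hτ]
      by_cases hk : k = i₀
      · subst hk
        rw [Pi.mulSingle_eq_same]
        exact (hm b).2 hbm
      · rw [Pi.mulSingle_eq_of_ne hk, map_one]
        exact Subgroup.one_mem _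
  · by_contra hcon
    push Not at hcon
    obtain ⟨m, hm⟩ := autB α.symm
    refine caseBL_prod hn m fun s => ?_
    obtain ⟨h, hhH, hh⟩ := hcon x (j (Pi.mulSingle i₀ (toP n F s))⁻¹ • x)
    have hkK : Pi.mulSingle i₀ (toP n F s) * h ∈ K := by
      rw [hKm, map_mul, mul_smul, hh, ← mul_smul, ← map_mul, mul_inv_cancel, map_one, one_smul]
    have h1 := hα _ hkK
    rw [Pi.mul_apply, Pi.mul_apply, Pi.mulSingle_eq_same, Pi.mulSingle_eq_of_ne hne,
      one_mul] at h1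
    rw [hH] at hhH
    obtain ⟨b₂, hb₂, h2⟩ := hhH i₀
    obtain ⟨s₁, h3⟩ := QuotientGroup.mk'_surjective
      (Subgroup.center (SpecialLinearGroup (Fin n) F)) (α (h i₁))
    have h4 : UT ((m⁻¹ * s₁ * m : SpecialLinearGroup (Fin n) F) : Matrix (Fin n) (Fin n) F) := by
      rw [← hm s₁]
      have h5 : toP n F s₁ = α (h i₁) := h3
      rw [h5, MulEquiv.symm_apply_apply]
      exact hhH i₁
    have h6 : toP n F (s * b₂) = toP n F s₁ := by
      rw [map_mul, h2]
      exact h1.trans h3.symm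
    have h7 : s₁⁻¹ * (s * b₂) ∈ Subgroup.center (SpecialLinearGroup (Fin n) F) :=
      QuotientGroup.eq.1 h6.symm
    have h8 : s₁⁻¹ * (s * b₂) ∈ borelS n F := by
      obtain ⟨c, hc⟩ := center_scalar _ h7
      rw [mem_borelS, hc]
      exact UT.scalar c
    refine ⟨m⁻¹ * s₁ * m, h4, s₁⁻¹ * (s * b₂) * b₂⁻¹, mul_mem h8 (inv_mem hb₂), ?_⟩
    group
  · intro b hb
    exact hψ1 b (mulSingle_mem_iff K hprojK i₀ hi₀ (toP n F b) hb)

end Lin43
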