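import Pool.Agent.Lib.MP_43150e_al.Lin.Defs

/-! # Counting elements without eigenvector, `n = 2` (paragraph 5, T3, upper bound) -/

set_option autoImplicit false

namespace Lin43

open Matrix

section Ac

variable {F : Type*} [Field F] {n : ℕ}

/-- the action of the general linear group on the vectors -/
def ac (l : GeneralLinearGroup (Fin n) F) (v : Fin n → F) : Fin n → F :=
  (l : Matrix (Fin n) (Fin n) F).mulVec v

theorem ac_mul (l l' : GeneralLinearGroup (Fin n) F) (v : Fin n → F) :
    ac (l * l') v = ac l (ac l' v) := by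
  unfold ac
  rw [Units.val_mul, Matrix.mulVec_mulVec]

theorem ac_one (v : Fin n → F) : ac 1 v = v := by
  unfold ac
  rw [Units.val_one, Matrix.one_mulVec]

theorem ac_smul (l : GeneralLinearGroup (Fin n) F) (c : F) (v : Fin n → F) :
    ac l (c • v) = c • ac l v := Matrix.mulVec_smul _ _ _

theorem ac_sub (l : GeneralLinearGroup (Fin n) F) (v w : Fin n → F) :
    ac l (v - w) = ac l v - ac l w := Matrix.mulVec_sub _ _ _

theorem ac_zero (l : GeneralLinearGroup (Fin n) F) : ac l 0 = 0 := Matrix.mulVec_zero _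

theorem ac_inv (l : GeneralLinearGroup (Fin n) F) (v : Fin n → F) : ac l⁻¹ (ac l v) = v := by
  rw [← ac_mul, inv_mul_cancel, ac_one]

theorem ac_inv' (l : GeneralLinearGroup (Fin n) F) (v : Fin n → F) : ac l (ac l⁻¹ v) = v := by
  rw [← ac_mul, mul_inv_cancel, ac_one]

theorem ac_ne (l : GeneralLinearGroup (Fin n) F) {v : Fin n → F} (hv : v ≠ 0) : ac l v ≠ 0 := by
  intro h
  apply hv
  rw [← ac_inv l v, h, ac_zero]

theorem ac_inv_eq (l : GeneralLinearGroup (Fin n) F) {v w : Fin n → F} :
    ac l⁻¹ v = w ↔ v = ac l w := by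
  constructor
  · rintro rfl
    rw [ac_inv']
  · rintro rfl
    rw [ac_inv]

theorem ac_ext {l l' : GeneralLinearGroup (Fin n) F} (h : ∀ v, ac l v = ac l' v) : l = l' := by
  apply Units.ext
  exact Matrix.mulVec_injective (funext h)

theorem ac_scalar {l : GeneralLinearGroup (Fin n) F} {c : F}
    (h : (l : Matrix (Fin n) (Fin n) F) = Matrix.scalar (Fin n) c) (v : Fin n → F) :
    ac l v = c • v := by
  unfold ac
  rw [h]
  ext i
  rw [Matrix.scalar_apply, Matrix.mulVec_diagonal, Pi.smul_apply, smul_eq_mul]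

theorem hasEV_iff {l : GeneralLinearGroup (Fin n) F} :
    HasEV (l : Matrix (Fin n) (Fin n) F) ↔ ∃ (v : Fin n → F) (c : F), v ≠ 0 ∧ c ≠ 0 ∧
      ac l v = c • v := by
  constructor
  · rintro ⟨v, c, hv, h⟩
    refine ⟨v, c, hv, ?_, h⟩
    rintro rfl
    have h1 : ac l v = 0 := by
      rw [zero_smul] at h
      exact h
    exact ac_ne l hv h1
  · rintro ⟨v, c, hv, -, h⟩
    exact ⟨v, c, hv, h⟩

end Ac

section Count

variable {F : Type*} [Field F] [Fintype F]

open Classical in
/-- the number of pairs (eigenvector, eigenvalue) -/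
noncomputable def ev (l : GeneralLinearGroup (Fin 2) F) : ℕ :=
  ((Finset.univ.filter fun v : Fin 2 → F => v ≠ 0) ×ˢ
    (Finset.univ.filter fun c : F => c ≠ 0)).filter (fun p => ac l p.1 = p.2 • p.1) |>.card

/-- the arithmetic of `cntL`: `q = p + 1` -/
theorem cntL_arith {p n f N k : ℕ} (hn : n = p * (p + 2) * f) (hk : 2 * k + p * (p + 2) ≤
    p * (p + 2) * f) (hN : n = p + k + N) (hf : f ≤ 2) :
    (3 * (p + 1) + 1) * n ≤ 4 * (p + 1 + 1) * N := by
  have h1 : p * n ≤ p * (p * (p + 2) * 2) := by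
    rw [hn]
    exact Nat.mul_le_mul_left _ (Nat.mul_le_mul_left _ hf)
  have h2 : 2 * (p + 2) * (2 * k + p * (p + 2)) ≤ 2 * (p + 2) * n := by
    rw [hn]
    exact Nat.mul_le_mul_left _ hk
  zify at h1 h2 hN ⊢
  have h3 : (N : ℤ) = n - p - k := by rw [hN]; ring
  rw [h3]
  nlinarith

theorem card_nonzero (n : ℕ) {q : ℕ} (hq : Fintype.card F = q) [DecidableEq F] :
    (Finset.univ.filter fun v : Fin n → F => v ≠ 0).card + 1 = q ^ n := by
  have h1 : (Finset.univ.filter fun v : Fin n → F => v ≠ 0) = Finset.univ.erase 0 := by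
    ext v
    simp
  rw [h1, Finset.card_erase_add_one (Finset.mem_univ _), Finset.card_univ, Fintype.card_fun,
    Fintype.card_fin, hq]

theorem card_units' {q : ℕ} (hq : Fintype.card F = q) [DecidableEq F] :
    (Finset.univ.filter fun v : F => v ≠ 0).card + 1 = q := by
  have h1 : (Finset.univ.filter fun v : F => v ≠ 0) = Finset.univ.erase 0 := by
    ext v
    simp
  rw [h1, Finset.card_erase_add_one (Finset.mem_univ _), Finset.card_univ, hq]

theorem ev_scalar [DecidableEq F] {l : GeneralLinearGroup (Fin 2) F} {c : F} (hc : c ≠ 0)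
    (h : ∀ v, ac l v = c • v) :
    (Finset.univ.filter fun v : Fin 2 → F => v ≠ 0).card ≤ ev l := by
  classical
  unfold ev
  apply Finset.card_le_card_of_injOn (fun v => (v, c))
  · intro v hv
    simp only [Finset.coe_filter, Finset.mem_product, Finset.mem_filter, Finset.mem_univ,
      true_and, Set.mem_ofPred_eq] at hv ⊢
    exact ⟨⟨hv, hc⟩, h v⟩
  · intro v _ v' _ hvv
    exact congrArg Prod.fst hvv

/-- two eigenlines -/
theorem ev_two [DecidableEq F] {l : GeneralLinearGroup (Fin 2) F} {c c' : F} (hc : c ≠ 0)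
    (hc' : c' ≠ 0) (hcc : c ≠ c') {v w : Fin 2 → F} (hv : v ≠ 0) (hw : w ≠ 0)
    (h : ac l v = c • v) (h' : ac l w = c' • w) :
    2 * (Finset.univ.filter fun x : F => x ≠ 0).card ≤ ev l := by
  classical
  unfold ev
  have h1 : ((Finset.univ.filter fun x : F => x ≠ 0) ×ˢ (Finset.univ : Finset Bool)).card =
      2 * (Finset.univ.filter fun x : F => x ≠ 0).card := by
    rw [Finset.card_product, Finset.card_univ, Fintype.card_bool, mul_comm]
  rw [← h1]
  apply Finset.card_le_card_of_injOn (fun x => if x.2 then (x.1 • v, c) else (x.1 • w, c'))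
  · rintro ⟨x, b⟩ hx
    simp only [Finset.coe_product, Finset.coe_filter, Finset.coe_univ, Set.mem_prod,
      Finset.mem_univ, true_and, Set.mem_ofPred_eq, Set.mem_univ, and_true] at hx
    simp only [Finset.coe_filter, Finset.mem_product, Finset.mem_filter, Finset.mem_univ,
      true_and, Set.mem_ofPred_eq]
    cases b
    · simp only [Bool.false_eq_true, if_false]
      refine ⟨⟨smul_ne_zero hx hw, hc'⟩, ?_⟩
      rw [ac_smul, h', smul_comm]
    · simp only [if_true]
      refine ⟨⟨smul_ne_zero hx hv, hc⟩, ?_⟩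
      rw [ac_smul, h, smul_comm]
  · rintro ⟨x, b⟩ _ ⟨x', b'⟩ _ hxx
    cases b <;> cases b'
    · simp only [Bool.false_eq_true, if_false, Prod.mk.injEq, and_true] at hxx
      rw [smul_left_injective F hw hxx]
    · simp only [Bool.false_eq_true, if_false, if_true, Prod.mk.injEq] at hxx
      exact absurd hxx.2.symm hcc
    · simp only [Bool.false_eq_true, if_false, if_true, Prod.mk.injEq] at hxx
      exact absurd hxx.2 hcc
    · simp only [if_true, Prod.mk.injEq, and_true] at hxx
      rw [smul_left_injective F hv hxx]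

end Count

/-- `L ≤ GL_2(F)` transitive on nonzero vectors, containing the scalars, `f = |L_(e_0)| ≤ 2`, and `f = 1` or
char ≠ 2. `|L| = (q²-1) f`. Counting pairs (element, invariant line): `|L| = (q+1)(q-1) f`; the scalars have
`q + 1` invariant lines. `f = 1`: no other element has an eigenvector. `f = 2`: a nonscalar element with an
eigenvector has a scalar square, so (char ≠ 2) exactly two eigenlines: there are `(q²-1)/2` of them. -/
theorem cntL {F : Type*} [Field F] [Fintype F] (L : Subgroup (GeneralLinearGroup (Fin 2) F))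
    (hsc : ∀ c : F, c ≠ 0 → inG L (Matrix.scalar (Fin 2) c))
    (htr : ∀ v : Fin 2 → F, v ≠ 0 → ∃ l ∈ L,
      (l : Matrix (Fin 2) (Fin 2) F).mulVec ![1, 0] = v)
    (h2 : Nat.card {l : L // ((l : GeneralLinearGroup (Fin 2) F) :
        Matrix (Fin 2) (Fin 2) F).mulVec ![1, 0] = ![1, 0]} ≤ 2)
    (h1 : (2 : F) ≠ 0 ∨ Nat.card {l : L // ((l : GeneralLinearGroup (Fin 2) F) :
        Matrix (Fin 2) (Fin 2) F).mulVec ![1, 0] = ![1, 0]} ≤ 1) :
    (3 * Fintype.card F + 1) * Nat.card L ≤
      4 * (Fintype.card F + 1) * Nat.card {l : L // ¬ HasEV ((l : GeneralLinearGroup (Fin 2) F) :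
        Matrix (Fin 2) (Fin 2) F)} := by
  classical
  have : Fintype L := Fintype.ofFinite L
  obtain ⟨p, hp⟩ : ∃ p, Fintype.card F = p + 1 :=
    Nat.exists_eq_succ_of_ne_zero Fintype.card_ne_zero
  have hp0 : 0 < p := by
    have h3 : 1 < Fintype.card F := Fintype.one_lt_card
    omega
  have he₀ : (![1, 0] : Fin 2 → F) ≠ 0 := by
    intro h
    have h3 := congrFun h 0
    simp at h3
  have hU : (Finset.univ.filter fun v : Fin 2 → F => v ≠ 0).card = p * (p + 2) := by
    have h3 := card_nonzero (F := F) 2 hp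
    have h4 : (p + 1) ^ 2 = p * (p + 2) + 1 := by ring
    omega
  have hFx : (Finset.univ.filter fun v : F => v ≠ 0).card = p := by
    have h3 := card_units' (F := F) hp
    omega
  obtain ⟨f, hf⟩ : ∃ f, (Finset.univ.filter fun l : L =>
    ac (l : GeneralLinearGroup (Fin 2) F) ![1, 0] = ![1, 0]).card = f := ⟨_, rfl⟩
  have hf' : Nat.card {l : L // ((l : GeneralLinearGroup (Fin 2) F) :
        Matrix (Fin 2) (Fin 2) F).mulVec ![1, 0] = ![1, 0]} = f := by
    rw [Nat.card_eq_fintype_card, Fintype.card_subtype, ← hf]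
    rfl
  rw [hf'] at h1 h2
  have hs : ∀ c : F, c ≠ 0 → ∃ s : L, ∀ v, ac (s : GeneralLinearGroup (Fin 2) F) v = c • v := by
    intro c hc
    obtain ⟨s, hs, hs'⟩ := hsc c hc
    exact ⟨⟨s, hs⟩, ac_scalar hs'⟩
  have ht : ∀ v : Fin 2 → F, v ≠ 0 →
      ∃ g : L, ac (g : GeneralLinearGroup (Fin 2) F) ![1, 0] = v := by
    intro v hv
    obtain ⟨g, hg, hg'⟩ := htr v hv
    exact ⟨⟨g, hg⟩, hg'⟩
  have hA : ∀ v : Fin 2 → F, v ≠ 0 → ∀ c : F, c ≠ 0 → (Finset.univ.filter fun l : L =>
      ac (l : GeneralLinearGroup (Fin 2) F) v = c • v).card = f := by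
    intro v hv c hc
    obtain ⟨g, hg⟩ := ht v hv
    obtain ⟨s, hs⟩ := hs c hc
    rw [← hf]
    have hsi : ac (s : GeneralLinearGroup (Fin 2) F)⁻¹ (c • v) = v := by
      rw [ac_inv_eq, hs]
    have hgi : ac (g : GeneralLinearGroup (Fin 2) F)⁻¹ v = ![1, 0] := by
      rw [ac_inv_eq, hg]
    apply Finset.card_nbij' (fun l => g⁻¹ * s⁻¹ * l * g) (fun l => s * g * l * g⁻¹)
    · intro l hl
      simp only [Finset.coe_filter, Finset.mem_univ, true_and, Set.mem_ofPred_eq] at hl ⊢
      simp only [Subgroup.coe_mul, Subgroup.coe_inv, ac_mul]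
      rw [hg, hl, hsi, hgi]
    · intro l hl
      simp only [Finset.coe_filter, Finset.mem_univ, true_and, Set.mem_ofPred_eq] at hl ⊢
      simp only [Subgroup.coe_mul, Subgroup.coe_inv, ac_mul]
      rw [hgi, hl, hg, hs]
    · intro l _
      simp only
      group
    · intro l _
      simp only
      group
  have hB : Fintype.card L = p * (p + 2) * f := by
    have h3 := Finset.card_eq_sum_card_fiberwise (s := (Finset.univ : Finset L))
      (t := Finset.univ.filter fun v : Fin 2 → F => v ≠ 0)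
      (f := fun l : L => ac (l : GeneralLinearGroup (Fin 2) F) ![1, 0]) (by
        intro l _
        simp only [Finset.coe_filter, Finset.mem_univ, true_and, Set.mem_ofPred_eq]
        exact ac_ne _ he₀)
    rw [Finset.card_univ] at h3
    rw [h3, ← hU, ← smul_eq_mul, ← Finset.sum_const]
    refine Finset.sum_congr rfl fun v hv => ?_
    simp only [Finset.mem_filter, Finset.mem_univ, true_and] at hv
    obtain ⟨g, hg⟩ := ht v hv
    have hgi : ac (g : GeneralLinearGroup (Fin 2) F)⁻¹ v = ![1, 0] := by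
      rw [ac_inv_eq, hg]
    rw [← hf]
    apply Finset.card_nbij' (fun l => g⁻¹ * l) (fun l => g * l)
    · intro l hl
      simp only [Finset.coe_filter, Finset.mem_univ, true_and, Set.mem_ofPred_eq] at hl ⊢
      simp only [Subgroup.coe_mul, Subgroup.coe_inv, ac_mul]
      rw [hl, hgi]
    · intro l hl
      simp only [Finset.coe_filter, Finset.mem_univ, true_and, Set.mem_ofPred_eq] at hl ⊢
      simp only [Subgroup.coe_mul, ac_mul]
      rw [hl, hg]
    · intro l _
      simp only
      group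
    · intro l _
      simp only
      group
  have hC : ∑ l : L, ev (l : GeneralLinearGroup (Fin 2) F) = p * (p + 2) * p * f := by
    unfold ev
    simp only [Finset.card_filter _ ((Finset.univ.filter fun v : Fin 2 → F => v ≠ 0) ×ˢ
      (Finset.univ.filter fun c : F => c ≠ 0))]
    have h6 : p * (p + 2) * p * f = ((Finset.univ.filter fun v : Fin 2 → F => v ≠ 0) ×ˢ
        (Finset.univ.filter fun c : F => c ≠ 0)).card * f := by
      rw [Finset.card_product, hU, hFx]
    rw [Finset.sum_comm, h6, ← smul_eq_mul, ← Finset.sum_const]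
    refine Finset.sum_congr rfl fun x hx => ?_
    simp only [Finset.mem_product, Finset.mem_filter, Finset.mem_univ, true_and] at hx
    rw [← Finset.card_filter]
    exact hA x.1 hx.1 x.2 hx.2
  -- the scalars
  have hSc : (Finset.univ.filter fun l : L =>
      ∃ c : F, ∀ v, ac (l : GeneralLinearGroup (Fin 2) F) v = c • v).card = p := by
    rw [← hFx]
    symm
    apply Finset.card_bij (fun c hc => (hs c (Finset.mem_filter.1 hc).2).choose)
    · intro c hc
      rw [Finset.mem_filter]
      exact ⟨Finset.mem_univ _, c, (hs c (Finset.mem_filter.1 hc).2).choose_spec⟩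
    · intro c hc c' hc' h
      have h3 := (hs c (Finset.mem_filter.1 hc).2).choose_spec ![1, 0]
      have h4 := (hs c' (Finset.mem_filter.1 hc').2).choose_spec ![1, 0]
      rw [h, h4] at h3
      exact (smul_left_injective F he₀ h3).symm
    · intro l hl
      rw [Finset.mem_filter] at hl
      obtain ⟨-, c, hc⟩ := hl
      have hc0 : c ≠ 0 := by
        rintro rfl
        have h3 := hc ![1, 0]
        rw [zero_smul] at h3
        exact ac_ne _ he₀ h3
      refine ⟨c, Finset.mem_filter.2 ⟨Finset.mem_univ _, hc0⟩, ?_⟩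
      apply Subtype.ext
      apply ac_ext
      intro v
      rw [(hs c _).choose_spec, hc]
      exact hc0
  have hScE : (Finset.univ.filter fun l : L =>
      ∃ c : F, ∀ v, ac (l : GeneralLinearGroup (Fin 2) F) v = c • v).card • (p * (p + 2)) ≤
      ∑ l ∈ (Finset.univ.filter fun l : L =>
        ∃ c : F, ∀ v, ac (l : GeneralLinearGroup (Fin 2) F) v = c • v),
        ev (l : GeneralLinearGroup (Fin 2) F) := by
    apply Finset.card_nsmul_le_sum
    intro l hl
    rw [Finset.mem_filter] at hl
    obtain ⟨-, c, hc⟩ := hl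
    have hc0 : c ≠ 0 := by
      rintro rfl
      have h3 := hc ![1, 0]
      rw [zero_smul] at h3
      exact ac_ne _ he₀ h3
    rw [← hU]
    exact ev_scalar hc0 hc
  -- the other elements with an eigenvector
  have hNsE : (Finset.univ.filter fun l : L =>
      HasEV ((l : GeneralLinearGroup (Fin 2) F) : Matrix (Fin 2) (Fin 2) F) ∧
      ¬ ∃ c : F, ∀ v, ac (l : GeneralLinearGroup (Fin 2) F) v = c • v).card • (2 * p) ≤
      ∑ l ∈ (Finset.univ.filter fun l : L =>
        HasEV ((l : GeneralLinearGroup (Fin 2) F) : Matrix (Fin 2) (Fin 2) F) ∧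
        ¬ ∃ c : F, ∀ v, ac (l : GeneralLinearGroup (Fin 2) F) v = c • v),
        ev (l : GeneralLinearGroup (Fin 2) F) := by
    apply Finset.card_nsmul_le_sum
    intro l hl
    rw [Finset.mem_filter] at hl
    obtain ⟨-, hl, hns⟩ := hl
    obtain ⟨v, c, hv, hc, hlv⟩ := hasEV_iff.1 hl
    obtain ⟨s, hsc⟩ := hs c hc
    have htv : ac ((s⁻¹ * l : L) : GeneralLinearGroup (Fin 2) F) v = (1 : F) • v := by
      rw [Subgroup.coe_mul, Subgroup.coe_inv, ac_mul, hlv, ac_inv_eq, hsc, one_smul]
    have ht1 : s⁻¹ * l ≠ 1 := by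
      intro h3
      apply hns
      have h4 : l = s := (inv_mul_eq_one.1 h3).symm
      exact ⟨c, fun v => by rw [h4, hsc]⟩
    -- the stabiliser of `v`
    have hst := hA v hv 1 one_ne_zero
    have hsub : ({1, s⁻¹ * l} : Finset L) ⊆ Finset.univ.filter fun l : L =>
        ac (l : GeneralLinearGroup (Fin 2) F) v = (1 : F) • v := by
      intro x hx
      rw [Finset.mem_insert, Finset.mem_singleton] at hx
      rw [Finset.mem_filter]
      rcases hx with rfl | rfl
      · exact ⟨Finset.mem_univ _, by rw [Subgroup.coe_one, ac_one, one_smul]⟩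
      · exact ⟨Finset.mem_univ _, htv⟩
    have hc2 : ({1, s⁻¹ * l} : Finset L).card = 2 := Finset.card_pair (Ne.symm ht1)
    have hf2 : 2 ≤ f := by
      rw [← hc2, ← hst]
      exact Finset.card_le_card hsub
    have h20 : (2 : F) ≠ 0 := by
      rcases h1 with h1 | h1
      · exact h1
      · omega
    have hsq : (s⁻¹ * l) * (s⁻¹ * l) = 1 := by
      have heq := Finset.eq_of_subset_of_card_le hsub (by rw [hst, hc2]; exact h2)
      have h3 : (s⁻¹ * l) * (s⁻¹ * l) ∈ ({1, s⁻¹ * l} : Finset L) := by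
        rw [heq, Finset.mem_filter]
        refine ⟨Finset.mem_univ _, ?_⟩
        rw [Subgroup.coe_mul, ac_mul, htv, one_smul, htv, one_smul]
      rw [Finset.mem_insert, Finset.mem_singleton] at h3
      rcases h3 with h3 | h3
      · exact h3
      · exact absurd (mul_eq_left.1 h3) ht1
    obtain ⟨u, hu⟩ : ∃ u, ac ((s⁻¹ * l : L) : GeneralLinearGroup (Fin 2) F) u ≠ u := by
      by_contra hcon
      push Not at hcon
      apply ht1
      apply Subtype.ext
      apply ac_ext
      intro u
      rw [hcon, Subgroup.coe_one, ac_one]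
    have hw : ac ((s⁻¹ * l : L) : GeneralLinearGroup (Fin 2) F) u - u ≠ 0 := sub_ne_zero.2 hu
    have htw : ac ((s⁻¹ * l : L) : GeneralLinearGroup (Fin 2) F)
        (ac ((s⁻¹ * l : L) : GeneralLinearGroup (Fin 2) F) u - u) =
        -(ac ((s⁻¹ * l : L) : GeneralLinearGroup (Fin 2) F) u - u) := by
      rw [ac_sub, ← ac_mul, ← Subgroup.coe_mul, hsq, Subgroup.coe_one, ac_one, neg_sub]
    have hlw : ac (l : GeneralLinearGroup (Fin 2) F)
        (ac ((s⁻¹ * l : L) : GeneralLinearGroup (Fin 2) F) u - u) =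
        (-c) • (ac ((s⁻¹ * l : L) : GeneralLinearGroup (Fin 2) F) u - u) := by
      have h3 : (l : GeneralLinearGroup (Fin 2) F) = (s : GeneralLinearGroup (Fin 2) F) *
          ((s⁻¹ * l : L) : GeneralLinearGroup (Fin 2) F) := by
        rw [Subgroup.coe_mul, Subgroup.coe_inv, mul_inv_cancel_left]
      conv_lhs => rw [h3]
      rw [ac_mul, htw, hsc, smul_neg, neg_smul]
    have hcc : c ≠ -c := by
      intro h3
      apply mul_ne_zero h20 hc
      linear_combination h3
    rw [← hFx]
    exact ev_two hc (neg_ne_zero.2 hc) hcc hv hw hlv hlw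
  -- conclusion
  obtain ⟨k, hk⟩ : ∃ k, (Finset.univ.filter fun l : L =>
      HasEV ((l : GeneralLinearGroup (Fin 2) F) : Matrix (Fin 2) (Fin 2) F) ∧
      ¬ ∃ c : F, ∀ v, ac (l : GeneralLinearGroup (Fin 2) F) v = c • v).card = k := ⟨_, rfl⟩
  obtain ⟨N, hN⟩ : ∃ N, Nat.card {l : L // ¬ HasEV ((l : GeneralLinearGroup (Fin 2) F) :
        Matrix (Fin 2) (Fin 2) F)} = N := ⟨_, rfl⟩
  have hdis : Disjoint (Finset.univ.filter fun l : L =>
      ∃ c : F, ∀ v, ac (l : GeneralLinearGroup (Fin 2) F) v = c • v)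
      (Finset.univ.filter fun l : L =>
      HasEV ((l : GeneralLinearGroup (Fin 2) F) : Matrix (Fin 2) (Fin 2) F) ∧
      ¬ ∃ c : F, ∀ v, ac (l : GeneralLinearGroup (Fin 2) F) v = c • v) := by
    rw [Finset.disjoint_left]
    intro l hl hl'
    rw [Finset.mem_filter] at hl hl'
    exact hl'.2.2 hl.2
  have hsum := Finset.sum_le_sum_of_subset (f := fun l : L =>
    ev (l : GeneralLinearGroup (Fin 2) F)) (Finset.subset_univ ((Finset.univ.filter fun l : L =>
      ∃ c : F, ∀ v, ac (l : GeneralLinearGroup (Fin 2) F) v = c • v) ∪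
      (Finset.univ.filter fun l : L =>
      HasEV ((l : GeneralLinearGroup (Fin 2) F) : Matrix (Fin 2) (Fin 2) F) ∧
      ¬ ∃ c : F, ∀ v, ac (l : GeneralLinearGroup (Fin 2) F) v = c • v)))
  rw [Finset.sum_union hdis] at hsum
  have hk1 : p * (p * (p + 2)) + k * (2 * p) ≤ p * (p + 2) * p * f := by
    rw [hSc, smul_eq_mul] at hScE
    rw [hk, smul_eq_mul] at hNsE
    rw [← hC]
    exact (add_le_add hScE hNsE).trans hsum
  have hk2 : 2 * k + p * (p + 2) ≤ p * (p + 2) * f := by
    have h3 : p * (2 * k + p * (p + 2)) ≤ p * (p * (p + 2) * f) := by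
      calc p * (2 * k + p * (p + 2)) = p * (p * (p + 2)) + k * (2 * p) := by ring
        _ ≤ p * (p + 2) * p * f := hk1
        _ = p * (p * (p + 2) * f) := by ring
    exact Nat.le_of_mul_le_mul_left h3 hp0
  have hn : Fintype.card L = p + k + N := by
    have h3 := Finset.card_filter_add_card_filter_not (s := (Finset.univ : Finset L))
      (fun l : L => HasEV ((l : GeneralLinearGroup (Fin 2) F) : Matrix (Fin 2) (Fin 2) F))
    have h4 : (Finset.univ.filter fun l : L =>
        HasEV ((l : GeneralLinearGroup (Fin 2) F) : Matrix (Fin 2) (Fin 2) F)) =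
        (Finset.univ.filter fun l : L =>
          ∃ c : F, ∀ v, ac (l : GeneralLinearGroup (Fin 2) F) v = c • v) ∪
        (Finset.univ.filter fun l : L =>
          HasEV ((l : GeneralLinearGroup (Fin 2) F) : Matrix (Fin 2) (Fin 2) F) ∧
          ¬ ∃ c : F, ∀ v, ac (l : GeneralLinearGroup (Fin 2) F) v = c • v) := by
      ext l
      simp only [Finset.mem_filter, Finset.mem_union, Finset.mem_univ, true_and]
      constructor
      · intro h
        by_cases h' : ∃ c : F, ∀ v, ac (l : GeneralLinearGroup (Fin 2) F) v = c • v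
        · exact Or.inl h'
        · exact Or.inr ⟨h, h'⟩
      · rintro (⟨c, hc⟩ | ⟨h, -⟩)
        · exact ⟨![1, 0], c, he₀, hc _⟩
        · exact h
    rw [h4, Finset.card_union_of_disjoint hdis, hSc, hk, Finset.card_univ] at h3
    rw [Nat.card_eq_fintype_card, Fintype.card_subtype] at hN
    rw [← h3, hN]
  rw [hN, Nat.card_eq_fintype_card, hp]
  exact cntL_arith hB hk2 hn h2

end Lin43
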