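import Pool.Agent.Lib.MP_43150e_al.Lin.Pen
import Pool.Agent.Lib.MP_43150e_al.Lin.CntL

/-! # Counting elements without eigenvector (paragraph 5, T3, upper bound)

`cntL` is in `CntL.lean`. -/

set_option autoImplicit false

namespace Lin43

open Matrix

section Blk

variable {F : Type*} [Field F] {m : ℕ}

/-- the first unit vector -/
def ce0 (m : ℕ) (F : Type*) [Field F] : Fin (m + 1) → F := Fin.cons 1 0

theorem cnt_e0_ne : ce0 m F ≠ 0 := by
  intro h
  have h1 := congrFun h 0
  exact one_ne_zero h1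

theorem cnt_cons_smul (x c : F) (y : Fin m → F) :
    c • (Fin.cons x y : Fin (m + 1) → F) = Fin.cons (c * x) (c • y) := by
  funext i
  refine Fin.cases ?_ (fun i => ?_) i
  · rfl
  · rfl

theorem cnt_blk_e0 (a : F) (w : Fin m → F) (D : Matrix (Fin m) (Fin m) F) :
    (blk a w D).mulVec (ce0 m F) = a • ce0 m F := by
  unfold ce0
  rw [blk_mulVec, cnt_cons_smul]
  simp

theorem cnt_exists_blk {M : Matrix (Fin (m + 1)) (Fin (m + 1)) F} {c : F}
    (h : M.mulVec (ce0 m F) = c • ce0 m F) : ∃ (w : Fin m → F) (D : Matrix (Fin m) (Fin m) F),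
      M = blk c w D := by
  have h1 : ∀ i, M i 0 = (c • ce0 m F) i := by
    intro i
    rw [← h]
    unfold ce0 Matrix.mulVec
    rw [dotProduct, Fin.sum_univ_succ]
    simp
  refine ⟨fun j => M 0 j.succ, Matrix.of fun i j => M i.succ j.succ, ?_⟩
  ext i j
  refine Fin.cases ?_ (fun i => ?_) i
  · refine Fin.cases ?_ (fun j => ?_) j
    · rw [blk_zz, h1]
      simp [ce0]
    · rw [blk_zs]
  · refine Fin.cases ?_ (fun j => ?_) j
    · rw [blk_sz, h1]
      simp [ce0]
    · rw [blk_ss]
      rfl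

/-- if `D` has no eigenvector then the only eigenline of `blk a w D` is the first one -/
theorem cnt_line {a : F} {w : Fin m → F} {D : Matrix (Fin m) (Fin m) F} (hD : ¬ HasEV D)
    {v : Fin (m + 1) → F} {c : F} (h : (blk a w D).mulVec v = c • v) :
    ∃ x : F, v = x • ce0 m F := by
  obtain ⟨x, y, rfl⟩ : ∃ (x : F) (y : Fin m → F), v = Fin.cons x y :=
    ⟨v 0, Fin.tail v, (Fin.cons_self_tail v).symm⟩
  rw [blk_mulVec, cnt_cons_smul, Fin.cons_inj] at h
  have hy : y = 0 := by
    by_contra hy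
    exact hD ⟨y, c, hy, h.2⟩
  refine ⟨x, ?_⟩
  unfold ce0
  rw [cnt_cons_smul, hy, mul_one, smul_zero]

end Blk

section K

variable {F : Type*} [Field F] [Fintype F] (K : Subgroup (GeneralLinearGroup (Fin 3) F))

/-- the elements which fix the first line form a set with `|pen K|` fibres of the same size `t`; the
elements whose block has no eigenvector consist of full fibres -/
theorem cnt_fib [DecidableEq F] [Fintype K] [Fintype (pen K)]
    [DecidablePred fun k : K => ∃ c : F, ac (k : GeneralLinearGroup (Fin 3) F) (ce0 2 F) =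
      c • ce0 2 F]
    [DecidablePred fun k : K => ∃ (a : F) (w : Fin 2 → F) (D : Matrix (Fin 2) (Fin 2) F),
      ((k : GeneralLinearGroup (Fin 3) F) : Matrix (Fin 3) (Fin 3) F) = blk a w D ∧ ¬ HasEV D]
    [DecidablePred fun l : pen K => ¬ HasEV ((l : GeneralLinearGroup (Fin 2) F) :
      Matrix (Fin 2) (Fin 2) F)] :
    ∃ t : ℕ, 0 < t ∧
      (Finset.univ.filter fun k : K => ∃ c : F, ac (k : GeneralLinearGroup (Fin 3) F)
        (ce0 2 F) = c • ce0 2 F).card ≤ Fintype.card (pen K) * t ∧
      (Finset.univ.filter fun l : pen K => ¬ HasEV ((l : GeneralLinearGroup (Fin 2) F) :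
        Matrix (Fin 2) (Fin 2) F)).card * t ≤
      (Finset.univ.filter fun k : K => ∃ (a : F) (w : Fin 2 → F) (D : Matrix (Fin 2) (Fin 2) F),
        ((k : GeneralLinearGroup (Fin 3) F) : Matrix (Fin 3) (Fin 3) F) = blk a w D ∧
        ¬ HasEV D).card := by
  classical
  obtain ⟨t, ht⟩ : ∃ t, (Finset.univ.filter fun k : K => ∃ (a : F) (w : Fin 2 → F),
      ((k : GeneralLinearGroup (Fin 3) F) : Matrix (Fin 3) (Fin 3) F) =
        blk a w (1 : Matrix (Fin 2) (Fin 2) F)).card = t := ⟨_, rfl⟩
  have ht0 : 0 < t := by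
    rw [← ht, Finset.card_pos]
    exact ⟨1, Finset.mem_filter.2 ⟨Finset.mem_univ _, 1, 0, by
      rw [blk_one, Subgroup.coe_one, Units.val_one]⟩⟩
  have hfib : ∀ l : pen K, (Finset.univ.filter fun k : K => ∃ (a : F) (w : Fin 2 → F),
      ((k : GeneralLinearGroup (Fin 3) F) : Matrix (Fin 3) (Fin 3) F) =
        blk a w ((l : GeneralLinearGroup (Fin 2) F) : Matrix (Fin 2) (Fin 2) F)).card = t := by
    intro l
    obtain ⟨a, w, g, hg, hgl⟩ := (mem_pen K l).1 l.2
    rw [← ht]
    have ha : a ≠ 0 := by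
      rintro rfl
      have h1 : ac g (ce0 2 F) = (0 : F) • ce0 2 F := by
        unfold ac
        rw [hgl, cnt_blk_e0]
      rw [zero_smul] at h1
      exact ac_ne g cnt_e0_ne h1
    apply Finset.card_nbij' (fun k => (⟨g, hg⟩ : K)⁻¹ * k) (fun k => (⟨g, hg⟩ : K) * k)
    · intro k hk
      simp only [Finset.coe_filter, Finset.mem_univ, true_and, Set.mem_ofPred_eq] at hk ⊢
      obtain ⟨a', w', hk⟩ := hk
      have h1 : ac (((⟨g, hg⟩ : K)⁻¹ * k : K) : GeneralLinearGroup (Fin 3) F) (ce0 2 F) =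
          (a' * a⁻¹) • ce0 2 F := by
        rw [Subgroup.coe_mul, Subgroup.coe_inv, ac_mul, ac_inv_eq]
        unfold ac
        rw [hk, cnt_blk_e0, Matrix.mulVec_smul, hgl, cnt_blk_e0, smul_smul,
          inv_mul_cancel_right₀ ha]
      obtain ⟨w'', D, hD⟩ := cnt_exists_blk h1
      have h2 : (k : GeneralLinearGroup (Fin 3) F) =
          g * (((⟨g, hg⟩ : K)⁻¹ * k : K) : GeneralLinearGroup (Fin 3) F) := by
        rw [Subgroup.coe_mul, Subgroup.coe_inv, mul_inv_cancel_left]
      have h3 := congrArg (fun x : GeneralLinearGroup (Fin 3) F =>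
        (x : Matrix (Fin 3) (Fin 3) F)) h2
      simp only [Units.val_mul] at h3
      rw [hk, hgl] at h3
      change _ = _ * (((⟨g, hg⟩ : K)⁻¹ * k : K) : GeneralLinearGroup (Fin 3) F).val at h3
      rw [hD, blk_mul] at h3
      have h4 := (blk_inj h3).2.2
      have h5 : D = 1 := by
        have h6 : ((l : GeneralLinearGroup (Fin 2) F)⁻¹ : GeneralLinearGroup (Fin 2) F).val *
            (l : GeneralLinearGroup (Fin 2) F).val = 1 := by
          rw [← Units.val_mul, inv_mul_cancel, Units.val_one]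
        calc D = (((l : GeneralLinearGroup (Fin 2) F)⁻¹ : GeneralLinearGroup (Fin 2) F).val *
            (l : GeneralLinearGroup (Fin 2) F).val) * D := by rw [h6, one_mul]
          _ = ((l : GeneralLinearGroup (Fin 2) F)⁻¹ : GeneralLinearGroup (Fin 2) F).val *
            (l : GeneralLinearGroup (Fin 2) F).val := by rw [mul_assoc, ← h4]
          _ = 1 := h6
      rw [h5] at hD
      exact ⟨_, _, hD⟩
    · intro k hk
      simp only [Finset.coe_filter, Finset.mem_univ, true_and, Set.mem_ofPred_eq] at hk ⊢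
      obtain ⟨a', w', hk⟩ := hk
      rw [Subgroup.coe_mul, Units.val_mul, hk]
      change ∃ a w, (g : Matrix (Fin 3) (Fin 3) F) * _ = _
      rw [hgl, blk_mul, mul_one]
      exact ⟨_, _, rfl⟩
    · intro k _
      simp only
      group
    · intro k _
      simp only
      group
  refine ⟨t, ht0, ?_, ?_⟩
  · have h1 : (Finset.univ.filter fun k : K => ∃ c : F, ac (k : GeneralLinearGroup (Fin 3) F)
        (ce0 2 F) = c • ce0 2 F) ⊆ (Finset.univ : Finset (pen K)).biUnion fun l =>
        Finset.univ.filter fun k : K => ∃ (a : F) (w : Fin 2 → F),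
          ((k : GeneralLinearGroup (Fin 3) F) : Matrix (Fin 3) (Fin 3) F) =
          blk a w ((l : GeneralLinearGroup (Fin 2) F) : Matrix (Fin 2) (Fin 2) F) := by
      intro k hk
      rw [Finset.mem_filter] at hk
      obtain ⟨-, c, hk⟩ := hk
      obtain ⟨w, D, hD⟩ := cnt_exists_blk hk
      have hdet : D.det ≠ 0 := by
        intro h2
        have h3 : ((k : GeneralLinearGroup (Fin 3) F) : Matrix (Fin 3) (Fin 3) F).det = 0 := by
          rw [hD, blk_det, h2, mul_zero]
        exact (Matrix.GeneralLinearGroup.det_ne_zero (k : GeneralLinearGroup (Fin 3) F)) h3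
      rw [Finset.mem_biUnion]
      refine ⟨⟨Matrix.GeneralLinearGroup.mkOfDetNeZero D hdet, ?_⟩, Finset.mem_univ _,
        Finset.mem_filter.2 ⟨Finset.mem_univ _, c, w, hD⟩⟩
      rw [mem_pen]
      exact ⟨c, w, k, k.2, hD⟩
    refine (Finset.card_le_card h1).trans (Finset.card_biUnion_le.trans ?_)
    rw [Finset.sum_congr rfl fun l _ => hfib l, Finset.sum_const, Finset.card_univ, smul_eq_mul]
  · have h1 : (Finset.univ.filter fun l : pen K => ¬ HasEV
        ((l : GeneralLinearGroup (Fin 2) F) : Matrix (Fin 2) (Fin 2) F)).biUnion (fun l =>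
        Finset.univ.filter fun k : K => ∃ (a : F) (w : Fin 2 → F),
          ((k : GeneralLinearGroup (Fin 3) F) : Matrix (Fin 3) (Fin 3) F) =
          blk a w ((l : GeneralLinearGroup (Fin 2) F) : Matrix (Fin 2) (Fin 2) F)) ⊆
        Finset.univ.filter fun k : K => ∃ (a : F) (w : Fin 2 → F) (D : Matrix (Fin 2) (Fin 2) F),
          ((k : GeneralLinearGroup (Fin 3) F) : Matrix (Fin 3) (Fin 3) F) = blk a w D ∧
          ¬ HasEV D := by
      intro k hk
      rw [Finset.mem_biUnion] at hk
      obtain ⟨l, hl, hk⟩ := hk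
      rw [Finset.mem_filter] at hl hk ⊢
      obtain ⟨-, a, w, hk⟩ := hk
      exact ⟨Finset.mem_univ _, a, w, _, hk, hl.2⟩
    refine le_trans (le_of_eq ?_) (Finset.card_le_card h1)
    rw [Finset.card_biUnion, Finset.sum_congr rfl fun l _ => hfib l, Finset.sum_const,
      smul_eq_mul]
    intro l _ l' _ hll
    change Disjoint _ _
    rw [Finset.disjoint_left]
    intro k hk hk'
    rw [Finset.mem_filter] at hk hk'
    obtain ⟨-, a, w, hk⟩ := hk
    obtain ⟨-, a', w', hk'⟩ := hk'
    rw [hk] at hk'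
    exact hll (Subtype.ext (Units.ext (blk_inj hk').2.2))

end K

/-- `K ≤ GL_3(F)` transitive on points. An element `k` fixing the point `P` and no line through `P` has `P`
as its only fixed point; for `P = ⟨e_0⟩`, `k = blk a w D`, this means `D ∈ pen K` has no eigenvector. So the
share of elements of `K` with an eigenvector is at least the share of elements of `pen K` without
eigenvector. -/
theorem cntK {F : Type*} [Field F] [Fintype F] (K : Subgroup (GeneralLinearGroup (Fin 3) F))
    (htr : ∀ v v' : Fin 3 → F, v ≠ 0 → v' ≠ 0 → ∃ k ∈ K, ∃ c : F, c ≠ 0 ∧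
      (k : Matrix (Fin 3) (Fin 3) F).mulVec v = c • v') :
    Nat.card K * Nat.card {l : pen K // ¬ HasEV ((l : GeneralLinearGroup (Fin 2) F) :
        Matrix (Fin 2) (Fin 2) F)} +
      Nat.card (pen K) * Nat.card {k : K // ¬ HasEV ((k : GeneralLinearGroup (Fin 3) F) :
        Matrix (Fin 3) (Fin 3) F)} ≤ Nat.card K * Nat.card (pen K) := by
  classical
  have : Fintype K := Fintype.ofFinite K
  have : Fintype (pen K) := Fintype.ofFinite (pen K)
  obtain ⟨t, ht0, ht1, ht2⟩ := cnt_fib K
  have hmain : Fintype.card K * (Finset.univ.filter fun k : K => ∃ (a : F) (w : Fin 2 → F)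
      (D : Matrix (Fin 2) (Fin 2) F), ((k : GeneralLinearGroup (Fin 3) F) :
        Matrix (Fin 3) (Fin 3) F) = blk a w D ∧ ¬ HasEV D).card ≤
      (Finset.univ.filter fun k : K => ∃ c : F, ac (k : GeneralLinearGroup (Fin 3) F)
        (ce0 2 F) = c • ce0 2 F).card *
      (Finset.univ.filter fun k : K => HasEV ((k : GeneralLinearGroup (Fin 3) F) :
        Matrix (Fin 3) (Fin 3) F)).card := by
    rw [← Finset.card_univ (α := K), ← Finset.card_product]
    apply Finset.card_le_mul_card_image_of_maps_to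
      (f := fun x : K × K => x.1 * x.2 * x.1⁻¹)
    · rintro ⟨g, k⟩ hx
      simp only [Finset.mem_product, Finset.mem_filter, Finset.mem_univ, true_and] at hx ⊢
      obtain ⟨a, w, D, hk, -⟩ := hx
      refine ⟨ac (g : GeneralLinearGroup (Fin 3) F) (ce0 2 F), a, ac_ne _ cnt_e0_ne, ?_⟩
      change ac ((g * k * g⁻¹ : K) : GeneralLinearGroup (Fin 3) F) _ = _
      rw [Subgroup.coe_mul, Subgroup.coe_mul, Subgroup.coe_inv, ac_mul, ac_inv, ac_mul,
        ← ac_smul]
      congr 1
      unfold ac
      rw [hk, cnt_blk_e0]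
    · intro e _
      rcases Finset.eq_empty_or_nonempty ((Finset.univ ×ˢ Finset.univ.filter fun k : K =>
        ∃ (a : F) (w : Fin 2 → F) (D : Matrix (Fin 2) (Fin 2) F),
          ((k : GeneralLinearGroup (Fin 3) F) : Matrix (Fin 3) (Fin 3) F) = blk a w D ∧
          ¬ HasEV D).filter fun x : K × K => x.1 * x.2 * x.1⁻¹ = e) with h | ⟨⟨g₀, k₀⟩, h₀⟩
      · rw [h, Finset.card_empty]
        exact Nat.zero_le _
      · simp only [Finset.mem_product, Finset.mem_filter, Finset.mem_univ, true_and] at h₀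
        obtain ⟨⟨a₀, w₀, D₀, hk₀, hD₀⟩, he₀⟩ := h₀
        apply Finset.card_le_card_of_injOn (fun x : K × K => g₀⁻¹ * x.1)
        · rintro ⟨g, k⟩ hx
          simp only [Finset.coe_filter, Finset.mem_product, Finset.mem_filter, Finset.mem_univ,
            true_and, Set.mem_ofPred_eq] at hx ⊢
          obtain ⟨⟨a, w, D, hk, -⟩, he⟩ := hx
          have h1 : k₀ * (g₀⁻¹ * g) = g₀⁻¹ * g * k := by
            have h2 : g₀ * k₀ * g₀⁻¹ = g * k * g⁻¹ := by rw [he₀, he]
            calc k₀ * (g₀⁻¹ * g) = g₀⁻¹ * (g₀ * k₀ * g₀⁻¹) * g := by group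
              _ = g₀⁻¹ * g * k := by rw [h2]; group
          have h2 : ac (k₀ : GeneralLinearGroup (Fin 3) F)
              (ac ((g₀⁻¹ * g : K) : GeneralLinearGroup (Fin 3) F) (ce0 2 F)) =
              a • ac ((g₀⁻¹ * g : K) : GeneralLinearGroup (Fin 3) F) (ce0 2 F) := by
            rw [← ac_mul, ← Subgroup.coe_mul, h1, Subgroup.coe_mul, ac_mul, ← ac_smul]
            congr 1
            unfold ac
            rw [hk, cnt_blk_e0]
          unfold ac at h2
          rw [hk₀] at h2
          exact cnt_line hD₀ h2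
        · rintro ⟨g, k⟩ hx ⟨g', k'⟩ hx' hgg
          simp only [Finset.coe_filter, Finset.mem_product, Finset.mem_filter, Finset.mem_univ,
            true_and, Set.mem_ofPred_eq] at hx hx' hgg
          have h1 : g = g' := mul_left_cancel hgg
          subst h1
          have h2 : g * k * g⁻¹ = g * k' * g⁻¹ := by rw [hx.2, hx'.2]
          rw [mul_left_cancel (mul_right_cancel h2)]
  -- conclusion
  have hE := Finset.card_filter_add_card_filter_not (s := (Finset.univ : Finset K))
    (fun k : K => HasEV ((k : GeneralLinearGroup (Fin 3) F) : Matrix (Fin 3) (Fin 3) F))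
  rw [Finset.card_univ] at hE
  have hL : Nat.card {l : pen K // ¬ HasEV ((l : GeneralLinearGroup (Fin 2) F) :
        Matrix (Fin 2) (Fin 2) F)} = (Finset.univ.filter fun l : pen K => ¬ HasEV
        ((l : GeneralLinearGroup (Fin 2) F) : Matrix (Fin 2) (Fin 2) F)).card := by
    rw [Nat.card_eq_fintype_card, Fintype.card_subtype]
  have hN : Nat.card {k : K // ¬ HasEV ((k : GeneralLinearGroup (Fin 3) F) :
        Matrix (Fin 3) (Fin 3) F)} = (Finset.univ.filter fun k : K => ¬ HasEV
        ((k : GeneralLinearGroup (Fin 3) F) : Matrix (Fin 3) (Fin 3) F)).card := by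
    rw [Nat.card_eq_fintype_card, Fintype.card_subtype]
  rw [hL, hN, Nat.card_eq_fintype_card (α := K), Nat.card_eq_fintype_card (α := pen K)]
  clear hL hN
  generalize (Finset.univ.filter fun k : K => ∃ (a : F) (w : Fin 2 → F)
      (D : Matrix (Fin 2) (Fin 2) F), ((k : GeneralLinearGroup (Fin 3) F) :
        Matrix (Fin 3) (Fin 3) F) = blk a w D ∧ ¬ HasEV D).card = cA at *
  generalize (Finset.univ.filter fun k : K => ∃ c : F, ac (k : GeneralLinearGroup (Fin 3) F)
        (ce0 2 F) = c • ce0 2 F).card = cP at *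
  generalize (Finset.univ.filter fun k : K => HasEV ((k : GeneralLinearGroup (Fin 3) F) :
        Matrix (Fin 3) (Fin 3) F)).card = cE at *
  generalize (Finset.univ.filter fun k : K => ¬ HasEV ((k : GeneralLinearGroup (Fin 3) F) :
        Matrix (Fin 3) (Fin 3) F)).card = cN at *
  generalize (Finset.univ.filter fun l : pen K => ¬ HasEV
        ((l : GeneralLinearGroup (Fin 2) F) : Matrix (Fin 2) (Fin 2) F)).card = cL at *
  generalize Fintype.card K = nK at *
  generalize Fintype.card (pen K) = nL at *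
  have h1 : nK * cL ≤ nL * cE := by
    have h2 : t * (nK * cL) ≤ t * (nL * cE) := by
      calc t * (nK * cL) = nK * (cL * t) := by ring
        _ ≤ nK * cA := Nat.mul_le_mul_left _ ht2
        _ ≤ cP * cE := hmain
        _ ≤ nL * t * cE := Nat.mul_le_mul_right _ ht1
        _ = t * (nL * cE) := by ring
    exact Nat.le_of_mul_le_mul_left h2 ht0
  calc nK * cL + nL * cN ≤ nL * cE + nL * cN := Nat.add_le_add_right h1 _
    _ = nL * (cE + cN) := by ring
    _ = nK * nL := by rw [hE, mul_comm]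

/-- A group transitive on the points has order divisible by `q² + q + 1`. -/
theorem dvd_card_of_point_trans {F : Type*} [Field F] [Fintype F]
    (K : Subgroup (GeneralLinearGroup (Fin 3) F))
    (htr : ∀ v v' : Fin 3 → F, v ≠ 0 → v' ≠ 0 → ∃ k ∈ K, ∃ c : F, c ≠ 0 ∧
      (k : Matrix (Fin 3) (Fin 3) F).mulVec v = c • v') :
    Fintype.card F ^ 2 + Fintype.card F + 1 ∣ Nat.card K := by
  classical
  have : Fintype K := Fintype.ofFinite K
  obtain ⟨p, hp⟩ : ∃ p, Fintype.card F = p + 1 :=
    Nat.exists_eq_succ_of_ne_zero Fintype.card_ne_zero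
  have hp0 : 0 < p := by
    have h3 : 1 < Fintype.card F := Fintype.one_lt_card
    omega
  have hU : (Finset.univ.filter fun v : Fin 3 → F => v ≠ 0).card = p * (p ^ 2 + 3 * p + 3) := by
    have h3 := card_nonzero (F := F) 3 hp
    have h4 : (p + 1) ^ 3 = p * (p ^ 2 + 3 * p + 3) + 1 := by ring
    omega
  have hFx : (Finset.univ.filter fun v : F => v ≠ 0).card = p := by
    have h3 := card_units' (F := F) hp
    omega
  obtain ⟨P, hP⟩ : ∃ P, (Finset.univ.filter fun k : K => ∃ c : F, c ≠ 0 ∧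
      ac (k : GeneralLinearGroup (Fin 3) F) (ce0 2 F) = c • ce0 2 F).card = P := ⟨_, rfl⟩
  have hdc := Finset.sum_card_bipartiteAbove_eq_sum_card_bipartiteBelow
    (s := (Finset.univ : Finset K)) (t := Finset.univ.filter fun v : Fin 3 → F => v ≠ 0)
    (fun (k : K) (v : Fin 3 → F) => ∃ c : F, c ≠ 0 ∧
      ac (k : GeneralLinearGroup (Fin 3) F) (ce0 2 F) = c • v)
  have hl : ∀ k : K, ((Finset.univ.filter fun v : Fin 3 → F => v ≠ 0).bipartiteAbove
      (fun (k : K) (v : Fin 3 → F) => ∃ c : F, c ≠ 0 ∧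
        ac (k : GeneralLinearGroup (Fin 3) F) (ce0 2 F) = c • v) k).card = p := by
    intro k
    rw [← hFx]
    symm
    apply Finset.card_bij (fun (c : F) _ => c • ac (k : GeneralLinearGroup (Fin 3) F) (ce0 2 F))
    · intro c hc
      simp only [Finset.mem_filter, Finset.mem_univ, true_and] at hc
      simp only [Finset.bipartiteAbove, Finset.mem_filter, Finset.mem_univ, true_and]
      refine ⟨smul_ne_zero hc (ac_ne _ cnt_e0_ne), c⁻¹, inv_ne_zero hc, ?_⟩
      rw [smul_smul, inv_mul_cancel₀ hc, one_smul]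
    · intro c _ c' _ h
      exact smul_left_injective F (ac_ne _ cnt_e0_ne) h
    · intro v hv
      simp only [Finset.bipartiteAbove, Finset.mem_filter, Finset.mem_univ, true_and] at hv
      obtain ⟨-, c, hc, hcv⟩ := hv
      refine ⟨c⁻¹, ?_, ?_⟩
      · simp only [Finset.mem_filter, Finset.mem_univ, true_and]
        exact inv_ne_zero hc
      · rw [hcv, smul_smul, inv_mul_cancel₀ hc, one_smul]
  have hr : ∀ v ∈ (Finset.univ.filter fun v : Fin 3 → F => v ≠ 0),
      ((Finset.univ : Finset K).bipartiteBelow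
      (fun (k : K) (v : Fin 3 → F) => ∃ c : F, c ≠ 0 ∧
        ac (k : GeneralLinearGroup (Fin 3) F) (ce0 2 F) = c • v) v).card = P := by
    intro v hv
    simp only [Finset.mem_filter, Finset.mem_univ, true_and] at hv
    obtain ⟨g, hg, d, hd, hgv⟩ := htr (ce0 2 F) v cnt_e0_ne hv
    have hgi : ac g⁻¹ v = d⁻¹ • ce0 2 F := by
      rw [ac_inv_eq, ac_smul]
      change _ = d⁻¹ • g.val.mulVec (ce0 2 F)
      rw [hgv, smul_smul, inv_mul_cancel₀ hd, one_smul]
    rw [← hP]
    apply Finset.card_nbij' (fun k => (⟨g, hg⟩ : K)⁻¹ * k) (fun k => (⟨g, hg⟩ : K) * k)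
    · intro k hk
      simp only [Finset.bipartiteBelow, Finset.coe_filter, Finset.mem_univ, true_and,
        Set.mem_ofPred_eq] at hk ⊢
      obtain ⟨c, hc, hcv⟩ := hk
      refine ⟨c * d⁻¹, mul_ne_zero hc (inv_ne_zero hd), ?_⟩
      rw [Subgroup.coe_mul, Subgroup.coe_inv, ac_mul, hcv, ac_smul, hgi, smul_smul]
    · intro k hk
      simp only [Finset.bipartiteBelow, Finset.coe_filter, Finset.mem_univ, true_and,
        Set.mem_ofPred_eq] at hk ⊢
      obtain ⟨c, hc, hcv⟩ := hk
      refine ⟨c * d, mul_ne_zero hc hd, ?_⟩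
      rw [Subgroup.coe_mul, ac_mul, hcv, ac_smul]
      change c • g.val.mulVec (ce0 2 F) = _
      rw [hgv, smul_smul]
    · intro k _
      simp only
      group
    · intro k _
      simp only
      group
  rw [Finset.sum_congr rfl fun k _ => hl k, Finset.sum_congr rfl hr, Finset.sum_const,
    Finset.sum_const, Finset.card_univ, hU, smul_eq_mul, smul_eq_mul] at hdc
  rw [Nat.card_eq_fintype_card, hp]
  refine ⟨P, ?_⟩
  have h1 : p * Fintype.card K = p * (((p + 1) ^ 2 + (p + 1) + 1) * P) := by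
    rw [mul_comm, hdc]
    ring
  exact Nat.eq_of_mul_eq_mul_left hp0 h1

end Lin43
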