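import Mathlib
import Pool.Agent.Lib.MP_43150e_al.AffPoly

/-! # `ℚ[C_l]` modulo constants is irreducible, `l` prime -/

set_option autoImplicit false

namespace Lin43

/-- A translation invariant nonzero space of functions with sum zero on a group of prime order
contains all functions with sum zero. (The cyclotomic polynomial is irreducible; compare
`Pool.Agent.Lib.MP_43150e_al.AffPoly`.) -/
theorem cyc_irr {C : Type*} [CommGroup C] [Fintype C] (hC : (Fintype.card C).Prime)
    (W : Submodule ℚ (C → ℚ)) (hW : ∀ c : C, ∀ f ∈ W, (fun x => f (c * x)) ∈ W)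
    (hne : ∃ f ∈ W, f ≠ 0 ∧ ∑ x, f x = 0) (f : C → ℚ) (hf : ∑ x, f x = 0) : f ∈ W := by
  obtain ⟨u, huW, hu0, hus⟩ := hne
  generalize hl : Fintype.card C = l at hC
  have hp : Fact l.Prime := ⟨hC⟩
  have h1 : Nat.card C = l := by rw [Nat.card_eq_fintype_card, hl]
  have h2 : Nat.card (Multiplicative (ZMod l)) = l := by simp
  let e : Multiplicative (ZMod l) ≃* C := mulEquivOfPrimeCardEq h2 h1
  let φ : ZMod l ≃ C := Multiplicative.ofAdd.trans e.toEquiv
  have hφ : ∀ x : C, φ.symm (φ 1 * x) = φ.symm x + 1 := by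
    intro x
    rw [Equiv.symm_apply_eq]
    show e (Multiplicative.ofAdd 1) * x = e (Multiplicative.ofAdd (φ.symm x + 1))
    rw [ofAdd_add, map_mul, mul_comm]
    congr 1
    exact (φ.apply_symm_apply x).symm
  let W' : Submodule ℚ (ZMod l → ℚ) := W.comap (LinearMap.funLeft ℚ ℚ φ.symm)
  have mW : ∀ g : C → ℚ, g ∈ W ↔ (fun i => g (φ i)) ∈ W' := by
    intro g
    have : (LinearMap.funLeft ℚ ℚ φ.symm) (fun i => g (φ i)) = g := by
      funext x
      simp [LinearMap.funLeft_apply]
    rw [Submodule.mem_comap, this]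
  have mS : ∀ g : C → ℚ, ∑ i, g (φ i) = ∑ x, g x := fun g => φ.sum_comp g
  rw [mW]
  refine Spr43.aff_zp W' ?_ (fun i => u (φ i)) ((mW u).1 huW) ?_ (by rw [mS]; exact hus) _
    (by rw [mS]; exact hf)
  · intro v hv
    rw [Submodule.mem_comap] at hv ⊢
    have h3 := hW (φ 1) _ hv
    convert h3 using 1
    funext x
    simp only [LinearMap.funLeft_apply]
    rw [hφ]
  · intro h0
    apply hu0
    funext x
    have := congrFun h0 (φ.symm x)
    simpa using this

end Lin43
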