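import Mathlib

/-!
# Linear socles, basic definitions (project LIN, MP_43150e_al)

Paper proof: /team-store/h12_linear.md.
-/

set_option autoImplicit false

namespace Lin43

open Matrix

/-- Upper triangular. -/
def UT {n : ℕ} {F : Type*} [Zero F] (M : Matrix (Fin n) (Fin n) F) : Prop :=
  ∀ i j : Fin n, j < i → M i j = 0

/-- Upper unitriangular. -/
def UU {n : ℕ} {F : Type*} [Zero F] [One F] (M : Matrix (Fin n) (Fin n) F) : Prop :=
  UT M ∧ ∀ i, M i i = 1

/-- The matrix `1 + v ⊗ φ`, a transvection if `φ ⬝ v = 0`, `v ≠ 0`, `φ ≠ 0`. -/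
def tv {n : ℕ} {F : Type*} [CommRing F] (v φ : Fin n → F) : Matrix (Fin n) (Fin n) F :=
  1 + vecMulVec v φ

/-- The block matrix `[[a, w], [0, D]]`. -/
def blk {m : ℕ} {F : Type*} [Zero F] (a : F) (w : Fin m → F) (D : Matrix (Fin m) (Fin m) F) :
    Matrix (Fin (m + 1)) (Fin (m + 1)) F :=
  Matrix.of (Fin.cons (Fin.cons a w) (fun i => Fin.cons 0 (D i)))

/-- `M` has an eigenvector in `F^n`. -/
def HasEV {n : ℕ} {F : Type*} [Field F] (M : Matrix (Fin n) (Fin n) F) : Prop :=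
  ∃ (v : Fin n → F) (c : F), v ≠ 0 ∧ M.mulVec v = c • v

/-- The matrix `M` belongs to the subgroup `K` of `SL_n`. -/
def inS {n : ℕ} {F : Type*} [Field F] (K : Subgroup (SpecialLinearGroup (Fin n) F))
    (M : Matrix (Fin n) (Fin n) F) : Prop :=
  ∃ k ∈ K, (k : Matrix (Fin n) (Fin n) F) = M

/-- The matrix `M` belongs to the subgroup `K` of `GL_n`. -/
def inG {n : ℕ} {F : Type*} [Field F] (K : Subgroup (GeneralLinearGroup (Fin n) F))
    (M : Matrix (Fin n) (Fin n) F) : Prop :=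
  ∃ k ∈ K, (k : Matrix (Fin n) (Fin n) F) = M

/-- `K ≤ GL_n` is transitive on the full flags: `K B = GL_n`. -/
def FlagTr {n : ℕ} {F : Type*} [Field F] (K : Subgroup (GeneralLinearGroup (Fin n) F)) : Prop :=
  ∀ g : GeneralLinearGroup (Fin n) F, ∃ k ∈ K, UT ((k⁻¹ * g : GeneralLinearGroup (Fin n) F) :
    Matrix (Fin n) (Fin n) F)

/-- `K ≤ GL_n` contains `SL_n`. -/
def ContainsSL {n : ℕ} {F : Type*} [Field F]
    (K : Subgroup (GeneralLinearGroup (Fin n) F)) : Prop :=
  ∀ s : SpecialLinearGroup (Fin n) F, inG K (s : Matrix (Fin n) (Fin n) F)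

/-- The projection `SL_n → PSL_n`. -/
abbrev toP (n : ℕ) (F : Type*) [Field F] :
    SpecialLinearGroup (Fin n) F →* ProjectiveSpecialLinearGroup (Fin n) F :=
  QuotientGroup.mk' (Subgroup.center (SpecialLinearGroup (Fin n) F))

/-- The centraliser condition for a subgroup `K ≤ SL_n` coming from a point stabiliser: the
preimage of the stabiliser of `x` under `SL_n → PSL_n → Γ`. -/
def stabS {n : ℕ} {F Γ Ω : Type*} [Field F] [Group Γ] [MulAction Γ Ω]
    (j : ProjectiveSpecialLinearGroup (Fin n) F →* Γ) (x : Ω) :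
    Subgroup (SpecialLinearGroup (Fin n) F) :=
  (MulAction.stabilizer Γ x).comap (j.comp (toP n F))

theorem mem_stabS {n : ℕ} {F Γ Ω : Type*} [Field F] [Group Γ] [MulAction Γ Ω]
    (j : ProjectiveSpecialLinearGroup (Fin n) F →* Γ) (x : Ω)
    (s : SpecialLinearGroup (Fin n) F) : s ∈ stabS j x ↔ j (toP n F s) • x = x := by
  rw [stabS, Subgroup.mem_comap, MulAction.mem_stabilizer_iff]
  rfl

end Lin43
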