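import Pool.Agent.Lib.MP_43150e_al.Crit
import Pool.Agent.Lib.MP_43150e_al.Lin.AutP

/-! # E2: the criterion with `H` = point stabiliser, `P` = unitriangular group -/

set_option autoImplicit false

namespace Lin43

open Matrix Spr43

/-- Every conjugate of `K` meets `U` outside the kernel of `x_a + x_b`, `a ≠ b` (`x_a` = entry
`(a, a+1)`). -/
def MeetsU {m : ℕ} {F : Type*} [Field F] (K : Subgroup (SpecialLinearGroup (Fin (m + 1)) F)) :
    Prop :=
  ∀ (g : SpecialLinearGroup (Fin (m + 1)) F) (a b : Fin m), a ≠ b →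
    ∃ u : SpecialLinearGroup (Fin (m + 1)) F, UU (u : Matrix (Fin (m + 1)) (Fin (m + 1)) F) ∧
      g * u * g⁻¹ ∈ K ∧
      (u : Matrix (Fin (m + 1)) (Fin (m + 1)) F) a.castSucc a.succ +
        (u : Matrix (Fin (m + 1)) (Fin (m + 1)) F) b.castSucc b.succ ≠ 0

/-- The elements `1 + e_i ⊗ φ` of `U` with `φ_(i+1) = c`. -/
private theorem e2_row {m : ℕ} {F : Type*} [Field F] (i : Fin m) (φ : Fin (m + 1) → F) (c : F)
    (h1 : φ i.succ = c) (h0 : ∀ j, j ≤ i.castSucc → φ j = 0) :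
    ∃ u : SpecialLinearGroup (Fin (m + 1)) F,
      (u : Matrix (Fin (m + 1)) (Fin (m + 1)) F) = tv (Pi.single i.castSucc 1) φ ∧
      UU (u : Matrix (Fin (m + 1)) (Fin (m + 1)) F) ∧
      (u : Matrix (Fin (m + 1)) (Fin (m + 1)) F) i.castSucc i.succ = c ∧
      ∀ j : Fin m, j ≠ i →
        (u : Matrix (Fin (m + 1)) (Fin (m + 1)) F) j.castSucc j.succ = 0 := by
  have hd : φ ⬝ᵥ (Pi.single i.castSucc 1 : Fin (m + 1) → F) = 0 := by
    rw [dotProduct_single, mul_one]
    exact h0 _ le_rfl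
  have hent : ∀ k l : Fin (m + 1), (tv (Pi.single i.castSucc 1 : Fin (m + 1) → F) φ) k l =
      (1 : Matrix (Fin (m + 1)) (Fin (m + 1)) F) k l +
        (if k = i.castSucc then φ l else 0) := by
    intro k l
    rw [tv, Matrix.add_apply, Matrix.vecMulVec_apply, Pi.single_apply]
    split_ifs
    · rw [one_mul]
    · rw [zero_mul]
  refine ⟨tvS (Pi.single i.castSucc 1) φ hd, rfl, ⟨?_, ?_⟩, ?_, ?_⟩
  · intro k l hlk
    change (tv (Pi.single i.castSucc 1 : Fin (m + 1) → F) φ) k l = 0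
    rw [hent, Matrix.one_apply_ne hlk.ne', zero_add]
    split_ifs with hk
    · rw [hk] at hlk
      exact h0 l hlk.le
    · rfl
  · intro k
    change (tv (Pi.single i.castSucc 1 : Fin (m + 1) → F) φ) k k = 1
    rw [hent, Matrix.one_apply_eq]
    split_ifs with hk
    · rw [hk, h0 _ le_rfl, add_zero]
    · rw [add_zero]
  · change (tv (Pi.single i.castSucc 1 : Fin (m + 1) → F) φ) i.castSucc i.succ = c
    rw [hent, Matrix.one_apply_ne (Fin.castSucc_lt_succ (i := i)).ne, zero_add, if_pos rfl, h1]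
  · intro j hj
    change (tv (Pi.single i.castSucc 1 : Fin (m + 1) → F) φ) j.castSucc j.succ = 0
    rw [hent, Matrix.one_apply_ne (Fin.castSucc_lt_succ (i := j)).ne, zero_add, if_neg]
    intro h
    exact hj (Fin.castSucc_injective m h)

/-- The elements `1 + v ⊗ e_(i+1)` of `U` with `v_i = c`. -/
private theorem e2_col {m : ℕ} {F : Type*} [Field F] (i : Fin m) (v : Fin (m + 1) → F) (c : F)
    (h1 : v i.castSucc = c) (h0 : ∀ j, i.succ ≤ j → v j = 0) :
    ∃ u : SpecialLinearGroup (Fin (m + 1)) F,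
      (u : Matrix (Fin (m + 1)) (Fin (m + 1)) F) = tv v (Pi.single i.succ 1) ∧
      UU (u : Matrix (Fin (m + 1)) (Fin (m + 1)) F) ∧
      (u : Matrix (Fin (m + 1)) (Fin (m + 1)) F) i.castSucc i.succ = c ∧
      ∀ j : Fin m, j ≠ i →
        (u : Matrix (Fin (m + 1)) (Fin (m + 1)) F) j.castSucc j.succ = 0 := by
  have hd : (Pi.single i.succ 1 : Fin (m + 1) → F) ⬝ᵥ v = 0 := by
    rw [single_dotProduct, one_mul]
    exact h0 _ le_rfl
  have hent : ∀ k l : Fin (m + 1), (tv v (Pi.single i.succ 1 : Fin (m + 1) → F)) k l =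
      (1 : Matrix (Fin (m + 1)) (Fin (m + 1)) F) k l +
        (if l = i.succ then v k else 0) := by
    intro k l
    rw [tv, Matrix.add_apply, Matrix.vecMulVec_apply, Pi.single_apply]
    split_ifs
    · rw [mul_one]
    · rw [mul_zero]
  refine ⟨tvS v (Pi.single i.succ 1) hd, rfl, ⟨?_, ?_⟩, ?_, ?_⟩
  · intro k l hlk
    change (tv v (Pi.single i.succ 1 : Fin (m + 1) → F)) k l = 0
    rw [hent, Matrix.one_apply_ne hlk.ne', zero_add]
    split_ifs with hk
    · rw [hk] at hlk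
      exact h0 k hlk.le
    · rfl
  · intro k
    change (tv v (Pi.single i.succ 1 : Fin (m + 1) → F)) k k = 1
    rw [hent, Matrix.one_apply_eq]
    split_ifs with hk
    · rw [hk, h0 _ le_rfl, add_zero]
    · rw [add_zero]
  · change (tv v (Pi.single i.succ 1 : Fin (m + 1) → F)) i.castSucc i.succ = c
    rw [hent, Matrix.one_apply_ne (Fin.castSucc_lt_succ (i := i)).ne, zero_add, if_pos rfl, h1]
  · intro j hj
    change (tv v (Pi.single i.succ 1 : Fin (m + 1) → F)) j.castSucc j.succ = 0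
    rw [hent, Matrix.one_apply_ne (Fin.castSucc_lt_succ (i := j)).ne, zero_add, if_neg]
    intro h
    exact hj (Fin.succ_injective m h)

/-- A row vector which kills `v`. -/
private theorem e2_phi {m : ℕ} {F : Type*} [Field F] (v : Fin (m + 1) → F) (a b : Fin m)
    (hab : a ≠ b) (c : F) : ∃ (i : Fin m) (φ : Fin (m + 1) → F), (i = a ∨ i = b) ∧
      φ ⬝ᵥ v = 0 ∧ φ i.succ = c ∧ ∀ j, j ≤ i.castSucc → φ j = 0 := by
  have key : ∀ i k : Fin m, i < k → v k.succ ≠ 0 → ∃ φ : Fin (m + 1) → F,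
      φ ⬝ᵥ v = 0 ∧ φ i.succ = c ∧ ∀ j, j ≤ i.castSucc → φ j = 0 := by
    intro i k hik hk
    refine ⟨Pi.single i.succ c - Pi.single k.succ (c * v i.succ / v k.succ), ?_, ?_, ?_⟩
    · rw [sub_dotProduct, single_dotProduct, single_dotProduct]
      field_simp
      ring
    · rw [Pi.sub_apply, Pi.single_eq_same, Pi.single_eq_of_ne, sub_zero]
      intro h
      exact hik.ne (Fin.succ_injective m h)
    · intro j hj
      have h1 : j < i.succ := lt_of_le_of_lt hj Fin.castSucc_lt_succ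
      have h2 : j < k.succ := h1.trans (Fin.succ_lt_succ_iff.2 hik)
      rw [Pi.sub_apply, Pi.single_eq_of_ne h1.ne, Pi.single_eq_of_ne h2.ne, sub_zero]
  have key0 : ∀ i : Fin m, v i.succ = 0 → ∃ φ : Fin (m + 1) → F,
      φ ⬝ᵥ v = 0 ∧ φ i.succ = c ∧ ∀ j, j ≤ i.castSucc → φ j = 0 := by
    intro i hi
    refine ⟨Pi.single i.succ c, ?_, Pi.single_eq_same _ _, ?_⟩
    · rw [single_dotProduct, hi, mul_zero]
    · intro j hj
      exact Pi.single_eq_of_ne (lt_of_le_of_lt hj Fin.castSucc_lt_succ).ne _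
  by_cases ha : v a.succ = 0
  · obtain ⟨φ, h⟩ := key0 a ha
    exact ⟨a, φ, Or.inl rfl, h⟩
  · by_cases hb : v b.succ = 0
    · obtain ⟨φ, h⟩ := key0 b hb
      exact ⟨b, φ, Or.inr rfl, h⟩
    · rcases lt_or_gt_of_ne hab with h | h
      · obtain ⟨φ, h⟩ := key a b h hb
        exact ⟨a, φ, Or.inl rfl, h⟩
      · obtain ⟨φ, h⟩ := key b a h ha
        exact ⟨b, φ, Or.inr rfl, h⟩

/-- A column vector which is killed by `φ`. -/
private theorem e2_vec {m : ℕ} {F : Type*} [Field F] (φ : Fin (m + 1) → F) (a b : Fin m)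
    (hab : a ≠ b) (c : F) : ∃ (i : Fin m) (v : Fin (m + 1) → F), (i = a ∨ i = b) ∧
      φ ⬝ᵥ v = 0 ∧ v i.castSucc = c ∧ ∀ j, i.succ ≤ j → v j = 0 := by
  have key : ∀ i k : Fin m, k < i → φ k.castSucc ≠ 0 → ∃ v : Fin (m + 1) → F,
      φ ⬝ᵥ v = 0 ∧ v i.castSucc = c ∧ ∀ j, i.succ ≤ j → v j = 0 := by
    intro i k hik hk
    refine ⟨Pi.single i.castSucc c - Pi.single k.castSucc (c * φ i.castSucc / φ k.castSucc),
      ?_, ?_, ?_⟩
    · rw [dotProduct_sub, dotProduct_single, dotProduct_single]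
      field_simp
      ring
    · rw [Pi.sub_apply, Pi.single_eq_same, Pi.single_eq_of_ne, sub_zero]
      intro h
      exact hik.ne' (Fin.castSucc_injective m h)
    · intro j hj
      have h1 : i.castSucc < j := lt_of_lt_of_le Fin.castSucc_lt_succ hj
      have h2 : k.castSucc < j := lt_trans (Fin.castSucc_lt_castSucc_iff.2 hik) h1
      rw [Pi.sub_apply, Pi.single_eq_of_ne h1.ne', Pi.single_eq_of_ne h2.ne', sub_zero]
  have key0 : ∀ i : Fin m, φ i.castSucc = 0 → ∃ v : Fin (m + 1) → F,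
      φ ⬝ᵥ v = 0 ∧ v i.castSucc = c ∧ ∀ j, i.succ ≤ j → v j = 0 := by
    intro i hi
    refine ⟨Pi.single i.castSucc c, ?_, Pi.single_eq_same _ _, ?_⟩
    · rw [dotProduct_single, hi, zero_mul]
    · intro j hj
      exact Pi.single_eq_of_ne (lt_of_lt_of_le Fin.castSucc_lt_succ hj).ne' _
  by_cases ha : φ a.castSucc = 0
  · obtain ⟨v, h⟩ := key0 a ha
    exact ⟨a, v, Or.inl rfl, h⟩
  · by_cases hb : φ b.castSucc = 0
    · obtain ⟨v, h⟩ := key0 b hb
      exact ⟨b, v, Or.inr rfl, h⟩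
    · rcases lt_or_gt_of_ne hab with h | h
      · obtain ⟨v, h⟩ := key b a h ha
        exact ⟨b, v, Or.inr rfl, h⟩
      · obtain ⟨v, h⟩ := key a b h hb
        exact ⟨a, v, Or.inl rfl, h⟩

/-- Paragraph 3. A point `v` or a hyperplane `φ` is fixed by some `u ∈ U` with
`x_a(u) + x_b(u) = c`, for every `c`. -/
theorem exists_u_point {m : ℕ} {F : Type*} [Field F] (v : Fin (m + 1) → F) (a b : Fin m)
    (hab : a ≠ b) (c : F) :
    ∃ u : SpecialLinearGroup (Fin (m + 1)) F, UU (u : Matrix (Fin (m + 1)) (Fin (m + 1)) F) ∧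
      (u : Matrix (Fin (m + 1)) (Fin (m + 1)) F).mulVec v = v ∧
      (u : Matrix (Fin (m + 1)) (Fin (m + 1)) F) a.castSucc a.succ +
        (u : Matrix (Fin (m + 1)) (Fin (m + 1)) F) b.castSucc b.succ = c := by
  obtain ⟨i, φ, hi, h1, h2, h3⟩ := e2_phi v a b hab c
  obtain ⟨u, hu, huu, hc, h0⟩ := e2_row i φ c h2 h3
  refine ⟨u, huu, ?_, ?_⟩
  · rw [hu, tv_mulVec, h1, zero_smul, add_zero]
  · rcases hi with rfl | rfl
    · rw [hc, h0 b hab.symm, add_zero]
    · rw [hc, h0 a hab, zero_add]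

theorem exists_u_hyper {m : ℕ} {F : Type*} [Field F] (φ : Fin (m + 1) → F) (a b : Fin m)
    (hab : a ≠ b) (c : F) :
    ∃ u : SpecialLinearGroup (Fin (m + 1)) F, UU (u : Matrix (Fin (m + 1)) (Fin (m + 1)) F) ∧
      Matrix.vecMul φ (u : Matrix (Fin (m + 1)) (Fin (m + 1)) F) = φ ∧
      (u : Matrix (Fin (m + 1)) (Fin (m + 1)) F) a.castSucc a.succ +
        (u : Matrix (Fin (m + 1)) (Fin (m + 1)) F) b.castSucc b.succ = c := by
  obtain ⟨i, v, hi, h1, h2, h3⟩ := e2_vec φ a b hab c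
  obtain ⟨u, hu, huu, hc, h0⟩ := e2_col i v c h2 h3
  refine ⟨u, huu, ?_, ?_⟩
  · rw [hu, tv, Matrix.vecMul_add, Matrix.vecMul_one, Matrix.vecMul_vecMulVec, h1, zero_smul,
      add_zero]
  · rcases hi with rfl | rfl
    · rw [hc, h0 b hab.symm, add_zero]
    · rw [hc, h0 a hab, zero_add]

/-- The character `λ (x_a + x_b)` of the unitriangular group. -/
private def e2_psi {m : ℕ} {F : Type*} [Field F] (a b : Fin m) {A : Type*} [AddMonoid A]
    (lam : F →+ A) : uniS (m + 1) F →* Multiplicative A where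
  toFun u := Multiplicative.ofAdd (lam
    (((u : SpecialLinearGroup (Fin (m + 1)) F) : Matrix (Fin (m + 1)) (Fin (m + 1)) F)
      a.castSucc a.succ +
    ((u : SpecialLinearGroup (Fin (m + 1)) F) : Matrix (Fin (m + 1)) (Fin (m + 1)) F)
      b.castSucc b.succ))
  map_one' := by
    change Multiplicative.ofAdd (lam ((1 : Matrix (Fin (m + 1)) (Fin (m + 1)) F)
      a.castSucc a.succ + (1 : Matrix (Fin (m + 1)) (Fin (m + 1)) F) b.castSucc b.succ)) = 1
    rw [Matrix.one_apply_ne (Fin.castSucc_lt_succ (i := a)).ne,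
      Matrix.one_apply_ne (Fin.castSucc_lt_succ (i := b)).ne, add_zero, map_zero, ofAdd_zero]
  map_mul' := by
    rintro ⟨u, hu⟩ ⟨w, hw⟩
    rw [← ofAdd_add, ← map_add]
    congr 2
    change ((u : Matrix (Fin (m + 1)) (Fin (m + 1)) F) *
        (w : Matrix (Fin (m + 1)) (Fin (m + 1)) F)) a.castSucc a.succ +
      ((u : Matrix (Fin (m + 1)) (Fin (m + 1)) F) *
        (w : Matrix (Fin (m + 1)) (Fin (m + 1)) F)) b.castSucc b.succ = _
    rw [UU.superdiag hu hw _ _ rfl, UU.superdiag hu hw _ _ rfl]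
    exact add_add_add_comm _ _ _ _

/-- `Spr43.criterionQ` with `H` = image of the stabiliser of the line of `e_0`, `P = uniS`,
`ψ = λ (x_a + x_b)`, `λ : F → Z/p` additive and nonzero, at the point `g⁻¹ • x`. (i) by `autP` and
`exists_u_point`, `exists_u_hyper`; (ii) by `hnt` and `sl_trans`. -/
theorem e2 {m : ℕ} {F Γ Ω : Type*} [Field F] [Finite F] [Group Γ] [MulAction Γ Ω] [Fintype Ω]
    [DecidableEq Ω] (hm : 2 ≤ m)
    (j : ProjectiveSpecialLinearGroup (Fin (m + 1)) F →* Γ)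
    (hj : ∀ g : Γ, ∃ β : ProjectiveSpecialLinearGroup (Fin (m + 1)) F ≃*
      ProjectiveSpecialLinearGroup (Fin (m + 1)) F, ∀ t, j (β t) = g * j t * g⁻¹)
    (hsp : IsSpreading Γ Ω) (x : Ω)
    (hnt : ∃ v w : Fin (m + 1) → F, v ≠ 0 ∧ w ≠ 0 ∧ ∀ k ∈ stabS j x, ∀ c : F,
      (k : Matrix (Fin (m + 1)) (Fin (m + 1)) F).mulVec v ≠ c • w) :
    MeetsU (stabS j x) := by
  intro g a b hab
  by_contra hcon
  push Not at hcon
  obtain ⟨p, hp⟩ := CharP.exists F
  have hpp : p.Prime := CharP.char_is_prime F p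
  have hfact : Fact p.Prime := ⟨hpp⟩
  let _ : Algebra (ZMod p) F := ZMod.algebra F p
  obtain ⟨lam, hlam⟩ : ∃ lam : F →+ ZMod p, lam 1 ≠ 0 := by
    by_contra h
    push Not at h
    have h1 : ∀ φ : Module.Dual (ZMod p) F, φ 1 = 0 := fun φ => h φ.toAddMonoidHom
    exact one_ne_zero ((Module.forall_dual_apply_eq_zero_iff (ZMod p) (1 : F)).1 h1)
  set E : Fin (m + 1) → F := Pi.single 0 1 with hE
  have hE0 : E ≠ 0 := by
    intro h
    have h1 := congrFun h 0
    rw [hE, Pi.single_eq_same, Pi.zero_apply] at h1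
    exact one_ne_zero h1
  refine criterionQ j hj p ((toP (m + 1) F).comp (uniS (m + 1) F).subtype) (e2_psi a b lam)
    ((stW (Submodule.span F {E})).map (toP (m + 1) F)) (j (toP (m + 1) F g⁻¹) • x) ?_ ?_ ?_ hsp
  · intro β
    have hfr : Module.finrank F (Submodule.span F {E}) = 1 := finrank_span_singleton hE0
    obtain ⟨W', hW', hs⟩ := autP (by omega : 3 ≤ m + 1) β (Submodule.span F {E}) (Or.inl hfr)
    have hfin : ∀ u : SpecialLinearGroup (Fin (m + 1)) F,
        UU (u : Matrix (Fin (m + 1)) (Fin (m + 1)) F) → u ∈ stW W' →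
        (u : Matrix (Fin (m + 1)) (Fin (m + 1)) F) a.castSucc a.succ +
          (u : Matrix (Fin (m + 1)) (Fin (m + 1)) F) b.castSucc b.succ = 1 →
        ∃ h : uniS (m + 1) F, e2_psi a b lam h ≠ 1 ∧
          β (((toP (m + 1) F).comp (uniS (m + 1) F).subtype) h) ∈
            (stW (Submodule.span F {E})).map (toP (m + 1) F) := by
      intro u huu hu hc
      refine ⟨⟨u, huu⟩, ?_, (hs u).2 hu⟩
      intro h1
      apply hlam
      change Multiplicative.ofAdd (lam ((u : Matrix (Fin (m + 1)) (Fin (m + 1)) F)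
        a.castSucc a.succ + (u : Matrix (Fin (m + 1)) (Fin (m + 1)) F) b.castSucc b.succ)) = 1
        at h1
      rw [hc] at h1
      exact ofAdd_eq_one.1 h1
    rcases hW' with h1 | h1
    · obtain ⟨v, -, hv⟩ := finrank_eq_one_iff'.1 h1
      have hW : W' = Submodule.span F {(v : Fin (m + 1) → F)} := by
        apply le_antisymm
        · intro w hw
          obtain ⟨c, hc⟩ := hv ⟨w, hw⟩
          rw [Submodule.mem_span_singleton]
          exact ⟨c, congrArg Subtype.val hc⟩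
        · rw [Submodule.span_singleton_le_iff_mem]
          exact v.2
      obtain ⟨u, huu, hfix, hc⟩ := exists_u_point (v : Fin (m + 1) → F) a b hab 1
      refine hfin u huu ?_ hc
      rw [hW, mem_stW_span]
      exact ⟨1, by rw [hfix, one_smul]⟩
    · obtain ⟨φ, -, hW⟩ := exists_kerφ W' h1
      obtain ⟨u, huu, hfix, hc⟩ := exists_u_hyper φ a b hab 1
      refine hfin u huu ?_ hc
      rw [hW, mem_stW_kerφ]
      exact ⟨1, by rw [hfix, one_smul]⟩
  · obtain ⟨v, w, hv, hw, hvw⟩ := hnt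
    obtain ⟨s, hs⟩ := sl_trans (by omega : 2 ≤ m + 1) E v hE0 hv
    obtain ⟨t, ht⟩ := sl_trans (by omega : 2 ≤ m + 1) E w hE0 hw
    refine ⟨j (toP (m + 1) F s⁻¹) • x, j (toP (m + 1) F t⁻¹) • x, ?_⟩
    rintro _ ⟨r, hr, rfl⟩ hx
    obtain ⟨c, hc⟩ := (mem_stW_span E r).1 hr
    have hmem : t * r * s⁻¹ ∈ stabS j x := by
      rw [mem_stabS, map_mul, map_mul, map_mul, map_mul, mul_smul, mul_smul, hx, map_inv, map_inv,
        smul_inv_smul]
    refine hvw _ hmem c ?_
    rw [Matrix.SpecialLinearGroup.coe_mul, Matrix.SpecialLinearGroup.coe_mul, ← hs,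
      Matrix.mulVec_mulVec, Matrix.mul_assoc, Matrix.mul_assoc,
      ← Matrix.SpecialLinearGroup.coe_mul s⁻¹ s, inv_mul_cancel,
      Matrix.SpecialLinearGroup.coe_one, Matrix.mul_one, ← Matrix.mulVec_mulVec, hc,
      Matrix.mulVec_smul, ht]
  · rintro ⟨u, hu⟩ hx
    have hmem : g * u * g⁻¹ ∈ stabS j x := by
      have hx' : j (toP (m + 1) F u) • j (toP (m + 1) F g⁻¹) • x = j (toP (m + 1) F g⁻¹) • x := hx
      rw [mem_stabS, map_mul, map_mul, map_mul, map_mul, mul_smul, mul_smul, hx', map_inv, map_inv,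
        smul_inv_smul]
    have h0 := hcon u hu hmem
    change Multiplicative.ofAdd (lam ((u : Matrix (Fin (m + 1)) (Fin (m + 1)) F)
        a.castSucc a.succ + (u : Matrix (Fin (m + 1)) (Fin (m + 1)) F) b.castSucc b.succ)) = 1
    rw [h0, map_zero, ofAdd_zero]

end Lin43
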