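import Pool.Agent.Lib.MP_43150e_al.Lin.Gen

/-! # EL: a transvection in `K` when the stabiliser of a point induces `SL` on `V/P`

Paragraph 5, EL, `m = n - 1 ≥ 2`. Step 1: `R = {D ∈ SL_m | blk 1 w D ∈ K for some w}` is a subgroup which
contains all commutators of `SL_m`, so all `1 + c E_ij` (`transv_comm`), so `R = ⊤` (`gen`).
Step 2: `k = blk 1 w D ∈ K` with `D = 1 + E_(0, m-1)`. For `D_h ∈ SL_m` commuting with `D` choose
`h = blk 1 w_h D_h ∈ K`; then `h k (k h)⁻¹ = blk 1 w' 1 ∈ K`: a transvection if `w' ≠ 0` (done), otherwise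
`h k = k h`, i.e. `w (1 - D_h) = w_h (1 - D)`, a multiple of the last coordinate vector. `m ≥ 3`: take `D_h` =
diagonal with `s` at `0` and `m-1`, `s⁻²` at `0 < j < m-1`, `1` elsewhere, `s² ≠ 1`: `w_0 = w_j = 0`; so
`k = 1 + (w_(m-1) e_0 + e_1) ⊗ e_m^*` is a transvection. `m = 2`, char ≠ 2: `D_h = -1`: `w_0 = 0`. `m = 2`, char 2:
`k² = blk 1 (0, w_0) 1`, a transvection if `w_0 ≠ 0`; if `w_0 = 0`, `k` is one. -/

set_option autoImplicit false

namespace Lin43

open Matrix

section
variable {n : ℕ} {F : Type*} [Field F] {K : Subgroup (GeneralLinearGroup (Fin n) F)}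

theorem el_mul {A B : Matrix (Fin n) (Fin n) F} (hA : inG K A) (hB : inG K B) :
    inG K (A * B) := by
  obtain ⟨a, ha, rfl⟩ := hA
  obtain ⟨b, hb, rfl⟩ := hB
  exact ⟨a * b, K.mul_mem ha hb, rfl⟩

variable (K) in
theorem el_one : inG K (1 : Matrix (Fin n) (Fin n) F) := ⟨1, K.one_mem, rfl⟩

theorem el_inv {A B : Matrix (Fin n) (Fin n) F} (hA : inG K A) (hAB : A * B = 1) :
    inG K B := by
  obtain ⟨a, ha, rfl⟩ := hA
  exact ⟨a⁻¹, K.inv_mem ha, Units.inv_eq_of_mul_eq_one_right hAB⟩

theorem el_det {A : Matrix (Fin n) (Fin n) F} (hA : inG K A) : A.det ≠ 0 := by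
  obtain ⟨a, ha, rfl⟩ := hA
  exact ((Matrix.isUnit_iff_isUnit_det _).1 a.isUnit).ne_zero

end

section
variable {m : ℕ} {F : Type*} [Field F] {K : Subgroup (GeneralLinearGroup (Fin (m + 1)) F)}

theorem el_ne {a : F} {w : Fin m → F} {D : SpecialLinearGroup (Fin m) F}
    (h : inG K (blk a w (D : Matrix (Fin m) (Fin m) F))) : a ≠ 0 := by
  have h1 := el_det h
  rw [blk_det] at h1
  exact left_ne_zero_of_mul h1

/-- The inverse of a block matrix. -/
theorem el_blk_inv {a : F} {w : Fin m → F} {D : SpecialLinearGroup (Fin m) F}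
    (h : inG K (blk a w (D : Matrix (Fin m) (Fin m) F))) :
    inG K (blk a⁻¹ (-(a⁻¹ • Matrix.vecMul w
      ((D⁻¹ : SpecialLinearGroup (Fin m) F) : Matrix (Fin m) (Fin m) F)))
        ((D⁻¹ : SpecialLinearGroup (Fin m) F) : Matrix (Fin m) (Fin m) F)) := by
  refine el_inv h ?_
  have ha := el_ne h
  rw [blk_mul, mul_inv_cancel₀ ha, ← Matrix.SpecialLinearGroup.coe_mul, mul_inv_cancel,
    Matrix.SpecialLinearGroup.coe_one, smul_neg, smul_smul, mul_inv_cancel₀ ha, one_smul,
    neg_add_cancel, blk_one]

/-- Two elements of `K` with the same diagonal blocks. -/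
theorem el_uniq {x y : Fin m → F} {D : SpecialLinearGroup (Fin m) F}
    (hx : inG K (blk 1 x (D : Matrix (Fin m) (Fin m) F)))
    (hy : inG K (blk 1 y (D : Matrix (Fin m) (Fin m) F))) (hne : x ≠ y) :
    ∃ v φ : Fin (m + 1) → F, v ≠ 0 ∧ φ ≠ 0 ∧ φ ⬝ᵥ v = 0 ∧ inG K (tv v φ) := by
  have h1 := el_mul hx (el_blk_inv hy)
  set E := ((D⁻¹ : SpecialLinearGroup (Fin m) F) : Matrix (Fin m) (Fin m) F) with hE
  have hDE : (D : Matrix (Fin m) (Fin m) F) * E = 1 := by
    rw [hE, ← Matrix.SpecialLinearGroup.coe_mul, mul_inv_cancel, Matrix.SpecialLinearGroup.coe_one]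
  have hED : E * (D : Matrix (Fin m) (Fin m) F) = 1 := by
    rw [hE, ← Matrix.SpecialLinearGroup.coe_mul, inv_mul_cancel, Matrix.SpecialLinearGroup.coe_one]
  rw [blk_mul, hDE, inv_one, mul_one, one_smul, one_smul, blk_one_eq_tv] at h1
  refine ⟨_, _, ?_, ?_, ?_, h1⟩
  · intro h0
    have h2 := congrFun h0 0
    rw [Pi.single_eq_same] at h2
    exact one_ne_zero h2
  · intro h0
    apply hne
    have h2 : -Matrix.vecMul y E + Matrix.vecMul x E = 0 := by
      ext i
      have h3 := congrFun h0 i.succ
      rw [Fin.cons_succ] at h3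
      exact h3
    have h4 : Matrix.vecMul (x - y) E = 0 := by
      rw [Matrix.sub_vecMul, sub_eq_add_neg, add_comm]
      exact h2
    have h5 : x - y = 0 := by
      have h6 := congrArg (fun z => Matrix.vecMul z (D : Matrix (Fin m) (Fin m) F)) h4
      simp only [Matrix.vecMul_vecMul, hED, Matrix.vecMul_one, Matrix.zero_vecMul] at h6
      exact h6
    exact sub_eq_zero.1 h5
  · rw [dotProduct_single_one, Fin.cons_zero]

/-- Commutators. -/
theorem el_comm {a a' : F} {w w' : Fin m → F} {D D' : SpecialLinearGroup (Fin m) F}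
    (h : inG K (blk a w (D : Matrix (Fin m) (Fin m) F)))
    (h' : inG K (blk a' w' (D' : Matrix (Fin m) (Fin m) F))) :
    ∃ w'' : Fin m → F, inG K (blk 1 w''
      ((D * D' * D⁻¹ * D'⁻¹ : SpecialLinearGroup (Fin m) F) : Matrix (Fin m) (Fin m) F)) := by
  have h1 := el_mul (el_mul (el_mul h h') (el_blk_inv h)) (el_blk_inv h')
  have ha := el_ne h
  have ha' := el_ne h'
  have e : a * a' * a⁻¹ * a'⁻¹ = 1 := by
    field_simp
  rw [blk_mul, blk_mul, blk_mul, e, ← Matrix.SpecialLinearGroup.coe_mul,
    ← Matrix.SpecialLinearGroup.coe_mul, ← Matrix.SpecialLinearGroup.coe_mul] at h1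
  exact ⟨_, h1⟩

/-- Step 1. -/
theorem el_step (hF : 4 ≤ Nat.card F)
    (hL : ∀ D : SpecialLinearGroup (Fin m) F, ∃ (a : F) (w : Fin m → F),
      inG K (blk a w (D : Matrix (Fin m) (Fin m) F))) (D : SpecialLinearGroup (Fin m) F) :
    ∃ w : Fin m → F, inG K (blk 1 w (D : Matrix (Fin m) (Fin m) F)) := by
  let R : Subgroup (SpecialLinearGroup (Fin m) F) :=
    { carrier := {D | ∃ w : Fin m → F, inG K (blk 1 w (D : Matrix (Fin m) (Fin m) F))}
      one_mem' := by
        refine ⟨0, ?_⟩
        rw [Matrix.SpecialLinearGroup.coe_one, blk_one]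
        exact el_one K
      mul_mem' := by
        rintro D D' ⟨w, hw⟩ ⟨w', hw'⟩
        have h1 := el_mul hw hw'
        rw [blk_mul, one_mul, ← Matrix.SpecialLinearGroup.coe_mul] at h1
        exact ⟨_, h1⟩
      inv_mem' := by
        rintro D ⟨w, hw⟩
        have h1 := el_blk_inv hw
        rw [inv_one] at h1
        exact ⟨_, h1⟩ }
  have hR : R = ⊤ := by
    obtain ⟨s, hs, hs2⟩ := exists_sq_ne_one hF
    refine gen R fun i j hij c => ?_
    obtain ⟨t, u, htu⟩ := transv_comm hs hs2 i j hij c
    obtain ⟨a, w, h⟩ := hL t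
    obtain ⟨a', w', h'⟩ := hL u
    exact ⟨t * u * t⁻¹ * u⁻¹, el_comm h h', htu⟩
  have h1 : D ∈ R := by
    rw [hR]
    exact Subgroup.mem_top D
  exact h1

end

theorem el {m : ℕ} (hm : 2 ≤ m) {F : Type*} [Field F] (hF : 4 ≤ Nat.card F)
    (K : Subgroup (GeneralLinearGroup (Fin (m + 1)) F))
    (hL : ∀ D : SpecialLinearGroup (Fin m) F, ∃ (a : F) (w : Fin m → F),
      inG K (blk a w (D : Matrix (Fin m) (Fin m) F))) :
    ∃ v φ : Fin (m + 1) → F, v ≠ 0 ∧ φ ≠ 0 ∧ φ ⬝ᵥ v = 0 ∧ inG K (tv v φ) := by
  by_contra hcon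
  have huniq : ∀ {x y : Fin m → F} {D : SpecialLinearGroup (Fin m) F},
      inG K (blk 1 x (D : Matrix (Fin m) (Fin m) F)) →
      inG K (blk 1 y (D : Matrix (Fin m) (Fin m) F)) → x = y := by
    intro x y D hx hy
    by_contra hne
    exact hcon (el_uniq hx hy hne)
  obtain ⟨s, hs, hs2⟩ := exists_sq_ne_one hF
  let z : Fin m := ⟨0, by omega⟩
  let l : Fin m := ⟨m - 1, by omega⟩
  have hzl : z ≠ l := by
    intro h
    have := congrArg Fin.val h
    simp only [z, l] at this
    omega
  let D : SpecialLinearGroup (Fin m) F := SpecialLinearGroup.transvection hzl 1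
  have hD : (D : Matrix (Fin m) (Fin m) F) = 1 + Matrix.single z l 1 := rfl
  obtain ⟨w, hw⟩ := el_step hF hL D
  -- the equation for a commuting element
  have hvD : ∀ (x : Fin m → F) (j : Fin m), j ≠ l →
      Matrix.vecMul x (D : Matrix (Fin m) (Fin m) F) j = x j := by
    intro x j hj
    rw [hD, Matrix.vecMul_add, Matrix.vecMul_one, Pi.add_apply]
    have h1 : Matrix.vecMul x (Matrix.single z l (1 : F)) j = 0 := by
      rw [Matrix.vecMul, dotProduct]
      refine Finset.sum_eq_zero fun i _ => ?_
      rw [Matrix.single_apply, if_neg fun h => hj h.2.symm, mul_zero]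
    rw [h1, add_zero]
  have hcomm : ∀ E : SpecialLinearGroup (Fin m) F, E * D = D * E → ∀ j, j ≠ l →
      w j = Matrix.vecMul w (E : Matrix (Fin m) (Fin m) F) j := by
    intro E hE j hj
    obtain ⟨y, hy⟩ := el_step hF hL E
    have h1 := el_mul hy hw
    have h2 := el_mul hw hy
    rw [blk_mul, ← Matrix.SpecialLinearGroup.coe_mul, one_mul] at h1 h2
    rw [← hE] at h2
    have h3 := congrFun (huniq h1 h2) j
    rw [Pi.add_apply, Pi.add_apply, Pi.smul_apply, Pi.smul_apply, one_smul, one_smul,
      hvD y j hj] at h3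
    linear_combination h3
  have hw0 : ∀ j, j ≠ l → w j = 0 := by
    rcases hm.lt_or_eq with hm3 | hm2
    · -- `m ≥ 3`
      have key : ∀ j' : Fin m, j' ≠ z → j' ≠ l → w z = 0 ∧ w j' = 0 := by
        intro j' hjz hjl
        let E : SpecialLinearGroup (Fin m) F :=
          SpecialLinearGroup.diag2n hjz.symm s hs * SpecialLinearGroup.diag2n hjl.symm s hs
        have hE : (E : Matrix (Fin m) (Fin m) F) = Matrix.diagonal fun k =>
            (if k = z then s else if k = j' then s⁻¹ else 1) *
              (if k = l then s else if k = j' then s⁻¹ else 1) := by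
          rw [Matrix.SpecialLinearGroup.coe_mul]
          exact Matrix.diagonal_mul_diagonal _ _
        have hED : E * D = D * E := by
          apply Subtype.ext
          change (E : Matrix (Fin m) (Fin m) F) * (D : Matrix (Fin m) (Fin m) F) =
            (D : Matrix (Fin m) (Fin m) F) * (E : Matrix (Fin m) (Fin m) F)
          rw [hD, hE, mul_add, add_mul, mul_one, one_mul]
          congr 1
          ext a b
          rw [Matrix.diagonal_mul, Matrix.mul_diagonal, Matrix.single_apply]
          by_cases hab : z = a ∧ l = b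
          · obtain ⟨rfl, rfl⟩ := hab
            rw [if_pos (⟨rfl, rfl⟩ : z = z ∧ l = l), if_pos rfl, if_neg hzl, if_neg hjz.symm,
              if_neg hzl.symm, if_neg hjl.symm, if_pos rfl]
            ring
          · rw [if_neg hab, mul_zero, zero_mul]
        have h1 := hcomm E hED z hzl
        have h2 := hcomm E hED j' hjl
        rw [hE, Matrix.vecMul_diagonal] at h1 h2
        rw [if_pos rfl, if_neg hzl, if_neg hjz.symm, mul_one] at h1
        rw [if_neg hjz, if_pos rfl, if_neg hjl] at h2
        constructor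
        · have h3 : w z * (s - 1) = 0 := by linear_combination -h1
          rcases mul_eq_zero.1 h3 with h | h
          · exact h
          · exact absurd (by rw [sub_eq_zero.1 h, one_pow]) hs2
        · have h3 : w j' * (s ^ 2 - 1) = 0 := by
            have h4 : w j' * s ^ 2 = w j' := by
              conv_lhs => rw [h2]
              field_simp
            linear_combination h4
          rcases mul_eq_zero.1 h3 with h | h
          · exact h
          · exact absurd (sub_eq_zero.1 h) hs2
      intro j hj
      by_cases hjz : j = z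
      · rw [hjz]
        refine (key ⟨1, by omega⟩ ?_ ?_).1
        · intro h
          have := congrArg Fin.val h
          simp only [z] at this
          omega
        · intro h
          have := congrArg Fin.val h
          simp only [l] at this
          omega
      · exact (key j hjz hj).2
    · -- `m = 2`
      intro j hj
      have hjz : j = z := by
        apply Fin.ext
        have h1 : (j : ℕ) ≠ m - 1 := fun h => hj (Fin.ext h)
        have h2 := j.2
        simp only [z]
        omega
      subst hjz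
      by_cases h2 : (2 : F) = 0
      · -- characteristic two
        by_contra hne
        have h1 := el_mul hw hw
        rw [blk_mul, one_mul, one_smul] at h1
        have h3 : (D : Matrix (Fin m) (Fin m) F) * (D : Matrix (Fin m) (Fin m) F) =
            ((1 : SpecialLinearGroup (Fin m) F) : Matrix (Fin m) (Fin m) F) := by
          rw [Matrix.SpecialLinearGroup.coe_one, hD, mul_add, mul_one, add_mul, one_mul,
            Matrix.single_mul_single_of_ne _ _ _ _ hzl.symm, add_zero, add_assoc,
            ← Matrix.single_add, one_add_one_eq_two, h2, Matrix.single_zero, add_zero]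
        rw [h3] at h1
        have h4 : inG K (blk 1 (0 : Fin m → F)
            ((1 : SpecialLinearGroup (Fin m) F) : Matrix (Fin m) (Fin m) F)) := by
          rw [Matrix.SpecialLinearGroup.coe_one, blk_one]
          exact el_one K
        have h5 := congrFun (huniq h1 h4) l
        rw [Pi.add_apply, hD, Matrix.vecMul_add, Matrix.vecMul_one, Pi.add_apply,
          Pi.zero_apply] at h5
        have h6 : Matrix.vecMul w (Matrix.single z l (1 : F)) l = w z := by
          rw [Matrix.vecMul, dotProduct, Finset.sum_eq_single z]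
          · rw [Matrix.single_apply, if_pos ⟨rfl, rfl⟩, mul_one]
          · intro i _ hi
            rw [Matrix.single_apply, if_neg fun h => hi h.1.symm, mul_zero]
          · intro h
            exact absurd (Finset.mem_univ z) h
        rw [h6] at h5
        exact hne (by linear_combination h5 - w l * h2)
      · -- odd characteristic
        let E : SpecialLinearGroup (Fin m) F := ⟨-1, by
          rw [Matrix.det_neg, Matrix.det_one, Fintype.card_fin, ← hm2]
          ring⟩
        have hED : E * D = D * E := by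
          apply Subtype.ext
          change (-1 : Matrix (Fin m) (Fin m) F) * (D : Matrix (Fin m) (Fin m) F) =
            (D : Matrix (Fin m) (Fin m) F) * (-1 : Matrix (Fin m) (Fin m) F)
          rw [neg_mul, mul_neg, one_mul, mul_one]
        have h1 := hcomm E hED z hj
        change w z = Matrix.vecMul w (-1 : Matrix (Fin m) (Fin m) F) z at h1
        rw [Matrix.vecMul_neg, Matrix.vecMul_one, Pi.neg_apply] at h1
        have h3 : 2 * w z = 0 := by linear_combination h1
        exact (mul_eq_zero.1 h3).resolve_left h2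
  -- `k` is a transvection
  refine hcon ⟨(Fin.cons (w l) (Pi.single z 1) : Fin (m + 1) → F),
    (Fin.cons 0 (Pi.single l 1) : Fin (m + 1) → F), ?_, ?_, ?_, ?_⟩
  · intro h
    have h1 := congrFun h z.succ
    rw [Fin.cons_succ, Pi.single_eq_same] at h1
    exact one_ne_zero h1
  · intro h
    have h1 := congrFun h l.succ
    rw [Fin.cons_succ, Pi.single_eq_same] at h1
    exact one_ne_zero h1
  · rw [dotProduct, Fin.sum_univ_succ, Fin.cons_zero, zero_mul, zero_add]
    refine Finset.sum_eq_zero fun i _ => ?_
    rw [Fin.cons_succ, Fin.cons_succ]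
    by_cases hi : i = l
    · rw [hi, Pi.single_eq_of_ne hzl.symm, mul_zero]
    · rw [Pi.single_eq_of_ne hi, zero_mul]
  · have h1 : tv (Fin.cons (w l) (Pi.single z 1) : Fin (m + 1) → F)
        (Fin.cons 0 (Pi.single l 1) : Fin (m + 1) → F) =
          blk 1 w (D : Matrix (Fin m) (Fin m) F) := by
      have hwl : w = Pi.single l (w l) := by
        ext j
        by_cases hj : j = l
        · rw [hj, Pi.single_eq_same]
        · rw [hw0 j hj, Pi.single_eq_of_ne hj]
      ext a b
      rw [tv, Matrix.add_apply, Matrix.vecMulVec_apply]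
      refine Fin.cases ?_ (fun a => ?_) a
      · refine Fin.cases ?_ (fun b => ?_) b
        · change (1 : Matrix (Fin (m + 1)) (Fin (m + 1)) F) 0 0 + w l * 0 = 1
          rw [Matrix.one_apply_eq, mul_zero, add_zero]
        · change (1 : Matrix (Fin (m + 1)) (Fin (m + 1)) F) 0 b.succ +
            w l * (Pi.single l 1 : Fin m → F) b = w b
          rw [Matrix.one_apply_ne (Fin.succ_ne_zero b).symm, zero_add]
          by_cases hb : b = l
          · rw [hb, Pi.single_eq_same, mul_one]
          · rw [Pi.single_eq_of_ne hb, mul_zero, hw0 b hb]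
      · refine Fin.cases ?_ (fun b => ?_) b
        · change (1 : Matrix (Fin (m + 1)) (Fin (m + 1)) F) a.succ 0 +
            (Pi.single z 1 : Fin m → F) a * 0 = 0
          rw [Matrix.one_apply_ne (Fin.succ_ne_zero a), mul_zero, add_zero]
        · change (1 : Matrix (Fin (m + 1)) (Fin (m + 1)) F) a.succ b.succ +
            (Pi.single z 1 : Fin m → F) a * (Pi.single l 1 : Fin m → F) b =
              (D : Matrix (Fin m) (Fin m) F) a b
          rw [hD, Matrix.add_apply, Matrix.single_apply]
          congr 1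
          · rw [Matrix.one_apply, Matrix.one_apply]
            simp only [Fin.succ_inj]
          · by_cases ha : a = z
            · by_cases hb : b = l
              · rw [ha, hb, Pi.single_eq_same, Pi.single_eq_same, if_pos ⟨rfl, rfl⟩, mul_one]
              · rw [Pi.single_eq_of_ne hb, mul_zero, if_neg fun h => hb h.2.symm]
            · rw [Pi.single_eq_of_ne ha, zero_mul, if_neg fun h => ha h.1.symm]
    rw [h1]
    exact hw

end Lin43
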