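import Pool.Agent.Lib.MP_43150e_al.Lin.Defs

/-! # Fixed points of `g ∈ GL_2(F)` on the projective line over the quadratic extension -/

set_option autoImplicit false

namespace Lin43

open Matrix

variable {F E : Type*} [Field F] [Finite F] [Field E] [Finite E] [DecidableEq E] [Algebra F E]

/-- `g ∈ GL_2(F)` as an element of `GL_2(E)`. -/
abbrev mapE (F E : Type*) [Field F] [Field E] [Algebra F E] :
    GeneralLinearGroup (Fin 2) F →* GeneralLinearGroup (Fin 2) E :=
  Matrix.GeneralLinearGroup.map (algebraMap F E)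

section aux

omit [Finite F] [Finite E] [DecidableEq E] in
theorem mapE_apply (g : GeneralLinearGroup (Fin 2) F) (i j : Fin 2) :
    mapE F E g i j = algebraMap F E (g i j) := rfl

omit [Finite F] [Finite E] in
theorem fix_infty_iff (g : GeneralLinearGroup (Fin 2) F) :
    mapE F E g • (OnePoint.infty : OnePoint E) = OnePoint.infty ↔ g 1 0 = 0 := by
  rw [OnePoint.smul_infty_eq_self_iff, mapE_apply, map_eq_zero]

omit [Finite F] [Finite E] in
theorem fix_some_iff (g : GeneralLinearGroup (Fin 2) F) (x : E) :
    mapE F E g • (x : OnePoint E) = x ↔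
      algebraMap F E (g 1 0) * x ^ 2 + (algebraMap F E (g 1 1) - algebraMap F E (g 0 0)) * x -
        algebraMap F E (g 0 1) = 0 := by
  rw [← Matrix.GeneralLinearGroup.fixpointPolynomial_aeval_eq_zero_iff]
  simp only [Matrix.GeneralLinearGroup.fixpointPolynomial, map_sub, map_mul, map_add,
    Polynomial.aeval_X_pow, Polynomial.aeval_C, Polynomial.aeval_X,
    Algebra.algebraMap_self_apply, mapE_apply]

theorem card_iff_one {α : Type*} {P : α → Prop} (p : α) (h : ∀ x, P x ↔ x = p) :
    Nat.card {x // P x} = 1 := by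
  have e : {x | P x} = {p} := by
    ext x
    exact h x
  rw [show Nat.card {x // P x} = Set.ncard {x | P x} from Nat.card_coe_set_eq _, e,
    Set.ncard_singleton]

theorem card_iff_two {α : Type*} {P : α → Prop} {p q : α} (hpq : p ≠ q)
    (h : ∀ x, P x ↔ x = p ∨ x = q) : Nat.card {x // P x} = 2 := by
  have e : {x | P x} = {p, q} := by
    ext x
    exact h x
  rw [show Nat.card {x // P x} = Set.ncard {x | P x} from Nat.card_coe_set_eq _, e,
    Set.ncard_pair hpq]

omit [Finite F] [DecidableEq E] in
/-- Polynomials of degree `1` or `2` over `F` have roots in `E`. -/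
theorem exists_rootE (hE : Module.finrank F E = 2) (f : Polynomial F) (h1 : 1 ≤ f.natDegree)
    (h2 : f.natDegree ≤ 2) : ∃ x : E, Polynomial.aeval x f = 0 := by
  have hf0 : f ≠ 0 := by
    rintro rfl
    simp at h1
  have hu : ¬ IsUnit f := fun h => by
    have := Polynomial.natDegree_eq_zero_of_isUnit h
    omega
  obtain ⟨m, hm, hmi, hmf⟩ := Polynomial.exists_monic_irreducible_factor f hu
  have hd : m.natDegree ≤ 2 := (Polynomial.natDegree_le_of_dvd hmf hf0).trans h2
  have hd0 : 0 < m.natDegree := hmi.natDegree_pos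
  haveI : Fact (Irreducible m) := ⟨hmi⟩
  have hfr : Module.finrank F (AdjoinRoot m) = m.natDegree := by
    rw [(AdjoinRoot.powerBasis hm.ne_zero).finrank, AdjoinRoot.powerBasis_dim]
  obtain ⟨i⟩ := FiniteField.nonempty_algHom_of_finrank_dvd (F := F) (K := AdjoinRoot m) (L := E) (by
    rw [hfr, hE]
    interval_cases m.natDegree <;> norm_num)
  refine ⟨i (AdjoinRoot.root m), ?_⟩
  obtain ⟨k, rfl⟩ := hmf
  rw [map_mul, Polynomial.aeval_algHom_apply, AdjoinRoot.aeval_eq, AdjoinRoot.mk_self, map_zero,
    zero_mul]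

omit [Finite F] [DecidableEq E] in
/-- Quadratic polynomials over `F` have roots in `E`. -/
theorem exists_root_quad (hE : Module.finrank F E = 2) {c : F} (hc : c ≠ 0) (e h : F) :
    ∃ x : E, algebraMap F E c * x ^ 2 + algebraMap F E e * x + algebraMap F E h = 0 := by
  obtain ⟨x, hx⟩ := exists_rootE hE (Polynomial.C c * Polynomial.X ^ 2 +
    Polynomial.C e * Polynomial.X + Polynomial.C h)
    (by rw [Polynomial.natDegree_quadratic hc]; norm_num)
    (by rw [Polynomial.natDegree_quadratic hc])
  refine ⟨x, ?_⟩
  simpa using hx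

omit [Finite F] in
theorem scalar_iff (g : GeneralLinearGroup (Fin 2) F) :
    (g : Matrix (Fin 2) (Fin 2) F) ∈ Set.range (scalar (Fin 2)) ↔
      g 1 0 = 0 ∧ g 1 1 = g 0 0 ∧ g 0 1 = 0 := by
  constructor
  · rintro ⟨a, ha⟩
    refine ⟨?_, ?_, ?_⟩ <;> rw [← ha] <;> simp
  · rintro ⟨hc, hd, hb⟩
    refine ⟨g 0 0, ?_⟩
    ext i j
    fin_cases i <;> fin_cases j <;> simp [hb, hc, hd]

end aux

theorem fix_scalar (g : GeneralLinearGroup (Fin 2) F)
    (hg : (g : Matrix (Fin 2) (Fin 2) F) ∈ Set.range (scalar (Fin 2))) (x : OnePoint E) :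
    mapE F E g • x = x := by
  obtain ⟨hc, hd, hb⟩ := (scalar_iff g).1 hg
  cases x with
  | infty => exact (fix_infty_iff g).2 hc
  | coe x =>
    rw [fix_some_iff, hc, hd, hb]
    simp

/-- One fixed point, and it is rational. -/
theorem fix_parabolic (hE : Module.finrank F E = 2) (g : GeneralLinearGroup (Fin 2) F)
    (hg : (g : Matrix (Fin 2) (Fin 2) F) ∉ Set.range (scalar (Fin 2)))
    (hd : (g : Matrix (Fin 2) (Fin 2) F).trace ^ 2 = 4 * (g : Matrix (Fin 2) (Fin 2) F).det) :
    Nat.card {x : OnePoint E // mapE F E g • x = x} = 1 := by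
  rw [scalar_iff] at hg
  rw [trace_fin_two, det_fin_two] at hd
  by_cases hc : g 1 0 = 0
  · have h1 : g 1 1 = g 0 0 := by
      have h2 : (g 1 1 - g 0 0) ^ 2 = 0 := by
        rw [hc] at hd
        linear_combination hd
      exact sub_eq_zero.1 (pow_eq_zero_iff two_ne_zero |>.1 h2)
    have hb : g 0 1 ≠ 0 := fun hb => hg ⟨hc, h1, hb⟩
    refine card_iff_one OnePoint.infty fun x => ?_
    cases x with
    | infty => simp [fix_infty_iff, hc]
    | coe x =>
      rw [fix_some_iff, hc, h1]
      simp [hb]
  · have hc' : algebraMap F E (g 1 0) ≠ 0 := by rwa [Ne, map_eq_zero]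
    obtain ⟨τ, hτ⟩ := exists_root_quad (E := E) hE hc (g 1 1 - g 0 0) (-g 0 1)
    rw [map_sub, map_neg] at hτ
    have hd' := congrArg (algebraMap F E) hd
    simp only [map_pow, map_add, map_mul, map_sub, map_ofNat] at hd'
    refine card_iff_one (τ : OnePoint E) fun x => ?_
    cases x with
    | infty => simp [fix_infty_iff, hc]
    | coe x =>
      rw [fix_some_iff, OnePoint.coe_eq_coe]
      constructor
      · intro hx
        by_contra hne
        have hne' : x - τ ≠ 0 := sub_ne_zero.2 hne
        have h3 : algebraMap F E (g 1 0) * (x + τ) +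
            (algebraMap F E (g 1 1) - algebraMap F E (g 0 0)) = 0 := by
          apply mul_left_cancel₀ hne'
          linear_combination hx - hτ
        have h4 : (algebraMap F E (g 1 0) * (x - τ)) ^ 2 = 0 := by
          have h5 : algebraMap F E (g 1 0) * x * τ + algebraMap F E (g 0 1) = 0 := by
            linear_combination τ * h3 - hτ
          linear_combination (algebraMap F E (g 1 0) * (x + τ) -
            (algebraMap F E (g 1 1) - algebraMap F E (g 0 0))) * h3 -
            4 * algebraMap F E (g 1 0) * h5 + hd'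
        exact mul_ne_zero hc' hne' (pow_eq_zero_iff two_ne_zero |>.1 h4)
      · rintro rfl
        linear_combination hτ

/-- Two fixed points: the quadratic polynomial of `g` has two different roots in `E` (its splitting
field has degree at most `2`, and `E` contains it because finite fields have one extension of each
degree). -/
theorem fix_two (hE : Module.finrank F E = 2) (g : GeneralLinearGroup (Fin 2) F)
    (hg : (g : Matrix (Fin 2) (Fin 2) F) ∉ Set.range (scalar (Fin 2)))
    (hd : (g : Matrix (Fin 2) (Fin 2) F).trace ^ 2 ≠ 4 * (g : Matrix (Fin 2) (Fin 2) F).det) :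
    Nat.card {x : OnePoint E // mapE F E g • x = x} = 2 := by
  rw [trace_fin_two, det_fin_two] at hd
  by_cases hc : g 1 0 = 0
  · have h1 : g 1 1 - g 0 0 ≠ 0 := by
      intro h1
      apply hd
      rw [hc]
      linear_combination (g 1 1 - g 0 0) * h1
    have h1' : algebraMap F E (g 1 1) - algebraMap F E (g 0 0) ≠ 0 := by
      rw [← map_sub, Ne, map_eq_zero]
      exact h1
    refine card_iff_two (p := OnePoint.infty) (q := ((algebraMap F E (g 0 1) /
      (algebraMap F E (g 1 1) - algebraMap F E (g 0 0)) : E) : OnePoint E))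
      (OnePoint.infty_ne_coe _) fun x => ?_
    cases x with
    | infty => simp [fix_infty_iff, hc]
    | coe x =>
      rw [fix_some_iff, hc, OnePoint.coe_eq_coe, map_zero, zero_mul, zero_add, eq_div_iff h1',
        sub_eq_zero, mul_comm]
      simp
  · have hc' : algebraMap F E (g 1 0) ≠ 0 := by rwa [Ne, map_eq_zero]
    obtain ⟨τ, hτ⟩ := exists_root_quad (E := E) hE hc (g 1 1 - g 0 0) (-g 0 1)
    rw [map_sub, map_neg] at hτ
    have hd' : (algebraMap F E (g 0 0) + algebraMap F E (g 1 1)) ^ 2 ≠
        4 * (algebraMap F E (g 0 0) * algebraMap F E (g 1 1) -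
          algebraMap F E (g 0 1) * algebraMap F E (g 1 0)) := by
      intro h
      apply hd
      apply (algebraMap F E).injective
      simp only [map_pow, map_add, map_mul, map_sub, map_ofNat]
      exact h
    obtain ⟨τ', hτ'⟩ : ∃ τ' : E, algebraMap F E (g 1 0) * (τ + τ') +
        (algebraMap F E (g 1 1) - algebraMap F E (g 0 0)) = 0 :=
      ⟨(algebraMap F E (g 0 0) - algebraMap F E (g 1 1)) / algebraMap F E (g 1 0) - τ, by
        field_simp
        ring⟩
    have hne : τ ≠ τ' := by
      rintro rfl
      apply hd'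
      linear_combination (algebraMap F E (g 1 0) * (τ + τ) +
        (algebraMap F E (g 1 1) - algebraMap F E (g 0 0))) * hτ' -
        4 * algebraMap F E (g 1 0) * hτ
    refine card_iff_two (p := (τ : OnePoint E)) (q := (τ' : OnePoint E))
      (fun h => hne (OnePoint.coe_eq_coe.1 h)) fun x => ?_
    cases x with
    | infty => simp [fix_infty_iff, hc]
    | coe x =>
      rw [fix_some_iff, OnePoint.coe_eq_coe, OnePoint.coe_eq_coe]
      have h5 : algebraMap F E (g 1 0) * x ^ 2 + (algebraMap F E (g 1 1) -
          algebraMap F E (g 0 0)) * x - algebraMap F E (g 0 1) =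
          algebraMap F E (g 1 0) * ((x - τ) * (x - τ')) := by
        linear_combination (x - τ) * hτ' + hτ
      rw [h5, mul_eq_zero, or_iff_right hc', mul_eq_zero, sub_eq_zero, sub_eq_zero]

section indep

variable {τ : E} (hτ : τ ∉ Set.range (algebraMap F E))

include hτ

omit [Finite F] [Finite E] [DecidableEq E] in
/-- `1, τ` are linearly independent. -/
theorem eq_zero_of_comb {x y : F} (h : algebraMap F E x * τ + algebraMap F E y = 0) :
    x = 0 ∧ y = 0 := by
  have hx : x = 0 := by
    by_contra hx
    apply hτ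
    refine ⟨-y / x, ?_⟩
    have hx' : algebraMap F E x ≠ 0 := by rwa [Ne, map_eq_zero]
    rw [map_div₀, map_neg, div_eq_iff hx']
    linear_combination -h
  subst hx
  rw [map_zero, zero_mul, zero_add, map_eq_zero] at h
  exact ⟨rfl, h⟩

omit [Finite F] [Finite E] [DecidableEq E] in
theorem exists_quad (hE : Module.finrank F E = 2) :
    ∃ t d : F, τ ^ 2 = algebraMap F E t * τ - algebraMap F E d := by
  haveI : FiniteDimensional F E := Module.finite_of_finrank_pos (by omega)
  have hli : LinearIndependent F ![τ, 1] := by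
    rw [LinearIndependent.pair_iff]
    intro x y h
    refine eq_zero_of_comb hτ ?_
    rw [Algebra.smul_def, Algebra.smul_def, mul_one] at h
    exact h
  have hs := hli.span_eq_top_of_card_eq_finrank' (by simp [hE])
  have h2 : τ ^ 2 ∈ Submodule.span F (Set.range ![τ, 1]) := by
    rw [hs]
    exact Submodule.mem_top
  rw [Matrix.range_cons, Matrix.range_cons, Matrix.range_empty, Set.union_empty,
    Set.singleton_union, Submodule.mem_span_pair] at h2
  obtain ⟨t, d, h⟩ := h2
  refine ⟨t, -d, ?_⟩
  rw [← h, map_neg, Algebra.smul_def, Algebra.smul_def]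
  ring

end indep

/-- A point `τ ∈ E` outside `F`: the group `Stab(τ) ≤ GL_2(F)` embeds in `Eˣ` by `g ↦ c τ + d`; so the
order of each subgroup of it divides `q² - 1`. -/
theorem card_stab_dvd (hE : Module.finrank F E = 2) (L : Subgroup (GeneralLinearGroup (Fin 2) F))
    (τ : E) (hτ : τ ∉ Set.range (algebraMap F E))
    (hL : ∀ l ∈ L, mapE F E l • (τ : OnePoint E) = τ) :
    Nat.card L ∣ Nat.card F ^ 2 - 1 := by
  classical
  have hcE : Nat.card E = Nat.card F ^ 2 := by
    haveI : FiniteDimensional F E := Module.finite_of_finrank_pos (by omega)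
    rw [Module.natCard_eq_pow_finrank (K := F), hE]
  have hcu : Nat.card Eˣ = Nat.card F ^ 2 - 1 := by
    rw [Nat.card_units, hcE]
  -- the multiplier
  have hfix : ∀ l ∈ L, algebraMap F E (l 0 0) * τ + algebraMap F E (l 0 1) =
      (algebraMap F E (l 1 0) * τ + algebraMap F E (l 1 1)) * τ := by
    intro l hl
    have h := (fix_some_iff l τ).1 (hL l hl)
    linear_combination -h
  let f0 : L →* E :=
    { toFun := fun l => algebraMap F E (l.1 1 0) * τ + algebraMap F E (l.1 1 1)
      map_one' := by simp
      map_mul' := by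
        intro l l'
        have h := hfix l'.1 l'.2
        have e10 : ((l * l').1 : GeneralLinearGroup (Fin 2) F) 1 0 =
            l.1 1 0 * l'.1 0 0 + l.1 1 1 * l'.1 1 0 := by
          rw [Subgroup.coe_mul, Units.val_mul, Matrix.mul_apply, Fin.sum_univ_two]
        have e11 : ((l * l').1 : GeneralLinearGroup (Fin 2) F) 1 1 =
            l.1 1 0 * l'.1 0 1 + l.1 1 1 * l'.1 1 1 := by
          rw [Subgroup.coe_mul, Units.val_mul, Matrix.mul_apply, Fin.sum_univ_two]
        rw [e10, e11]
        simp only [map_add, map_mul]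
        linear_combination algebraMap F E (l.1 1 0) * h }
  have hinj : Function.Injective f0 := by
    intro l l' h
    have h1 : algebraMap F E (l.1 1 0) * τ + algebraMap F E (l.1 1 1) =
        algebraMap F E (l'.1 1 0) * τ + algebraMap F E (l'.1 1 1) := h
    obtain ⟨h2, h3⟩ := eq_zero_of_comb hτ (x := l.1 1 0 - l'.1 1 0) (y := l.1 1 1 - l'.1 1 1) (by
      rw [map_sub, map_sub]
      linear_combination h1)
    obtain ⟨h4, h5⟩ := eq_zero_of_comb hτ (x := l.1 0 0 - l'.1 0 0) (y := l.1 0 1 - l'.1 0 1) (by
      rw [map_sub, map_sub]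
      linear_combination hfix l.1 l.2 - hfix l'.1 l'.2 + τ * h1)
    apply Subtype.ext
    apply Units.ext
    ext i j
    fin_cases i <;> fin_cases j
    · exact sub_eq_zero.1 h4
    · exact sub_eq_zero.1 h5
    · exact sub_eq_zero.1 h2
    · exact sub_eq_zero.1 h3
  rw [← hcu]
  refine Subgroup.card_dvd_of_injective f0.toHomUnits fun l l' h => hinj ?_
  have := congrArg Units.val h
  simpa using this

/-- For `τ ∈ E` outside `F` there is a matrix `z` without eigenvector over `F` such that fixing `τ` is the
same as commuting with `z` (`τ² = t τ - d`, `z = [[t, -d], [1, 0]]`). -/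
theorem exists_commute (hE : Module.finrank F E = 2) (τ : E)
    (hτ : τ ∉ Set.range (algebraMap F E)) :
    ∃ z : Matrix (Fin 2) (Fin 2) F, ¬ HasEV z ∧ ∀ g : GeneralLinearGroup (Fin 2) F,
      mapE F E g • (τ : OnePoint E) = τ ↔ Commute (g : Matrix (Fin 2) (Fin 2) F) z := by
  obtain ⟨t, d, htd⟩ := exists_quad hτ hE
  refine ⟨!![t, -d; 1, 0], ?_, fun g => ?_⟩
  · rintro ⟨v, r, hv, h⟩
    have h0 := congrFun h 0
    have h1 := congrFun h 1
    simp only [Matrix.mulVec_fin_two, Pi.smul_apply, smul_eq_mul, Matrix.of_apply,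
      Matrix.cons_val', Matrix.cons_val_zero, Matrix.cons_val_one, Matrix.cons_val_fin_one,
      one_mul, zero_mul, add_zero] at h0 h1
    have hv1 : v 1 ≠ 0 := by
      intro hv1
      apply hv
      rw [hv1, mul_zero] at h1
      funext i
      fin_cases i
      · exact h1
      · exact hv1
    have hr : r ^ 2 = t * r - d := by
      apply mul_right_cancel₀ hv1
      rw [h1] at h0
      linear_combination -h0
    have hr' := congrArg (algebraMap F E) hr
    simp only [map_pow, map_sub, map_mul] at hr'
    have h2 : (τ - algebraMap F E r) * (τ - algebraMap F E (t - r)) = 0 := by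
      rw [map_sub]
      linear_combination htd - hr'
    rcases mul_eq_zero.1 h2 with h2 | h2
    · exact hτ ⟨r, (sub_eq_zero.1 h2).symm⟩
    · exact hτ ⟨t - r, (sub_eq_zero.1 h2).symm⟩
  · rw [fix_some_iff]
    have hcm : Commute (g : Matrix (Fin 2) (Fin 2) F) !![t, -d; 1, 0] ↔
        (g 1 0 * t + g 1 1 = g 0 0 ∧ g 0 1 = -(g 1 0 * d)) := by
      constructor
      · intro h
        have h10 := congrFun (congrFun h.eq 1) 0
        have h11 := congrFun (congrFun h.eq 1) 1
        simp only [Matrix.mul_apply, Fin.sum_univ_two, Matrix.of_apply, Matrix.cons_val',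
          Matrix.cons_val_zero, Matrix.cons_val_one, Matrix.cons_val_fin_one, one_mul, zero_mul,
          add_zero, mul_one, mul_zero] at h10 h11
        exact ⟨h10, by rw [← h11]; ring⟩
      · rintro ⟨ha, hb⟩
        change _ * _ = _ * _
        ext i j
        fin_cases i <;> fin_cases j <;>
          simp [Matrix.mul_apply, Fin.sum_univ_two, ← ha, hb] <;> ring
    rw [hcm]
    constructor
    · intro h
      obtain ⟨h1, h2⟩ := eq_zero_of_comb hτ (x := g 1 0 * t + g 1 1 - g 0 0)
        (y := -(g 1 0 * d) - g 0 1) (by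
          simp only [map_add, map_sub, map_mul, map_neg]
          linear_combination h - algebraMap F E (g 1 0) * htd)
      exact ⟨sub_eq_zero.1 h1, (sub_eq_zero.1 h2).symm⟩
    · rintro ⟨ha, hb⟩
      rw [← ha, hb]
      simp only [map_add, map_mul, map_neg]
      linear_combination algebraMap F E (g 1 0) * htd

end Lin43
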