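import Pool.Agent.Lib.MP_43150e_al.Lin.Blk

/-! # `SL_n(F)` is generated by the transvections `1 + c E_ij`; `SL_n(F)` is perfect -/

set_option autoImplicit false

namespace Lin43

open Matrix

variable {n : ℕ} {F : Type*} [Field F]

theorem inS_mul {K : Subgroup (SpecialLinearGroup (Fin n) F)} {A B : Matrix (Fin n) (Fin n) F}
    (hA : inS K A) (hB : inS K B) : inS K (A * B) := by
  obtain ⟨a, ha, rfl⟩ := hA
  obtain ⟨b, hb, rfl⟩ := hB
  exact ⟨a * b, K.mul_mem ha hb, rfl⟩

/-- `w(a) = T_ij(a) T_ji(-a⁻¹) T_ij(a)` -/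
theorem weyl_eq (i j : Fin n) (hij : i ≠ j) {a : F} (ha : a ≠ 0) :
    (1 + Matrix.single i j a) * (1 + Matrix.single j i (-a⁻¹)) * (1 + Matrix.single i j a) =
      1 - Matrix.single i i 1 - Matrix.single j j 1 + Matrix.single i j a -
        Matrix.single j i a⁻¹ := by
  have hji : j ≠ i := hij.symm
  simp only [mul_add, add_mul, mul_one, one_mul, Matrix.single_mul_single_same,
    Matrix.single_mul_single_of_ne _ _ _ _ hji,
    mul_neg, neg_mul, mul_inv_cancel₀ ha, inv_mul_cancel₀ ha, ← Matrix.single_neg]
  abel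

theorem diag_eq (i j : Fin n) (hij : i ≠ j) (a : F) :
    (diagonal fun k => if k = i then a else if k = j then a⁻¹ else 1 :
      Matrix (Fin n) (Fin n) F) =
      1 + Matrix.single i i (a - 1) + Matrix.single j j (a⁻¹ - 1) := by
  ext k l
  by_cases hkl : k = l
  · subst hkl
    rw [Matrix.diagonal_apply_eq, Matrix.add_apply, Matrix.add_apply, Matrix.one_apply_eq,
      Matrix.single_apply, Matrix.single_apply]
    by_cases h1 : k = i
    · subst h1
      simp [hij.symm]
    · by_cases h2 : k = j
      · subst h2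
        simp [h1, hij]
      · simp [h1, h2, Ne.symm h1, Ne.symm h2]
  · rw [Matrix.diagonal_apply_ne _ hkl, Matrix.add_apply, Matrix.add_apply,
      Matrix.one_apply_ne hkl, Matrix.single_apply, Matrix.single_apply,
      if_neg fun h => hkl (h.1.symm.trans h.2), if_neg fun h => hkl (h.1.symm.trans h.2)]
    ring

theorem weyl_mul (i j : Fin n) (hij : i ≠ j) (a : F) :
    (1 - Matrix.single i i 1 - Matrix.single j j 1 + Matrix.single i j a -
        Matrix.single j i a⁻¹) *
      (1 - Matrix.single i i 1 - Matrix.single j j 1 + Matrix.single i j (-1 : F) -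
        Matrix.single j i (-1 : F)⁻¹) =
      1 + Matrix.single i i (a - 1) + Matrix.single j j (a⁻¹ - 1) := by
  have hji : j ≠ i := hij.symm
  have h1 : Matrix.single i i (a - 1) = Matrix.single i i a - Matrix.single i i 1 := by
    rw [sub_eq_add_neg, Matrix.single_add, ← Matrix.single_neg, ← sub_eq_add_neg]
  have h2 : Matrix.single j j (a⁻¹ - 1) = Matrix.single j j a⁻¹ - Matrix.single j j 1 := by
    rw [sub_eq_add_neg, Matrix.single_add, ← Matrix.single_neg, ← sub_eq_add_neg]
  rw [h1, h2]
  simp only [mul_add, add_mul, mul_sub, sub_mul, mul_one, one_mul,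
    Matrix.single_mul_single_same, inv_neg, inv_one,
    Matrix.single_mul_single_of_ne _ _ _ _ hij, Matrix.single_mul_single_of_ne _ _ _ _ hji,
    mul_neg, ← Matrix.single_neg]
  abel

/-- Use `Matrix.SpecialLinearGroup.diagonal_transvection_induction'` (the diagonal elements
`diag2n` are products of transvections, as in `diag2_decompose`). -/
theorem gen (K : Subgroup (SpecialLinearGroup (Fin n) F))
    (h : ∀ (i j : Fin n), i ≠ j → ∀ c : F, inS K (1 + Matrix.single i j c)) : K = ⊤ := by
  rw [eq_top_iff]
  intro M _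
  rcases subsingleton_or_nontrivial (Fin n) with hn | hn
  · have h1 : M = 1 := by
      apply Subtype.ext
      have h2 : (M : Matrix (Fin n) (Fin n) F).det = 1 := M.2
      ext i j
      have hij : i = j := Subsingleton.elim i j
      subst hij
      change (M : Matrix (Fin n) (Fin n) F) i i = (1 : Matrix (Fin n) (Fin n) F) i i
      rw [Matrix.det_eq_elem_of_subsingleton _ i] at h2
      rw [Matrix.one_apply_eq]
      exact h2
    rw [h1]
    exact K.one_mem
  · refine SpecialLinearGroup.diagonal_transvection_induction' (fun A => A ∈ K) M ?_ ?_ ?_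
    · intro i j hij c hc
      have h1 : inS K (diagonal fun k => if k = i then c else if k = j then c⁻¹ else 1) := by
        rw [diag_eq i j hij c, ← weyl_mul i j hij c, ← weyl_eq i j hij hc,
          ← weyl_eq i j hij (neg_ne_zero.2 one_ne_zero)]
        exact inS_mul (inS_mul (inS_mul (h _ _ hij _) (h _ _ hij.symm _)) (h _ _ hij _))
          (inS_mul (inS_mul (h _ _ hij _) (h _ _ hij.symm _)) (h _ _ hij _))
      obtain ⟨k, hk, hkc⟩ := h1
      have h2 : k = SpecialLinearGroup.diag2n hij c hc := Subtype.ext hkc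
      exact h2 ▸ hk
    · intro i j hij a
      obtain ⟨k, hk, hkc⟩ := h i j hij a
      have h2 : k = SpecialLinearGroup.transvection hij a := Subtype.ext hkc
      exact h2 ▸ hk
    · intro A B hA hB
      exact K.mul_mem hA hB

/-- The same for subgroups of `GL_n`. -/
theorem gen_GL (K : Subgroup (GeneralLinearGroup (Fin n) F))
    (h : ∀ (i j : Fin n), i ≠ j → ∀ c : F, inG K (1 + Matrix.single i j c)) :
    ContainsSL K := by
  have h1 : K.comap SpecialLinearGroup.toGL = ⊤ := by
    apply gen
    intro i j hij c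
    obtain ⟨k, hk, hkc⟩ := h i j hij c
    refine ⟨SpecialLinearGroup.transvection hij c, ?_, rfl⟩
    rw [Subgroup.mem_comap]
    have h2 : SpecialLinearGroup.toGL (SpecialLinearGroup.transvection hij c) = k :=
      Units.ext hkc.symm
    rw [h2]
    exact hk
  intro s
  have h2 : s ∈ K.comap SpecialLinearGroup.toGL := by
    rw [h1]
    exact Subgroup.mem_top s
  exact ⟨_, h2, rfl⟩

/-- A field with at least four elements contains `s ≠ 0` with `s² ≠ 1`. -/
theorem exists_sq_ne_one (hF : 4 ≤ Nat.card F) : ∃ s : F, s ≠ 0 ∧ s ^ 2 ≠ 1 := by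
  by_contra hcon
  push Not at hcon
  have hfin : Finite F := Nat.finite_of_card_ne_zero (by omega)
  have := Fintype.ofFinite F
  classical
  have h1 : (Finset.univ : Finset F) ⊆ {0, 1, -1} := by
    intro s _
    rw [Finset.mem_insert, Finset.mem_insert, Finset.mem_singleton]
    by_cases hs : s = 0
    · exact Or.inl hs
    · exact Or.inr (sq_eq_one_iff.1 (hcon s hs))
  have h2 := (Finset.card_le_card h1).trans Finset.card_le_three
  rw [Finset.card_univ, ← Nat.card_eq_fintype_card] at h2
  omega

/-- Each elementary transvection is a commutator of two elements of `SL_n`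
(`t` diagonal with entries `s` at `i` and `s⁻¹` at `j`). -/
theorem transv_comm {s : F} (hs : s ≠ 0) (hs2 : s ^ 2 ≠ 1) (i j : Fin n) (hij : i ≠ j) (c : F) :
    ∃ t u : SpecialLinearGroup (Fin n) F,
      ((t * u * t⁻¹ * u⁻¹ : SpecialLinearGroup (Fin n) F) : Matrix (Fin n) (Fin n) F) =
        1 + Matrix.single i j c := by
  have hs3 : s ^ 2 - 1 ≠ 0 := sub_ne_zero_of_ne hs2
  refine ⟨SpecialLinearGroup.diag2n hij s hs,
    SpecialLinearGroup.transvection hij (c / (s ^ 2 - 1)), ?_⟩
  set b := c / (s ^ 2 - 1) with hb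
  have hbc : s ^ 2 * b = b + c := by
    rw [hb]
    field_simp
    ring
  have h1 : SpecialLinearGroup.diag2n hij s hs * SpecialLinearGroup.transvection hij b *
      (SpecialLinearGroup.diag2n hij s hs)⁻¹ *
        (SpecialLinearGroup.transvection hij b)⁻¹ = SpecialLinearGroup.transvection hij c := by
    rw [mul_inv_eq_iff_eq_mul, mul_inv_eq_iff_eq_mul]
    apply Subtype.ext
    change (diagonal fun k => if k = i then s else if k = j then s⁻¹ else 1) *
      (1 + Matrix.single i j b) = (1 + Matrix.single i j c) * (1 + Matrix.single i j b) *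
      (diagonal fun k => if k = i then s else if k = j then s⁻¹ else 1)
    ext k l
    have h2 : (1 + Matrix.single i j c) * (1 + Matrix.single i j b) =
        1 + Matrix.single i j (b + c) := by
      rw [Matrix.single_add]
      simp only [mul_add, add_mul, mul_one, one_mul,
        Matrix.single_mul_single_of_ne _ _ _ _ hij.symm]
      abel
    rw [h2, Matrix.diagonal_mul, Matrix.mul_diagonal, Matrix.add_apply, Matrix.add_apply,
      Matrix.single_apply, Matrix.single_apply, ← hbc]
    by_cases hkl : k = l
    · subst hkl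
      have h4 : ¬ (i = k ∧ j = k) := fun h => hij (h.1.trans h.2.symm)
      simp [h4]
    · rw [Matrix.one_apply_ne hkl]
      by_cases h3 : i = k ∧ j = l
      · obtain ⟨rfl, rfl⟩ := h3
        rw [if_pos rfl, if_pos ⟨rfl, rfl⟩, if_pos ⟨rfl, rfl⟩, if_neg hij.symm, if_pos rfl]
        field_simp
        ring
      · rw [if_neg h3, if_neg h3]
        ring
  rw [h1]
  rfl

end Lin43
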