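import Pool.Agent.Lib.MP_43150e_al.Lin.Defs

/-! # `3 × 3` matrices without invariant subspaces over a finite field -/

set_option autoImplicit false

namespace Lin43

open Matrix

variable {F : Type*} [Field F]

/-- A root of the characteristic polynomial gives an eigenvector. -/
theorem hasEV_of_root {n : ℕ} (M : Matrix (Fin n) (Fin n) F) (c : F)
    (h : M.charpoly.eval c = 0) : HasEV M := by
  rw [Matrix.eval_charpoly] at h
  obtain ⟨v, hv, hv2⟩ := Matrix.exists_mulVec_eq_zero_iff.2 h
  refine ⟨v, c, hv, ?_⟩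
  rw [Matrix.sub_mulVec, sub_eq_zero] at hv2
  rw [← hv2]
  funext i
  rw [Matrix.scalar_apply, Matrix.mulVec_diagonal, Pi.smul_apply, smul_eq_mul]

/-- Without eigenvector the characteristic polynomial of a `3 × 3` matrix is irreducible. -/
theorem irr_charpoly (z : Matrix (Fin 3) (Fin 3) F) (hz : ¬ HasEV z) :
    Irreducible z.charpoly := by
  have hdeg : z.charpoly.natDegree = 3 := by
    rw [Matrix.charpoly_natDegree_eq_dim, Fintype.card_fin]
  rw [(Matrix.charpoly_monic z).irreducible_iff_roots_eq_zero_of_degree_le_three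
    (by omega) (by omega), Multiset.eq_zero_iff_forall_notMem]
  intro c hc
  exact hz (hasEV_of_root z c (Polynomial.isRoot_of_mem_roots hc))

/-- A polynomial in `z` killing a nonzero vector is zero. -/
theorem dvd_of_aeval_mulVec (z : Matrix (Fin 3) (Fin 3) F) (hz : ¬ HasEV z)
    (h : Polynomial F) (v : Fin 3 → F) (hv : v ≠ 0)
    (h0 : (Polynomial.aeval z h).mulVec v = 0) : z.charpoly ∣ h := by
  by_contra hnd
  obtain ⟨a, b, hab⟩ := (irr_charpoly z hz).coprime_iff_not_dvd.2 hnd
  have h1 : Polynomial.aeval z (a * z.charpoly + b * h) = 1 := by rw [hab, map_one]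
  rw [map_add, map_mul, map_mul, Matrix.aeval_self_charpoly, mul_zero, zero_add] at h1
  have h2 : (Polynomial.aeval z b * Polynomial.aeval z h).mulVec v = v := by
    rw [h1, Matrix.one_mulVec]
  rw [← Matrix.mulVec_mulVec, h0, Matrix.mulVec_zero] at h2
  exact hv h2.symm

theorem aeval_eq_zero_of_dvd (z : Matrix (Fin 3) (Fin 3) F) (h : Polynomial F)
    (hd : z.charpoly ∣ h) : Polynomial.aeval z h = 0 := by
  obtain ⟨g, rfl⟩ := hd
  rw [map_mul, Matrix.aeval_self_charpoly, zero_mul]

theorem commute_aeval {z X : Matrix (Fin 3) (Fin 3) F} (hX : Commute X z) (h : Polynomial F) :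
    Commute X (Polynomial.aeval z h) := by
  rw [Polynomial.aeval_eq_sum_range]
  exact Commute.sum_right _ _ _ fun i _ => (hX.pow_right i).smul_right _

/-- Every vector is `h(z) v`. -/
theorem exists_aeval_mulVec (z : Matrix (Fin 3) (Fin 3) F) (hz : ¬ HasEV z) (v : Fin 3 → F)
    (hv : v ≠ 0) (w : Fin 3 → F) :
    ∃ h : Polynomial F, (Polynomial.aeval z h).mulVec v = w := by
  let T : Polynomial.degreeLT F 3 →ₗ[F] (Fin 3 → F) :=
    (LinearMap.applyₗ v).comp ((Matrix.toLin' : Matrix (Fin 3) (Fin 3) F ≃ₗ[F] _).toLinearMap.comp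
      ((Polynomial.aeval z).toLinearMap.comp (Polynomial.degreeLT F 3).subtype))
  have hT : ∀ g : Polynomial.degreeLT F 3,
      T g = (Polynomial.aeval z (g : Polynomial F)).mulVec v := by
    intro g
    change Matrix.toLin' (Polynomial.aeval z (g : Polynomial F)) v = _
    rw [Matrix.toLin'_apply]
  have hinj : Function.Injective T := by
    rw [← LinearMap.ker_eq_bot, LinearMap.ker_eq_bot']
    intro g hg
    rw [hT] at hg
    have h1 := dvd_of_aeval_mulVec z hz g v hv hg
    have h2 : (g : Polynomial F) = 0 := by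
      by_contra hne
      have h3 := Polynomial.degree_le_of_dvd h1 hne
      have h4 := Polynomial.mem_degreeLT.1 g.2
      rw [Polynomial.degree_eq_natDegree (Matrix.charpoly_monic z).ne_zero,
        Matrix.charpoly_natDegree_eq_dim, Fintype.card_fin] at h3
      exact absurd h4 (not_lt.2 h3)
    exact Subtype.ext h2
  have hsurj : Function.Surjective (T.comp (Polynomial.degreeLTEquiv F 3).symm.toLinearMap) := by
    rw [← LinearMap.injective_iff_surjective]
    intro a b hab
    exact (Polynomial.degreeLTEquiv F 3).symm.injective (hinj hab)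
  obtain ⟨c, hc⟩ := hsurj w
  refine ⟨((Polynomial.degreeLTEquiv F 3).symm c : Polynomial F), ?_⟩
  rw [← hT]
  exact hc

/-- The centraliser of `z` consists of the polynomials in `z`. -/
theorem exists_aeval (z X : Matrix (Fin 3) (Fin 3) F) (hz : ¬ HasEV z) (hX : Commute X z) :
    ∃ g : Polynomial F, X = Polynomial.aeval z g := by
  have hv : (Pi.single 0 1 : Fin 3 → F) ≠ 0 := by
    intro h
    have h1 := congrFun h 0
    rw [Pi.single_eq_same, Pi.zero_apply] at h1
    exact one_ne_zero h1
  obtain ⟨g, hg⟩ := exists_aeval_mulVec z hz _ hv (X.mulVec (Pi.single 0 1))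
  refine ⟨g, ?_⟩
  have h1 : Commute (X - Polynomial.aeval z g) z :=
    hX.sub_left (commute_aeval (Commute.refl z) g).symm
  have h2 : ∀ w : Fin 3 → F, (X - Polynomial.aeval z g).mulVec w = 0 := by
    intro w
    obtain ⟨h, rfl⟩ := exists_aeval_mulVec z hz _ hv w
    rw [Matrix.mulVec_mulVec, (commute_aeval h1 h).eq, ← Matrix.mulVec_mulVec, Matrix.sub_mulVec,
      hg, sub_self, Matrix.mulVec_zero]
  have h3 : X - Polynomial.aeval z g = 0 := by
    apply Matrix.toLin'.injective
    refine LinearMap.ext fun w => ?_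
    rw [Matrix.toLin'_apply, h2, map_zero, LinearMap.zero_apply]
  exact sub_eq_zero.1 h3

/-- `r ≥ 5` prime, `r ∣ q² + q + 1`, `M^r = 1`, `M ≠ 1`: no eigenvector. An eigenvalue `c` has `c^r = 1 = c^(q-1)`,
and `r` does not divide `q - 1` (else `r ∣ 3`), so `c = 1`. The number `q^d` of fixed vectors is `≡ q³ ≡ 1`
mod `r` (group of order `r` acting on `F³`), and `q, q² ≢ 1` mod `r`, so `d = 0` or `d = 3`. -/
theorem no_ev [Fintype F] (r : ℕ) [Fact r.Prime] (hr : 5 ≤ r)
    (hrq : r ∣ Fintype.card F ^ 2 + Fintype.card F + 1) (M : Matrix (Fin 3) (Fin 3) F)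
    (hM : M ^ r = 1) (h1 : M ≠ 1) : ¬ HasEV M := by
  classical
  rintro ⟨v, c, hv, hvc⟩
  have hp : r.Prime := Fact.out
  have hq1 : ¬ (Fintype.card F ≡ 1 [MOD r]) := by
    intro h
    have h3 : Fintype.card F ^ 2 + Fintype.card F + 1 ≡ 1 ^ 2 + 1 + 1 [MOD r] :=
      ((h.pow 2).add h).add_right 1
    have h4 : 1 ^ 2 + 1 + 1 ≡ 0 [MOD r] := h3.symm.trans (Nat.modEq_zero_iff_dvd.2 hrq)
    have h5 := Nat.le_of_dvd (by norm_num) (Nat.modEq_zero_iff_dvd.1 h4)
    omega
  have hq3 : Fintype.card F ^ 3 ≡ 1 [MOD r] := by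
    have h2 : Fintype.card F ^ 3 + (Fintype.card F ^ 2 + Fintype.card F + 1) =
        Fintype.card F * (Fintype.card F ^ 2 + Fintype.card F + 1) + 1 := by ring
    have h3 : Fintype.card F ^ 3 + (Fintype.card F ^ 2 + Fintype.card F + 1) ≡
        Fintype.card F ^ 3 + 0 [MOD r] :=
      (Nat.ModEq.refl _).add (Nat.modEq_zero_iff_dvd.2 hrq)
    have h4 : Fintype.card F * (Fintype.card F ^ 2 + Fintype.card F + 1) + 1 ≡
        Fintype.card F * 0 + 1 [MOD r] :=
      ((Nat.ModEq.refl _).mul (Nat.modEq_zero_iff_dvd.2 hrq)).add_right 1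
    rw [add_zero] at h3
    rw [mul_zero, zero_add] at h4
    exact h3.symm.trans (h2 ▸ h4)
  -- the eigenvalue is one
  have hck : ∀ k : ℕ, (M ^ k).mulVec v = c ^ k • v := by
    intro k
    induction k with
    | zero => rw [pow_zero, pow_zero, Matrix.one_mulVec, one_smul]
    | succ k ih =>
      rw [pow_succ, ← Matrix.mulVec_mulVec, hvc, Matrix.mulVec_smul, ih, smul_smul, pow_succ,
        mul_comm]
  have hcr : c ^ r = 1 := by
    have h2 := hck r
    rw [hM, Matrix.one_mulVec] at h2
    have h3 : (c ^ r - 1) • v = 0 := by rw [sub_smul, one_smul, ← h2, sub_self]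
    rcases smul_eq_zero.1 h3 with h | h
    · exact sub_eq_zero.1 h
    · exact absurd h hv
  have hc0 : c ≠ 0 := by
    intro h
    rw [h, zero_pow hp.ne_zero] at hcr
    exact zero_ne_one hcr
  have hc1 : c = 1 := by
    rcases (Nat.dvd_prime hp).1 (orderOf_dvd_of_pow_eq_one hcr) with h | h
    · exact orderOf_eq_one_iff.1 h
    · exfalso
      have h2 := orderOf_dvd_of_pow_eq_one (FiniteField.pow_card_sub_one_eq_one c hc0)
      rw [h] at h2
      exact hq1 ((Nat.modEq_iff_dvd' Fintype.card_pos).2 h2).symm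
  -- counting fixed vectors
  have hf : (Matrix.toLin' M) ^ r = 1 := by
    rw [← Matrix.toLin'_pow, hM, Matrix.toLin'_one]
    rfl
  let u : (Module.End F (Fin 3 → F))ˣ := Units.ofPowEqOne (Matrix.toLin' M) r hf hp.ne_zero
  have hu : u ^ r = 1 := by
    ext1
    exact hf
  have hG : IsPGroup r (Subgroup.zpowers u) := by
    rintro ⟨g, k, rfl⟩
    refine ⟨1, Subtype.ext ?_⟩
    change (u ^ k) ^ r ^ 1 = 1
    rw [pow_one, ← zpow_natCast, ← _root_.zpow_mul, mul_comm, _root_.zpow_mul, zpow_natCast, hu,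
      _root_.one_zpow]
  let E : Submodule F (Fin 3 → F) := LinearMap.ker (Matrix.toLin' M - 1)
  have hE : ∀ w : Fin 3 → F, w ∈ E ↔ M.mulVec w = w := by
    intro w
    rw [LinearMap.mem_ker, LinearMap.sub_apply, Matrix.toLin'_apply, sub_eq_zero]
    rfl
  have hfix : MulAction.fixedPoints (Subgroup.zpowers u) (Fin 3 → F) = (E : Set (Fin 3 → F)) := by
    ext w
    rw [SetLike.mem_coe, hE, MulAction.mem_fixedPoints]
    constructor
    · intro h
      have h2 := h ⟨u, Subgroup.mem_zpowers u⟩
      have h3 : (⟨u, Subgroup.mem_zpowers u⟩ : Subgroup.zpowers u) • w = M.mulVec w := by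
        change Matrix.toLin' M w = _
        rw [Matrix.toLin'_apply]
      rwa [h3] at h2
    · intro h
      have h2 : u • w = w := by
        change Matrix.toLin' M w = w
        rw [Matrix.toLin'_apply, h]
      have h3 : u ∈ MulAction.stabilizer (Module.End F (Fin 3 → F))ˣ w := h2
      rintro ⟨g, hg⟩
      exact (Subgroup.zpowers_le.2 h3) hg
  have hcount := hG.card_modEq_card_fixedPoints (Fin 3 → F)
  rw [hfix] at hcount
  have hcE : Nat.card (E : Set (Fin 3 → F)) = Fintype.card F ^ Module.finrank F E := by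
    rw [← Nat.card_eq_fintype_card]
    exact Module.natCard_eq_pow_finrank (K := F) (V := E)
  have hcV : Nat.card (Fin 3 → F) = Fintype.card F ^ 3 := by
    rw [Nat.card_eq_fintype_card, Fintype.card_fun, Fintype.card_fin]
  rw [hcE, hcV] at hcount
  have hd1 : Fintype.card F ^ Module.finrank F E ≡ 1 [MOD r] := hcount.symm.trans hq3
  have hvE : v ∈ E := by rw [hE, hvc, hc1, one_smul]
  have hpos : 0 < Module.finrank F E := by
    rw [Module.finrank_pos_iff]
    exact ⟨⟨⟨v, hvE⟩, 0, fun h => hv (congrArg Subtype.val h)⟩⟩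
  have hle : Module.finrank F E ≤ 3 := by
    have h2 := Submodule.finrank_le E
    rwa [Module.finrank_fin_fun] at h2
  have hcases : Module.finrank F E = 1 ∨ Module.finrank F E = 2 ∨ Module.finrank F E = 3 := by
    omega
  rcases hcases with h | h | h
  · rw [h, pow_one] at hd1
    exact hq1 hd1
  · rw [h] at hd1
    have h2 : Fintype.card F ^ 3 ≡ Fintype.card F [MOD r] := by
      have h3 := hd1.mul_right (Fintype.card F)
      rwa [one_mul, ← pow_succ] at h3
    exact hq1 (h2.symm.trans hq3)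
  · have h2 : E = ⊤ := Submodule.eq_top_of_finrank_eq (by rw [h, Module.finrank_fin_fun])
    apply h1
    apply Matrix.toLin'.injective
    refine LinearMap.ext fun w => ?_
    have h3 : w ∈ E := h2 ▸ Submodule.mem_top
    rw [Matrix.toLin'_apply, (hE w).1 h3, Matrix.toLin'_one, LinearMap.id_apply]

/-- If `z` and its transpose have no eigenvector, a matrix commuting with `z` which has an
eigenvector is scalar: its eigenspace is invariant under `z`; an invariant line gives an eigenvector of
`z`, an invariant plane one of the transpose. -/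
theorem scalar_of_commute (z X : Matrix (Fin 3) (Fin 3) F) (hz : ¬ HasEV z) (hzT : ¬ HasEV zᵀ)
    (hX : Commute X z) (hev : HasEV X) : ∃ c : F, X = Matrix.scalar (Fin 3) c := by
  obtain ⟨v, c, hv, hvc⟩ := hev
  obtain ⟨g, rfl⟩ := exists_aeval z X hz hX
  refine ⟨c, ?_⟩
  have h1 : (Polynomial.aeval z (g - Polynomial.C c)).mulVec v = 0 := by
    rw [map_sub, Polynomial.aeval_C, Matrix.sub_mulVec, hvc, Algebra.algebraMap_eq_smul_one,
      Matrix.smul_mulVec, Matrix.one_mulVec, sub_self]
  have h2 := aeval_eq_zero_of_dvd z _ (dvd_of_aeval_mulVec z hz _ v hv h1)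
  rw [map_sub, Polynomial.aeval_C, sub_eq_zero] at h2
  exact h2

/-- ... and the centraliser of `z` is commutative: `v, z v, z² v` is a basis for `v ≠ 0`, so a matrix
commuting with `z` is a polynomial in `z`. -/
theorem commute_of_commute (z X Y : Matrix (Fin 3) (Fin 3) F) (hz : ¬ HasEV z)
    (hzT : ¬ HasEV zᵀ) (hX : Commute X z) (hY : Commute Y z) : Commute X Y := by
  obtain ⟨g, rfl⟩ := exists_aeval z X hz hX
  exact (commute_aeval hY g).symm

/-- At most three matrices commuting with `z` have the same characteristic polynomial as `z` (the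
centraliser of `z` is a commutative ring without zero divisors, they are roots of a cubic). -/
theorem card_charpoly_le [Finite F] (z : Matrix (Fin 3) (Fin 3) F) (hz : ¬ HasEV z)
    (hzT : ¬ HasEV zᵀ) :
    Nat.card {X : Matrix (Fin 3) (Fin 3) F // Commute X z ∧ X.charpoly = z.charpoly} ≤ 3 := by
  classical
  have : Fact (Irreducible z.charpoly) := ⟨irr_charpoly z hz⟩
  have hv : (Pi.single 0 1 : Fin 3 → F) ≠ 0 := by
    intro h
    have h1 := congrFun h 0
    rw [Pi.single_eq_same, Pi.zero_apply] at h1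
    exact one_ne_zero h1
  choose g hg using fun X : {X : Matrix (Fin 3) (Fin 3) F //
    Commute X z ∧ X.charpoly = z.charpoly} => exists_aeval z X.1 hz X.2.1
  let L := AdjoinRoot z.charpoly
  let Q : Polynomial L := z.charpoly.map (AdjoinRoot.of z.charpoly)
  have hQ : Q ≠ 0 := (Polynomial.map_monic_ne_zero (Matrix.charpoly_monic z))
  have hroot : ∀ X, AdjoinRoot.mk z.charpoly (g X) ∈ Q.roots.toFinset := by
    intro X
    rw [Multiset.mem_toFinset, Polynomial.mem_roots hQ, Polynomial.IsRoot.def, Polynomial.eval_map]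
    have h1 : z.charpoly.eval₂ (AdjoinRoot.of z.charpoly) (AdjoinRoot.mk z.charpoly (g X)) =
        AdjoinRoot.mk z.charpoly (z.charpoly.comp (g X)) := by
      rw [Polynomial.comp, Polynomial.hom_eval₂]
      rfl
    rw [h1, AdjoinRoot.mk_eq_zero]
    refine dvd_of_aeval_mulVec z hz _ _ hv ?_
    have h2 : Polynomial.aeval X.1 z.charpoly = 0 := by
      have h3 := Matrix.aeval_self_charpoly X.1
      rwa [X.2.2] at h3
    rw [Polynomial.aeval_comp, ← hg X, h2, Matrix.zero_mulVec]
  have hinj : Function.Injective (fun X => (⟨AdjoinRoot.mk z.charpoly (g X), hroot X⟩ :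
      {x // x ∈ Q.roots.toFinset})) := by
    intro X Y hXY
    have h1 := congrArg Subtype.val hXY
    have h2 := AdjoinRoot.mk_eq_mk.1 h1
    have h3 := aeval_eq_zero_of_dvd z _ h2
    rw [map_sub, ← hg X, ← hg Y, sub_eq_zero] at h3
    exact Subtype.ext h3
  have h4 := Nat.card_le_card_of_injective _ hinj
  have h5 : Nat.card {x // x ∈ Q.roots.toFinset} = Q.roots.toFinset.card := by
    rw [Nat.card_eq_fintype_card, Fintype.card_coe]
  rw [h5] at h4
  refine h4.trans ((Multiset.toFinset_card_le _).trans ((Polynomial.card_roots' Q).trans ?_))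
  rw [Polynomial.natDegree_map_eq_of_injective (AdjoinRoot.of z.charpoly).injective,
    Matrix.charpoly_natDegree_eq_dim, Fintype.card_fin]

/-- `q² + q + 1` has a prime divisor `r ≥ 5` (it is odd and not divisible by `9`). -/
theorem exists_prime_five_le (q : ℕ) (hq : 2 ≤ q) :
    ∃ r : ℕ, r.Prime ∧ 5 ≤ r ∧ r ∣ q ^ 2 + q + 1 := by
  have h2 : ¬ 2 ∣ q ^ 2 + q + 1 := by
    intro h
    rcases Nat.even_or_odd' q with ⟨k, rfl | rfl⟩
    · ring_nf at h
      omega
    · ring_nf at h
      omega
  have h9 : ¬ 9 ∣ q ^ 2 + q + 1 := by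
    intro h
    have h1 : (q ^ 2 + q + 1) % 9 = 0 := Nat.mod_eq_zero_of_dvd h
    have h2 : q % 9 < 9 := Nat.mod_lt _ (by norm_num)
    rw [Nat.add_mod, Nat.add_mod (q ^ 2), Nat.pow_mod] at h1
    interval_cases (q % 9) <;> simp at h1
  have hbig : 7 ≤ q ^ 2 + q + 1 := by nlinarith
  have key : ∀ N : ℕ, N ≠ 1 → ¬ 2 ∣ N → ¬ 3 ∣ N → N ∣ q ^ 2 + q + 1 →
      ∃ r : ℕ, r.Prime ∧ 5 ≤ r ∧ r ∣ q ^ 2 + q + 1 := by
    intro N hN hN2 hN3 hNd
    refine ⟨N.minFac, Nat.minFac_prime hN, ?_, (Nat.minFac_dvd N).trans hNd⟩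
    have hp := Nat.minFac_prime hN
    have hd := Nat.minFac_dvd N
    by_contra hlt
    have h1 : N.minFac < 5 := not_le.1 hlt
    have h2 := hp.two_le
    interval_cases hm : N.minFac
    · exact hN2 hd
    · exact hN3 hd
    · revert hp
      norm_num
  by_cases h3 : 3 ∣ q ^ 2 + q + 1
  · obtain ⟨M, hM⟩ := h3
    refine key M ?_ ?_ ?_ ⟨3, by rw [hM, mul_comm]⟩
    · intro h
      rw [h] at hM
      omega
    · rintro ⟨k, rfl⟩
      exact h2 ⟨3 * k, by rw [hM]; ring⟩
    · rintro ⟨k, rfl⟩
      exact h9 ⟨k, by rw [hM]; ring⟩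
  · exact key _ (by omega) h2 h3 dvd_rfl

end Lin43
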