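import Pool.Agent.Lib.MP_43150e_al.Lin.Blk

/-! # Kolchin: a `p`-subgroup of `SL_n(F)`, `char F = p`, is conjugate into `U`; `N(U) = B` -/

set_option autoImplicit false

namespace Lin43

open Matrix

/-- Powers of `blk 1 w D`. -/
theorem kol_blk_pow {m : ℕ} {F : Type*} [Field F] (w : Fin m → F) (D : Matrix (Fin m) (Fin m) F)
    (k : ℕ) : ∃ w' : Fin m → F, (blk 1 w D) ^ k = blk 1 w' (D ^ k) := by
  induction k with
  | zero => exact ⟨0, by rw [pow_zero, pow_zero, blk_one]⟩
  | succ k ih =>
    obtain ⟨w', h⟩ := ih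
    exact ⟨_, by rw [pow_succ, h, blk_mul, one_mul, ← pow_succ]⟩

/-- A matrix of determinant one whose first column is a multiple of a given nonzero vector. -/
theorem kol_exists {m : ℕ} {F : Type*} [Field F] (v : Fin (m + 1) → F) (hv : v ≠ 0) :
    ∃ (s : SpecialLinearGroup (Fin (m + 1)) F) (c : F), c ≠ 0 ∧
      ∀ i, (s : Matrix (Fin (m + 1)) (Fin (m + 1)) F) i 0 = c * v i := by
  obtain ⟨i, hi⟩ := Function.ne_iff.1 hv
  have hi' : v i ≠ 0 := hi
  set M : Matrix (Fin (m + 1)) (Fin (m + 1)) F :=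
    ((1 : Matrix (Fin (m + 1)) (Fin (m + 1)) F).updateCol i v).submatrix id (Equiv.swap 0 i)
    with hM
  have h1 : ((1 : Matrix (Fin (m + 1)) (Fin (m + 1)) F).updateCol i v).det = v i := by
    rw [← Matrix.cramer_apply, Matrix.cramer_one]
    rfl
  have h2 : M.det ≠ 0 := by
    rw [hM, Matrix.det_permute', h1]
    refine mul_ne_zero ?_ hi'
    rcases Int.units_eq_one_or (Equiv.Perm.sign (Equiv.swap (0 : Fin (m + 1)) i)) with h | h
    · rw [h]
      simp
    · rw [h]
      simp
  have h3 : ∀ j, M j 0 = v j := by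
    intro j
    rw [hM, Matrix.submatrix_apply, Equiv.swap_apply_left, id, Matrix.updateCol_self]
  refine ⟨⟨M.updateCol 0 (M.det⁻¹ • fun j => M j 0), ?_⟩, M.det⁻¹, inv_ne_zero h2, fun j => ?_⟩
  · rw [Matrix.det_updateCol_smul]
    have h4 : M.updateCol 0 (fun j => M j 0) = M := by
      ext a b
      rw [Matrix.updateCol_apply]
      split_ifs with h
      · rw [h]
      · rfl
    rw [h4]
    exact inv_mul_cancel₀ h2
  · change M.updateCol 0 (M.det⁻¹ • fun j => M j 0) j 0 = _
    rw [Matrix.updateCol_self, Pi.smul_apply, smul_eq_mul, h3]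

/-- A `p`-group acting linearly on a nonzero finite vector space of characteristic `p` fixes a
nonzero vector (count fixed points mod `p`: `IsPGroup.card_modEq_card_fixedPoints`). -/
theorem kol_fix {n : ℕ} {F : Type*} [Field F] [Finite F] (p : ℕ) [Fact p.Prime] [CharP F p]
    (V : Subgroup (SpecialLinearGroup (Fin (n + 1)) F)) (hV : IsPGroup p V) :
    ∃ x : Fin (n + 1) → F, x ≠ 0 ∧ ∀ v ∈ V,
      (v : Matrix (Fin (n + 1)) (Fin (n + 1)) F).mulVec x = x := by
  classical
  let _ : MulAction V (Fin (n + 1) → F) :=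
    { smul := fun u x => ((u : SpecialLinearGroup (Fin (n + 1)) F) :
        Matrix (Fin (n + 1)) (Fin (n + 1)) F).mulVec x
      one_smul := fun x => by
        change ((1 : SpecialLinearGroup (Fin (n + 1)) F) :
          Matrix (Fin (n + 1)) (Fin (n + 1)) F).mulVec x = x
        rw [Matrix.SpecialLinearGroup.coe_one, Matrix.one_mulVec]
      mul_smul := fun u u' x => by
        change (((u : SpecialLinearGroup (Fin (n + 1)) F) * (u' : SpecialLinearGroup (Fin (n + 1)) F) :
          SpecialLinearGroup (Fin (n + 1)) F) :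
          Matrix (Fin (n + 1)) (Fin (n + 1)) F).mulVec x = _
        rw [Matrix.SpecialLinearGroup.coe_mul, ← Matrix.mulVec_mulVec]
        rfl }
  have h0 : (0 : Fin (n + 1) → F) ∈ MulAction.fixedPoints V (Fin (n + 1) → F) := by
    intro u
    change ((u : SpecialLinearGroup (Fin (n + 1)) F) :
        Matrix (Fin (n + 1)) (Fin (n + 1)) F).mulVec 0 = 0
    exact Matrix.mulVec_zero _
  have hd : p ∣ Nat.card (Fin (n + 1) → F) := by
    have := Fintype.ofFinite F
    rw [Nat.card_fun, Nat.card_eq_fintype_card (α := F), Nat.card_eq_fintype_card,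
      Fintype.card_fin, pow_succ]
    refine Dvd.dvd.mul_left ?_ _
    rw [← CharP.cast_eq_zero_iff F p]
    exact Nat.cast_card_eq_zero F
  obtain ⟨x, hx, hne⟩ := hV.exists_fixed_point_of_prime_dvd_card_of_fixed_point _ hd h0
  exact ⟨x, hne.symm, fun v hv => hx ⟨v, hv⟩⟩

/-- A `p`-group acting linearly on a nonzero finite vector space of characteristic `p` fixes a
nonzero vector (count fixed points mod `p`: `IsPGroup.card_modEq_card_fixedPoints`); then
induction on `n` through the block form `blk 1 w D`. -/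
theorem kolchin {n : ℕ} {F : Type*} [Field F] [Finite F] (p : ℕ) [Fact p.Prime] [CharP F p]
    (V : Subgroup (SpecialLinearGroup (Fin n) F)) (hV : IsPGroup p V) :
    ∃ m : SpecialLinearGroup (Fin n) F, ∀ v ∈ V,
      UU ((m⁻¹ * v * m : SpecialLinearGroup (Fin n) F) : Matrix (Fin n) (Fin n) F) := by
  induction n with
  | zero => exact ⟨1, fun v _ => ⟨fun i => i.elim0, fun i => i.elim0⟩⟩
  | succ n ih =>
    obtain ⟨x, hx0, hx⟩ := kol_fix p V hV
    obtain ⟨s, c, hc, hs⟩ := kol_exists x hx0
    -- the conjugates fix the first basis vector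
    have hcol : ∀ v ∈ V, ∀ i, ((s⁻¹ * v * s : SpecialLinearGroup (Fin (n + 1)) F) :
        Matrix (Fin (n + 1)) (Fin (n + 1)) F) i 0 = if i = 0 then 1 else 0 := by
      intro v hv i
      have e1 : (s : Matrix (Fin (n + 1)) (Fin (n + 1)) F).mulVec (Pi.single 0 1) = c • x := by
        ext j
        rw [Matrix.mulVec_single_one, Pi.smul_apply, smul_eq_mul]
        exact hs j
      have e2 : ((s⁻¹ * v * s : SpecialLinearGroup (Fin (n + 1)) F) :
          Matrix (Fin (n + 1)) (Fin (n + 1)) F).mulVec (Pi.single 0 1) = Pi.single 0 1 := by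
        rw [Matrix.SpecialLinearGroup.coe_mul, Matrix.SpecialLinearGroup.coe_mul, ← Matrix.mulVec_mulVec,
          ← Matrix.mulVec_mulVec, e1, Matrix.mulVec_smul, hx v hv, ← e1, Matrix.mulVec_mulVec,
          ← Matrix.SpecialLinearGroup.coe_mul, inv_mul_cancel, Matrix.SpecialLinearGroup.coe_one,
          Matrix.one_mulVec]
      have e3 := congrFun e2 i
      rw [Matrix.mulVec_single_one] at e3
      rw [Pi.single_apply] at e3
      exact e3
    have hblk : ∀ v ∈ V, ∃ (w : Fin n → F) (d : SpecialLinearGroup (Fin n) F),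
        ((s⁻¹ * v * s : SpecialLinearGroup (Fin (n + 1)) F) :
          Matrix (Fin (n + 1)) (Fin (n + 1)) F) = blk 1 w d := by
      intro v hv
      obtain ⟨w, D, hD⟩ := exists_blk ((s⁻¹ * v * s : SpecialLinearGroup (Fin (n + 1)) F) :
        Matrix (Fin (n + 1)) (Fin (n + 1)) F) fun i hi => by rw [hcol v hv, if_neg hi]
      rw [hcol v hv, if_pos rfl] at hD
      have hdet : D.det = 1 := by
        have h1 := (s⁻¹ * v * s : SpecialLinearGroup (Fin (n + 1)) F).2
        change ((s⁻¹ * v * s : SpecialLinearGroup (Fin (n + 1)) F) :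
          Matrix (Fin (n + 1)) (Fin (n + 1)) F).det = 1 at h1
        rw [hD, blk_det, one_mul] at h1
        exact h1
      exact ⟨w, ⟨D, hdet⟩, hD⟩
    let V' : Subgroup (SpecialLinearGroup (Fin n) F) :=
      { carrier := {d | ∃ v ∈ V, ∃ w : Fin n → F,
          ((s⁻¹ * v * s : SpecialLinearGroup (Fin (n + 1)) F) :
            Matrix (Fin (n + 1)) (Fin (n + 1)) F) = blk 1 w d}
        one_mem' := by
          refine ⟨1, V.one_mem, 0, ?_⟩
          rw [mul_one, inv_mul_cancel, Matrix.SpecialLinearGroup.coe_one, Matrix.SpecialLinearGroup.coe_one,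
            blk_one]
        mul_mem' := by
          rintro d d' ⟨v, hv, w, h⟩ ⟨v', hv', w', h'⟩
          refine ⟨v * v', V.mul_mem hv hv', (1 : F) • w' + Matrix.vecMul w d', ?_⟩
          have e : s⁻¹ * (v * v') * s = (s⁻¹ * v * s) * (s⁻¹ * v' * s) := by group
          rw [e, Matrix.SpecialLinearGroup.coe_mul, h, h', blk_mul, one_mul, Matrix.SpecialLinearGroup.coe_mul]
        inv_mem' := by
          rintro d ⟨v, hv, w, h⟩
          obtain ⟨w', d', h'⟩ := hblk v⁻¹ (V.inv_mem hv)
          refine ⟨v⁻¹, V.inv_mem hv, w', ?_⟩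
          have e : (s⁻¹ * v * s) * (s⁻¹ * v⁻¹ * s) = 1 := by group
          have e1 := congrArg (fun g : SpecialLinearGroup (Fin (n + 1)) F =>
            (g : Matrix (Fin (n + 1)) (Fin (n + 1)) F)) e
          simp only [Matrix.SpecialLinearGroup.coe_mul (s⁻¹ * v * s), Matrix.SpecialLinearGroup.coe_one] at e1
          rw [h, h', blk_mul, ← blk_one] at e1
          obtain ⟨-, -, e2⟩ := blk_inj e1
          have e3 : d * d' = 1 := Subtype.ext e2
          rw [h', eq_inv_of_mul_eq_one_right e3] }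
    have hV' : IsPGroup p V' := by
      rintro ⟨d, v, hv, w, h⟩
      obtain ⟨k, hk⟩ := hV ⟨v, hv⟩
      have hk' : v ^ p ^ k = 1 := congrArg Subtype.val hk
      refine ⟨k, Subtype.ext (Subtype.ext ?_)⟩
      obtain ⟨w', hw'⟩ := kol_blk_pow w (d : Matrix (Fin n) (Fin n) F) (p ^ k)
      have e : (s⁻¹ * v * s) ^ p ^ k = 1 := by
        have e0 : s⁻¹ * v * s = s⁻¹ * v * (s⁻¹)⁻¹ := by rw [inv_inv]
        rw [e0, conj_pow, hk', mul_one, mul_inv_cancel]
      have e1 := congrArg (fun g : SpecialLinearGroup (Fin (n + 1)) F =>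
        (g : Matrix (Fin (n + 1)) (Fin (n + 1)) F)) e
      simp only [Matrix.SpecialLinearGroup.coe_pow, Matrix.SpecialLinearGroup.coe_one] at e1
      rw [h, hw', ← blk_one] at e1
      obtain ⟨-, -, e2⟩ := blk_inj e1
      change ((d ^ p ^ k : SpecialLinearGroup (Fin n) F) : Matrix (Fin n) (Fin n) F) = 1
      rw [Matrix.SpecialLinearGroup.coe_pow, e2]
    obtain ⟨m', hm'⟩ := ih V' hV'
    have hdet : (blk (1 : F) 0 (m' : Matrix (Fin n) (Fin n) F)).det = 1 := by
      rw [blk_det, one_mul]
      exact m'.2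
    have hdet' : (blk (1 : F) 0 ((m'⁻¹ : SpecialLinearGroup (Fin n) F) :
        Matrix (Fin n) (Fin n) F)).det = 1 := by
      rw [blk_det, one_mul]
      exact (m'⁻¹).2
    let M : SpecialLinearGroup (Fin (n + 1)) F := ⟨blk (1 : F) 0 m', hdet⟩
    let M' : SpecialLinearGroup (Fin (n + 1)) F := ⟨blk (1 : F) 0
      ((m'⁻¹ : SpecialLinearGroup (Fin n) F) : Matrix (Fin n) (Fin n) F), hdet'⟩
    have hMM : M' * M = 1 := by
      refine Subtype.ext ?_
      change blk (1 : F) 0 ((m'⁻¹ : SpecialLinearGroup (Fin n) F) : Matrix (Fin n) (Fin n) F) *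
        blk (1 : F) 0 (m' : Matrix (Fin n) (Fin n) F) = 1
      rw [blk_mul, ← Matrix.SpecialLinearGroup.coe_mul, inv_mul_cancel, Matrix.SpecialLinearGroup.coe_one,
        Matrix.zero_vecMul, smul_zero, add_zero, one_mul, blk_one]
    refine ⟨s * M, fun v hv => ?_⟩
    obtain ⟨w, d, h⟩ := hblk v hv
    have e : (s * M)⁻¹ * v * (s * M) = M' * (s⁻¹ * v * s) * M := by
      rw [eq_inv_of_mul_eq_one_left hMM]
      group
    obtain ⟨hU1, hU2⟩ := hm' d ⟨v, hv, w, h⟩
    have e4 : ((M' * (s⁻¹ * v * s) * M : SpecialLinearGroup (Fin (n + 1)) F) :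
        Matrix (Fin (n + 1)) (Fin (n + 1)) F) = blk 1 (Matrix.vecMul w m')
          ((m'⁻¹ * d * m' : SpecialLinearGroup (Fin n) F) : Matrix (Fin n) (Fin n) F) := by
      rw [Matrix.SpecialLinearGroup.coe_mul, Matrix.SpecialLinearGroup.coe_mul, h]
      change blk (1 : F) 0 ((m'⁻¹ : SpecialLinearGroup (Fin n) F) : Matrix (Fin n) (Fin n) F) *
        blk 1 w d * blk (1 : F) 0 (m' : Matrix (Fin n) (Fin n) F) = _
      rw [blk_mul, blk_mul, Matrix.SpecialLinearGroup.coe_mul, Matrix.SpecialLinearGroup.coe_mul,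
        Matrix.zero_vecMul, add_zero, one_smul, one_mul, one_mul, smul_zero, zero_add]
    rw [e, e4]
    refine ⟨(blk_UT _ _ _).2 hU1, fun i => ?_⟩
    refine Fin.cases ?_ (fun i => ?_) i
    · rfl
    · exact hU2 i

/-- The powers of a strictly upper triangular matrix. -/
theorem kol_nil {n : ℕ} {F : Type*} [Field F] (N : Matrix (Fin n) (Fin n) F)
    (hN : ∀ i j : Fin n, j ≤ i → N i j = 0) (k : ℕ) :
    ∀ i j : Fin n, (j : ℕ) < i + k → (N ^ k) i j = 0 := by
  induction k with
  | zero =>
    intro i j h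
    rw [pow_zero, Matrix.one_apply_ne]
    rintro rfl
    omega
  | succ k ih =>
    intro i j h
    rw [pow_succ, Matrix.mul_apply]
    refine Finset.sum_eq_zero fun l _ => ?_
    by_cases hl : (l : ℕ) < i + k
    · rw [ih i l hl, zero_mul]
    · rw [hN l j (by rw [Fin.le_def]; omega), mul_zero]

/-- `U` is a `p`-group. -/
theorem isPGroup_uniS {n : ℕ} {F : Type*} [Field F] [Finite F] (p : ℕ) [Fact p.Prime]
    [CharP F p] : IsPGroup p (uniS n F) := by
  rintro ⟨u, hu⟩
  rcases Nat.eq_zero_or_pos n with rfl | hn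
  · exact ⟨0, Subsingleton.elim _ _⟩
  have : Nonempty (Fin n) := ⟨⟨0, hn⟩⟩
  refine ⟨n, Subtype.ext (Subtype.ext ?_)⟩
  change ((u ^ p ^ n : SpecialLinearGroup (Fin n) F) : Matrix (Fin n) (Fin n) F) = 1
  have e : (u : Matrix (Fin n) (Fin n) F) = 1 + ((u : Matrix (Fin n) (Fin n) F) - 1) := by abel
  have h1 : ((u : Matrix (Fin n) (Fin n) F) - 1) ^ p ^ n = 0 := by
    have h2 : ((u : Matrix (Fin n) (Fin n) F) - 1) ^ n = 0 := by
      ext i j
      refine kol_nil _ (fun i j hij => ?_) n i j (by omega)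
      rw [Matrix.sub_apply]
      rcases hij.lt_or_eq with h | h
      · rw [hu.1 i j h, Matrix.one_apply_ne h.ne', sub_zero]
      · rw [h, hu.2 i, Matrix.one_apply_eq, sub_self]
    have h3 : n ≤ p ^ n := (Nat.lt_pow_self (Fact.out : p.Prime).one_lt).le
    exact pow_eq_zero_of_le h3 h2
  rw [Matrix.SpecialLinearGroup.coe_pow, e, add_pow_char_pow_of_commute _ _ (Commute.one_left _),
    one_pow, h1, add_zero]

/-- The normaliser of `U` is `B`: if `s⁻¹ u s ∈ U` for all `u ∈ U` then `s ∈ B`. With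
`E_i = span(e_0, .., e_(i-1))`: `(u - 1) v ∈ E_i` for all `u ∈ U` iff `v ∈ E_(i+1)`; induction on
`i` shows `s E_i ≤ E_i`. -/
theorem norm_uni {n : ℕ} {F : Type*} [Field F] (s : SpecialLinearGroup (Fin n) F)
    (h : ∀ u : SpecialLinearGroup (Fin n) F, UU (u : Matrix (Fin n) (Fin n) F) →
      UU ((s⁻¹ * u * s : SpecialLinearGroup (Fin n) F) : Matrix (Fin n) (Fin n) F)) :
    UT (s : Matrix (Fin n) (Fin n) F) := by
  have key : ∀ k : ℕ, ∀ b : Fin n, (b : ℕ) = k → ∀ a : Fin n, b < a →
      (s : Matrix (Fin n) (Fin n) F) a b = 0 := by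
    intro k
    induction k using Nat.strong_induction_on with
    | _ k ih =>
      intro b hb a hab
      let u : SpecialLinearGroup (Fin n) F := ⟨Matrix.transvection b a 1,
        Matrix.det_transvection_of_ne b a hab.ne 1⟩
      have hu : UU (u : Matrix (Fin n) (Fin n) F) := by
        constructor
        · intro i j hij
          change Matrix.transvection b a (1 : F) i j = 0
          rw [Matrix.transvection, Matrix.add_apply, Matrix.one_apply_ne hij.ne', zero_add,
            Matrix.single_apply, if_neg]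
          rintro ⟨rfl, rfl⟩
          exact lt_asymm hij hab
        · intro i
          change Matrix.transvection b a (1 : F) i i = 1
          rw [Matrix.transvection, Matrix.add_apply, Matrix.one_apply_eq, Matrix.single_apply,
            if_neg, add_zero]
          rintro ⟨rfl, h2⟩
          exact hab.ne h2.symm
      obtain ⟨h1, h2⟩ := h u hu
      have e : u * s = s * (s⁻¹ * u * s) := by group
      have e1 := congrArg (fun g : SpecialLinearGroup (Fin n) F =>
        (g : Matrix (Fin n) (Fin n) F) b b) e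
      simp only [Matrix.SpecialLinearGroup.coe_mul u s, Matrix.SpecialLinearGroup.coe_mul s] at e1
      have e2 : ((u : Matrix (Fin n) (Fin n) F) * (s : Matrix (Fin n) (Fin n) F)) b b =
          (s : Matrix (Fin n) (Fin n) F) b b + (s : Matrix (Fin n) (Fin n) F) a b := by
        change (Matrix.transvection b a (1 : F) * (s : Matrix (Fin n) (Fin n) F)) b b = _
        rw [Matrix.transvection_mul_apply_same, one_mul]
      rw [e2, Matrix.mul_apply, Finset.sum_eq_single b] at e1
      · rw [h2 b, mul_one] at e1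
        exact left_eq_add.1 e1.symm
      · intro j _ hj
        rcases lt_or_gt_of_ne hj with h3 | h3
        · rw [ih j (by rw [← hb]; exact h3) j rfl b h3, zero_mul]
        · rw [h1 j b h3, mul_zero]
      · intro hne
        exact absurd (Finset.mem_univ b) hne
  intro i j hij
  exact key j j rfl i hij

end Lin43
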