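import Pool.Agent.Lib.MP_43150e_al.Lin.N2F
import Pool.Agent.Lib.MP_43150e_al.Lin.BlockL

/-! # `n = 2`: the point stabiliser is `N(F[z])` (paragraph 7) -/

set_option autoImplicit false

namespace Lin43

open Matrix MulAction

/-- Cayley - Hamilton for `2 × 2` matrices. -/
theorem n2b_ch {F : Type*} [Field F] (M : Matrix (Fin 2) (Fin 2) F) :
    M * M = M.trace • M - M.det • (1 : Matrix (Fin 2) (Fin 2) F) := by
  ext i j
  rw [Matrix.mul_apply, Fin.sum_univ_two, Matrix.sub_apply, Matrix.smul_apply, Matrix.smul_apply,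
    Matrix.trace_fin_two, Matrix.det_fin_two, smul_eq_mul, smul_eq_mul, Matrix.one_apply]
  fin_cases i <;> fin_cases j <;> simp <;> ring

theorem n2b_scalar {F : Type*} [Field F] (t : F) :
    Matrix.scalar (Fin 2) t = t • (1 : Matrix (Fin 2) (Fin 2) F) := by
  rw [Matrix.scalar_apply, Matrix.smul_one_eq_diagonal]

/-- For `c` commuting with `z`, `c² ≠ 1`: `c = a + b z` with `b ≠ 0`. -/
theorem n2b_ab {F : Type*} [Field F] (z : Matrix (Fin 2) (Fin 2) F) (hz : ¬ HasEV z)
    (c : SpecialLinearGroup (Fin 2) F) (hcz : Commute (c : Matrix (Fin 2) (Fin 2) F) z)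
    (h1 : (c : Matrix (Fin 2) (Fin 2) F) * c ≠ 1) :
    ∃ a b : F, b ≠ 0 ∧ (c : Matrix (Fin 2) (Fin 2) F) =
      a • (1 : Matrix (Fin 2) (Fin 2) F) + b • z := by
  obtain ⟨a, b, hab⟩ := exists_ab z _ hz hcz
  refine ⟨a, b, ?_, hab⟩
  intro hb
  rw [hb, zero_smul, add_zero] at hab
  have h2 : (c : Matrix (Fin 2) (Fin 2) F).det = 1 := c.2
  rw [hab, Matrix.det_smul, Matrix.det_one, mul_one, Fintype.card_fin] at h2
  apply h1
  rw [hab, Matrix.smul_mul, Matrix.one_mul, smul_smul, ← pow_two, h2, one_smul]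

/-- If `z'` commutes with `z`, with the same trace and determinant, then `z' = z` or
`z' = tr z - z`. -/
theorem n2b_two {F : Type*} [Field F] (z z' : Matrix (Fin 2) (Fin 2) F) (hz : ¬ HasEV z)
    (hc : z' * z = z * z') (ht : z'.trace = z.trace) (hd : z'.det = z.det) :
    z' = z ∨ z' = z.trace • (1 : Matrix (Fin 2) (Fin 2) F) - z := by
  have h1 := n2b_ch z
  have h2 := n2b_ch z'
  rw [ht, hd] at h2
  have h3 : (z' - z) * (z' - (z.trace • (1 : Matrix (Fin 2) (Fin 2) F) - z)) = 0 := by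
    have h4 : (z' - z) * (z' - (z.trace • (1 : Matrix (Fin 2) (Fin 2) F) - z)) =
        z' * z' - z.trace • z' + (z' * z - z * z') + (z.trace • z - z * z) := by
      simp only [Matrix.mul_sub, Matrix.sub_mul, Matrix.mul_smul, Matrix.mul_one, smul_sub]
      abel
    rw [h4, h1, h2, hc]
    abel
  by_contra hcon
  rw [not_or] at hcon
  have h5 : (z' - z).det ≠ 0 := by
    refine det_ne_zero_of_commute z _ hz ?_ (sub_ne_zero.2 hcon.1)
    show (z' - z) * z = z * (z' - z)
    rw [Matrix.sub_mul, Matrix.mul_sub, hc]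
  have h6 : (z' - (z.trace • (1 : Matrix (Fin 2) (Fin 2) F) - z)).det ≠ 0 := by
    refine det_ne_zero_of_commute z _ hz ?_ (sub_ne_zero.2 hcon.2)
    show (z' - (z.trace • (1 : Matrix (Fin 2) (Fin 2) F) - z)) * z =
      z * (z' - (z.trace • (1 : Matrix (Fin 2) (Fin 2) F) - z))
    simp only [Matrix.mul_sub, Matrix.sub_mul, Matrix.mul_smul, Matrix.smul_mul, Matrix.mul_one,
      Matrix.one_mul, hc]
  have h7 := congrArg Matrix.det h3
  rw [Matrix.det_mul, Matrix.det_zero] at h7
  exact (mul_ne_zero h5 h6) h7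

/-- For `c` commuting with `z`, `c² ≠ ±1`: `s ∈ nz z` iff the images of `s c s⁻¹` and `c` in `PSL_2(F)`
commute (if `c' c = - c c'` then `tr c = 0`, `c² = -1`). -/
theorem mem_nz_iff {F : Type*} [Field F] (z : Matrix (Fin 2) (Fin 2) F) (hz : ¬ HasEV z)
    (c : SpecialLinearGroup (Fin 2) F) (hcz : Commute (c : Matrix (Fin 2) (Fin 2) F) z)
    (h1 : (c : Matrix (Fin 2) (Fin 2) F) * c ≠ 1)
    (h2 : (c : Matrix (Fin 2) (Fin 2) F) * c ≠ -1) (s : SpecialLinearGroup (Fin 2) F) :
    s ∈ nz z ↔ Commute (toP 2 F (s * c * s⁻¹)) (toP 2 F c) := by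
  obtain ⟨a, b, hb, hab⟩ := n2b_ab z hz c hcz h1
  have hss : (s : Matrix (Fin 2) (Fin 2) F) * ((s⁻¹ : SpecialLinearGroup (Fin 2) F) :
      Matrix (Fin 2) (Fin 2) F) = 1 := by
    rw [← Matrix.SpecialLinearGroup.coe_mul, mul_inv_cancel, Matrix.SpecialLinearGroup.coe_one]
  have hss' : ((s⁻¹ : SpecialLinearGroup (Fin 2) F) : Matrix (Fin 2) (Fin 2) F) *
      (s : Matrix (Fin 2) (Fin 2) F) = 1 := by
    rw [← Matrix.SpecialLinearGroup.coe_mul, inv_mul_cancel, Matrix.SpecialLinearGroup.coe_one]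
  obtain ⟨S, hS⟩ : ∃ S : Matrix (Fin 2) (Fin 2) F, S = (s : Matrix (Fin 2) (Fin 2) F) := ⟨_, rfl⟩
  obtain ⟨S', hS'⟩ : ∃ S' : Matrix (Fin 2) (Fin 2) F, S' = ((s⁻¹ : SpecialLinearGroup (Fin 2) F) :
      Matrix (Fin 2) (Fin 2) F) := ⟨_, rfl⟩
  obtain ⟨C, hC⟩ : ∃ C : Matrix (Fin 2) (Fin 2) F, C = (c : Matrix (Fin 2) (Fin 2) F) := ⟨_, rfl⟩
  have hcoe : ((s * c * s⁻¹ : SpecialLinearGroup (Fin 2) F) : Matrix (Fin 2) (Fin 2) F) =
      S * C * S' := by
    rw [Matrix.SpecialLinearGroup.coe_mul, Matrix.SpecialLinearGroup.coe_mul, hS, hS', hC]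
  rw [← hS, ← hS'] at hss hss'
  rw [← hC] at hab h1 h2
  have hconj : S * C * S' = a • (1 : Matrix (Fin 2) (Fin 2) F) + b • (S * z * S') := by
    rw [hab, Matrix.mul_add, Matrix.add_mul, Matrix.mul_smul, Matrix.smul_mul, Matrix.mul_one, hss,
      Matrix.mul_smul, Matrix.smul_mul]
  have hcomm : C * (S * C * S') = (S * C * S') * C ↔ z * (S * z * S') = (S * z * S') * z := by
    have h3 : C * (S * C * S') - (S * C * S') * C =
        (b * b) • (z * (S * z * S') - (S * z * S') * z) := by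
      rw [hconj, hab]
      simp only [Matrix.mul_add, Matrix.add_mul, Matrix.mul_smul, Matrix.smul_mul, Matrix.mul_one,
        Matrix.one_mul, smul_sub, smul_add, mul_smul]
      rw [smul_comm b a z, smul_comm b a (S * z * S')]
      abel
    constructor
    · intro h
      rw [h, sub_self] at h3
      exact sub_eq_zero.1 ((smul_eq_zero.1 h3.symm).resolve_left (mul_ne_zero hb hb))
    · intro h
      rw [h, sub_self, smul_zero] at h3
      exact sub_eq_zero.1 h3
  have htr : (S * z * S').trace = z.trace := by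
    rw [Matrix.trace_mul_comm, ← Matrix.mul_assoc, hss', Matrix.one_mul]
  have hdet : (S * z * S').det = z.det := by
    have h3 : S.det * S'.det = 1 := by rw [← Matrix.det_mul, hss, Matrix.det_one]
    rw [Matrix.det_mul, Matrix.det_mul, mul_right_comm, h3, one_mul]
  have hmem : s ∈ nz z ↔ S * z * S' = z ∨
      S * z * S' = z.trace • (1 : Matrix (Fin 2) (Fin 2) F) - z := by
    rw [mem_nz, ← hS, n2b_scalar]
    have key : ∀ X : Matrix (Fin 2) (Fin 2) F, S * z = X * S ↔ S * z * S' = X := by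
      intro X
      constructor
      · intro h
        rw [h, Matrix.mul_assoc, hss, Matrix.mul_one]
      · intro h
        rw [← h, Matrix.mul_assoc, hss', Matrix.mul_one]
    rw [key, key]
  rw [hmem]
  constructor
  · intro h
    have h3 : z * (S * z * S') = (S * z * S') * z := by
      rcases h with h | h
      · rw [h]
      · rw [h, Matrix.mul_sub, Matrix.sub_mul, Matrix.mul_smul, Matrix.smul_mul, Matrix.mul_one,
          Matrix.one_mul]
    have h4 : (s * c * s⁻¹) * c = c * (s * c * s⁻¹) := by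
      have h5 : (((s * c * s⁻¹) * c : SpecialLinearGroup (Fin 2) F) :
          Matrix (Fin 2) (Fin 2) F) = ((c * (s * c * s⁻¹) : SpecialLinearGroup (Fin 2) F) :
          Matrix (Fin 2) (Fin 2) F) := by
        rw [Matrix.SpecialLinearGroup.coe_mul (s * c * s⁻¹) c,
          Matrix.SpecialLinearGroup.coe_mul c (s * c * s⁻¹), hcoe, ← hC]
        exact (hcomm.2 h3).symm
      exact Subtype.ext h5
    show toP 2 F (s * c * s⁻¹) * toP 2 F c = toP 2 F c * toP 2 F (s * c * s⁻¹)
    rw [← map_mul, ← map_mul, h4]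
  · intro h
    have h3 : toP 2 F ((s * c * s⁻¹) * c) = toP 2 F (c * (s * c * s⁻¹)) := by
      rw [map_mul, map_mul]
      exact h
    have h4 : ((s * c * s⁻¹) * c)⁻¹ * (c * (s * c * s⁻¹)) ∈
        Subgroup.center (SpecialLinearGroup (Fin 2) F) := QuotientGroup.eq.1 h3
    obtain ⟨e, he⟩ := center_scalar _ h4
    have h5 : e * e = 1 := by
      have h6 := (((s * c * s⁻¹) * c)⁻¹ * (c * (s * c * s⁻¹))).2
      rw [he, n2b_scalar, Matrix.det_smul, Matrix.det_one, mul_one, Fintype.card_fin] at h6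
      rw [← pow_two, h6]
    have h6 : C * (S * C * S') = e • ((S * C * S') * C) := by
      have h8 : ((c * (s * c * s⁻¹) : SpecialLinearGroup (Fin 2) F) :
          Matrix (Fin 2) (Fin 2) F) = ((((s * c * s⁻¹) * c) *
          (((s * c * s⁻¹) * c)⁻¹ * (c * (s * c * s⁻¹))) : SpecialLinearGroup (Fin 2) F) :
          Matrix (Fin 2) (Fin 2) F) := by rw [mul_inv_cancel_left]
      rw [Matrix.SpecialLinearGroup.coe_mul ((s * c * s⁻¹) * c)
        (((s * c * s⁻¹) * c)⁻¹ * (c * (s * c * s⁻¹))), he,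
        Matrix.SpecialLinearGroup.coe_mul (s * c * s⁻¹) c,
        Matrix.SpecialLinearGroup.coe_mul c (s * c * s⁻¹), hcoe, ← hC,
        n2b_scalar, Matrix.mul_smul, Matrix.mul_one] at h8
      exact h8
    have h7 : e = 1 := by
      by_contra hne
      have h8 : e = -1 := by
        have h9 : (e - 1) * (e + 1) = 0 := by ring_nf; rw [pow_two, h5]; ring
        rcases mul_eq_zero.1 h9 with h | h
        · exact absurd (sub_eq_zero.1 h) hne
        · exact eq_neg_of_add_eq_zero_left h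
      -- the inverse of `S C S'`
      have hC1 : C * C.adjugate = 1 := by
        rw [Matrix.mul_adjugate]
        have h9 : C.det = 1 := by rw [hC]; exact c.2
        rw [h9, one_smul]
      have h10 : (S * C * S') * (S * C.adjugate * S') = 1 := by
        calc (S * C * S') * (S * C.adjugate * S') = S * C * (S' * S) * C.adjugate * S' := by
              simp only [Matrix.mul_assoc]
          _ = 1 := by rw [hss', Matrix.mul_one, Matrix.mul_assoc S, hC1, Matrix.mul_one, hss]
      have h11 : (S * C.adjugate * S') * (S * C * S') = 1 := mul_eq_one_comm.1 h10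
      have h12 : C = e • ((S * C * S') * C * (S * C.adjugate * S')) := by
        calc C = C * ((S * C * S') * (S * C.adjugate * S')) := by rw [h10, Matrix.mul_one]
          _ = C * (S * C * S') * (S * C.adjugate * S') :=
              (Matrix.mul_assoc C (S * C * S') (S * C.adjugate * S')).symm
          _ = e • ((S * C * S') * C * (S * C.adjugate * S')) := by rw [h6, Matrix.smul_mul]
      have h13 : C.trace = e * C.trace := by
        have h14 := congrArg Matrix.trace h12
        rw [Matrix.trace_smul, Matrix.trace_mul_comm, ← Matrix.mul_assoc, h11, Matrix.one_mul,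
          smul_eq_mul] at h14
        exact h14
      have h14 : (1 - e) * C.trace = 0 := by rw [sub_mul, one_mul, ← h13, sub_self]
      have h15 : C.trace = 0 := by
        rcases mul_eq_zero.1 h14 with h | h
        · exact absurd (sub_eq_zero.1 h).symm hne
        · exact h
      apply h2
      have h16 : C.det = 1 := by rw [hC]; exact c.2
      rw [n2b_ch, h15, h16, zero_smul, one_smul, zero_sub]
    rw [h7, one_smul] at h6
    exact n2b_two z _ hz (hcomm.1 h6).symm htr hdet

/-- The image of `c` in `PSL_2(F)` has square one iff `c² = ±1`. -/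
theorem n2b_sq {F : Type*} [Field F] (c : SpecialLinearGroup (Fin 2) F) :
    toP 2 F c * toP 2 F c = 1 ↔ (c : Matrix (Fin 2) (Fin 2) F) * c = 1 ∨
      (c : Matrix (Fin 2) (Fin 2) F) * c = -1 := by
  rw [← map_mul]
  have h0 : toP 2 F (c * c) = 1 ↔ c * c ∈ Subgroup.center (SpecialLinearGroup (Fin 2) F) :=
    QuotientGroup.eq_one_iff _
  rw [h0]
  constructor
  · intro h
    obtain ⟨e, he⟩ := center_scalar _ h
    have h6 := (c * c).2
    rw [he, n2b_scalar, Matrix.det_smul, Matrix.det_one, mul_one, Fintype.card_fin] at h6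
    have h9 : (e - 1) * (e + 1) = 0 := by ring_nf; rw [h6]; ring
    rw [Matrix.SpecialLinearGroup.coe_mul] at he
    rw [he, n2b_scalar]
    rcases mul_eq_zero.1 h9 with h | h
    · left
      rw [sub_eq_zero.1 h, one_smul]
    · right
      rw [eq_neg_of_add_eq_zero_left h, neg_smul, one_smul]
  · intro h
    rw [Matrix.SpecialLinearGroup.mem_center_iff]
    rcases h with h | h
    · refine ⟨1, one_pow _, ?_⟩
      rw [Matrix.SpecialLinearGroup.coe_mul, h, map_one]
    · refine ⟨-1, by rw [Fintype.card_fin]; ring, ?_⟩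
      rw [Matrix.SpecialLinearGroup.coe_mul, h, map_neg, map_one]

/-- `block_lemma` with `P = (nz z).map (toP 2 F)`: for `g • x = x` and `β`, `β (toP c) = toP c'` with `c' ∈ K`,
`c'² ≠ ±1`, so `c'` commutes with `z` (`sq_of_anti`); use `mem_nz_iff` for `c` and `c'`. -/
theorem n2_block {F Γ Ω : Type*} [Field F] [Fintype F] [Group Γ] [MulAction Γ Ω]
    (hq : 59 < Fintype.card F) (hprim : IsPreprimitive Γ Ω)
    (j : ProjectiveSpecialLinearGroup (Fin 2) F →* Γ)
    (hj : ∀ g : Γ, ∃ β : ProjectiveSpecialLinearGroup (Fin 2) F ≃*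
      ProjectiveSpecialLinearGroup (Fin 2) F, ∀ t, j (β t) = g * j t * g⁻¹)
    (htr : ∀ x y : Ω, ∃ t, j t • x = y) (x : Ω) (z : Matrix (Fin 2) (Fin 2) F)
    (hz : ¬ HasEV z) (hK : stabS j x ≤ nz z)
    (hc : ∃ c ∈ stabS j x, Commute (c : Matrix (Fin 2) (Fin 2) F) z ∧
      (c : Matrix (Fin 2) (Fin 2) F) * c ≠ 1 ∧ (c : Matrix (Fin 2) (Fin 2) F) * c ≠ -1) :
    stabS j x = nz z := by
  obtain ⟨c, hcK, hcz, h1, h2⟩ := hc
  have hsurj : Function.Surjective (toP 2 F) := QuotientGroup.mk'_surjective _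
  have hmain := block_lemma hprim j hj htr x ((nz z).map (toP 2 F)) (by
    intro t ht
    obtain ⟨s, rfl⟩ := hsurj t
    exact Subgroup.mem_map_of_mem _ (hK ((mem_stabS j x s).2 ht))) (by
    intro g hg β hβ t ht
    obtain ⟨s, hs, rfl⟩ := ht
    obtain ⟨s', hs'⟩ := hsurj (β (toP 2 F s))
    obtain ⟨c', hc'⟩ := hsurj (β (toP 2 F c))
    have hc'K : c' ∈ stabS j x := by
      rw [mem_stabS, hc', hβ, mul_smul, mul_smul, inv_smul_eq_iff.2 hg.symm,
        (mem_stabS j x c).1 hcK, hg]
    have hc'sq : ¬ ((c' : Matrix (Fin 2) (Fin 2) F) * c' = 1 ∨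
        (c' : Matrix (Fin 2) (Fin 2) F) * c' = -1) := by
      rw [← n2b_sq, hc', ← map_mul, EmbeddingLike.map_eq_one_iff, n2b_sq, not_or]
      exact ⟨h1, h2⟩
    have hc'z : Commute (c' : Matrix (Fin 2) (Fin 2) F) z := by
      by_contra hne
      rcases (mem_nz z c').1 (hK hc'K) with h | h
      · exact hne h
      · exact hc'sq (sq_of_anti z hz c' h hne)
    rw [not_or] at hc'sq
    rw [← hs', mem_nz_map, mem_nz_iff z hz c' hc'z hc'sq.1 hc'sq.2]
    have h3 := (mem_nz_iff z hz c hcz h1 h2 s).1 hs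
    have h4 : toP 2 F (s' * c' * s'⁻¹) = β (toP 2 F (s * c * s⁻¹)) := by
      rw [map_mul (toP 2 F), map_mul (toP 2 F), map_inv (toP 2 F), hs', hc',
        map_mul (toP 2 F) (s * c), map_mul (toP 2 F) s, map_inv (toP 2 F), map_mul β, map_mul β,
        map_inv β]
    rw [h4, hc']
    exact h3.map β)
  rcases hmain with h | h
  · refine le_antisymm hK fun s hs => ?_
    rw [mem_stabS]
    exact h _ (Subgroup.mem_map_of_mem _ hs)
  · exfalso
    refine nz_ne_top (by rw [Nat.card_eq_fintype_card]; omega) z hz ?_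
    rw [eq_top_iff]
    intro s _
    rw [← mem_nz_map, h]
    exact Subgroup.mem_top _

end Lin43
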