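import Pool.Agent.Lib.MP_43150e_al.Lin.Nz

/-! # `n = 2`: normal forms of `z` (paragraph 7) -/

set_option autoImplicit false

namespace Lin43

open Matrix

private theorem n2_ev_root {F : Type*} [Field F] (z : Matrix (Fin 2) (Fin 2) F) (c : F)
    (h : c ^ 2 - z.trace * c + z.det = 0) : HasEV z := by
  have h1 : (z - c • (1 : Matrix (Fin 2) (Fin 2) F)).det = 0 := by
    rw [← h, Matrix.det_fin_two, Matrix.det_fin_two, Matrix.trace_fin_two]
    simp only [Matrix.sub_apply, Matrix.smul_apply, Matrix.one_apply_eq, smul_eq_mul, mul_one,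
      Matrix.one_apply_ne (zero_ne_one : (0 : Fin 2) ≠ 1),
      Matrix.one_apply_ne (one_ne_zero : (1 : Fin 2) ≠ 0), mul_zero, sub_zero]
    ring
  obtain ⟨v, hv, hv'⟩ := Matrix.exists_mulVec_eq_zero_iff.2 h1
  refine ⟨v, c, hv, ?_⟩
  rw [Matrix.sub_mulVec, Matrix.smul_mulVec, Matrix.one_mulVec, sub_eq_zero] at hv'
  exact hv'

private theorem n2_ev_lin {F : Type*} [Field F] {z : Matrix (Fin 2) (Fin 2) F} {a b : F}
    (hb : b ≠ 0) (h : HasEV (a • (1 : Matrix (Fin 2) (Fin 2) F) + b • z)) : HasEV z := by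
  obtain ⟨v, c, hv, h⟩ := h
  refine ⟨v, b⁻¹ * (c - a), hv, ?_⟩
  rw [Matrix.add_mulVec, Matrix.smul_mulVec, Matrix.smul_mulVec, Matrix.one_mulVec] at h
  have h1 : b • z.mulVec v = (c - a) • v := by
    rw [sub_smul, ← h, add_sub_cancel_left]
  rw [mul_smul, ← h1, smul_smul, inv_mul_cancel₀ hb, one_smul]

/-- The values of the quadratic form `r x² - 2 p x y - q y²`. -/
private theorem n2_value {F : Type*} [Field F] [Finite F] (h2 : (2 : F) ≠ 0) {p q r : F}
    (hδ : ¬ IsSquare (p ^ 2 + q * r)) (t : F) :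
    ∃ x y : F, x * (r * x - p * y) - y * (p * x + q * y) = t := by
  classical
  have _ := Fintype.ofFinite F
  have hr : r ≠ 0 := by
    rintro rfl
    apply hδ
    exact ⟨p, by ring⟩
  have hδ0 : p ^ 2 + q * r ≠ 0 := by
    intro h
    apply hδ
    rw [h]
    exact ⟨0, by ring⟩
  have hchar : ringChar F ≠ 2 := by
    intro h
    apply h2
    have h3 := (ringChar.spec F 2).2 (by rw [h])
    exact_mod_cast h3
  obtain ⟨X, Y, hXY⟩ := FiniteField.exists_root_sum_quadratic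
    (f := Polynomial.X ^ 2 - Polynomial.C (r * t))
    (g := Polynomial.C (-(p ^ 2 + q * r)) * Polynomial.X ^ 2)
    (Polynomial.degree_X_pow_sub_C two_pos _)
    (Polynomial.degree_C_mul_X_pow 2 (neg_ne_zero.2 hδ0))
    (FiniteField.odd_card_of_char_ne_two hchar)
  simp only [Polynomial.eval_sub, Polynomial.eval_pow, Polynomial.eval_X, Polynomial.eval_C,
    Polynomial.eval_mul] at hXY
  refine ⟨(X + p * Y) / r, Y, ?_⟩
  field_simp
  linear_combination hXY

private theorem n2_prod {F : Type*} [Field F] [Finite F] {a b : F} (ha : ¬ IsSquare a)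
    (hb : ¬ IsSquare b) : IsSquare (a * b) := by
  classical
  have _ := Fintype.ofFinite F
  have ha0 : a ≠ 0 := by
    rintro rfl
    exact ha ⟨0, by ring⟩
  have hb0 : b ≠ 0 := by
    rintro rfl
    exact hb ⟨0, by ring⟩
  rw [← quadraticChar_one_iff_isSquare (mul_ne_zero ha0 hb0), map_mul,
    quadraticChar_neg_one_iff_not_isSquare.2 ha, quadraticChar_neg_one_iff_not_isSquare.2 hb]
  norm_num

/-- Odd characteristic, `nz z` transitive on points: `-1` is not a square and `F[z]` contains a root of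
`-1`. Let `z₀ = z - tr z/2`, `Q(v) = det(v, z₀ v)`; `Q(s v) = ± Q(v)` for `s ∈ nz z`; `Q` takes square and nonsquare
values (`FiniteField.exists_root_sum_quadratic`), so if `-1` were a square, `nz z` would not be
transitive. `z₀² = δ` is not a square, so `-δ = e²` and `z' = e⁻¹ z₀`. -/
theorem n2_odd {F : Type*} [Field F] [Finite F] (h2 : (2 : F) ≠ 0)
    (z : Matrix (Fin 2) (Fin 2) F) (hz : ¬ HasEV z)
    (htr : ∀ v v' : Fin 2 → F, v ≠ 0 → v' ≠ 0 → ∃ k ∈ nz z, ∃ c : F, c ≠ 0 ∧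
      (k : Matrix (Fin 2) (Fin 2) F).mulVec v = c • v') :
    ¬ IsSquare (-1 : F) ∧ ∃ z' : Matrix (Fin 2) (Fin 2) F, z' * z' = -1 ∧ nz z' = nz z := by
  obtain ⟨w, hw⟩ : ∃ w, w = (-z.trace / 2) • (1 : Matrix (Fin 2) (Fin 2) F) + (1 : F) • z :=
    ⟨_, rfl⟩
  have hnz : nz w = nz z := by rw [hw, nz_eq _ _ _ one_ne_zero]
  have hev : ¬ HasEV w := fun h => hz (n2_ev_lin one_ne_zero (by rwa [← hw]))
  have htrace : w.trace = 0 := by
    rw [hw, one_smul, Matrix.trace_add, Matrix.trace_smul, Matrix.trace_one, Fintype.card_fin,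
      smul_eq_mul]
    push_cast
    field_simp
    ring
  have h11 : w 1 1 = -w 0 0 := by
    rw [Matrix.trace_fin_two] at htrace
    linear_combination htrace
  have hdet : w.det = -(w 0 0 ^ 2 + w 0 1 * w 1 0) := by
    rw [Matrix.det_fin_two, h11]
    ring
  have hδ : ¬ IsSquare (w 0 0 ^ 2 + w 0 1 * w 1 0) := by
    rintro ⟨c, hc⟩
    apply hev
    apply n2_ev_root w c
    rw [htrace, hdet, hc]
    ring
  -- the quadratic form
  have hQ : ∀ k ∈ nz z, ∀ v : Fin 2 → F, ∃ ε : F, (ε = 1 ∨ ε = -1) ∧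
      (((k : Matrix (Fin 2) (Fin 2) F).mulVec v) 0 *
        (w.mulVec ((k : Matrix (Fin 2) (Fin 2) F).mulVec v)) 1 -
      ((k : Matrix (Fin 2) (Fin 2) F).mulVec v) 1 *
        (w.mulVec ((k : Matrix (Fin 2) (Fin 2) F).mulVec v)) 0) =
      ε * (v 0 * (w.mulVec v) 1 - v 1 * (w.mulVec v) 0) := by
    intro k hk v
    rw [← hnz, mem_nz, htrace] at hk
    have hkd : (k : Matrix (Fin 2) (Fin 2) F) 0 0 * (k : Matrix (Fin 2) (Fin 2) F) 1 1 -
        (k : Matrix (Fin 2) (Fin 2) F) 0 1 * (k : Matrix (Fin 2) (Fin 2) F) 1 0 = 1 := by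
      rw [← Matrix.det_fin_two]
      exact k.det_coe
    have hgen : ∀ u : Fin 2 → F,
        ((k : Matrix (Fin 2) (Fin 2) F).mulVec v) 0 *
          ((k : Matrix (Fin 2) (Fin 2) F).mulVec u) 1 -
        ((k : Matrix (Fin 2) (Fin 2) F).mulVec v) 1 *
          ((k : Matrix (Fin 2) (Fin 2) F).mulVec u) 0 = v 0 * u 1 - v 1 * u 0 := by
      intro u
      simp only [Matrix.mulVec, dotProduct, Fin.sum_univ_two]
      linear_combination (v 0 * u 1 - v 1 * u 0) * hkd
    rcases hk with hk | hk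
    · refine ⟨1, Or.inl rfl, ?_⟩
      rw [Matrix.mulVec_mulVec v w, ← hk, ← Matrix.mulVec_mulVec, hgen, one_mul]
    · refine ⟨-1, Or.inr rfl, ?_⟩
      have hk' : w * (k : Matrix (Fin 2) (Fin 2) F) = -((k : Matrix (Fin 2) (Fin 2) F) * w) := by
        rw [hk, map_zero, zero_sub, Matrix.neg_mul, neg_neg]
      have h3 := hgen (w.mulVec v)
      rw [Matrix.mulVec_mulVec v w, hk', Matrix.neg_mulVec, ← Matrix.mulVec_mulVec]
      simp only [Pi.neg_apply]
      linear_combination -h3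
  have hform : ∀ x y : F, (![x, y] : Fin 2 → F) 0 * (w.mulVec ![x, y]) 1 -
      (![x, y] : Fin 2 → F) 1 * (w.mulVec ![x, y]) 0 =
      x * (w 1 0 * x - w 0 0 * y) - y * (w 0 0 * x + w 0 1 * y) := by
    intro x y
    simp only [Matrix.mulVec, dotProduct, Fin.sum_univ_two, Matrix.cons_val_zero,
      Matrix.cons_val_one]
    rw [h11]
    ring
  have hneg : ¬ IsSquare (-1 : F) := by
    rintro ⟨i, hi⟩
    obtain ⟨x, y, hxy⟩ := n2_value h2 hδ (w 0 0 ^ 2 + w 0 1 * w 1 0)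
    obtain ⟨x', y', hxy'⟩ := n2_value h2 hδ 1
    have hδ0 : w 0 0 ^ 2 + w 0 1 * w 1 0 ≠ 0 := by
      intro h
      apply hδ
      rw [h]
      exact ⟨0, by ring⟩
    rw [← hform] at hxy hxy'
    have hv : (![x, y] : Fin 2 → F) ≠ 0 := by
      intro h
      rw [h, Matrix.mulVec_zero] at hxy
      simp only [Pi.zero_apply, zero_mul, sub_zero] at hxy
      exact hδ0 hxy.symm
    have hv' : (![x', y'] : Fin 2 → F) ≠ 0 := by
      intro h
      rw [h, Matrix.mulVec_zero] at hxy'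
      simp only [Pi.zero_apply, zero_mul, sub_zero] at hxy'
      exact zero_ne_one hxy'
    obtain ⟨k, hk, c, hc, hkv⟩ := htr _ _ hv hv'
    obtain ⟨ε, hε, h3⟩ := hQ k hk ![x, y]
    rw [hkv, Matrix.mulVec_smul, hxy] at h3
    simp only [Pi.smul_apply, smul_eq_mul] at h3
    have h4 : c ^ 2 = ε * (w 0 0 ^ 2 + w 0 1 * w 1 0) := by
      rw [← h3]
      linear_combination -c ^ 2 * hxy'
    apply hδ
    rcases hε with rfl | rfl
    · exact ⟨c, by linear_combination -h4⟩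
    · exact ⟨i * c, by linear_combination h4 + c ^ 2 * hi⟩
  refine ⟨hneg, ?_⟩
  obtain ⟨e, he⟩ := n2_prod hneg hδ
  have he0 : e ≠ 0 := by
    rintro rfl
    apply hδ
    exact ⟨0, by linear_combination -he⟩
  refine ⟨(0 : F) • (1 : Matrix (Fin 2) (Fin 2) F) + e⁻¹ • w, ?_, ?_⟩
  · rw [zero_smul, zero_add, Matrix.smul_mul, Matrix.mul_smul, smul_smul]
    have hsq : w * w = (w 0 0 ^ 2 + w 0 1 * w 1 0) • (1 : Matrix (Fin 2) (Fin 2) F) := by
      ext i j
      fin_cases i <;> fin_cases j <;>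
        simp [Matrix.mul_apply, Fin.sum_univ_two, h11] <;> ring
    have h5 : w 0 0 ^ 2 + w 0 1 * w 1 0 = -(e * e) := by linear_combination -he
    rw [hsq, smul_smul, h5]
    have h6 : e⁻¹ * e⁻¹ * -(e * e) = -1 := by
      field_simp
    rw [h6, neg_smul, one_smul]
  · rw [nz_eq _ _ _ (inv_ne_zero he0), hnz]

/-- Characteristic two: `tr z ≠ 0` (otherwise `z² = det z` is a square and `z` has an eigenvector). -/
theorem n2_even {F : Type*} [Field F] [Finite F] (h2 : (2 : F) = 0)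
    (z : Matrix (Fin 2) (Fin 2) F) (hz : ¬ HasEV z) :
    ∃ z' : Matrix (Fin 2) (Fin 2) F, z'.trace = 1 ∧ ¬ HasEV z' ∧ nz z' = nz z := by
  have hchar : ringChar F = 2 := by
    have h3 : ringChar F ∣ 2 := (ringChar.spec F 2).1 (by exact_mod_cast h2)
    rcases (Nat.dvd_prime Nat.prime_two).1 h3 with h4 | h4
    · exact absurd h4 (CharP.ringChar_ne_one)
    · exact h4
  have ht : z.trace ≠ 0 := by
    intro ht
    obtain ⟨c, hc⟩ := FiniteField.isSquare_of_char_two hchar z.det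
    apply hz
    apply n2_ev_root z c
    rw [ht, hc]
    linear_combination c ^ 2 * h2
  refine ⟨(0 : F) • (1 : Matrix (Fin 2) (Fin 2) F) + z.trace⁻¹ • z, ?_, ?_, ?_⟩
  · rw [zero_smul, zero_add, Matrix.trace_smul, smul_eq_mul, inv_mul_cancel₀ ht]
  · exact fun h => hz (n2_ev_lin (inv_ne_zero ht) h)
  · exact nz_eq _ _ _ (inv_ne_zero ht)

end Lin43
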