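import Pool.Agent.Lib.MP_43150e_al.Lin.StW

/-! # The normaliser in `SL_2(F)` of the field `F[z]`, `z` without eigenvector -/

set_option autoImplicit false

namespace Lin43

open Matrix

variable {F : Type*} [Field F]

/-- `s (tr z - z) = tr z s - s z`. -/
theorem nz_aux (z s : Matrix (Fin 2) (Fin 2) F) :
    s * (Matrix.scalar (Fin 2) z.trace - z) = Matrix.scalar (Fin 2) z.trace * s - s * z := by
  rw [mul_sub, (Matrix.scalar_commute z.trace (fun _ => Commute.all _ _) s).eq]

/-- `N(F[z])`: `s z s⁻¹ = z` or `s z s⁻¹ = tr z - z`. -/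
def nz (z : Matrix (Fin 2) (Fin 2) F) : Subgroup (SpecialLinearGroup (Fin 2) F) where
  carrier := {s | (s : Matrix (Fin 2) (Fin 2) F) * z = z * s ∨
    (s : Matrix (Fin 2) (Fin 2) F) * z = (Matrix.scalar (Fin 2) z.trace - z) * s}
  one_mem' := by
    left
    rw [Matrix.SpecialLinearGroup.coe_one, one_mul, mul_one]
  mul_mem' := by
    rintro s t (hs | hs) (ht | ht)
    · left
      rw [Matrix.SpecialLinearGroup.coe_mul, mul_assoc, ht, ← mul_assoc, hs, mul_assoc]
    · right
      rw [Matrix.SpecialLinearGroup.coe_mul, mul_assoc, ht, ← mul_assoc, nz_aux, hs, ← sub_mul,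
        mul_assoc]
    · right
      rw [Matrix.SpecialLinearGroup.coe_mul, mul_assoc, ht, ← mul_assoc, hs, mul_assoc]
    · left
      rw [Matrix.SpecialLinearGroup.coe_mul, mul_assoc, ht, ← mul_assoc, nz_aux, hs, ← sub_mul,
        sub_sub_cancel, mul_assoc]
  inv_mem' := by
    rintro s (hs | hs)
    · left
      have h1 : ((s⁻¹ : SpecialLinearGroup (Fin 2) F) : Matrix (Fin 2) (Fin 2) F) *
          (s : Matrix (Fin 2) (Fin 2) F) = 1 := by
        rw [← Matrix.SpecialLinearGroup.coe_mul, inv_mul_cancel, Matrix.SpecialLinearGroup.coe_one]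
      have h2 : (s : Matrix (Fin 2) (Fin 2) F) *
          ((s⁻¹ : SpecialLinearGroup (Fin 2) F) : Matrix (Fin 2) (Fin 2) F) = 1 := by
        rw [← Matrix.SpecialLinearGroup.coe_mul, mul_inv_cancel, Matrix.SpecialLinearGroup.coe_one]
      generalize ((s⁻¹ : SpecialLinearGroup (Fin 2) F) : Matrix (Fin 2) (Fin 2) F) = t at h1 h2 ⊢
      calc t * z = t * z * ((s : Matrix (Fin 2) (Fin 2) F) * t) := by rw [h2, mul_one]
        _ = t * ((s : Matrix (Fin 2) (Fin 2) F) * z) * t := by rw [hs]; noncomm_ring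
        _ = (t * (s : Matrix (Fin 2) (Fin 2) F)) * z * t := by noncomm_ring
        _ = z * t := by rw [h1, one_mul]
    · right
      have h1 : ((s⁻¹ : SpecialLinearGroup (Fin 2) F) : Matrix (Fin 2) (Fin 2) F) *
          (s : Matrix (Fin 2) (Fin 2) F) = 1 := by
        rw [← Matrix.SpecialLinearGroup.coe_mul, inv_mul_cancel, Matrix.SpecialLinearGroup.coe_one]
      have h2 : (s : Matrix (Fin 2) (Fin 2) F) *
          ((s⁻¹ : SpecialLinearGroup (Fin 2) F) : Matrix (Fin 2) (Fin 2) F) = 1 := by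
        rw [← Matrix.SpecialLinearGroup.coe_mul, mul_inv_cancel, Matrix.SpecialLinearGroup.coe_one]
      generalize ((s⁻¹ : SpecialLinearGroup (Fin 2) F) : Matrix (Fin 2) (Fin 2) F) = t at h1 h2 ⊢
      have h3 : t * (Matrix.scalar (Fin 2) z.trace - z) = z * t := by
        calc t * (Matrix.scalar (Fin 2) z.trace - z)
            = t * (Matrix.scalar (Fin 2) z.trace - z) * ((s : Matrix (Fin 2) (Fin 2) F) * t) := by
              rw [h2, mul_one]
          _ = t * ((Matrix.scalar (Fin 2) z.trace - z) * (s : Matrix (Fin 2) (Fin 2) F)) * t := by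
              noncomm_ring
          _ = (t * (s : Matrix (Fin 2) (Fin 2) F)) * z * t := by rw [← hs]; noncomm_ring
          _ = z * t := by rw [h1, one_mul]
      rw [nz_aux] at h3
      rw [sub_mul, ← h3]
      abel

theorem mem_nz (z : Matrix (Fin 2) (Fin 2) F) (s : SpecialLinearGroup (Fin 2) F) :
    s ∈ nz z ↔ (s : Matrix (Fin 2) (Fin 2) F) * z = z * s ∨
      (s : Matrix (Fin 2) (Fin 2) F) * z = (Matrix.scalar (Fin 2) z.trace - z) * s := Iff.rfl

/-- The lower left entry of a matrix without eigenvector. -/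
theorem nz_entry (z : Matrix (Fin 2) (Fin 2) F) (hz : ¬ HasEV z) : z 1 0 ≠ 0 := by
  intro h
  apply hz
  refine ⟨![1, 0], z 0 0, fun h1 => one_ne_zero (α := F) (congrFun h1 0), ?_⟩
  funext i
  fin_cases i <;> simp [Matrix.mulVec, dotProduct, Fin.sum_univ_two, h]

/-- A matrix commuting with `z` (no eigenvector) is `a + b z`. -/
theorem exists_ab (z X : Matrix (Fin 2) (Fin 2) F) (hz : ¬ HasEV z) (hX : Commute X z) :
    ∃ a b : F, X = a • (1 : Matrix (Fin 2) (Fin 2) F) + b • z := by
  have h0 := nz_entry z hz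
  have h1 := congrFun (congrFun hX.eq 0) 0
  have h2 := congrFun (congrFun hX.eq 1) 0
  rw [Matrix.mul_apply, Matrix.mul_apply, Fin.sum_univ_two, Fin.sum_univ_two] at h1 h2
  refine ⟨X 0 0 - X 1 0 / z 1 0 * z 0 0, X 1 0 / z 1 0, ?_⟩
  ext i j
  fin_cases i <;> fin_cases j
  · simp
  · simp only [Fin.zero_eta, Fin.isValue, Fin.mk_one, Matrix.add_apply, Matrix.smul_apply,
      Matrix.one_apply, smul_eq_mul, zero_ne_one, if_false, mul_zero, zero_add]
    field_simp
    linear_combination h1
  · simp only [Fin.zero_eta, Fin.isValue, Fin.mk_one, Matrix.add_apply, Matrix.smul_apply,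
      Matrix.one_apply, smul_eq_mul, one_ne_zero, if_false, mul_zero, zero_add]
    field_simp
  · simp only [Fin.isValue, Fin.mk_one, Matrix.add_apply, Matrix.smul_apply,
      Matrix.one_apply, smul_eq_mul, if_true, mul_one]
    field_simp
    linear_combination h2

/-- Nonzero matrices commuting with `z` are invertible. -/
theorem det_ne_zero_of_commute (z X : Matrix (Fin 2) (Fin 2) F) (hz : ¬ HasEV z)
    (hX : Commute X z) (h0 : X ≠ 0) : X.det ≠ 0 := by
  intro hd
  obtain ⟨v, hv, hXv⟩ := Matrix.exists_mulVec_eq_zero_iff.2 hd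
  obtain ⟨a, b, hab⟩ := exists_ab z X hz hX
  rw [hab, Matrix.add_mulVec, Matrix.smul_mulVec, Matrix.smul_mulVec, Matrix.one_mulVec] at hXv
  by_cases hb : b = 0
  · rw [hb, zero_smul, add_zero] at hXv
    rcases smul_eq_zero.1 hXv with ha | ha
    · apply h0
      rw [hab, ha, hb, zero_smul, zero_smul, add_zero]
    · exact hv ha
  · apply hz
    refine ⟨v, -(a / b), hv, ?_⟩
    have h1 : b • (z.mulVec v) = b • (-(a / b) • v) := by
      rw [smul_smul]
      have h2 : b • z.mulVec v = -(a • v) := by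
        rw [← add_eq_zero_iff_eq_neg, add_comm]
        exact hXv
      rw [h2, ← neg_smul]
      congr 1
      field_simp
    exact smul_right_injective _ hb h1

/-- A matrix commuting with `z` and having an eigenvector is scalar. -/
theorem scalar_of_commute2 (z X : Matrix (Fin 2) (Fin 2) F) (hz : ¬ HasEV z)
    (hX : Commute X z) (hev : HasEV X) : ∃ a : F, X = Matrix.scalar (Fin 2) a := by
  obtain ⟨v, c, hv, hc⟩ := hev
  refine ⟨c, ?_⟩
  by_contra hne
  have h1 : Commute (X - Matrix.scalar (Fin 2) c) z :=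
    hX.sub_left (Matrix.scalar_commute c (fun _ => Commute.all _ _) z)
  apply det_ne_zero_of_commute z _ hz h1 (sub_ne_zero.2 hne)
  apply Matrix.exists_mulVec_eq_zero_iff.1
  refine ⟨v, hv, ?_⟩
  rw [Matrix.sub_mulVec, hc, Matrix.scalar_apply, ← Matrix.smul_one_eq_diagonal,
    Matrix.smul_mulVec, Matrix.one_mulVec, sub_self]

/-- If `s z = (tr z - z) s`, `det s = 1` and `z` is not central then `s² = -1` or `s² = 1`
(`s²` commutes with `z` and with `s`, so it is a scalar of square one). -/
theorem sq_of_anti (z : Matrix (Fin 2) (Fin 2) F) (hz : ¬ HasEV z)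
    (s : SpecialLinearGroup (Fin 2) F)
    (hs : (s : Matrix (Fin 2) (Fin 2) F) * z = (Matrix.scalar (Fin 2) z.trace - z) * s)
    (hne : ¬ Commute (s : Matrix (Fin 2) (Fin 2) F) z) :
    (s : Matrix (Fin 2) (Fin 2) F) * s = 1 ∨ (s : Matrix (Fin 2) (Fin 2) F) * s = -1 := by
  have hdet := s.2
  change (s : Matrix (Fin 2) (Fin 2) F).det = 1 at hdet
  generalize (s : Matrix (Fin 2) (Fin 2) F) = m at hs hne hdet ⊢
  have h1 : Commute (m * m) z := by
    change m * m * z = z * (m * m)
    rw [mul_assoc, hs, ← mul_assoc, nz_aux, hs, ← sub_mul, sub_sub_cancel, mul_assoc]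
  obtain ⟨a, b, hab⟩ := exists_ab z _ hz h1
  have hb : b = 0 := by
    by_contra hb
    apply hne
    have h2 : m * (m * m) = m * m * m := (mul_assoc _ _ _).symm
    rw [hab, mul_add, add_mul, mul_smul_comm, smul_mul_assoc, mul_one, one_mul, mul_smul_comm,
      smul_mul_assoc] at h2
    exact smul_right_injective _ hb (add_left_cancel h2)
  rw [hb, zero_smul, add_zero] at hab
  have h3 : a * a = 1 := by
    have h4 := congrArg Matrix.det hab
    rw [Matrix.det_mul, hdet, Matrix.det_smul, Matrix.det_one, Fintype.card_fin] at h4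
    linear_combination -h4
  rcases mul_self_eq_one_iff.1 h3 with h | h
  · left
    rw [hab, h, one_smul]
  · right
    rw [hab, h, neg_smul, one_smul]

/-- The subgroup `nz z` depends only on `F[z]`. -/
theorem nz_eq (z : Matrix (Fin 2) (Fin 2) F) (a b : F) (hb : b ≠ 0) :
    nz (a • (1 : Matrix (Fin 2) (Fin 2) F) + b • z) = nz z := by
  ext s
  rw [mem_nz, mem_nz]
  generalize (s : Matrix (Fin 2) (Fin 2) F) = m
  have h1 : m * (a • (1 : Matrix (Fin 2) (Fin 2) F) + b • z) = a • m + b • (m * z) := by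
    rw [mul_add, mul_smul_comm, mul_one, mul_smul_comm]
  have h2 : (a • (1 : Matrix (Fin 2) (Fin 2) F) + b • z) * m = a • m + b • (z * m) := by
    rw [add_mul, smul_mul_assoc, one_mul, smul_mul_assoc]
  have h3 : (Matrix.scalar (Fin 2) (a • (1 : Matrix (Fin 2) (Fin 2) F) + b • z).trace -
      (a • (1 : Matrix (Fin 2) (Fin 2) F) + b • z)) * m =
      a • m + b • ((Matrix.scalar (Fin 2) z.trace - z) * m) := by
    have h4 : Matrix.scalar (Fin 2) (a • (1 : Matrix (Fin 2) (Fin 2) F) + b • z).trace -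
      (a • (1 : Matrix (Fin 2) (Fin 2) F) + b • z) =
      a • (1 : Matrix (Fin 2) (Fin 2) F) + b • (Matrix.scalar (Fin 2) z.trace - z) := by
      ext i j
      fin_cases i <;> fin_cases j <;>
        simp [Matrix.trace, Fin.sum_univ_two, Matrix.scalar_apply]
    rw [h4, add_mul, smul_mul_assoc, one_mul, smul_mul_assoc]
  rw [h1, h2, h3]
  constructor
  · rintro (h | h)
    · exact Or.inl (smul_right_injective _ hb (add_left_cancel h))
    · exact Or.inr (smul_right_injective _ hb (add_left_cancel h))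
  · rintro (h | h)
    · exact Or.inl (by rw [h])
    · exact Or.inr (by rw [h])

theorem mem_nz_map (z : Matrix (Fin 2) (Fin 2) F) (s : SpecialLinearGroup (Fin 2) F) :
    toP 2 F s ∈ (nz z).map (toP 2 F) ↔ s ∈ nz z := by
  constructor
  · rintro ⟨t, ht, hts⟩
    have h1 : t⁻¹ * s ∈ Subgroup.center (SpecialLinearGroup (Fin 2) F) :=
      QuotientGroup.eq.1 hts
    have h2 : t⁻¹ * s ∈ nz z := by
      obtain ⟨r, hr, hr2⟩ := Matrix.SpecialLinearGroup.mem_center_iff.1 h1
      left
      rw [← hr2]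
      exact (Matrix.scalar_commute r (fun _ => Commute.all _ _) z).eq
    have h3 := (nz z).mul_mem ht h2
    rwa [mul_inv_cancel_left] at h3
  · intro h
    exact ⟨s, h, rfl⟩

/-- `SL_2(F)` is not contained in `nz z`. -/
theorem nz_ne_top [Finite F] (hF : 4 ≤ Nat.card F) (z : Matrix (Fin 2) (Fin 2) F)
    (hz : ¬ HasEV z) : nz z ≠ ⊤ := by
  classical
  intro htop
  have h0 := nz_entry z hz
  have := Fintype.ofFinite F
  obtain ⟨t, ht⟩ : ∃ t : F, t ∉ ({0, (z 1 1 - z 0 0) / z 1 0} : Finset F) := by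
    by_contra hcon
    push Not at hcon
    have h1 : Fintype.card F ≤ ({0, (z 1 1 - z 0 0) / z 1 0} : Finset F).card :=
      Finset.card_le_card fun t _ => hcon t
    rw [Nat.card_eq_fintype_card] at hF
    have h2 := Finset.card_le_two (a := (0 : F)) (b := (z 1 1 - z 0 0) / z 1 0)
    omega
  rw [Finset.mem_insert, Finset.mem_singleton, not_or] at ht
  obtain ⟨u, hu⟩ : ∃ u : SpecialLinearGroup (Fin 2) F,
      (u : Matrix (Fin 2) (Fin 2) F) = !![1, t; 0, 1] :=
    ⟨⟨!![1, t; 0, 1], by simp [Matrix.det_fin_two]⟩, rfl⟩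
  have hs : u ∈ nz z := by
    rw [htop]; exact Subgroup.mem_top u
  rw [mem_nz, hu] at hs
  rcases hs with hs | hs
  · have h1 := congrFun (congrFun hs 0) 0
    simp only [Matrix.mul_apply, Fin.sum_univ_two, Fin.isValue, Matrix.of_apply, Matrix.cons_val',
      Matrix.cons_val_zero, Matrix.cons_val_one, Matrix.cons_val_fin_one] at h1
    have h2 : t * z 1 0 = 0 := by linear_combination h1
    rcases mul_eq_zero.1 h2 with h | h
    · exact ht.1 h
    · exact h0 h
  · have h1 := congrFun (congrFun hs 0) 0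
    simp only [Matrix.mul_apply, Fin.sum_univ_two, Fin.isValue, Matrix.of_apply, Matrix.cons_val',
      Matrix.cons_val_zero, Matrix.cons_val_one, Matrix.cons_val_fin_one, Matrix.sub_apply,
      Matrix.scalar_apply, Matrix.diagonal_apply_eq, Matrix.trace, Matrix.diag_apply] at h1
    apply ht.2
    rw [eq_div_iff h0]
    linear_combination h1

end Lin43
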