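import Pool.Agent.Lib.MP_43150e_al.Crit
import Pool.Agent.Lib.MP_43150e_al.Lin.AutB
import Pool.Agent.Lib.MP_43150e_al.Lin.Bruhat
import Pool.Agent.Lib.MP_43150e_al.Lin.CharEx
import Pool.Agent.Lib.MP_43150e_al.Lin.Nz
import Pool.Agent.Lib.MP_43150e_al.Lin.E1

/-! # `n = 2`, `q` even, `q - 1` not prime: not spreading (paragraph 7b) -/

set_option autoImplicit false

namespace Lin43

open Matrix Spr43

/-- `2^h - 1` is not a proper prime power. -/
theorem two_pow_sub_one (h v l : ℕ) (hh : 2 ≤ h) (hl : l.Prime) (hv : 2 ^ h - 1 = l ^ v) :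
    v = 1 := by
  have h4 : 4 ∣ 2 ^ h := by
    obtain ⟨k, rfl⟩ := Nat.exists_eq_add_of_le hh
    exact ⟨2 ^ k, by rw [pow_add]; norm_num⟩
  have hpos : 0 < 2 ^ h := by positivity
  have h4le : 4 ≤ 2 ^ h := Nat.le_of_dvd hpos h4
  have hsum : l ^ v + 1 = 2 ^ h := by omega
  have hv0 : v ≠ 0 := by
    rintro rfl
    rw [pow_zero] at hsum
    omega
  have hlodd : Odd l := by
    rcases hl.eq_two_or_odd' with h2 | h2
    · exfalso
      have h3 : 2 ∣ l ^ v := by
        rw [h2]
        exact dvd_pow_self 2 hv0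
      omega
    · exact h2
  have hvodd : Odd v := by
    rw [← Nat.not_even_iff_odd]
    rintro ⟨w, hw⟩
    obtain ⟨k, hk⟩ := hlodd.pow (n := w)
    have h5 : l ^ v = 4 * (k * k + k) + 1 := by
      rw [hw, pow_add, hk]
      ring
    omega
  -- the cofactor of `l + 1`
  have hgeom : (∑ i ∈ Finset.range v, (-(l : ℤ)) ^ i) * (l + 1) = 2 ^ h := by
    have h6 := geom_sum_mul (-(l : ℤ)) v
    rw [hvodd.neg_pow] at h6
    have h7 : (l : ℤ) ^ v + 1 = 2 ^ h := by exact_mod_cast hsum
    linarith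
  obtain ⟨S, hS⟩ : ∃ S : ℤ, S = ∑ i ∈ Finset.range v, (-(l : ℤ)) ^ i := ⟨_, rfl⟩
  rw [← hS] at hgeom
  have hSodd : Odd S := by
    have h8 : ∀ n : ℕ, (∑ i ∈ Finset.range n, (-(l : ℤ)) ^ i) % 2 = (n : ℤ) % 2 := by
      intro n
      induction n with
      | zero => simp
      | succ n ih =>
        rw [Finset.sum_range_succ, Int.add_emod, ih]
        have h9 : Odd ((-(l : ℤ)) ^ n) := by
          apply Odd.pow
          exact (show Odd ((l : ℕ) : ℤ) by exact_mod_cast hlodd).neg
        rw [Int.odd_iff.1 h9]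
        push_cast
        omega
    rw [Int.odd_iff, hS, h8 v]
    obtain ⟨w, hw⟩ := hvodd
    omega
  have hunit : S.natAbs = 1 := by
    have h10 : S.natAbs ∣ 2 ^ h := by
      have h11 : S ∣ 2 ^ h := ⟨_, hgeom.symm⟩
      have h12 := Int.natAbs_dvd_natAbs.2 h11
      rwa [Int.natAbs_pow] at h12
    have h13 : Nat.Coprime S.natAbs (2 ^ h) := by
      apply Nat.Coprime.pow_right
      exact (Nat.coprime_two_right).2 (Int.natAbs_odd.2 hSodd)
    exact Nat.Coprime.eq_one_of_dvd h13 h10
  have hl2 : (0 : ℤ) < l + 1 := by positivity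
  have hSpos : 0 < S := by
    by_contra hcon
    push Not at hcon
    have h14 : S * (l + 1) ≤ 0 := mul_nonpos_of_nonpos_of_nonneg hcon hl2.le
    have h15 : (0 : ℤ) < 2 ^ h := by positivity
    omega
  have hS1 : S = 1 := by omega
  rw [hS1, one_mul] at hgeom
  have h16 : l + 1 = 2 ^ h := by exact_mod_cast hgeom
  have h17 : l ^ v = l ^ 1 := by rw [pow_one]; omega
  exact Nat.pow_right_injective hl.two_le h17

/-- A character and an element of order dividing `d` on which it does not vanish. -/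
private theorem n2e_char {A : Type*} [CommGroup A] [Finite A] [IsCyclic A] (d e : ℕ)
    (hd : 1 < d) (hde : d.Coprime e) (hA : Nat.card A = d * e) :
    ∃ (l : ℕ) (_ : Fact l.Prime) (χ : A →* Multiplicative (ZMod l)) (t : A),
      t ^ d = 1 ∧ χ t ≠ 1 := by
  have he0 : e ≠ 0 := by
    rintro rfl
    rw [mul_zero] at hA
    exact Nat.card_pos.ne' hA
  have hD : (powMonoidHom e : A →* A).ker ≠ ⊤ := by
    intro htop
    obtain ⟨g, hg⟩ := IsCyclic.exists_ofOrder_eq_natCard (α := A)
    have h1 : g ∈ (powMonoidHom e : A →* A).ker := by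
      rw [htop]
      exact Subgroup.mem_top _
    have h2 : g ^ e = 1 := h1
    have h3 : orderOf g ∣ e := orderOf_dvd_of_pow_eq_one h2
    have h4 : orderOf g ≤ e := Nat.le_of_dvd (Nat.pos_of_ne_zero he0) h3
    rw [hg, hA] at h4
    have h5 : 1 * e < d * e := Nat.mul_lt_mul_of_pos_right hd (Nat.pos_of_ne_zero he0)
    omega
  obtain ⟨l, hl, χ, hχ, a, ha⟩ := exists_char _ hD
  obtain ⟨u, w, huw⟩ := Nat.isCoprime_iff_coprime.2 hde
  refine ⟨l, hl, χ, a ^ (w * e), ?_, ?_⟩
  · have h6 : (a ^ (w * e)) ^ d = (a ^ (d * e)) ^ w := by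
      rw [← zpow_natCast, ← _root_.zpow_mul, ← zpow_natCast a, ← _root_.zpow_mul]
      congr 1
      push_cast
      ring
    rw [h6, ← hA, pow_card_eq_one', _root_.one_zpow]
  · have h7 : a ^ (u * d) ∈ (powMonoidHom e : A →* A).ker := by
      rw [MonoidHom.mem_ker, powMonoidHom_apply]
      have h8 : (a ^ (u * d)) ^ e = (a ^ (d * e)) ^ u := by
        rw [← zpow_natCast, ← _root_.zpow_mul, ← zpow_natCast a, ← _root_.zpow_mul]
        congr 1
        push_cast
        ring
      rw [h8, ← hA, pow_card_eq_one', _root_.one_zpow]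
    have h9 : a = a ^ (u * d) * a ^ (w * e) := by
      rw [← _root_.zpow_add, huw, zpow_one]
    intro h10
    apply ha
    rw [h9, map_mul, hχ _ h7, h10, one_mul]

private theorem n2e_one {F : Type*} [Field F] (h2 : (2 : F) = 0) (c : F) (hc : c ^ 2 = 1) :
    c = 1 := by
  have h3 : (c - 1) ^ 2 = 0 := by
    have h4 : (c - 1) ^ 2 = c ^ 2 - 1 + 2 * (1 - c) := by ring
    rw [h4, hc, h2]
    ring
  exact sub_eq_zero.1 (pow_eq_zero_iff (two_ne_zero) |>.1 h3)

/-- A scalar matrix of determinant one is one. -/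
private theorem n2e_scalar {F : Type*} [Field F] (h2 : (2 : F) = 0)
    (s : SpecialLinearGroup (Fin 2) F) (c : F)
    (hs : (s : Matrix (Fin 2) (Fin 2) F) = Matrix.scalar (Fin 2) c) : s = 1 := by
  have h1 : (s : Matrix (Fin 2) (Fin 2) F).det = 1 := s.2
  rw [hs, Matrix.scalar_apply, Matrix.det_diagonal, Fin.prod_univ_two] at h1
  have h3 : c = 1 := n2e_one h2 c (by rw [pow_two]; exact h1)
  apply Subtype.ext
  rw [hs, h3, map_one]
  rfl

private theorem n2e_det {F : Type*} [Field F] (s : SpecialLinearGroup (Fin 2) F) :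
    (s : Matrix (Fin 2) (Fin 2) F) 0 0 * (s : Matrix (Fin 2) (Fin 2) F) 1 1 -
      (s : Matrix (Fin 2) (Fin 2) F) 0 1 * (s : Matrix (Fin 2) (Fin 2) F) 1 0 = 1 := by
  rw [← Matrix.det_fin_two]
  exact s.2

/-- The group `{b : b upper triangular, (b 0 0)^d = 1}`. -/
private def n2eH {F : Type*} [Field F] (d : ℕ) : Subgroup (SpecialLinearGroup (Fin 2) F) where
  carrier := {b | UT (b : Matrix (Fin 2) (Fin 2) F) ∧
    ((b : Matrix (Fin 2) (Fin 2) F) 0 0) ^ d = 1}
  one_mem' := by
    refine ⟨UT.one, ?_⟩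
    rw [Matrix.SpecialLinearGroup.coe_one, Matrix.one_apply_eq, one_pow]
  mul_mem' := by
    intro a b ha hb
    refine ⟨ha.1.mul hb.1, ?_⟩
    rw [Matrix.SpecialLinearGroup.coe_mul, UT.mul_diag ha.1 hb.1, mul_pow, ha.2, hb.2, one_mul]
  inv_mem' := by
    intro b hb
    have h : (b : Matrix (Fin 2) (Fin 2) F) * ((b⁻¹ : SpecialLinearGroup (Fin 2) F) :
        Matrix (Fin 2) (Fin 2) F) = 1 := by
      rw [← Matrix.SpecialLinearGroup.coe_mul, mul_inv_cancel, Matrix.SpecialLinearGroup.coe_one]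
    have h1 := UT.of_mul_eq_one hb.1 h
    refine ⟨h1, ?_⟩
    have h3 := congrFun (congrFun h 0) 0
    rw [UT.mul_diag hb.1 h1, Matrix.one_apply_eq] at h3
    have h4 := congrArg (fun y => y ^ d) h3
    simp only [mul_pow, one_pow] at h4
    rwa [hb.2, one_mul] at h4

private theorem n2eH_card {F : Type*} [Field F] [Finite F] (d : ℕ) (hd : 0 < d) :
    Nat.card (n2eH (F := F) d) ≤ d * Nat.card F := by
  classical
  have hfin : Finite (n2eH (F := F) d) := inferInstance
  have h1 : Nat.card {t : F // t ^ d = 1} ≤ d := by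
    have h2 : Function.Injective (fun t : {t : F // t ^ d = 1} =>
        (⟨t.1, (Polynomial.mem_nthRootsFinset hd (1 : F)).2 t.2⟩ :
          (Polynomial.nthRootsFinset d (1 : F)))) := by
      intro t t' h
      have h' := congrArg (fun y : (Polynomial.nthRootsFinset d (1 : F)) => (y : F)) h
      exact Subtype.ext h'
    refine (Nat.card_le_card_of_injective _ h2).trans ?_
    rw [Nat.card_eq_fintype_card, Fintype.card_coe]
    unfold Polynomial.nthRootsFinset
    exact (Multiset.toFinset_card_le _).trans (Polynomial.card_nthRoots d 1)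
  have h3 : Function.Injective (fun b : n2eH (F := F) d =>
      ((⟨((b : SpecialLinearGroup (Fin 2) F) : Matrix (Fin 2) (Fin 2) F) 0 0, b.2.2⟩,
        ((b : SpecialLinearGroup (Fin 2) F) : Matrix (Fin 2) (Fin 2) F) 0 1) :
        {t : F // t ^ d = 1} × F)) := by
    intro a b hab
    have e0 : ((a : SpecialLinearGroup (Fin 2) F) : Matrix (Fin 2) (Fin 2) F) 0 0 =
        ((b : SpecialLinearGroup (Fin 2) F) : Matrix (Fin 2) (Fin 2) F) 0 0 :=
      congrArg Subtype.val (Prod.ext_iff.1 hab).1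
    have e1 : ((a : SpecialLinearGroup (Fin 2) F) : Matrix (Fin 2) (Fin 2) F) 0 1 =
        ((b : SpecialLinearGroup (Fin 2) F) : Matrix (Fin 2) (Fin 2) F) 0 1 :=
      (Prod.ext_iff.1 hab).2
    have ha : ((a : SpecialLinearGroup (Fin 2) F) : Matrix (Fin 2) (Fin 2) F) 1 0 = 0 :=
      a.2.1 1 0 (by decide)
    have hb : ((b : SpecialLinearGroup (Fin 2) F) : Matrix (Fin 2) (Fin 2) F) 1 0 = 0 :=
      b.2.1 1 0 (by decide)
    have da := n2e_det (a : SpecialLinearGroup (Fin 2) F)
    have db := n2e_det (b : SpecialLinearGroup (Fin 2) F)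
    rw [ha, mul_zero, sub_zero] at da
    rw [hb, mul_zero, sub_zero, ← e0] at db
    have hne : ((a : SpecialLinearGroup (Fin 2) F) : Matrix (Fin 2) (Fin 2) F) 0 0 ≠ 0 := by
      intro h
      rw [h, zero_mul] at da
      exact zero_ne_one da
    have e3 := mul_left_cancel₀ hne (da.trans db.symm)
    apply Subtype.ext
    apply Subtype.ext
    ext i k
    fin_cases i <;> fin_cases k
    · exact e0
    · exact e1
    · exact ha.trans hb.symm
    · exact e3
  refine (Nat.card_le_card_of_injective _ h3).trans ?_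
  rw [Nat.card_prod]
  exact Nat.mul_le_mul_right _ h1

/-- The order of the normaliser. -/
private theorem n2e_nz_card {F : Type*} [Field F] [Finite F] (h2 : (2 : F) = 0)
    (z : Matrix (Fin 2) (Fin 2) F) (hz : ¬ HasEV z) :
    Nat.card (nz z) ≤ 2 * (Nat.card F + 1) := by
  classical
  have hinj : Function.Injective (fun k : nz z =>
      ((if ((k : SpecialLinearGroup (Fin 2) F) : Matrix (Fin 2) (Fin 2) F) 0 0 = 0 then none else
        some (((k : SpecialLinearGroup (Fin 2) F) : Matrix (Fin 2) (Fin 2) F) 1 0 /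
          ((k : SpecialLinearGroup (Fin 2) F) : Matrix (Fin 2) (Fin 2) F) 0 0),
        decide (((k : SpecialLinearGroup (Fin 2) F) : Matrix (Fin 2) (Fin 2) F) * z =
          z * ((k : SpecialLinearGroup (Fin 2) F) : Matrix (Fin 2) (Fin 2) F))) :
        Option F × Bool)) := by
    rintro ⟨a, ha⟩ ⟨b, hb⟩ hab
    obtain ⟨h3, h4⟩ := Prod.ext_iff.1 hab
    simp only at h3 h4
    have hda := n2e_det a
    have hdb := n2e_det b
    -- proportional first columns
    obtain ⟨c, hc0, hc1⟩ : ∃ c : F, (b : Matrix (Fin 2) (Fin 2) F) 0 0 =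
        c * (a : Matrix (Fin 2) (Fin 2) F) 0 0 ∧
        (b : Matrix (Fin 2) (Fin 2) F) 1 0 = c * (a : Matrix (Fin 2) (Fin 2) F) 1 0 := by
      by_cases h5 : (a : Matrix (Fin 2) (Fin 2) F) 0 0 = 0
      · by_cases h6 : (b : Matrix (Fin 2) (Fin 2) F) 0 0 = 0
        · have h7 : (a : Matrix (Fin 2) (Fin 2) F) 1 0 ≠ 0 := by
            intro h
            rw [h5, h, zero_mul, mul_zero, sub_zero] at hda
            exact zero_ne_one hda
          exact ⟨(b : Matrix (Fin 2) (Fin 2) F) 1 0 / (a : Matrix (Fin 2) (Fin 2) F) 1 0,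
            by rw [h5, h6, mul_zero], (div_mul_cancel₀ _ h7).symm⟩
        · rw [if_pos h5, if_neg h6] at h3
          exact absurd h3 (by simp)
      · by_cases h6 : (b : Matrix (Fin 2) (Fin 2) F) 0 0 = 0
        · rw [if_neg h5, if_pos h6] at h3
          exact absurd h3 (by simp)
        · rw [if_neg h5, if_neg h6, Option.some_inj, div_eq_div_iff h5 h6] at h3
          refine ⟨(b : Matrix (Fin 2) (Fin 2) F) 0 0 / (a : Matrix (Fin 2) (Fin 2) F) 0 0,
            (div_mul_cancel₀ _ h5).symm, ?_⟩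
          rw [div_mul_eq_mul_div, eq_div_iff h5, ← h3]
          ring
    obtain ⟨A', hA'⟩ : ∃ A' : Matrix (Fin 2) (Fin 2) F,
        A' = ((a⁻¹ : SpecialLinearGroup (Fin 2) F) : Matrix (Fin 2) (Fin 2) F) := ⟨_, rfl⟩
    have hA1 : A' * (a : Matrix (Fin 2) (Fin 2) F) = 1 := by
      rw [hA', ← Matrix.SpecialLinearGroup.coe_mul, inv_mul_cancel,
        Matrix.SpecialLinearGroup.coe_one]
    have hA2 : (a : Matrix (Fin 2) (Fin 2) F) * A' = 1 := by
      rw [hA', ← Matrix.SpecialLinearGroup.coe_mul, mul_inv_cancel,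
        Matrix.SpecialLinearGroup.coe_one]
    have hcomm : Commute ((a⁻¹ * b : SpecialLinearGroup (Fin 2) F) :
        Matrix (Fin 2) (Fin 2) F) z := by
      rw [Matrix.SpecialLinearGroup.coe_mul, ← hA']
      change A' * (b : Matrix (Fin 2) (Fin 2) F) * z = z * (A' * (b : Matrix (Fin 2) (Fin 2) F))
      by_cases h8 : (a : Matrix (Fin 2) (Fin 2) F) * z = z * a
      · have h9 : (b : Matrix (Fin 2) (Fin 2) F) * z = z * b := by
          rw [decide_eq_true h8] at h4
          exact of_decide_eq_true h4.symm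
        have h10 : A' * z = z * A' := by
          have h11 : A' * ((a : Matrix (Fin 2) (Fin 2) F) * z) * A' =
              A' * (z * (a : Matrix (Fin 2) (Fin 2) F)) * A' := by rw [h8]
          have h12 : A' * ((a : Matrix (Fin 2) (Fin 2) F) * z) * A' = z * A' := by
            rw [← mul_assoc, hA1, one_mul]
          have h13 : A' * (z * (a : Matrix (Fin 2) (Fin 2) F)) * A' = A' * z := by
            rw [mul_assoc, mul_assoc z, hA2, mul_one]
          rw [← h13, ← h11, h12]
        rw [mul_assoc, h9, ← mul_assoc, h10, mul_assoc]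
      · have h9 : ¬ (b : Matrix (Fin 2) (Fin 2) F) * z = z * b := by
          rw [decide_eq_false h8] at h4
          exact of_decide_eq_false h4.symm
        have h8' := (((mem_nz z a).1 ha).resolve_left h8)
        have h9' := (((mem_nz z b).1 hb).resolve_left h9)
        obtain ⟨Z', hZ'⟩ : ∃ Z' : Matrix (Fin 2) (Fin 2) F,
            Z' = Matrix.scalar (Fin 2) z.trace - z := ⟨_, rfl⟩
        rw [← hZ'] at h8' h9'
        have h10 : A' * Z' = z * A' := by
          have h11 : A' * ((a : Matrix (Fin 2) (Fin 2) F) * z) * A' =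
              A' * (Z' * (a : Matrix (Fin 2) (Fin 2) F)) * A' := by rw [h8']
          have h12 : A' * ((a : Matrix (Fin 2) (Fin 2) F) * z) * A' = z * A' := by
            rw [← mul_assoc, hA1, one_mul]
          have h13 : A' * (Z' * (a : Matrix (Fin 2) (Fin 2) F)) * A' = A' * Z' := by
            rw [mul_assoc, mul_assoc Z', hA2, mul_one]
          rw [← h13, ← h11, h12]
        rw [mul_assoc, h9', ← mul_assoc, h10, mul_assoc]
    have hev : HasEV ((a⁻¹ * b : SpecialLinearGroup (Fin 2) F) :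
        Matrix (Fin 2) (Fin 2) F) := by
      refine ⟨![1, 0], c, ?_, ?_⟩
      · intro h
        have := congrFun h 0
        simp at this
      · have h14 : (b : Matrix (Fin 2) (Fin 2) F).mulVec ![1, 0] =
            c • (a : Matrix (Fin 2) (Fin 2) F).mulVec ![1, 0] := by
          funext i
          fin_cases i
          · simpa [Matrix.mulVec, dotProduct, Fin.sum_univ_two] using hc0
          · simpa [Matrix.mulVec, dotProduct, Fin.sum_univ_two] using hc1
        rw [Matrix.SpecialLinearGroup.coe_mul, ← Matrix.mulVec_mulVec, h14, Matrix.mulVec_smul,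
          ← hA', Matrix.mulVec_mulVec, hA1, Matrix.one_mulVec]
    obtain ⟨c', hc'⟩ := scalar_of_commute2 z _ hz hcomm hev
    have h15 := n2e_scalar h2 _ c' hc'
    apply Subtype.ext
    exact (inv_mul_eq_one.1 h15)
  refine (Nat.card_le_card_of_injective _ hinj).trans ?_
  rw [Nat.card_prod, Finite.card_option, Nat.card_eq_fintype_card (α := Bool), Fintype.card_bool,
    mul_comm]

/-- The order of `SL_2(F)` (lower bound). -/
private theorem n2e_SL_card {F : Type*} [Field F] [Finite F] (h2 : (2 : F) = 0) :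
    (Nat.card F + 1) * ((Nat.card F - 1) * Nat.card F) ≤
      Nat.card (SpecialLinearGroup (Fin 2) F) := by
  classical
  have hneg : (-1 : F) = 1 := by
    have h3 : (-1 : F) = 1 - 2 := by ring
    rw [h3, h2, sub_zero]
  have hd1 : ∀ (c : F) (a : Fˣ) (b : F),
      (!![(a : F), b; c * a, c * b + (a⁻¹ : Fˣ)] : Matrix (Fin 2) (Fin 2) F).det = 1 := by
    intro c a b
    rw [Matrix.det_fin_two_of]
    have h4 : (a : F) * (a⁻¹ : Fˣ) = 1 := Units.mul_inv a
    linear_combination h4
  have hd2 : ∀ (a : Fˣ) (b : F),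
      (!![0, ((a⁻¹ : Fˣ) : F); (a : F), b] : Matrix (Fin 2) (Fin 2) F).det = 1 := by
    intro a b
    rw [Matrix.det_fin_two_of]
    have h4 : (a : F) * (a⁻¹ : Fˣ) = 1 := Units.mul_inv a
    linear_combination -h4 + hneg
  have hinj : Function.Injective (fun w : Option F × (Fˣ × F) => (match w.1 with
      | none => (⟨_, hd2 w.2.1 w.2.2⟩ : SpecialLinearGroup (Fin 2) F)
      | some c => ⟨_, hd1 c w.2.1 w.2.2⟩)) := by
    rintro ⟨o, a, b⟩ ⟨o', a', b'⟩ h
    rcases o with _ | c <;> rcases o' with _ | c'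
    · have h5 := congrArg (fun s : SpecialLinearGroup (Fin 2) F =>
        (s : Matrix (Fin 2) (Fin 2) F) 1 0) h
      have h6 := congrArg (fun s : SpecialLinearGroup (Fin 2) F =>
        (s : Matrix (Fin 2) (Fin 2) F) 1 1) h
      simp only [Matrix.of_apply, Matrix.cons_val', Matrix.cons_val_zero, Matrix.cons_val_one,
        Matrix.cons_val_fin_one] at h5 h6
      rw [Units.ext h5, h6]
    · have h5 := congrArg (fun s : SpecialLinearGroup (Fin 2) F =>
        (s : Matrix (Fin 2) (Fin 2) F) 0 0) h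
      simp only [Matrix.of_apply, Matrix.cons_val', Matrix.cons_val_zero, Matrix.cons_val_one,
        Matrix.cons_val_fin_one] at h5
      exact absurd h5.symm a'.ne_zero
    · have h5 := congrArg (fun s : SpecialLinearGroup (Fin 2) F =>
        (s : Matrix (Fin 2) (Fin 2) F) 0 0) h
      simp only [Matrix.of_apply, Matrix.cons_val', Matrix.cons_val_zero, Matrix.cons_val_one,
        Matrix.cons_val_fin_one] at h5
      exact absurd h5 a.ne_zero
    · have h5 := congrArg (fun s : SpecialLinearGroup (Fin 2) F =>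
        (s : Matrix (Fin 2) (Fin 2) F) 0 0) h
      have h6 := congrArg (fun s : SpecialLinearGroup (Fin 2) F =>
        (s : Matrix (Fin 2) (Fin 2) F) 0 1) h
      have h7 := congrArg (fun s : SpecialLinearGroup (Fin 2) F =>
        (s : Matrix (Fin 2) (Fin 2) F) 1 0) h
      simp only [Matrix.of_apply, Matrix.cons_val', Matrix.cons_val_zero, Matrix.cons_val_one,
        Matrix.cons_val_fin_one] at h5 h6 h7
      have h8 : a = a' := Units.ext h5
      subst h8
      have h9 : c = c' := mul_right_cancel₀ a.ne_zero h7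
      rw [h9, h6]
  have h10 := Nat.card_le_card_of_injective _ hinj
  rwa [Nat.card_prod, Nat.card_prod, Finite.card_option, Nat.card_units] at h10

/-- `q - 1` is odd and not a prime power (`two_pow_sub_one`). Let `l` be a prime divisor,
`d = l^v` the exact power of `l` in `q - 1`, a proper divisor, so `d ≤ (q-1)/3`. There are a character
`χ : Fˣ → Z/l` and `t` with `t^d = 1`, `χ t ≠ 1` (cyclic group). `criterionQ` with `P = borelS`, `φ = toP`,
`ψ b = χ (b 0 0)`, `H = {toP b | b ∈ B, b^(2d) = 1} = {toP b | b ∈ B, (b 0 0)^d = 1}` (a subgroup). (i) `autB` and `br`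
(`β (toP h) ∈ H` iff `m⁻¹ h m ∈ B` and `h^(2d) = 1`; the centre is trivial in characteristic 2). (ii) `|H| ≤ q d`
and `|Ω| = q(q-1)/2 > q d`; here `|nz z| ≤ 2 (q + 1)` is enough. (iii) an upper triangular `k ∈ nz z` has
`k² = 1` (`scalar_of_commute2`, `sq_of_anti`), so `k 0 0 = 1`. -/
theorem n2_even_not_spreading {F Γ Ω : Type*} [Field F] [Fintype F] [Group Γ] [MulAction Γ Ω]
    [Fintype Ω] [DecidableEq Ω] (hq : 59 < Fintype.card F) (h2 : (2 : F) = 0)
    (hnp : ¬ (Fintype.card F - 1).Prime)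
    (j : ProjectiveSpecialLinearGroup (Fin 2) F →* Γ)
    (hj : ∀ g : Γ, ∃ β : ProjectiveSpecialLinearGroup (Fin 2) F ≃*
      ProjectiveSpecialLinearGroup (Fin 2) F, ∀ t, j (β t) = g * j t * g⁻¹)
    (htr : ∀ x y : Ω, ∃ t, j t • x = y) (x : Ω)
    (z : Matrix (Fin 2) (Fin 2) F) (hz : ¬ HasEV z) (hK : stabS j x = nz z) :
    ¬ IsSpreading Γ Ω := by
  classical
  obtain ⟨q, hqd⟩ : ∃ q, q = Fintype.card F := ⟨_, rfl⟩
  have hqN : Nat.card F = q := by rw [hqd, Nat.card_eq_fintype_card]
  rw [← hqd] at hq hnp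
  have hchar : CharP F 2 := CharTwo.of_one_ne_zero_of_two_eq_zero one_ne_zero h2
  obtain ⟨n, -, hn⟩ := FiniteField.card F 2
  rw [← hqd] at hn
  have hn2 : 2 ≤ (n : ℕ) := by
    by_contra hcon
    push Not at hcon
    have h3 : (2 : ℕ) ^ (n : ℕ) ≤ 2 ^ 1 := Nat.pow_le_pow_right (by norm_num) (by omega)
    omega
  have h4 : (4 : ℕ) ∣ 2 ^ (n : ℕ) := by
    obtain ⟨k, hk⟩ := Nat.exists_eq_add_of_le hn2
    rw [hk]
    exact ⟨2 ^ k, by rw [pow_add]; norm_num⟩
  rw [← hn] at h4
  -- the factorisation of `q - 1`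
  obtain ⟨d, e, hd, he, hde, hprod⟩ : ∃ d e : ℕ, 1 < d ∧ 3 ≤ e ∧ d.Coprime e ∧ d * e = q - 1 := by
    obtain ⟨l, hl, hlq⟩ := Nat.exists_prime_and_dvd (n := q - 1) (by omega)
    have hq0 : q - 1 ≠ 0 := by omega
    have hmul := Nat.ordProj_mul_ordCompl_eq_self (q - 1) l
    have hcop : (l ^ (q - 1).factorization l).Coprime ((q - 1) / l ^ (q - 1).factorization l) :=
      (Nat.coprime_ordCompl hl hq0).pow_left _
    have hf : 0 < (q - 1).factorization l := hl.factorization_pos_of_dvd hq0 hlq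
    obtain ⟨d, hd⟩ : ∃ d, d = l ^ (q - 1).factorization l := ⟨_, rfl⟩
    obtain ⟨e, he⟩ : ∃ e, e = (q - 1) / l ^ (q - 1).factorization l := ⟨_, rfl⟩
    rw [← he] at hcop hmul
    rw [← hd] at hcop
    refine ⟨d, e, ?_, ?_, hcop, ?_⟩
    · rw [hd]
      exact Nat.one_lt_pow hf.ne' hl.one_lt
    · have he0 : e ≠ 0 := by
        rintro rfl
        rw [mul_zero] at hmul
        omega
      have he1 : e ≠ 1 := by
        rintro rfl
        rw [mul_one] at hmul
        have h5 := two_pow_sub_one n _ l hn2 hl (by rw [← hn]; exact hmul.symm)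
        rw [h5, pow_one] at hmul
        apply hnp
        rw [← hmul]
        exact hl
      have he2 : e ≠ 2 := by
        rintro rfl
        omega
      omega
    · rw [hd]
      exact hmul
  have hunits : Nat.card Fˣ = d * e := by rw [Nat.card_units, hqN, hprod]
  obtain ⟨l, hl, χ, t, ht, hχt⟩ := n2e_char d e hd hde hunits
  let dg : borelS 2 F →* Fˣ := (Pi.evalMonoidHom (fun _ : Fin 2 => Fˣ) 0).comp (e1dg 2 F)
  have hdg : ∀ b : borelS 2 F, (dg b : F) =
      ((b : SpecialLinearGroup (Fin 2) F) : Matrix (Fin 2) (Fin 2) F) 0 0 := fun b => rfl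
  refine criterionQ j hj l ((toP 2 F).comp (borelS 2 F).subtype) (χ.comp dg)
    ((n2eH d).map (toP 2 F)) x ?_ ?_ ?_
  · -- (i)
    intro β
    obtain ⟨m, hm⟩ := autB β
    obtain ⟨b, hb, hb', hbm⟩ := br m ![(t : F), ((t⁻¹ : Fˣ) : F)] (by
      rw [Fin.prod_univ_two]
      exact Units.mul_inv t)
    have hb00 : (b : Matrix (Fin 2) (Fin 2) F) 0 0 = t := hb' 0
    have hb11 : (b : Matrix (Fin 2) (Fin 2) F) 1 1 = (t⁻¹ : Fˣ) := hb' 1
    refine ⟨⟨b, hb⟩, ?_, ?_⟩
    · have h5 : dg ⟨b, hb⟩ = t := Units.ext (by rw [hdg]; exact hb00)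
      rw [MonoidHom.comp_apply, h5]
      exact hχt
    · obtain ⟨b', hb1, hb2⟩ := (hm b).2 hbm
      have hpow : b ^ (2 * d) = 1 := by
        have h6 : UT ((b ^ d : SpecialLinearGroup (Fin 2) F) : Matrix (Fin 2) (Fin 2) F) :=
          (borelS 2 F).pow_mem hb d
        have h7 : ∀ i, ((b ^ d : SpecialLinearGroup (Fin 2) F) : Matrix (Fin 2) (Fin 2) F) i i
            = ((b : Matrix (Fin 2) (Fin 2) F) i i) ^ d := by
          intro i
          have h8 := congrFun (map_pow (e1dg 2 F) ⟨b, hb⟩ d) i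
          exact congrArg Units.val h8
        have h9 : ((b ^ d : SpecialLinearGroup (Fin 2) F) : Matrix (Fin 2) (Fin 2) F) 0 0 = 1 := by
          rw [h7, hb00]
          exact congrArg Units.val ht
        have h10 : ((b ^ d : SpecialLinearGroup (Fin 2) F) : Matrix (Fin 2) (Fin 2) F) 1 1 = 1 := by
          rw [h7, hb11]
          have h11 : (t⁻¹) ^ d = 1 := by rw [inv_pow, ht, inv_one]
          exact congrArg Units.val h11
        have h12 : ((b ^ d : SpecialLinearGroup (Fin 2) F) : Matrix (Fin 2) (Fin 2) F) 1 0 = 0 :=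
          h6 1 0 (by decide)
        have h13 : b ^ (2 * d) = b ^ d * b ^ d := by rw [two_mul, pow_add]
        rw [h13]
        apply Subtype.ext
        change ((b ^ d : SpecialLinearGroup (Fin 2) F) : Matrix (Fin 2) (Fin 2) F) *
          ((b ^ d : SpecialLinearGroup (Fin 2) F) : Matrix (Fin 2) (Fin 2) F) = 1
        obtain ⟨N, hN⟩ : ∃ N : Matrix (Fin 2) (Fin 2) F,
          N = ((b ^ d : SpecialLinearGroup (Fin 2) F) : Matrix (Fin 2) (Fin 2) F) := ⟨_, rfl⟩
        rw [← hN] at h9 h10 h12 ⊢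
        ext i k
        fin_cases i <;> fin_cases k
        · simp [Matrix.mul_apply, Fin.sum_univ_two, h9, h12]
        · have h14 : N 0 1 + N 0 1 = 0 := by rw [← two_mul, h2, zero_mul]
          simpa [Matrix.mul_apply, Fin.sum_univ_two, h9, h10] using h14
        · simp [Matrix.mul_apply, Fin.sum_univ_two, h12]
        · simp [Matrix.mul_apply, Fin.sum_univ_two, h10, h12]
      have hpow' : toP 2 F (b' ^ (2 * d)) = 1 := by
        rw [map_pow, hb2, ← map_pow, ← map_pow, hpow, map_one, map_one]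
      have h15 : b' ^ (2 * d) ∈ Subgroup.center (SpecialLinearGroup (Fin 2) F) :=
        (QuotientGroup.eq_one_iff _).1 hpow'
      obtain ⟨c, hc⟩ := center_scalar _ h15
      have h16 := n2e_scalar h2 _ c hc
      have hb1' : UT (b' : Matrix (Fin 2) (Fin 2) F) := hb1
      refine ⟨b', ⟨hb1', ?_⟩, hb2⟩
      have h17 := congrFun (map_pow (e1dg 2 F) ⟨b', hb1⟩ (2 * d)) 0
      have h18 : ((b' ^ (2 * d) : SpecialLinearGroup (Fin 2) F) : Matrix (Fin 2) (Fin 2) F) 0 0
          = ((b' : Matrix (Fin 2) (Fin 2) F) 0 0) ^ (2 * d) := congrArg Units.val h17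
      rw [h16, Matrix.SpecialLinearGroup.coe_one, Matrix.one_apply_eq, mul_comm 2 d,
        pow_mul] at h18
      exact n2e_one h2 _ h18.symm
  · -- (ii)
    by_contra hcon
    push Not at hcon
    have hsurj : Function.Surjective (fun w : n2eH (F := F) d × nz z =>
        (w.1 : SpecialLinearGroup (Fin 2) F) * (w.2 : SpecialLinearGroup (Fin 2) F)) := by
      intro s
      obtain ⟨h, hh, hhx⟩ := hcon x (j (toP 2 F s) • x)
      obtain ⟨b, hb, rfl⟩ := hh
      have hk : b⁻¹ * s ∈ nz z := by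
        rw [← hK, mem_stabS, map_mul, map_mul, mul_smul, ← hhx, ← mul_smul, ← map_mul, ← map_mul,
          inv_mul_cancel, map_one, map_one, one_smul]
      exact ⟨(⟨b, hb⟩, ⟨b⁻¹ * s, hk⟩), by simp⟩
    have h5 := Nat.card_le_card_of_surjective _ hsurj
    rw [Nat.card_prod] at h5
    have h6 := n2eH_card (F := F) d (by omega)
    have h7 := n2e_nz_card h2 z hz
    have h8 := n2e_SL_card (F := F) h2
    rw [hqN] at h6 h7 h8
    have h9 : (q + 1) * ((q - 1) * q) ≤ d * q * (2 * (q + 1)) :=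
      h8.trans (h5.trans (Nat.mul_le_mul h6 h7))
    have h10 : (q + 1) * q * (d * e) ≤ (q + 1) * q * (d * 2) := by
      rw [hprod]
      calc (q + 1) * q * (q - 1) = (q + 1) * ((q - 1) * q) := by ring
        _ ≤ d * q * (2 * (q + 1)) := h9
        _ = (q + 1) * q * (d * 2) := by ring
    have h11 : d * e ≤ d * 2 := Nat.le_of_mul_le_mul_left h10 (by positivity)
    have h12 : e ≤ 2 := Nat.le_of_mul_le_mul_left h11 (by omega)
    omega
  · -- (iii)
    intro b hbx
    have hbK : (b : SpecialLinearGroup (Fin 2) F) ∈ nz z := by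
      rw [← hK, mem_stabS]
      exact hbx
    have hUT : UT ((b : SpecialLinearGroup (Fin 2) F) : Matrix (Fin 2) (Fin 2) F) := b.2
    have h10 : ((b : SpecialLinearGroup (Fin 2) F) : Matrix (Fin 2) (Fin 2) F) 1 0 = 0 :=
      hUT 1 0 (by decide)
    have hneg : (-1 : F) = 1 := by
      have h3 : (-1 : F) = 1 - 2 := by ring
      rw [h3, h2, sub_zero]
    have h11 : dg b = 1 := by
      apply Units.ext
      rw [hdg]
      change ((b : SpecialLinearGroup (Fin 2) F) : Matrix (Fin 2) (Fin 2) F) 0 0 = 1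
      by_cases hcm : Commute ((b : SpecialLinearGroup (Fin 2) F) : Matrix (Fin 2) (Fin 2) F) z
      · have hev : HasEV ((b : SpecialLinearGroup (Fin 2) F) : Matrix (Fin 2) (Fin 2) F) := by
          refine ⟨![1, 0], ((b : SpecialLinearGroup (Fin 2) F) : Matrix (Fin 2) (Fin 2) F) 0 0,
            ?_, ?_⟩
          · intro h
            have := congrFun h 0
            simp at this
          · funext i
            fin_cases i
            · simp [Matrix.mulVec, dotProduct, Fin.sum_univ_two]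
            · simpa [Matrix.mulVec, dotProduct, Fin.sum_univ_two] using h10
        obtain ⟨c, hc⟩ := scalar_of_commute2 z _ hz hcm hev
        have h12 := n2e_scalar h2 _ c hc
        rw [h12, Matrix.SpecialLinearGroup.coe_one, Matrix.one_apply_eq]
      · have h13 := ((mem_nz z _).1 hbK).resolve_left hcm
        have h14 : ((b : SpecialLinearGroup (Fin 2) F) : Matrix (Fin 2) (Fin 2) F) *
            ((b : SpecialLinearGroup (Fin 2) F) : Matrix (Fin 2) (Fin 2) F) = 1 := by
          rcases sq_of_anti z hz _ h13 hcm with h15 | h15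
          · exact h15
          · rw [h15]
            ext i k
            rw [Matrix.neg_apply]
            fin_cases i <;> fin_cases k <;> simp [hneg]
        have h16 := congrFun (congrFun h14 0) 0
        rw [UT.mul_diag hUT hUT, Matrix.one_apply_eq, ← pow_two] at h16
        exact n2e_one h2 _ h16
    rw [MonoidHom.comp_apply, h11, map_one]

end Lin43
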