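import Pool.Agent.Lib.MP_43150e_al.Lin.Nz

/-! # `n = 2`, `q ≡ 3` mod `4`: matrix facts for the certificate (paragraph 7a)

`-1` is not a square in `F`, `z² = -1`. Only `2 × 2` matrices. -/

set_option autoImplicit false

namespace Lin43

open Matrix

variable {F : Type*} [Field F]

/-! ### Auxiliary facts -/

/-- The determinant of two vectors. -/
def dv (v w : Fin 2 → F) : F := v 0 * w 1 - v 1 * w 0

theorem dv_mulVec (U : Matrix (Fin 2) (Fin 2) F) (v w : Fin 2 → F) :
    dv (U.mulVec v) (U.mulVec w) = U.det * dv v w := by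
  unfold dv
  rw [Matrix.det_fin_two, Matrix.mulVec_fin_two, Matrix.mulVec_fin_two]
  simp only [Matrix.cons_val_zero, Matrix.cons_val_one]
  ring

/-- Two matrices which agree on a basis are equal. -/
theorem eq_of_mulVec {v w : Fin 2 → F} (hD : dv v w ≠ 0) {M N : Matrix (Fin 2) (Fin 2) F}
    (h1 : M.mulVec v = N.mulVec v) (h2 : M.mulVec w = N.mulVec w) : M = N := by
  rw [Matrix.mulVec_fin_two, Matrix.mulVec_fin_two] at h1 h2
  have a1 := congrFun h1 0
  have a2 := congrFun h1 1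
  have b1 := congrFun h2 0
  have b2 := congrFun h2 1
  simp only [Matrix.cons_val_zero, Matrix.cons_val_one] at a1 a2 b1 b2
  unfold dv at hD
  ext i j
  fin_cases i <;> fin_cases j <;> apply mul_left_cancel₀ hD
  · change _ * M 0 0 = _ * N 0 0
    linear_combination w 1 * a1 - v 1 * b1
  · change _ * M 0 1 = _ * N 0 1
    linear_combination v 0 * b1 - w 0 * a1
  · change _ * M 1 0 = _ * N 1 0
    linear_combination w 1 * a2 - v 1 * b2
  · change _ * M 1 1 = _ * N 1 1
    linear_combination v 0 * b2 - w 0 * a2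

/-- A matrix with given values on a basis. -/
theorem exists_mat {v w : Fin 2 → F} (hD : dv v w ≠ 0) (v' w' : Fin 2 → F) :
    ∃ U : Matrix (Fin 2) (Fin 2) F, U.mulVec v = v' ∧ U.mulVec w = w' := by
  refine ⟨!![(w 1 * v' 0 - v 1 * w' 0) / dv v w, (v 0 * w' 0 - w 0 * v' 0) / dv v w;
    (w 1 * v' 1 - v 1 * w' 1) / dv v w, (v 0 * w' 1 - w 0 * v' 1) / dv v w], ?_, ?_⟩
  · rw [Matrix.mulVec_fin_two]
    funext i
    fin_cases i
    · simp only [Matrix.of_apply, Matrix.cons_val', Matrix.cons_val_zero, Matrix.cons_val_one,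
        Matrix.cons_val_fin_one, Fin.zero_eta]
      rw [div_mul_eq_mul_div, div_mul_eq_mul_div, ← add_div, div_eq_iff hD]
      unfold dv
      ring
    · simp only [Matrix.of_apply, Matrix.cons_val', Matrix.cons_val_zero, Matrix.cons_val_one,
        Matrix.cons_val_fin_one, Fin.mk_one]
      rw [div_mul_eq_mul_div, div_mul_eq_mul_div, ← add_div, div_eq_iff hD]
      unfold dv
      ring
  · rw [Matrix.mulVec_fin_two]
    funext i
    fin_cases i
    · simp only [Matrix.of_apply, Matrix.cons_val', Matrix.cons_val_zero, Matrix.cons_val_one,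
        Matrix.cons_val_fin_one, Fin.zero_eta]
      rw [div_mul_eq_mul_div, div_mul_eq_mul_div, ← add_div, div_eq_iff hD]
      unfold dv
      ring
    · simp only [Matrix.of_apply, Matrix.cons_val', Matrix.cons_val_zero, Matrix.cons_val_one,
        Matrix.cons_val_fin_one, Fin.mk_one]
      rw [div_mul_eq_mul_div, div_mul_eq_mul_div, ← add_div, div_eq_iff hD]
      unfold dv
      ring

theorem sq_mulVec {y : Matrix (Fin 2) (Fin 2) F} (hy : y * y = -1) (v : Fin 2 → F) :
    y.mulVec (y.mulVec v) = -v := by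
  rw [Matrix.mulVec_mulVec, hy, Matrix.neg_mulVec, Matrix.one_mulVec]

/-- A matrix with square `-1` has no eigenvector. -/
theorem not_hasEV_of_sq (hns : ¬ IsSquare (-1 : F)) (y : Matrix (Fin 2) (Fin 2) F)
    (hy : y * y = -1) : ¬ HasEV y := by
  rintro ⟨v, c, hv, h⟩
  have h1 := sq_mulVec hy v
  rw [h, Matrix.mulVec_smul, h, smul_smul] at h1
  apply hns
  refine ⟨c, ?_⟩
  obtain ⟨i, hi⟩ := Function.ne_iff.1 hv
  have h2 := congrFun h1 i
  simp only [Pi.smul_apply, Pi.neg_apply, smul_eq_mul] at h2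
  apply mul_right_cancel₀ hi
  rw [h2]
  ring

/-- `v, y v` is a basis. -/
theorem dv_ne (hns : ¬ IsSquare (-1 : F)) {y : Matrix (Fin 2) (Fin 2) F} (hy : y * y = -1)
    {v : Fin 2 → F} (hv : v ≠ 0) : dv v (y.mulVec v) ≠ 0 := by
  intro h0
  apply not_hasEV_of_sq hns y hy
  unfold dv at h0
  by_cases hv0 : v 0 = 0
  · have hv1 : v 1 ≠ 0 := by
      intro hv1
      apply hv
      funext i
      fin_cases i
      · exact hv0
      · exact hv1
    refine ⟨v, y.mulVec v 1 / v 1, hv, ?_⟩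
    funext i
    fin_cases i
    · change y.mulVec v 0 = _ * v 0
      rw [hv0, zero_mul, zero_sub, neg_eq_zero, mul_eq_zero, or_iff_right hv1] at h0
      rw [h0, hv0, mul_zero]
    · change y.mulVec v 1 = _ * v 1
      rw [div_mul_cancel₀ _ hv1]
  · refine ⟨v, y.mulVec v 0 / v 0, hv, ?_⟩
    funext i
    fin_cases i
    · change y.mulVec v 0 = _ * v 0
      rw [div_mul_cancel₀ _ hv0]
    · change y.mulVec v 1 = _ * v 1
      rw [div_mul_eq_mul_div, eq_div_iff hv0]
      linear_combination h0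

theorem two_ne (hns : ¬ IsSquare (-1 : F)) : (2 : F) ≠ 0 := by
  intro h
  apply hns
  refine ⟨1, ?_⟩
  linear_combination -h

/-- Entries of a matrix with square `-1`. -/
theorem entries_of_sq (hns : ¬ IsSquare (-1 : F)) {y : Matrix (Fin 2) (Fin 2) F}
    (hy : y * y = -1) : y 1 1 = -y 0 0 ∧ y 0 0 ^ 2 + y 0 1 * y 1 0 = -1 := by
  have h00 := congrFun (congrFun hy 0) 0
  have h01 := congrFun (congrFun hy 0) 1
  have h10 := congrFun (congrFun hy 1) 0
  simp only [Matrix.mul_apply, Fin.sum_univ_two, Matrix.neg_apply, Matrix.one_apply_eq] at h00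
  simp only [Matrix.mul_apply, Fin.sum_univ_two, Matrix.neg_apply,
    Matrix.one_apply_ne (show (0 : Fin 2) ≠ 1 by decide)] at h01
  refine ⟨?_, by linear_combination h00⟩
  by_contra hne
  have hne' : y 0 0 + y 1 1 ≠ 0 := fun h => hne (by linear_combination h)
  have hb : y 0 1 = 0 := by
    apply mul_left_cancel₀ hne'
    linear_combination h01
  apply hns
  refine ⟨y 0 0, ?_⟩
  rw [hb] at h00
  linear_combination -h00

theorem det_of_sq (hns : ¬ IsSquare (-1 : F)) {y : Matrix (Fin 2) (Fin 2) F}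
    (hy : y * y = -1) : y.det = 1 := by
  obtain ⟨h1, h2⟩ := entries_of_sq hns hy
  rw [Matrix.det_fin_two, h1]
  linear_combination -h2

/-- The reflection `R` with `R v = v`, `R (z v) = - z v`. -/
theorem exists_R (hns : ¬ IsSquare (-1 : F)) (z : Matrix (Fin 2) (Fin 2) F)
    (hz : z * z = -1) (v : Fin 2 → F) (hv : v ≠ 0) :
    ∃ R : Matrix (Fin 2) (Fin 2) F, R * R = 1 ∧ R * z = -(z * R) ∧ R.det = -1 ∧
      R.mulVec v = v := by
  have hD := dv_ne hns hz hv
  obtain ⟨R, h1, h2⟩ := exists_mat hD v (-(z.mulVec v))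
  refine ⟨R, ?_, ?_, ?_, h1⟩
  · apply eq_of_mulVec hD
    · rw [← Matrix.mulVec_mulVec, h1, h1, Matrix.one_mulVec]
    · rw [← Matrix.mulVec_mulVec, h2, Matrix.mulVec_neg, h2, Matrix.one_mulVec, neg_neg]
  · apply eq_of_mulVec hD
    · rw [← Matrix.mulVec_mulVec, h2, Matrix.neg_mulVec, ← Matrix.mulVec_mulVec, h1]
    · rw [← Matrix.mulVec_mulVec, sq_mulVec hz, Matrix.mulVec_neg, h1, Matrix.neg_mulVec,
        ← Matrix.mulVec_mulVec, h2, Matrix.mulVec_neg, neg_neg, sq_mulVec hz]
  · have h3 := dv_mulVec R v (z.mulVec v)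
    rw [h1, h2] at h3
    apply mul_right_cancel₀ hD
    rw [← h3]
    unfold dv
    simp only [Pi.neg_apply]
    ring

/-- If `y² = y'² = -1` and `det(v, y v) = det(v, y' v)` then `y' = u y u⁻¹` with `u v = v`, `det u = 1`:
`u v = v`, `u (y v) = y' v`. -/
theorem exists_u_conj (hns : ¬ IsSquare (-1 : F)) (y y' : Matrix (Fin 2) (Fin 2) F)
    (hy : y * y = -1) (hy' : y' * y' = -1) (v : Fin 2 → F) (hv : v ≠ 0)
    (h : v 0 * y.mulVec v 1 - v 1 * y.mulVec v 0 =
      v 0 * y'.mulVec v 1 - v 1 * y'.mulVec v 0) :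
    ∃ u : SpecialLinearGroup (Fin 2) F, (u : Matrix (Fin 2) (Fin 2) F).mulVec v = v ∧
      (u : Matrix (Fin 2) (Fin 2) F) * y = y' * u := by
  have hD := dv_ne hns hy hv
  obtain ⟨U, h1, h2⟩ := exists_mat hD v (y'.mulVec v)
  have hdet : U.det = 1 := by
    have h3 := dv_mulVec U v (y.mulVec v)
    rw [h1, h2] at h3
    apply mul_right_cancel₀ hD
    rw [← h3, one_mul]
    exact h.symm
  refine ⟨⟨U, hdet⟩, h1, ?_⟩
  change U * y = y' * U
  apply eq_of_mulVec hD
  · rw [← Matrix.mulVec_mulVec, h2, ← Matrix.mulVec_mulVec, h1]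
  · rw [← Matrix.mulVec_mulVec, sq_mulVec hy, Matrix.mulVec_neg, h1, ← Matrix.mulVec_mulVec, h2,
      sq_mulVec hy']

/-- The form `det(v, y v)` changes sign under `y ↦ R y R` if `R v = v`, `det R = -1`. -/
theorem form_R (R y : Matrix (Fin 2) (Fin 2) F) (hR : R * R = 1) (hd : R.det = -1)
    (v : Fin 2 → F) (hv : R.mulVec v = v) :
    v 0 * (-(R * y * R)).mulVec v 1 - v 1 * (-(R * y * R)).mulVec v 0 =
      v 0 * y.mulVec v 1 - v 1 * y.mulVec v 0 := by
  have h1 : (-(R * y * R)).mulVec v = -(R.mulVec (y.mulVec v)) := by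
    rw [Matrix.neg_mulVec, ← Matrix.mulVec_mulVec, hv, ← Matrix.mulVec_mulVec]
  have h2 := dv_mulVec R v (y.mulVec v)
  rw [hv, hd] at h2
  unfold dv at h2
  rw [h1]
  simp only [Pi.neg_apply]
  linear_combination -h2

/-- The two classes: `R y R = ± τ y τ⁻¹` is impossible for `y` anticommuting with `z`, `y² = -1`, and `τ`
commuting with `z`, `det τ = 1`: `ρ = R y` commutes with `z`, `det ρ = -1`, `R y R y⁻¹ = -ρ²`,
`τ y τ⁻¹ y⁻¹ = τ²`, so `(ρ τ⁻¹)² = ± 1` in the field `F[z]`, so `ρ τ⁻¹ ∈ {1, -1, z, -z}` has determinant `1`. -/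
theorem R_ne (hns : ¬ IsSquare (-1 : F)) (z : Matrix (Fin 2) (Fin 2) F) (hz : z * z = -1)
    (R : Matrix (Fin 2) (Fin 2) F) (hR : R * R = 1) (hRz : R * z = -(z * R))
    (hd : R.det = -1) (y : Matrix (Fin 2) (Fin 2) F) (hy : y * y = -1)
    (hyz : y * z = -(z * y)) (τ : SpecialLinearGroup (Fin 2) F)
    (hτ : Commute (τ : Matrix (Fin 2) (Fin 2) F) z) :
    (R * y * R) * τ ≠ τ * y ∧ (R * y * R) * τ ≠ -(τ * y : Matrix (Fin 2) (Fin 2) F) := by
  have h2 := two_ne hns
  have hev := not_hasEV_of_sq hns z hz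
  obtain ⟨hz1, hz2⟩ := entries_of_sq hns hz
  obtain ⟨a, b, hab⟩ := exists_ab z τ hev hτ
  have hρ : Commute (R * y) z := by
    change R * y * z = z * (R * y)
    rw [mul_assoc, hyz, mul_neg, ← mul_assoc, hRz, neg_mul, neg_neg, mul_assoc]
  obtain ⟨α, β, hαβ⟩ := exists_ab z (R * y) hev hρ
  -- determinants
  have hdet : ∀ p q : F, (p • (1 : Matrix (Fin 2) (Fin 2) F) + q • z).det = p ^ 2 + q ^ 2 := by
    intro p q
    rw [Matrix.det_fin_two]
    simp only [Matrix.add_apply, Matrix.smul_apply, Matrix.one_apply_eq, smul_eq_mul,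
      Matrix.one_apply_ne (show (0 : Fin 2) ≠ 1 by decide),
      Matrix.one_apply_ne (show (1 : Fin 2) ≠ 0 by decide)]
    rw [hz1]
    linear_combination -q ^ 2 * hz2
  have h3 : α ^ 2 + β ^ 2 = -1 := by
    rw [← hdet, ← hαβ, Matrix.det_mul, hd, det_of_sq hns hy, mul_one]
  have h4 : a ^ 2 + b ^ 2 = 1 := by
    rw [← hdet, ← hab]
    exact τ.2
  have htr : z.trace = 0 := by
    rw [Matrix.trace_fin_two, hz1]
    ring
  have hsq : ∀ p q : F, ((p • (1 : Matrix (Fin 2) (Fin 2) F) + q • z) *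
      (p • (1 : Matrix (Fin 2) (Fin 2) F) + q • z)).trace = 2 * (p ^ 2 - q ^ 2) := by
    intro p q
    have e : (p • (1 : Matrix (Fin 2) (Fin 2) F) + q • z) *
      (p • (1 : Matrix (Fin 2) (Fin 2) F) + q • z) =
        (p ^ 2 - q ^ 2) • (1 : Matrix (Fin 2) (Fin 2) F) + (2 * p * q) • z := by
      rw [add_mul, mul_add, mul_add, smul_mul_smul_comm, smul_mul_smul_comm, smul_mul_smul_comm,
        smul_mul_smul_comm, one_mul, one_mul, mul_one, hz]
      module
    rw [e, Matrix.trace_add, Matrix.trace_smul, Matrix.trace_smul, htr, Matrix.trace_one]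
    simp
    ring
  -- the key identity
  have hyt : (τ : Matrix (Fin 2) (Fin 2) F) * y = y * (a • (1 : Matrix (Fin 2) (Fin 2) F) - b • z) := by
    rw [hab, add_mul, mul_sub, smul_mul_assoc, smul_mul_assoc, mul_smul_comm, mul_smul_comm,
      one_mul, mul_one, hyz, smul_neg, sub_neg_eq_add]
  have hττ : (a • (1 : Matrix (Fin 2) (Fin 2) F) - b • z) * τ = 1 := by
    rw [hab, sub_mul, mul_add, mul_add, smul_mul_smul_comm, smul_mul_smul_comm, smul_mul_smul_comm,
      smul_mul_smul_comm, one_mul, one_mul, mul_one, hz]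
    trans (a ^ 2 + b ^ 2) • (1 : Matrix (Fin 2) (Fin 2) F)
    · module
    · rw [h4, one_smul]
  have key : ∀ ε : F, (R * y * R) * τ = ε • ((τ : Matrix (Fin 2) (Fin 2) F) * y) →
      (R * y) * (R * y) = -ε • ((τ : Matrix (Fin 2) (Fin 2) F) * τ) := by
    intro ε h
    have h5 : (R * y * R) * τ * y * τ = ε • ((τ : Matrix (Fin 2) (Fin 2) F) * y) * y * τ := by
      rw [h]
    have h6 : (R * y * R) * τ * y * τ = (R * y) * (R * y) := by
      calc (R * y * R) * τ * y * τ = R * y * R * ((τ : Matrix (Fin 2) (Fin 2) F) * y) * τ := by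
            simp only [mul_assoc]
        _ = R * y * (R * y) * ((a • (1 : Matrix (Fin 2) (Fin 2) F) - b • z) * τ) := by
            rw [hyt]
            simp only [mul_assoc]
        _ = (R * y) * (R * y) := by rw [hττ, mul_one]
    rw [← h6, h5]
    simp only [smul_mul_assoc]
    rw [mul_assoc (τ : Matrix (Fin 2) (Fin 2) F) y y, hy, mul_neg, mul_one, neg_mul, smul_neg,
      neg_smul]
  constructor
  · intro h
    have h5 := key 1 (by rw [one_smul]; exact h)
    have h6 := congrArg Matrix.trace h5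
    rw [Matrix.trace_smul, hαβ, hab, hsq, hsq, smul_eq_mul] at h6
    have h7 : α ^ 2 - β ^ 2 = -(a ^ 2 - b ^ 2) := by
      apply mul_left_cancel₀ h2
      linear_combination h6
    have h8 : α ^ 2 = -a ^ 2 := by
      apply mul_left_cancel₀ h2
      linear_combination h7 + h3 + h4
    by_cases ha : a = 0
    · apply hns
      refine ⟨β, ?_⟩
      rw [ha] at h8
      linear_combination h8 - h3
    · apply hns
      refine ⟨α / a, ?_⟩
      field_simp
      linear_combination -h8
  · intro h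
    have h5 := key (-1) (by rw [neg_smul, one_smul]; exact h)
    have h6 := congrArg Matrix.trace h5
    rw [Matrix.trace_smul, hαβ, hab, hsq, hsq, smul_eq_mul] at h6
    have h7 : α ^ 2 - β ^ 2 = a ^ 2 - b ^ 2 := by
      apply mul_left_cancel₀ h2
      linear_combination h6
    have h8 : α ^ 2 = -b ^ 2 := by
      apply mul_left_cancel₀ h2
      linear_combination h7 + h3 + h4
    by_cases hb : b = 0
    · apply hns
      refine ⟨β, ?_⟩
      rw [hb] at h8
      linear_combination h8 - h3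
    · apply hns
      refine ⟨α / b, ?_⟩
      field_simp
      linear_combination -h8

theorem exists_two_sq [Finite F] : ∃ a b : F, a ^ 2 + b ^ 2 = -1 := by
  obtain ⟨p, hp⟩ := CharP.exists F
  haveI : NeZero p := ⟨CharP.char_ne_zero_of_finite F p⟩
  obtain ⟨a, b, h⟩ := CharP.sq_add_sq F p (-1)
  refine ⟨a, b, ?_⟩
  rw [h]
  simp

theorem isSquare_or_neg [Finite F] (hns : ¬ IsSquare (-1 : F)) {x : F} (hx : x ≠ 0) :
    IsSquare x ∨ IsSquare (-x) := by
  classical
  haveI := Fintype.ofFinite F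
  by_contra h
  push Not at h
  obtain ⟨h1, h2⟩ := h
  have e1 := quadraticChar_neg_one_iff_not_isSquare.2 hns
  have e2 := quadraticChar_neg_one_iff_not_isSquare.2 h1
  have e3 := quadraticChar_neg_one_iff_not_isSquare.2 h2
  have e4 : quadraticChar F (-x) = quadraticChar F (-1) * quadraticChar F x := by
    rw [← map_mul, neg_one_mul]
  rw [e1, e2, e3] at e4
  norm_num at e4

/-- A conjugate of `z` anticommuting with `z`. In the basis `(v, z v)`: `y₀ = [[a, b], [b, -a]]`,
`a² + b² = -1`; `y₀` or `-y₀` is conjugate to `z` under `SL_2(F)` since `-1` is not a square; `-z` is allowed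
too. -/
theorem exists_s0 [Finite F] (hns : ¬ IsSquare (-1 : F)) (z : Matrix (Fin 2) (Fin 2) F)
    (hz : z * z = -1) :
    ∃ (s : SpecialLinearGroup (Fin 2) F) (y : Matrix (Fin 2) (Fin 2) F),
      (s : Matrix (Fin 2) (Fin 2) F) * z = y * s ∧ y * y = -1 ∧ y * z = -(z * y) := by
  obtain ⟨a, b, hab⟩ := exists_two_sq (F := F)
  let v : Fin 2 → F := ![1, 0]
  have hv : v ≠ 0 := by
    intro h
    have := congrFun h 0
    simp [v] at this
  have hD := dv_ne hns hz hv
  obtain ⟨y, h1, h2⟩ := exists_mat hD (a • v + b • z.mulVec v) (b • v - a • z.mulVec v)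
  have hyy : y * y = -1 := by
    apply eq_of_mulVec hD
    · rw [← Matrix.mulVec_mulVec, h1, Matrix.mulVec_add, Matrix.mulVec_smul, Matrix.mulVec_smul,
        h1, h2, Matrix.neg_mulVec, Matrix.one_mulVec]
      have e : -v = (a ^ 2 + b ^ 2) • v := by rw [hab, neg_smul, one_smul]
      rw [e]
      module
    · rw [← Matrix.mulVec_mulVec, h2, Matrix.mulVec_sub, Matrix.mulVec_smul, Matrix.mulVec_smul,
        h1, h2, Matrix.neg_mulVec, Matrix.one_mulVec]
      have e : -(z.mulVec v) = (a ^ 2 + b ^ 2) • (z.mulVec v) := by rw [hab, neg_smul, one_smul]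
      rw [e]
      module
  have hyz : y * z = -(z * y) := by
    apply eq_of_mulVec hD
    · rw [← Matrix.mulVec_mulVec, h2, Matrix.neg_mulVec, ← Matrix.mulVec_mulVec, h1,
        Matrix.mulVec_add, Matrix.mulVec_smul, Matrix.mulVec_smul, sq_mulVec hz]
      module
    · rw [← Matrix.mulVec_mulVec, sq_mulVec hz, Matrix.mulVec_neg, h1, Matrix.neg_mulVec,
        ← Matrix.mulVec_mulVec, h2, Matrix.mulVec_sub, Matrix.mulVec_smul, Matrix.mulVec_smul,
        sq_mulVec hz]
      module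
  have hD' := dv_ne hns hyy hv
  -- the sign
  have hs : ∃ (y' : Matrix (Fin 2) (Fin 2) F) (c : F), y' * y' = -1 ∧ y' * z = -(z * y') ∧
      c ^ 2 * dv v (y'.mulVec v) = dv v (z.mulVec v) := by
    rcases isSquare_or_neg hns (div_ne_zero hD hD') with ⟨c, hc⟩ | ⟨c, hc⟩
    · refine ⟨y, c, hyy, hyz, ?_⟩
      rw [div_eq_iff hD'] at hc
      rw [hc]
      ring
    · refine ⟨-y, c, ?_, ?_, ?_⟩
      · rw [neg_mul_neg, hyy]
      · rw [neg_mul, mul_neg, hyz]
      · have e : dv v ((-y).mulVec v) = -dv v (y.mulVec v) := by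
          rw [Matrix.neg_mulVec]
          unfold dv
          simp only [Pi.neg_apply]
          ring
        rw [← neg_div, div_eq_iff hD'] at hc
        rw [e]
        linear_combination hc
  obtain ⟨y', c, hy1, hy2, hc⟩ := hs
  obtain ⟨U, u1, u2⟩ := exists_mat hD (c • v) (c • y'.mulVec v)
  have hdet : U.det = 1 := by
    have h3 := dv_mulVec U v (z.mulVec v)
    rw [u1, u2] at h3
    apply mul_right_cancel₀ hD
    rw [← h3, one_mul, ← hc]
    unfold dv
    simp only [Pi.smul_apply, smul_eq_mul]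
    ring
  refine ⟨⟨U, hdet⟩, y', ?_, hy1, hy2⟩
  change U * z = y' * U
  apply eq_of_mulVec hD
  · rw [← Matrix.mulVec_mulVec, u2, ← Matrix.mulVec_mulVec, u1, Matrix.mulVec_smul]
  · rw [← Matrix.mulVec_mulVec, sq_mulVec hz, Matrix.mulVec_neg, u1, ← Matrix.mulVec_mulVec, u2,
      Matrix.mulVec_smul, sq_mulVec hy1, smul_neg]

end Lin43
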