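import Pool.Agent.Lib.MP_43150e_al.Cert
import Pool.Agent.Lib.MP_43150e_al.Lin.AutB
import Pool.Agent.Lib.MP_43150e_al.Lin.N2D

/-! # `n = 2`, `q` odd: not spreading (paragraph 7a)

`K = stabS j x = nz z`, `z² = -1`, `-1` not a square. `C = {τ ∈ SL_2 | τ z = z τ}`. `s₀, y₀` from `exists_s0`,
`ω₀ = j (toP s₀) • x`, `O₊ = {j (toP τ) • ω₀ | τ ∈ C}`. For a reflection `R` as in `exists_R` the map
`θ_R (j (toP s) • x) = j (toP (R s R)) • x` is a well defined involution of `Ω` (`R` normalises `nz z`). For two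
reflections `R, R'`, `R R' ∈ C`; so `O₋ = θ_R(O₊)` does not depend on `R` (i.e. on `v`). `O₊ ∩ O₋ = ∅` by `R_ne`.
Certificate (`Spr43.not_spreading_of_weight`): `A = {j (toP u) • ω₀ | u ∈ uniS}`, `W = 2` on `O₊`, `0` on `O₋`,
`1` elsewhere. A translate `g A` is `{j (toP (m u m⁻¹)) • ω₁ | u ∈ uniS}` (`autU` for the inverse of `β_g`), the
orbit of `ω₁` under `U_v = {s | s v = v}`, `v = m e_0`. With `R` for this `v`: `θ_R` maps `g A ∩ O₊` onto
`g A ∩ O₋`: for `ω = j (toP s) • x ∈ O₊`, `y = s z s⁻¹`, `-R y R = u y u⁻¹` with `u ∈ U_v` (`form_R`, `exists_u_conj`), and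
`θ_R ω = j (toP u) • ω`. The total sum of `W` is `|Ω|` since `|O₊| = |O₋|`. `A ≠ Ω` since `|A| ≤ q < |Ω|`
(`|Ω| = |SL_2|/|nz z|`, or: `U` is not transitive on the values of `det(v, y v)²`). -/

set_option autoImplicit false

namespace Lin43

open Matrix Spr43

section aux

variable {F : Type*} [Field F]

/-- conjugation of a matrix by an element of `SL_2(F)` -/
private def n2o_cn (s : SpecialLinearGroup (Fin 2) F) (y : Matrix (Fin 2) (Fin 2) F) :
    Matrix (Fin 2) (Fin 2) F :=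
  (s : Matrix (Fin 2) (Fin 2) F) * y *
    ((s⁻¹ : SpecialLinearGroup (Fin 2) F) : Matrix (Fin 2) (Fin 2) F)

private theorem n2o_mul_inv (s : SpecialLinearGroup (Fin 2) F) :
    (s : Matrix (Fin 2) (Fin 2) F) *
      ((s⁻¹ : SpecialLinearGroup (Fin 2) F) : Matrix (Fin 2) (Fin 2) F) = 1 := by
  rw [← Matrix.SpecialLinearGroup.coe_mul, mul_inv_cancel, Matrix.SpecialLinearGroup.coe_one]

private theorem n2o_inv_mul (s : SpecialLinearGroup (Fin 2) F) :
    ((s⁻¹ : SpecialLinearGroup (Fin 2) F) : Matrix (Fin 2) (Fin 2) F) *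
      (s : Matrix (Fin 2) (Fin 2) F) = 1 := by
  rw [← Matrix.SpecialLinearGroup.coe_mul, inv_mul_cancel, Matrix.SpecialLinearGroup.coe_one]

private theorem n2o_cn_eq (s : SpecialLinearGroup (Fin 2) F) (y w : Matrix (Fin 2) (Fin 2) F) :
    n2o_cn s y = w ↔ (s : Matrix (Fin 2) (Fin 2) F) * y = w * s := by
  constructor
  · intro h
    rw [← h, n2o_cn, mul_assoc, n2o_inv_mul, mul_one]
  · intro h
    rw [n2o_cn, h, mul_assoc, n2o_mul_inv, mul_one]

private theorem n2o_cn_mul (s t : SpecialLinearGroup (Fin 2) F)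
    (y : Matrix (Fin 2) (Fin 2) F) : n2o_cn (s * t) y = n2o_cn s (n2o_cn t y) := by
  rw [n2o_cn, n2o_cn, n2o_cn, _root_.mul_inv_rev, Matrix.SpecialLinearGroup.coe_mul,
    Matrix.SpecialLinearGroup.coe_mul]
  simp only [mul_assoc]

private theorem n2o_cn_one (y : Matrix (Fin 2) (Fin 2) F) : n2o_cn 1 y = y := by
  rw [n2o_cn_eq, Matrix.SpecialLinearGroup.coe_one, one_mul, mul_one]

private theorem n2o_cn_neg (s : SpecialLinearGroup (Fin 2) F) (y : Matrix (Fin 2) (Fin 2) F) :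
    n2o_cn s (-y) = -n2o_cn s y := by
  rw [n2o_cn, n2o_cn, mul_neg, neg_mul]

private theorem n2o_cn_mm (s : SpecialLinearGroup (Fin 2) F) (y w : Matrix (Fin 2) (Fin 2) F) :
    n2o_cn s y * n2o_cn s w = n2o_cn s (y * w) := by
  rw [n2o_cn, n2o_cn, n2o_cn]
  have h := n2o_inv_mul s
  calc _ = (s : Matrix (Fin 2) (Fin 2) F) * y *
      (((s⁻¹ : SpecialLinearGroup (Fin 2) F) : Matrix (Fin 2) (Fin 2) F) *
      (s : Matrix (Fin 2) (Fin 2) F)) * w *
      ((s⁻¹ : SpecialLinearGroup (Fin 2) F) : Matrix (Fin 2) (Fin 2) F) := by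
        simp only [mul_assoc]
    _ = _ := by rw [h, mul_one]; simp only [mul_assoc]

private theorem n2o_cn_sq (s : SpecialLinearGroup (Fin 2) F) (y : Matrix (Fin 2) (Fin 2) F)
    (hy : y * y = -1) : n2o_cn s y * n2o_cn s y = -1 := by
  rw [n2o_cn_mm, hy, n2o_cn_neg, n2o_cn_eq s 1 1 |>.2 (by rw [mul_one, one_mul])]

private theorem n2o_cn_inj (s : SpecialLinearGroup (Fin 2) F) (y w : Matrix (Fin 2) (Fin 2) F)
    (h : n2o_cn s y = n2o_cn s w) : y = w := by
  have h1 : n2o_cn (s⁻¹ * s) y = n2o_cn (s⁻¹ * s) w := by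
    rw [n2o_cn_mul, n2o_cn_mul, h]
  rwa [inv_mul_cancel, n2o_cn_one, n2o_cn_one] at h1

/-- equality up to sign -/
private def n2o_pm (y w : Matrix (Fin 2) (Fin 2) F) : Prop := y = w ∨ y = -w

private theorem n2o_pm_refl (y : Matrix (Fin 2) (Fin 2) F) : n2o_pm y y := Or.inl rfl

private theorem n2o_pm_symm {y w : Matrix (Fin 2) (Fin 2) F} (h : n2o_pm y w) : n2o_pm w y := by
  rcases h with h | h
  · exact Or.inl h.symm
  · exact Or.inr (by rw [h, neg_neg])

private theorem n2o_pm_trans {y w v : Matrix (Fin 2) (Fin 2) F} (h : n2o_pm y w)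
    (h' : n2o_pm w v) : n2o_pm y v := by
  rcases h with h | h <;> rcases h' with h' | h'
  · exact Or.inl (h.trans h')
  · exact Or.inr (h.trans h')
  · exact Or.inr (by rw [h, h'])
  · exact Or.inl (by rw [h, h', neg_neg])

private theorem n2o_pm_cn {y w : Matrix (Fin 2) (Fin 2) F} (s : SpecialLinearGroup (Fin 2) F)
    (h : n2o_pm y w) : n2o_pm (n2o_cn s y) (n2o_cn s w) := by
  rcases h with h | h
  · exact Or.inl (by rw [h])
  · exact Or.inr (by rw [h, n2o_cn_neg])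

private theorem n2o_pm_R {y w : Matrix (Fin 2) (Fin 2) F} (R : Matrix (Fin 2) (Fin 2) F)
    (h : n2o_pm y w) : n2o_pm (R * y * R) (R * w * R) := by
  rcases h with h | h
  · exact Or.inl (by rw [h])
  · exact Or.inr (by rw [h, mul_neg, neg_mul])

private theorem n2o_RR {R : Matrix (Fin 2) (Fin 2) F} (hR : R * R = 1)
    (y : Matrix (Fin 2) (Fin 2) F) : R * (R * y * R) * R = y := by
  calc _ = (R * R) * y * (R * R) := by simp only [mul_assoc]
    _ = y := by rw [hR, one_mul, mul_one]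

private theorem n2o_Rsq {R : Matrix (Fin 2) (Fin 2) F} (hR : R * R = 1)
    {y : Matrix (Fin 2) (Fin 2) F} (hy : y * y = -1) : (R * y * R) * (R * y * R) = -1 := by
  calc _ = R * y * (R * R) * y * R := by simp only [mul_assoc]
    _ = R * (y * y) * R := by rw [hR, mul_one]; simp only [mul_assoc]
    _ = -(R * R) := by rw [hy, mul_neg, mul_one, neg_mul]
    _ = -1 := by rw [hR]

/-- reflections of type `z` -/
private def n2o_ty (z R : Matrix (Fin 2) (Fin 2) F) : Prop :=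
  R * R = 1 ∧ R * z = -(z * R) ∧ R.det = -1

/-- the class of `y₀` -/
private def n2o_plus (z y₀ y : Matrix (Fin 2) (Fin 2) F) : Prop :=
  ∃ τ : SpecialLinearGroup (Fin 2) F, Commute (τ : Matrix (Fin 2) (Fin 2) F) z ∧
    n2o_pm y (n2o_cn τ y₀)

private def n2o_minus (z y₀ y : Matrix (Fin 2) (Fin 2) F) : Prop :=
  ∃ R, n2o_ty z R ∧ n2o_plus z y₀ (R * y * R)

private theorem n2o_plus_pm {z y₀ y w : Matrix (Fin 2) (Fin 2) F} (h : n2o_pm y w) :
    n2o_plus z y₀ y ↔ n2o_plus z y₀ w := by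
  constructor
  · rintro ⟨τ, h1, h2⟩
    exact ⟨τ, h1, n2o_pm_trans (n2o_pm_symm h) h2⟩
  · rintro ⟨τ, h1, h2⟩
    exact ⟨τ, h1, n2o_pm_trans h h2⟩

private theorem n2o_minus_pm {z y₀ y w : Matrix (Fin 2) (Fin 2) F} (h : n2o_pm y w) :
    n2o_minus z y₀ y ↔ n2o_minus z y₀ w := by
  constructor
  · rintro ⟨R, h1, h2⟩
    exact ⟨R, h1, (n2o_plus_pm (n2o_pm_R R h)).1 h2⟩
  · rintro ⟨R, h1, h2⟩
    exact ⟨R, h1, (n2o_plus_pm (n2o_pm_R R h)).2 h2⟩

private theorem n2o_plus_RR {z y₀ y R R' : Matrix (Fin 2) (Fin 2) F} (hR : n2o_ty z R)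
    (hR' : n2o_ty z R') (h : n2o_plus z y₀ (R' * y * R')) : n2o_plus z y₀ (R * y * R) := by
  obtain ⟨τ, h1, h2⟩ := h
  set κ : SpecialLinearGroup (Fin 2) F := ⟨R * R', by
    rw [Matrix.det_mul, hR.2.2, hR'.2.2]; ring⟩ with hκ
  have hκ' : (κ : Matrix (Fin 2) (Fin 2) F) = R * R' := rfl
  have h3 : n2o_cn κ (R' * y * R') = R * y * R := by
    rw [n2o_cn_eq, hκ']
    calc R * R' * (R' * y * R') = R * ((R' * R') * y * R') := by simp only [mul_assoc]
      _ = R * y * 1 * R' := by rw [hR'.1, one_mul, mul_one]; simp only [mul_assoc]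
      _ = R * y * (R * R) * R' := by rw [hR.1]
      _ = _ := by simp only [mul_assoc]
  refine ⟨κ * τ, ?_, ?_⟩
  · rw [Matrix.SpecialLinearGroup.coe_mul, hκ']
    have h4 : Commute (R * R') z := by
      have : R * R' * z = z * (R * R') := by
        rw [mul_assoc, hR'.2.1, mul_neg, ← mul_assoc, hR.2.1, neg_mul, neg_neg, mul_assoc]
      exact this
    exact h4.mul_left h1
  · rw [n2o_cn_mul, ← h3]
    exact n2o_pm_cn κ h2

private theorem n2o_plus_iff {z y₀ y R : Matrix (Fin 2) (Fin 2) F} (hR : n2o_ty z R) :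
    n2o_plus z y₀ (R * y * R) ↔ n2o_minus z y₀ y :=
  ⟨fun h => ⟨R, hR, h⟩, fun ⟨_, hR', h⟩ => n2o_plus_RR hR hR' h⟩

private theorem n2o_minus_iff {z y₀ y R : Matrix (Fin 2) (Fin 2) F} (hR : n2o_ty z R) :
    n2o_minus z y₀ (R * y * R) ↔ n2o_plus z y₀ y := by
  rw [← n2o_plus_iff hR, n2o_RR hR.1]

private theorem n2o_disj (hns : ¬ IsSquare (-1 : F)) {z y₀ y R : Matrix (Fin 2) (Fin 2) F}
    (hz : z * z = -1) (hR : n2o_ty z R) (hy₀ : y₀ * y₀ = -1) (hyz : y₀ * z = -(z * y₀))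
    (h1 : n2o_plus z y₀ y) (h2 : n2o_minus z y₀ y) : False := by
  obtain ⟨τ, hτ, h3⟩ := h1
  obtain ⟨τ', hτ', h4⟩ := (n2o_plus_iff hR).2 h2
  set w : Matrix (Fin 2) (Fin 2) F := n2o_cn τ y₀ with hw
  have hwz : w * z = -(z * w) := by
    have h5 : n2o_cn τ z = z := by
      rw [n2o_cn_eq]
      exact hτ.eq
    calc w * z = w * n2o_cn τ z := by rw [h5]
      _ = n2o_cn τ (y₀ * z) := by rw [hw, n2o_cn_mm]
      _ = -(n2o_cn τ z * w) := by rw [hyz, n2o_cn_neg, hw, n2o_cn_mm]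
      _ = _ := by rw [h5]
  have hww : w * w = -1 := n2o_cn_sq τ y₀ hy₀
  have h6 : n2o_pm (R * w * R) (n2o_cn (τ' * τ⁻¹) w) := by
    have h7 : n2o_cn (τ' * τ⁻¹) w = n2o_cn τ' y₀ := by
      rw [hw, ← n2o_cn_mul, inv_mul_cancel_right]
    rw [h7]
    exact n2o_pm_trans (n2o_pm_R R (n2o_pm_symm h3)) h4
  have hc : Commute ((τ' * τ⁻¹ : SpecialLinearGroup (Fin 2) F) : Matrix (Fin 2) (Fin 2) F) z := by
    rw [Matrix.SpecialLinearGroup.coe_mul]
    refine hτ'.mul_left ?_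
    have h8 : n2o_cn τ⁻¹ z = z := by
      have h9 : n2o_cn τ z = z := by
        rw [n2o_cn_eq]
        exact hτ.eq
      have h10 : n2o_cn (τ⁻¹ * τ) z = n2o_cn τ⁻¹ z := by
        rw [n2o_cn_mul, h9]
      rw [← h10, inv_mul_cancel, n2o_cn_one]
    rw [n2o_cn_eq] at h8
    exact h8
  obtain ⟨h11, h12⟩ := R_ne hns z hz R hR.1 hR.2.1 hR.2.2 w hww hwz (τ' * τ⁻¹) hc
  rcases h6 with h6 | h6
  · apply h11
    exact ((n2o_cn_eq _ _ _).1 h6.symm).symm
  · apply h12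
    have h13 : n2o_cn (τ' * τ⁻¹) w = -(R * w * R) := by rw [h6, neg_neg]
    have h14 := (n2o_cn_eq _ _ _).1 h13
    rw [h14, neg_mul, neg_neg]

private theorem n2o_sum {Ω : Type*} [DecidableEq Ω] (B : Finset Ω) (θ : Ω → Ω)
    (hθ : ∀ ω, θ (θ ω) = ω) (hB : ∀ ω ∈ B, θ ω ∈ B) (W : Ω → ℕ)
    (hW : ∀ ω, W ω + W (θ ω) = 2) : ∑ y ∈ B, W y = B.card := by
  have h1 : ∑ y ∈ B, W (θ y) = ∑ y ∈ B, W y :=
    Finset.sum_nbij' θ θ hB hB (fun a _ => hθ a) (fun a _ => hθ a) (fun _ _ => rfl)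
  have h2 : ∑ y ∈ B, (W y + W (θ y)) = 2 * B.card := by
    rw [Finset.sum_congr rfl (fun y _ => hW y), Finset.sum_const, smul_eq_mul, mul_comm]
  rw [Finset.sum_add_distrib, h1] at h2
  omega

private theorem n2o_trace (hns : ¬ IsSquare (-1 : F)) (z : Matrix (Fin 2) (Fin 2) F)
    (hz : z * z = -1) : z.trace = 0 := by
  have h00 := congrFun (congrFun hz 0) 0
  have h01 := congrFun (congrFun hz 0) 1
  have h10 := congrFun (congrFun hz 1) 0
  simp only [Matrix.mul_apply, Fin.sum_univ_two, Matrix.neg_apply, Matrix.one_apply_eq,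
    Matrix.one_apply_ne (zero_ne_one : (0 : Fin 2) ≠ 1),
    Matrix.one_apply_ne (one_ne_zero : (1 : Fin 2) ≠ 0), neg_zero] at h00 h01 h10
  rw [Matrix.trace_fin_two]
  by_contra hne
  have hb : z 0 1 = 0 := by
    have : z 0 1 * (z 0 0 + z 1 1) = 0 := by linear_combination h01
    exact (mul_eq_zero.1 this).resolve_right hne
  apply hns
  refine ⟨z 0 0, ?_⟩
  rw [← h00, hb]
  ring

private theorem n2o_uni (m u : SpecialLinearGroup (Fin 2) F)
    (hu : (u : Matrix (Fin 2) (Fin 2) F).mulVec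
      ((m : Matrix (Fin 2) (Fin 2) F).mulVec (Pi.single 0 1)) =
      (m : Matrix (Fin 2) (Fin 2) F).mulVec (Pi.single 0 1)) :
    UU ((m⁻¹ * u * m : SpecialLinearGroup (Fin 2) F) : Matrix (Fin 2) (Fin 2) F) := by
  set w : SpecialLinearGroup (Fin 2) F := m⁻¹ * u * m with hw
  have h1 : (w : Matrix (Fin 2) (Fin 2) F).mulVec (Pi.single 0 1) = Pi.single 0 1 := by
    rw [hw, Matrix.SpecialLinearGroup.coe_mul, Matrix.SpecialLinearGroup.coe_mul,
      ← Matrix.mulVec_mulVec, ← Matrix.mulVec_mulVec, hu, Matrix.mulVec_mulVec, n2o_inv_mul,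
      Matrix.one_mulVec]
  rw [Matrix.mulVec_single_one] at h1
  have h00 : (w : Matrix (Fin 2) (Fin 2) F) 0 0 = 1 := by
    have := congrFun h1 0
    simpa using this
  have h10 : (w : Matrix (Fin 2) (Fin 2) F) 1 0 = 0 := by
    have := congrFun h1 1
    simpa using this
  have hd : (w : Matrix (Fin 2) (Fin 2) F).det = 1 := w.2
  rw [Matrix.det_fin_two, h00, h10, one_mul, mul_zero, sub_zero] at hd
  refine ⟨?_, ?_⟩
  · intro i k hik
    fin_cases i <;> fin_cases k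
    · exact absurd hik (lt_irrefl _)
    · exact absurd hik (by decide)
    · exact h10
    · exact absurd hik (lt_irrefl _)
  · intro i
    fin_cases i
    · exact h00
    · exact hd

end aux

theorem n2_odd_not_spreading {F Γ Ω : Type*} [Field F] [Fintype F] [Group Γ] [MulAction Γ Ω]
    [Fintype Ω] [DecidableEq Ω] (hq : 59 < Fintype.card F)
    (j : ProjectiveSpecialLinearGroup (Fin 2) F →* Γ)
    (hj : ∀ g : Γ, ∃ β : ProjectiveSpecialLinearGroup (Fin 2) F ≃*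
      ProjectiveSpecialLinearGroup (Fin 2) F, ∀ t, j (β t) = g * j t * g⁻¹)
    (htr : ∀ x y : Ω, ∃ t, j t • x = y) (x : Ω) (hns : ¬ IsSquare (-1 : F))
    (z : Matrix (Fin 2) (Fin 2) F) (hz : z * z = -1) (hK : stabS j x = nz z) :
    ¬ IsSpreading Γ Ω := by
  classical
  have hev : ¬ HasEV z := not_hasEV_of_sq hns z hz
  have htr0 : z.trace = 0 := n2o_trace hns z hz
  have hnz : ∀ k : SpecialLinearGroup (Fin 2) F, k ∈ nz z ↔ n2o_pm (n2o_cn k z) z := by
    intro k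
    rw [mem_nz, htr0, map_zero, zero_sub, n2o_pm, n2o_cn_eq, n2o_cn_eq]
  -- the point map
  have h1 : ∀ ω : Ω, ∃ s : SpecialLinearGroup (Fin 2) F, j (toP 2 F s) • x = ω := by
    intro ω
    obtain ⟨t, ht⟩ := htr x ω
    obtain ⟨s, hs⟩ := QuotientGroup.mk'_surjective
      (Subgroup.center (SpecialLinearGroup (Fin 2) F)) t
    exact ⟨s, by rw [← ht, ← hs]⟩
  choose σ hσ using h1
  set Y : Ω → Matrix (Fin 2) (Fin 2) F := fun ω => n2o_cn (σ ω) z with hYdef
  have hYsq : ∀ ω, Y ω * Y ω = -1 := fun ω => n2o_cn_sq _ _ hz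
  have hstab : ∀ s t : SpecialLinearGroup (Fin 2) F,
      j (toP 2 F s) • x = j (toP 2 F t) • x ↔ n2o_pm (n2o_cn s z) (n2o_cn t z) := by
    intro s t
    have h2 : j (toP 2 F s) • x = j (toP 2 F t) • x ↔ t⁻¹ * s ∈ stabS j x := by
      rw [mem_stabS, map_mul, map_inv, map_mul, map_inv, mul_smul, inv_smul_eq_iff]
    rw [h2, hK, hnz]
    constructor
    · intro h3
      have h4 := n2o_pm_cn t h3
      rwa [← n2o_cn_mul, mul_inv_cancel_left] at h4
    · intro h3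
      have h4 := n2o_pm_cn t⁻¹ h3
      rwa [← n2o_cn_mul, ← n2o_cn_mul, inv_mul_cancel, n2o_cn_one] at h4
  have hYe : ∀ (s : SpecialLinearGroup (Fin 2) F), n2o_pm (Y (j (toP 2 F s) • x)) (n2o_cn s z) := by
    intro s
    exact (hstab _ _).1 (hσ _)
  have hYb : ∀ ω ω' : Ω, n2o_pm (Y ω) (Y ω') → ω = ω' := by
    intro ω ω' h
    have h3 := (hstab (σ ω) (σ ω')).2 h
    rwa [hσ, hσ] at h3
  have hYc : ∀ (s : SpecialLinearGroup (Fin 2) F) (ω : Ω),
      n2o_pm (Y (j (toP 2 F s) • ω)) (n2o_cn s (Y ω)) := by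
    intro s ω
    have h3 : j (toP 2 F s) • ω = j (toP 2 F (s * σ ω)) • x := by
      rw [map_mul, map_mul, mul_smul, hσ]
    rw [h3]
    have h4 := hYe (s * σ ω)
    rwa [n2o_cn_mul] at h4
  have hYd : ∀ R : Matrix (Fin 2) (Fin 2) F, n2o_ty z R → ∀ ω : Ω, ∃ ω' : Ω,
      n2o_pm (Y ω') (R * Y ω * R) := by
    intro R hR ω
    set s : SpecialLinearGroup (Fin 2) F := ⟨R * (σ ω : Matrix (Fin 2) (Fin 2) F) * R, by
      rw [Matrix.det_mul, Matrix.det_mul, hR.2.2, (σ ω).2]; ring⟩ with hs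
    have hs' : (s : Matrix (Fin 2) (Fin 2) F) = R * (σ ω : Matrix (Fin 2) (Fin 2) F) * R := rfl
    refine ⟨j (toP 2 F s) • x, n2o_pm_trans (hYe s) ?_⟩
    right
    rw [n2o_cn_eq, hs', neg_mul]
    have h3 : (σ ω : Matrix (Fin 2) (Fin 2) F) * z = Y ω * (σ ω : Matrix (Fin 2) (Fin 2) F) :=
      (n2o_cn_eq _ _ _).1 rfl
    calc R * (σ ω : Matrix (Fin 2) (Fin 2) F) * R * z
        = R * (σ ω : Matrix (Fin 2) (Fin 2) F) * (R * z) := by rw [mul_assoc]
      _ = -(R * ((σ ω : Matrix (Fin 2) (Fin 2) F) * z) * R) := by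
          rw [hR.2.1, mul_neg]; simp only [mul_assoc]
      _ = -(R * Y ω * 1 * (σ ω : Matrix (Fin 2) (Fin 2) F) * R) := by
          rw [h3, mul_one]; simp only [mul_assoc]
      _ = -(R * Y ω * (R * R) * (σ ω : Matrix (Fin 2) (Fin 2) F) * R) := by rw [hR.1]
      _ = _ := by simp only [mul_assoc]
  -- the base point
  obtain ⟨s₀, y₀, hs₀, hy₀, hyz₀⟩ := exists_s0 hns z hz
  set ω₀ : Ω := j (toP 2 F s₀) • x with hω₀
  have hY₀ : n2o_pm (Y ω₀) y₀ := by
    have h3 := hYe s₀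
    rwa [(n2o_cn_eq s₀ z y₀).2 hs₀] at h3
  -- the weight
  set W : Ω → ℕ := fun ω => if n2o_plus z y₀ (Y ω) then 2 else
    if n2o_minus z y₀ (Y ω) then 0 else 1 with hW
  -- the involutions
  have hθ : ∀ R : Matrix (Fin 2) (Fin 2) F, n2o_ty z R → ∃ θ : Ω → Ω,
      (∀ ω, n2o_pm (Y (θ ω)) (R * Y ω * R)) ∧ (∀ ω, θ (θ ω) = ω) ∧
      ∀ ω, W ω + W (θ ω) = 2 := by
    intro R hR
    choose θ hθ using hYd R hR
    refine ⟨θ, hθ, ?_, ?_⟩
    · intro ω
      apply hYb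
      have h3 := n2o_pm_trans (hθ (θ ω)) (n2o_pm_R R (hθ ω))
      rwa [n2o_RR hR.1] at h3
    · intro ω
      have h4 : n2o_plus z y₀ (Y (θ ω)) ↔ n2o_minus z y₀ (Y ω) := by
        rw [n2o_plus_pm (hθ ω), n2o_plus_iff hR]
      have h5 : n2o_minus z y₀ (Y (θ ω)) ↔ n2o_plus z y₀ (Y ω) := by
        rw [n2o_minus_pm (hθ ω), n2o_minus_iff hR]
      have h6 : ¬ (n2o_plus z y₀ (Y ω) ∧ n2o_minus z y₀ (Y ω)) :=
        fun h => n2o_disj hns hz hR hy₀ hyz₀ h.1 h.2
      simp only [hW, h4, h5]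
      by_cases ha : n2o_plus z y₀ (Y ω)
      · have hb : ¬ n2o_minus z y₀ (Y ω) := fun hb => h6 ⟨ha, hb⟩
        simp [ha, hb]
      · by_cases hb : n2o_minus z y₀ (Y ω)
        · simp [ha, hb]
        · simp [ha, hb]
  set A : Finset Ω := Finset.univ.filter (fun ω => ∃ u : SpecialLinearGroup (Fin 2) F,
    UU (u : Matrix (Fin 2) (Fin 2) F) ∧ ω = j (toP 2 F u) • ω₀) with hA
  have hω₀A : ω₀ ∈ A := by
    rw [hA, Finset.mem_filter]
    refine ⟨Finset.mem_univ _, 1, ?_, by rw [map_one, map_one, one_smul]⟩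
    exact (uniS 2 F).one_mem
  refine not_spreading_of_weight A ⟨ω₀, hω₀A⟩ ?_ W ?_ ⟨ω₀, ?_⟩ ?_
  · -- `A` is proper
    intro hAu
    obtain ⟨a, ha⟩ : ∃ a : F, a ∉ ({0, 1, -1} : Finset F) := by
      by_contra hcon
      push Not at hcon
      have h3 : Fintype.card F ≤ ({0, 1, -1} : Finset F).card :=
        Finset.card_le_card (fun a _ => hcon a)
      have h4 : ({0, 1, -1} : Finset F).card ≤ 3 := Finset.card_le_three
      omega
    simp only [Finset.mem_insert, Finset.mem_singleton, not_or] at ha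
    obtain ⟨ha0, ha1, ha2⟩ := ha
    set t : SpecialLinearGroup (Fin 2) F := ⟨!![a, 0; 0, a⁻¹], by
      rw [Matrix.det_fin_two_of, mul_inv_cancel₀ ha0]; ring⟩ with ht
    have h3 : j (toP 2 F t) • ω₀ ∈ A := by rw [hAu]; exact Finset.mem_univ _
    rw [hA, Finset.mem_filter] at h3
    obtain ⟨-, u, hu, h3⟩ := h3
    set b : SpecialLinearGroup (Fin 2) F := u⁻¹ * t with hb
    have h4 : j (toP 2 F b) • ω₀ = ω₀ := by
      rw [hb, map_mul, map_mul, mul_smul, h3, ← mul_smul, ← map_mul, ← map_mul,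
        inv_mul_cancel, map_one, map_one, one_smul]
    have h5 : n2o_pm y₀ (n2o_cn b y₀) := by
      have h6 := hYc b ω₀
      rw [h4] at h6
      exact n2o_pm_trans (n2o_pm_symm hY₀) (n2o_pm_trans h6 (n2o_pm_cn b hY₀))
    have hu' : UU ((u⁻¹ : SpecialLinearGroup (Fin 2) F) : Matrix (Fin 2) (Fin 2) F) :=
      (uniS 2 F).inv_mem hu
    have hbm : (b : Matrix (Fin 2) (Fin 2) F) =
        ((u⁻¹ : SpecialLinearGroup (Fin 2) F) : Matrix (Fin 2) (Fin 2) F) *
          !![a, 0; 0, a⁻¹] := by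
      rw [hb, Matrix.SpecialLinearGroup.coe_mul]
    set v : Matrix (Fin 2) (Fin 2) F :=
      ((u⁻¹ : SpecialLinearGroup (Fin 2) F) : Matrix (Fin 2) (Fin 2) F) with hv
    have hv10 : v 1 0 = 0 := hu'.1 1 0 (by decide)
    have hv00 : v 0 0 = 1 := hu'.2 0
    have hv11 : v 1 1 = 1 := hu'.2 1
    have hb10 : (b : Matrix (Fin 2) (Fin 2) F) 1 0 = 0 := by
      rw [hbm, Matrix.mul_apply, Fin.sum_univ_two, hv10, hv11]
      simp
    have hb00 : (b : Matrix (Fin 2) (Fin 2) F) 0 0 = a := by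
      rw [hbm, Matrix.mul_apply, Fin.sum_univ_two, hv00]
      simp
    have hb11 : (b : Matrix (Fin 2) (Fin 2) F) 1 1 = a⁻¹ := by
      rw [hbm, Matrix.mul_apply, Fin.sum_univ_two, hv10, hv11]
      simp
    have hy10 : y₀ 1 0 ≠ 0 := by
      intro h0
      apply not_hasEV_of_sq hns y₀ hy₀
      refine ⟨Pi.single 0 1, y₀ 0 0, ?_, ?_⟩
      · intro h
        have := congrFun h 0
        simp at this
      · rw [Matrix.mulVec_single_one]
        ext i
        fin_cases i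
        · simp
        · simp [h0]
    have hsq : a * a = 1 ∨ a * a = -1 := by
      rcases h5 with h5 | h5
      · have h6 := congrFun (congrFun ((n2o_cn_eq b y₀ y₀).1 h5.symm) 1) 0
        rw [Matrix.mul_apply, Matrix.mul_apply, Fin.sum_univ_two, Fin.sum_univ_two, hb10, hb00,
          hb11, zero_mul, zero_add, mul_zero, add_zero] at h6
        left
        have h7 : y₀ 1 0 * (a * a - 1) = 0 := by
          have h8 : a * (a⁻¹ * y₀ 1 0) = a * (y₀ 1 0 * a) := by rw [h6]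
          rw [mul_inv_cancel_left₀ ha0] at h8
          linear_combination -h8
        exact sub_eq_zero.1 ((mul_eq_zero.1 h7).resolve_left hy10)
      · have h9 : n2o_cn b y₀ = -y₀ := (neg_eq_iff_eq_neg.2 h5).symm
        have h6 := congrFun (congrFun ((n2o_cn_eq b y₀ (-y₀)).1 h9) 1) 0
        rw [Matrix.mul_apply, Matrix.mul_apply, Fin.sum_univ_two, Fin.sum_univ_two, hb10, hb00,
          hb11, zero_mul, zero_add, mul_zero, add_zero, Matrix.neg_apply] at h6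
        right
        have h7 : y₀ 1 0 * (a * a + 1) = 0 := by
          have h8 : a * (a⁻¹ * y₀ 1 0) = a * (-y₀ 1 0 * a) := by rw [h6]
          rw [mul_inv_cancel_left₀ ha0] at h8
          linear_combination h8
        exact eq_neg_of_add_eq_zero_left ((mul_eq_zero.1 h7).resolve_left hy10)
    rcases hsq with h | h
    · rcases mul_self_eq_one_iff.1 h with h | h
      · exact ha1 h
      · exact ha2 h
    · exact hns ⟨a, h.symm⟩
  · -- the total sum
    obtain ⟨R, hR1, hR2, hR3, -⟩ := exists_R hns z hz (Pi.single 0 1) (by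
      intro h
      have := congrFun h 0
      simp at this)
    obtain ⟨θ, -, h4, h5⟩ := hθ R ⟨hR1, hR2, hR3⟩
    rw [n2o_sum Finset.univ θ h4 (fun _ _ => Finset.mem_univ _) W h5, Finset.card_univ]
  · -- the weight is not constant
    have h3 : n2o_plus z y₀ (Y ω₀) := by
      refine ⟨1, ?_, ?_⟩
      · rw [Matrix.SpecialLinearGroup.coe_one]
        exact Commute.one_left _
      · rw [n2o_cn_one]
        exact hY₀
    simp [hW, h3]
  · -- the translates
    intro g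
    obtain ⟨β, hβ⟩ := hj g
    obtain ⟨m, hm⟩ := autU β.symm
    set v : Fin 2 → F := (m : Matrix (Fin 2) (Fin 2) F).mulVec (Pi.single 0 1) with hv
    have hv0 : v ≠ 0 := by
      intro h0
      have h3 : ((m⁻¹ : SpecialLinearGroup (Fin 2) F) : Matrix (Fin 2) (Fin 2) F).mulVec v =
          Pi.single 0 1 := by
        rw [hv, Matrix.mulVec_mulVec, n2o_inv_mul, Matrix.one_mulVec]
      rw [h0, Matrix.mulVec_zero] at h3
      have := congrFun h3 0
      simp at this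
    obtain ⟨R, hR1, hR2, hR3, hR4⟩ := exists_R hns z hz v hv0
    have hR : n2o_ty z R := ⟨hR1, hR2, hR3⟩
    obtain ⟨θ, h3, h4, h5⟩ := hθ R hR
    refine le_trans (le_of_eq (n2o_sum _ θ h4 ?_ W h5)) Finset.card_image_le
    intro ω hω
    rw [Finset.mem_image] at hω ⊢
    obtain ⟨ω₁, hω₁, rfl⟩ := hω
    rw [hA, Finset.mem_filter] at hω₁
    obtain ⟨-, u₁, hu₁, rfl⟩ := hω₁
    set ω : Ω := g • j (toP 2 F u₁) • ω₀ with hω
    -- `θ ω` is in the orbit of `ω`
    have h6 : (-(R * Y ω * R)) * (-(R * Y ω * R)) = -1 := by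
      rw [neg_mul_neg]
      exact n2o_Rsq hR1 (hYsq ω)
    obtain ⟨u, huv, huy⟩ := exists_u_conj hns (Y ω) (-(R * Y ω * R)) (hYsq ω) h6 v hv0
      (form_R R (Y ω) hR1 hR3 v hR4).symm
    have h7 : θ ω = j (toP 2 F u) • ω := by
      apply hYb
      refine n2o_pm_trans (h3 ω) ?_
      refine n2o_pm_symm (n2o_pm_trans (hYc u ω) ?_)
      rw [(n2o_cn_eq u (Y ω) _).2 huy]
      exact Or.inr rfl
    have h8 : β.symm (toP 2 F u) ∈ (uniS 2 F).map (toP 2 F) := by
      rw [hm]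
      refine ⟨m⁻¹ * u * m, n2o_uni m u huv, ?_⟩
      congr 1
      group
    obtain ⟨u₂, hu₂, h9⟩ := h8
    have h10 : j (toP 2 F u) = g * j (toP 2 F u₂) * g⁻¹ := by
      rw [← hβ, h9, MulEquiv.apply_symm_apply]
    refine ⟨j (toP 2 F (u₂ * u₁)) • ω₀, ?_, ?_⟩
    · rw [hA, Finset.mem_filter]
      exact ⟨Finset.mem_univ _, u₂ * u₁, (uniS 2 F).mul_mem hu₂ hu₁, rfl⟩
    · rw [h7, h10, hω]
      simp only [← mul_smul]
      congr 1
      rw [map_mul, map_mul]
      group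

end Lin43
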