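import Pool.Agent.Lib.MP_43150e_al.Lin.Blk

/-! # Stabilisers of subspaces in `SL_n(F)`, transitivity of `SL_n(F)` -/

set_option autoImplicit false

namespace Lin43

open Matrix Module

variable {n : ℕ} {F : Type*} [Field F]

theorem stw_inv_mulVec (s : SpecialLinearGroup (Fin n) F) (v : Fin n → F) :
    ((s⁻¹ : SpecialLinearGroup (Fin n) F) : Matrix (Fin n) (Fin n) F).mulVec
      ((s : Matrix (Fin n) (Fin n) F).mulVec v) = v := by
  rw [Matrix.mulVec_mulVec, ← Matrix.SpecialLinearGroup.coe_mul, inv_mul_cancel,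
    Matrix.SpecialLinearGroup.coe_one, Matrix.one_mulVec]

theorem stw_mulVec_inv (s : SpecialLinearGroup (Fin n) F) (v : Fin n → F) :
    (s : Matrix (Fin n) (Fin n) F).mulVec
      (((s⁻¹ : SpecialLinearGroup (Fin n) F) : Matrix (Fin n) (Fin n) F).mulVec v) = v := by
  rw [Matrix.mulVec_mulVec, ← Matrix.SpecialLinearGroup.coe_mul, mul_inv_cancel,
    Matrix.SpecialLinearGroup.coe_one, Matrix.one_mulVec]

theorem stw_inj (s : SpecialLinearGroup (Fin n) F) :
    Function.Injective (Matrix.mulVecLin (s : Matrix (Fin n) (Fin n) F)) := by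
  intro v w h
  have h' : (s : Matrix (Fin n) (Fin n) F).mulVec v = (s : Matrix (Fin n) (Fin n) F).mulVec w := h
  rw [← stw_inv_mulVec s v, h', stw_inv_mulVec]

/-- A subspace mapped into a subspace of at most the same dimension is mapped onto it. -/
theorem stw_map (s : SpecialLinearGroup (Fin n) F) (E W : Submodule F (Fin n → F))
    (h : ∀ w ∈ E, (s : Matrix (Fin n) (Fin n) F).mulVec w ∈ W) (hd : finrank F W ≤ finrank F E) :
    ∀ w, (s : Matrix (Fin n) (Fin n) F).mulVec w ∈ W → w ∈ E := by
  have h1 : E.map (Matrix.mulVecLin (s : Matrix (Fin n) (Fin n) F)) ≤ W := by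
    rintro _ ⟨w, hw, rfl⟩
    exact h w hw
  have h2 : finrank F (E.map (Matrix.mulVecLin (s : Matrix (Fin n) (Fin n) F))) = finrank F E :=
    (Submodule.equivMapOfInjective _ (stw_inj s) E).finrank_eq.symm
  have h3 := Submodule.eq_of_le_of_finrank_le h1 (by rw [h2]; exact hd)
  intro w hw
  rw [← h3] at hw
  obtain ⟨w', hw', he⟩ := hw
  rw [← stw_inj s he]
  exact hw'

/-- The stabiliser in `SL_n(F)` of a subspace of `F^n`. -/
def stW (W : Submodule F (Fin n → F)) : Subgroup (SpecialLinearGroup (Fin n) F) where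
  carrier := {s | ∀ w ∈ W, (s : Matrix (Fin n) (Fin n) F).mulVec w ∈ W}
  one_mem' := by
    intro w hw
    rw [Matrix.SpecialLinearGroup.coe_one, Matrix.one_mulVec]
    exact hw
  mul_mem' := by
    intro a b ha hb w hw
    rw [Matrix.SpecialLinearGroup.coe_mul, ← Matrix.mulVec_mulVec]
    exact ha _ (hb w hw)
  inv_mem' := by
    intro s hs w hw
    refine stw_map s W W hs le_rfl _ ?_
    rw [stw_mulVec_inv]
    exact hw

theorem mem_stW (W : Submodule F (Fin n → F)) (s : SpecialLinearGroup (Fin n) F) :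
    s ∈ stW W ↔ ∀ w ∈ W, (s : Matrix (Fin n) (Fin n) F).mulVec w ∈ W := Iff.rfl

/-- The stabiliser contains the centre, so membership can be tested in `PSL_n(F)`. -/
theorem mem_stW_map (W : Submodule F (Fin n → F)) (s : SpecialLinearGroup (Fin n) F) :
    toP n F s ∈ (stW W).map (toP n F) ↔ s ∈ stW W := by
  constructor
  · rintro ⟨t, ht, hts⟩
    have hz : t⁻¹ * s ∈ Subgroup.center (SpecialLinearGroup (Fin n) F) := QuotientGroup.eq.1 hts
    obtain ⟨c, hc⟩ := center_scalar _ hz
    intro w hw
    have e : s = t * (t⁻¹ * s) := by group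
    rw [e, Matrix.SpecialLinearGroup.coe_mul t, hc, ← Matrix.mulVec_mulVec,
      Matrix.scalar_apply, ← Matrix.smul_one_eq_diagonal, Matrix.smul_mulVec, Matrix.one_mulVec,
      Matrix.mulVec_smul]
    exact W.smul_mem c (ht w hw)
  · intro hs
    exact ⟨s, hs, rfl⟩

/-- The stabiliser of the line spanned by `v`. -/
theorem mem_stW_span (v : Fin n → F) (s : SpecialLinearGroup (Fin n) F) :
    s ∈ stW (Submodule.span F {v}) ↔
      ∃ c : F, (s : Matrix (Fin n) (Fin n) F).mulVec v = c • v := by
  constructor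
  · intro hs
    obtain ⟨c, hc⟩ := Submodule.mem_span_singleton.1 (hs v (Submodule.mem_span_singleton_self v))
    exact ⟨c, hc.symm⟩
  · rintro ⟨c, hc⟩ w hw
    obtain ⟨a, rfl⟩ := Submodule.mem_span_singleton.1 hw
    rw [Matrix.mulVec_smul, hc]
    exact Submodule.smul_mem _ _ (Submodule.smul_mem _ _ (Submodule.mem_span_singleton_self v))

/-- The hyperplane `ker φ` as a submodule. -/
def kerφ (φ : Fin n → F) : Submodule F (Fin n → F) where
  carrier := {v | φ ⬝ᵥ v = 0}
  zero_mem' := by simp
  add_mem' := by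
    intro a b ha hb
    simp only [Set.mem_ofPred_eq] at *
    rw [dotProduct_add, ha, hb, add_zero]
  smul_mem' := by
    intro c a ha
    simp only [Set.mem_ofPred_eq] at *
    rw [dotProduct_smul, ha, smul_zero]

theorem mem_kerφ (φ v : Fin n → F) : v ∈ kerφ φ ↔ φ ⬝ᵥ v = 0 := Iff.rfl

/-- A functional which vanishes on `ker φ` is a multiple of `φ`. -/
theorem stw_multiple (φ ψ : Fin n → F) (h : ∀ v, φ ⬝ᵥ v = 0 → ψ ⬝ᵥ v = 0) :
    ∃ c : F, ψ = c • φ := by
  by_cases hφ : φ = 0
  · refine ⟨0, ?_⟩
    ext j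
    have h1 := h (Pi.single j 1) (by rw [hφ, zero_dotProduct])
    rw [dotProduct_single_one] at h1
    rw [h1, zero_smul, Pi.zero_apply]
  · obtain ⟨i, hi⟩ := Function.ne_iff.1 hφ
    have hi' : φ i ≠ 0 := hi
    refine ⟨ψ i / φ i, ?_⟩
    ext j
    have h1 := h (φ i • Pi.single j 1 - φ j • Pi.single i 1) (by
      rw [dotProduct_sub, dotProduct_smul, dotProduct_smul, dotProduct_single_one,
        dotProduct_single_one, smul_eq_mul, smul_eq_mul, mul_comm, sub_self])
    rw [dotProduct_sub, dotProduct_smul, dotProduct_smul, dotProduct_single_one,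
      dotProduct_single_one, smul_eq_mul, smul_eq_mul] at h1
    rw [Pi.smul_apply, smul_eq_mul]
    field_simp
    linear_combination h1

theorem mem_stW_kerφ (φ : Fin n → F) (s : SpecialLinearGroup (Fin n) F) :
    s ∈ stW (kerφ φ) ↔
      ∃ c : F, Matrix.vecMul φ (s : Matrix (Fin n) (Fin n) F) = c • φ := by
  constructor
  · intro hs
    refine stw_multiple φ _ fun v hv => ?_
    rw [← Matrix.dotProduct_mulVec]
    exact hs v hv
  · rintro ⟨c, hc⟩ w hw
    rw [mem_kerφ] at hw ⊢
    rw [Matrix.dotProduct_mulVec, hc, smul_dotProduct, hw, smul_zero]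

/-- The functional of `φ`. -/
def stwL (φ : Fin n → F) : (Fin n → F) →ₗ[F] F where
  toFun v := φ ⬝ᵥ v
  map_add' := dotProduct_add φ
  map_smul' c v := by
    rw [dotProduct_smul]
    rfl

theorem finrank_kerφ (φ : Fin n → F) (h : φ ≠ 0) : finrank F (kerφ φ) + 1 = n := by
  have h1 : kerφ φ = LinearMap.ker (stwL φ) := rfl
  obtain ⟨i, hi⟩ := Function.ne_iff.1 h
  have hi' : φ i ≠ 0 := hi
  have h2 : LinearMap.range (stwL φ) = ⊤ := by
    rw [LinearMap.range_eq_top]
    intro a
    refine ⟨Pi.single i (a / φ i), ?_⟩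
    change φ ⬝ᵥ Pi.single i (a / φ i) = a
    rw [dotProduct_single]
    exact mul_div_cancel₀ a hi'
  have h3 := LinearMap.finrank_range_add_finrank_ker (stwL φ)
  rw [h2, finrank_top, finrank_self, Module.finrank_fin_fun] at h3
  rw [h1]
  omega

/-- Every subspace of codimension one is the kernel of some `φ ≠ 0`. -/
theorem exists_kerφ (W : Submodule F (Fin n → F)) (hW : finrank F W + 1 = n) :
    ∃ φ : Fin n → F, φ ≠ 0 ∧ W = kerφ φ := by
  have hlt : W < ⊤ := by
    refine lt_top_iff_ne_top.2 fun h => ?_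
    rw [h, finrank_top, Module.finrank_fin_fun] at hW
    omega
  obtain ⟨f, hf, hWf⟩ := Submodule.exists_le_ker_of_lt_top W hlt
  have e : ∀ v, (fun i => f (Pi.single i 1)) ⬝ᵥ v = f v := by
    intro v
    have h1 : v = ∑ i, v i • (Pi.single i 1 : Fin n → F) := by
      ext j
      rw [Finset.sum_apply, Finset.sum_eq_single j]
      · simp
      · intro i _ hi
        rw [Pi.smul_apply, Pi.single_eq_of_ne hi.symm, smul_zero]
      · intro hj
        exact absurd (Finset.mem_univ j) hj
    conv_rhs => rw [h1, map_sum]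
    refine Finset.sum_congr rfl fun i _ => ?_
    rw [map_smul, smul_eq_mul, mul_comm]
  have hφ : (fun i => f (Pi.single i 1)) ≠ 0 := by
    intro h0
    refine hf (LinearMap.ext fun v => ?_)
    rw [← e, h0, zero_dotProduct, LinearMap.zero_apply]
  refine ⟨fun i => f (Pi.single i 1), hφ, ?_⟩
  refine Submodule.eq_of_le_of_finrank_eq ?_ ?_
  · intro w hw
    rw [mem_kerφ, e]
    exact hWf hw
  · have := finrank_kerφ _ hφ
    omega

/-- A linearly independent family is the family of the first columns of an invertible matrix. -/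
theorem stw_extend (d : ℕ) (v : Fin d → Fin n → F) (hv : LinearIndependent F v) :
    ∃ (hd : d ≤ n) (P : Matrix (Fin n) (Fin n) F), P.det ≠ 0 ∧
      ∀ i : Fin d, P.mulVec (Pi.single (Fin.castLE hd i) 1) = v i := by
  classical
  let b := Basis.sumExtend hv
  have hb : ∀ i, b (Sum.inl i) = v i := by
    intro i
    simp only [b, Basis.sumExtend, Basis.coe_reindex, Function.comp_apply,
      Basis.extend_apply_self]
    rfl
  have hfin : Finite (Fin d ⊕ Basis.sumExtendIndex hv) := Module.Finite.finite_basis b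
  have hfin' : Finite (Basis.sumExtendIndex hv) := Finite.sum_right (Fin d)
  have := Fintype.ofFinite (Basis.sumExtendIndex hv)
  have hcard : d + Fintype.card (Basis.sumExtendIndex hv) = n := by
    have h1 := Module.finrank_eq_card_basis b
    rw [Module.finrank_fin_fun, Fintype.card_sum, Fintype.card_fin] at h1
    exact h1.symm
  have hd : d ≤ n := by omega
  let e : Fin d ⊕ Basis.sumExtendIndex hv ≃ Fin n :=
    ((Equiv.refl (Fin d)).sumCongr (Fintype.equivFin _)).trans
      (finSumFinEquiv.trans (finCongr hcard))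
  have he : ∀ i, e (Sum.inl i) = Fin.castLE hd i := by
    intro i
    apply Fin.ext
    simp [e]
  let b' := b.reindex e
  let P : Matrix (Fin n) (Fin n) F := (Pi.basisFun F (Fin n)).toMatrix b'
  have hP : ∀ i j, P i j = b' j i := by
    intro i j
    simp [P, Basis.toMatrix_apply]
  refine ⟨hd, P, ?_, fun i => ?_⟩
  · have hinv : Invertible P := Basis.invertibleToMatrix _ _
    exact (Matrix.isUnit_det_of_invertible P).ne_zero
  · ext j
    rw [Matrix.mulVec_single_one, Matrix.col_apply, hP, ← he, Basis.reindex_apply,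
      Equiv.symm_apply_apply, hb]

/-- A linearly independent family can be mapped to any other one by an element of `GL_n(F)` of
determinant one up to a scalar on one vector: for two linearly independent families
`v, w : Fin d → F^n`, `0 < d`, there are `s ∈ SL_n(F)` and `c ≠ 0` with `s v_0 = c w_0` and `s v_i = w_i` for
`i ≠ 0`. -/
theorem sl_frame (d : ℕ) (hd : 0 < d) (v w : Fin d → Fin n → F) (hv : LinearIndependent F v)
    (hw : LinearIndependent F w) :
    ∃ (s : SpecialLinearGroup (Fin n) F) (c : F), c ≠ 0 ∧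
      (s : Matrix (Fin n) (Fin n) F).mulVec (v ⟨0, hd⟩) = c • w ⟨0, hd⟩ ∧
      ∀ i, i ≠ ⟨0, hd⟩ → (s : Matrix (Fin n) (Fin n) F).mulVec (v i) = w i := by
  classical
  obtain ⟨hdn, P, hP, hPv⟩ := stw_extend d v hv
  obtain ⟨hdn', Q, hQ, hQw⟩ := stw_extend d w hw
  let z : Fin n := Fin.castLE hdn ⟨0, hd⟩
  let c : F := P.det / Q.det
  let D : Matrix (Fin n) (Fin n) F := Matrix.diagonal (Function.update 1 z c)
  have hD : D.det = c := by
    rw [Matrix.det_diagonal, Finset.prod_update_of_mem (Finset.mem_univ z)]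
    simp
  have hPu : IsUnit P.det := isUnit_iff_ne_zero.2 hP
  have hPP : P⁻¹ * P = 1 := Matrix.nonsing_inv_mul P hPu
  have hdet : (Q * D * P⁻¹).det = 1 := by
    rw [Matrix.det_mul, Matrix.det_mul, hD, Matrix.det_nonsing_inv, Ring.inverse_eq_inv']
    simp only [c]
    field_simp
  have key : ∀ i : Fin d, (Q * D * P⁻¹).mulVec (v i) =
      (Function.update (1 : Fin n → F) z c (Fin.castLE hdn i)) • w i := by
    intro i
    rw [← hPv i, Matrix.mulVec_mulVec, Matrix.mul_assoc, hPP, Matrix.mul_one,
      ← Matrix.mulVec_mulVec, Matrix.diagonal_mulVec_single, mul_one]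
    have e : (Pi.single (Fin.castLE hdn i) (Function.update (1 : Fin n → F) z c
        (Fin.castLE hdn i)) : Fin n → F) =
        (Function.update (1 : Fin n → F) z c (Fin.castLE hdn i)) •
          Pi.single (Fin.castLE hdn i) 1 := by
      rw [← Pi.single_smul', smul_eq_mul, mul_one]
    rw [e, Matrix.mulVec_smul, hQw i]
  refine ⟨⟨Q * D * P⁻¹, hdet⟩, c, div_ne_zero hP hQ, ?_, fun i hi => ?_⟩
  · change (Q * D * P⁻¹).mulVec (v ⟨0, hd⟩) = _
    rw [key, Function.update_self]
  · change (Q * D * P⁻¹).mulVec (v i) = _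
    rw [key, Function.update_of_ne, Pi.one_apply, one_smul]
    intro h
    exact hi (Fin.castLE_injective hdn h)

/-- `SL_n(F)`, `n ≥ 2`, is transitive on nonzero vectors. -/
theorem sl_trans (hn : 2 ≤ n) (v w : Fin n → F) (hv : v ≠ 0) (hw : w ≠ 0) :
    ∃ s : SpecialLinearGroup (Fin n) F, (s : Matrix (Fin n) (Fin n) F).mulVec v = w := by
  have hex : ∀ v : Fin n → F, v ≠ 0 → ∃ v' : Fin n → F, LinearIndependent F ![v', v] := by
    intro v hv
    obtain ⟨v', hv'⟩ := exists_linearIndependent_pair_of_one_lt_finrank (R := F)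
      (M := Fin n → F) (by rw [Module.finrank_fin_fun]; omega) hv
    refine ⟨v', ?_⟩
    rw [LinearIndependent.pair_symm_iff]
    exact hv'
  obtain ⟨v', hv'⟩ := hex v hv
  obtain ⟨w', hw'⟩ := hex w hw
  obtain ⟨s, c, -, -, h⟩ := sl_frame 2 (by norm_num) _ _ hv' hw'
  exact ⟨s, h 1 (by decide)⟩

/-- For a subspace of dimension `|I|` there is `g ∈ SL_n(F)` mapping the coordinate subspace of
`I` onto it. -/
theorem sl_coord (W : Submodule F (Fin n → F)) (I : Finset (Fin n))
    (h : finrank F W = I.card) :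
    ∃ g : SpecialLinearGroup (Fin n) F, ∀ v : Fin n → F,
      (g : Matrix (Fin n) (Fin n) F).mulVec v ∈ W ↔ ∀ i, i ∉ I → v i = 0 := by
  classical
  rcases Nat.eq_zero_or_pos I.card with h0 | hpos
  · have hI : I = ∅ := Finset.card_eq_zero.1 h0
    have hW : W = ⊥ := Submodule.finrank_eq_zero.1 (h.trans h0)
    refine ⟨1, fun v => ?_⟩
    rw [Matrix.SpecialLinearGroup.coe_one, Matrix.one_mulVec, hW, hI, Submodule.mem_bot]
    constructor
    · rintro rfl i -
      rfl
    · intro hv
      ext i
      exact hv i (Finset.notMem_empty i)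
  · let ι : Fin I.card → Fin n := fun k => (I.equivFin.symm k : Fin n)
    have hι : Function.Injective ι := fun a b hab =>
      I.equivFin.symm.injective (Subtype.ext hab)
    let e : Fin I.card → Fin n → F := fun k => Pi.single (ι k) 1
    have he : LinearIndependent F e :=
      (Pi.linearIndependent_single_one (Fin n) F).comp ι hι
    let b := Module.finBasisOfFinrankEq F W h
    let w : Fin I.card → Fin n → F := fun k => (b k : Fin n → F)
    have hw : LinearIndependent F w := b.linearIndependent.map' W.subtype (Submodule.ker_subtype W)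
    obtain ⟨g, c, hc, hg0, hg⟩ := sl_frame I.card hpos e w he hw
    have hge : ∀ k, (g : Matrix (Fin n) (Fin n) F).mulVec (e k) ∈ W := by
      intro k
      by_cases hk : k = ⟨0, hpos⟩
      · rw [hk, hg0]
        exact W.smul_mem c (b _).2
      · rw [hg k hk]
        exact (b k).2
    let E : Submodule F (Fin n → F) :=
      { carrier := {v | ∀ i, i ∉ I → v i = 0}
        zero_mem' := fun i _ => rfl
        add_mem' := fun {a b} ha hb i hi => by
          rw [Pi.add_apply, ha i hi, hb i hi, add_zero]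
        smul_mem' := fun c a ha i hi => by
          rw [Pi.smul_apply, ha i hi, smul_zero] }
    have heE : ∀ k, e k ∈ E := by
      intro k i hi
      change (Pi.single (ι k) 1 : Fin n → F) i = 0
      refine Pi.single_eq_of_ne ?_ _
      rintro rfl
      exact hi (I.equivFin.symm k).2
    have hmaps : ∀ v ∈ E, (g : Matrix (Fin n) (Fin n) F).mulVec v ∈ W := by
      intro v hv
      have h1 : v = ∑ i ∈ I, v i • (Pi.single i 1 : Fin n → F) := by
        ext j
        rw [Finset.sum_apply]
        by_cases hj : j ∈ I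
        · rw [Finset.sum_eq_single_of_mem j hj]
          · simp
          · intro i _ hi
            rw [Pi.smul_apply, Pi.single_eq_of_ne hi.symm, smul_zero]
        · rw [hv j hj]
          refine (Finset.sum_eq_zero fun i hi => ?_).symm
          rw [Pi.smul_apply, Pi.single_eq_of_ne, smul_zero]
          rintro rfl
          exact hj hi
      rw [h1, Matrix.mulVec_sum]
      refine W.sum_mem fun i hi => ?_
      rw [Matrix.mulVec_smul]
      have h2 := hge (I.equivFin ⟨i, hi⟩)
      have h3 : e (I.equivFin ⟨i, hi⟩) = Pi.single i 1 := by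
        change (Pi.single (I.equivFin.symm (I.equivFin ⟨i, hi⟩) : Fin n) 1 : Fin n → F) = _
        rw [Equiv.symm_apply_apply]
      rw [h3] at h2
      exact W.smul_mem _ h2
    have hE : finrank F W ≤ finrank F E := by
      have h1 : LinearIndependent F fun k => (⟨e k, heE k⟩ : E) := by
        refine LinearIndependent.of_comp E.subtype ?_
        exact he
      have h2 := h1.fintype_card_le_finrank
      rw [Fintype.card_fin] at h2
      rw [h]
      exact h2
    exact ⟨g, fun v => ⟨fun hv => stw_map g E W hmaps hE v hv, fun hv => hmaps v hv⟩⟩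

end Lin43
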