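import Pool.Agent.Lib.MP_43150e_al.Lin.Tri

/-! # Minimal parabolic subgroups of `SL_(m+1)(F)` and their `2 × 2` block -/

set_option autoImplicit false

namespace Lin43

open Matrix

variable {m : ℕ} {F : Type*} [Field F]

/-- Upper triangular except possibly at the place `(a+1, a)`. -/
def UTa (a : Fin m) (M : Matrix (Fin (m + 1)) (Fin (m + 1)) F) : Prop :=
  ∀ i j : Fin (m + 1), j < i → ¬ (i = a.succ ∧ j = a.castSucc) → M i j = 0

/-- The `2 × 2` block in the rows and columns `a, a+1`. -/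
def b2 (a : Fin m) (M : Matrix (Fin (m + 1)) (Fin (m + 1)) F) : Matrix (Fin 2) (Fin 2) F :=
  !![M a.castSucc a.castSucc, M a.castSucc a.succ; M a.succ a.castSucc, M a.succ a.succ]

/-- The level function: the places `a` and `a+1` are on the same level. -/
private def mpb (a : Fin m) (i : Fin (m + 1)) : ℕ := if i = a.succ then (a : ℕ) else (i : ℕ)

private theorem mpb_lt (a : Fin m) (i j : Fin (m + 1)) :
    mpb a j < mpb a i ↔ j < i ∧ ¬ (i = a.succ ∧ j = a.castSucc) := by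
  unfold mpb
  simp only [Fin.lt_def, Fin.ext_iff, Fin.val_succ, Fin.val_castSucc]
  split_ifs <;> omega

private theorem UTa_iff (a : Fin m) (M : Matrix (Fin (m + 1)) (Fin (m + 1)) F) :
    UTa a M ↔ M.BlockTriangular (mpb a) := by
  constructor
  · intro h i j hij
    obtain ⟨h1, h2⟩ := (mpb_lt a i j).1 hij
    exact h i j h1 h2
  · intro h i j h1 h2
    exact h ((mpb_lt a i j).2 ⟨h1, h2⟩)

theorem UT.toUTa {a : Fin m} {M : Matrix (Fin (m + 1)) (Fin (m + 1)) F} (h : UT M) :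
    UTa a M := fun i j hij _ => h i j hij

theorem UT_iff (a : Fin m) (M : Matrix (Fin (m + 1)) (Fin (m + 1)) F) :
    UT M ↔ UTa a M ∧ b2 a M 1 0 = 0 := by
  constructor
  · intro h
    exact ⟨h.toUTa, h _ _ (Fin.castSucc_lt_succ (i := a))⟩
  · rintro ⟨h1, h2⟩ i j hij
    by_cases h3 : i = a.succ ∧ j = a.castSucc
    · rw [h3.1, h3.2]
      exact h2
    · exact h1 i j hij h3

theorem UTa.mul {a : Fin m} {M N : Matrix (Fin (m + 1)) (Fin (m + 1)) F} (hM : UTa a M)
    (hN : UTa a N) : UTa a (M * N) :=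
  (UTa_iff a _).2 (((UTa_iff a M).1 hM).mul ((UTa_iff a N).1 hN))

private theorem mp_mul {a : Fin m} {M N : Matrix (Fin (m + 1)) (Fin (m + 1)) F} (hM : UTa a M)
    (hN : UTa a N) (i j : Fin (m + 1)) (hi : i = a.castSucc ∨ i = a.succ)
    (hj : j = a.castSucc ∨ j = a.succ) :
    (M * N) i j = M i a.castSucc * N a.castSucc j + M i a.succ * N a.succ j := by
  rw [Matrix.mul_apply, Fintype.sum_eq_add a.castSucc a.succ
    (ne_of_lt (Fin.castSucc_lt_succ (i := a)))]
  rintro k ⟨hk1, hk2⟩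
  have hk1' : (k : ℕ) ≠ a := fun h => hk1 (Fin.ext h)
  have hk2' : (k : ℕ) ≠ a + 1 := fun h => hk2 (Fin.ext h)
  by_cases h : (k : ℕ) < a
  · rw [hM i k, zero_mul]
    · rw [Fin.lt_def]
      rcases hi with rfl | rfl
      · exact h
      · rw [Fin.val_succ]
        omega
    · rintro ⟨-, h2⟩
      exact hk1 h2
  · rw [hN k j, mul_zero]
    · rw [Fin.lt_def]
      rcases hj with rfl | rfl
      · rw [Fin.val_castSucc]
        omega
      · rw [Fin.val_succ]
        omega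
    · rintro ⟨h1, -⟩
      exact hk2 h1

theorem b2_mul {a : Fin m} {M N : Matrix (Fin (m + 1)) (Fin (m + 1)) F} (hM : UTa a M)
    (hN : UTa a N) : b2 a (M * N) = b2 a M * b2 a N := by
  unfold b2
  rw [mp_mul hM hN _ _ (Or.inl rfl) (Or.inl rfl), mp_mul hM hN _ _ (Or.inl rfl) (Or.inr rfl),
    mp_mul hM hN _ _ (Or.inr rfl) (Or.inl rfl), mp_mul hM hN _ _ (Or.inr rfl) (Or.inr rfl),
    Matrix.mul_fin_two]

theorem b2_one (a : Fin m) : b2 a (1 : Matrix (Fin (m + 1)) (Fin (m + 1)) F) = 1 := by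
  have h : a.castSucc ≠ a.succ := ne_of_lt (Fin.castSucc_lt_succ (i := a))
  unfold b2
  rw [Matrix.one_apply_eq, Matrix.one_apply_eq, Matrix.one_apply_ne h, Matrix.one_apply_ne h.symm,
    Matrix.one_fin_two]

theorem UTa.of_mul_eq_one {a : Fin m} {M N : Matrix (Fin (m + 1)) (Fin (m + 1)) F}
    (hM : UTa a M) (h : M * N = 1) : UTa a N := by
  have hinv : M⁻¹ = N := Matrix.inv_eq_right_inv h
  have : Invertible M := invertibleOfRightInverse _ _ h
  rw [← hinv]
  exact (UTa_iff a _).2 (blockTriangular_inv_of_blockTriangular ((UTa_iff a M).1 hM))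

private theorem exists_mpe (a : Fin m) :
    ∃ e : Fin 2 ⊕ {i : Fin (m + 1) // i ≠ a.castSucc ∧ i ≠ a.succ} ≃ Fin (m + 1),
      e (Sum.inl 0) = a.castSucc ∧ e (Sum.inl 1) = a.succ ∧ ∀ x, e (Sum.inr x) = x := by
  have h : a.castSucc ≠ a.succ := ne_of_lt (Fin.castSucc_lt_succ (i := a))
  have hb : Function.Bijective (Sum.elim ![a.castSucc, a.succ]
      (Subtype.val : {i : Fin (m + 1) // i ≠ a.castSucc ∧ i ≠ a.succ} → Fin (m + 1))) := by
    constructor
    · rintro (x | x) (y | y) hxy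
      · fin_cases x <;> fin_cases y
        · rfl
        · exact absurd hxy h
        · exact absurd hxy h.symm
        · rfl
      · fin_cases x
        · exact absurd hxy.symm y.2.1
        · exact absurd hxy.symm y.2.2
      · fin_cases y
        · exact absurd hxy x.2.1
        · exact absurd hxy x.2.2
      · exact congrArg Sum.inr (Subtype.ext hxy)
    · intro i
      by_cases h1 : i = a.castSucc
      · exact ⟨Sum.inl 0, h1.symm⟩
      · by_cases h2 : i = a.succ
        · exact ⟨Sum.inl 1, h2.symm⟩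
        · exact ⟨Sum.inr ⟨i, h1, h2⟩, rfl⟩
  exact ⟨Equiv.ofBijective _ hb, rfl, rfl, fun _ => rfl⟩

/-- The embedding of `SL_2(F)` in the rows and columns `a, a+1`. -/
theorem exists_emb (a : Fin m) (h : SpecialLinearGroup (Fin 2) F) :
    ∃ s : SpecialLinearGroup (Fin (m + 1)) F,
      UTa a (s : Matrix (Fin (m + 1)) (Fin (m + 1)) F) ∧
      UTa a ((s⁻¹ : SpecialLinearGroup (Fin (m + 1)) F) :
        Matrix (Fin (m + 1)) (Fin (m + 1)) F) ∧
      b2 a (s : Matrix (Fin (m + 1)) (Fin (m + 1)) F) = (h : Matrix (Fin 2) (Fin 2) F) ∧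
      b2 a ((s⁻¹ : SpecialLinearGroup (Fin (m + 1)) F) :
        Matrix (Fin (m + 1)) (Fin (m + 1)) F) =
        ((h⁻¹ : SpecialLinearGroup (Fin 2) F) : Matrix (Fin 2) (Fin 2) F) := by
  obtain ⟨e, he0, he1, he2⟩ := exists_mpe a
  obtain ⟨N, hN⟩ : ∃ N : Matrix (Fin 2 ⊕ {i : Fin (m + 1) // i ≠ a.castSucc ∧ i ≠ a.succ})
      (Fin 2 ⊕ {i : Fin (m + 1) // i ≠ a.castSucc ∧ i ≠ a.succ}) F,
      N = Matrix.fromBlocks (h : Matrix (Fin 2) (Fin 2) F) 0 0 1 := ⟨_, rfl⟩
  have hdet : (Matrix.reindex e e N).det = 1 := by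
    rw [Matrix.det_reindex_self, hN, Matrix.det_fromBlocks_zero₂₁, Matrix.det_one, mul_one]
    exact h.2
  obtain ⟨s, hs⟩ : ∃ s : SpecialLinearGroup (Fin (m + 1)) F,
      (s : Matrix (Fin (m + 1)) (Fin (m + 1)) F) = Matrix.reindex e e N :=
    ⟨⟨_, hdet⟩, rfl⟩
  have hent : ∀ x y, (s : Matrix (Fin (m + 1)) (Fin (m + 1)) F) (e x) (e y) = N x y := by
    intro x y
    rw [hs, Matrix.reindex_apply, Matrix.submatrix_apply, e.symm_apply_apply, e.symm_apply_apply]
  have h1 : UTa a (s : Matrix (Fin (m + 1)) (Fin (m + 1)) F) := by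
    intro i j hij hn
    obtain ⟨x, rfl⟩ := e.surjective i
    obtain ⟨y, rfl⟩ := e.surjective j
    rw [hent, hN]
    rcases x with x | x <;> rcases y with y | y
    · exfalso
      fin_cases x <;> fin_cases y
      · exact lt_irrefl _ hij
      · have h2 : e (Sum.inl 1) < e (Sum.inl 0) := hij
        rw [he0, he1] at h2
        exact absurd h2 (not_lt.2 (Fin.castSucc_lt_succ (i := a)).le)
      · exact hn ⟨he1, he0⟩
      · exact lt_irrefl _ hij
    · rfl
    · rfl
    · rw [Matrix.fromBlocks_apply₂₂, Matrix.one_apply_ne]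
      rintro rfl
      exact lt_irrefl _ hij
  have h2 : b2 a (s : Matrix (Fin (m + 1)) (Fin (m + 1)) F) =
      (h : Matrix (Fin 2) (Fin 2) F) := by
    have e00 := hent (Sum.inl 0) (Sum.inl 0)
    have e01 := hent (Sum.inl 0) (Sum.inl 1)
    have e10 := hent (Sum.inl 1) (Sum.inl 0)
    have e11 := hent (Sum.inl 1) (Sum.inl 1)
    rw [he0, hN, Matrix.fromBlocks_apply₁₁] at e00
    rw [he0, he1, hN, Matrix.fromBlocks_apply₁₁] at e01
    rw [he0, he1, hN, Matrix.fromBlocks_apply₁₁] at e10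
    rw [he1, hN, Matrix.fromBlocks_apply₁₁] at e11
    unfold b2
    rw [e00, e01, e10, e11]
    exact (Matrix.eta_fin_two _).symm
  have h3 : (s : Matrix (Fin (m + 1)) (Fin (m + 1)) F) *
      ((s⁻¹ : SpecialLinearGroup (Fin (m + 1)) F) : Matrix (Fin (m + 1)) (Fin (m + 1)) F) = 1 := by
    rw [← Matrix.SpecialLinearGroup.coe_mul, mul_inv_cancel, Matrix.SpecialLinearGroup.coe_one]
  have h4 := h1.of_mul_eq_one h3
  refine ⟨s, h1, h4, h2, ?_⟩
  have h5 := b2_mul h1 h4
  rw [h3, b2_one, h2] at h5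
  have h6 : ((h⁻¹ : SpecialLinearGroup (Fin 2) F) : Matrix (Fin 2) (Fin 2) F) *
      (h : Matrix (Fin 2) (Fin 2) F) = 1 := by
    rw [← Matrix.SpecialLinearGroup.coe_mul, inv_mul_cancel, Matrix.SpecialLinearGroup.coe_one]
  have h7 := congrArg (fun X => ((h⁻¹ : SpecialLinearGroup (Fin 2) F) :
    Matrix (Fin 2) (Fin 2) F) * X) h5
  simp only [mul_one, ← mul_assoc] at h7
  rw [h6, one_mul] at h7
  exact h7.symm

end Lin43
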