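import Pool.Agent.Lib.MP_43150e_al.Lin.A2
import Pool.Agent.Lib.MP_43150e_al.Lin.MinPar

/-! # Torus-full subgroups: unipotent elements with prescribed superdiagonal entry

Paragraph 6. Choose `g` with `|K^g ∩ B|` maximal (`K^g = g⁻¹ K g`). Fix `a`. Let `P_a` be the group of the
`s ∈ SL_n` with `UTa a s`, `L ≤ GL_2(F)` the image of `K^g ∩ P_a` under `b2 a`. For `h ∈ SL_2(F)` with image `s`
in `SL_n` (`exists_emb`): `K^(gs) ∩ P_a = s⁻¹ (K^g ∩ P_a) s`, with blocks conjugated by `h`. By `TFull` at `g s`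
the group `h⁻¹ L h` contains elements `[[x, *], [0, y]]` for all `x, y ≠ 0` (here `n ≥ 3` is used: complete
`(x, y)` to a diagonal of product one). So `a2` applies: for some `h`, `h⁻¹ L h` contains all `[[1,c],[0,1]]`,
hence all upper triangular invertible matrices. `|K^(gs) ∩ B| = |ker| · |h⁻¹ L h ∩ B_2|` with the same `|ker|` as
for `s = 1`; by maximality `L ∩ B_2 = B_2`. So there is `k ∈ K^g ∩ B` with block `[[1,c],[0,1]]`; the power
`k^((q-1)²)` is unitriangular with the same block, since `(q-1)² ≡ 1` mod `p`. -/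

set_option autoImplicit false

namespace Lin43

open Matrix

/-- Torus-full (the second alternative in `e1`). -/
def TFull {n : ℕ} {F : Type*} [Field F] (K : Subgroup (SpecialLinearGroup (Fin n) F)) : Prop :=
  ∀ (g : SpecialLinearGroup (Fin n) F) (t : Fin n → F), ∏ i, t i = 1 → ∃ k ∈ K,
    UT ((g⁻¹ * k * g : SpecialLinearGroup (Fin n) F) : Matrix (Fin n) (Fin n) F) ∧
    ∀ i, ((g⁻¹ * k * g : SpecialLinearGroup (Fin n) F) : Matrix (Fin n) (Fin n) F) i i = t i

/-! ### Counting -/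

private theorem tfa_card_pre {M G : Type*} [Group M] [Group G] (φ : M →* G) (A : Set G)
    (hA : A ⊆ Set.range φ) : Nat.card (φ ⁻¹' A) = Nat.card φ.ker * Nat.card A := by
  have h1 : ∀ a : A, ∃ x, φ x = a := fun a => hA a.2
  choose σ hσ using h1
  rw [← Nat.card_prod]
  refine Nat.card_congr
    { toFun := fun x => (⟨(σ ⟨φ x, x.2⟩)⁻¹ * x, ?_⟩, ⟨φ x, x.2⟩)
      invFun := fun p => ⟨σ p.2 * p.1, ?_⟩
      left_inv := ?_
      right_inv := ?_ }
  · rw [MonoidHom.mem_ker, map_mul, map_inv, hσ]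
    exact inv_mul_cancel _
  · have h2 : φ (p.1 : M) = 1 := p.1.2
    rw [Set.mem_preimage, map_mul, hσ, h2, mul_one]
    exact p.2.2
  · intro x
    apply Subtype.ext
    exact mul_inv_cancel_left _ _
  · rintro ⟨k, a⟩
    have h2 : φ (k : M) = 1 := k.2
    have h3 : φ (σ a * k) = a := by rw [map_mul, hσ, h2, mul_one]
    have h4 : (⟨φ (σ a * k), by rw [h3]; exact a.2⟩ : A) = a := Subtype.ext h3
    refine Prod.ext (Subtype.ext ?_) (Subtype.ext h3)
    change (σ ⟨φ (σ a * k), _⟩)⁻¹ * (σ a * k) = k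
    rw [h4, inv_mul_cancel_left]

private theorem tfa_count {M G : Type*} [Group M] [Finite M] [Group G] [Finite G] (φ : M →* G)
    {A A' : Set G} (hA' : A' ⊆ Set.range φ) (hc : Nat.card A ≤ Nat.card A')
    (h : Nat.card (φ ⁻¹' A') ≤ Nat.card (φ ⁻¹' A)) : A ⊆ Set.range φ := by
  have h1 : φ ⁻¹' A = φ ⁻¹' (A ∩ Set.range φ) := by
    ext x
    exact ⟨fun hx => ⟨hx, x, rfl⟩, fun hx => hx.1⟩
  rw [h1, tfa_card_pre φ A' hA', tfa_card_pre φ _ Set.inter_subset_right] at h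
  have h2 := Nat.le_of_mul_le_mul_left h Nat.card_pos
  have h3 : A.ncard ≤ (A ∩ Set.range φ).ncard := hc.trans h2
  have h4 := Set.eq_of_subset_of_ncard_le Set.inter_subset_left h3 (Set.toFinite A)
  rw [← h4]
  exact Set.inter_subset_right

/-! ### The minimal parabolic subgroup -/

section

variable {m : ℕ} {F : Type*} [Field F]

/-- The minimal parabolic subgroup. -/
private def tPa (a : Fin m) : Subgroup (SpecialLinearGroup (Fin (m + 1)) F) where
  carrier := {s | UTa a (s : Matrix (Fin (m + 1)) (Fin (m + 1)) F)}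
  one_mem' := UT.toUTa UT.one
  mul_mem' := fun hs ht => UTa.mul hs ht
  inv_mem' := fun {s} hs => by
    have h1 : (s : Matrix (Fin (m + 1)) (Fin (m + 1)) F) *
        ((s⁻¹ : SpecialLinearGroup (Fin (m + 1)) F) :
          Matrix (Fin (m + 1)) (Fin (m + 1)) F) = 1 := by
      rw [← Matrix.SpecialLinearGroup.coe_mul, mul_inv_cancel, Matrix.SpecialLinearGroup.coe_one]
    exact UTa.of_mul_eq_one hs h1

/-- The block of an element of the minimal parabolic subgroup. -/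
private def tphi (a : Fin m) : tPa (F := F) a →* Matrix (Fin 2) (Fin 2) F where
  toFun s := b2 a ((s : SpecialLinearGroup (Fin (m + 1)) F) :
    Matrix (Fin (m + 1)) (Fin (m + 1)) F)
  map_one' := b2_one a
  map_mul' s t := b2_mul s.2 t.2

/-- The group `K^g ∩ P_a`. -/
private def tM (K : Subgroup (SpecialLinearGroup (Fin (m + 1)) F))
    (g : SpecialLinearGroup (Fin (m + 1)) F) (a : Fin m) : Subgroup (tPa (F := F) a) :=
  (K.comap (MulAut.conj g).toMonoidHom).subgroupOf (tPa a)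

private theorem mem_tM {K : Subgroup (SpecialLinearGroup (Fin (m + 1)) F)}
    {g : SpecialLinearGroup (Fin (m + 1)) F} {a : Fin m} {x : tPa (F := F) a} :
    x ∈ tM K g a ↔ g * (x : SpecialLinearGroup (Fin (m + 1)) F) * g⁻¹ ∈ K := Iff.rfl

/-- The block of an element of `K^g ∩ P_a`. -/
private def tph (K : Subgroup (SpecialLinearGroup (Fin (m + 1)) F))
    (g : SpecialLinearGroup (Fin (m + 1)) F) (a : Fin m) :
    tM K g a →* GeneralLinearGroup (Fin 2) F :=
  MonoidHom.toHomUnits ((tphi a).comp (tM K g a).subtype)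

private theorem tph_coe (K : Subgroup (SpecialLinearGroup (Fin (m + 1)) F))
    (g : SpecialLinearGroup (Fin (m + 1)) F) (a : Fin m) (x : tM K g a) :
    ((tph K g a x : GeneralLinearGroup (Fin 2) F) : Matrix (Fin 2) (Fin 2) F) =
      b2 a (((x : tPa (F := F) a) : SpecialLinearGroup (Fin (m + 1)) F) :
        Matrix (Fin (m + 1)) (Fin (m + 1)) F) := rfl

/-- The elements of `GL_2` which are upper triangular after conjugation. -/
private def tA (F : Type*) [Field F] (H : GeneralLinearGroup (Fin 2) F) :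
    Set (GeneralLinearGroup (Fin 2) F) :=
  {l | ((H⁻¹ * l * H : GeneralLinearGroup (Fin 2) F) : Matrix (Fin 2) (Fin 2) F) 1 0 = 0}

private theorem card_tA (H : GeneralLinearGroup (Fin 2) F) :
    Nat.card (tA F H) = Nat.card (tA F 1) := by
  refine Nat.card_congr
    { toFun := fun l => ⟨H⁻¹ * l * H, ?_⟩
      invFun := fun l => ⟨H * l * H⁻¹, ?_⟩
      left_inv := ?_
      right_inv := ?_ }
  · have h1 := l.2
    change (((1 : GeneralLinearGroup (Fin 2) F)⁻¹ * (H⁻¹ * l * H) * 1 :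
      GeneralLinearGroup (Fin 2) F) : Matrix (Fin 2) (Fin 2) F) 1 0 = 0
    rw [inv_one, one_mul, mul_one]
    exact h1
  · have h1 := l.2
    change (((1 : GeneralLinearGroup (Fin 2) F)⁻¹ * l * 1 :
      GeneralLinearGroup (Fin 2) F) : Matrix (Fin 2) (Fin 2) F) 1 0 = 0 at h1
    rw [inv_one, one_mul, mul_one] at h1
    change ((H⁻¹ * (H * l * H⁻¹) * H :
      GeneralLinearGroup (Fin 2) F) : Matrix (Fin 2) (Fin 2) F) 1 0 = 0
    rw [show H⁻¹ * (H * (l : GeneralLinearGroup (Fin 2) F) * H⁻¹) * H = l by group]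
    exact h1
  · intro l
    apply Subtype.ext
    change H * (H⁻¹ * (l : GeneralLinearGroup (Fin 2) F) * H) * H⁻¹ = l
    group
  · intro l
    apply Subtype.ext
    change H⁻¹ * (H * (l : GeneralLinearGroup (Fin 2) F) * H⁻¹) * H = l
    group

/-- The number of the elements of `K^g ∩ B`. -/
private noncomputable def tN (K : Subgroup (SpecialLinearGroup (Fin (m + 1)) F))
    (g : SpecialLinearGroup (Fin (m + 1)) F) : ℕ :=
  Nat.card {s : SpecialLinearGroup (Fin (m + 1)) F // g * s * g⁻¹ ∈ K ∧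
    UT (s : Matrix (Fin (m + 1)) (Fin (m + 1)) F)}

/-- `|K^(gs) ∩ B|` in terms of the blocks. -/
private theorem tN_eq (K : Subgroup (SpecialLinearGroup (Fin (m + 1)) F))
    (g : SpecialLinearGroup (Fin (m + 1)) F) (a : Fin m)
    {s : SpecialLinearGroup (Fin (m + 1)) F} (hs : s ∈ tPa (F := F) a)
    {H : GeneralLinearGroup (Fin 2) F}
    (hH : b2 a (s : Matrix (Fin (m + 1)) (Fin (m + 1)) F) = (H : Matrix (Fin 2) (Fin 2) F)) :
    tN K (g * s) = Nat.card (tph K g a ⁻¹' tA F H) := by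
  have hHi : b2 a ((s⁻¹ : SpecialLinearGroup (Fin (m + 1)) F) :
      Matrix (Fin (m + 1)) (Fin (m + 1)) F) =
      ((H⁻¹ : GeneralLinearGroup (Fin 2) F) : Matrix (Fin 2) (Fin 2) F) := by
    have h1 : (tphi a ⟨s, hs⟩) * (tphi a ⟨s, hs⟩⁻¹) = 1 := by
      rw [← map_mul, mul_inv_cancel, map_one]
    have h2 : tphi a ⟨s, hs⟩ = (H : Matrix (Fin 2) (Fin 2) F) := hH
    rw [h2] at h1
    exact (Units.inv_eq_of_mul_eq_one_right h1).symm
  -- the key equivalence
  have hkey : ∀ x : SpecialLinearGroup (Fin (m + 1)) F, ∀ hx : x ∈ tPa (F := F) a,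
      ∀ l : GeneralLinearGroup (Fin 2) F,
      (l : Matrix (Fin 2) (Fin 2) F) = b2 a (x : Matrix (Fin (m + 1)) (Fin (m + 1)) F) →
      (UT ((s⁻¹ * x * s : SpecialLinearGroup (Fin (m + 1)) F) :
        Matrix (Fin (m + 1)) (Fin (m + 1)) F) ↔ l ∈ tA F H) := by
    intro x hx l hl
    have h1 : s⁻¹ * x * s ∈ tPa (F := F) a :=
      (tPa a).mul_mem ((tPa a).mul_mem ((tPa a).inv_mem hs) hx) hs
    have h2 : b2 a ((s⁻¹ * x * s : SpecialLinearGroup (Fin (m + 1)) F) :
        Matrix (Fin (m + 1)) (Fin (m + 1)) F) =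
        ((H⁻¹ * l * H : GeneralLinearGroup (Fin 2) F) : Matrix (Fin 2) (Fin 2) F) := by
      rw [Units.val_mul, Units.val_mul, ← hHi, hl, ← hH]
      have h3 : b2 a ((s⁻¹ * x * s : SpecialLinearGroup (Fin (m + 1)) F) :
          Matrix (Fin (m + 1)) (Fin (m + 1)) F) =
          tphi a (⟨s, hs⟩⁻¹ * ⟨x, hx⟩ * ⟨s, hs⟩) := rfl
      rw [h3, map_mul, map_mul]
      rfl
    rw [UT_iff a, h2]
    exact ⟨fun h => h.2, fun h => ⟨h1, h⟩⟩
  refine Nat.card_congr
    { toFun := fun y => ⟨⟨⟨s * y * s⁻¹, ?_⟩, ?_⟩, ?_⟩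
      invFun := fun x => ⟨s⁻¹ * ((x : tM K g a) : tPa (F := F) a) * s, ?_, ?_⟩
      left_inv := ?_
      right_inv := ?_ }
  · exact (tPa a).mul_mem ((tPa a).mul_mem hs (UT.toUTa y.2.2)) ((tPa a).inv_mem hs)
  · rw [mem_tM]
    have h1 := y.2.1
    rw [show g * s * (y : SpecialLinearGroup (Fin (m + 1)) F) * (g * s)⁻¹ =
      g * (s * y * s⁻¹) * g⁻¹ by group] at h1
    exact h1
  · rw [Set.mem_preimage]
    refine (hkey _ ?_ _ (tph_coe K g a _)).1 ?_
    · exact (tPa a).mul_mem ((tPa a).mul_mem hs (UT.toUTa y.2.2)) ((tPa a).inv_mem hs)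
    · change UT ((s⁻¹ * (s * (y : SpecialLinearGroup (Fin (m + 1)) F) * s⁻¹) * s :
        SpecialLinearGroup (Fin (m + 1)) F) : Matrix (Fin (m + 1)) (Fin (m + 1)) F)
      rw [show s⁻¹ * (s * (y : SpecialLinearGroup (Fin (m + 1)) F) * s⁻¹) * s = y by group]
      exact y.2.2
  · have h1 := mem_tM.1 (x : tM K g a).2
    rw [show g * s * (s⁻¹ * (((x : tM K g a) : tPa (F := F) a) :
      SpecialLinearGroup (Fin (m + 1)) F) * s) * (g * s)⁻¹ =
      g * (((x : tM K g a) : tPa (F := F) a) : SpecialLinearGroup (Fin (m + 1)) F) * g⁻¹ by group]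
    exact h1
  · exact (hkey _ ((x : tM K g a) : tPa (F := F) a).2 _ (tph_coe K g a _)).2 x.2
  · intro y
    apply Subtype.ext
    change s⁻¹ * (s * (y : SpecialLinearGroup (Fin (m + 1)) F) * s⁻¹) * s = y
    group
  · intro x
    apply Subtype.ext
    apply Subtype.ext
    apply Subtype.ext
    change s * (s⁻¹ * (((x : tM K g a) : tPa (F := F) a) :
      SpecialLinearGroup (Fin (m + 1)) F) * s) * s⁻¹ = _
    group

/-- Elements of `K^g ∩ P_a` with prescribed diagonal after conjugation. -/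
private theorem tfa_diag (hm : 2 ≤ m) {K : Subgroup (SpecialLinearGroup (Fin (m + 1)) F)}
    (hK : TFull K) (g : SpecialLinearGroup (Fin (m + 1)) F) (a : Fin m)
    {s : SpecialLinearGroup (Fin (m + 1)) F} (hs : s ∈ tPa (F := F) a)
    {H : GeneralLinearGroup (Fin 2) F}
    (hH : b2 a (s : Matrix (Fin (m + 1)) (Fin (m + 1)) F) = (H : Matrix (Fin 2) (Fin 2) F))
    {x y : F} (hx : x ≠ 0) (hy : y ≠ 0) : ∃ (l : tM K g a) (z : F),
      ((tph K g a l : GeneralLinearGroup (Fin 2) F) : Matrix (Fin 2) (Fin 2) F) *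
        (H : Matrix (Fin 2) (Fin 2) F) = (H : Matrix (Fin 2) (Fin 2) F) * !![x, z; 0, y] := by
  classical
  -- a third index
  obtain ⟨i₀, hi₀, hi₁⟩ : ∃ i₀ : Fin (m + 1), i₀ ≠ a.castSucc ∧ i₀ ≠ a.succ := by
    by_contra hcon
    push Not at hcon
    have h1 : (Finset.univ : Finset (Fin (m + 1))) ⊆ {a.castSucc, a.succ} := by
      intro i _
      rw [Finset.mem_insert, Finset.mem_singleton]
      by_cases h : i = a.castSucc
      · exact Or.inl h
      · exact Or.inr (hcon i h)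
    have h2 := (Finset.card_le_card h1).trans Finset.card_le_two
    rw [Finset.card_univ, Fintype.card_fin] at h2
    omega
  have hne : a.castSucc ≠ a.succ := (Fin.castSucc_lt_succ (i := a)).ne
  let t : Fin (m + 1) → F := fun i => if i = a.castSucc then x else if i = a.succ then y else
    if i = i₀ then (x * y)⁻¹ else 1
  have ht : ∏ i, t i = 1 := by
    have h1 : ∏ i, t i = t a.castSucc * t a.succ * t i₀ := by
      rw [← Finset.prod_subset (Finset.subset_univ {a.castSucc, a.succ, i₀})]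
      · rw [Finset.prod_insert, Finset.prod_insert, Finset.prod_singleton, mul_assoc]
        · rw [Finset.mem_singleton]
          exact hi₁.symm
        · rw [Finset.mem_insert, Finset.mem_singleton, not_or]
          exact ⟨hne, hi₀.symm⟩
      · intro i _ hi
        rw [Finset.mem_insert, Finset.mem_insert, Finset.mem_singleton, not_or, not_or] at hi
        simp only [t, if_neg hi.1, if_neg hi.2.1, if_neg hi.2.2]
    rw [h1]
    simp only [t, if_true, if_neg hne.symm, if_neg hi₀, if_neg hi₁]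
    field_simp
  obtain ⟨k, hk, hk1, hk2⟩ := hK (g * s) t ht
  obtain ⟨b, hb⟩ : ∃ b, b = (g * s)⁻¹ * k * (g * s) := ⟨_, rfl⟩
  rw [← hb] at hk1 hk2
  have hbP : b ∈ tPa (F := F) a := UT.toUTa hk1
  have hlP : s * b * s⁻¹ ∈ tPa (F := F) a :=
    (tPa a).mul_mem ((tPa a).mul_mem hs hbP) ((tPa a).inv_mem hs)
  have hlM : (⟨s * b * s⁻¹, hlP⟩ : tPa (F := F) a) ∈ tM K g a := by
    rw [mem_tM]
    have h1 : g * (s * b * s⁻¹) * g⁻¹ = k := by
      rw [hb]
      group
    rw [h1]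
    exact hk
  refine ⟨⟨⟨s * b * s⁻¹, hlP⟩, hlM⟩,
    (b : Matrix (Fin (m + 1)) (Fin (m + 1)) F) a.castSucc a.succ, ?_⟩
  rw [tph_coe, ← hH]
  have h1 : b2 a ((s * b * s⁻¹ : SpecialLinearGroup (Fin (m + 1)) F) :
      Matrix (Fin (m + 1)) (Fin (m + 1)) F) *
      b2 a (s : Matrix (Fin (m + 1)) (Fin (m + 1)) F) =
      b2 a (s : Matrix (Fin (m + 1)) (Fin (m + 1)) F) *
      b2 a (b : Matrix (Fin (m + 1)) (Fin (m + 1)) F) := by
    have h2 : tphi a ⟨s * b * s⁻¹, hlP⟩ * tphi a ⟨s, hs⟩ = tphi a ⟨s, hs⟩ * tphi a ⟨b, hbP⟩ := by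
      rw [← map_mul, ← map_mul]
      congr 1
      apply Subtype.ext
      change s * b * s⁻¹ * s = s * b
      group
    exact h2
  refine h1.trans ?_
  congr 1
  rw [b2]
  have h3 : (b : Matrix (Fin (m + 1)) (Fin (m + 1)) F) a.castSucc a.castSucc = x := by
    rw [hk2]
    simp only [t, if_true]
  have h4 : (b : Matrix (Fin (m + 1)) (Fin (m + 1)) F) a.succ a.succ = y := by
    rw [hk2]
    simp only [t, if_neg hne.symm, if_true]
  have h5 : (b : Matrix (Fin (m + 1)) (Fin (m + 1)) F) a.succ a.castSucc = 0 :=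
    hk1 _ _ (Fin.castSucc_lt_succ (i := a))
  rw [h3, h4, h5]

/-- Powers of an upper triangular matrix. -/
private theorem tfa_pow {n : ℕ} {M : Matrix (Fin n) (Fin n) F} (hM : UT M) (k : ℕ) :
    UT (M ^ k) ∧ ∀ i, (M ^ k) i i = (M i i) ^ k := by
  induction k with
  | zero =>
    rw [pow_zero]
    exact ⟨UT.one, fun i => by rw [Matrix.one_apply_eq, pow_zero]⟩
  | succ k ih =>
    rw [pow_succ]
    exact ⟨ih.1.mul hM, fun i => by rw [ih.1.mul_diag hM, ih.2, pow_succ]⟩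

private theorem tfa_pow2 (c : F) (k : ℕ) :
    (!![1, c; 0, 1] : Matrix (Fin 2) (Fin 2) F) ^ k = !![1, k * c; 0, 1] := by
  induction k with
  | zero =>
    rw [pow_zero, Nat.cast_zero, zero_mul]
    exact Matrix.one_fin_two
  | succ k ih =>
    rw [pow_succ, ih, Matrix.mul_fin_two]
    congr 1
    push_cast
    simp only [mul_one, mul_zero, add_zero, one_mul, zero_mul, zero_add]
    ring_nf

end

theorem tfa {m : ℕ} (hm : 2 ≤ m) {F : Type*} [Field F] [Fintype F]
    (hq : 59 < Fintype.card F) (K : Subgroup (SpecialLinearGroup (Fin (m + 1)) F))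
    (hK : TFull K) :
    ∃ g : SpecialLinearGroup (Fin (m + 1)) F, ∀ (a : Fin m) (c : F), ∃ k ∈ K,
      UU ((g⁻¹ * k * g : SpecialLinearGroup (Fin (m + 1)) F) :
        Matrix (Fin (m + 1)) (Fin (m + 1)) F) ∧
      ((g⁻¹ * k * g : SpecialLinearGroup (Fin (m + 1)) F) :
        Matrix (Fin (m + 1)) (Fin (m + 1)) F) a.castSucc a.succ = c := by
  classical
  obtain ⟨g, hg⟩ := Finite.exists_max (tN K)
  refine ⟨g, fun a c => ?_⟩
  -- a conjugate with all unipotent blocks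
  obtain ⟨h, hh⟩ := a2 hq (tph K g a).range (by
    intro h t ht
    obtain ⟨s, hs1, -, hs3, -⟩ := exists_emb a h
    have hsP : s ∈ tPa (F := F) a := hs1
    obtain ⟨l, z, hl⟩ := tfa_diag hm hK g a hsP
      (H := Matrix.SpecialLinearGroup.toGL h) hs3 (pow_ne_zero 2 ht) one_ne_zero
    refine ⟨tph K g a l, ⟨l, rfl⟩, 1, z, ?_⟩
    rw [mul_one]
    exact hl)
  obtain ⟨s, hs1, -, hs3, -⟩ := exists_emb a h
  have hsP : s ∈ tPa (F := F) a := hs1
  obtain ⟨H, hHdef⟩ : ∃ H, H = Matrix.SpecialLinearGroup.toGL h := ⟨_, rfl⟩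
  have hHc : (H : Matrix (Fin 2) (Fin 2) F) = (h : Matrix (Fin 2) (Fin 2) F) := by
    rw [hHdef]
    rfl
  rw [← hHc] at hs3 hh
  have hA' : tA F H ⊆ Set.range (tph K g a) := by
    intro l hl
    obtain ⟨b, hb⟩ : ∃ b, b = H⁻¹ * l * H := ⟨_, rfl⟩
    have hb10 : (b : Matrix (Fin 2) (Fin 2) F) 1 0 = 0 := by
      rw [hb]
      exact hl
    have hdet : (b : Matrix (Fin 2) (Fin 2) F) 0 0 * (b : Matrix (Fin 2) (Fin 2) F) 1 1 ≠ 0 := by
      have h1 : (b : Matrix (Fin 2) (Fin 2) F).det ≠ 0 := by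
        have h2 := (Matrix.isUnit_iff_isUnit_det _).1 b.isUnit
        exact h2.ne_zero
      rw [Matrix.det_fin_two, hb10, mul_zero, sub_zero] at h1
      exact h1
    obtain ⟨l', z, hl'⟩ := tfa_diag hm hK g a hsP hs3 (left_ne_zero_of_mul hdet)
      (right_ne_zero_of_mul hdet)
    obtain ⟨l₂, ⟨y₂, rfl⟩, hl₂⟩ := hh
      (((b : Matrix (Fin 2) (Fin 2) F) 0 1 - z) / (b : Matrix (Fin 2) (Fin 2) F) 0 0)
    refine ⟨l' * y₂, ?_⟩
    have h3 : ((tph K g a l' : GeneralLinearGroup (Fin 2) F) : Matrix (Fin 2) (Fin 2) F) *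
        ((tph K g a y₂ : GeneralLinearGroup (Fin 2) F) : Matrix (Fin 2) (Fin 2) F) *
        (H : Matrix (Fin 2) (Fin 2) F) =
        (H : Matrix (Fin 2) (Fin 2) F) * (b : Matrix (Fin 2) (Fin 2) F) := by
      rw [Matrix.mul_assoc, hl₂, ← Matrix.mul_assoc, hl', Matrix.mul_assoc, Matrix.mul_fin_two]
      congr 1
      conv_rhs => rw [Matrix.eta_fin_two (b : Matrix (Fin 2) (Fin 2) F), hb10]
      have h4 : (b : Matrix (Fin 2) (Fin 2) F) 0 0 ≠ 0 := left_ne_zero_of_mul hdet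
      congr 1
      simp only [mul_one, mul_zero, add_zero, zero_mul, zero_add]
      rw [mul_div_cancel₀ _ h4, sub_add_cancel]
    have h5 : (tph K g a (l' * y₂) * H : GeneralLinearGroup (Fin 2) F) = H * b := by
      apply Units.ext
      rw [map_mul, Units.val_mul, Units.val_mul, Units.val_mul]
      exact h3
    rw [← mul_left_inj H, h5, hb]
    group
  have hA : tA F 1 ⊆ Set.range (tph K g a) := by
    refine tfa_count (tph K g a) hA' (card_tA H).ge ?_
    have h1 := tN_eq K g a hsP hs3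
    have h2 := tN_eq K g a (tPa (F := F) a).one_mem (H := 1) (by
      rw [Matrix.SpecialLinearGroup.coe_one, b2_one]
      rfl)
    rw [mul_one] at h2
    rw [← h1, ← h2]
    exact hg _
  obtain ⟨u, hu⟩ : ∃ u : GeneralLinearGroup (Fin 2) F,
      (u : Matrix (Fin 2) (Fin 2) F) = !![1, c; 0, 1] :=
    ⟨Matrix.SpecialLinearGroup.toGL ⟨!![1, c; 0, 1], by
      rw [Matrix.det_fin_two_of, mul_one, mul_zero, sub_zero]⟩, rfl⟩
  have huA : u ∈ tA F 1 := by
    change ((1⁻¹ * u * 1 : GeneralLinearGroup (Fin 2) F) : Matrix (Fin 2) (Fin 2) F) 1 0 = 0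
    rw [inv_one, one_mul, mul_one, hu]
    rfl
  obtain ⟨x, hx⟩ := hA huA
  obtain ⟨X, hX⟩ : ∃ X : SpecialLinearGroup (Fin (m + 1)) F, X = ((x : tPa (F := F) a) :
    SpecialLinearGroup (Fin (m + 1)) F) := ⟨_, rfl⟩
  have hb2 : b2 a (X : Matrix (Fin (m + 1)) (Fin (m + 1)) F) = !![1, c; 0, 1] := by
    rw [hX, ← tph_coe K g a x, hx, hu]
  have hUT : UT (X : Matrix (Fin (m + 1)) (Fin (m + 1)) F) := by
    rw [UT_iff a, hb2]
    refine ⟨?_, rfl⟩
    rw [hX]
    exact (x : tPa (F := F) a).2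
  have hXK : g * X * g⁻¹ ∈ K := by
    rw [hX]
    exact mem_tM.1 x.2
  obtain ⟨n, hn⟩ : ∃ n, n = (Fintype.card F - 1) * (Fintype.card F - 1) := ⟨_, rfl⟩
  have hnF : (n : F) = 1 := by
    rw [hn, Nat.cast_mul, Nat.cast_sub (by omega), FiniteField.cast_card_eq_zero, Nat.cast_one]
    ring
  have hpow := tfa_pow hUT n
  refine ⟨g * X ^ n * g⁻¹, ?_, ?_⟩
  · rw [← conj_pow]
    exact K.pow_mem hXK n
  have h1 : g⁻¹ * (g * X ^ n * g⁻¹) * g = X ^ n := by group
  rw [h1, Matrix.SpecialLinearGroup.coe_pow]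
  refine ⟨⟨hpow.1, fun i => ?_⟩, ?_⟩
  · have h3 : (X : Matrix (Fin (m + 1)) (Fin (m + 1)) F) i i ≠ 0 := by
      have h2 : (X : Matrix (Fin (m + 1)) (Fin (m + 1)) F).det = 1 := X.det_coe
      rw [hUT.det] at h2
      intro h3
      have h4 : ∏ j, (X : Matrix (Fin (m + 1)) (Fin (m + 1)) F) j j = 0 :=
        Finset.prod_eq_zero (Finset.mem_univ i) h3
      exact zero_ne_one (h4.symm.trans h2)
    rw [hpow.2, hn, pow_mul, FiniteField.pow_card_sub_one_eq_one _ h3, one_pow]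
  · have h2 : b2 a ((X : Matrix (Fin (m + 1)) (Fin (m + 1)) F) ^ n) =
        !![1, n * c; 0, 1] := by
      rw [← tfa_pow2, ← hb2]
      have h3 := map_pow (tphi (F := F) a) ⟨X, UT.toUTa hUT⟩ n
      have h4 : tphi (F := F) a (⟨X, UT.toUTa hUT⟩ ^ n) =
          b2 a ((X : Matrix (Fin (m + 1)) (Fin (m + 1)) F) ^ n) := by
        rw [← Matrix.SpecialLinearGroup.coe_pow]
        rfl
      rw [← h4, h3]
      rfl
    have h5 : b2 a ((X : Matrix (Fin (m + 1)) (Fin (m + 1)) F) ^ n) 0 1 = n * c := by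
      rw [h2]
      rfl
    rw [hnF, one_mul] at h5
    exact h5

end Lin43
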