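import Pool.Agent.Lib.MP_43150e_al.Lin.A2
import Pool.Agent.Lib.MP_43150e_al.Lin.TFa
import Pool.Agent.Lib.MP_43150e_al.Lin.StW

/-! # `n = 2`, torus-full: the point stabiliser is a Borel subgroup (paragraph 7) -/

set_option autoImplicit false

namespace Lin43

open Matrix

/-- The matrix `[[1, c], [0, 1]]`. -/
private def N2T_U {F : Type*} [Field F] (c : F) : SpecialLinearGroup (Fin 2) F :=
  ⟨!![1, c; 0, 1], by rw [Matrix.det_fin_two_of]; ring⟩

private theorem N2T_inv10 {F : Type*} [Field F] (N x : SpecialLinearGroup (Fin 2) F) :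
    ((N⁻¹ * x : SpecialLinearGroup (Fin 2) F) : Matrix (Fin 2) (Fin 2) F) 1 0 =
      (N : Matrix (Fin 2) (Fin 2) F) 0 0 * (x : Matrix (Fin 2) (Fin 2) F) 1 0 -
        (N : Matrix (Fin 2) (Fin 2) F) 1 0 * (x : Matrix (Fin 2) (Fin 2) F) 0 0 := by
  rw [Matrix.SpecialLinearGroup.SL2_inv_expl, Matrix.SpecialLinearGroup.coe_mul, Matrix.mul_apply,
    Fin.sum_univ_two]
  simp
  ring

/-- An upper triangular element is the product of an element with the same diagonal and of a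
unipotent element. -/
private theorem N2T_dec {F : Type*} [Field F] (y m : SpecialLinearGroup (Fin 2) F)
    (hy : (y : Matrix (Fin 2) (Fin 2) F) 1 0 = 0) (hm : (m : Matrix (Fin 2) (Fin 2) F) 1 0 = 0)
    (h0 : (y : Matrix (Fin 2) (Fin 2) F) 0 0 = (m : Matrix (Fin 2) (Fin 2) F) 0 0)
    (h1 : (y : Matrix (Fin 2) (Fin 2) F) 1 1 = (m : Matrix (Fin 2) (Fin 2) F) 1 1) :
    ∃ c : F, m = y * N2T_U c := by
  have hd := y.det_coe
  rw [Matrix.det_fin_two, hy, mul_zero, sub_zero] at hd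
  have h00 : (y : Matrix (Fin 2) (Fin 2) F) 0 0 ≠ 0 := fun h => by
    rw [h, zero_mul] at hd
    exact zero_ne_one hd
  refine ⟨((m : Matrix (Fin 2) (Fin 2) F) 0 1 - (y : Matrix (Fin 2) (Fin 2) F) 0 1) /
    (y : Matrix (Fin 2) (Fin 2) F) 0 0, ?_⟩
  apply Subtype.ext
  ext i j
  rw [Matrix.SpecialLinearGroup.coe_mul, Matrix.mul_apply, Fin.sum_univ_two]
  fin_cases i <;> fin_cases j
  · simp [N2T_U, h0]
  · simp [N2T_U]
    field_simp
    ring
  · simp [N2T_U, hy, hm]
  · simp [N2T_U, hy, h1]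

/-- `a2` for the image of `K` in `GL_2(F)` (diagonal `(t, t⁻¹)`): some `g⁻¹ K g` contains `U`; by `TFull`
at `g` it contains `B`; a subgroup properly containing `B` is `SL_2(F)` (it is transitive on points). -/
theorem n2_tf {F : Type*} [Field F] [Fintype F] (hq : 59 < Fintype.card F)
    (K : Subgroup (SpecialLinearGroup (Fin 2) F)) (hK : TFull K) (hne : K ≠ ⊤) :
    ∃ v : Fin 2 → F, v ≠ 0 ∧ ∀ s : SpecialLinearGroup (Fin 2) F,
      s ∈ K ↔ s ∈ stW (Submodule.span F {v}) := by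
  -- the hypothesis of `a2`
  obtain ⟨g, hg⟩ := a2 hq (K.map SpecialLinearGroup.toGL) (by
    intro g t ht
    obtain ⟨k, hk, hu, hd⟩ := hK g ![t, t⁻¹] (by
      rw [Fin.prod_univ_two]
      exact mul_inv_cancel₀ ht)
    refine ⟨SpecialLinearGroup.toGL k, ⟨k, hk, rfl⟩, t⁻¹,
      ((g⁻¹ * k * g : SpecialLinearGroup (Fin 2) F) : Matrix (Fin 2) (Fin 2) F) 0 1, ?_⟩
    have h0 := hd 0
    have h1 := hd 1
    have h2 := hu 1 0 (by decide)
    have e : k * g = g * (g⁻¹ * k * g) := by group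
    have e1 : ((SpecialLinearGroup.toGL k : GeneralLinearGroup (Fin 2) F) :
        Matrix (Fin 2) (Fin 2) F) = (k : Matrix (Fin 2) (Fin 2) F) := rfl
    rw [e1, ← Matrix.SpecialLinearGroup.coe_mul, e, Matrix.SpecialLinearGroup.coe_mul]
    congr 1
    have e2 : t ^ 2 * t⁻¹ = t := by rw [pow_two, mul_assoc, mul_inv_cancel₀ ht, mul_one]
    generalize (g⁻¹ * k * g : SpecialLinearGroup (Fin 2) F) = y at h0 h1 h2
    ext i j
    fin_cases i <;> fin_cases j
    · simpa [e2] using h0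
    · simp
    · simpa using h2
    · simpa using h1)
  -- the unipotent elements
  have hU : ∀ c : F, g * N2T_U c * g⁻¹ ∈ K := by
    intro c
    obtain ⟨_, ⟨k, hk, rfl⟩, h⟩ := hg c
    have e : k * g = g * N2T_U c := Subtype.ext (by
      rw [Matrix.SpecialLinearGroup.coe_mul, Matrix.SpecialLinearGroup.coe_mul]
      exact h)
    rw [← e, mul_assoc, mul_inv_cancel, mul_one]
    exact hk
  -- the Borel subgroup
  have hB : ∀ m : SpecialLinearGroup (Fin 2) F, (m : Matrix (Fin 2) (Fin 2) F) 1 0 = 0 →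
      g * m * g⁻¹ ∈ K := by
    intro m hm
    have hdm := m.det_coe
    rw [Matrix.det_fin_two, hm, mul_zero, sub_zero] at hdm
    obtain ⟨k, hk, hu, hd⟩ := hK g ![(m : Matrix (Fin 2) (Fin 2) F) 0 0,
      (m : Matrix (Fin 2) (Fin 2) F) 1 1] (by
        rw [Fin.prod_univ_two]
        exact hdm)
    obtain ⟨c, hc⟩ := N2T_dec (g⁻¹ * k * g) m (hu 1 0 (by decide)) hm (hd 0) (hd 1)
    have e : g * m * g⁻¹ = k * (g * N2T_U c * g⁻¹) := by
      rw [hc]
      group
    rw [e]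
    exact K.mul_mem hk (hU c)
  -- no element outside
  have hout : ∀ m : SpecialLinearGroup (Fin 2) F, g * m * g⁻¹ ∈ K →
      (m : Matrix (Fin 2) (Fin 2) F) 1 0 = 0 := by
    intro m hm
    by_contra hm0
    apply hne
    rw [eq_top_iff]
    intro s _
    obtain ⟨x, hx⟩ : ∃ x, x = g⁻¹ * s * g := ⟨_, rfl⟩
    have hs : s = g * x * g⁻¹ := by
      rw [hx]
      group
    rw [hs]
    by_cases hx0 : (x : Matrix (Fin 2) (Fin 2) F) 1 0 = 0
    · exact hB x hx0
    obtain ⟨b, hb⟩ : ∃ b : SpecialLinearGroup (Fin 2) F, (b : Matrix (Fin 2) (Fin 2) F) =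
        !![(m : Matrix (Fin 2) (Fin 2) F) 1 0 / (x : Matrix (Fin 2) (Fin 2) F) 1 0,
          ((x : Matrix (Fin 2) (Fin 2) F) 0 0 - (m : Matrix (Fin 2) (Fin 2) F) 1 0 /
            (x : Matrix (Fin 2) (Fin 2) F) 1 0 * (m : Matrix (Fin 2) (Fin 2) F) 0 0) /
            (m : Matrix (Fin 2) (Fin 2) F) 1 0;
          0, (x : Matrix (Fin 2) (Fin 2) F) 1 0 / (m : Matrix (Fin 2) (Fin 2) F) 1 0] :=
      ⟨⟨_, by
        rw [Matrix.det_fin_two_of, mul_zero, sub_zero]
        field_simp⟩, rfl⟩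
    have hb0 : (b : Matrix (Fin 2) (Fin 2) F) 1 0 = 0 := by
      rw [hb]
      rfl
    have h00 : ((b * m : SpecialLinearGroup (Fin 2) F) : Matrix (Fin 2) (Fin 2) F) 0 0 =
        (x : Matrix (Fin 2) (Fin 2) F) 0 0 := by
      rw [Matrix.SpecialLinearGroup.coe_mul, Matrix.mul_apply, Fin.sum_univ_two, hb]
      simp only [Matrix.of_apply, Matrix.cons_val', Matrix.cons_val_zero, Matrix.cons_val_one,
        Matrix.cons_val_fin_one]
      field_simp
      ring
    have h10 : ((b * m : SpecialLinearGroup (Fin 2) F) : Matrix (Fin 2) (Fin 2) F) 1 0 =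
        (x : Matrix (Fin 2) (Fin 2) F) 1 0 := by
      rw [Matrix.SpecialLinearGroup.coe_mul, Matrix.mul_apply, Fin.sum_univ_two, hb]
      simp only [Matrix.of_apply, Matrix.cons_val', Matrix.cons_val_zero, Matrix.cons_val_one,
        Matrix.cons_val_fin_one]
      field_simp
      ring
    have h2 : (((b * m)⁻¹ * x : SpecialLinearGroup (Fin 2) F) : Matrix (Fin 2) (Fin 2) F) 1 0 = 0 := by
      rw [N2T_inv10, h00, h10]
      ring
    have e : g * x * g⁻¹ = (g * b * g⁻¹) * (g * m * g⁻¹) * (g * ((b * m)⁻¹ * x) * g⁻¹) := by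
      group
    rw [e]
    exact K.mul_mem (K.mul_mem (hB b hb0) hm) (hB _ h2)
  -- conclusion
  obtain ⟨v, hv⟩ : ∃ v, v = (g : Matrix (Fin 2) (Fin 2) F).mulVec (Pi.single 0 1) := ⟨_, rfl⟩
  have hv' : ((g⁻¹ : SpecialLinearGroup (Fin 2) F) : Matrix (Fin 2) (Fin 2) F).mulVec v =
      Pi.single 0 1 := by
    rw [hv]
    exact stw_inv_mulVec g _
  refine ⟨v, ?_, fun s => ?_⟩
  · intro h0
    rw [h0, Matrix.mulVec_zero] at hv'
    have h1 := congrFun hv' 0
    rw [Pi.zero_apply, Pi.single_eq_same] at h1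
    exact zero_ne_one h1
  · have es : s = g * (g⁻¹ * s * g) * g⁻¹ := by group
    have e1 : ((g⁻¹ * s * g : SpecialLinearGroup (Fin 2) F) : Matrix (Fin 2) (Fin 2) F).mulVec
        (Pi.single 0 1) = ((g⁻¹ : SpecialLinearGroup (Fin 2) F) : Matrix (Fin 2) (Fin 2) F).mulVec
          ((s : Matrix (Fin 2) (Fin 2) F).mulVec v) := by
      rw [Matrix.SpecialLinearGroup.coe_mul, Matrix.SpecialLinearGroup.coe_mul,
        ← Matrix.mulVec_mulVec, ← Matrix.mulVec_mulVec, hv]
    rw [mem_stW_span]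
    constructor
    · intro hs
      rw [es] at hs
      have h0 := hout _ hs
      refine ⟨((g⁻¹ * s * g : SpecialLinearGroup (Fin 2) F) : Matrix (Fin 2) (Fin 2) F) 0 0, ?_⟩
      have e2 : ((g⁻¹ * s * g : SpecialLinearGroup (Fin 2) F) : Matrix (Fin 2) (Fin 2) F).mulVec
          (Pi.single 0 1) = (((g⁻¹ * s * g : SpecialLinearGroup (Fin 2) F) :
            Matrix (Fin 2) (Fin 2) F) 0 0) • (Pi.single 0 1 : Fin 2 → F) := by
        funext i
        rw [Matrix.mulVec_single_one]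
        fin_cases i
        · simp
        · simpa using h0
      rw [e1] at e2
      have e3 := congrArg (fun w => (g : Matrix (Fin 2) (Fin 2) F).mulVec w) e2
      simp only [Matrix.mulVec_smul] at e3
      rw [stw_mulVec_inv, ← hv] at e3
      exact e3
    · rintro ⟨c, hc⟩
      rw [es]
      refine hB _ ?_
      rw [hc, Matrix.mulVec_smul, hv'] at e1
      have e2 := congrFun e1 1
      rw [Matrix.mulVec_single_one] at e2
      simpa using e2

end Lin43
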