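import Pool.Agent.Lib.MP_43150e_al.Lin.E2

/-! # Invariant subspaces of a group `K` with `MeetsU K` -/

set_option autoImplicit false

namespace Lin43

open Matrix Module

variable {m : ℕ} {F : Type*} [Field F]

theorem slc_mul {n : ℕ} (a b : SpecialLinearGroup (Fin n) F) :
    ((a * b : SpecialLinearGroup (Fin n) F) : Matrix (Fin n) (Fin n) F) =
      (a : Matrix (Fin n) (Fin n) F) * (b : Matrix (Fin n) (Fin n) F) := rfl

theorem slc_one {n : ℕ} :
    ((1 : SpecialLinearGroup (Fin n) F) : Matrix (Fin n) (Fin n) F) = 1 := rfl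

theorem sl_inj {n : ℕ} (g : SpecialLinearGroup (Fin n) F) {v w : Fin n → F}
    (h : (g : Matrix (Fin n) (Fin n) F).mulVec v = (g : Matrix (Fin n) (Fin n) F).mulVec w) :
    v = w := by
  have h1 : (g⁻¹ * g : SpecialLinearGroup (Fin n) F) = 1 := inv_mul_cancel g
  have h2 : ((g⁻¹ : SpecialLinearGroup (Fin n) F) : Matrix (Fin n) (Fin n) F) *
      (g : Matrix (Fin n) (Fin n) F) = 1 := by
    rw [← slc_mul, h1, slc_one]
  have h3 := congrArg (((g⁻¹ : SpecialLinearGroup (Fin n) F) :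
    Matrix (Fin n) (Fin n) F).mulVec) h
  rwa [Matrix.mulVec_mulVec, Matrix.mulVec_mulVec, h2, Matrix.one_mulVec,
    Matrix.one_mulVec] at h3

theorem sl_mul_inv_mulVec {n : ℕ} (g : SpecialLinearGroup (Fin n) F) (v : Fin n → F) :
    (g : Matrix (Fin n) (Fin n) F).mulVec
      (((g⁻¹ : SpecialLinearGroup (Fin n) F) : Matrix (Fin n) (Fin n) F).mulVec v) = v := by
  rw [Matrix.mulVec_mulVec, ← slc_mul, mul_inv_cancel,
    slc_one, Matrix.one_mulVec]

/-- The basic argument: `x_a = x_b = 0` on `K^g ∩ U`. -/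
theorem red_core (K : Subgroup (SpecialLinearGroup (Fin (m + 1)) F)) (hK : MeetsU K)
    (X Y : Submodule F (Fin (m + 1) → F))
    (hX : ∀ k ∈ K, ∀ w ∈ X, (k : Matrix (Fin (m + 1)) (Fin (m + 1)) F).mulVec w ∈ X)
    (hY : ∀ k ∈ K, ∀ w ∈ Y, (k : Matrix (Fin (m + 1)) (Fin (m + 1)) F).mulVec w ∈ Y)
    (g : SpecialLinearGroup (Fin (m + 1)) F) (a b : Fin m) (hab : a ≠ b)
    (h1 : (g : Matrix (Fin (m + 1)) (Fin (m + 1)) F).mulVec (Pi.single a.succ 1) ∈ X)
    (h2 : ∀ v, (g : Matrix (Fin (m + 1)) (Fin (m + 1)) F).mulVec v ∈ X → v a.castSucc = 0)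
    (h3 : (g : Matrix (Fin (m + 1)) (Fin (m + 1)) F).mulVec (Pi.single b.succ 1) ∈ Y)
    (h4 : ∀ v, (g : Matrix (Fin (m + 1)) (Fin (m + 1)) F).mulVec v ∈ Y → v b.castSucc = 0) :
    False := by
  obtain ⟨u, -, hu, hne⟩ := hK g a b hab
  have key : ∀ (Z : Submodule F (Fin (m + 1) → F)),
      (∀ k ∈ K, ∀ w ∈ Z, (k : Matrix (Fin (m + 1)) (Fin (m + 1)) F).mulVec w ∈ Z) →
      ∀ c : Fin m,
      (g : Matrix (Fin (m + 1)) (Fin (m + 1)) F).mulVec (Pi.single c.succ 1) ∈ Z →
      (∀ v, (g : Matrix (Fin (m + 1)) (Fin (m + 1)) F).mulVec v ∈ Z → v c.castSucc = 0) →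
      (u : Matrix (Fin (m + 1)) (Fin (m + 1)) F) c.castSucc c.succ = 0 := by
    intro Z hZ c hc1 hc2
    have h5 := hZ _ hu _ hc1
    rw [Matrix.mulVec_mulVec, ← slc_mul, inv_mul_cancel_right,
      slc_mul, ← Matrix.mulVec_mulVec] at h5
    have h6 := hc2 _ h5
    rwa [Matrix.mulVec_single_one, Matrix.col_apply] at h6
  apply hne
  rw [key X hX a h1 h2, key Y hY b h3 h4, add_zero]

/-- Paragraph 3: if `2 ≤ dim W ≤ n - 2` choose `g` with `g⁻¹ W = ⟨e_i : i ∈ I⟩`, `0, 2 ∉ I`, `1, 3 ∈ I`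
(`sl_coord`): then `x_0 = x_2 = 0` on `K^g ∩ U`. -/
theorem redA (hm : 2 ≤ m) (K : Subgroup (SpecialLinearGroup (Fin (m + 1)) F))
    (hK : MeetsU K) (W : Submodule F (Fin (m + 1) → F))
    (hW : ∀ k ∈ K, ∀ w ∈ W, (k : Matrix (Fin (m + 1)) (Fin (m + 1)) F).mulVec w ∈ W)
    (h0 : W ≠ ⊥) (h1 : W ≠ ⊤) : finrank F W = 1 ∨ finrank F W + 1 = m + 1 := by
  by_contra hcon
  rw [not_or] at hcon
  obtain ⟨hc1, hc2⟩ := hcon
  have hd0 : finrank F W ≠ 0 := by
    intro h
    exact h0 (Submodule.finrank_eq_zero.1 h)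
  have hd1 : finrank F W < m + 1 := by
    have := Submodule.finrank_lt h1
    rwa [Module.finrank_fin_fun] at this
  have hm3 : 3 ≤ m := by omega
  let i0 : Fin (m + 1) := ⟨0, by omega⟩
  let i1 : Fin (m + 1) := ⟨1, by omega⟩
  let i2 : Fin (m + 1) := ⟨2, by omega⟩
  let i3 : Fin (m + 1) := ⟨3, by omega⟩
  let S : Finset (Fin (m + 1)) := {i1, i3}
  let T : Finset (Fin (m + 1)) := Finset.univ \ {i0, i2}
  have hST : S ⊆ T := by
    intro i hi
    simp only [S, Finset.mem_insert, Finset.mem_singleton] at hi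
    simp only [T, Finset.mem_sdiff, Finset.mem_univ, true_and, Finset.mem_insert,
      Finset.mem_singleton, not_or]
    rcases hi with rfl | rfl
    · exact ⟨by simp [i0, i1, Fin.ext_iff], by simp [i1, i2, Fin.ext_iff]⟩
    · exact ⟨by simp [i0, i3, Fin.ext_iff], by simp [i3, i2, Fin.ext_iff]⟩
  have hS : S.card = 2 := Finset.card_pair (by simp [i1, i3, Fin.ext_iff])
  have hT : T.card = m - 1 := by
    have h2 : ({i0, i2} : Finset (Fin (m + 1))).card = 2 :=
      Finset.card_pair (by simp [i0, i2, Fin.ext_iff])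
    simp only [T]
    rw [Finset.card_sdiff_of_subset (Finset.subset_univ _), h2, Finset.card_univ,
      Fintype.card_fin]
    omega
  obtain ⟨I, hSI, hIT, hI⟩ := Finset.exists_subsuperset_card_eq hST
    (n := finrank F W) (by omega) (by omega)
  obtain ⟨g, hg⟩ := sl_coord W I hI.symm
  have n0 : i0 ∉ I := fun h => by
    have := hIT h
    simp [T] at this
  have n2 : i2 ∉ I := fun h => by
    have := hIT h
    simp [T] at this
  have m1 : i1 ∈ I := hSI (by simp [S])
  have m3 : i3 ∈ I := hSI (by simp [S])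
  refine red_core K hK W W hW hW g ⟨0, by omega⟩ ⟨2, by omega⟩ (by simp [Fin.ext_iff]) ?_ ?_ ?_ ?_
  · rw [hg]
    intro i hi
    rw [Pi.single_apply, if_neg]
    intro h
    exact hi (h ▸ m1)
  · intro v hv
    exact (hg v).1 hv i0 n0
  · rw [hg]
    intro i hi
    rw [Pi.single_apply, if_neg]
    intro h
    exact hi (h ▸ m3)
  · intro v hv
    exact (hg v).1 hv i2 n2

/-- A vector of a line. -/
theorem exists_span_of_finrank_one {n : ℕ} (W : Submodule F (Fin n → F)) (h : finrank F W = 1) :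
    ∃ w : Fin n → F, w ≠ 0 ∧ W = Submodule.span F {w} := by
  obtain ⟨w, hw0, hw⟩ := finrank_eq_one_iff'.1 h
  refine ⟨w.1, fun h => hw0 (Subtype.ext h), ?_⟩
  apply le_antisymm
  · intro x hx
    obtain ⟨c, hc⟩ := hw ⟨x, hx⟩
    rw [Submodule.mem_span_singleton]
    exact ⟨c, by rw [← Submodule.coe_smul, hc]⟩
  · rw [Submodule.span_le, Set.singleton_subset_iff]
    exact w.2

theorem redB_pp (hm : 2 ≤ m) (K : Subgroup (SpecialLinearGroup (Fin (m + 1)) F))
    (hK : MeetsU K) (W W' : Submodule F (Fin (m + 1) → F))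
    (hW : ∀ k ∈ K, ∀ w ∈ W, (k : Matrix (Fin (m + 1)) (Fin (m + 1)) F).mulVec w ∈ W)
    (hW' : ∀ k ∈ K, ∀ w ∈ W', (k : Matrix (Fin (m + 1)) (Fin (m + 1)) F).mulVec w ∈ W')
    (h : finrank F W = 1) (h' : finrank F W' = 1) : W = W' := by
  by_contra hne
  obtain ⟨w, hw0, hw⟩ := exists_span_of_finrank_one W h
  obtain ⟨w', hw0', hw'⟩ := exists_span_of_finrank_one W' h'
  let a : Fin m := ⟨0, by omega⟩
  let b : Fin m := ⟨1, by omega⟩
  have hli : LinearIndependent F ![w, w'] := by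
    rw [LinearIndependent.pair_iff' hw0]
    intro c hc
    apply hne
    rw [hw, hw', ← hc]
    have hc0 : c ≠ 0 := by
      rintro rfl
      exact hw0' (by rw [← hc, zero_smul])
    exact (Submodule.span_singleton_smul_eq (IsUnit.mk0 c hc0) w).symm
  have hli' : LinearIndependent F
      ![(Pi.single a.succ 1 : Fin (m + 1) → F), (Pi.single b.succ 1 : Fin (m + 1) → F)] := by
    rw [LinearIndependent.pair_iff]
    intro s t hst
    have e1 := congrFun hst a.succ
    have e2 := congrFun hst b.succ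
    have hab : a.succ ≠ b.succ := by simp [a, b, Fin.ext_iff]
    simp only [Pi.add_apply, Pi.smul_apply, Pi.single_eq_same, smul_eq_mul, mul_one,
      Pi.single_eq_of_ne hab, Pi.single_eq_of_ne hab.symm, mul_zero, add_zero, zero_add,
      Pi.zero_apply] at e1 e2
    exact ⟨e1, e2⟩
  obtain ⟨s, c, hc, h1, h2⟩ := sl_frame 2 (by norm_num) _ _ hli' hli
  have h3 := h2 1 (by decide)
  simp only [Matrix.cons_val_one, Matrix.cons_val_zero, Fin.zero_eta] at h1 h3
  have key : ∀ (x : Fin (m + 1) → F) (d : F) (i : Fin m), d ≠ 0 →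
      (s : Matrix (Fin (m + 1)) (Fin (m + 1)) F).mulVec (Pi.single i.succ 1) = d • x →
      ∀ v, (s : Matrix (Fin (m + 1)) (Fin (m + 1)) F).mulVec v ∈ Submodule.span F {x} →
      v i.castSucc = 0 := by
    intro x d i hd hx v hv
    obtain ⟨e, he⟩ := Submodule.mem_span_singleton.1 hv
    have h5 : v = (e * d⁻¹) • (Pi.single i.succ 1 : Fin (m + 1) → F) := by
      apply sl_inj s
      rw [Matrix.mulVec_smul, hx, smul_smul, mul_assoc, inv_mul_cancel₀ hd, mul_one, he]
    rw [h5, Pi.smul_apply, Pi.single_apply, if_neg, smul_zero]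
    exact (Fin.castSucc_lt_succ).ne
  refine red_core K hK W W' hW hW' s a b (by simp [a, b, Fin.ext_iff]) ?_ ?_ ?_ ?_
  · rw [h1, hw]
    exact Submodule.smul_mem _ _ (Submodule.mem_span_singleton_self w)
  · rw [hw]
    exact key w c a hc h1
  · rw [h3, hw']
    exact Submodule.mem_span_singleton_self w'
  · rw [hw']
    exact key w' 1 b one_ne_zero (by rw [h3, one_smul])

theorem redB_hh (hm : 2 ≤ m) (K : Subgroup (SpecialLinearGroup (Fin (m + 1)) F))
    (hK : MeetsU K) (W W' : Submodule F (Fin (m + 1) → F))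
    (hW : ∀ k ∈ K, ∀ w ∈ W, (k : Matrix (Fin (m + 1)) (Fin (m + 1)) F).mulVec w ∈ W)
    (hW' : ∀ k ∈ K, ∀ w ∈ W', (k : Matrix (Fin (m + 1)) (Fin (m + 1)) F).mulVec w ∈ W')
    (h : finrank F W + 1 = m + 1) (h' : finrank F W' + 1 = m + 1) : W = W' := by
  by_contra hne
  obtain ⟨w, hw0, hw⟩ := exists_kerφ W h
  obtain ⟨w', hw0', hw'⟩ := exists_kerφ W' h'
  let a : Fin m := ⟨0, by omega⟩
  let b : Fin m := ⟨1, by omega⟩
  have hli : LinearIndependent F ![w, w'] := by
    rw [LinearIndependent.pair_iff' hw0]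
    intro c hc
    apply hne
    have hc0 : c ≠ 0 := by
      rintro rfl
      exact hw0' (by rw [← hc, zero_smul])
    rw [hw, hw', ← hc]
    ext v
    rw [mem_kerφ, mem_kerφ, smul_dotProduct, smul_eq_mul, mul_eq_zero, or_iff_right hc0]
  have hli' : LinearIndependent F
      ![(Pi.single a.castSucc 1 : Fin (m + 1) → F),
        (Pi.single b.castSucc 1 : Fin (m + 1) → F)] := by
    rw [LinearIndependent.pair_iff]
    intro s t hst
    have e1 := congrFun hst a.castSucc
    have e2 := congrFun hst b.castSucc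
    have hab : a.castSucc ≠ b.castSucc := by simp [a, b, Fin.ext_iff]
    simp only [Pi.add_apply, Pi.smul_apply, Pi.single_eq_same, smul_eq_mul, mul_one,
      Pi.single_eq_of_ne hab, Pi.single_eq_of_ne hab.symm, mul_zero, add_zero, zero_add,
      Pi.zero_apply] at e1 e2
    exact ⟨e1, e2⟩
  obtain ⟨s, c, hc, h1, h2⟩ := sl_frame 2 (by norm_num) _ _ hli' hli
  have h3 := h2 1 (by decide)
  simp only [Matrix.cons_val_one, Matrix.cons_val_zero, Fin.zero_eta] at h1 h3
  let t : SpecialLinearGroup (Fin (m + 1)) F :=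
    ⟨(s : Matrix (Fin (m + 1)) (Fin (m + 1)) F)ᵀ, by rw [Matrix.det_transpose]; exact s.2⟩
  have key : ∀ (x : Fin (m + 1) → F) (d : F) (i : Fin (m + 1)), d ≠ 0 →
      (s : Matrix (Fin (m + 1)) (Fin (m + 1)) F).mulVec (Pi.single i 1) = d • x →
      ∀ v, ((t⁻¹ : SpecialLinearGroup (Fin (m + 1)) F) :
        Matrix (Fin (m + 1)) (Fin (m + 1)) F).mulVec v ∈ kerφ x ↔ v i = 0 := by
    intro x d i hd hx v
    have h5 : d * (x ⬝ᵥ ((t⁻¹ : SpecialLinearGroup (Fin (m + 1)) F) :
        Matrix (Fin (m + 1)) (Fin (m + 1)) F).mulVec v) = v i := by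
      have h6 : (s : Matrix (Fin (m + 1)) (Fin (m + 1)) F).mulVec (Pi.single i 1) =
          Matrix.vecMul (Pi.single i 1) (t : Matrix (Fin (m + 1)) (Fin (m + 1)) F) := by
        rw [show (t : Matrix (Fin (m + 1)) (Fin (m + 1)) F) =
          (s : Matrix (Fin (m + 1)) (Fin (m + 1)) F)ᵀ from rfl, Matrix.vecMul_transpose]
      rw [← smul_eq_mul, ← smul_dotProduct, ← hx, h6, ← Matrix.dotProduct_mulVec,
        sl_mul_inv_mulVec, single_one_dotProduct]
    rw [mem_kerφ, ← h5, mul_eq_zero, or_iff_right hd]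
  have k1 := key w c a.castSucc hc h1
  have k2 := key w' 1 b.castSucc one_ne_zero (by rw [h3, one_smul])
  refine red_core K hK W W' hW hW' t⁻¹ a b (by simp [a, b, Fin.ext_iff]) ?_ ?_ ?_ ?_
  · rw [hw, k1, Pi.single_apply, if_neg]
    exact (Fin.castSucc_lt_succ).ne
  · rw [hw]
    exact fun v => (k1 v).1
  · rw [hw', k2, Pi.single_apply, if_neg]
    exact (Fin.castSucc_lt_succ).ne
  · rw [hw']
    exact fun v => (k2 v).1

theorem redB_ph (hm : 2 ≤ m) (K : Subgroup (SpecialLinearGroup (Fin (m + 1)) F))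
    (hK : MeetsU K) (W W' : Submodule F (Fin (m + 1) → F))
    (hW : ∀ k ∈ K, ∀ w ∈ W, (k : Matrix (Fin (m + 1)) (Fin (m + 1)) F).mulVec w ∈ W)
    (hW' : ∀ k ∈ K, ∀ w ∈ W', (k : Matrix (Fin (m + 1)) (Fin (m + 1)) F).mulVec w ∈ W')
    (h : finrank F W = 1) (h' : finrank F W' + 1 = m + 1) : False := by
  obtain ⟨w, hw0, hw⟩ := exists_span_of_finrank_one W h
  let a : Fin m := ⟨0, by omega⟩
  let b : Fin m := ⟨1, by omega⟩
  have hab : a ≠ b := by simp [a, b, Fin.ext_iff]
  have key : ∀ (s : SpecialLinearGroup (Fin (m + 1)) F) (d : F) (i : Fin m), d ≠ 0 →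
      (s : Matrix (Fin (m + 1)) (Fin (m + 1)) F).mulVec (Pi.single i.succ 1) = d • w →
      ∀ v, (s : Matrix (Fin (m + 1)) (Fin (m + 1)) F).mulVec v ∈ W →
      v i.castSucc = 0 := by
    intro s d i hd hx v hv
    rw [hw] at hv
    obtain ⟨e, he⟩ := Submodule.mem_span_singleton.1 hv
    have h5 : v = (e * d⁻¹) • (Pi.single i.succ 1 : Fin (m + 1) → F) := by
      apply sl_inj s
      rw [Matrix.mulVec_smul, hx, smul_smul, mul_assoc, inv_mul_cancel₀ hd, mul_one, he]
    rw [h5, Pi.smul_apply, Pi.single_apply, if_neg, smul_zero]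
    exact (Fin.castSucc_lt_succ).ne
  have coord : ∀ i : Fin (m + 1), ∃ g : SpecialLinearGroup (Fin (m + 1)) F,
      ∀ v : Fin (m + 1) → F,
      (g : Matrix (Fin (m + 1)) (Fin (m + 1)) F).mulVec v ∈ W' ↔ v i = 0 := by
    intro i
    obtain ⟨g, hg⟩ := sl_coord W' (Finset.univ.erase i) (by
      rw [Finset.card_erase_of_mem (Finset.mem_univ i), Finset.card_univ, Fintype.card_fin]
      omega)
    refine ⟨g, fun v => ?_⟩
    rw [hg]
    constructor
    · intro h
      exact h i (Finset.notMem_erase i _)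
    · intro h k hk
      have : k = i := by
        by_contra hki
        exact hk (Finset.mem_erase.2 ⟨hki, Finset.mem_univ k⟩)
      rw [this, h]
  by_cases hin : w ∈ W'
  · -- the point lies in the hyperplane
    obtain ⟨g, hg⟩ := coord a.castSucc
    obtain ⟨w0, hw0g⟩ : ∃ w0, (g : Matrix (Fin (m + 1)) (Fin (m + 1)) F).mulVec w0 = w :=
      ⟨_, sl_mul_inv_mulVec g w⟩
    have hz : w0 0 = 0 := by
      have := (hg w0).1 (by rw [hw0g]; exact hin)
      exact this
    let w1 : Fin m → F := fun i => w0 i.succ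
    have hw01 : w0 = Fin.cons 0 w1 := by
      funext i
      refine Fin.cases ?_ (fun i => ?_) i
      · rw [Fin.cons_zero, hz]
      · rw [Fin.cons_succ]
    have hw1 : w1 ≠ 0 := by
      intro h1
      apply hw0
      rw [← hw0g, hw01, h1]
      have : (Fin.cons 0 (0 : Fin m → F) : Fin (m + 1) → F) = 0 := by
        funext i
        refine Fin.cases ?_ (fun i => ?_) i
        · rfl
        · rfl
      rw [this, Matrix.mulVec_zero]
    have hs1 : (Pi.single b 1 : Fin m → F) ≠ 0 := by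
      intro h
      have := congrFun h b
      rw [Pi.single_eq_same, Pi.zero_apply] at this
      exact one_ne_zero this
    obtain ⟨D, hD⟩ := sl_trans hm (Pi.single b 1 : Fin m → F) w1 hs1 hw1
    let H : SpecialLinearGroup (Fin (m + 1)) F :=
      ⟨blk 1 0 (D : Matrix (Fin m) (Fin m) F), by rw [blk_det, one_mul]; exact D.2⟩
    have hH : ∀ (c : F) (v : Fin m → F),
        (H : Matrix (Fin (m + 1)) (Fin (m + 1)) F).mulVec (Fin.cons c v : Fin (m + 1) → F) =
        (Fin.cons c ((D : Matrix (Fin m) (Fin m) F).mulVec v) : Fin (m + 1) → F) := by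
      intro c v
      have := blk_mulVec 1 0 (D : Matrix (Fin m) (Fin m) F) c v
      rw [one_mul, zero_dotProduct, add_zero] at this
      exact this
    have hH0 : ∀ v : Fin (m + 1) → F,
        (H : Matrix (Fin (m + 1)) (Fin (m + 1)) F).mulVec v a.castSucc = v a.castSucc := by
      intro v
      have : v = Fin.cons (v 0) (fun i => v i.succ) := by
        funext i
        refine Fin.cases ?_ (fun i => ?_) i
        · rfl
        · rfl
      rw [this, hH]
      rfl
    have hsb : (Pi.single b.succ 1 : Fin (m + 1) → F) = Fin.cons 0 (Pi.single b 1) := by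
      funext i
      refine Fin.cases ?_ (fun i => ?_) i
      · rw [Fin.cons_zero, Pi.single_apply, if_neg (Fin.succ_ne_zero b).symm]
      · rw [Fin.cons_succ, Pi.single_apply, Pi.single_apply]
        simp only [Fin.succ_inj]
    have hgH : ∀ v, ((g * H : SpecialLinearGroup (Fin (m + 1)) F) :
        Matrix (Fin (m + 1)) (Fin (m + 1)) F).mulVec v ∈ W' ↔ v a.castSucc = 0 := by
      intro v
      rw [slc_mul, ← Matrix.mulVec_mulVec, hg, hH0]
    have hgb : ((g * H : SpecialLinearGroup (Fin (m + 1)) F) :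
        Matrix (Fin (m + 1)) (Fin (m + 1)) F).mulVec (Pi.single b.succ 1) = w := by
      rw [slc_mul, ← Matrix.mulVec_mulVec, hsb, hH, hD, ← hw01, hw0g]
    refine red_core K hK W' W hW' hW (g * H) a b hab ?_ ?_ ?_ ?_
    · rw [hgH, Pi.single_apply, if_neg]
      exact (Fin.castSucc_lt_succ).ne
    · exact fun v => (hgH v).1
    · rw [hgb, hw]
      exact Submodule.mem_span_singleton_self w
    · exact key (g * H) 1 b one_ne_zero (by rw [hgb, one_smul])
  · -- the point lies outside the hyperplane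
    obtain ⟨g, hg⟩ := coord b.castSucc
    obtain ⟨w0, hw0g⟩ : ∃ w0, (g : Matrix (Fin (m + 1)) (Fin (m + 1)) F).mulVec w0 = w :=
      ⟨_, sl_mul_inv_mulVec g w⟩
    have hz : w0 b.castSucc ≠ 0 := by
      intro h0
      have := (hg w0).2 h0
      rw [hw0g] at this
      exact hin this
    have hba : b.castSucc = a.succ := by simp [a, b]
    let φ : Fin (m + 1) → F := Pi.single b.castSucc 1
    let v0 : Fin (m + 1) → F := (w0 b.castSucc)⁻¹ • w0 - Pi.single b.castSucc 1
    have hφ : φ ⬝ᵥ v0 = 0 := by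
      simp only [φ, v0]
      rw [single_one_dotProduct, Pi.sub_apply, Pi.smul_apply, Pi.single_eq_same, smul_eq_mul,
        inv_mul_cancel₀ hz, sub_self]
    let H : SpecialLinearGroup (Fin (m + 1)) F := tvS v0 φ hφ
    have hH : ∀ v : Fin (m + 1) → F,
        (H : Matrix (Fin (m + 1)) (Fin (m + 1)) F).mulVec v = v + v b.castSucc • v0 := by
      intro v
      show (tv v0 φ).mulVec v = _
      rw [tv, Matrix.add_mulVec, Matrix.one_mulVec, Matrix.vecMulVec_mulVec]
      simp only [φ]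
      rw [single_one_dotProduct, op_smul_eq_smul]
    have hH0 : ∀ v : Fin (m + 1) → F,
        (H : Matrix (Fin (m + 1)) (Fin (m + 1)) F).mulVec v b.castSucc = v b.castSucc := by
      intro v
      rw [hH, Pi.add_apply, Pi.smul_apply]
      have : v0 b.castSucc = 0 := by
        have := hφ
        simp only [φ] at this
        rwa [single_one_dotProduct] at this
      rw [this, smul_zero, add_zero]
    have hgH : ∀ v, ((g * H : SpecialLinearGroup (Fin (m + 1)) F) :
        Matrix (Fin (m + 1)) (Fin (m + 1)) F).mulVec v ∈ W' ↔ v b.castSucc = 0 := by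
      intro v
      rw [slc_mul, ← Matrix.mulVec_mulVec, hg, hH0]
    have hga : ((g * H : SpecialLinearGroup (Fin (m + 1)) F) :
        Matrix (Fin (m + 1)) (Fin (m + 1)) F).mulVec (Pi.single a.succ 1) =
        (w0 b.castSucc)⁻¹ • w := by
      rw [slc_mul, ← Matrix.mulVec_mulVec, hH, ← hba, Pi.single_eq_same,
        one_smul, add_sub_cancel, Matrix.mulVec_smul, hw0g]
    refine red_core K hK W W' hW hW' (g * H) a b hab ?_ ?_ ?_ ?_
    · rw [hga, hw]
      exact Submodule.smul_mem _ _ (Submodule.mem_span_singleton_self w)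
    · exact key (g * H) _ a (inv_ne_zero hz) hga
    · rw [hgH, Pi.single_apply, if_neg]
      exact (Fin.castSucc_lt_succ).ne
    · exact fun v => (hgH v).1

/-- Paragraph 3: two different invariant subspaces of dimension `1` or `n - 1` are impossible:
two points `e_1, e_2`; two hyperplanes (omit `e_0`, omit `e_1`); a point `e_1` outside the hyperplane
omitting `e_1`; a point `e_2` in the hyperplane omitting `e_0` (numbering from 0): each time
`x_0 = x_1 = 0` on `K^g ∩ U`. -/
theorem redB (hm : 2 ≤ m) (K : Subgroup (SpecialLinearGroup (Fin (m + 1)) F))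
    (hK : MeetsU K) (W W' : Submodule F (Fin (m + 1) → F))
    (hW : ∀ k ∈ K, ∀ w ∈ W, (k : Matrix (Fin (m + 1)) (Fin (m + 1)) F).mulVec w ∈ W)
    (hW' : ∀ k ∈ K, ∀ w ∈ W', (k : Matrix (Fin (m + 1)) (Fin (m + 1)) F).mulVec w ∈ W')
    (h : finrank F W = 1 ∨ finrank F W + 1 = m + 1)
    (h' : finrank F W' = 1 ∨ finrank F W' + 1 = m + 1) : W = W' := by
  rcases h with h | h <;> rcases h' with h' | h'
  · exact redB_pp hm K hK W W' hW hW' h h'
  · exact (redB_ph hm K hK W W' hW hW' h h').elim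
  · exact (redB_ph hm K hK W' W hW' hW h' h).elim
  · exact redB_hh hm K hK W W' hW hW' h h'

end Lin43
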