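import Pool.Agent.Lib.MP_43150e_al.Prim
import Pool.Agent.Lib.MP_43150e_al.Lin.Red
import Pool.Agent.Lib.MP_43150e_al.Lin.BlockL

/-! # The reducible case, `n ≥ 3`: 2-transitive -/

set_option autoImplicit false

namespace Lin43

open Matrix Module MulAction Spr43

/-- `SL_n(F)` is transitive on the pairs of different images of a line. -/
theorem two_tr_line {n : ℕ} {F : Type*} [Field F] (w : Fin n → F) (hw : w ≠ 0)
    (s₁ s₂ r₁ r₂ : SpecialLinearGroup (Fin n) F)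
    (hs : s₁⁻¹ * s₂ ∉ stW (Submodule.span F {w})) (hr : r₁⁻¹ * r₂ ∉ stW (Submodule.span F {w})) :
    ∃ t : SpecialLinearGroup (Fin n) F, r₁⁻¹ * (t * s₁) ∈ stW (Submodule.span F {w}) ∧
      r₂⁻¹ * (t * s₂) ∈ stW (Submodule.span F {w}) := by
  have key : ∀ a b : SpecialLinearGroup (Fin n) F, a⁻¹ * b ∉ stW (Submodule.span F {w}) →
      LinearIndependent F ![(a : Matrix (Fin n) (Fin n) F).mulVec w,
        (b : Matrix (Fin n) (Fin n) F).mulVec w] := by
    intro a b hab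
    have ha : (a : Matrix (Fin n) (Fin n) F).mulVec w ≠ 0 := by
      intro h
      apply hw
      rw [← stw_inv_mulVec a w, h, Matrix.mulVec_zero]
    rw [LinearIndependent.pair_iff' ha]
    intro c hc
    apply hab
    rw [mem_stW_span]
    refine ⟨c, ?_⟩
    rw [slc_mul, ← Matrix.mulVec_mulVec, ← hc, Matrix.mulVec_smul, stw_inv_mulVec]
  obtain ⟨t, c, -, h1, h2⟩ := sl_frame 2 (by norm_num) _ _ (key s₁ s₂ hs) (key r₁ r₂ hr)
  have h3 := h2 1 (by decide)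
  simp only [Matrix.cons_val_one, Matrix.cons_val_zero, Fin.zero_eta] at h1 h3
  refine ⟨t, ?_, ?_⟩
  · rw [mem_stW_span]
    refine ⟨c, ?_⟩
    rw [slc_mul, slc_mul, ← Matrix.mulVec_mulVec, ← Matrix.mulVec_mulVec, h1, Matrix.mulVec_smul,
      stw_inv_mulVec]
  · rw [mem_stW_span]
    refine ⟨1, ?_⟩
    rw [slc_mul, slc_mul, ← Matrix.mulVec_mulVec, ← Matrix.mulVec_mulVec, h3,
      stw_inv_mulVec, one_smul]

/-- `(φ s) s⁻¹ = φ`. -/
theorem stw_vecMul_inv {n : ℕ} {F : Type*} [Field F] (s : SpecialLinearGroup (Fin n) F)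
    (φ : Fin n → F) :
    Matrix.vecMul (Matrix.vecMul φ (s : Matrix (Fin n) (Fin n) F))
      ((s⁻¹ : SpecialLinearGroup (Fin n) F) : Matrix (Fin n) (Fin n) F) = φ := by
  rw [Matrix.vecMul_vecMul, ← slc_mul, mul_inv_cancel, slc_one, Matrix.vecMul_one]

/-- `(φ s⁻¹) s = φ`. -/
theorem stw_inv_vecMul {n : ℕ} {F : Type*} [Field F] (s : SpecialLinearGroup (Fin n) F)
    (φ : Fin n → F) :
    Matrix.vecMul (Matrix.vecMul φ
      ((s⁻¹ : SpecialLinearGroup (Fin n) F) : Matrix (Fin n) (Fin n) F))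
      (s : Matrix (Fin n) (Fin n) F) = φ := by
  rw [Matrix.vecMul_vecMul, ← slc_mul, inv_mul_cancel, slc_one, Matrix.vecMul_one]

/-- `SL_n(F)` is transitive on the pairs of different images of a hyperplane. -/
theorem two_tr_hyp {n : ℕ} {F : Type*} [Field F] (φ : Fin n → F) (hφ : φ ≠ 0)
    (s₁ s₂ r₁ r₂ : SpecialLinearGroup (Fin n) F)
    (hs : s₁⁻¹ * s₂ ∉ stW (kerφ φ)) (hr : r₁⁻¹ * r₂ ∉ stW (kerφ φ)) :
    ∃ t : SpecialLinearGroup (Fin n) F, r₁⁻¹ * (t * s₁) ∈ stW (kerφ φ) ∧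
      r₂⁻¹ * (t * s₂) ∈ stW (kerφ φ) := by
  have key : ∀ a b : SpecialLinearGroup (Fin n) F, a⁻¹ * b ∉ stW (kerφ φ) →
      LinearIndependent F ![Matrix.vecMul φ
          ((a⁻¹ : SpecialLinearGroup (Fin n) F) : Matrix (Fin n) (Fin n) F),
        Matrix.vecMul φ
          ((b⁻¹ : SpecialLinearGroup (Fin n) F) : Matrix (Fin n) (Fin n) F)] := by
    intro a b hab
    have ha : Matrix.vecMul φ
        ((a⁻¹ : SpecialLinearGroup (Fin n) F) : Matrix (Fin n) (Fin n) F) ≠ 0 := by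
      intro h
      apply hφ
      rw [← stw_inv_vecMul a φ, h, Matrix.zero_vecMul]
    rw [LinearIndependent.pair_iff' ha]
    intro c hc
    apply hab
    rw [mem_stW_kerφ]
    have h1 : φ = c • Matrix.vecMul φ
        ((a⁻¹ * b : SpecialLinearGroup (Fin n) F) : Matrix (Fin n) (Fin n) F) := by
      rw [slc_mul, ← Matrix.vecMul_vecMul, ← Matrix.smul_vecMul, hc, stw_inv_vecMul]
    have hc0 : c ≠ 0 := by
      rintro rfl
      exact hφ (by rw [h1, zero_smul])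
    refine ⟨c⁻¹, ?_⟩
    conv_rhs => rw [h1]
    rw [smul_smul, inv_mul_cancel₀ hc0, one_smul]
  obtain ⟨u, c, -, h1, h2⟩ := sl_frame 2 (by norm_num) _ _ (key r₁ r₂ hr) (key s₁ s₂ hs)
  have h3 := h2 1 (by decide)
  simp only [Matrix.cons_val_one, Matrix.cons_val_zero, Fin.zero_eta] at h1 h3
  let t : SpecialLinearGroup (Fin n) F :=
    ⟨(u : Matrix (Fin n) (Fin n) F)ᵀ, by rw [Matrix.det_transpose]; exact u.2⟩
  have ht : ∀ v : Fin n → F, Matrix.vecMul v (t : Matrix (Fin n) (Fin n) F) =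
      (u : Matrix (Fin n) (Fin n) F).mulVec v := by
    intro v
    rw [show (t : Matrix (Fin n) (Fin n) F) = (u : Matrix (Fin n) (Fin n) F)ᵀ from rfl,
      Matrix.vecMul_transpose]
  refine ⟨t, ?_, ?_⟩
  · rw [mem_stW_kerφ]
    refine ⟨c, ?_⟩
    rw [slc_mul, slc_mul, ← Matrix.vecMul_vecMul, ← Matrix.vecMul_vecMul, ht, h1,
      Matrix.smul_vecMul, stw_inv_vecMul]
  · rw [mem_stW_kerφ]
    refine ⟨1, ?_⟩
    rw [slc_mul, slc_mul, ← Matrix.vecMul_vecMul, ← Matrix.vecMul_vecMul, ht, h3,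
      stw_inv_vecMul, one_smul]

/-- `SL_n(F)` is transitive on the pairs of different images of a line or hyperplane. -/
theorem two_tr_sub {n : ℕ} {F : Type*} [Field F] (W : Submodule F (Fin n → F))
    (hW : finrank F W = 1 ∨ finrank F W + 1 = n)
    (s₁ s₂ r₁ r₂ : SpecialLinearGroup (Fin n) F)
    (hs : s₁⁻¹ * s₂ ∉ stW W) (hr : r₁⁻¹ * r₂ ∉ stW W) :
    ∃ t : SpecialLinearGroup (Fin n) F, r₁⁻¹ * (t * s₁) ∈ stW W ∧
      r₂⁻¹ * (t * s₂) ∈ stW W := by
  rcases hW with h | h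
  · obtain ⟨w, hw, rfl⟩ := exists_span_of_finrank_one W h
    exact two_tr_line w hw s₁ s₂ r₁ r₂ hs hr
  · obtain ⟨φ, hφ, rfl⟩ := exists_kerφ W h
    exact two_tr_hyp φ hφ s₁ s₂ r₁ r₂ hs hr

/-- If the point stabiliser is the stabiliser of a point or hyperplane, the action is
2-transitive (`n ≥ 2`). -/
theorem two_tr_of_stW {n : ℕ} {F Γ Ω : Type*} [Field F] [Group Γ] [MulAction Γ Ω]
    (hn : 2 ≤ n) (j : ProjectiveSpecialLinearGroup (Fin n) F →* Γ)
    (htr : ∀ x y : Ω, ∃ t, j t • x = y) (x : Ω) (W : Submodule F (Fin n → F))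
    (hW : finrank F W = 1 ∨ finrank F W + 1 = n)
    (hK : ∀ s : SpecialLinearGroup (Fin n) F, s ∈ stabS j x ↔ s ∈ stW W) :
    ∀ y z y' z' : Ω, y ≠ z → y' ≠ z' → ∃ t, j t • y = y' ∧ j t • z = z' := by
  have _ := hn
  have hsur : ∀ y : Ω, ∃ s : SpecialLinearGroup (Fin n) F, j (toP n F s) • x = y := by
    intro y
    obtain ⟨t, ht⟩ := htr x y
    obtain ⟨s, hs⟩ := QuotientGroup.mk'_surjective _ t
    exact ⟨s, by rw [toP, hs, ht]⟩
  have hne : ∀ s r : SpecialLinearGroup (Fin n) F,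
      j (toP n F s) • x ≠ j (toP n F r) • x → s⁻¹ * r ∉ stW W := by
    intro s r h hmem
    have h1 := (mem_stabS j x _).1 ((hK _).2 hmem)
    apply h
    rw [map_mul, map_mul, map_inv, map_inv, mul_smul, inv_smul_eq_iff] at h1
    exact h1.symm
  have heq : ∀ r t s : SpecialLinearGroup (Fin n) F, r⁻¹ * (t * s) ∈ stW W →
      j (toP n F t) • j (toP n F s) • x = j (toP n F r) • x := by
    intro r t s hmem
    have h1 := (mem_stabS j x _).1 ((hK _).2 hmem)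
    rw [map_mul, map_mul, map_inv, map_inv, mul_smul, inv_smul_eq_iff, map_mul, map_mul,
      mul_smul] at h1
    exact h1
  intro y z y' z' hyz hyz'
  obtain ⟨s₁, rfl⟩ := hsur y
  obtain ⟨s₂, rfl⟩ := hsur z
  obtain ⟨r₁, rfl⟩ := hsur y'
  obtain ⟨r₂, rfl⟩ := hsur z'
  obtain ⟨t, h1, h2⟩ := two_tr_sub W hW s₁ s₂ r₁ r₂ (hne _ _ hyz) (hne _ _ hyz')
  exact ⟨toP n F t, heq _ _ _ h1, heq _ _ _ h2⟩

/-- Paragraph 3, end: `e2`, `redA`, `redB`, `autP`, `block_lemma` with `P` = image of `stW W`. -/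
theorem red_fin {m : ℕ} {F Γ Ω : Type*} [Field F] [Finite F] [Group Γ] [MulAction Γ Ω]
    [Fintype Ω] [DecidableEq Ω] (hm : 2 ≤ m) (hprim : IsPreprimitive Γ Ω)
    (j : ProjectiveSpecialLinearGroup (Fin (m + 1)) F →* Γ)
    (hj : ∀ g : Γ, ∃ β : ProjectiveSpecialLinearGroup (Fin (m + 1)) F ≃*
      ProjectiveSpecialLinearGroup (Fin (m + 1)) F, ∀ t, j (β t) = g * j t * g⁻¹)
    (htr : ∀ x y : Ω, ∃ t, j t • x = y) (hsp : IsSpreading Γ Ω) (x : Ω)
    (W : Submodule F (Fin (m + 1) → F)) (h0 : W ≠ ⊥) (h1 : W ≠ ⊤)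
    (hW : ∀ k ∈ stabS j x, k ∈ stW W) :
    ∀ y z y' z' : Ω, y ≠ z → y' ≠ z' → ∃ t, j t • y = y' ∧ j t • z = z' := by
  obtain ⟨v, hvW, hv0⟩ := Submodule.exists_mem_ne_zero_of_ne_bot h0
  obtain ⟨w, hwW⟩ : ∃ w, w ∉ W := by
    by_contra hcon
    push Not at hcon
    exact h1 (Submodule.eq_top_iff'.2 hcon)
  have hw0 : w ≠ 0 := by
    rintro rfl
    exact hwW W.zero_mem
  have hM : MeetsU (stabS j x) := by
    refine e2 hm j hj hsp x ⟨v, w, hv0, hw0, ?_⟩
    intro k hk c hc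
    have h2 : (k : Matrix (Fin (m + 1)) (Fin (m + 1)) F).mulVec v ∈ W := hW k hk v hvW
    rcases eq_or_ne c 0 with rfl | hc0
    · rw [zero_smul] at hc
      apply hv0
      rw [← stw_inv_mulVec k v, hc, Matrix.mulVec_zero]
    · apply hwW
      have h3 : w = c⁻¹ • (k : Matrix (Fin (m + 1)) (Fin (m + 1)) F).mulVec v := by
        rw [hc, smul_smul, inv_mul_cancel₀ hc0, one_smul]
      rw [h3]
      exact W.smul_mem _ h2
  have hd : finrank F W = 1 ∨ finrank F W + 1 = m + 1 := redA hm (stabS j x) hM W hW h0 h1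
  have hPK : ∀ t : ProjectiveSpecialLinearGroup (Fin (m + 1)) F, j t • x = x →
      t ∈ (stW W).map (toP (m + 1) F) := by
    intro t ht
    obtain ⟨s, hs⟩ := QuotientGroup.mk'_surjective _ t
    have hs' : toP (m + 1) F s = t := hs
    refine ⟨s, hW s ?_, hs'⟩
    rw [mem_stabS, hs']
    exact ht
  rcases block_lemma hprim j hj htr x ((stW W).map (toP (m + 1) F)) hPK (by
    intro g hg β hβ t ht
    obtain ⟨W', hW', hs⟩ := autP (by omega : 3 ≤ m + 1) β W hd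
    have hg' : g⁻¹ • x = x := by
      rw [inv_smul_eq_iff]
      exact hg.symm
    have hKW : ∀ k ∈ stabS j x, k ∈ stW W' := by
      intro k hk
      rw [← hs]
      apply hPK
      rw [hβ, mul_smul, mul_smul, hg', (mem_stabS j x k).1 hk, hg]
    have hWW : W = W' := redB hm (stabS j x) hM W W' hW hKW hd hW'
    obtain ⟨s, hsW, rfl⟩ := ht
    rw [hs, ← hWW]
    exact hsW) with hP | hP
  · refine two_tr_of_stW (by omega) j htr x W hd fun s => ⟨hW s, fun hs => ?_⟩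
    rw [mem_stabS]
    exact hP _ ((mem_stW_map W s).2 hs)
  · exfalso
    obtain ⟨s, hs⟩ := sl_trans (by omega : 2 ≤ m + 1) v w hv0 hw0
    have h2 : s ∈ stW W := by
      rw [← mem_stW_map, hP]
      exact Subgroup.mem_top _
    apply hwW
    rw [← hs]
    exact h2 v hvW

end Lin43
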