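import Pool.Agent.Lib.MP_43150e_al.Lin.NilU

/-! # Torus elements separate the superdiagonal coordinates (paragraph 6) -/

set_option autoImplicit false

namespace Lin43

open Matrix

section aux

/-- There is `s` with `s² ≠ 1`, `s³ ≠ 1`, `s ≠ 0`. -/
private theorem exists_s {F : Type*} [Field F] [Fintype F] (hq : 59 < Fintype.card F) :
    ∃ s : F, s ≠ 0 ∧ s ^ 2 ≠ 1 ∧ s ^ 3 ≠ 1 := by
  classical
  by_contra hcon
  push Not at hcon
  have h1 : ∀ s : F, s ∈ (Polynomial.X * ((Polynomial.X ^ 2 - Polynomial.C 1) *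
      (Polynomial.X ^ 3 - Polynomial.C 1)) : Polynomial F).roots.toFinset := by
    intro s
    have h2 : (Polynomial.X ^ 2 - Polynomial.C 1 : Polynomial F) ≠ 0 :=
      Polynomial.X_pow_sub_C_ne_zero two_pos 1
    have h3 : (Polynomial.X ^ 3 - Polynomial.C 1 : Polynomial F) ≠ 0 :=
      Polynomial.X_pow_sub_C_ne_zero three_pos 1
    rw [Multiset.mem_toFinset, Polynomial.mem_roots
      (mul_ne_zero Polynomial.X_ne_zero (mul_ne_zero h2 h3)), Polynomial.IsRoot.def]
    simp only [Polynomial.eval_mul, Polynomial.eval_X, Polynomial.eval_sub, Polynomial.eval_pow,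
      Polynomial.eval_C]
    by_cases hs : s = 0
    · rw [hs, zero_mul]
    · by_cases hs2 : s ^ 2 = 1
      · rw [hs2, sub_self, zero_mul, mul_zero]
      · rw [hcon s hs hs2, sub_self, mul_zero, mul_zero]
  have h2 : Fintype.card F ≤ (Polynomial.X * ((Polynomial.X ^ 2 - Polynomial.C 1) *
      (Polynomial.X ^ 3 - Polynomial.C 1)) : Polynomial F).roots.toFinset.card := by
    rw [← Finset.card_univ]
    exact Finset.card_le_card fun s _ => h1 s
  have h3 := (Multiset.toFinset_card_le (Polynomial.X * ((Polynomial.X ^ 2 - Polynomial.C 1) *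
      (Polynomial.X ^ 3 - Polynomial.C 1)) : Polynomial F).roots).trans
      (Polynomial.card_roots' _)
  have h4 : (Polynomial.X * ((Polynomial.X ^ 2 - Polynomial.C 1) *
      (Polynomial.X ^ 3 - Polynomial.C 1)) : Polynomial F).natDegree ≤ 1 + (2 + 3) := by
    refine Polynomial.natDegree_mul_le.trans (add_le_add Polynomial.natDegree_X_le ?_)
    refine Polynomial.natDegree_mul_le.trans (add_le_add ?_ ?_)
    · rw [Polynomial.natDegree_X_pow_sub_C]
    · rw [Polynomial.natDegree_X_pow_sub_C]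
  omega

/-- The torus elements. -/
private theorem exists_t {m : ℕ} {F : Type*} [Field F] [Fintype F] (hq : 59 < Fintype.card F)
    {a b : Fin m} (hab : b ≠ a) : ∃ t : Fin (m + 1) → F, ∏ i, t i = 1 ∧
      t b.castSucc = t b.succ ∧ t a.castSucc ≠ t a.succ := by
  classical
  obtain ⟨s, hs0, hs2, hs3⟩ := exists_s hq
  have hbne : b.castSucc ≠ b.succ := by
    intro h
    have := congrArg Fin.val h
    rw [Fin.val_castSucc, Fin.val_succ] at this
    omega
  have hane : a.castSucc ≠ a.succ := by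
    intro h
    have := congrArg Fin.val h
    rw [Fin.val_castSucc, Fin.val_succ] at this
    omega
  have hab' : (b : ℕ) ≠ a := fun h => hab (Fin.ext h)
  -- the general construction
  have key : ∀ c0 c1 : Fin (m + 1), c0 ≠ c1 → c0 ≠ b.castSucc → c0 ≠ b.succ →
      ∃ t : Fin (m + 1) → F, ∏ i, t i = 1 ∧ t b.castSucc = t b.succ ∧ t c0 ≠ t c1 := by
    intro c0 c1 h01 h0 h0'
    refine ⟨fun j => (if j = c0 then (s ^ 2)⁻¹ else 1) * ((if j = b.castSucc then s else 1) *
      (if j = b.succ then s else 1)), ?_, ?_, ?_⟩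
    · rw [Finset.prod_mul_distrib, Finset.prod_mul_distrib, Finset.prod_ite_eq',
        Finset.prod_ite_eq', Finset.prod_ite_eq', if_pos (Finset.mem_univ _),
        if_pos (Finset.mem_univ _), if_pos (Finset.mem_univ _), ← sq,
        inv_mul_cancel₀ (pow_ne_zero 2 hs0)]
    · dsimp only
      rw [if_neg h0.symm, if_pos rfl, if_neg hbne, if_neg h0'.symm, if_neg hbne.symm,
        if_pos rfl, one_mul, mul_one, one_mul, one_mul]
    · dsimp only
      rw [if_pos rfl, if_neg h0, if_neg h0', if_neg h01.symm, one_mul, mul_one, one_mul]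
      by_cases h1 : c1 = b.castSucc
      · rw [if_pos h1, if_neg (h1 ▸ hbne), mul_one]
        intro h2
        apply hs3
        calc s ^ 3 = s ^ 2 * s := pow_succ s 2
          _ = s ^ 2 * (s ^ 2)⁻¹ := by rw [h2]
          _ = 1 := mul_inv_cancel₀ (pow_ne_zero 2 hs0)
      · rw [if_neg h1, one_mul]
        by_cases h3 : c1 = b.succ
        · rw [if_pos h3]
          intro h2
          apply hs3
          calc s ^ 3 = s ^ 2 * s := pow_succ s 2
            _ = s ^ 2 * (s ^ 2)⁻¹ := by rw [h2]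
            _ = 1 := mul_inv_cancel₀ (pow_ne_zero 2 hs0)
        · rw [if_neg h3]
          intro h2
          apply hs2
          exact inv_eq_one.1 h2
  by_cases h : (a : ℕ) < b
  · refine key a.castSucc a.succ hane ?_ ?_
    · intro h1
      have := congrArg Fin.val h1
      rw [Fin.val_castSucc, Fin.val_castSucc] at this
      omega
    · intro h1
      have := congrArg Fin.val h1
      rw [Fin.val_castSucc, Fin.val_succ] at this
      omega
  · obtain ⟨t, h1, h2, h3⟩ := key a.succ a.castSucc hane.symm (by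
      intro h1
      have := congrArg Fin.val h1
      rw [Fin.val_succ, Fin.val_castSucc] at this
      omega) (by
      intro h1
      have := congrArg Fin.val h1
      rw [Fin.val_succ, Fin.val_succ] at this
      omega)
    exact ⟨t, h1, h2, h3.symm⟩

/-- The superdiagonals of `Q ∩ U`. -/
private def Vs {m : ℕ} {F : Type*} [Field F] (Q : Subgroup (SpecialLinearGroup (Fin (m + 1)) F))
    (v : Fin m → F) : Prop :=
  ∃ u ∈ Q, UU (u : Matrix (Fin (m + 1)) (Fin (m + 1)) F) ∧
    ∀ a, (u : Matrix (Fin (m + 1)) (Fin (m + 1)) F) a.castSucc a.succ = v a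

variable {m : ℕ} {F : Type*} [Field F] {Q : Subgroup (SpecialLinearGroup (Fin (m + 1)) F)}

private theorem Vs.zero : Vs Q (0 : Fin m → F) := by
  refine ⟨1, Q.one_mem, UU.one, ?_⟩
  intro a
  rw [Matrix.SpecialLinearGroup.coe_one, Matrix.one_apply_ne, Pi.zero_apply]
  intro h
  have := congrArg Fin.val h
  rw [Fin.val_castSucc, Fin.val_succ] at this
  omega

private theorem Vs.add {v v' : Fin m → F} (h : Vs Q v) (h' : Vs Q v') : Vs Q (v + v') := by
  obtain ⟨u, hu, h1, h2⟩ := h
  obtain ⟨u', hu', h1', h2'⟩ := h'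
  refine ⟨u * u', Q.mul_mem hu hu', ?_, ?_⟩
  · rw [Matrix.SpecialLinearGroup.coe_mul]
    exact h1.mul h1'
  · intro a
    rw [Matrix.SpecialLinearGroup.coe_mul,
      h1.superdiag h1' _ _ (by rw [Fin.val_castSucc, Fin.val_succ]), h2, h2', Pi.add_apply]

private theorem Vs.neg {v : Fin m → F} (h : Vs Q v) : Vs Q (-v) := by
  obtain ⟨u, hu, h1, h2⟩ := h
  have h3 : UU ((u⁻¹ : SpecialLinearGroup (Fin (m + 1)) F) :
      Matrix (Fin (m + 1)) (Fin (m + 1)) F) := (uniS (m + 1) F).inv_mem h1
  refine ⟨u⁻¹, Q.inv_mem hu, h3, ?_⟩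
  intro a
  have h4 := h1.superdiag h3 a.castSucc a.succ (by rw [Fin.val_castSucc, Fin.val_succ])
  rw [← Matrix.SpecialLinearGroup.coe_mul, mul_inv_cancel, Matrix.SpecialLinearGroup.coe_one,
    Matrix.one_apply_ne, h2] at h4
  · rw [Pi.neg_apply]
    exact (neg_eq_of_add_eq_zero_right h4.symm).symm
  · intro h
    have := congrArg Fin.val h
    rw [Fin.val_castSucc, Fin.val_succ] at this
    omega

/-- Conjugation by torus elements. -/
private theorem Vs.conj {t : Fin (m + 1) → F} (ht : ∏ i, t i = 1)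
    (hT : ∃ b ∈ Q, UT (b : Matrix (Fin (m + 1)) (Fin (m + 1)) F) ∧
      ∀ i, (b : Matrix (Fin (m + 1)) (Fin (m + 1)) F) i i = t i) {v : Fin m → F} (h : Vs Q v) :
    Vs Q fun a => t a.castSucc / t a.succ * v a := by
  obtain ⟨b, hb, hb1, hb2⟩ := hT
  obtain ⟨u, hu, h1, h2⟩ := h
  have ht0 : ∀ i, t i ≠ 0 := by
    intro i hi
    rw [Finset.prod_eq_zero (Finset.mem_univ i) hi] at ht
    exact zero_ne_one ht
  have hbi : UT ((b⁻¹ : SpecialLinearGroup (Fin (m + 1)) F) :
      Matrix (Fin (m + 1)) (Fin (m + 1)) F) := (borelS (m + 1) F).inv_mem hb1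
  have hbb : ∀ i, ((b⁻¹ : SpecialLinearGroup (Fin (m + 1)) F) :
      Matrix (Fin (m + 1)) (Fin (m + 1)) F) i i = (t i)⁻¹ := by
    intro i
    have h3 := hb1.mul_diag hbi i
    rw [← Matrix.SpecialLinearGroup.coe_mul, mul_inv_cancel, Matrix.SpecialLinearGroup.coe_one,
      Matrix.one_apply_eq, hb2] at h3
    exact eq_inv_of_mul_eq_one_right h3.symm
  have hbu : UT ((b * u : SpecialLinearGroup (Fin (m + 1)) F) :
      Matrix (Fin (m + 1)) (Fin (m + 1)) F) := (borelS (m + 1) F).mul_mem hb1 h1.1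
  have hw : UU ((b * u * b⁻¹ : SpecialLinearGroup (Fin (m + 1)) F) :
      Matrix (Fin (m + 1)) (Fin (m + 1)) F) := by
    constructor
    · exact (borelS (m + 1) F).mul_mem hbu hbi
    · intro i
      rw [Matrix.SpecialLinearGroup.coe_mul, hbu.mul_diag hbi, Matrix.SpecialLinearGroup.coe_mul,
        hb1.mul_diag h1.1, hb2, h1.2, hbb, mul_one, mul_inv_cancel₀ (ht0 i)]
  refine ⟨b * u * b⁻¹, Q.mul_mem (Q.mul_mem hb hu) (Q.inv_mem hb), hw, ?_⟩
  intro a
  have hs : ((a.castSucc : Fin (m + 1)) : ℕ) + 1 = (a.succ : Fin (m + 1)) := by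
    rw [Fin.val_castSucc, Fin.val_succ]
  have h3 := hb1.superdiag h1.1 a.castSucc a.succ hs
  have h4 := hw.1.superdiag hb1 a.castSucc a.succ hs
  rw [← Matrix.SpecialLinearGroup.coe_mul] at h3 h4
  rw [inv_mul_cancel_right, h3, hb2, h1.2, h2, hw.2, hb2, mul_one, one_mul, add_comm] at h4
  have h5 := add_left_cancel h4
  dsimp only
  rw [div_mul_eq_mul_div, h5, mul_div_cancel_right₀ _ (ht0 _)]

end aux

/-- `V` = superdiagonals of `Q ∩ U` is an additive subgroup of `F^m`, invariant under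
`v_a ↦ (t_a / t_(a+1)) v_a` for every `t` of product one, and projects onto each coordinate. For `b ≠ a`
there is `t` with `t_b = t_(b+1)` and `t_a ≠ t_(a+1)` (`s, s⁻¹` at `a, a+1` if `b` is not adjacent,
`s, s, s⁻²` otherwise; `s² ≠ 1 ≠ s³`); the product over `b ≠ a` of the operators `t^(b) - 1` kills all
coordinates `b ≠ a` and multiplies the coordinate `a` by a nonzero constant. -/
theorem tfb {m : ℕ} (hm : 2 ≤ m) {F : Type*} [Field F] [Fintype F]
    (hq : 59 < Fintype.card F) (Q : Subgroup (SpecialLinearGroup (Fin (m + 1)) F))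
    (hT : ∀ t : Fin (m + 1) → F, ∏ i, t i = 1 → ∃ b ∈ Q,
      UT (b : Matrix (Fin (m + 1)) (Fin (m + 1)) F) ∧
      ∀ i, (b : Matrix (Fin (m + 1)) (Fin (m + 1)) F) i i = t i)
    (hU : ∀ (a : Fin m) (c : F), ∃ u ∈ Q, UU (u : Matrix (Fin (m + 1)) (Fin (m + 1)) F) ∧
      (u : Matrix (Fin (m + 1)) (Fin (m + 1)) F) a.castSucc a.succ = c) :
    ∀ v : Fin m → F, ∃ u ∈ Q, UU (u : Matrix (Fin (m + 1)) (Fin (m + 1)) F) ∧
      ∀ a, (u : Matrix (Fin (m + 1)) (Fin (m + 1)) F) a.castSucc a.succ = v a := by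
  classical
  have _ := hm
  have h1 : ∀ (a : Fin m) (S : Finset (Fin m)), a ∉ S → ∀ c : F,
      ∃ v : Fin m → F, Vs Q v ∧ v a = c ∧ ∀ b ∈ S, v b = 0 := by
    intro a S
    induction S using Finset.induction_on with
    | empty =>
      intro _ c
      obtain ⟨u, hu, huu, h2⟩ := hU a c
      exact ⟨_, ⟨u, hu, huu, fun _ => rfl⟩, h2, fun b hb => absurd hb (Finset.notMem_empty b)⟩
    | insert b S hb ih =>
      intro ha c
      have hab : b ≠ a := fun h => ha (h ▸ Finset.mem_insert_self b S)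
      obtain ⟨t, ht, htb, hta⟩ := exists_t hq hab
      have ht0 : ∀ i, t i ≠ 0 := by
        intro i hi
        rw [Finset.prod_eq_zero (Finset.mem_univ i) hi] at ht
        exact zero_ne_one ht
      have hk : t a.castSucc / t a.succ - 1 ≠ 0 := by
        rw [sub_ne_zero]
        intro h2
        exact hta ((div_eq_one_iff_eq (ht0 _)).1 h2)
      obtain ⟨v, hv, hva, hvS⟩ := ih (fun h => ha (Finset.mem_insert_of_mem h))
        (c / (t a.castSucc / t a.succ - 1))
      refine ⟨_, (Vs.conj ht (hT t ht) hv).add hv.neg, ?_, ?_⟩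
      · rw [Pi.add_apply, Pi.neg_apply, hva, ← sub_eq_add_neg]
        rw [show ∀ x y : F, x * y - y = (x - 1) * y from fun x y => by ring,
          mul_div_cancel₀ _ hk]
      · intro b' hb'
        rw [Pi.add_apply, Pi.neg_apply]
        rcases Finset.mem_insert.1 hb' with h2 | h2
        · rw [h2, htb, div_self (ht0 _), one_mul, add_neg_cancel]
        · rw [hvS b' h2, mul_zero, neg_zero, add_zero]
  have h2 : ∀ (a : Fin m) (c : F), Vs Q (Pi.single a c) := by
    intro a c
    obtain ⟨v, hv, hva, hvb⟩ := h1 a (Finset.univ.erase a) (Finset.notMem_erase a _) c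
    have h3 : v = Pi.single a c := by
      funext b
      by_cases hba : b = a
      · rw [hba, hva, Pi.single_eq_same]
      · rw [hvb b (Finset.mem_erase.2 ⟨hba, Finset.mem_univ b⟩), Pi.single_eq_of_ne hba]
    rw [← h3]
    exact hv
  intro v
  have h3 : ∀ s : Finset (Fin m), Vs Q (∑ i ∈ s, Pi.single i (v i)) := by
    intro s
    induction s using Finset.induction_on with
    | empty =>
      rw [Finset.sum_empty]
      exact Vs.zero
    | insert a s ha ih =>
      rw [Finset.sum_insert ha]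
      exact (h2 _ _).add ih
  have h4 := h3 Finset.univ
  rw [Finset.univ_sum_single] at h4
  exact h4

end Lin43
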