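import Pool.Agent.Lib.MP_43150e_al.Lin.TFa
import Pool.Agent.Lib.MP_43150e_al.Lin.TFb
import Pool.Agent.Lib.MP_43150e_al.Lin.L4

/-! # A torus-full irreducible subgroup of `SL_n(F)`, `n ≥ 3`, is `SL_n(F)` -/

set_option autoImplicit false

namespace Lin43

open Matrix

/-- `1 + e_0 ⊗ φ` with `φ 0 = 0` is unitriangular. -/
theorem uu_tv_zero {m : ℕ} {F : Type*} [Field F] (φ : Fin (m + 1) → F) (hφ : φ 0 = 0) :
    UU (tv (Pi.single 0 1) φ) := by
  constructor
  · intro i j hij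
    have hi : i ≠ 0 := by
      intro h
      rw [h] at hij
      exact absurd hij (Fin.not_lt_zero j)
    rw [tv, Matrix.add_apply, Matrix.one_apply_ne hij.ne', Matrix.vecMulVec_apply,
      Pi.single_eq_of_ne hi, zero_mul, zero_add]
  · intro i
    rw [tv, Matrix.add_apply, Matrix.one_apply_eq, Matrix.vecMulVec_apply]
    by_cases hi : i = 0
    · rw [hi, hφ, mul_zero, add_zero]
    · rw [Pi.single_eq_of_ne hi, zero_mul, add_zero]

/-- `tfa`, `tfb` for `K^g`, `nil_uni`, then `l4` for `K^g` with `v₀ = e_0`. -/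
theorem tf_irr {m : ℕ} (hm : 2 ≤ m) {F : Type*} [Field F] [Fintype F]
    (hq : 59 < Fintype.card F) (K : Subgroup (SpecialLinearGroup (Fin (m + 1)) F))
    (hK : TFull K)
    (hirr : ∀ W : Submodule F (Fin (m + 1) → F),
      (∀ k ∈ K, ∀ w ∈ W, (k : Matrix (Fin (m + 1)) (Fin (m + 1)) F).mulVec w ∈ W) →
        W = ⊥ ∨ W = ⊤) :
    K = ⊤ := by
  obtain ⟨g, hg⟩ := tfa hm hq K hK
  have hQ : ∀ x : SpecialLinearGroup (Fin (m + 1)) F,
      x ∈ K.comap (MulAut.conj g).toMonoidHom ↔ g * x * g⁻¹ ∈ K := fun x => Iff.rfl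
  have hQ2 : ∀ k ∈ K, g⁻¹ * k * g ∈ K.comap (MulAut.conj g).toMonoidHom := by
    intro k hk
    rw [hQ]
    have h1 : g * (g⁻¹ * k * g) * g⁻¹ = k := by group
    rw [h1]
    exact hk
  have hUU := nil_uni (K.comap (MulAut.conj g).toMonoidHom) (tfb hm hq _ (by
    intro t ht
    obtain ⟨k, hk, hk2⟩ := hK g t ht
    exact ⟨_, hQ2 k hk, hk2⟩) (by
    intro a c
    obtain ⟨k, hk, hk2⟩ := hg a c
    exact ⟨_, hQ2 k hk, hk2⟩))
  have hgg : (g : Matrix (Fin (m + 1)) (Fin (m + 1)) F) *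
      ((g⁻¹ : SpecialLinearGroup (Fin (m + 1)) F) : Matrix (Fin (m + 1)) (Fin (m + 1)) F) = 1 := by
    rw [← Matrix.SpecialLinearGroup.coe_mul, mul_inv_cancel, Matrix.SpecialLinearGroup.coe_one]
  have hgg' : ((g⁻¹ : SpecialLinearGroup (Fin (m + 1)) F) :
      Matrix (Fin (m + 1)) (Fin (m + 1)) F) * (g : Matrix (Fin (m + 1)) (Fin (m + 1)) F) = 1 := by
    rw [← Matrix.SpecialLinearGroup.coe_mul, inv_mul_cancel, Matrix.SpecialLinearGroup.coe_one]
  have htop : K.comap (MulAut.conj g).toMonoidHom = ⊤ := by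
    refine l4 _ (Pi.single 0 1) (by simp) ?_ ?_
    · intro φ hφ
      rw [dotProduct_single, mul_one] at hφ
      have h1 := uu_tv_zero φ hφ
      have h2 : φ ⬝ᵥ (Pi.single 0 1 : Fin (m + 1) → F) = 0 := by
        rw [dotProduct_single, mul_one, hφ]
      exact ⟨tvS _ φ h2, hUU (tvS _ φ h2) h1, rfl⟩
    · intro W hW
      have hW' := hirr (W.comap (Matrix.mulVecLin ((g⁻¹ : SpecialLinearGroup (Fin (m + 1)) F) :
        Matrix (Fin (m + 1)) (Fin (m + 1)) F))) (by
        intro k hk w hw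
        rw [Submodule.mem_comap, Matrix.mulVecLin_apply] at hw ⊢
        have h1 := hW _ (hQ2 k hk) _ hw
        rw [Matrix.mulVec_mulVec, Matrix.SpecialLinearGroup.coe_mul,
          Matrix.SpecialLinearGroup.coe_mul, Matrix.mul_assoc, hgg, Matrix.mul_one] at h1
        rw [Matrix.mulVec_mulVec]
        exact h1)
      have hmem : ∀ w : Fin (m + 1) → F, w ∈ W ↔
          (g : Matrix (Fin (m + 1)) (Fin (m + 1)) F).mulVec w ∈
          W.comap (Matrix.mulVecLin ((g⁻¹ : SpecialLinearGroup (Fin (m + 1)) F) :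
            Matrix (Fin (m + 1)) (Fin (m + 1)) F)) := by
        intro w
        rw [Submodule.mem_comap, Matrix.mulVecLin_apply, Matrix.mulVec_mulVec, hgg',
          Matrix.one_mulVec]
      rcases hW' with h | h
      · left
        rw [eq_bot_iff]
        intro w hw
        rw [hmem, h, Submodule.mem_bot] at hw
        rw [Submodule.mem_bot, ← Matrix.one_mulVec w, ← hgg', ← Matrix.mulVec_mulVec, hw,
          Matrix.mulVec_zero]
      · right
        rw [eq_top_iff]
        intro w _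
        rw [hmem, h]
        exact Submodule.mem_top
  rw [eq_top_iff]
  intro y _
  have h1 : g⁻¹ * y * g ∈ K.comap (MulAut.conj g).toMonoidHom := htop ▸ Subgroup.mem_top _
  rw [hQ] at h1
  have h2 : g * (g⁻¹ * y * g) * g⁻¹ = y := by group
  rwa [h2] at h1

end Lin43
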