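import Pool.Agent.Lib.MP_43150e_al.Lin.Pen

/-! # Adding the scalars to a subgroup of `GL_n(F)` -/

set_option autoImplicit false

namespace Lin43

open Matrix

/-- `K` times the scalars. -/
def addSc {n : ℕ} {F : Type*} [Field F] (K : Subgroup (GeneralLinearGroup (Fin n) F)) :
    Subgroup (GeneralLinearGroup (Fin n) F) :=
  K ⊔ Subgroup.center (GeneralLinearGroup (Fin n) F)

private theorem sc_mul {n : ℕ} {F : Type*} [Field F] (M : Matrix (Fin n) (Fin n) F) (a : F) :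
    M * Matrix.scalar (Fin n) a = a • M := by
  ext i j
  rw [Matrix.scalar_apply, Matrix.mul_diagonal, Matrix.smul_apply, smul_eq_mul, mul_comm]

/-- `M ∈ K F^*` iff some scalar multiple of it is in `K` (the centre of `GL_n` consists of scalars). -/
theorem inG_addSc {n : ℕ} {F : Type*} [Field F] (K : Subgroup (GeneralLinearGroup (Fin n) F))
    (M : Matrix (Fin n) (Fin n) F) :
    inG (addSc K) M ↔ ∃ c : F, c ≠ 0 ∧ inG K (c • M) := by
  constructor
  · rintro ⟨x, hx, rfl⟩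
    obtain ⟨y, hy, z, hz, rfl⟩ := Subgroup.mem_sup_of_normal_right.1 hx
    rw [GeneralLinearGroup.center_eq_range_scalar] at hz
    obtain ⟨a, rfl⟩ := hz
    refine ⟨((a⁻¹ : Fˣ) : F), a⁻¹.ne_zero, y, hy, ?_⟩
    change (y : Matrix (Fin n) (Fin n) F) = ((a⁻¹ : Fˣ) : F) •
      ((y : Matrix (Fin n) (Fin n) F) * Matrix.scalar (Fin n) (a : F))
    rw [sc_mul, smul_smul, Units.inv_mul, one_smul]
  · rintro ⟨c, hc, k, hk, hkM⟩
    refine ⟨k * GeneralLinearGroup.scalar (Fin n) (Units.mk0 c hc)⁻¹, ?_, ?_⟩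
    · refine Subgroup.mem_sup_of_normal_right.2 ⟨k, hk, _, ?_, rfl⟩
      rw [GeneralLinearGroup.center_eq_range_scalar]
      exact ⟨_, rfl⟩
    · change (k : Matrix (Fin n) (Fin n) F) *
        Matrix.scalar (Fin n) (((Units.mk0 c hc)⁻¹ : Fˣ) : F) = M
      rw [sc_mul, hkM, smul_smul]
      have h1 : (((Units.mk0 c hc)⁻¹ : Fˣ) : F) * c = 1 := by
        rw [Units.val_inv_eq_inv_val, Units.val_mk0, inv_mul_cancel₀ hc]
      rw [h1, one_smul]

theorem scalar_addSc {n : ℕ} {F : Type*} [Field F] (K : Subgroup (GeneralLinearGroup (Fin n) F))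
    (c : F) (hc : c ≠ 0) : inG (addSc K) (Matrix.scalar (Fin n) c) := by
  rw [inG_addSc]
  refine ⟨c⁻¹, inv_ne_zero hc, 1, K.one_mem, ?_⟩
  have h1 : (Matrix.scalar (Fin n) c : Matrix (Fin n) (Fin n) F) = c • 1 := by
    rw [← sc_mul, one_mul]
  rw [h1, smul_smul, inv_mul_cancel₀ hc, one_smul]
  rfl

/-- Powers: if `c (1 + N) ∈ K` with `N² = 0` then `(c (1+N))^((q-1)²) = 1 + N ∈ K`, since `(q-1)² ≡ 1` in
`F` and `c^(q-1) = 1`. Together with `gen_GL`. -/
theorem inG_tv_of_addSc {n : ℕ} {F : Type*} [Field F] [Finite F]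
    (K : Subgroup (GeneralLinearGroup (Fin n) F)) (v φ : Fin n → F) (h : φ ⬝ᵥ v = 0)
    (hK : inG (addSc K) (tv v φ)) : inG K (tv v φ) := by
  have := Fintype.ofFinite F
  obtain ⟨c, hc, k, hk, hkM⟩ := (inG_addSc K _).1 hK
  set m : ℕ := (Fintype.card F - 1) * (Fintype.card F - 1) with hm
  have h1 : c ^ (Fintype.card F - 1) = 1 := FiniteField.pow_card_sub_one_eq_one c hc
  have h2 : (m : F) = 1 := by
    have h3 : 1 ≤ Fintype.card F := Fintype.card_pos
    rw [hm, Nat.cast_mul, Nat.cast_sub h3, FiniteField.cast_card_eq_zero, Nat.cast_one]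
    ring
  have hN : vecMulVec v φ * vecMulVec v φ = (0 : Matrix (Fin n) (Fin n) F) := by
    rw [Matrix.vecMulVec_mul_vecMulVec, h, zero_smul, Matrix.vecMulVec_zero]
  have hpow : ∀ j : ℕ, (tv v φ) ^ j = 1 + (j : F) • vecMulVec v φ := by
    intro j
    induction j with
    | zero => rw [pow_zero, Nat.cast_zero, zero_smul, add_zero]
    | succ j ih =>
      rw [pow_succ, ih, tv, mul_add, mul_one, add_mul, one_mul, Matrix.smul_mul, hN, smul_zero,
        add_zero, Nat.cast_succ, add_smul, one_smul, add_assoc]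
  refine ⟨k ^ m, K.pow_mem hk m, ?_⟩
  rw [Units.val_pow_eq_pow_val, hkM, smul_pow, hpow, h2, one_smul, hm, pow_mul, h1, one_pow,
    one_smul]
  rfl

theorem containsSL_of_addSc {n : ℕ} {F : Type*} [Field F] [Finite F]
    (K : Subgroup (GeneralLinearGroup (Fin n) F)) (h : ContainsSL (addSc K)) :
    ContainsSL K := by
  apply gen_GL
  intro i j hij c
  have h1 : (1 + Matrix.single i j c : Matrix (Fin n) (Fin n) F) =
      tv (c • Pi.single i 1) (Pi.single j 1) := by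
    rw [tv, Matrix.smul_vecMulVec, ← Matrix.single_eq_single_vecMulVec_single,
      Matrix.smul_single, smul_eq_mul, mul_one]
  have h2 := h (SpecialLinearGroup.transvection hij c)
  have h3 : ((SpecialLinearGroup.transvection hij c : SpecialLinearGroup (Fin n) F) :
      Matrix (Fin n) (Fin n) F) = 1 + Matrix.single i j c := rfl
  rw [h3, h1] at h2
  rw [h1]
  refine inG_tv_of_addSc K _ _ ?_ h2
  rw [dotProduct_smul, single_dotProduct, one_mul, Pi.single_eq_of_ne hij.symm, smul_zero]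

theorem flagTr_addSc {n : ℕ} {F : Type*} [Field F]
    (K : Subgroup (GeneralLinearGroup (Fin n) F)) (h : FlagTr K) : FlagTr (addSc K) := by
  intro g
  obtain ⟨k, hk, hkg⟩ := h g
  exact ⟨k, Subgroup.mem_sup_left hk, hkg⟩

/-- A subgroup of `GL_2` containing the scalars and transitive on the points is transitive on
nonzero vectors. -/
theorem vec_trans_of_point_trans {n : ℕ} {F : Type*} [Field F]
    (L : Subgroup (GeneralLinearGroup (Fin n) F))
    (hsc : ∀ c : F, c ≠ 0 → inG L (Matrix.scalar (Fin n) c))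
    (htr : ∀ v v' : Fin n → F, v ≠ 0 → v' ≠ 0 → ∃ k ∈ L, ∃ c : F, c ≠ 0 ∧
      (k : Matrix (Fin n) (Fin n) F).mulVec v = c • v') :
    ∀ v v' : Fin n → F, v ≠ 0 → v' ≠ 0 → ∃ k ∈ L,
      (k : Matrix (Fin n) (Fin n) F).mulVec v = v' := by
  intro v v' hv hv'
  obtain ⟨k, hk, c, hc, hkv⟩ := htr v v' hv hv'
  obtain ⟨l, hl, hlc⟩ := hsc c⁻¹ (inv_ne_zero hc)
  refine ⟨l * k, L.mul_mem hl hk, ?_⟩
  change ((l : Matrix (Fin n) (Fin n) F) * (k : Matrix (Fin n) (Fin n) F)).mulVec v = v'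
  rw [← Matrix.mulVec_mulVec, hkv, hlc, Matrix.mulVec_smul, Matrix.scalar_apply]
  ext i
  rw [Pi.smul_apply, Matrix.mulVec_diagonal, smul_eq_mul, ← mul_assoc, mul_inv_cancel₀ hc,
    one_mul]

/-- If `L ≤ GL_2(F)` is transitive on the points and contains all `[[1, c], [0, 1]]`, it contains
`SL_2(F)`. -/
theorem containsSL_of_full {F : Type*} [Field F] (L : Subgroup (GeneralLinearGroup (Fin 2) F))
    (htr : ∀ v v' : Fin 2 → F, v ≠ 0 → v' ≠ 0 → ∃ k ∈ L, ∃ c : F, c ≠ 0 ∧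
      (k : Matrix (Fin 2) (Fin 2) F).mulVec v = c • v')
    (h : ∀ c : F, inG L !![1, c; 0, 1]) : ContainsSL L := by
  apply gen_GL
  have hup : ∀ c : F, (!![1, c; 0, 1] : Matrix (Fin 2) (Fin 2) F) = 1 + Matrix.single 0 1 c := by
    intro c
    ext i j
    fin_cases i <;> fin_cases j <;> simp [Matrix.single_apply, Matrix.one_apply]
  have e0 : (![1, 0] : Fin 2 → F) ≠ 0 := fun h => one_ne_zero (congrFun h 0)
  have e1 : (![0, 1] : Fin 2 → F) ≠ 0 := fun h => one_ne_zero (congrFun h 1)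
  obtain ⟨k, hk, a, ha, hka⟩ := htr ![1, 0] ![0, 1] e0 e1
  have hk00 : (k : Matrix (Fin 2) (Fin 2) F) 0 0 = 0 := by
    have h1 := congrFun hka 0
    simpa [Matrix.mulVec, dotProduct, Fin.sum_univ_two] using h1
  have hk10 : (k : Matrix (Fin 2) (Fin 2) F) 1 0 = a := by
    have h1 := congrFun hka 1
    simpa [Matrix.mulVec, dotProduct, Fin.sum_univ_two] using h1
  intro i j hij d
  have hcases : (i = 0 ∧ j = 1) ∨ (i = 1 ∧ j = 0) := by omega
  rcases hcases with ⟨rfl, rfl⟩ | ⟨rfl, rfl⟩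
  · rw [← hup]
    exact h d
  · set y := (k : Matrix (Fin 2) (Fin 2) F) 0 1 with hy
    obtain ⟨u, hu, huc⟩ := h (d * y / a)
    refine ⟨k * u * k⁻¹, L.mul_mem (L.mul_mem hk hu) (L.inv_mem hk), ?_⟩
    have h1 : (k : Matrix (Fin 2) (Fin 2) F) * (u : Matrix (Fin 2) (Fin 2) F) =
        (1 + Matrix.single 1 0 d) * (k : Matrix (Fin 2) (Fin 2) F) := by
      rw [huc]
      ext i j
      rw [Matrix.mul_apply, Matrix.mul_apply, Fin.sum_univ_two, Fin.sum_univ_two]
      fin_cases i <;> fin_cases j <;>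
        simp [Matrix.single_apply, Matrix.one_apply, hk00, hk10, ← hy] <;> field_simp
    change ((k : Matrix (Fin 2) (Fin 2) F) * (u : Matrix (Fin 2) (Fin 2) F)) *
      ((k⁻¹ : GeneralLinearGroup (Fin 2) F) : Matrix (Fin 2) (Fin 2) F) = _
    rw [h1, mul_assoc, Units.mul_inv, mul_one]

end Lin43
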