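import Pool.Agent.Lib.MP_43150e_al.Lin.Irr3

/-! # Many elements without eigenvector (paragraph 5, T3, lower bound)

`z ∈ K` of order `r` (Cauchy), `z` and `zᵀ` have no eigenvector (`no_ev`). `C = C_K(z)`, commutative, its
nonscalar elements have no eigenvector (`scalar_of_commute`). `r` does not divide `q - 1`, so `|C| ≥ 5 (q - 1)`.
`N = {g ∈ K | g C g⁻¹ = C}`: `g ↦ g z g⁻¹` shows `|N| ≤ 3 |C|` (`card_charpoly_le`). The map
`(g, c) ↦ g c g⁻¹` from `K × (C \ scalars)` to `X = {k ∈ K | no eigenvector}` has fibres of size at most `|N|`: if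
`g c g⁻¹ = g' c' g'⁻¹ = y` then `g C g⁻¹ = C_K(y) = g' C g'⁻¹` (`c` nonscalar: `C_K(c) = C` by
`commute_of_commute` for `c` and for `z`), so `g⁻¹ g' ∈ N`, and `c'` is determined by `g'`. So
`|K| (|C| - (q - 1)) ≤ 3 |C| |X|` and `|C| - (q-1) ≥ (4/5) |C|`. -/

set_option autoImplicit false

namespace Lin43

open Matrix

section

variable {F : Type*} [Field F]

/-- An invertible matrix which is scalar. -/
def IsSc (g : GeneralLinearGroup (Fin 3) F) : Prop :=
  ∃ c : F, (g : Matrix (Fin 3) (Fin 3) F) = Matrix.scalar (Fin 3) c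

theorem hasEV_scalar (c : F) : HasEV (Matrix.scalar (Fin 3) c) := by
  refine ⟨fun _ => 1, c, ?_, ?_⟩
  · intro h
    have := congrFun h 0
    simp at this
  · rw [Matrix.scalar_apply, ← Matrix.smul_one_eq_diagonal, Matrix.smul_mulVec, Matrix.one_mulVec]

theorem hasEV_conj (g c : GeneralLinearGroup (Fin 3) F)
    (h : HasEV ((g * c * g⁻¹ : GeneralLinearGroup (Fin 3) F) : Matrix (Fin 3) (Fin 3) F)) :
    HasEV (c : Matrix (Fin 3) (Fin 3) F) := by
  obtain ⟨v, a, hv, h⟩ := h
  have hg : ((g⁻¹ : GeneralLinearGroup (Fin 3) F) : Matrix (Fin 3) (Fin 3) F) *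
      (g : Matrix (Fin 3) (Fin 3) F) = 1 := by
    rw [← Units.val_mul, inv_mul_cancel, Units.val_one]
  have hg' : (g : Matrix (Fin 3) (Fin 3) F) *
      ((g⁻¹ : GeneralLinearGroup (Fin 3) F) : Matrix (Fin 3) (Fin 3) F) = 1 := by
    rw [← Units.val_mul, mul_inv_cancel, Units.val_one]
  refine ⟨((g⁻¹ : GeneralLinearGroup (Fin 3) F) : Matrix (Fin 3) (Fin 3) F).mulVec v, a, ?_, ?_⟩
  · intro h0
    apply hv
    have := congrArg (fun w => (g : Matrix (Fin 3) (Fin 3) F).mulVec w) h0
    simpa [Matrix.mulVec_mulVec, hg'] using this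
  · rw [← Matrix.mulVec_smul, ← h]
    rw [Units.val_mul, Units.val_mul, Matrix.mulVec_mulVec, Matrix.mulVec_mulVec, ← mul_assoc,
      ← mul_assoc, hg, one_mul]

theorem charpoly_conj (g z : GeneralLinearGroup (Fin 3) F) :
    ((g * z * g⁻¹ : GeneralLinearGroup (Fin 3) F) : Matrix (Fin 3) (Fin 3) F).charpoly =
      (z : Matrix (Fin 3) (Fin 3) F).charpoly := by
  rw [Units.val_mul, Matrix.charpoly_mul_comm, ← Units.val_mul]
  congr 2
  group

variable (z : GeneralLinearGroup (Fin 3) F)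

theorem no_ev_of_commute (hz : ¬ HasEV (z : Matrix (Fin 3) (Fin 3) F))
    (hzT : ¬ HasEV (z : Matrix (Fin 3) (Fin 3) F)ᵀ) (c : GeneralLinearGroup (Fin 3) F)
    (hc : Commute c z) (hs : ¬ IsSc c) :
    ¬ HasEV (c : Matrix (Fin 3) (Fin 3) F) ∧ ¬ HasEV (c : Matrix (Fin 3) (Fin 3) F)ᵀ := by
  have hc' : Commute (c : Matrix (Fin 3) (Fin 3) F) (z : Matrix (Fin 3) (Fin 3) F) :=
    Commute.units_val hc
  constructor
  · intro h
    exact hs (scalar_of_commute _ _ hz hzT hc' h)
  · intro h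
    have hct : Commute (c : Matrix (Fin 3) (Fin 3) F)ᵀ (z : Matrix (Fin 3) (Fin 3) F)ᵀ := by
      have h1 := congrArg Matrix.transpose hc'.eq
      rw [Matrix.transpose_mul, Matrix.transpose_mul] at h1
      exact h1.symm
    obtain ⟨a, ha⟩ := scalar_of_commute _ _ hzT (by rwa [Matrix.transpose_transpose]) hct h
    refine hs ⟨a, ?_⟩
    have h2 := congrArg Matrix.transpose ha
    rw [Matrix.transpose_transpose] at h2
    rw [h2, Matrix.scalar_apply, Matrix.diagonal_transpose]

/-- `C(c) = C(z)` for `c` nonscalar commuting with `z`. -/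
theorem commute_iff (hz : ¬ HasEV (z : Matrix (Fin 3) (Fin 3) F))
    (hzT : ¬ HasEV (z : Matrix (Fin 3) (Fin 3) F)ᵀ) (c : GeneralLinearGroup (Fin 3) F)
    (hc : Commute c z) (hs : ¬ IsSc c) (k : GeneralLinearGroup (Fin 3) F) :
    Commute k z ↔ Commute k c := by
  obtain ⟨h1, h2⟩ := no_ev_of_commute z hz hzT c hc hs
  constructor
  · intro hk
    exact Commute.units_of_val (commute_of_commute _ _ _ hz hzT (Commute.units_val hk)
      (Commute.units_val hc))
  · intro hk
    exact Commute.units_of_val (commute_of_commute _ _ _ h1 h2 (Commute.units_val hk)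
      (Commute.units_val hc.symm))

end

section

open Classical in
/-- The double counting in a finite group `G`: `E` a conjugation invariant property, `S` a property such that
the elements commuting with `z` without `S` do not have `E` and have the centraliser of `z`. -/
theorem count_abs {G : Type*} [Group G] [Fintype G] (K : Subgroup G) (z : G) (hzK : z ∈ K)
    (S E : G → Prop) (hE : ∀ g c : G, E (g * c * g⁻¹) → E c)
    (hS : ∀ c, Commute c z → ¬ S c → ¬ E c)
    (hCc : ∀ c, Commute c z → ¬ S c → ∀ k, Commute k z ↔ Commute k c)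
    (h3 : Nat.card {y : G // Commute y z ∧ ∃ g, y = g * z * g⁻¹} ≤ 3) :
    Nat.card K * Nat.card {c : G // c ∈ K ∧ Commute c z ∧ ¬ S c} ≤
    3 * Nat.card {c : G // c ∈ K ∧ Commute c z} * Nat.card {k : G // k ∈ K ∧ ¬ E k} := by
  have e1 : Nat.card K = (Finset.univ.filter fun g => g ∈ K).card := by
    rw [Nat.card_eq_fintype_card]
    exact Fintype.card_subtype _
  rw [e1]
  rw [Nat.card_eq_fintype_card (α := {y : G // Commute y z ∧ ∃ g, y = g * z * g⁻¹}),
    Fintype.card_subtype] at h3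
  rw [Nat.card_eq_fintype_card (α := {c : G // c ∈ K ∧ Commute c z ∧ ¬ S c}),
    Nat.card_eq_fintype_card (α := {c : G // c ∈ K ∧ Commute c z}),
    Nat.card_eq_fintype_card (α := {k : G // k ∈ K ∧ ¬ E k}), Fintype.card_subtype,
    Fintype.card_subtype, Fintype.card_subtype]
  set C : Finset G := Finset.univ.filter fun c => c ∈ K ∧ Commute c z with hC
  set X : Finset G := Finset.univ.filter fun k => k ∈ K ∧ ¬ E k with hX
  set N : Finset G :=
    Finset.univ.filter fun n => n ∈ K ∧ ∀ k ∈ K, (Commute k z ↔ Commute (n * k * n⁻¹) z) with hN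
  -- the normaliser
  have hN3 : N.card ≤ 3 * C.card := by
    set Y : Finset G :=
      Finset.univ.filter fun y : G => Commute y z ∧ ∃ g, y = g * z * g⁻¹ with hY
    have hmap : ∀ n ∈ N, n * z * n⁻¹ ∈ Y := by
      intro n hn
      rw [hN, Finset.mem_filter] at hn
      rw [hY, Finset.mem_filter]
      exact ⟨Finset.mem_univ _, (hn.2.2 z hzK).1 (Commute.refl z), n, rfl⟩
    have h1 := Finset.card_le_mul_card_image_of_maps_to hmap C.card (by
      intro M _
      by_cases hne : (N.filter fun n => n * z * n⁻¹ = M).Nonempty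
      · obtain ⟨n₀, hn₀⟩ := hne
        rw [Finset.mem_filter] at hn₀
        refine Finset.card_le_card_of_injOn (fun n => n₀⁻¹ * n) ?_ ?_
        · intro n hn
          rw [Finset.mem_coe, Finset.mem_filter] at hn
          have h2 : n * z * n⁻¹ = n₀ * z * n₀⁻¹ := hn.2.trans hn₀.2.symm
          have hnK := (Finset.mem_filter.1 hn.1).2.1
          have hnK₀ := (Finset.mem_filter.1 hn₀.1).2.1
          rw [Finset.mem_coe, hC, Finset.mem_filter]
          refine ⟨Finset.mem_univ _, K.mul_mem (K.inv_mem hnK₀) hnK, ?_⟩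
          have h3 : n₀⁻¹ * n * z = z * (n₀⁻¹ * n) := by
            have h4 : n * z = n₀ * z * n₀⁻¹ * n := by
              rw [← h2]; group
            rw [mul_assoc, h4]; group
          exact h3
        · intro a _ b _ hab
          exact mul_left_cancel hab
      · rw [Finset.not_nonempty_iff_eq_empty] at hne
        rw [hne, Finset.card_empty]
        exact Nat.zero_le _)
    calc N.card ≤ C.card * Y.card := h1
      _ ≤ C.card * 3 := Nat.mul_le_mul_left _ h3
      _ = 3 * C.card := Nat.mul_comm _ _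
  -- the double counting
  set P : Finset (G × G) :=
    (Finset.univ.filter fun g => g ∈ K) ×ˢ
      (Finset.univ.filter fun c => c ∈ K ∧ Commute c z ∧ ¬ S c) with hP
  have hmemP : ∀ p : G × G, p ∈ P ↔ p.1 ∈ K ∧ p.2 ∈ K ∧ Commute p.2 z ∧ ¬ S p.2 := by
    intro p
    simp only [hP, Finset.mem_product, Finset.mem_filter, Finset.mem_univ, true_and]
  have hmap : ∀ p ∈ P, p.1 * p.2 * p.1⁻¹ ∈ X := by
    intro p hp
    rw [hmemP] at hp
    rw [hX, Finset.mem_filter]
    refine ⟨Finset.mem_univ _, K.mul_mem (K.mul_mem hp.1 hp.2.1) (K.inv_mem hp.1), fun h => ?_⟩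
    exact hS p.2 hp.2.2.1 hp.2.2.2 (hE p.1 p.2 h)
  have h1 := Finset.card_le_mul_card_image_of_maps_to hmap N.card (by
    intro y _
    by_cases hne : (P.filter fun p => p.1 * p.2 * p.1⁻¹ = y).Nonempty
    · obtain ⟨p₀, hp₀⟩ := hne
      rw [Finset.mem_filter] at hp₀
      obtain ⟨hp₀P, hp₀y⟩ := hp₀
      rw [hmemP] at hp₀P
      refine Finset.card_le_card_of_injOn (fun p => p₀.1⁻¹ * p.1) ?_ ?_
      · intro p hp
        rw [Finset.mem_coe, Finset.mem_filter] at hp
        obtain ⟨hpP, hpy⟩ := hp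
        rw [hmemP] at hpP
        rw [Finset.mem_coe, hN, Finset.mem_filter]
        refine ⟨Finset.mem_univ _, K.mul_mem (K.inv_mem hp₀P.1) hpP.1, fun k _ => ?_⟩
        have h2 : p₀.1⁻¹ * p.1 * p.2 * (p₀.1⁻¹ * p.1)⁻¹ = p₀.2 := by
          have h3 : p.1 * p.2 * p.1⁻¹ = p₀.1 * p₀.2 * p₀.1⁻¹ := hpy.trans hp₀y.symm
          calc p₀.1⁻¹ * p.1 * p.2 * (p₀.1⁻¹ * p.1)⁻¹
              = p₀.1⁻¹ * (p.1 * p.2 * p.1⁻¹) * p₀.1 := by group
            _ = p₀.2 := by rw [h3]; group
        rw [hCc p.2 hpP.2.2.1 hpP.2.2.2 k, hCc p₀.2 hp₀P.2.2.1 hp₀P.2.2.2 _, ← h2]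
        exact (Commute.conj_iff _).symm
      · intro a ha b hb hab
        rw [Finset.mem_coe, Finset.mem_filter] at ha hb
        have h2 : a.1 = b.1 := mul_left_cancel hab
        refine Prod.ext h2 ?_
        have h3 := ha.2.trans hb.2.symm
        rw [h2] at h3
        exact mul_left_cancel (mul_right_cancel h3)
    · rw [Finset.not_nonempty_iff_eq_empty] at hne
      rw [hne, Finset.card_empty]
      exact Nat.zero_le _)
  rw [hP, Finset.card_product] at h1
  exact h1.trans (Nat.mul_le_mul_right _ hN3)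

end

section

variable {F : Type*} [Field F] [Fintype F]

open Classical in
theorem sing_count (K : Subgroup (GeneralLinearGroup (Fin 3) F))
    (z : GeneralLinearGroup (Fin 3) F) (hzK : z ∈ K)
    (hz : ¬ HasEV (z : Matrix (Fin 3) (Fin 3) F))
    (hzT : ¬ HasEV (z : Matrix (Fin 3) (Fin 3) F)ᵀ) :
    Nat.card K * Nat.card {c : GeneralLinearGroup (Fin 3) F // c ∈ K ∧ Commute c z ∧ ¬ IsSc c} ≤
    3 * Nat.card {c : GeneralLinearGroup (Fin 3) F // c ∈ K ∧ Commute c z} *
      Nat.card {k : GeneralLinearGroup (Fin 3) F // k ∈ K ∧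
        ¬ HasEV (k : Matrix (Fin 3) (Fin 3) F)} := by
  refine count_abs K z hzK IsSc (fun k => HasEV (k : Matrix (Fin 3) (Fin 3) F))
    (fun g c h => hasEV_conj g c h) (fun c hc hs => (no_ev_of_commute z hz hzT c hc hs).1)
    (fun c hc hs => commute_iff z hz hzT c hc hs) ?_
  refine le_trans (Nat.card_le_card_of_injective
    (fun y : {y : GeneralLinearGroup (Fin 3) F // Commute y z ∧ ∃ g, y = g * z * g⁻¹} =>
      (⟨(y.1 : Matrix (Fin 3) (Fin 3) F), ?_⟩ : {X : Matrix (Fin 3) (Fin 3) F //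
        Commute X (z : Matrix (Fin 3) (Fin 3) F) ∧
          X.charpoly = (z : Matrix (Fin 3) (Fin 3) F).charpoly})) ?_)
    (card_charpoly_le (z : Matrix (Fin 3) (Fin 3) F) hz hzT)
  · obtain ⟨y, hy1, g, hg⟩ := y
    refine ⟨Commute.units_val hy1, ?_⟩
    subst hg
    exact charpoly_conj g z
  · intro a b hab
    exact Subtype.ext (Units.ext (congrArg Subtype.val hab))

/-- The scalars. -/
noncomputable def scZ (F : Type*) [Field F] : Subgroup (GeneralLinearGroup (Fin 3) F) :=
  (Units.map ((Matrix.scalar (Fin 3) : F →+* Matrix (Fin 3) (Fin 3) F) :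
    F →* Matrix (Fin 3) (Fin 3) F)).range

omit [Fintype F] in
theorem mem_scZ (g : GeneralLinearGroup (Fin 3) F) : g ∈ scZ F ↔ IsSc g := by
  unfold scZ IsSc
  rw [MonoidHom.mem_range]
  constructor
  · rintro ⟨c, rfl⟩
    exact ⟨c, rfl⟩
  · rintro ⟨c, hc⟩
    have hc0 : c ≠ 0 := by
      rintro rfl
      rw [map_zero] at hc
      exact g.ne_zero hc
    refine ⟨Units.mk0 c hc0, Units.ext ?_⟩
    rw [hc]
    rfl

theorem card_scZ : Nat.card (scZ F) = Fintype.card F - 1 := by
  have hinj : Function.Injective (Units.map ((Matrix.scalar (Fin 3) :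
      F →+* Matrix (Fin 3) (Fin 3) F) : F →* Matrix (Fin 3) (Fin 3) F)) := by
    apply Units.map_injective
    intro a b hab
    exact Matrix.scalar_inj.1 hab
  unfold scZ
  rw [Nat.card_congr (MonoidHom.ofInjective hinj).symm.toEquiv, Nat.card_units,
    Nat.card_eq_fintype_card]

end

theorem sing {F : Type*} [Field F] [Fintype F]
    (K : Subgroup (GeneralLinearGroup (Fin 3) F))
    (hsc : ∀ c : F, c ≠ 0 → inG K (Matrix.scalar (Fin 3) c))
    (r : ℕ) [Fact r.Prime] (hr : 5 ≤ r) (hrq : r ∣ Fintype.card F ^ 2 + Fintype.card F + 1)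
    (hrK : r ∣ Nat.card K) :
    4 * Nat.card K ≤ 15 * Nat.card {k : K // ¬ HasEV ((k : GeneralLinearGroup (Fin 3) F) :
      Matrix (Fin 3) (Fin 3) F)} := by
  classical
  obtain ⟨⟨z, hzK⟩, hzo⟩ := exists_prime_orderOf_dvd_card' r hrK
  have hzo' : orderOf z = r := by rw [← hzo]; exact (Subgroup.orderOf_mk z hzK).symm
  have hzr : z ^ r = 1 := by rw [← hzo']; exact pow_orderOf_eq_one z
  have hz1 : z ≠ 1 := by
    rintro rfl
    rw [orderOf_one] at hzo'
    omega
  have hzr' : (z : Matrix (Fin 3) (Fin 3) F) ^ r = 1 := by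
    rw [← Units.val_pow_eq_pow_val, hzr, Units.val_one]
  have hz1' : (z : Matrix (Fin 3) (Fin 3) F) ≠ 1 := by
    intro h
    exact hz1 (Units.ext h)
  have hz := no_ev r hr hrq _ hzr' hz1'
  have hzT : ¬ HasEV (z : Matrix (Fin 3) (Fin 3) F)ᵀ := by
    refine no_ev r hr hrq _ ?_ ?_
    · rw [← Matrix.transpose_pow, hzr', Matrix.transpose_one]
    · intro h
      apply hz1'
      have := congrArg Matrix.transpose h
      rwa [Matrix.transpose_transpose, Matrix.transpose_one] at this
  have hcount := sing_count K z hzK hz hzT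
  -- the centraliser
  set CC : Subgroup (GeneralLinearGroup (Fin 3) F) := K ⊓ Subgroup.centralizer {z} with hCC
  have hmemC : ∀ c, c ∈ CC ↔ c ∈ K ∧ Commute c z := by
    intro c
    rw [hCC, Subgroup.mem_inf, Subgroup.mem_centralizer_singleton_iff]
    rfl
  have hZC : scZ F ≤ CC := by
    intro g hg
    obtain ⟨c, hc⟩ := (mem_scZ g).1 hg
    have hc0 : c ≠ 0 := by
      rintro rfl
      rw [map_zero] at hc
      exact g.ne_zero hc
    obtain ⟨k, hk, hkc⟩ := hsc c hc0
    have hgk : g = k := Units.ext (hc.trans hkc.symm)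
    rw [hmemC, hgk]
    refine ⟨hk, Commute.units_of_val ?_⟩
    rw [hkc]
    exact Matrix.scalar_commute c (fun r' => Commute.all c r') _
  have hrC : r ∣ Nat.card CC := by
    have hzC : z ∈ CC := (hmemC z).2 ⟨hzK, Commute.refl z⟩
    have h1 := Subgroup.orderOf_dvd_natCard CC hzC
    rwa [hzo'] at h1
  have hrZ : ¬ r ∣ Nat.card (scZ F) := by
    rw [card_scZ]
    intro h
    have hF : 1 ≤ Fintype.card F := Fintype.card_pos
    obtain ⟨k, hk⟩ := h
    have hF' : Fintype.card F = r * k + 1 := by omega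
    rw [hF'] at hrq
    have h3 : (r * k + 1) ^ 2 + (r * k + 1) + 1 = r * (r * k * k + 3 * k) + 3 := by ring
    rw [h3] at hrq
    have h4 : r ∣ 3 := (Nat.dvd_add_right (Dvd.intro _ rfl)).1 hrq
    have := Nat.le_of_dvd (by norm_num) h4
    omega
  have h5 : 5 * Nat.card (scZ F) ≤ Nat.card CC := by
    obtain ⟨k, hk⟩ := Subgroup.card_dvd_of_le hZC
    rw [hk] at hrC
    have h6 : r ∣ k := ((Fact.out : r.Prime).dvd_mul.1 hrC).resolve_left hrZ
    have hk0 : 0 < k := by
      rcases Nat.eq_zero_or_pos k with h | h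
      · rw [h, Nat.mul_zero] at hk
        exact absurd hk Nat.card_pos.ne'
      · exact h
    have h7 := Nat.le_of_dvd hk0 h6
    rw [hk, Nat.mul_comm]
    exact Nat.mul_le_mul_left _ (hr.trans h7)
  -- cardinalities
  have e2 : Nat.card {c : GeneralLinearGroup (Fin 3) F // c ∈ K ∧ Commute c z} = Nat.card CC :=
    Nat.card_congr (Equiv.subtypeEquivRight fun c => (hmemC c).symm)
  have e3 : Nat.card {c : GeneralLinearGroup (Fin 3) F // c ∈ K ∧ Commute c z ∧ ¬ IsSc c} +
      Nat.card (scZ F) = Nat.card CC := by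
    have h8 : Nat.card {c : CC // ¬ IsSc (c : GeneralLinearGroup (Fin 3) F)} =
        Nat.card {c : GeneralLinearGroup (Fin 3) F // c ∈ K ∧ Commute c z ∧ ¬ IsSc c} :=
      Nat.card_congr ((Equiv.subtypeSubtypeEquivSubtypeInter (fun c => c ∈ CC)
        (fun c : GeneralLinearGroup (Fin 3) F => ¬ IsSc c)).trans
        (Equiv.subtypeEquivRight fun c => by
          show c ∈ CC ∧ ¬ IsSc c ↔ _
          rw [hmemC, and_assoc]))
    have h9 : Nat.card {c : CC // IsSc (c : GeneralLinearGroup (Fin 3) F)} = Nat.card (scZ F) :=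
      Nat.card_congr ((Equiv.subtypeSubtypeEquivSubtypeInter (fun c => c ∈ CC)
        (fun c : GeneralLinearGroup (Fin 3) F => IsSc c)).trans
        (Equiv.subtypeEquivRight fun c => by
          show c ∈ CC ∧ IsSc c ↔ _
          rw [mem_scZ]
          exact ⟨fun h => h.2, fun h => ⟨hZC ((mem_scZ c).2 h), h⟩⟩))
    rw [← h8, ← h9, add_comm, ← Nat.card_sum]
    exact Nat.card_congr (Equiv.sumCompl _)
  have e4 : Nat.card {k : GeneralLinearGroup (Fin 3) F // k ∈ K ∧
      ¬ HasEV (k : Matrix (Fin 3) (Fin 3) F)} =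
      Nat.card {k : K // ¬ HasEV ((k : GeneralLinearGroup (Fin 3) F) :
        Matrix (Fin 3) (Fin 3) F)} :=
    Nat.card_congr (Equiv.subtypeSubtypeEquivSubtypeInter (fun k => k ∈ K)
      (fun k : GeneralLinearGroup (Fin 3) F => ¬ HasEV (k : Matrix (Fin 3) (Fin 3) F))).symm
  rw [e2, e4] at hcount
  have hCpos : 0 < Nat.card CC := Nat.card_pos
  generalize Nat.card {k : K // ¬ HasEV ((k : GeneralLinearGroup (Fin 3) F) :
        Matrix (Fin 3) (Fin 3) F)} = x at *
  generalize Nat.card {c : GeneralLinearGroup (Fin 3) F // c ∈ K ∧ Commute c z ∧ ¬ IsSc c} = d at *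
  generalize Nat.card (scZ F) = w at *
  generalize Nat.card CC = c at *
  generalize Nat.card K = k at *
  have h9 : 4 * c ≤ 5 * d := by omega
  have h10 : c * (4 * k) ≤ c * (15 * x) := by
    calc c * (4 * k) = k * (4 * c) := by ring
      _ ≤ k * (5 * d) := Nat.mul_le_mul_left _ h9
      _ = 5 * (k * d) := by ring
      _ ≤ 5 * (3 * c * x) := Nat.mul_le_mul_left _ hcount
      _ = c * (15 * x) := by ring
  exact Nat.le_of_mul_le_mul_left h10 hCpos

end Lin43
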