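import Pool.Agent.Lib.MP_43150e_al.Lin.Pen

/-! # TR: a flag-transitive group containing a transvection contains `SL_n`, `n ≥ 3`

Paragraph 5, TR. By `flag_pair` and `conj_tv` for every incident pair `(v, φ)` some `1 + c v ⊗ φ`, `c ≠ 0`, is in
`K`. Fix `φ`. `A = {v ∈ ker φ | 1 + v ⊗ φ ∈ K}` is an additive group; the number `s = |A ∩ F v|` is the same for
all `v ∈ ker φ \ 0` (`k (1 + v ⊗ φ) k⁻¹` for `k ∈ K` with `φ k⁻¹ ∈ F φ`), `s > 1`, `s` divides `q`, and
`|A| = 1 + (s - 1) θ = s + (s - 1)(q + .. + q^(n-2))`, `θ = (q^(n-1) - 1)/(q - 1)`, divides `q^(n-1)`. If `s < q` then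
`|A|/s ≡ 1` mod `p` and it is a power of `p`, so `|A| = s`, `s = 1`, contradiction. So `s = q`. -/

set_option autoImplicit false

namespace Lin43

open Matrix

theorem TR_mul {n : ℕ} {F : Type*} [Field F] {K : Subgroup (GeneralLinearGroup (Fin n) F)}
    {A B : Matrix (Fin n) (Fin n) F} (hA : inG K A) (hB : inG K B) : inG K (A * B) := by
  obtain ⟨a, ha, rfl⟩ := hA
  obtain ⟨b, hb, rfl⟩ := hB
  exact ⟨a * b, K.mul_mem ha hb, rfl⟩

theorem TR_inv {n : ℕ} {F : Type*} [Field F] (k : GeneralLinearGroup (Fin n) F) :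
    (k : Matrix (Fin n) (Fin n) F) * ((k⁻¹ : GeneralLinearGroup (Fin n) F) :
      Matrix (Fin n) (Fin n) F) = 1 := by
  rw [← Units.val_mul, mul_inv_cancel, Units.val_one]

/-- Conjugation of transvections. -/
theorem TR_conj {n : ℕ} {F : Type*} [Field F] (K : Subgroup (GeneralLinearGroup (Fin n) F))
    {k : GeneralLinearGroup (Fin n) F} (hk : k ∈ K) {v v' φ φ' : Fin n → F} {c c' : F}
    (hc' : c' ≠ 0) (h1 : (k : Matrix (Fin n) (Fin n) F).mulVec v = c • v')
    (h2 : Matrix.vecMul φ' (k : Matrix (Fin n) (Fin n) F) = c' • φ) (h : inG K (tv v φ)) :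
    inG K (tv ((c'⁻¹ * c) • v') φ') := by
  have h3 : Matrix.vecMul φ ((k⁻¹ : GeneralLinearGroup (Fin n) F) :
      Matrix (Fin n) (Fin n) F) = c'⁻¹ • φ' := by
    have h4 : φ = c'⁻¹ • Matrix.vecMul φ' (k : Matrix (Fin n) (Fin n) F) := by
      rw [h2, smul_smul, inv_mul_cancel₀ hc', one_smul]
    rw [h4, Matrix.smul_vecMul, Matrix.vecMul_vecMul, TR_inv, Matrix.vecMul_one]
  have h4 := conj_tv _ _ (TR_inv k) v φ
  rw [h1, h3, ← tv_smul, smul_smul] at h4
  rw [← h4]
  exact TR_mul (TR_mul ⟨k, hk, rfl⟩ h) ⟨k⁻¹, K.inv_mem hk, rfl⟩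

theorem TR_card {V : Type*} [AddGroup V] [Fintype V] [DecidableEq V] (H : AddSubgroup V)
    [DecidablePred (· ∈ H)] :
    (Finset.univ.filter fun v => v ∈ H ∧ v ≠ 0).card + 1 = Nat.card H := by
  have h1 : Nat.card H = (Finset.univ.filter fun v => v ∈ H).card := by
    rw [Nat.card_eq_fintype_card, ← Fintype.card_subtype]
  have h2 : (Finset.univ.filter fun v => v ∈ H) =
      insert 0 (Finset.univ.filter fun v => v ∈ H ∧ v ≠ 0) := by
    ext v
    simp only [Finset.mem_filter, Finset.mem_univ, true_and, Finset.mem_insert]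
    by_cases hv : v = 0
    · subst hv
      simp [H.zero_mem]
    · simp [hv]
  rw [h1, h2, Finset.card_insert_of_notMem (by simp)]

theorem TR_arith {p e σ α E q s a Q : ℕ} (hp : p.Prime) (hq : q = p ^ e) (hs : s = p ^ σ)
    (ha : a = p ^ α) (hQ : Q = p ^ E) (heE : e < E) (hσe : σ < e) (hs1 : 1 < s)
    (h : (q - 1) * (a - 1) = (Q - 1) * (s - 1)) : False := by
  have hp2 := hp.two_le
  have hq1 : 1 ≤ q := by rw [hq]; exact Nat.one_le_pow _ _ hp.pos
  have ha1 : 1 ≤ a := by rw [ha]; exact Nat.one_le_pow _ _ hp.pos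
  have hQ1 : 1 ≤ Q := by rw [hQ]; exact Nat.one_le_pow _ _ hp.pos
  have h1 : q * a + Q + s = Q * s + q + a := by
    obtain ⟨q', rfl⟩ : ∃ q', q = q' + 1 := ⟨q - 1, by omega⟩
    obtain ⟨a', rfl⟩ : ∃ a', a = a' + 1 := ⟨a - 1, by omega⟩
    obtain ⟨Q', rfl⟩ : ∃ Q', Q = Q' + 1 := ⟨Q - 1, by omega⟩
    obtain ⟨s', rfl⟩ : ∃ s', s = s' + 1 := ⟨s - 1, by omega⟩
    rw [Nat.add_sub_cancel, Nat.add_sub_cancel, Nat.add_sub_cancel, Nat.add_sub_cancel] at h
    nlinarith
  have hmq : p ^ (σ + 1) ∣ q := by rw [hq]; exact pow_dvd_pow _ hσe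
  have hmQ : p ^ (σ + 1) ∣ Q := by rw [hQ]; exact pow_dvd_pow _ (by omega)
  have hsm : s < p ^ (σ + 1) := by
    rw [hs]
    exact Nat.pow_lt_pow_right hp.one_lt (Nat.lt_succ_self σ)
  have h2 : s ≡ a [MOD p ^ (σ + 1)] := by
    have h3 : q * a + Q + s ≡ s [MOD p ^ (σ + 1)] := by
      have h4 : p ^ (σ + 1) ∣ q * a + Q := dvd_add (hmq.mul_right a) hmQ
      have h5 := (Nat.modEq_zero_iff_dvd.2 h4).add_right s
      rwa [zero_add] at h5
    have h6 : Q * s + q + a ≡ a [MOD p ^ (σ + 1)] := by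
      have h4 : p ^ (σ + 1) ∣ Q * s + q := dvd_add (hmQ.mul_right s) hmq
      have h5 := (Nat.modEq_zero_iff_dvd.2 h4).add_right a
      rwa [zero_add] at h5
    rw [h1] at h3
    exact h3.symm.trans h6
  have has : a = s := by
    by_cases h3 : a < p ^ (σ + 1)
    · exact (Nat.ModEq.eq_of_lt_of_lt h2 hsm h3).symm
    · exfalso
      have h4 : p ^ (σ + 1) ∣ a := by
        rw [ha] at h3 ⊢
        refine pow_dvd_pow _ ?_
        by_contra h5
        exact h3 (Nat.pow_lt_pow_right hp.one_lt (not_le.1 h5))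
      have h5 : p ^ (σ + 1) ∣ s := (Nat.modEq_zero_iff_dvd).1
        (h2.trans (Nat.modEq_zero_iff_dvd.2 h4))
      exact absurd (Nat.le_of_dvd (by omega) h5) (not_le.2 hsm)
  rw [has] at h
  have h3 : q - 1 = Q - 1 := Nat.eq_of_mul_eq_mul_right (by omega) h
  have h4 : q < Q := by
    rw [hq, hQ]
    exact Nat.pow_lt_pow_right hp.one_lt heE
  omega

/-- All transvections with the given axis. -/
theorem TR_full {n : ℕ} (hn : 3 ≤ n) {F : Type*} [Field F] [Finite F]
    (K : Subgroup (GeneralLinearGroup (Fin n) F)) (hK : FlagTr K) {φ : Fin n → F} (hφ : φ ≠ 0)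
    (h : ∀ v : Fin n → F, v ≠ 0 → φ ⬝ᵥ v = 0 → ∃ c : F, c ≠ 0 ∧ inG K (tv (c • v) φ)) :
    ∀ v : Fin n → F, φ ⬝ᵥ v = 0 → inG K (tv v φ) := by
  classical
  have := Fintype.ofFinite F
  have htv0 : tv (0 : Fin n → F) φ = 1 := by rw [tv, Matrix.zero_vecMulVec, add_zero]
  let W : AddSubgroup (Fin n → F) :=
    { carrier := {v | φ ⬝ᵥ v = 0}
      zero_mem' := dotProduct_zero φ
      add_mem' := fun {a b} ha hb => by
        change φ ⬝ᵥ (a + b) = 0
        have ha' : φ ⬝ᵥ a = 0 := ha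
        have hb' : φ ⬝ᵥ b = 0 := hb
        rw [dotProduct_add, ha', hb', add_zero]
      neg_mem' := fun {a} ha => by
        change φ ⬝ᵥ (-a) = 0
        have ha' : φ ⬝ᵥ a = 0 := ha
        rw [dotProduct_neg, ha', neg_zero] }
  have hW : ∀ v, v ∈ W ↔ φ ⬝ᵥ v = 0 := fun v => Iff.rfl
  let A : AddSubgroup (Fin n → F) :=
    { carrier := {v | φ ⬝ᵥ v = 0 ∧ inG K (tv v φ)}
      zero_mem' := ⟨dotProduct_zero φ, 1, K.one_mem, by rw [htv0, Units.val_one]⟩
      add_mem' := fun {a b} ha hb => ⟨W.add_mem ha.1 hb.1, by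
        rw [← tv_mul_tv a b φ hb.1]
        exact TR_mul ha.2 hb.2⟩
      neg_mem' := fun {a} ha => ⟨W.neg_mem ha.1, by
        obtain ⟨k, hk, hka⟩ := ha.2
        refine ⟨k⁻¹, K.inv_mem hk, ?_⟩
        have h1 : tv a φ * tv (-a) φ = 1 := by
          rw [tv_mul_tv a (-a) φ (W.neg_mem ha.1), add_neg_cancel, htv0]
        have h2 : ((k⁻¹ : GeneralLinearGroup (Fin n) F) : Matrix (Fin n) (Fin n) F) *
            (k : Matrix (Fin n) (Fin n) F) = 1 := by
          rw [← Units.val_mul, inv_mul_cancel, Units.val_one]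
        calc ((k⁻¹ : GeneralLinearGroup (Fin n) F) : Matrix (Fin n) (Fin n) F)
            = ((k⁻¹ : GeneralLinearGroup (Fin n) F) : Matrix (Fin n) (Fin n) F) *
              (tv a φ * tv (-a) φ) := by rw [h1, mul_one]
          _ = tv (-a) φ := by rw [← hka, ← mul_assoc, h2, one_mul]⟩ }
  have hA : ∀ v, v ∈ A ↔ φ ⬝ᵥ v = 0 ∧ inG K (tv v φ) := fun v => Iff.rfl
  have hsW : ∀ (c : F) (v : Fin n → F), v ∈ W → c • v ∈ W := by
    intro c v hv
    rw [hW] at hv ⊢
    rw [dotProduct_smul, hv, smul_zero]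
  let S : (Fin n → F) → AddSubgroup F := fun v =>
    A.comap (LinearMap.toSpanSingleton F (Fin n → F) v).toAddMonoidHom
  have hS : ∀ v c, c ∈ S v ↔ c • v ∈ A := fun v c => Iff.rfl
  -- all groups `S v` have the same order
  have hle : ∀ v v', v ∈ W → v' ∈ W → v ≠ 0 → v' ≠ 0 → Nat.card (S v) ≤ Nat.card (S v') := by
    intro v v' hv hv' h0 h0'
    obtain ⟨k, hk, c, c', hc, hc', h1, h2⟩ := flag_pair K hK v φ v' φ h0 hφ hv h0' hφ hv'
    have h3 : ∀ x : S v, c'⁻¹ * c * (x : F) ∈ S v' := by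
      intro x
      have hx := (hS v x).1 x.2
      rw [hS]
      refine ⟨hsW _ _ hv', ?_⟩
      have h4 := TR_conj K hk (v := (x : F) • v) (v' := (x : F) • v') (c := c) hc' (by
        rw [Matrix.mulVec_smul, h1, smul_comm]) h2 hx.2
      rwa [smul_smul] at h4
    refine Nat.card_le_card_of_injective (fun x => (⟨_, h3 x⟩ : S v')) ?_
    intro x y hxy
    have h4 : c'⁻¹ * c * (x : F) = c'⁻¹ * c * (y : F) := congrArg Subtype.val hxy
    exact Subtype.ext (mul_left_cancel₀ (mul_ne_zero (inv_ne_zero hc') hc) h4)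
  -- a nonzero vector of `W`
  obtain ⟨p, hpchar⟩ := CharP.exists F
  obtain ⟨⟨e, he⟩, hp, hcF⟩ := FiniteField.card F p
  have hcF' : Nat.card F = p ^ e := by
    rw [Nat.card_eq_fintype_card, hcF]
    rfl
  have hcV : Nat.card (Fin n → F) = p ^ (e * n) := by
    rw [Nat.card_fun, Nat.card_eq_fintype_card (α := Fin n), Fintype.card_fin, hcF', pow_mul]
  obtain ⟨j₀, hj₀⟩ := Function.ne_iff.1 hφ
  have hj₀' : φ j₀ ≠ 0 := hj₀
  have hcW : Nat.card W = p ^ (e * (n - 1)) := by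
    let f : (Fin n → F) →+ F :=
      { toFun := fun v => φ ⬝ᵥ v
        map_zero' := dotProduct_zero φ
        map_add' := fun a b => dotProduct_add φ a b }
    have hker : f.ker = W := rfl
    have hsur : Function.Surjective f := by
      intro c
      refine ⟨Pi.single j₀ ((φ j₀)⁻¹ * c), ?_⟩
      change φ ⬝ᵥ Pi.single j₀ ((φ j₀)⁻¹ * c) = c
      rw [dotProduct_single, mul_inv_cancel_left₀ hj₀']
    have h1 : Nat.card W * Nat.card F = Nat.card (Fin n → F) := by
      rw [← hker, ← AddSubgroup.card_mul_index f.ker, AddSubgroup.index_ker,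
        AddMonoidHom.range_eq_top.2 hsur, AddSubgroup.card_top]
    rw [hcF', hcV] at h1
    have h2 : p ^ (e * n) = p ^ (e * (n - 1)) * p ^ e := by
      rw [← pow_add]
      congr 1
      obtain ⟨m, rfl⟩ : ∃ m, n = m + 1 := ⟨n - 1, by omega⟩
      rw [Nat.add_sub_cancel]
      ring
    rw [h2] at h1
    exact Nat.eq_of_mul_eq_mul_right (pow_pos hp.pos e) h1
  have heE : e < e * (n - 1) := by
    have h1 : e * 2 ≤ e * (n - 1) := Nat.mul_le_mul_left e (by omega)
    omega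
  have hWn : ∃ w ∈ W, w ≠ 0 := by
    by_contra hcon
    push Not at hcon
    have h1 : Nat.card W ≤ 1 := by
      rw [Finite.card_le_one_iff_subsingleton]
      exact ⟨fun a b => Subtype.ext ((hcon a a.2).trans (hcon b b.2).symm)⟩
    rw [hcW] at h1
    have h2 : 1 < p ^ (e * (n - 1)) := Nat.one_lt_pow (by omega) hp.one_lt
    omega
  obtain ⟨w, hw, hw0⟩ := hWn
  have hSeq : ∀ v ∈ W, v ≠ 0 → Nat.card (S v) = Nat.card (S w) := fun v hv h0 =>
    le_antisymm (hle v w hv hw h0 hw0) (hle w v hw hv hw0 h0)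
  have hs1 : 1 < Nat.card (S w) := by
    obtain ⟨c, hc, hc1⟩ := h w hw0 hw
    have h1 : c ∈ S w := ⟨hsW c w hw, hc1⟩
    have h2 : Nontrivial (S w) := ⟨⟨⟨c, h1⟩, 0, fun h3 => hc (congrArg Subtype.val h3)⟩⟩
    exact Finite.one_lt_card
  obtain ⟨σ, hσ, hsσ⟩ := (Nat.dvd_prime_pow hp).1
    (hcF' ▸ AddSubgroup.card_addSubgroup_dvd_card (S w))
  obtain ⟨α, -, haα⟩ := (Nat.dvd_prime_pow hp).1
    (hcV ▸ AddSubgroup.card_addSubgroup_dvd_card A)
  -- counting
  have hcount : (Nat.card F - 1) * (Nat.card A - 1) = (Nat.card W - 1) * (Nat.card (S w) - 1) := by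
    let WS : Finset (Fin n → F) := Finset.univ.filter fun v => v ∈ W ∧ v ≠ 0
    let AS : Finset (Fin n → F) := Finset.univ.filter fun v => v ∈ A ∧ v ≠ 0
    let FS : Finset F := Finset.univ.filter fun c => c ≠ 0
    have hWS : WS.card = Nat.card W - 1 := by
      rw [← TR_card W, Nat.add_sub_cancel]
    have hAS : AS.card = Nat.card A - 1 := by
      rw [← TR_card A, Nat.add_sub_cancel]
    have hFS : FS.card = Nat.card F - 1 := by
      have h1 : FS = Finset.univ.erase 0 := by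
        ext c
        simp [FS]
      rw [h1, Finset.card_erase_of_mem (Finset.mem_univ _), Finset.card_univ,
        Nat.card_eq_fintype_card]
    have h1 := Finset.sum_card_bipartiteAbove_eq_sum_card_bipartiteBelow
      (s := WS) (t := FS) (fun v c => c • v ∈ A)
    have h2 : ∀ v ∈ WS, (Finset.bipartiteAbove (fun v c => c • v ∈ A) FS v).card =
        Nat.card (S w) - 1 := by
      intro v hv
      have hv' := (Finset.mem_filter.1 hv).2
      rw [← hSeq v hv'.1 hv'.2, ← TR_card (S v), Nat.add_sub_cancel]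
      congr 1
      ext c
      simp only [Finset.bipartiteAbove, FS, Finset.mem_filter, Finset.mem_univ, true_and, hS]
      exact and_comm
    have h3 : ∀ c ∈ FS, (Finset.bipartiteBelow (fun v c => c • v ∈ A) WS c).card = AS.card := by
      intro c hc
      have hc0 : c ≠ 0 := (Finset.mem_filter.1 hc).2
      refine Finset.card_bij' (fun v _ => c • v) (fun v _ => c⁻¹ • v) ?_ ?_ ?_ ?_
      · intro v hv
        simp only [Finset.bipartiteBelow, WS, Finset.mem_filter, Finset.mem_univ, true_and] at hv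
        simp only [AS, Finset.mem_filter, Finset.mem_univ, true_and]
        exact ⟨hv.2, smul_ne_zero hc0 hv.1.2⟩
      · intro v hv
        simp only [AS, Finset.mem_filter, Finset.mem_univ, true_and] at hv
        simp only [Finset.bipartiteBelow, WS, Finset.mem_filter, Finset.mem_univ, true_and]
        refine ⟨⟨hsW _ _ hv.1.1, smul_ne_zero (inv_ne_zero hc0) hv.2⟩, ?_⟩
        rw [smul_smul, mul_inv_cancel₀ hc0, one_smul]
        exact hv.1
      · intro v _
        rw [smul_smul, inv_mul_cancel₀ hc0, one_smul]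
      · intro v _
        rw [smul_smul, mul_inv_cancel₀ hc0, one_smul]
    rw [Finset.sum_congr rfl h2, Finset.sum_congr rfl h3, Finset.sum_const, Finset.sum_const,
      smul_eq_mul, smul_eq_mul, hWS, hAS, hFS] at h1
    exact h1.symm
  have hσe : σ = e := by
    by_contra hne
    exact TR_arith hp hcF' hsσ haα hcW heE (lt_of_le_of_ne hσ hne) hs1 hcount
  -- conclusion
  intro v hv
  by_cases hv0 : v = 0
  · rw [hv0, htv0]
    exact ⟨1, K.one_mem, Units.val_one⟩
  have h1 : Nat.card (S v) = Nat.card F := by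
    rw [hSeq v hv hv0, hsσ, hσe, hcF']
  have h2 : S v = ⊤ := AddSubgroup.eq_top_of_card_eq _ h1
  have h3 : (1 : F) ∈ S v := by
    rw [h2]
    exact AddSubgroup.mem_top _
  rw [hS, one_smul] at h3
  exact h3.2

theorem tr {n : ℕ} (hn : 3 ≤ n) {F : Type*} [Field F] [Finite F]
    (K : Subgroup (GeneralLinearGroup (Fin n) F)) (hK : FlagTr K)
    (h : ∃ v φ : Fin n → F, v ≠ 0 ∧ φ ≠ 0 ∧ φ ⬝ᵥ v = 0 ∧ inG K (tv v φ)) :
    ContainsSL K := by
  obtain ⟨v₀, φ₀, hv₀, hφ₀, h0, hK0⟩ := h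
  have key : ∀ φ : Fin n → F, φ ≠ 0 → ∀ v : Fin n → F, φ ⬝ᵥ v = 0 → inG K (tv v φ) := by
    intro φ hφ
    refine TR_full hn K hK hφ fun v hv hvφ => ?_
    obtain ⟨k, hk, c, c', hc, hc', h1, h2⟩ :=
      flag_pair K hK v₀ φ₀ v φ hv₀ hφ₀ h0 hv hφ hvφ
    exact ⟨c'⁻¹ * c, mul_ne_zero (inv_ne_zero hc') hc, TR_conj K hk hc' h1 h2 hK0⟩
  refine gen_GL K fun i j hij c => ?_
  have h1 : (Pi.single j (1 : F) : Fin n → F) ≠ 0 := Pi.single_ne_zero_iff.2 one_ne_zero
  have h2 := key (Pi.single j 1) h1 (c • Pi.single i 1) (by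
    rw [dotProduct_smul, single_dotProduct, Pi.single_eq_of_ne hij.symm, mul_zero, smul_zero])
  rw [tv_smul, ← Pi.single_smul, smul_eq_mul, mul_one, tv_single] at h2
  exact h2

end Lin43
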