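import Pool.Agent.Lib.MP_43150e_al.Lin.T2
import Pool.Agent.Lib.MP_43150e_al.Lin.TR
import Pool.Agent.Lib.MP_43150e_al.Lin.EL
import Pool.Agent.Lib.MP_43150e_al.Lin.Sing
import Pool.Agent.Lib.MP_43150e_al.Lin.Cnt
import Pool.Agent.Lib.MP_43150e_al.Lin.Sc

/-! # Flag-transitive subgroups of `GL_n(F)`, `n ≥ 3`, contain `SL_n(F)` -/

set_option autoImplicit false

namespace Lin43

open Matrix

/-- `inG` is multiplicative. -/
theorem tn_inG_mul {n : ℕ} {F : Type*} [Field F] {K : Subgroup (GeneralLinearGroup (Fin n) F)}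
    {A B : Matrix (Fin n) (Fin n) F} (hA : inG K A) (hB : inG K B) : inG K (A * B) := by
  obtain ⟨a, ha, rfl⟩ := hA
  obtain ⟨b, hb, rfl⟩ := hB
  exact ⟨a * b, K.mul_mem ha hb, rfl⟩

theorem tn_inG_pow {n : ℕ} {F : Type*} [Field F] {K : Subgroup (GeneralLinearGroup (Fin n) F)}
    {A : Matrix (Fin n) (Fin n) F} (hA : inG K A) (k : ℕ) : inG K (A ^ k) := by
  obtain ⟨a, ha, rfl⟩ := hA
  exact ⟨a ^ k, K.pow_mem ha k, by rw [Units.val_pow_eq_pow_val]⟩

theorem tn_blk_pow {m : ℕ} {F : Type*} [Field F] (a : F) (w : Fin m → F)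
    (D : Matrix (Fin m) (Fin m) F) (k : ℕ) :
    ∃ w' : Fin m → F, (blk a w D) ^ k = blk (a ^ k) w' (D ^ k) := by
  induction k with
  | zero => exact ⟨0, by rw [pow_zero, pow_zero, pow_zero, blk_one]⟩
  | succ k ih =>
    obtain ⟨w', hw'⟩ := ih
    exact ⟨_, by rw [pow_succ, hw', blk_mul, ← pow_succ, ← pow_succ]⟩

/-- A group with `SL_m` in `pen K` satisfies the hypothesis of `el`. -/
theorem tn_el_hyp {m : ℕ} {F : Type*} [Field F]
    (K : Subgroup (GeneralLinearGroup (Fin (m + 1)) F)) (h : ContainsSL (pen K)) :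
    ∀ D : SpecialLinearGroup (Fin m) F, ∃ (a : F) (w : Fin m → F),
      inG K (blk a w (D : Matrix (Fin m) (Fin m) F)) := by
  intro D
  obtain ⟨D', hD', hD'e⟩ := h D
  rw [← hD'e]
  exact (mem_pen K D').1 hD'

theorem tn_scalar_pen {m : ℕ} {F : Type*} [Field F]
    (K : Subgroup (GeneralLinearGroup (Fin (m + 1)) F))
    (h : ∀ c : F, c ≠ 0 → inG K (Matrix.scalar (Fin (m + 1)) c)) :
    ∀ c : F, c ≠ 0 → inG (pen K) (Matrix.scalar (Fin m) c) := by
  intro c hc
  refine ⟨Units.map (Matrix.scalar (Fin m)).toMonoidHom (Units.mk0 c hc), ?_, rfl⟩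
  rw [mem_pen]
  refine ⟨c, 0, ?_⟩
  have h1 : blk c (0 : Fin m → F) (((Units.map (Matrix.scalar (Fin m)).toMonoidHom
      (Units.mk0 c hc) : GeneralLinearGroup (Fin m) F)) : Matrix (Fin m) (Fin m) F) =
      Matrix.scalar (Fin (m + 1)) c := by
    change blk c (0 : Fin m → F) (Matrix.scalar (Fin m) c) = _
    ext i j
    refine Fin.cases ?_ (fun i => ?_) i <;> refine Fin.cases ?_ (fun j => ?_) j
    · rw [blk_zz, Matrix.scalar_apply, Matrix.diagonal_apply_eq]
    · rw [blk_zs, Matrix.scalar_apply, Matrix.diagonal_apply_ne _ (Fin.succ_ne_zero j).symm,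
        Pi.zero_apply]
    · rw [blk_sz, Matrix.scalar_apply, Matrix.diagonal_apply_ne _ (Fin.succ_ne_zero i)]
    · rw [blk_ss, Matrix.scalar_apply, Matrix.scalar_apply, Matrix.diagonal_apply,
        Matrix.diagonal_apply]
      simp only [Fin.succ_inj]
  rw [h1]
  exact h c hc

/-- Characteristic 2: an involution `blk 1 w [[1, y], [0, 1]]`, `y ≠ 0`: a transvection. -/
theorem tn_tv_of_char_two {F : Type*} [Field F] (h2 : (2 : F) = 0)
    (K : Subgroup (GeneralLinearGroup (Fin 3) F)) (w : Fin 2 → F) (y : F) (hy : y ≠ 0)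
    (hK : inG K (blk 1 w !![1, y; 0, 1])) :
    ∃ v φ : Fin 3 → F, v ≠ 0 ∧ φ ≠ 0 ∧ φ ⬝ᵥ v = 0 ∧ inG K (tv v φ) := by
  by_cases hw : w 0 = 0
  · refine ⟨![w 1, y, 0], ![0, 0, 1], ?_, ?_, ?_, ?_⟩
    · intro h
      exact hy (congrFun h 1)
    · intro h
      exact one_ne_zero (congrFun h 2)
    · simp [dotProduct, Fin.sum_univ_three]
    · have h0 : blk 1 w !![1, y; 0, 1] = !![1, w 0, w 1; 0, 1, y; 0, 0, 1] := by
        ext i j
        fin_cases i <;> fin_cases j <;> rfl
      have h1 : tv ![w 1, y, 0] ![0, 0, 1] = blk 1 w !![1, y; 0, 1] := by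
        rw [h0, hw]
        ext i j
        fin_cases i <;> fin_cases j <;> simp [tv]
      rw [h1]
      exact hK
  · have h3 := tn_inG_mul hK hK
    rw [blk_mul] at h3
    have h4 : (!![1, y; 0, 1] : Matrix (Fin 2) (Fin 2) F) * !![1, y; 0, 1] = 1 := by
      ext i j
      fin_cases i <;> fin_cases j <;> simp [Matrix.mul_apply, Fin.sum_univ_two]
      rw [← two_mul, h2, zero_mul]
    rw [h4, mul_one, one_smul, blk_one_eq_tv] at h3
    refine ⟨_, _, ?_, ?_, ?_, h3⟩
    · intro h
      have h5 := congrFun h 0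
      rw [Pi.single_eq_same, Pi.zero_apply] at h5
      exact one_ne_zero h5
    · intro h
      have h5 := congrFun h (Fin.succ 1)
      rw [Fin.cons_succ, Pi.zero_apply] at h5
      have h6 : w 1 + (w 0 * y + w 1 * 1) = 0 := by
        rw [← h5, Pi.add_apply, Matrix.vecMul, dotProduct, Fin.sum_univ_two]
        rfl
      have h7 : w 0 * y = 0 := by
        have h8 : w 0 * y + 2 * w 1 = 0 := by
          rw [← h6]
          ring
        rwa [h2, zero_mul, add_zero] at h8
      rcases mul_eq_zero.1 h7 with h8 | h8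
      · exact hw h8
      · exact hy h8
    · rw [dotProduct_single, Fin.cons_zero, zero_mul]

/-- A group of order at most two: a nontrivial element is an involution. -/
theorem tn_exists_unip {F : Type*} [Field F] [Finite F] (h2 : (2 : F) = 0)
    (L : Subgroup (GeneralLinearGroup (Fin 2) F))
    (h : Nat.card {l : L // ((l : GeneralLinearGroup (Fin 2) F) :
        Matrix (Fin 2) (Fin 2) F).mulVec ![1, 0] = ![1, 0]} ≤ 2)
    (h1 : ¬ Nat.card {l : L // ((l : GeneralLinearGroup (Fin 2) F) :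
        Matrix (Fin 2) (Fin 2) F).mulVec ![1, 0] = ![1, 0]} ≤ 1) :
    ∃ y : F, y ≠ 0 ∧ inG L !![1, y; 0, 1] := by
  classical
  set S := {l : L // ((l : GeneralLinearGroup (Fin 2) F) :
        Matrix (Fin 2) (Fin 2) F).mulVec ![1, 0] = ![1, 0]} with hS
  have hfin : Finite S := inferInstance
  have hnt : Nontrivial S := by
    rw [← Finite.one_lt_card_iff_nontrivial]
    omega
  let o : S := ⟨1, by
    change (1 : Matrix (Fin 2) (Fin 2) F).mulVec ![1, 0] = ![1, 0]
    rw [Matrix.one_mulVec]⟩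
  obtain ⟨l, hl⟩ := exists_ne o
  have hll : (((l.1 * l.1 : L) : GeneralLinearGroup (Fin 2) F) :
        Matrix (Fin 2) (Fin 2) F).mulVec ![1, 0] = ![1, 0] := by
    change (((l.1 : GeneralLinearGroup (Fin 2) F) : Matrix (Fin 2) (Fin 2) F) *
      ((l.1 : GeneralLinearGroup (Fin 2) F) : Matrix (Fin 2) (Fin 2) F)).mulVec ![1, 0] = _
    rw [← Matrix.mulVec_mulVec, l.2, l.2]
  let l2 : S := ⟨l.1 * l.1, hll⟩
  have hl2 : l2 = o := by
    by_contra hne
    have hne2 : l2 ≠ l := by
      intro h3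
      have h4 : l.1 * l.1 = l.1 := congrArg Subtype.val h3
      exact hl (Subtype.ext (mul_eq_left.1 h4))
    have h5 : ({o, l, l2} : Finset S).card = 3 := by
      rw [Finset.card_eq_three]
      exact ⟨o, l, l2, hl.symm, Ne.symm hne, hne2.symm, rfl⟩
    have := Fintype.ofFinite S
    have h6 := Finset.card_le_univ ({o, l, l2} : Finset S)
    rw [h5, ← Nat.card_eq_fintype_card] at h6
    omega
  have hsq : ((l.1 : GeneralLinearGroup (Fin 2) F) : Matrix (Fin 2) (Fin 2) F) *
      ((l.1 : GeneralLinearGroup (Fin 2) F) : Matrix (Fin 2) (Fin 2) F) = 1 := by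
    have h3 : l.1 * l.1 = 1 := congrArg Subtype.val hl2
    have h4 : ((l.1 : GeneralLinearGroup (Fin 2) F)) * (l.1 : GeneralLinearGroup (Fin 2) F) = 1 :=
      congrArg Subtype.val h3
    exact congrArg Units.val h4
  set M := ((l.1 : GeneralLinearGroup (Fin 2) F) : Matrix (Fin 2) (Fin 2) F) with hM
  have hc := l.2
  rw [← hM] at hc
  have h00 : M 0 0 = 1 := by
    have h3 := congrFun hc 0
    simpa [Matrix.mulVec, dotProduct, Fin.sum_univ_two] using h3
  have h10 : M 1 0 = 0 := by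
    have h3 := congrFun hc 1
    simpa [Matrix.mulVec, dotProduct, Fin.sum_univ_two] using h3
  have h11 : M 1 1 = 1 := by
    have h3 := congrFun (congrFun hsq 1) 1
    rw [Matrix.mul_apply, Fin.sum_univ_two, h10, zero_mul, zero_add, Matrix.one_apply_eq] at h3
    have h4 : (M 1 1 - 1) * (M 1 1 - 1) = 0 := by
      have h5 : (M 1 1 - 1) * (M 1 1 - 1) = M 1 1 * M 1 1 - 1 + 2 * (1 - M 1 1) := by ring
      rw [h5, h3, h2, sub_self, zero_mul, add_zero]
    exact sub_eq_zero.1 (mul_self_eq_zero.1 h4)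
  have hMe : M = !![1, M 0 1; 0, 1] := by
    ext i j
    fin_cases i <;> fin_cases j
    · exact h00
    · rfl
    · exact h10
    · exact h11
  refine ⟨M 0 1, ?_, ?_⟩
  · intro h0
    apply hl
    apply Subtype.ext
    apply Subtype.ext
    apply Units.ext
    change M = 1
    rw [hMe, h0]
    ext i j
    fin_cases i <;> fin_cases j <;> rfl
  · rw [← hMe]
    exact ⟨_, l.1.2, rfl⟩

/-- Arithmetic at the end of T3. -/
theorem t3_arith {q k l x y : ℕ} (hq : 59 < q) (hk : 0 < k) (hl : 0 < l)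
    (h1 : (3 * q + 1) * l ≤ 4 * (q + 1) * x) (h2 : k * x + l * y ≤ k * l)
    (h3 : 4 * k ≤ 15 * y) : False := by
  have e1 : k * ((3 * q + 1) * l) ≤ k * (4 * (q + 1) * x) := Nat.mul_le_mul_left k h1
  have e2 : (4 * (q + 1)) * (k * x + l * y) ≤ (4 * (q + 1)) * (k * l) :=
    Nat.mul_le_mul_left _ h2
  have e3 : (4 * (q + 1) * l) * (4 * k) ≤ (4 * (q + 1) * l) * (15 * y) :=
    Nat.mul_le_mul_left _ h3
  have hkl : 0 < k * l := Nat.mul_pos hk hl
  have e4 : 16 * (q + 1) * (k * l) + 15 * ((3 * q + 1) * (k * l)) ≤ 60 * (q + 1) * (k * l) := by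
    nlinarith
  have e5 : (16 * (q + 1) + 15 * (3 * q + 1)) * (k * l) ≤ (60 * (q + 1)) * (k * l) := by
    rw [add_mul, mul_assoc 15]
    exact e4
  have e6 := Nat.le_of_mul_le_mul_right e5 hkl
  omega

/-- Paragraph 5, T3. `K' = addSc K`, `L = pen K'`, `t2`. First alternative: `containsSL_of_full`, `el`, `tr`.
Second, char 2 and `|L_(e_0)| = 2`: `D = [[1, y], [0, 1]] ∈ L`, `y ≠ 0`, `k = blk a w D ∈ K'`, `k^(q-1) = blk 1 w' D`; it
or its square `blk 1 (0, w'_0 y) 1` is a transvection: `tr`. Otherwise `cntL`, `cntK`, `sing` (with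
`exists_prime_five_le`, `dvd_card_of_point_trans`): `16 (q+1) ≤ 15 (q+3)`, contradiction. At the end
`containsSL_of_addSc`. -/
theorem t3 {F : Type*} [Field F] [Fintype F] (hq : 59 < Fintype.card F)
    (K : Subgroup (GeneralLinearGroup (Fin 3) F)) (hK : FlagTr K) : ContainsSL K := by
  apply containsSL_of_addSc
  have hK' : FlagTr (addSc K) := flagTr_addSc K hK
  have hsc' : ∀ c : F, c ≠ 0 → inG (addSc K) (Matrix.scalar (Fin 3) c) := scalar_addSc K
  generalize addSc K = K' at hK' hsc'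
  have hL : FlagTr (pen K') := flagTr_pen K' hK'
  have hscL := tn_scalar_pen K' hsc'
  have hptL := flag_point (pen K') hL
  have hptK := flag_point K' hK'
  have hvec := vec_trans_of_point_trans (pen K') hscL hptL
  have he0 : (![1, 0] : Fin 2 → F) ≠ 0 := by
    intro h
    exact one_ne_zero (congrFun h 0)
  have htr : ∀ v : Fin 2 → F, v ≠ 0 → ∃ l ∈ pen K',
      (l : Matrix (Fin 2) (Fin 2) F).mulVec ![1, 0] = v := fun v hv => hvec _ v he0 hv
  rcases t2 hq (pen K') hscL htr with hfull | ⟨hf, _⟩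
  · have h1 : ContainsSL (pen K') := containsSL_of_full (pen K') hptL hfull
    have hF : 4 ≤ Nat.card F := by
      rw [Nat.card_eq_fintype_card]
      omega
    exact tr (le_refl 3) K' hK' (el (le_refl 2) hF K' (tn_el_hyp K' h1))
  · by_cases hA : (2 : F) ≠ 0 ∨ Nat.card {l : pen K' // ((l : GeneralLinearGroup (Fin 2) F) :
        Matrix (Fin 2) (Fin 2) F).mulVec ![1, 0] = ![1, 0]} ≤ 1
    · exfalso
      obtain ⟨r, hrp, hr5, hrq⟩ := exists_prime_five_le (Fintype.card F) (by omega)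
      have : Fact r.Prime := ⟨hrp⟩
      have hrK : r ∣ Nat.card K' := hrq.trans (dvd_card_of_point_trans K' hptK)
      exact t3_arith hq Nat.card_pos Nat.card_pos (cntL (pen K') hscL htr hf hA)
        (cntK K' hptK) (sing K' hsc' r hr5 hrq hrK)
    · rw [not_or, not_not] at hA
      obtain ⟨h2, hf1⟩ := hA
      obtain ⟨y, hy, D, hD, hDe⟩ := tn_exists_unip h2 (pen K') hf hf1
      obtain ⟨a, w, haw⟩ := (mem_pen K' D).1 hD
      rw [hDe] at haw
      have ha : a ≠ 0 := by
        intro h0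
        obtain ⟨k, _, hk⟩ := haw
        have h3 : (k : Matrix (Fin 3) (Fin 3) F).det ≠ 0 :=
          ((Matrix.isUnit_iff_isUnit_det _).1 k.isUnit).ne_zero
        rw [hk, blk_det, h0, zero_mul] at h3
        exact h3 rfl
      obtain ⟨w', hw'⟩ := tn_blk_pow a w !![1, y; 0, 1] (Fintype.card F - 1)
      have h3 := tn_inG_pow haw (Fintype.card F - 1)
      rw [hw', FiniteField.pow_card_sub_one_eq_one a ha] at h3
      have h4 : (!![1, y; 0, 1] : Matrix (Fin 2) (Fin 2) F) * !![1, y; 0, 1] = 1 := by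
        ext i j
        fin_cases i <;> fin_cases j <;> simp [Matrix.mul_apply, Fin.sum_univ_two]
        rw [← two_mul, h2, zero_mul]
      have heven : Fintype.card F % 2 = 0 := by
        have : CharP F 2 := by
          apply CharTwo.of_one_ne_zero_of_two_eq_zero one_ne_zero h2
        exact FiniteField.even_card_of_char_two (ringChar.eq F 2)
      obtain ⟨t, ht⟩ : ∃ t, Fintype.card F - 1 = 2 * t + 1 := ⟨(Fintype.card F - 2) / 2, by omega⟩
      rw [ht, pow_succ, pow_mul, pow_two, h4, one_pow, one_mul] at h3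
      exact tr (le_refl 3) K' hK' (tn_tv_of_char_two h2 K' w' y hy h3)

/-- Induction on `m`: `pen K` is flag-transitive, so contains `SL_m(F)`; `el`, `tr`. -/
theorem tn {m : ℕ} (hm : 2 ≤ m) {F : Type*} [Field F] [Fintype F]
    (hq : 59 < Fintype.card F) (K : Subgroup (GeneralLinearGroup (Fin (m + 1)) F))
    (hK : FlagTr K) : ContainsSL K := by
  induction m, hm using Nat.le_induction with
  | base => exact t3 hq K hK
  | succ m hm ih =>
    have hF : 4 ≤ Nat.card F := by
      rw [Nat.card_eq_fintype_card]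
      omega
    have h1 : ContainsSL (pen K) := ih (pen K) (flagTr_pen K hK)
    exact tr (by omega) K hK (el (by omega) hF K (tn_el_hyp K h1))

/-- The version for subgroups of `SL_n(F)` needed in the main theorem (first alternative of
`e1`). -/
theorem tn_SL {m : ℕ} (hm : 2 ≤ m) {F : Type*} [Field F] [Fintype F]
    (hq : 59 < Fintype.card F) (K : Subgroup (SpecialLinearGroup (Fin (m + 1)) F))
    (hK : ∀ s : SpecialLinearGroup (Fin (m + 1)) F, ∃ k ∈ K,
      UT ((k⁻¹ * s : SpecialLinearGroup (Fin (m + 1)) F) :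
        Matrix (Fin (m + 1)) (Fin (m + 1)) F)) : K = ⊤ := by
  have hfl : FlagTr (K.map SpecialLinearGroup.toGL) := by
    intro g
    have hd : (g : Matrix (Fin (m + 1)) (Fin (m + 1)) F).det ≠ 0 :=
      ((Matrix.isUnit_iff_isUnit_det _).1 g.isUnit).ne_zero
    set d := (g : Matrix (Fin (m + 1)) (Fin (m + 1)) F).det with hdd
    let b : Fin (m + 1) → F := fun i => if i = 0 then d else 1
    let b' : Fin (m + 1) → F := fun i => if i = 0 then d⁻¹ else 1
    have hbb : Matrix.diagonal b' * Matrix.diagonal b = 1 := by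
      rw [Matrix.diagonal_mul_diagonal, ← Matrix.diagonal_one]
      congr 1
      funext i
      by_cases hi : i = 0
      · simp [b, b', hi, inv_mul_cancel₀ hd]
      · simp [b, b', hi]
    have hdet' : (Matrix.diagonal b').det = d⁻¹ := by
      rw [Matrix.det_diagonal, Fin.prod_univ_succ]
      simp [b', Fin.succ_ne_zero]
    let s : SpecialLinearGroup (Fin (m + 1)) F :=
      ⟨(g : Matrix (Fin (m + 1)) (Fin (m + 1)) F) * Matrix.diagonal b', by
        rw [Matrix.det_mul, hdet', ← hdd, mul_inv_cancel₀ hd]⟩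
    have hs : (s : Matrix (Fin (m + 1)) (Fin (m + 1)) F) * Matrix.diagonal b = g := by
      change (g : Matrix (Fin (m + 1)) (Fin (m + 1)) F) * Matrix.diagonal b' *
        Matrix.diagonal b = g
      rw [Matrix.mul_assoc, hbb, Matrix.mul_one]
    obtain ⟨k, hk, hut⟩ := hK s
    refine ⟨SpecialLinearGroup.toGL k, Subgroup.mem_map_of_mem _ hk, ?_⟩
    intro i j hij
    have h1 : (((SpecialLinearGroup.toGL k)⁻¹ * g : GeneralLinearGroup (Fin (m + 1)) F) :
        Matrix (Fin (m + 1)) (Fin (m + 1)) F) =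
        ((k⁻¹ * s : SpecialLinearGroup (Fin (m + 1)) F) :
        Matrix (Fin (m + 1)) (Fin (m + 1)) F) * Matrix.diagonal b := by
      rw [← map_inv]
      change ((k⁻¹ : SpecialLinearGroup (Fin (m + 1)) F) :
        Matrix (Fin (m + 1)) (Fin (m + 1)) F) * (g : Matrix (Fin (m + 1)) (Fin (m + 1)) F) =
        (((k⁻¹ : SpecialLinearGroup (Fin (m + 1)) F) :
        Matrix (Fin (m + 1)) (Fin (m + 1)) F) * (s : Matrix (Fin (m + 1)) (Fin (m + 1)) F)) *
        Matrix.diagonal b
      rw [Matrix.mul_assoc, hs]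
    rw [h1, Matrix.mul_diagonal, hut i j hij, zero_mul]
  have hcon := tn hm hq (K.map SpecialLinearGroup.toGL) hfl
  rw [eq_top_iff]
  intro s _
  obtain ⟨k, hk, hks⟩ := hcon s
  obtain ⟨k', hk', rfl⟩ := Subgroup.mem_map.1 hk
  have h1 : k' = s := Subtype.ext hks
  rw [← h1]
  exact hk'

end Lin43
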