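import Pool.Agent.Lib.MP_43150e_al.TwoTr
import Pool.Agent.Lib.MP_43150e_al.Lin.E1
import Pool.Agent.Lib.MP_43150e_al.Lin.RedFin
import Pool.Agent.Lib.MP_43150e_al.Lin.TFc
import Pool.Agent.Lib.MP_43150e_al.Lin.Tn
import Pool.Agent.Lib.MP_43150e_al.Lin.N2T
import Pool.Agent.Lib.MP_43150e_al.Lin.N2B
import Pool.Agent.Lib.MP_43150e_al.Lin.N2C
import Pool.Agent.Lib.MP_43150e_al.Lin.N2O
import Pool.Agent.Lib.MP_43150e_al.Lin.N2E
import Pool.Agent.Lib.MP_43150e_al.Lin.N2Q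

/-! # The case `k = 1` -/

set_option autoImplicit false

namespace Lin43

open Matrix Module MulAction Spr43

/-- `n ≥ 3`: 2-transitive. -/
theorem one_big {m : ℕ} (hm : 2 ≤ m) {F Γ Ω : Type*} [Field F] [Fintype F]
    (hq : 59 < Fintype.card F) [Group Γ] [MulAction Γ Ω] [Fintype Ω] [DecidableEq Ω]
    (hprim : IsPreprimitive Γ Ω)
    (j : ProjectiveSpecialLinearGroup (Fin (m + 1)) F →* Γ)
    (hj : ∀ g : Γ, ∃ β : ProjectiveSpecialLinearGroup (Fin (m + 1)) F ≃*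
      ProjectiveSpecialLinearGroup (Fin (m + 1)) F, ∀ t, j (β t) = g * j t * g⁻¹)
    (htr : ∀ x y : Ω, ∃ t, j t • x = y) (hsp : IsSpreading Γ Ω) (x : Ω) (hx : ∃ y : Ω, y ≠ x) :
    ∀ y z y' z' : Ω, y ≠ z → y' ≠ z' → ∃ t, j t • y = y' ∧ j t • z = z' := by
  have hne : stabS j x ≠ ⊤ := by
    intro h
    obtain ⟨y, hy⟩ := hx
    obtain ⟨t, ht⟩ := htr x y
    obtain ⟨s, rfl⟩ := QuotientGroup.mk'_surjective _ t
    have hs : s ∈ stabS j x := by rw [h]; trivial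
    rw [mem_stabS] at hs
    exact hy (ht.symm.trans hs)
  by_cases hirr : ∀ W : Submodule F (Fin (m + 1) → F),
      (∀ k ∈ stabS j x, ∀ w ∈ W, (k : Matrix (Fin (m + 1)) (Fin (m + 1)) F).mulVec w ∈ W) →
        W = ⊥ ∨ W = ⊤
  · exfalso
    rcases e1 j hj hsp x with h | h
    · exact hne (tn_SL hm hq _ h)
    · exact hne (tf_irr hm hq _ h hirr)
  · push Not at hirr
    obtain ⟨W, hW, h0, h1⟩ := hirr
    exact red_fin hm hprim j hj htr hsp x W h0 h1 hW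

/-- Flag-transitive subgroups are transitive on points (`n = 2`). -/
theorem point_trans_of_FT {F : Type*} [Field F] (K : Subgroup (SpecialLinearGroup (Fin 2) F))
    (h : ∀ s : SpecialLinearGroup (Fin 2) F, ∃ k ∈ K,
      UT ((k⁻¹ * s : SpecialLinearGroup (Fin 2) F) : Matrix (Fin 2) (Fin 2) F))
    (v v' : Fin 2 → F) (hv : v ≠ 0) (hv' : v' ≠ 0) :
    ∃ k ∈ K, ∃ c : F, c ≠ 0 ∧ (k : Matrix (Fin 2) (Fin 2) F).mulVec v = c • v' := by
  -- every nonzero vector is a nonzero multiple of some `k e_0`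
  have key : ∀ w : Fin 2 → F, w ≠ 0 → ∃ k ∈ K, ∃ c : F, c ≠ 0 ∧
      w = c • (k : Matrix (Fin 2) (Fin 2) F).mulVec ![1, 0] := by
    intro w hw
    have h10 : (![1, 0] : Fin 2 → F) ≠ 0 := by
      intro h0
      have := congrFun h0 0
      simp at this
    obtain ⟨s, hs⟩ := sl_trans (le_refl 2) ![1, 0] w h10 hw
    obtain ⟨k, hk, hb⟩ := h s
    set b : SpecialLinearGroup (Fin 2) F := k⁻¹ * s with hbdef
    have hsb : s = k * b := by rw [hbdef]; group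
    have hb10 : (b : Matrix (Fin 2) (Fin 2) F) 1 0 = 0 := hb 1 0 (by decide)
    have hbe : (b : Matrix (Fin 2) (Fin 2) F).mulVec ![1, 0] =
        (b : Matrix (Fin 2) (Fin 2) F) 0 0 • (![1, 0] : Fin 2 → F) := by
      funext i
      fin_cases i
      · simp [Matrix.mulVec, dotProduct, Fin.sum_univ_two]
      · simp [Matrix.mulVec, dotProduct, Fin.sum_univ_two, hb10]
    have hw' : w = (b : Matrix (Fin 2) (Fin 2) F) 0 0 •
        (k : Matrix (Fin 2) (Fin 2) F).mulVec ![1, 0] := by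
      have hco : ((k * b : SpecialLinearGroup (Fin 2) F) : Matrix (Fin 2) (Fin 2) F) =
          (k : Matrix (Fin 2) (Fin 2) F) * (b : Matrix (Fin 2) (Fin 2) F) := rfl
      rw [← hs, hsb, hco, ← Matrix.mulVec_mulVec, hbe, Matrix.mulVec_smul]
    refine ⟨k, hk, _, ?_, hw'⟩
    intro h0
    rw [h0, zero_smul] at hw'
    exact hw hw'
  obtain ⟨k1, hk1, c1, hc1, e1⟩ := key v hv
  obtain ⟨k2, hk2, c2, hc2, e2⟩ := key v' hv'
  refine ⟨k2 * k1⁻¹, K.mul_mem hk2 (K.inv_mem hk1), c1 * c2⁻¹, mul_ne_zero hc1 (inv_ne_zero hc2),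
    ?_⟩
  have h3 : (k1⁻¹ : SpecialLinearGroup (Fin 2) F) * k1 = 1 := inv_mul_cancel k1
  have h4 : ((k1⁻¹ : SpecialLinearGroup (Fin 2) F) : Matrix (Fin 2) (Fin 2) F) *
      (k1 : Matrix (Fin 2) (Fin 2) F) = 1 := congrArg Subtype.val h3
  have hco : ((k2 * k1⁻¹ : SpecialLinearGroup (Fin 2) F) : Matrix (Fin 2) (Fin 2) F) =
      (k2 : Matrix (Fin 2) (Fin 2) F) *
        ((k1⁻¹ : SpecialLinearGroup (Fin 2) F) : Matrix (Fin 2) (Fin 2) F) := rfl
  rw [e2, e1, hco, ← Matrix.mulVec_mulVec, Matrix.mulVec_smul, Matrix.mulVec_mulVec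
    (M := ((k1⁻¹ : SpecialLinearGroup (Fin 2) F) : Matrix (Fin 2) (Fin 2) F)), h4,
    Matrix.one_mulVec, Matrix.mulVec_smul, smul_smul, mul_assoc, inv_mul_cancel₀ hc2, mul_one]

/-- `n = 2`: QI, and 2-transitive in odd characteristic. -/
theorem one_two {F Γ Ω : Type*} [Field F] [Fintype F]
    (hq : 59 < Fintype.card F) [Group Γ] [Finite Γ] [MulAction Γ Ω] [Fintype Ω] [DecidableEq Ω]
    (hprim : IsPreprimitive Γ Ω)
    (j : ProjectiveSpecialLinearGroup (Fin 2) F →* Γ)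
    (hj : ∀ g : Γ, ∃ β : ProjectiveSpecialLinearGroup (Fin 2) F ≃*
      ProjectiveSpecialLinearGroup (Fin 2) F, ∀ t, j (β t) = g * j t * g⁻¹)
    (htr : ∀ x y : Ω, ∃ t, j t • x = y) (hsp : IsSpreading Γ Ω) (x : Ω) (hx : ∃ y : Ω, y ≠ x) :
    IsQI Γ Ω ∧ ((2 : F) ≠ 0 →
      ∀ y z y' z' : Ω, y ≠ z → y' ≠ z' → ∃ t, j t • y = y' ∧ j t • z = z') := by
  have hΩ : Nontrivial Ω := by
    obtain ⟨y, hy⟩ := hx
    exact ⟨⟨y, x, hy⟩⟩
  have hne : stabS j x ≠ ⊤ := by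
    intro h
    obtain ⟨y, hy⟩ := hx
    obtain ⟨t, ht⟩ := htr x y
    obtain ⟨s, rfl⟩ := QuotientGroup.mk'_surjective _ t
    have hs : s ∈ stabS j x := by rw [h]; trivial
    rw [mem_stabS] at hs
    exact hy (ht.symm.trans hs)
  rcases e1 j hj hsp x with h | h
  · obtain ⟨z, hz, hc, c, hcK, hcz, h1, h2⟩ := n2_ft hq (stabS j x) h hne
    have hle : stabS j x ≤ nz z := le_nz (stabS j x) z hz hc c hcK hcz h1 h2
    have hK : stabS j x = nz z :=
      n2_block hq hprim j hj htr x z hz hle ⟨c, hcK, hcz, h1, h2⟩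
    by_cases h20 : (2 : F) = 0
    · refine ⟨?_, fun h => absurd h20 h⟩
      obtain ⟨z', ht', hz', hn'⟩ := n2_even h20 z hz
      by_cases hp : (Fintype.card F - 1).Prime
      · exact n2_even_qi hq h20 hp j htr x z' hz' ht' (hK.trans hn'.symm)
      · exact absurd hsp (n2_even_not_spreading hq h20 hp j hj htr x z' hz' (hK.trans hn'.symm))
    · exfalso
      have hpt := fun v v' hv hv' => point_trans_of_FT (stabS j x) h v v' hv hv'
      rw [hK] at hpt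
      obtain ⟨hns, z', hz', hn'⟩ := n2_odd h20 z hz hpt
      exact n2_odd_not_spreading hq j hj htr x hns z' hz' (hK.trans hn'.symm) hsp
  · obtain ⟨v, hv, hK⟩ := n2_tf hq (stabS j x) h hne
    have h2 := two_tr_of_stW le_rfl j htr x (Submodule.span F {v})
      (Or.inl (finrank_span_singleton hv)) hK
    refine ⟨isQI_of_two_transitive hΩ ?_, fun _ => h2⟩
    intro y z y' z' hyz hyz'
    obtain ⟨t, h1, h2⟩ := h2 y z y' z' hyz hyz'
    exact ⟨j t, h1, h2⟩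

end Lin43
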