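import Pool.Agent.Lib.MP_43150e_al.Main
import Pool.Agent.Lib.MP_43150e_al.Lin.One
import Pool.Agent.Lib.MP_43150e_al.Lin.CaseBL

/-! # Theorem L -/

set_option autoImplicit false

namespace Lin43

open Matrix MulAction Spr43

theorem main_lin {Ω : Type*} [Fintype Ω] [DecidableEq Ω] (hΩ : Nontrivial Ω)
    (G : Subgroup (Equiv.Perm Ω)) (htr : IsPretransitive G Ω) (hsp : IsSpreading G Ω)
    (M : Subgroup G) [M.Normal] {F : Type*} [Field F] [Fintype F] (hq : 59 < Fintype.card F)
    (n k : ℕ) (hn : 2 ≤ n) (hk : 1 ≤ k)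
    (e : M ≃* (Fin k → ProjectiveSpecialLinearGroup (Fin n) F)) :
    IsQI G Ω ∧ ((3 ≤ n ∨ (2 : F) ≠ 0) →
      ∀ y z y' z' : Ω, y ≠ z → y' ≠ z' → ∃ g : G, g • y = y' ∧ g • z = z') := by
  classical
  have hprim : IsPreprimitive G Ω := preprimitive_of_spreading hsp
  have hF4 : 4 ≤ Nat.card F := by rw [Nat.card_eq_fintype_card]; omega
  have hsimple : IsSimpleGroup (ProjectiveSpecialLinearGroup (Fin n) F) := psl_simple hn hF4
  have hT := psl_noncomm hn hF4
  -- the homomorphism j
  set j : (Fin k → ProjectiveSpecialLinearGroup (Fin n) F) →* G :=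
    M.subtype.comp e.symm.toMonoidHom with hj
  have hjconj : ∀ g : G, ∃ β : (Fin k → ProjectiveSpecialLinearGroup (Fin n) F) ≃*
      (Fin k → ProjectiveSpecialLinearGroup (Fin n) F), ∀ m, j (β m) = g * j m * g⁻¹ :=
    fun g => exists_conj_aut M e g
  have hjinj : Function.Injective j := by
    intro a b hab
    have : e.symm a = e.symm b := Subtype.ext hab
    exact e.symm.injective this
  have hfaith : ∀ m : Fin k → ProjectiveSpecialLinearGroup (Fin n) F,
      (∀ x : Ω, j m • x = x) → m = 1 := by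
    intro m hm
    apply hjinj
    rw [map_one]
    apply Subtype.ext
    apply Equiv.ext
    intro x
    exact hm x
  -- M is nontrivial and transitive
  have hMne : M ≠ ⊥ := by
    intro hb
    obtain ⟨a, b, hab⟩ := hT
    have hne : (fun _ : Fin k => a) ≠ 1 := by
      intro h0
      have : a = 1 := congrFun h0 ⟨0, hk⟩
      exact hab (by rw [this]; simp)
    apply hne
    apply e.symm.injective
    apply Subtype.ext
    have key : ∀ m : M, (m : G) = 1 := by
      intro m
      have h1 : (m : G) ∈ (⊥ : Subgroup G) := hb ▸ m.2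
      exact Subgroup.mem_bot.1 h1
    rw [key, key]
  have hMtr : IsPretransitive M Ω := by
    have hq : IsQuasiPreprimitive G Ω := inferInstance
    apply hq.isPretransitive_of_normal
    intro hfix
    apply hMne
    rw [eq_bot_iff]
    intro m hm
    rw [Subgroup.mem_bot]
    apply Subtype.ext
    apply Equiv.ext
    intro x
    have hx : x ∈ fixedPoints M Ω := by rw [hfix]; trivial
    exact hx ⟨m, hm⟩
  have htrQ : ∀ x y : Ω, ∃ m : Fin k → ProjectiveSpecialLinearGroup (Fin n) F,
      j m • x = y := by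
    intro x y
    obtain ⟨m, hm⟩ := exists_smul_eq M x y
    refine ⟨e m, ?_⟩
    rw [← hm]
    simp [hj]
    rfl
  obtain ⟨x, y₀, hxy⟩ := hΩ.exists_pair_ne
  rcases Nat.lt_or_ge 1 k with hk2 | hk1
  · -- k ≥ 2 : contradiction
    exfalso
    by_cases hproj : ∀ (i : Fin k) (t : ProjectiveSpecialLinearGroup (Fin n) F),
        ∃ m : Fin k → ProjectiveSpecialLinearGroup (Fin n) F, j m • x = x ∧ m i = t
    · exact caseBL hn hF4 j hjconj hfaith htrQ x ⟨y₀, hxy.symm⟩ hproj hsp
    · push Not at hproj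
      obtain ⟨i, t, ht⟩ := hproj
      have : ∃ i₁ : Fin k, i ≠ i₁ := by
        by_contra hcon
        push Not at hcon
        have h0 := hcon ⟨0, by omega⟩
        have h1 := hcon ⟨1, by omega⟩
        rw [h0] at h1
        exact absurd (congrArg Fin.val h1) (by simp)
      obtain ⟨i₁, hi⟩ := this
      exact caseA hT j hjconj hfaith htrQ x i i₁ hi ⟨t, ht⟩ hsp
  · -- k = 1
    have hk1 : k = 1 := le_antisymm hk1 hk
    subst hk1
    let u : (Fin 1 → ProjectiveSpecialLinearGroup (Fin n) F) ≃*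
        ProjectiveSpecialLinearGroup (Fin n) F :=
      MulEquiv.piUnique (fun _ : Fin 1 => ProjectiveSpecialLinearGroup (Fin n) F)
    let e' : M ≃* ProjectiveSpecialLinearGroup (Fin n) F := e.trans u
    have htr1 : ∀ x y : Ω, ∃ t : ProjectiveSpecialLinearGroup (Fin n) F,
        (M.subtype.comp e'.symm.toMonoidHom) t • x = y := by
      intro x y
      obtain ⟨m, hm⟩ := exists_smul_eq M x y
      refine ⟨e' m, ?_⟩
      rw [← hm]
      simp
      rfl
    rcases Nat.lt_or_ge 2 n with hn3 | hn2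
    · obtain ⟨m, rfl⟩ : ∃ m, n = m + 1 := ⟨n - 1, by omega⟩
      have key := one_big (Γ := G) (Ω := Ω) (by omega) hq hprim
        (M.subtype.comp e'.symm.toMonoidHom) (fun g => exists_conj_aut M e' g) htr1 hsp x
        ⟨y₀, hxy.symm⟩
      have h2 : ∀ y z y' z' : Ω, y ≠ z → y' ≠ z' → ∃ g : G, g • y = y' ∧ g • z = z' := by
        intro y z y' z' hyz hyz'
        obtain ⟨t, h1, h2⟩ := key y z y' z' hyz hyz'
        exact ⟨_, h1, h2⟩
      exact ⟨isQI_of_two_transitive hΩ h2, fun _ => h2⟩
    · obtain rfl : n = 2 := le_antisymm hn2 hn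
      obtain ⟨h1, h2⟩ := one_two (Γ := G) (Ω := Ω) hq hprim
        (M.subtype.comp e'.symm.toMonoidHom) (fun g => exists_conj_aut M e' g) htr1 hsp x
        ⟨y₀, hxy.symm⟩
      refine ⟨h1, fun h y z y' z' hyz hyz' => ?_⟩
      have h20 : (2 : F) ≠ 0 := by
        rcases h with h | h
        · omega
        · exact h
      obtain ⟨t, h3, h4⟩ := h2 h20 y z y' z' hyz hyz'
      exact ⟨_, h3, h4⟩

end Lin43
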