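import Pool.Agent.Lib.MP_43150e_al.Lin.T2
import Pool.Agent.Lib.MP_43150e_al.Lin.Sc
import Pool.Agent.Lib.MP_43150e_al.Lin.Nz

/-! # `n = 2`, transitive on the projective line (paragraph 7) -/

set_option autoImplicit false

namespace Lin43

open Matrix

section aux

variable {F : Type*} [Field F]

/-- The elements of `GL_2(F)` commuting with `z`. -/
def n2fG (z : Matrix (Fin 2) (Fin 2) F) : Subgroup (GeneralLinearGroup (Fin 2) F) where
  carrier := {g | Commute (g : Matrix (Fin 2) (Fin 2) F) z}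
  one_mem' := Commute.one_left z
  mul_mem' := fun {a b} ha hb => by
    change Commute ((a * b : GeneralLinearGroup (Fin 2) F) : Matrix (Fin 2) (Fin 2) F) z
    rw [Units.val_mul]
    exact Commute.mul_left ha hb
  inv_mem' := fun {a} ha => Commute.units_inv_left ha

/-- The elements of `SL_2(F)` commuting with `z`. -/
def n2fS (z : Matrix (Fin 2) (Fin 2) F) : Subgroup (SpecialLinearGroup (Fin 2) F) :=
  (n2fG z).comap SpecialLinearGroup.toGL

theorem mem_n2fS (z : Matrix (Fin 2) (Fin 2) F) (s : SpecialLinearGroup (Fin 2) F) :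
    s ∈ n2fS z ↔ Commute (s : Matrix (Fin 2) (Fin 2) F) z := Iff.rfl

/-- Two commuting matrices commuting with `z` (no eigenvector) with the same square. -/
theorem n2f_sq_eq (z X Y : Matrix (Fin 2) (Fin 2) F) (hz : ¬ HasEV z) (hX : Commute X z)
    (hY : Commute Y z) (h : X * X = Y * Y) : X = Y ∨ X = -Y := by
  obtain ⟨a, b, hab⟩ := exists_ab z X hz hX
  have hXY : Commute X Y := by
    rw [hab]
    exact ((Commute.one_left Y).smul_left a).add_left (hY.symm.smul_left b)
  by_contra hne
  rw [not_or] at hne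
  have h1 : X - Y ≠ 0 := sub_ne_zero.2 hne.1
  have h2 : X + Y ≠ 0 := fun h0 => hne.2 (eq_neg_of_add_eq_zero_left h0)
  have h3 : (X - Y) * (X + Y) = 0 := by
    rw [sub_mul, mul_add, mul_add, h, hXY.eq]
    abel
  have h4 := det_ne_zero_of_commute z (X - Y) hz (hX.sub_left hY) h1
  have h5 := det_ne_zero_of_commute z (X + Y) hz (hX.add_left hY) h2
  have h6 := congrArg Matrix.det h3
  rw [Matrix.det_mul, Matrix.det_zero] at h6
  exact mul_ne_zero h4 h5 h6

end aux

/-- `t2` for `L = addSc` of the image of `K` in `GL_2(F)`. First alternative: `K` contains `U` (use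
`inG_tv_of_addSc`) and is transitive on points, so `K = ⊤`. Second: `|L| = |K| (q-1)/|K ∩ F^*|` and the same
for the centralisers of `z`. `|K| ≥ q + 1`, so `C = K ∩ C(z)` has at least `31` elements; at most `4` elements of
`F[z]` have square `±1`. -/
theorem n2_ft {F : Type*} [Field F] [Fintype F] (hq : 59 < Fintype.card F)
    (K : Subgroup (SpecialLinearGroup (Fin 2) F))
    (hK : ∀ s : SpecialLinearGroup (Fin 2) F, ∃ k ∈ K,
      UT ((k⁻¹ * s : SpecialLinearGroup (Fin 2) F) : Matrix (Fin 2) (Fin 2) F))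
    (hne : K ≠ ⊤) :
    ∃ z : Matrix (Fin 2) (Fin 2) F, ¬ HasEV z ∧
      Nat.card K ≤ 2 * Nat.card {k : K // Commute ((k : SpecialLinearGroup (Fin 2) F) :
        Matrix (Fin 2) (Fin 2) F) z} ∧
      ∃ c ∈ K, Commute (c : Matrix (Fin 2) (Fin 2) F) z ∧
        (c : Matrix (Fin 2) (Fin 2) F) * c ≠ 1 ∧ (c : Matrix (Fin 2) (Fin 2) F) * c ≠ -1 := by
  classical
  -- transitivity on the points, in matrix form
  have hpt : ∀ s : SpecialLinearGroup (Fin 2) F, ∃ k ∈ K, ∃ a : F, a ≠ 0 ∧
      (k : Matrix (Fin 2) (Fin 2) F).mulVec ![1, 0] =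
        a • (s : Matrix (Fin 2) (Fin 2) F).mulVec ![1, 0] := by
    intro s
    obtain ⟨k, hk, hut⟩ := hK s
    set b : SpecialLinearGroup (Fin 2) F := k⁻¹ * s with hb
    have h10 : (b : Matrix (Fin 2) (Fin 2) F) 1 0 = 0 := hut 1 0 (by decide)
    have hbe : (b : Matrix (Fin 2) (Fin 2) F).mulVec ![1, 0] =
        ((b : Matrix (Fin 2) (Fin 2) F) 0 0) • ![1, 0] := by
      ext i
      fin_cases i
      · simp [Matrix.mulVec, dotProduct, Fin.sum_univ_two]
      · simp [Matrix.mulVec, dotProduct, Fin.sum_univ_two, h10]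
    have h00 : (b : Matrix (Fin 2) (Fin 2) F) 0 0 ≠ 0 := by
      intro h0
      have hd := b.det_coe
      rw [Matrix.det_fin_two, h10, h0] at hd
      simp at hd
    have hs : s = k * b := by rw [hb]; group
    refine ⟨k, hk, ((b : Matrix (Fin 2) (Fin 2) F) 0 0)⁻¹, inv_ne_zero h00, ?_⟩
    rw [hs, Matrix.SpecialLinearGroup.coe_mul k b, ← Matrix.mulVec_mulVec, hbe, Matrix.mulVec_smul,
      smul_smul, inv_mul_cancel₀ h00, one_smul]
  have hcol : ∀ v : Fin 2 → F, v ≠ 0 → ∃ s : SpecialLinearGroup (Fin 2) F,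
      (s : Matrix (Fin 2) (Fin 2) F).mulVec ![1, 0] = v := by
    intro v hv
    by_cases h0 : v 0 = 0
    · have h1 : v 1 ≠ 0 := by
        intro h1
        apply hv
        ext i
        fin_cases i
        · exact h0
        · exact h1
      refine ⟨⟨!![0, -(v 1)⁻¹; v 1, 0], ?_⟩, ?_⟩
      · rw [Matrix.det_fin_two_of]
        field_simp
        ring
      · ext i
        fin_cases i
        · simp [Matrix.mulVec, dotProduct, Fin.sum_univ_two, h0]
        · simp [Matrix.mulVec, dotProduct, Fin.sum_univ_two]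
    · refine ⟨⟨!![v 0, 0; v 1, (v 0)⁻¹], ?_⟩, ?_⟩
      · rw [Matrix.det_fin_two_of]
        field_simp
        ring
      · ext i
        fin_cases i
        · simp [Matrix.mulVec, dotProduct, Fin.sum_univ_two]
        · simp [Matrix.mulVec, dotProduct, Fin.sum_univ_two]
  set L := addSc (K.map SpecialLinearGroup.toGL) with hL
  have hKL : ∀ k ∈ K, (SpecialLinearGroup.toGL k) ∈ L := fun k hk =>
    Subgroup.mem_sup_left (Subgroup.mem_map_of_mem _ hk)
  have hsc : ∀ c : F, c ≠ 0 → inG L (Matrix.scalar (Fin 2) c) := fun c hc =>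
    scalar_addSc _ c hc
  have htrp : ∀ v v' : Fin 2 → F, v ≠ 0 → v' ≠ 0 → ∃ k ∈ L, ∃ c : F, c ≠ 0 ∧
      (k : Matrix (Fin 2) (Fin 2) F).mulVec v = c • v' := by
    intro v v' hv hv'
    obtain ⟨s, hs⟩ := hcol v hv
    obtain ⟨s', hs'⟩ := hcol v' hv'
    obtain ⟨k, hk, a, ha, hka⟩ := hpt s
    obtain ⟨k', hk', a', ha', hka'⟩ := hpt s'
    rw [hs] at hka
    rw [hs'] at hka'
    refine ⟨SpecialLinearGroup.toGL (k' * k⁻¹), hKL _ (K.mul_mem hk' (K.inv_mem hk)), a⁻¹ * a',
      mul_ne_zero (inv_ne_zero ha) ha', ?_⟩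
    change ((k' * k⁻¹ : SpecialLinearGroup (Fin 2) F) : Matrix (Fin 2) (Fin 2) F).mulVec v = _
    have hv2 : v = a⁻¹ • (k : Matrix (Fin 2) (Fin 2) F).mulVec ![1, 0] := by
      rw [hka, smul_smul, inv_mul_cancel₀ ha, one_smul]
    rw [hv2, Matrix.SpecialLinearGroup.coe_mul, ← Matrix.mulVec_mulVec, Matrix.mulVec_smul,
      Matrix.mulVec_smul]
    have h3 := stw_inv_mulVec k (![1, 0] : Fin 2 → F)
    rw [h3, hka', smul_smul]
  have htr : ∀ v : Fin 2 → F, v ≠ 0 → ∃ l ∈ L,
      (l : Matrix (Fin 2) (Fin 2) F).mulVec ![1, 0] = v := by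
    intro v hv
    have e0 : (![1, 0] : Fin 2 → F) ≠ 0 := fun h => one_ne_zero (congrFun h 0)
    exact vec_trans_of_point_trans L hsc htrp _ _ e0 hv
  rcases t2 hq L hsc htr with h | ⟨-, z, hz, hcard⟩
  · exfalso
    have h1 := containsSL_of_addSc _ (containsSL_of_full L htrp h)
    apply hne
    rw [eq_top_iff]
    intro s _
    obtain ⟨g, hg, hgs⟩ := h1 s
    obtain ⟨k, hk, rfl⟩ := hg
    have : k = s := Subtype.ext hgs
    rwa [← this]
  · have hfin : Finite (GeneralLinearGroup (Fin 2) F) := inferInstance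
    -- the index of the centraliser
    have h1 : (n2fG z).relIndex L ≤ 2 := by
      have h2 : Nat.card ((n2fG z).subgroupOf L) * (n2fG z).relIndex L = Nat.card L :=
        Subgroup.card_mul_index _
      have h3 : Nat.card ((n2fG z).subgroupOf L) = Nat.card {l : L // Commute
          ((l : GeneralLinearGroup (Fin 2) F) : Matrix (Fin 2) (Fin 2) F) z} := rfl
      rw [← h3] at hcard
      have h4 : 0 < Nat.card ((n2fG z).subgroupOf L) := Nat.card_pos
      rw [← h2, mul_comm 2] at hcard
      exact le_of_mul_le_mul_left hcard h4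
    have h5 : (n2fS z).relIndex K ≤ 2 := by
      rw [n2fS, Subgroup.relIndex_comap]
      refine le_trans (Subgroup.relIndex_le_of_le_right ?_ ?_) h1
      · exact le_sup_left
      · exact Subgroup.index_ne_zero_of_finite
    have h6 : Nat.card K ≤ 2 * Nat.card {k : K // Commute ((k : SpecialLinearGroup (Fin 2) F) :
        Matrix (Fin 2) (Fin 2) F) z} := by
      have h2 : Nat.card ((n2fS z).subgroupOf K) * (n2fS z).relIndex K = Nat.card K :=
        Subgroup.card_mul_index _
      have h3 : Nat.card ((n2fS z).subgroupOf K) = Nat.card {k : K // Commute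
          ((k : SpecialLinearGroup (Fin 2) F) : Matrix (Fin 2) (Fin 2) F) z} := rfl
      rw [← h3, ← h2, mul_comm 2]
      exact Nat.mul_le_mul_left _ h5
    refine ⟨z, hz, h6, ?_⟩
    -- `|K| ≥ q`
    have h7 : Fintype.card F ≤ Nat.card K := by
      have h8 : ∀ c : F, ∃ k : K, ∃ a : F, a ≠ 0 ∧
          ((k : SpecialLinearGroup (Fin 2) F) : Matrix (Fin 2) (Fin 2) F).mulVec ![1, 0] =
            a • ![1, c] := by
        intro c
        have hv : (![1, c] : Fin 2 → F) ≠ 0 := fun h => one_ne_zero (congrFun h 0)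
        obtain ⟨s, hs⟩ := hcol _ hv
        obtain ⟨k, hk, a, ha, hka⟩ := hpt s
        exact ⟨⟨k, hk⟩, a, ha, by rw [hka, hs]⟩
      choose f a ha hf using h8
      have hinj : Function.Injective f := by
        intro c d hcd
        have h9 := hf c
        rw [hcd, hf d] at h9
        have h10 := congrFun h9 0
        have h11 := congrFun h9 1
        simp at h10 h11
        rw [h10] at h11
        exact (mul_left_cancel₀ (ha c) h11).symm
      rw [← Nat.card_eq_fintype_card]
      exact Nat.card_le_card_of_injective f hinj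
    by_contra hcon
    have hcon' : ∀ c ∈ K, Commute (c : Matrix (Fin 2) (Fin 2) F) z →
        (c : Matrix (Fin 2) (Fin 2) F) * c = 1 ∨ (c : Matrix (Fin 2) (Fin 2) F) * c = -1 := by
      intro c hc hcz
      by_contra h
      rw [not_or] at h
      exact hcon ⟨c, hc, hcz, h.1, h.2⟩
    -- at most four elements
    have h12 : ∃ X0 : Matrix (Fin 2) (Fin 2) F, ∀ c ∈ K, Commute (c : Matrix (Fin 2) (Fin 2) F) z →
        (c : Matrix (Fin 2) (Fin 2) F) ∈ ({1, -1, X0, -X0} : Finset (Matrix (Fin 2) (Fin 2) F)) := by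
      by_cases hx : ∃ c ∈ K, Commute (c : Matrix (Fin 2) (Fin 2) F) z ∧
          (c : Matrix (Fin 2) (Fin 2) F) * c = -1
      · obtain ⟨c0, hc0, hc0z, hc02⟩ := hx
        refine ⟨c0, fun c hc hcz => ?_⟩
        rcases hcon' c hc hcz with h | h
        · rcases n2f_sq_eq z c 1 hz hcz (Commute.one_left z) (by rw [h, mul_one]) with h' | h'
          · rw [h']; simp
          · rw [h']; simp
        · rcases n2f_sq_eq z c c0 hz hcz hc0z (by rw [h, hc02]) with h' | h'
          · rw [h']; simp
          · rw [h']; simp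
      · refine ⟨1, fun c hc hcz => ?_⟩
        rcases hcon' c hc hcz with h | h
        · rcases n2f_sq_eq z c 1 hz hcz (Commute.one_left z) (by rw [h, mul_one]) with h' | h'
          · rw [h']; simp
          · rw [h']; simp
        · exact absurd ⟨c, hc, hcz, h⟩ hx
    obtain ⟨X0, hX0⟩ := h12
    have h13 : Nat.card {k : K // Commute ((k : SpecialLinearGroup (Fin 2) F) :
        Matrix (Fin 2) (Fin 2) F) z} ≤ 4 := by
      let g : {k : K // Commute ((k : SpecialLinearGroup (Fin 2) F) :
          Matrix (Fin 2) (Fin 2) F) z} →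
          ({1, -1, X0, -X0} : Finset (Matrix (Fin 2) (Fin 2) F)) :=
        fun k => ⟨_, hX0 _ k.1.2 k.2⟩
      have hg : Function.Injective g := by
        intro k k' h
        have h' := congrArg Subtype.val h
        exact Subtype.ext (Subtype.ext (Subtype.ext h'))
      refine (Nat.card_le_card_of_injective g hg).trans ?_
      rw [Nat.card_eq_fintype_card, Fintype.card_coe]
      exact Finset.card_le_four
    omega

/-- `C = K ∩ C(z)` has index at most two in `K`, so is normal: for `k ∈ K`, `k c k⁻¹` commutes with `z`;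
since `F[c] = F[z]`, `k z k⁻¹ ∈ F[z]` has the same trace and determinant as `z`: it is `z` or `tr z - z`. -/
theorem le_nz {F : Type*} [Field F] [Finite F] (K : Subgroup (SpecialLinearGroup (Fin 2) F))
    (z : Matrix (Fin 2) (Fin 2) F) (hz : ¬ HasEV z)
    (h : Nat.card K ≤ 2 * Nat.card {k : K // Commute ((k : SpecialLinearGroup (Fin 2) F) :
        Matrix (Fin 2) (Fin 2) F) z})
    (c : SpecialLinearGroup (Fin 2) F) (hc : c ∈ K)
    (hcz : Commute (c : Matrix (Fin 2) (Fin 2) F) z)
    (h1 : (c : Matrix (Fin 2) (Fin 2) F) * c ≠ 1)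
    (h2 : (c : Matrix (Fin 2) (Fin 2) F) * c ≠ -1) : K ≤ nz z := by
  classical
  -- the centraliser is normal in `K`
  have hidx : (n2fS z).relIndex K ≤ 2 := by
    have h2 : Nat.card ((n2fS z).subgroupOf K) * (n2fS z).relIndex K = Nat.card K :=
      Subgroup.card_mul_index _
    have h3 : Nat.card ((n2fS z).subgroupOf K) = Nat.card {k : K // Commute
        ((k : SpecialLinearGroup (Fin 2) F) : Matrix (Fin 2) (Fin 2) F) z} := rfl
    have h4 : 0 < Nat.card ((n2fS z).subgroupOf K) := Nat.card_pos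
    rw [← h3, ← h2, mul_comm 2] at h
    exact le_of_mul_le_mul_left h h4
  have hnorm : ((n2fS z).subgroupOf K).Normal := by
    have h5 : (n2fS z).relIndex K ≠ 0 := Subgroup.index_ne_zero_of_finite
    have h6 : (n2fS z).relIndex K = 1 ∨ (n2fS z).relIndex K = 2 := by omega
    rcases h6 with h6 | h6
    · have : (n2fS z).subgroupOf K = ⊤ := Subgroup.index_eq_one.1 h6
      rw [this]
      infer_instance
    · exact Subgroup.normal_of_index_eq_two h6
  intro k hk
  have hconj : Commute ((k * c * k⁻¹ : SpecialLinearGroup (Fin 2) F) :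
      Matrix (Fin 2) (Fin 2) F) z := by
    have h7 : (⟨c, hc⟩ : K) ∈ (n2fS z).subgroupOf K := by
      rw [Subgroup.mem_subgroupOf]
      exact hcz
    have h8 := hnorm.conj_mem _ h7 ⟨k, hk⟩
    rw [Subgroup.mem_subgroupOf] at h8
    exact h8
  obtain ⟨a, b, hab⟩ := exists_ab z c hz hcz
  have hb : b ≠ 0 := by
    rintro rfl
    rw [zero_smul, add_zero] at hab
    have hd := c.det_coe
    rw [hab, Matrix.det_smul, Matrix.det_one, mul_one, Fintype.card_fin] at hd
    apply h1
    rw [hab, Matrix.smul_mul, Matrix.mul_smul, one_mul, smul_smul, ← pow_two, hd, one_smul]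
  set M : Matrix (Fin 2) (Fin 2) F := (k : Matrix (Fin 2) (Fin 2) F) with hM
  set N : Matrix (Fin 2) (Fin 2) F :=
    ((k⁻¹ : SpecialLinearGroup (Fin 2) F) : Matrix (Fin 2) (Fin 2) F) with hN
  have hMN : M * N = 1 := by
    rw [hM, hN, ← Matrix.SpecialLinearGroup.coe_mul, mul_inv_cancel,
      Matrix.SpecialLinearGroup.coe_one]
  have hNM : N * M = 1 := by
    rw [hM, hN, ← Matrix.SpecialLinearGroup.coe_mul, inv_mul_cancel,
      Matrix.SpecialLinearGroup.coe_one]
  set y : Matrix (Fin 2) (Fin 2) F := M * z * N with hy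
  have hyM : M * z = y * M := by
    rw [hy, mul_assoc, hNM, mul_one]
  have hyz : Commute y z := by
    have h9 : ((k * c * k⁻¹ : SpecialLinearGroup (Fin 2) F) : Matrix (Fin 2) (Fin 2) F) =
        a • (1 : Matrix (Fin 2) (Fin 2) F) + b • y := by
      rw [Matrix.SpecialLinearGroup.coe_mul, Matrix.SpecialLinearGroup.coe_mul, hab, ← hM, ← hN,
        mul_add, add_mul, Matrix.mul_smul, Matrix.smul_mul, mul_one, hMN, Matrix.mul_smul,
        Matrix.smul_mul]
    rw [h9] at hconj
    have h10 : y = b⁻¹ • ((a • (1 : Matrix (Fin 2) (Fin 2) F) + b • y) -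
        a • (1 : Matrix (Fin 2) (Fin 2) F)) := by
      rw [add_sub_cancel_left, smul_smul, inv_mul_cancel₀ hb, one_smul]
    rw [h10]
    exact (hconj.sub_left ((Commute.one_left z).smul_left a)).smul_left _
  have htr : y.trace = z.trace := by
    rw [hy, Matrix.trace_mul_cycle, hNM, one_mul]
  have hdet : y.det = z.det := by
    have h11 : M.det = 1 := k.det_coe
    have h12 : N.det = 1 := (k⁻¹).det_coe
    rw [hy, Matrix.det_mul, Matrix.det_mul, h11, h12, one_mul, mul_one]
  -- Cayley-Hamilton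
  have hCH : ∀ X : Matrix (Fin 2) (Fin 2) F, X * X = X.trace • X - X.det • 1 := by
    intro X
    ext i j
    rw [Matrix.trace_fin_two, Matrix.det_fin_two]
    fin_cases i <;> fin_cases j <;> simp [Matrix.mul_apply, Fin.sum_univ_two] <;> ring
  have hprod : (y - z) * (y + z - z.trace • 1) = 0 := by
    have h13 := hCH y
    have h14 := hCH z
    rw [htr, hdet] at h13
    have h15 : (y - z) * (y + z - z.trace • 1) = (y * y - z.trace • y) - (z * z - z.trace • z) +
        (y * z - z * y) := by
      rw [sub_mul, mul_sub, mul_sub, mul_add, mul_add, Matrix.mul_smul, Matrix.mul_smul, mul_one,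
        mul_one]
      abel
    rw [h15, h13, h14, hyz.eq]
    abel
  have hcases : y = z ∨ y = Matrix.scalar (Fin 2) z.trace - z := by
    by_contra hne
    rw [not_or] at hne
    have h16 : y - z ≠ 0 := sub_ne_zero.2 hne.1
    have hscal : (Matrix.scalar (Fin 2) z.trace : Matrix (Fin 2) (Fin 2) F) = z.trace • 1 := by
      rw [Matrix.scalar_apply, Matrix.smul_one_eq_diagonal]
    have h17 : y + z - z.trace • 1 ≠ 0 := by
      intro h0
      apply hne.2
      rw [hscal]
      exact eq_sub_of_add_eq (sub_eq_zero.1 h0)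
    have h18 := det_ne_zero_of_commute z (y - z) hz (hyz.sub_left (Commute.refl z)) h16
    have h19 := det_ne_zero_of_commute z (y + z - z.trace • 1) hz
      ((hyz.add_left (Commute.refl z)).sub_left ((Commute.one_left z).smul_left _)) h17
    have h20 := congrArg Matrix.det hprod
    rw [Matrix.det_mul, Matrix.det_zero] at h20
    exact mul_ne_zero h18 h19 h20
  rw [mem_nz]
  rcases hcases with h' | h'
  · left
    rw [← hM, hyM, h']
  · right
    rw [← hM, hyM, h']

end Lin43
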