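import Pool.Agent.Lib.MP_43150e_al.Lin.Nz

/-! # Characteristic two: involutions of `SL_2(F)` and pairs of conjugate matrices (paragraph 7b)

`y, y'` of trace one and the same determinant `δ` (`y² + y = δ`), without eigenvector. -/

set_option autoImplicit false

namespace Lin43

open Matrix

variable {F : Type*} [Field F]

namespace N2I

/-- Entries of an identity `u y = y' u`. -/
theorem mul_eq_iff (u y y' : Matrix (Fin 2) (Fin 2) F) : u * y = y' * u ↔
    (u 0 0 * y 0 0 + u 0 1 * y 1 0 = y' 0 0 * u 0 0 + y' 0 1 * u 1 0 ∧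
      u 0 0 * y 0 1 + u 0 1 * y 1 1 = y' 0 0 * u 0 1 + y' 0 1 * u 1 1) ∧
    (u 1 0 * y 0 0 + u 1 1 * y 1 0 = y' 1 0 * u 0 0 + y' 1 1 * u 1 0 ∧
      u 1 0 * y 0 1 + u 1 1 * y 1 1 = y' 1 0 * u 0 1 + y' 1 1 * u 1 1) := by
  rw [← Matrix.ext_iff]
  simp only [Fin.forall_fin_two, Matrix.mul_apply, Fin.sum_univ_two]

theorem det_sl (u : SpecialLinearGroup (Fin 2) F) : u 0 0 * u 1 1 - u 0 1 * u 1 0 = 1 := by
  have h := u.det_coe
  rw [Matrix.det_fin_two] at h
  exact h

theorem sq_zero_of_two {a : F} (h : a ^ 2 = 0) : a = 0 := pow_eq_zero_iff (two_ne_zero) |>.mp h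

/-- Squaring is injective. -/
theorem sq_inj (h2 : (2 : F) = 0) {a b : F} (h : a ^ 2 = b ^ 2) : a = b := by
  have h1 : (a - b) ^ 2 = 0 := by linear_combination h + (b ^ 2 - a * b) * h2
  exact sub_eq_zero.1 (sq_zero_of_two h1)

/-- Squaring is surjective. -/
theorem exists_sqrt [Fintype F] (h2 : (2 : F) = 0) (a : F) : ∃ b : F, b ^ 2 = a := by
  have hinj : Function.Injective (fun b : F => b ^ 2) := fun x y h => sq_inj h2 h
  exact (Finite.injective_iff_surjective.1 hinj) a

/-- `u² = 1` iff the trace of `u` is zero. -/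
theorem sq_one_iff (h2 : (2 : F) = 0) (u : SpecialLinearGroup (Fin 2) F) :
    u * u = 1 ↔ u 0 0 = u 1 1 := by
  have hd := det_sl u
  constructor
  · intro h
    have h' : (u : Matrix (Fin 2) (Fin 2) F) * u = 1 := by
      rw [← Matrix.SpecialLinearGroup.coe_mul, h, Matrix.SpecialLinearGroup.coe_one]
    have e00 := congrFun (congrFun h' 0) 0
    have e11 := congrFun (congrFun h' 1) 1
    simp only [Matrix.mul_apply, Fin.sum_univ_two, Matrix.one_apply_eq] at e00 e11
    have h1 : (u 0 0 - u 1 1) ^ 2 = 0 := by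
      linear_combination e00 + e11 - 2 * hd - 2 * u 0 1 * u 1 0 * h2
    exact sub_eq_zero.1 (sq_zero_of_two h1)
  · intro h
    apply Matrix.SpecialLinearGroup.ext
    intro i j
    rw [Matrix.SpecialLinearGroup.coe_mul, Matrix.SpecialLinearGroup.coe_one, Matrix.mul_apply,
      Fin.sum_univ_two]
    fin_cases i <;> fin_cases j <;>
      simp only [Fin.zero_eta, Fin.mk_one, Fin.isValue, Matrix.one_apply_eq]
    · rw [← h] at hd
      linear_combination hd + u 0 1 * u 1 0 * h2
    · rw [Matrix.one_apply_ne (by decide)]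
      rw [← h]
      linear_combination (u 0 0 * u 0 1) * h2
    · rw [Matrix.one_apply_ne (by decide)]
      rw [← h]
      linear_combination (u 0 0 * u 1 0) * h2
    · rw [← h] at hd ⊢
      linear_combination hd + u 0 1 * u 1 0 * h2

/-- No eigenvector: the entry `(1, 0)` is not zero. -/
theorem c_ne (y : Matrix (Fin 2) (Fin 2) F) (hy : ¬ HasEV y) : y 1 0 ≠ 0 := by
  intro h
  apply hy
  refine ⟨![1, 0], y 0 0, ?_, ?_⟩
  · intro h0
    have := congrFun h0 0
    simp at this
  · ext i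
    fin_cases i
    · simp [Matrix.mulVec, dotProduct, Fin.sum_univ_two]
    · simp [Matrix.mulVec, dotProduct, Fin.sum_univ_two, h]

/-- No eigenvector: the characteristic form is anisotropic. -/
theorem aniso (y : Matrix (Fin 2) (Fin 2) F) (hy : ¬ HasEV y) (s t : F)
    (h : s ^ 2 * y 1 0 + s * t * (y 1 1 - y 0 0) - t ^ 2 * y 0 1 = 0) : s = 0 ∧ t = 0 := by
  by_contra hne
  apply hy
  have hv : (![s, t] : Fin 2 → F) ≠ 0 := by
    intro h0
    apply hne
    exact ⟨by simpa using congrFun h0 0, by simpa using congrFun h0 1⟩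
  by_cases hs : s = 0
  · have ht : t ≠ 0 := fun h0 => hne ⟨hs, h0⟩
    have hb : y 0 1 = 0 := by
      rw [hs] at h
      have : t ^ 2 * y 0 1 = 0 := by linear_combination -h
      rcases mul_eq_zero.1 this with h' | h'
      · exact absurd (sq_zero_of_two h') ht
      · exact h'
    refine ⟨![s, t], y 1 1, hv, ?_⟩
    ext i
    fin_cases i
    · simp [Matrix.mulVec, dotProduct, Fin.sum_univ_two, hs, hb]
    · simp [Matrix.mulVec, dotProduct, Fin.sum_univ_two, hs]
  · refine ⟨![s, t], y 0 0 + y 0 1 * t / s, hv, ?_⟩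
    ext i
    fin_cases i
    · simp [Matrix.mulVec, dotProduct, Fin.sum_univ_two]
      field_simp
    · simp [Matrix.mulVec, dotProduct, Fin.sum_univ_two]
      field_simp
      linear_combination h

theorem fld1 (h2 : (2 : F) = 0) (a b c a' b' c' : F)
    (Hd : a * (1 - a) - b * c = a' * (1 - a') - b' * c')
    (h0 : (1 + a + a') ^ 2 - (b + b') * (c + c') = 0) : 1 + a + a' = b * c' + b' * c := by
  linear_combination h0 + Hd + (-a - a * a' - a' ^ 2 + b * c) * h2

theorem fld2 (h2 : (2 : F) = 0) (a b c a' b' c' : F)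
    (h0 : (1 + a + a') ^ 2 - (b + b') * (c + c') = 0) (h1 : 1 + a + a' = b * c' + b' * c) :
    (b + b') ^ 2 * c + (b + b') * (1 + a + a') * (1 - a - a) - (1 + a + a') ^ 2 * b = 0 := by
  linear_combination (b + b') * h1 - b * h0 + (b * b' * c - b * a - b * a * a' - b * a ^ 2 -
    b' * a - b' * a * a' - b' * a ^ 2 + b' ^ 2 * c) * h2

theorem fld3 (h2 : (2 : F) = 0) (a b c a' b' c' : F)
    (h0 : (1 + a + a') ^ 2 - (b + b') * (c + c') = 0) (h1 : 1 + a + a' = b * c' + b' * c) :
    (1 + a + a') ^ 2 * c + (1 + a + a') * (c + c') * (1 - a - a) - (c + c') ^ 2 * b = 0 := by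
  linear_combination (c + c') * h1 + c * h0 + (-(a * a' * c) - a * a' * c' - a * c - a * c' -
    a ^ 2 * c - a ^ 2 * c' + c * c' * b' + c ^ 2 * b') * h2

theorem fld4 (h2 : (2 : F) = 0) (a b a' b' p q : F)
    (e : p * b + q * (1 - a) = a' * q + b' * p) : q * (1 + a + a') = p * (b + b') := by
  linear_combination e + (q * a + q * a' - p * b) * h2

theorem fld5 (h2 : (2 : F) = 0) (a c a' c' p r : F)
    (e : r * a + p * c = c' * p + (1 - a') * r) : r * (1 + a + a') = p * (c + c') := by
  linear_combination -e + (r * a + r * a' - p * c') * h2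

/-- Uniqueness of the multiple of `y + y' + 1` with determinant one, in entries. -/
theorem fld6 (h2 : (2 : F) = 0) (a b c a' b' c' s p q r : F) (hc : c ≠ 0)
    (Hd : a * (1 - a) - b * c = a' * (1 - a') - b' * c')
    (hs : s ^ 2 * ((1 + a + a') ^ 2 - (b + b') * (c + c')) = 1)
    (hdu : p * p - q * r = 1)
    (f1 : p * a + q * c = a' * p + b' * r)
    (f2 : q * (1 + a + a') = p * (b + b')) (f3 : r * (1 + a + a') = p * (c + c')) :
    p = s * (1 + a + a') ∧ q = s * (b + b') ∧ r = s * (c + c') := by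
  by_cases hα : 1 + a + a' = 0
  · rw [hα] at hs f2 f3
    rw [hα]
    have hs1 : s ^ 2 * ((b + b') * (c + c')) = 1 := by
      linear_combination hs + (s ^ 2 * ((b + b') * (c + c'))) * h2
    have hB : b + b' ≠ 0 := by
      intro h
      rw [h] at hs1
      exact one_ne_zero (show (1 : F) = 0 by linear_combination -hs1)
    have hp : p = 0 := by
      have : p * (b + b') = 0 := by linear_combination -f2
      rcases mul_eq_zero.1 this with h | h
      · exact h
      · exact absurd h hB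
    subst hp
    have hqr : q * r = 1 := by linear_combination -hdu - h2
    have g1 : q ^ 2 * c = b' := by linear_combination q * f1 + b' * hqr
    have g2 : b' * (c + c') = (b + b') * c := by
      linear_combination Hd - (a - a') * h2 + (a - a') * hα
    have g3 : q ^ 2 * (c + c') = b + b' := by
      apply mul_right_cancel₀ hc
      linear_combination (c + c') * g1 + g2
    have g4 : q = s * (b + b') := by
      apply sq_inj h2
      linear_combination (-q ^ 2) * hs1 + s ^ 2 * (b + b') * g3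
    have hq0 : q ≠ 0 := by
      intro h
      rw [h] at hqr
      exact one_ne_zero (show (1 : F) = 0 by linear_combination -hqr)
    have g5 : r = s * (c + c') := by
      apply mul_left_cancel₀ hq0
      linear_combination hqr - s * (c + c') * g4 - hs1
    exact ⟨by ring, g4, g5⟩
  · have hpα : (p / (1 + a + a')) * (1 + a + a') = p := div_mul_cancel₀ _ hα
    set τ := p / (1 + a + a') with hτ
    clear_value τ
    have hq : q = τ * (b + b') := by
      apply mul_right_cancel₀ hα
      rw [f2]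
      rw [← hpα]
      ring
    have hr : r = τ * (c + c') := by
      apply mul_right_cancel₀ hα
      rw [f3]
      rw [← hpα]
      ring
    have hD : ((1 + a + a') ^ 2 - (b + b') * (c + c')) ≠ 0 := by
      intro h
      rw [h] at hs
      exact one_ne_zero (show (1 : F) = 0 by linear_combination -hs)
    have hts : τ = s := by
      apply sq_inj h2
      apply mul_right_cancel₀ hD
      have hdu' : (τ * (1 + a + a')) * (τ * (1 + a + a')) - (τ * (b + b')) * (τ * (c + c')) = 1 := by
        rw [hpα, ← hq, ← hr]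
        exact hdu
      rw [hs]
      linear_combination hdu'
    rw [hts] at hpα hq hr
    exact ⟨hpα.symm, hq, hr⟩

/-- A matrix of `SL_2` from its entries. -/
def mk (p q r s : F) (h : p * s - q * r = 1) : SpecialLinearGroup (Fin 2) F :=
  ⟨!![p, q; r, s], by rw [Matrix.det_fin_two_of]; exact h⟩

theorem mk_00 (p q r s : F) (h : p * s - q * r = 1) : mk p q r s h 0 0 = p := rfl
theorem mk_01 (p q r s : F) (h : p * s - q * r = 1) : mk p q r s h 0 1 = q := rfl
theorem mk_10 (p q r s : F) (h : p * s - q * r = 1) : mk p q r s h 1 0 = r := rfl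
theorem mk_11 (p q r s : F) (h : p * s - q * r = 1) : mk p q r s h 1 1 = s := rfl

theorem ext4 (u v : SpecialLinearGroup (Fin 2) F) (h00 : u 0 0 = v 0 0) (h01 : u 0 1 = v 0 1)
    (h10 : u 1 0 = v 1 0) (h11 : u 1 1 = v 1 1) : u = v := by
  apply Matrix.SpecialLinearGroup.ext
  intro i j
  fin_cases i <;> fin_cases j
  · exact h00
  · exact h01
  · exact h10
  · exact h11

end N2I

open N2I

/-- For `y' ≠ y, y + 1` there is exactly one `u ≠ 1`, `u² = 1`, `det u = 1` with `u y = y' u`: a multiple of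
`y + y' + 1` (the matrices `m` with `m y = y' m` are `(y + y' + 1) F[y]`, the trace is a nonzero
functional there, every element of `F` has a unique square root). -/
theorem card_inv_ne [Fintype F] (h2 : (2 : F) = 0) (y y' : Matrix (Fin 2) (Fin 2) F)
    (hy : ¬ HasEV y) (ht : y.trace = 1) (ht' : y'.trace = 1) (hd : y.det = y'.det)
    (h1 : y' ≠ y) (h3 : y' ≠ y + 1) :
    Nat.card {u : SpecialLinearGroup (Fin 2) F // u ≠ 1 ∧ u * u = 1 ∧
      (u : Matrix (Fin 2) (Fin 2) F) * y = y' * u} = 1 := by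
  have htr : y 0 0 + y 1 1 = 1 := by rw [← ht, Matrix.trace_fin_two]
  have htr' : y' 0 0 + y' 1 1 = 1 := by rw [← ht', Matrix.trace_fin_two]
  have hc := c_ne y hy
  have e1 : y 1 1 = 1 - y 0 0 := by linear_combination htr
  have e2 : y' 1 1 = 1 - y' 0 0 := by linear_combination htr'
  have hd' : y 0 0 * (1 - y 0 0) - y 0 1 * y 1 0 = y' 0 0 * (1 - y' 0 0) - y' 0 1 * y' 1 0 := by
    rw [Matrix.det_fin_two, Matrix.det_fin_two, e1, e2] at hd
    exact hd
  -- not all three entries of `y + y' + 1` vanish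
  have hne : ¬ (1 + y 0 0 + y' 0 0 = 0 ∧ y 0 1 + y' 0 1 = 0 ∧ y 1 0 + y' 1 0 = 0) := by
    rintro ⟨z1, z2, z3⟩
    apply h3
    ext i j
    fin_cases i <;> fin_cases j
    · change y' 0 0 = y 0 0 + (1 : Matrix (Fin 2) (Fin 2) F) 0 0
      rw [Matrix.one_apply_eq]
      linear_combination z1 - (1 + y 0 0) * h2
    · change y' 0 1 = y 0 1 + (1 : Matrix (Fin 2) (Fin 2) F) 0 1
      rw [Matrix.one_apply_ne (show (0 : Fin 2) ≠ 1 by decide)]
      linear_combination z2 - y 0 1 * h2
    · change y' 1 0 = y 1 0 + (1 : Matrix (Fin 2) (Fin 2) F) 1 0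
      rw [Matrix.one_apply_ne (show (1 : Fin 2) ≠ 0 by decide)]
      linear_combination z3 - y 1 0 * h2
    · change y' 1 1 = y 1 1 + (1 : Matrix (Fin 2) (Fin 2) F) 1 1
      rw [Matrix.one_apply_eq, e1, e2]
      linear_combination -z1 + (y 0 0) * h2
  -- its determinant is not zero
  have hD : (1 + y 0 0 + y' 0 0) ^ 2 - (y 0 1 + y' 0 1) * (y 1 0 + y' 1 0) ≠ 0 := by
    intro h0
    have h1 := fld1 h2 _ _ _ _ _ _ hd' h0
    have k2 := fld2 h2 _ _ _ _ _ _ h0 h1
    have k3 := fld3 h2 _ _ _ _ _ _ h0 h1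
    have r2 := aniso y hy _ _ (by rw [e1]; exact k2)
    have r3 := aniso y hy _ _ (by rw [e1]; exact k3)
    exact hne ⟨r2.2, r2.1, r3.2⟩
  obtain ⟨s, hs⟩ := exists_sqrt h2
    (((1 + y 0 0 + y' 0 0) ^ 2 - (y 0 1 + y' 0 1) * (y 1 0 + y' 1 0))⁻¹)
  have hs' : s ^ 2 * ((1 + y 0 0 + y' 0 0) ^ 2 - (y 0 1 + y' 0 1) * (y 1 0 + y' 1 0)) = 1 := by
    rw [hs, inv_mul_cancel₀ hD]
  have hdet : (s * (1 + y 0 0 + y' 0 0)) * (s * (1 + y 0 0 + y' 0 0)) -
      (s * (y 0 1 + y' 0 1)) * (s * (y 1 0 + y' 1 0)) = 1 := by linear_combination hs'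
  set u0 : SpecialLinearGroup (Fin 2) F := mk _ _ _ _ hdet with hu0
  have huy : (u0 : Matrix (Fin 2) (Fin 2) F) * y = y' * u0 := by
    rw [mul_eq_iff, e1, e2, hu0, mk_00, mk_01, mk_10, mk_11]
    refine ⟨⟨?_, ?_⟩, ?_, ?_⟩
    · linear_combination (-s) * hd' + (s * y 0 0 - s * y' 0 0) * h2
    · linear_combination (-(s * y 0 0 * y' 0 1) - s * y' 0 0 * y' 0 1 + s * y 0 1) * h2
    · linear_combination (s * y 1 0 * y 0 0 + s * y 1 0 * y' 0 0 - s * y' 1 0) * h2
    · linear_combination s * hd' + (s * y 1 0 * y 0 1 - s * y' 1 0 * y' 0 1 - s * y 0 0 +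
        s * y' 0 0) * h2
  have huniq : ∀ u : SpecialLinearGroup (Fin 2) F, u * u = 1 →
      (u : Matrix (Fin 2) (Fin 2) F) * y = y' * u → u = u0 := by
    intro u huu hu
    have hp := (sq_one_iff h2 u).1 huu
    have hdu := det_sl u
    obtain ⟨⟨f1, f2⟩, f3, -⟩ := (mul_eq_iff _ _ _).1 hu
    rw [← hp] at f2 f3 hdu
    rw [e1] at f2
    rw [e2] at f3
    obtain ⟨r1, r2, r3⟩ := fld6 h2 _ _ _ _ _ _ s _ _ _ hc hd' hs' hdu f1
      (fld4 h2 _ _ _ _ _ _ f2) (fld5 h2 _ _ _ _ _ _ f3)
    exact ext4 _ _ r1 r2 r3 (hp.symm.trans r1)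
  rw [Nat.card_eq_one_iff_unique]
  constructor
  · constructor
    rintro ⟨u, -, hu2, hu3⟩ ⟨v, -, hv2, hv3⟩
    exact Subtype.ext ((huniq u hu2 hu3).trans (huniq v hv2 hv3).symm)
  · refine ⟨⟨u0, ?_, ?_, huy⟩⟩
    · intro h
      rw [h, Matrix.SpecialLinearGroup.coe_one, one_mul, mul_one] at huy
      exact h1 huy.symm
    · rw [sq_one_iff h2]
      rfl

/-- No involution commutes with `y`. -/
theorem card_inv_comm [Fintype F] (h2 : (2 : F) = 0) (y : Matrix (Fin 2) (Fin 2) F)
    (hy : ¬ HasEV y) (ht : y.trace = 1) :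
    Nat.card {u : SpecialLinearGroup (Fin 2) F // u ≠ 1 ∧ u * u = 1 ∧
      (u : Matrix (Fin 2) (Fin 2) F) * y = y * u} = 0 := by
  rw [Nat.card_eq_zero]
  left
  refine ⟨fun ⟨u, hu, huu, hc⟩ => ?_⟩
  have hp := (sq_one_iff h2 u).1 huu
  have hdu := det_sl u
  have htr : y 0 0 + y 1 1 = 1 := by rw [← ht, Matrix.trace_fin_two]
  obtain ⟨⟨e1, e2⟩, e3, e4⟩ := (mul_eq_iff _ _ _).1 hc
  have hq : u 0 1 = 0 := by
    rw [← hp] at e2
    linear_combination e2 - u 0 1 * htr + (y 0 0 * u 0 1) * h2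
  have hr : u 1 0 = 0 := by
    rw [← hp] at e3
    linear_combination e3 - u 1 0 * htr + (y 1 1 * u 1 0) * h2
  rw [← hp, hq] at hdu
  have hp1 : u 0 0 = 1 := by
    apply sq_inj h2
    linear_combination hdu
  apply hu
  apply ext4 u 1
  · rw [hp1]; rfl
  · rw [hq]; rfl
  · rw [hr]; rfl
  · rw [← hp, hp1]; rfl

/-- `q + 1` involutions `u` with `u y = (y + 1) u`: one on each line of this two-dimensional space. -/
theorem card_inv_anti [Fintype F] (h2 : (2 : F) = 0) (y : Matrix (Fin 2) (Fin 2) F)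
    (hy : ¬ HasEV y) (ht : y.trace = 1) :
    Nat.card {u : SpecialLinearGroup (Fin 2) F // u ≠ 1 ∧ u * u = 1 ∧
      (u : Matrix (Fin 2) (Fin 2) F) * y = (y + 1) * u} = Fintype.card F + 1 := by
  classical
  have htr : y 0 0 + y 1 1 = 1 := by rw [← ht, Matrix.trace_fin_two]
  have hc := c_ne y hy
  have hb : y 0 1 ≠ 0 := by
    intro h
    have := aniso y hy 0 1 (by rw [h]; ring)
    exact one_ne_zero this.2
  -- the conditions on the entries
  have hiff : ∀ u : SpecialLinearGroup (Fin 2) F, (u ≠ 1 ∧ u * u = 1 ∧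
      (u : Matrix (Fin 2) (Fin 2) F) * y = (y + 1) * u) ↔
      (u 0 0 = u 1 1 ∧ u 0 0 = u 0 1 * y 1 0 + u 1 0 * y 0 1) := by
    intro u
    have hdu := det_sl u
    rw [sq_one_iff h2, mul_eq_iff]
    simp only [Matrix.add_apply, Matrix.one_apply_eq]
    rw [Matrix.one_apply_ne (show (0 : Fin 2) ≠ 1 by decide),
      Matrix.one_apply_ne (show (1 : Fin 2) ≠ 0 by decide)]
    have e1 : y 1 1 = 1 - y 0 0 := by linear_combination htr
    rw [e1]
    constructor
    · rintro ⟨-, h1, ⟨h3, -⟩, -, -⟩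
      refine ⟨h1, ?_⟩
      linear_combination -h3 - (y 0 1 * u 1 0) * h2
    · rintro ⟨h1, h3⟩
      refine ⟨?_, h1, ⟨?_, ?_⟩, ?_, ?_⟩
      · rintro rfl
        have a1 : (1 : SpecialLinearGroup (Fin 2) F) 0 0 = 1 := rfl
        have a2 : (1 : SpecialLinearGroup (Fin 2) F) 0 1 = 0 := rfl
        have a3 : (1 : SpecialLinearGroup (Fin 2) F) 1 0 = 0 := rfl
        rw [a1, a2, a3] at h3
        exact one_ne_zero (show (1 : F) = 0 by linear_combination h3)
      · linear_combination -h3 - (u 1 0 * y 0 1) * h2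
      · linear_combination (y 0 1) * h1 - (u 0 1 * y 0 0) * h2
      · linear_combination (-y 1 0) * h1 + (u 1 0 * y 0 0 - u 1 0) * h2
      · linear_combination h3 + h1 + (u 1 0 * y 0 1 - u 0 0) * h2
  -- the bijection with the projective line
  have hQ : ∀ t : F, y 1 0 ^ 2 + t + t ^ 2 * y 0 1 ^ 2 ≠ 0 := by
    intro t h0
    obtain ⟨β, hβ⟩ := exists_sqrt h2 t
    have e1 : y 1 1 = 1 - y 0 0 := by linear_combination htr
    have h1 : (y 1 0 + β + β ^ 2 * y 0 1) ^ 2 = 0 := by
      rw [← hβ] at h0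
      linear_combination h0 + (y 1 0 * β + y 1 0 * β ^ 2 * y 0 1 + β ^ 3 * y 0 1) * h2
    have h3 := sq_zero_of_two h1
    have h4 := aniso y hy 1 β (by
      rw [e1]
      linear_combination h3 - (β ^ 2 * y 0 1 + β * y 0 0) * h2)
    exact one_ne_zero h4.1
  have hs1 : ∀ t : F, ∃ q : F, q ^ 2 * (y 1 0 ^ 2 + t + t ^ 2 * y 0 1 ^ 2) = 1 := by
    intro t
    obtain ⟨q, hq⟩ := exists_sqrt h2 ((y 1 0 ^ 2 + t + t ^ 2 * y 0 1 ^ 2)⁻¹)
    exact ⟨q, by rw [hq, inv_mul_cancel₀ (hQ t)]⟩
  choose sq hsq using hs1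
  rw [Nat.card_congr (Equiv.subtypeEquivRight hiff)]
  have hdet : ∀ t : F, (sq t * y 1 0 + t * sq t * y 0 1) * (sq t * y 1 0 + t * sq t * y 0 1)
      - sq t * (t * sq t) = 1 := by
    intro t
    linear_combination hsq t + (sq t ^ 2 * t * y 1 0 * y 0 1 - sq t ^ 2 * t) * h2
  have hdet0 : (1 : F) * 1 - 0 * (y 0 1)⁻¹ = 1 := by ring
  let g : Option F → {u : SpecialLinearGroup (Fin 2) F //
      u 0 0 = u 1 1 ∧ u 0 0 = u 0 1 * y 1 0 + u 1 0 * y 0 1} := fun o =>
    match o with
    | none => ⟨mk 1 0 (y 0 1)⁻¹ 1 hdet0, by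
        rw [mk_00, mk_01, mk_10, mk_11]
        refine ⟨rfl, ?_⟩
        rw [inv_mul_cancel₀ hb]
        ring⟩
    | some t => ⟨mk (sq t * y 1 0 + t * sq t * y 0 1) (sq t) (t * sq t)
        (sq t * y 1 0 + t * sq t * y 0 1) (hdet t), by
        rw [mk_00, mk_01, mk_10, mk_11]
        exact ⟨rfl, rfl⟩⟩
  have hsqne : ∀ t : F, sq t ≠ 0 := by
    intro t h0
    have := hsq t
    rw [h0] at this
    exact one_ne_zero (show (1 : F) = 0 by linear_combination -this)
  have g01 : ∀ o : Option F, (g o).1 0 1 = match o with | none => 0 | some t => sq t := by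
    intro o
    cases o <;> rfl
  have g10 : ∀ o : Option F, (g o).1 1 0 = match o with | none => (y 0 1)⁻¹ | some t => t * sq t := by
    intro o
    cases o <;> rfl
  have hbij : Function.Bijective g := by
    constructor
    · intro o o' h
      have h01 : (g o).1 0 1 = (g o').1 0 1 := by rw [h]
      have h10 : (g o).1 1 0 = (g o').1 1 0 := by rw [h]
      rw [g01, g01] at h01
      rw [g10, g10] at h10
      cases o with
      | none =>
        cases o' with
        | none => rfl
        | some t' => exact absurd h01.symm (hsqne t')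
      | some t =>
        cases o' with
        | none => exact absurd h01 (hsqne t)
        | some t' =>
          simp only at h01 h10
          rw [← h01] at h10
          rw [mul_right_cancel₀ (hsqne t) h10]
    · rintro ⟨u, hu1, hu2⟩
      have hdu := det_sl u
      by_cases hq : u 0 1 = 0
      · refine ⟨none, ?_⟩
        apply Subtype.ext
        rw [hq] at hu2 hdu
        rw [← hu1] at hdu
        have hp : u 0 0 = 1 := sq_inj h2 (by linear_combination hdu)
        apply ext4 _ _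
        · exact hp.symm
        · exact hq.symm
        · change (y 0 1)⁻¹ = u 1 0
          apply mul_right_cancel₀ hb
          rw [inv_mul_cancel₀ hb]
          linear_combination -hp + hu2
        · change (1 : F) = u 1 1
          rw [← hu1, hp]
      · refine ⟨some (u 1 0 / u 0 1), ?_⟩
        apply Subtype.ext
        have hr : u 1 0 / u 0 1 * u 0 1 = u 1 0 := div_mul_cancel₀ _ hq
        set t := u 1 0 / u 0 1 with htdef
        have hsqt : sq t = u 0 1 := by
          apply sq_inj h2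
          apply mul_right_cancel₀ (hQ t)
          rw [hsq t]
          rw [← hu1, hu2, ← hr] at hdu
          linear_combination -hdu + (u 0 1 ^ 2 * t * y 1 0 * y 0 1 - u 0 1 ^ 2 * t) * h2
        apply ext4 _ _
        · change sq t * y 1 0 + t * sq t * y 0 1 = u 0 0
          rw [hsqt, hr]
          exact hu2.symm
        · exact hsqt
        · change t * sq t = u 1 0
          rw [hsqt, hr]
        · change sq t * y 1 0 + t * sq t * y 0 1 = u 1 1
          rw [hsqt, hr, ← hu1]
          exact hu2.symm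
  rw [← Nat.card_congr (Equiv.ofBijective g hbij), Nat.card_eq_fintype_card, Fintype.card_option]

/-- An involution fixes exactly one point: `u ≠ 1`, `u² = 1` iff `u ≠ 1` fixes a nonzero vector. -/
theorem inv_iff [Fintype F] (h2 : (2 : F) = 0) (u : SpecialLinearGroup (Fin 2) F) :
    u * u = 1 ↔ ∃ v : Fin 2 → F, v ≠ 0 ∧ (u : Matrix (Fin 2) (Fin 2) F).mulVec v = v := by
  have hd := det_sl u
  have key : ((u : Matrix (Fin 2) (Fin 2) F) - 1).det = 2 - (u 0 0 + u 1 1) := by
    rw [Matrix.det_fin_two]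
    simp only [Matrix.sub_apply, Matrix.one_apply_eq]
    rw [Matrix.one_apply_ne (show (0 : Fin 2) ≠ 1 by decide),
      Matrix.one_apply_ne (show (1 : Fin 2) ≠ 0 by decide)]
    linear_combination hd
  rw [sq_one_iff h2]
  have h1 : (u 0 0 = u 1 1) ↔ ((u : Matrix (Fin 2) (Fin 2) F) - 1).det = 0 := by
    rw [key, h2]
    constructor
    · intro h
      linear_combination -h - u 1 1 * h2
    · intro h
      linear_combination -h - u 1 1 * h2
  rw [h1, ← Matrix.exists_mulVec_eq_zero_iff]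
  constructor
  · rintro ⟨v, hv, h⟩
    refine ⟨v, hv, ?_⟩
    rw [Matrix.sub_mulVec, Matrix.one_mulVec] at h
    exact sub_eq_zero.1 h
  · rintro ⟨v, hv, h⟩
    refine ⟨v, hv, ?_⟩
    rw [Matrix.sub_mulVec, Matrix.one_mulVec, h, sub_self]

/-- Two matrices of trace one and equal determinant without eigenvector whose `(1,0)` entries agree
are conjugate by some `[[1, c], [0, 1]]`, up to adding one. -/
theorem conj_uni [Fintype F] (h2 : (2 : F) = 0) (y y' : Matrix (Fin 2) (Fin 2) F)
    (hy : ¬ HasEV y) (ht : y.trace = 1) (ht' : y'.trace = 1) (hd : y.det = y'.det)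
    (h : y 1 0 = y' 1 0) :
    ∃ u : SpecialLinearGroup (Fin 2) F, UU (u : Matrix (Fin 2) (Fin 2) F) ∧
      (u : Matrix (Fin 2) (Fin 2) F) * y = y' * u := by
  have hc := c_ne y hy
  have htr : y 0 0 + y 1 1 = 1 := by rw [← ht, Matrix.trace_fin_two]
  have htr' : y' 0 0 + y' 1 1 = 1 := by rw [← ht', Matrix.trace_fin_two]
  rw [Matrix.det_fin_two, Matrix.det_fin_two, ← h] at hd
  set a := y 0 0
  set b := y 0 1
  set c := y 1 0
  set a' := y' 0 0
  set b' := y' 0 1
  have hx : ∃ x : F, x * c = a' - a := ⟨(a' - a) / c, by field_simp⟩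
  obtain ⟨x, hx⟩ := hx
  refine ⟨mk 1 x 0 1 (by ring), ⟨?_, ?_⟩, ?_⟩
  · intro i j hij
    fin_cases i <;> fin_cases j
    · exact absurd hij (by decide)
    · exact absurd hij (by decide)
    · exact mk_10 _ _ _ _ _
    · exact absurd hij (by decide)
  · intro i
    fin_cases i
    · exact mk_00 _ _ _ _ _
    · exact mk_11 _ _ _ _ _
  · rw [mul_eq_iff]
    rw [mk_00, mk_01, mk_10, mk_11, ← h]
    refine ⟨⟨?_, ?_⟩, ?_, ?_⟩
    · linear_combination hx
    · apply mul_left_cancel₀ hc
      have e1 : y 1 1 = 1 - a := by linear_combination htr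
      have e2 : y' 1 1 = 1 - a' := by linear_combination htr'
      rw [e1, e2] at hd
      rw [e1]
      linear_combination (1 - a - a') * hx - hd
    · ring
    · linear_combination htr - htr' - hx

end Lin43
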