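import Pool.Agent.Lib.MP_43150e_al.Lin.N2I

/-! # `n = 2`, `q` even: the sum over the involutions (paragraph 7b)

`SL_2(F)` acts on `Ω`, the stabiliser of `x` is `nz z`. `q7R z x ω y`: `ω = s x`, `y = s z s⁻¹` for some `s`. -/

set_option autoImplicit false

namespace Lin43

open Matrix

section rel

variable {F : Type*} [Field F] {Ω : Type*} [MulAction (SpecialLinearGroup (Fin 2) F) Ω]

/-- `y` is a matrix of the point `ω`. -/
def q7R (z : Matrix (Fin 2) (Fin 2) F) (x ω : Ω) (y : Matrix (Fin 2) (Fin 2) F) : Prop :=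
  ∃ s : SpecialLinearGroup (Fin 2) F, s • x = ω ∧
    (s : Matrix (Fin 2) (Fin 2) F) * z = y * (s : Matrix (Fin 2) (Fin 2) F)

theorem q7_inv_mul (s : SpecialLinearGroup (Fin 2) F) :
    ((s⁻¹ : SpecialLinearGroup (Fin 2) F) : Matrix (Fin 2) (Fin 2) F) *
      (s : Matrix (Fin 2) (Fin 2) F) = 1 := by
  rw [← Matrix.SpecialLinearGroup.coe_mul, inv_mul_cancel, Matrix.SpecialLinearGroup.coe_one]

theorem q7_mul_inv (s : SpecialLinearGroup (Fin 2) F) :
    (s : Matrix (Fin 2) (Fin 2) F) *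
      ((s⁻¹ : SpecialLinearGroup (Fin 2) F) : Matrix (Fin 2) (Fin 2) F) = 1 := by
  rw [← Matrix.SpecialLinearGroup.coe_mul, mul_inv_cancel, Matrix.SpecialLinearGroup.coe_one]

theorem q7_cancel (s : SpecialLinearGroup (Fin 2) F) {y y' : Matrix (Fin 2) (Fin 2) F}
    (h : y * (s : Matrix (Fin 2) (Fin 2) F) = y' * (s : Matrix (Fin 2) (Fin 2) F)) : y = y' := by
  have h1 := congrArg (· * ((s⁻¹ : SpecialLinearGroup (Fin 2) F) : Matrix (Fin 2) (Fin 2) F)) h
  simp only [Matrix.mul_assoc, q7_mul_inv, Matrix.mul_one] at h1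
  exact h1

theorem q7_add_self (h2 : (2 : F) = 0) (y : Matrix (Fin 2) (Fin 2) F) : y + y = 0 := by
  ext i j
  rw [Matrix.add_apply, ← two_mul, h2, zero_mul, Matrix.zero_apply]

theorem q7_neg (h2 : (2 : F) = 0) (y : Matrix (Fin 2) (Fin 2) F) : -y = y :=
  neg_eq_of_add_eq_zero_left (q7_add_self h2 y)

theorem q7R_exists (z : Matrix (Fin 2) (Fin 2) F) (x : Ω)
    (htr : ∀ ω : Ω, ∃ s : SpecialLinearGroup (Fin 2) F, s • x = ω) (ω : Ω) :
    ∃ y, q7R z x ω y := by
  obtain ⟨s, hs⟩ := htr ω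
  refine ⟨(s : Matrix (Fin 2) (Fin 2) F) * z *
    ((s⁻¹ : SpecialLinearGroup (Fin 2) F) : Matrix (Fin 2) (Fin 2) F), s, hs, ?_⟩
  rw [Matrix.mul_assoc, Matrix.mul_assoc, q7_inv_mul, Matrix.mul_one]

variable {z : Matrix (Fin 2) (Fin 2) F} {x : Ω}

theorem q7R.conj {ω : Ω} {y y' : Matrix (Fin 2) (Fin 2) F} (h : q7R z x ω y)
    (u : SpecialLinearGroup (Fin 2) F)
    (hu : (u : Matrix (Fin 2) (Fin 2) F) * y = y' * (u : Matrix (Fin 2) (Fin 2) F)) :
    q7R z x (u • ω) y' := by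
  obtain ⟨s, hs, h⟩ := h
  refine ⟨u * s, by rw [mul_smul, hs], ?_⟩
  rw [Matrix.SpecialLinearGroup.coe_mul, Matrix.mul_assoc, h, ← Matrix.mul_assoc, hu,
    Matrix.mul_assoc]

theorem q7R.smul {ω : Ω} {y : Matrix (Fin 2) (Fin 2) F} (h : q7R z x ω y)
    (u : SpecialLinearGroup (Fin 2) F) :
    q7R z x (u • ω) ((u : Matrix (Fin 2) (Fin 2) F) * y *
      ((u⁻¹ : SpecialLinearGroup (Fin 2) F) : Matrix (Fin 2) (Fin 2) F)) := by
  refine h.conj u ?_
  rw [Matrix.mul_assoc, q7_inv_mul, Matrix.mul_one]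

theorem q7R.ev (hz : ¬ HasEV z) {ω : Ω} {y : Matrix (Fin 2) (Fin 2) F} (h : q7R z x ω y) :
    ¬ HasEV y := by
  rintro ⟨v, c, hv, hc⟩
  obtain ⟨s, -, h⟩ := h
  apply hz
  have h1 : z * ((s⁻¹ : SpecialLinearGroup (Fin 2) F) : Matrix (Fin 2) (Fin 2) F) =
      ((s⁻¹ : SpecialLinearGroup (Fin 2) F) : Matrix (Fin 2) (Fin 2) F) * y := by
    have h2 : ((s⁻¹ : SpecialLinearGroup (Fin 2) F) : Matrix (Fin 2) (Fin 2) F) *
        ((s : Matrix (Fin 2) (Fin 2) F) * z) *
        ((s⁻¹ : SpecialLinearGroup (Fin 2) F) : Matrix (Fin 2) (Fin 2) F) =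
        ((s⁻¹ : SpecialLinearGroup (Fin 2) F) : Matrix (Fin 2) (Fin 2) F) *
        (y * (s : Matrix (Fin 2) (Fin 2) F)) *
        ((s⁻¹ : SpecialLinearGroup (Fin 2) F) : Matrix (Fin 2) (Fin 2) F) := by rw [h]
    rw [← Matrix.mul_assoc, q7_inv_mul, Matrix.one_mul, Matrix.mul_assoc, Matrix.mul_assoc,
      q7_mul_inv, Matrix.mul_one] at h2
    exact h2
  refine ⟨((s⁻¹ : SpecialLinearGroup (Fin 2) F) : Matrix (Fin 2) (Fin 2) F).mulVec v, c, ?_, ?_⟩
  · intro h0
    apply hv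
    have h3 := congrArg (fun w => (s : Matrix (Fin 2) (Fin 2) F).mulVec w) h0
    simp only [Matrix.mulVec_mulVec, q7_mul_inv, Matrix.one_mulVec, Matrix.mulVec_zero] at h3
    exact h3
  · rw [Matrix.mulVec_mulVec, h1, ← Matrix.mulVec_mulVec, hc, Matrix.mulVec_smul]

theorem q7R.tr {ω : Ω} {y : Matrix (Fin 2) (Fin 2) F} (h : q7R z x ω y) :
    y.trace = z.trace := by
  obtain ⟨s, -, h⟩ := h
  have h1 : y = (s : Matrix (Fin 2) (Fin 2) F) * z *
      ((s⁻¹ : SpecialLinearGroup (Fin 2) F) : Matrix (Fin 2) (Fin 2) F) := by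
    rw [h, Matrix.mul_assoc, q7_mul_inv, Matrix.mul_one]
  rw [h1, Matrix.mul_assoc, Matrix.trace_mul_comm, Matrix.mul_assoc, q7_inv_mul, Matrix.mul_one]

theorem q7R.dt {ω : Ω} {y : Matrix (Fin 2) (Fin 2) F} (h : q7R z x ω y) : y.det = z.det := by
  obtain ⟨s, -, h⟩ := h
  have h1 := congrArg Matrix.det h
  rw [Matrix.det_mul, Matrix.det_mul, s.2, one_mul, mul_one] at h1
  exact h1.symm

theorem q7R.eq_of (hK : ∀ s : SpecialLinearGroup (Fin 2) F, s • x = x ↔ s ∈ nz z) {ω ω' : Ω}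
    {y : Matrix (Fin 2) (Fin 2) F} (h : q7R z x ω y) (h' : q7R z x ω' y) : ω = ω' := by
  obtain ⟨s, rfl, h⟩ := h
  obtain ⟨s', rfl, h'⟩ := h'
  have h1 : (s'⁻¹ * s) • x = x := by
    rw [hK]
    left
    rw [Matrix.SpecialLinearGroup.coe_mul, Matrix.mul_assoc, h, ← Matrix.mul_assoc,
      ← Matrix.mul_assoc]
    congr 1
    apply q7_cancel s'
    rw [Matrix.mul_assoc, ← h', ← Matrix.mul_assoc, q7_inv_mul, Matrix.one_mul, Matrix.mul_assoc,
      q7_inv_mul, Matrix.mul_one]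
  rw [mul_smul, inv_smul_eq_iff] at h1
  exact h1

theorem q7R.eq_of' (h2 : (2 : F) = 0) (ht : z.trace = 1)
    (hK : ∀ s : SpecialLinearGroup (Fin 2) F, s • x = x ↔ s ∈ nz z) {ω ω' : Ω}
    {y : Matrix (Fin 2) (Fin 2) F} (h : q7R z x ω y) (h' : q7R z x ω' (y + 1)) : ω = ω' := by
  obtain ⟨s, rfl, h⟩ := h
  obtain ⟨s', rfl, h'⟩ := h'
  have h1 : (s'⁻¹ * s) • x = x := by
    rw [hK]
    right
    rw [ht, map_one, Matrix.SpecialLinearGroup.coe_mul, Matrix.mul_assoc, h, ← Matrix.mul_assoc,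
      ← Matrix.mul_assoc]
    congr 1
    apply q7_cancel s'
    have h3 : y * (s' : Matrix (Fin 2) (Fin 2) F) =
        (s' : Matrix (Fin 2) (Fin 2) F) * z - (s' : Matrix (Fin 2) (Fin 2) F) := by
      rw [h', Matrix.add_mul, Matrix.one_mul, add_sub_cancel_right]
    rw [Matrix.mul_assoc, h3, Matrix.mul_sub, ← Matrix.mul_assoc, q7_inv_mul, Matrix.one_mul,
      Matrix.mul_assoc, q7_inv_mul, Matrix.mul_one, ← neg_sub, q7_neg h2]
  rw [mul_smul, inv_smul_eq_iff] at h1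
  exact h1

theorem q7R.uniq (h2 : (2 : F) = 0) (ht : z.trace = 1)
    (hK : ∀ s : SpecialLinearGroup (Fin 2) F, s • x = x ↔ s ∈ nz z) {ω : Ω}
    {y y' : Matrix (Fin 2) (Fin 2) F} (h : q7R z x ω y) (h' : q7R z x ω y') :
    y' = y ∨ y' = y + 1 := by
  obtain ⟨s, hs, h⟩ := h
  obtain ⟨s', hs', h'⟩ := h'
  have h1 : (s⁻¹ * s') • x = x := by
    rw [mul_smul, hs', inv_smul_eq_iff, hs]
  have hsk : (s' : Matrix (Fin 2) (Fin 2) F) = (s : Matrix (Fin 2) (Fin 2) F) *
      ((s⁻¹ * s' : SpecialLinearGroup (Fin 2) F) : Matrix (Fin 2) (Fin 2) F) := by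
    rw [← Matrix.SpecialLinearGroup.coe_mul, mul_inv_cancel_left]
  rw [hK] at h1
  rcases h1 with h1 | h1
  · left
    apply q7_cancel s'
    rw [← h', hsk, Matrix.mul_assoc, h1, ← Matrix.mul_assoc, h, Matrix.mul_assoc]
  · right
    apply q7_cancel s'
    rw [ht, map_one] at h1
    rw [← h', hsk, Matrix.mul_assoc, h1, ← Matrix.mul_assoc, Matrix.mul_sub, Matrix.mul_one, h,
      Matrix.add_mul, ← Matrix.mul_assoc, Matrix.sub_mul, Matrix.one_mul, sub_eq_add_neg,
      q7_neg h2, add_comm]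

end rel

section count

open Finset

open scoped Classical

variable {F : Type*} [Field F] [Fintype F] {Ω : Type*} [Fintype Ω]
  [MulAction (SpecialLinearGroup (Fin 2) F) Ω] {z : Matrix (Fin 2) (Fin 2) F} {x : Ω}

/-- The involutions. -/
noncomputable def q7Inv (F : Type*) [Field F] [Fintype F] :
    Finset (SpecialLinearGroup (Fin 2) F) :=
  univ.filter fun u => u ≠ 1 ∧ u * u = 1

omit [Fintype Ω] in
theorem q7_filter (h2 : (2 : F) = 0) (ht : z.trace = 1)
    (hK : ∀ s : SpecialLinearGroup (Fin 2) F, s • x = x ↔ s ∈ nz z) {ω ω' : Ω}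
    {y y' : Matrix (Fin 2) (Fin 2) F} (h : q7R z x ω y) (h' : q7R z x ω' y') :
    ((q7Inv F).filter fun u => u • ω = ω').card =
      Nat.card {u : SpecialLinearGroup (Fin 2) F // u ≠ 1 ∧ u * u = 1 ∧
        (u : Matrix (Fin 2) (Fin 2) F) * y = y' * u} +
      Nat.card {u : SpecialLinearGroup (Fin 2) F // u ≠ 1 ∧ u * u = 1 ∧
        (u : Matrix (Fin 2) (Fin 2) F) * y = (y' + 1) * u} := by
  rw [Nat.card_eq_fintype_card, Nat.card_eq_fintype_card, Fintype.card_subtype,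
    Fintype.card_subtype, ← card_union_of_disjoint]
  · congr 1
    ext u
    simp only [q7Inv, mem_filter, mem_univ, true_and, mem_union]
    constructor
    · rintro ⟨⟨h3, h4⟩, h5⟩
      rcases h'.uniq h2 ht hK (h5 ▸ h.smul u) with h6 | h6
      · left
        refine ⟨h3, h4, ?_⟩
        rw [← h6, Matrix.mul_assoc, q7_inv_mul, Matrix.mul_one]
      · right
        refine ⟨h3, h4, ?_⟩
        rw [← h6, Matrix.mul_assoc, q7_inv_mul, Matrix.mul_one]
    · rintro (⟨h3, h4, h5⟩ | ⟨h3, h4, h5⟩)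
      · exact ⟨⟨h3, h4⟩, (h.conj u h5).eq_of hK h'⟩
      · exact ⟨⟨h3, h4⟩, (h'.eq_of' h2 ht hK (h.conj u h5)).symm⟩
  · rw [disjoint_left]
    intro u h3 h4
    simp only [mem_filter, mem_univ, true_and] at h3 h4
    have h5 := q7_cancel u (h3.2.2.symm.trans h4.2.2)
    have h6 : (1 : Matrix (Fin 2) (Fin 2) F) = 0 := by
      have h7 := h5.symm
      rwa [add_eq_left] at h7
    exact one_ne_zero h6

omit [Fintype Ω] in
theorem q7_card_eq (h2 : (2 : F) = 0) (hz : ¬ HasEV z) (ht : z.trace = 1)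
    (htr : ∀ ω : Ω, ∃ s : SpecialLinearGroup (Fin 2) F, s • x = ω)
    (hK : ∀ s : SpecialLinearGroup (Fin 2) F, s • x = x ↔ s ∈ nz z) (ω : Ω) :
    ((q7Inv F).filter fun u => u • ω = ω).card = Fintype.card F + 1 := by
  obtain ⟨y, h⟩ := q7R_exists z x htr ω
  rw [q7_filter h2 ht hK h h, card_inv_comm h2 y (h.ev hz) (h.tr.trans ht),
    card_inv_anti h2 y (h.ev hz) (h.tr.trans ht), zero_add]

omit [Fintype Ω] in
theorem q7_card_ne (h2 : (2 : F) = 0) (hz : ¬ HasEV z) (ht : z.trace = 1)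
    (htr : ∀ ω : Ω, ∃ s : SpecialLinearGroup (Fin 2) F, s • x = ω)
    (hK : ∀ s : SpecialLinearGroup (Fin 2) F, s • x = x ↔ s ∈ nz z) {ω ω' : Ω} (hne : ω' ≠ ω) :
    ((q7Inv F).filter fun u => u • ω = ω').card = 2 := by
  obtain ⟨y, h⟩ := q7R_exists z x htr ω
  obtain ⟨y', h'⟩ := q7R_exists z x htr ω'
  have h1 : y' ≠ y := by
    rintro rfl
    exact hne (h'.eq_of hK h)
  have h3 : y' ≠ y + 1 := by
    rintro rfl
    exact hne (h.eq_of' h2 ht hK h').symm
  have htr1 : (y' + 1).trace = 1 := by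
    rw [Matrix.trace_add, h'.tr, ht, Matrix.trace_one, Fintype.card_fin, Nat.cast_ofNat, h2,
      add_zero]
  have hdet1 : y.det = (y' + 1).det := by
    have h4 : (y' + 1).det = y'.det + (y'.trace + 1) := by
      rw [Matrix.det_fin_two, Matrix.det_fin_two, Matrix.trace_fin_two]
      simp only [Matrix.add_apply, Matrix.one_apply_eq, ne_eq, Matrix.one_apply_ne,
        Fin.isValue, zero_ne_one, one_ne_zero, not_false_eq_true]
      ring
    rw [h4, h'.tr, ht, one_add_one_eq_two, h2, add_zero, h.dt, h'.dt]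
  have h5 : y' + 1 ≠ y := by
    intro h6
    apply h3
    rw [← h6, add_assoc, q7_add_self h2, add_zero]
  have h6 : y' + 1 ≠ y + 1 := fun h7 => h1 (add_right_cancel h7)
  rw [q7_filter h2 ht hK h h', card_inv_ne h2 y y' (h.ev hz) (h.tr.trans ht) (h'.tr.trans ht)
    (h.dt.trans h'.dt.symm) h1 h3, card_inv_ne h2 y (y' + 1) (h.ev hz) (h.tr.trans ht) htr1 hdet1
    h5 h6]

/-- The sum over the involutions. -/
theorem q7_sum (h2 : (2 : F) = 0) (hz : ¬ HasEV z) (ht : z.trace = 1)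
    (htr : ∀ ω : Ω, ∃ s : SpecialLinearGroup (Fin 2) F, s • x = ω)
    (hK : ∀ s : SpecialLinearGroup (Fin 2) F, s • x = x ↔ s ∈ nz z) (f : Ω → ℚ)
    (hf : ∑ ω, f ω = 0) (ω : Ω) :
    ∑ u ∈ q7Inv F, f (u • ω) = ((Fintype.card F : ℚ) - 1) * f ω := by
  rw [← sum_fiberwise (q7Inv F) (fun u => u • ω) (fun u => f (u • ω))]
  have h1 : ∀ ω' ∈ (univ : Finset Ω), ∑ u ∈ (q7Inv F).filter (fun u => u • ω = ω'), f (u • ω) =
      2 * f ω' + (if ω' = ω then ((Fintype.card F : ℚ) - 1) * f ω' else 0) := by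
    intro ω' _
    have h3 : ∑ u ∈ (q7Inv F).filter (fun u => u • ω = ω'), f (u • ω) =
        ∑ _u ∈ (q7Inv F).filter (fun u => u • ω = ω'), f ω' := by
      refine sum_congr rfl fun u hu => ?_
      rw [(mem_filter.1 hu).2]
    rw [h3, sum_const, nsmul_eq_mul]
    by_cases h4 : ω' = ω
    · subst h4
      rw [q7_card_eq h2 hz ht htr hK, if_pos rfl]
      push_cast
      ring
    · rw [q7_card_ne h2 hz ht htr hK h4, if_neg h4]
      push_cast
      ring
  rw [sum_congr rfl h1, sum_add_distrib, ← mul_sum, hf, mul_zero, zero_add, sum_ite_eq' univ ω,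
    if_pos (mem_univ _)]

/-- The nonzero vectors fixed by `s`. -/
theorem q7_fix_one : ((univ : Finset (Fin 2 → F)).filter fun v => v ≠ 0 ∧
    ((1 : SpecialLinearGroup (Fin 2) F) : Matrix (Fin 2) (Fin 2) F).mulVec v = v).card =
      Fintype.card F ^ 2 - 1 := by
  have h1 : ((univ : Finset (Fin 2 → F)).filter fun v => v ≠ 0 ∧
      ((1 : SpecialLinearGroup (Fin 2) F) : Matrix (Fin 2) (Fin 2) F).mulVec v = v) =
      (univ : Finset (Fin 2 → F)).erase 0 := by
    ext v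
    simp only [mem_filter, mem_univ, true_and, mem_erase, Matrix.SpecialLinearGroup.coe_one,
      Matrix.one_mulVec, and_true]
  rw [h1, card_erase_of_mem (mem_univ _), card_univ, Fintype.card_fun, Fintype.card_fin]

theorem q7_fix_none (h2 : (2 : F) = 0) (s : SpecialLinearGroup (Fin 2) F)
    (hs : ¬ s * s = 1) : ((univ : Finset (Fin 2 → F)).filter fun v => v ≠ 0 ∧
    (s : Matrix (Fin 2) (Fin 2) F).mulVec v = v).card = 0 := by
  rw [card_eq_zero, filter_eq_empty_iff]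
  intro v _ hv
  exact hs ((inv_iff h2 s).2 ⟨v, hv⟩)

theorem q7_fix_inv (h2 : (2 : F) = 0) (s : SpecialLinearGroup (Fin 2) F) (h1 : s ≠ 1)
    (hs : s * s = 1) : ((univ : Finset (Fin 2 → F)).filter fun v => v ≠ 0 ∧
    (s : Matrix (Fin 2) (Fin 2) F).mulVec v = v).card = Fintype.card F - 1 := by
  obtain ⟨v₀, hv₀, hs₀⟩ := (inv_iff h2 s).1 hs
  rw [← Fintype.card_units, ← card_univ]
  symm
  refine card_bij (fun (c : Fˣ) _ => (c : F) • v₀) ?_ ?_ ?_
  · intro c _
    rw [mem_filter]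
    refine ⟨mem_univ _, smul_ne_zero c.ne_zero hv₀, ?_⟩
    rw [Matrix.mulVec_smul, hs₀]
  · intro c _ c' _ h
    exact Units.ext (smul_left_injective F hv₀ h)
  · intro v hv
    obtain ⟨hv0, hsv⟩ := (mem_filter.1 hv).2
    have hd : v₀ 0 * v 1 - v₀ 1 * v 0 = 0 := by
      by_contra hne
      apply h1
      have e0 := congrFun hs₀ 0
      have e1 := congrFun hs₀ 1
      have f0 := congrFun hsv 0
      have f1 := congrFun hsv 1
      simp only [Matrix.mulVec, dotProduct, Fin.sum_univ_two, Fin.isValue] at e0 e1 f0 f1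
      have hk : ∀ a b : F, a * v₀ 0 + b * v₀ 1 = 0 → a * v 0 + b * v 1 = 0 → a = 0 ∧ b = 0 := by
        intro a b ha hb
        constructor
        · have : a * (v₀ 0 * v 1 - v₀ 1 * v 0) = 0 := by linear_combination v 1 * ha - v₀ 1 * hb
          exact (mul_eq_zero.1 this).resolve_right hne
        · have : b * (v₀ 0 * v 1 - v₀ 1 * v 0) = 0 := by linear_combination v₀ 0 * hb - v 0 * ha
          exact (mul_eq_zero.1 this).resolve_right hne
      have g0 := hk ((s : Matrix (Fin 2) (Fin 2) F) 0 0 - 1) ((s : Matrix (Fin 2) (Fin 2) F) 0 1)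
        (by linear_combination e0) (by linear_combination f0)
      have g1 := hk ((s : Matrix (Fin 2) (Fin 2) F) 1 0) ((s : Matrix (Fin 2) (Fin 2) F) 1 1 - 1)
        (by linear_combination e1) (by linear_combination f1)
      apply Subtype.ext
      ext i j
      fin_cases i <;> fin_cases j
      · exact sub_eq_zero.1 g0.1
      · exact g0.2
      · exact g1.1
      · exact sub_eq_zero.1 g1.2
    have hcases : ∃ c : F, v = c • v₀ := by
      by_cases h3 : v₀ 0 = 0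
      · have h4 : v₀ 1 ≠ 0 := by
          intro h5
          apply hv₀
          funext i
          fin_cases i
          · exact h3
          · exact h5
        refine ⟨v 1 / v₀ 1, ?_⟩
        funext i
        fin_cases i
        · change v 0 = v 1 / v₀ 1 * v₀ 0
          rw [h3, zero_mul, zero_sub, neg_eq_zero] at hd
          rw [h3, mul_zero]
          exact (mul_eq_zero.1 hd).resolve_left h4
        · change v 1 = v 1 / v₀ 1 * v₀ 1
          field_simp
      · refine ⟨v 0 / v₀ 0, ?_⟩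
        funext i
        fin_cases i
        · change v 0 = v 0 / v₀ 0 * v₀ 0
          field_simp
        · change v 1 = v 0 / v₀ 0 * v₀ 1
          field_simp
          linear_combination hd
    obtain ⟨c, rfl⟩ := hcases
    have hc : c ≠ 0 := by
      rintro rfl
      exact hv0 (zero_smul _ _)
    exact ⟨Units.mk0 c hc, mem_univ _, rfl⟩

/-- The sum over the stabiliser of the vector `v`. -/
noncomputable def q7H (f : Ω → ℚ) (v : Fin 2 → F) (ω : Ω) : ℚ :=
  ∑ s ∈ (univ : Finset (SpecialLinearGroup (Fin 2) F)).filter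
    (fun s : SpecialLinearGroup (Fin 2) F => (s : Matrix (Fin 2) (Fin 2) F).mulVec v = v),
    f (s • ω)

theorem q7_H (h2 : (2 : F) = 0) (hz : ¬ HasEV z) (ht : z.trace = 1)
    (htr : ∀ ω : Ω, ∃ s : SpecialLinearGroup (Fin 2) F, s • x = ω)
    (hK : ∀ s : SpecialLinearGroup (Fin 2) F, s • x = x ↔ s ∈ nz z) (f : Ω → ℚ)
    (hf : ∑ ω, f ω = 0) (ω : Ω) :
    ∑ v ∈ (univ : Finset (Fin 2 → F)).filter (fun v => v ≠ 0), q7H f v ω =
      2 * (Fintype.card F : ℚ) * ((Fintype.card F : ℚ) - 1) * f ω := by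
  have hq : 1 ≤ Fintype.card F := Fintype.card_pos
  have hq2 : 1 ≤ Fintype.card F ^ 2 := Nat.one_le_pow _ _ hq
  have h1 : ∑ v ∈ (univ : Finset (Fin 2 → F)).filter (fun v => v ≠ 0), q7H f v ω =
      ∑ s : SpecialLinearGroup (Fin 2) F, (((univ : Finset (Fin 2 → F)).filter fun v => v ≠ 0 ∧
        (s : Matrix (Fin 2) (Fin 2) F).mulVec v = v).card : ℚ) * f (s • ω) := by
    simp only [q7H]
    rw [sum_comm' (t' := (univ : Finset (SpecialLinearGroup (Fin 2) F)))
      (s' := fun s : SpecialLinearGroup (Fin 2) F => (univ : Finset (Fin 2 → F)).filter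
        fun v => v ≠ 0 ∧ (s : Matrix (Fin 2) (Fin 2) F).mulVec v = v)
      (by intro v s; simp only [mem_filter, mem_univ, true_and, and_true])]
    refine sum_congr rfl fun s _ => ?_
    rw [sum_const, nsmul_eq_mul]
  rw [h1]
  have h3 : ∀ s ∈ (univ : Finset (SpecialLinearGroup (Fin 2) F)),
      (((univ : Finset (Fin 2 → F)).filter fun v => v ≠ 0 ∧
        (s : Matrix (Fin 2) (Fin 2) F).mulVec v = v).card : ℚ) * f (s • ω) =
      (if s = 1 then ((Fintype.card F : ℚ) ^ 2 - 1) * f (s • ω) else 0) +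
      (if s ≠ 1 ∧ s * s = 1 then ((Fintype.card F : ℚ) - 1) * f (s • ω) else 0) := by
    intro s _
    by_cases h4 : s = 1
    · subst h4
      rw [q7_fix_one, if_pos rfl, if_neg (fun h => h.1 rfl), add_zero, Nat.cast_sub hq2]
      push_cast
      ring
    · rw [if_neg h4, zero_add]
      by_cases h5 : s * s = 1
      · rw [q7_fix_inv h2 s h4 h5, if_pos ⟨h4, h5⟩, Nat.cast_sub hq, Nat.cast_one]
      · rw [q7_fix_none h2 s h5, if_neg (fun h => h5 h.2), Nat.cast_zero, zero_mul]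
  rw [sum_congr rfl h3, sum_add_distrib, sum_ite_eq' univ (1 : SpecialLinearGroup (Fin 2) F),
    if_pos (mem_univ _), one_smul, ← sum_filter, ← mul_sum]
  have h4 := q7_sum h2 hz ht htr hK f hf ω
  rw [q7Inv] at h4
  rw [h4]
  ring

end count

end Lin43
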