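import Pool.Agent.Lib.MP_43150e_al.Lin.Cyc
import Pool.Agent.Lib.MP_43150e_al.Lin.N2Qa

/-! # `n = 2`, `q` even: functions invariant under a unitriangular group (paragraph 7b) -/

set_option autoImplicit false

namespace Lin43

open Matrix Finset

open scoped Classical

variable {F : Type*} [Field F] [Fintype F] {Ω : Type*} [Fintype Ω]
  [MulAction (SpecialLinearGroup (Fin 2) F) Ω] {z : Matrix (Fin 2) (Fin 2) F} {x : Ω}

/-- The first basis vector. -/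
def q7e (F : Type*) [Field F] : Fin 2 → F := ![1, 0]

omit [Fintype F] in
theorem q7e_ne : q7e F ≠ 0 := fun h => one_ne_zero (congrFun h 0)

omit [Fintype F] in
theorem q7_mulVec_e (y : Matrix (Fin 2) (Fin 2) F) : y.mulVec (q7e F) = ![y 0 0, y 1 0] := by
  funext i
  fin_cases i
  · change (y 0 : Fin 2 → F) ⬝ᵥ ![1, 0] = y 0 0
    rw [dotProduct, Fin.sum_univ_two]
    simp
  · change (y 1 : Fin 2 → F) ⬝ᵥ ![1, 0] = y 1 0
    rw [dotProduct, Fin.sum_univ_two]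
    simp

omit [Fintype F] in
theorem q7_uu_e (u : SpecialLinearGroup (Fin 2) F) (hu : UU (u : Matrix (Fin 2) (Fin 2) F)) :
    (u : Matrix (Fin 2) (Fin 2) F).mulVec (q7e F) = q7e F := by
  rw [q7_mulVec_e, hu.2 0, hu.1 1 0 (by decide)]
  rfl

omit [Fintype F] in
theorem q7_ent_ne {y : Matrix (Fin 2) (Fin 2) F} (hy : ¬ HasEV y) : y 1 0 ≠ 0 := by
  intro h
  apply hy
  refine ⟨q7e F, y 0 0, q7e_ne, ?_⟩
  rw [q7_mulVec_e, h]
  funext i
  fin_cases i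
  · change y 0 0 = y 0 0 * 1
    rw [mul_one]
  · change (0 : F) = y 0 0 * 0
    rw [mul_zero]

omit [Fintype F] [Fintype Ω] in
/-- The entry `(1, 0)` of the matrices of a point. -/
theorem q7_exists_c (h2 : (2 : F) = 0) (hz : ¬ HasEV z) (ht : z.trace = 1)
    (htr : ∀ ω : Ω, ∃ s : SpecialLinearGroup (Fin 2) F, s • x = ω)
    (hK : ∀ s : SpecialLinearGroup (Fin 2) F, s • x = x ↔ s ∈ nz z) :
    ∃ c : Ω → Fˣ, ∀ ω y, q7R z x ω y → y 1 0 = (c ω : F) := by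
  choose Y hY using q7R_exists z x htr
  refine ⟨fun ω => Units.mk0 (Y ω 1 0) (q7_ent_ne ((hY ω).ev hz)), fun ω y h => ?_⟩
  rw [Units.val_mk0]
  rcases (hY ω).uniq h2 ht hK h with rfl | rfl
  · rfl
  · rw [Matrix.add_apply, Matrix.one_apply_ne (by decide : (1 : Fin 2) ≠ 0), add_zero]

omit [Fintype Ω] in
theorem q7_same (h2 : (2 : F) = 0) (hz : ¬ HasEV z) (ht : z.trace = 1)
    (htr : ∀ ω : Ω, ∃ s : SpecialLinearGroup (Fin 2) F, s • x = ω)
    (hK : ∀ s : SpecialLinearGroup (Fin 2) F, s • x = x ↔ s ∈ nz z) (c : Ω → Fˣ)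
    (hc : ∀ ω y, q7R z x ω y → y 1 0 = (c ω : F)) {ω ω' : Ω} (h : c ω = c ω') :
    ∃ u : SpecialLinearGroup (Fin 2) F, (u : Matrix (Fin 2) (Fin 2) F).mulVec (q7e F) = q7e F ∧
      u • ω = ω' := by
  obtain ⟨y, hy⟩ := q7R_exists z x htr ω
  obtain ⟨y', hy'⟩ := q7R_exists z x htr ω'
  obtain ⟨u, hu, huy⟩ := conj_uni h2 y y' (hy.ev hz) (hy.tr.trans ht) (hy'.tr.trans ht)
    (hy.dt.trans hy'.dt.symm) (by rw [hc _ _ hy, hc _ _ hy', h])
  exact ⟨u, q7_uu_e u hu, (hy.conj u huy).eq_of hK hy'⟩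

omit [Fintype Ω] in
theorem q7_torus (h2 : (2 : F) = 0)
    (htr : ∀ ω : Ω, ∃ s : SpecialLinearGroup (Fin 2) F, s • x = ω) (c : Ω → Fˣ)
    (hc : ∀ ω y, q7R z x ω y → y 1 0 = (c ω : F)) (b : Fˣ) :
    ∃ s : SpecialLinearGroup (Fin 2) F, ∀ ω, c (s • ω) = b * c ω := by
  have hch : CharP F 2 := by
    have h3 : ringChar F = 2 := by
      have h4 : ringChar F ∣ 2 := by
        rw [← Nat.cast_ofNat (R := F), ringChar.spec] at h2
        exact h2
      rcases (Nat.dvd_prime Nat.prime_two).1 h4 with h5 | h5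
      · exact absurd h5 (CharP.ringChar_ne_one)
      · exact h5
    rw [← h3]
    exact ringChar.charP F
  obtain ⟨r, hr⟩ : ∃ r : F, (b : F) = r * r :=
    FiniteField.isSquare_of_char_two (by rw [ringChar.eq F 2]) (b : F)
  have hr0 : r ≠ 0 := by
    rintro rfl
    exact b.ne_zero (by rw [hr, mul_zero])
  have hdet : (!![r⁻¹, 0; 0, r] : Matrix (Fin 2) (Fin 2) F).det = 1 := by
    rw [Matrix.det_fin_two_of, mul_zero, sub_zero, inv_mul_cancel₀ hr0]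
  refine ⟨⟨!![r⁻¹, 0; 0, r], hdet⟩, fun ω => ?_⟩
  obtain ⟨y, hy⟩ := q7R_exists z x htr ω
  set s : SpecialLinearGroup (Fin 2) F := ⟨!![r⁻¹, 0; 0, r], hdet⟩ with hs
  set y' : Matrix (Fin 2) (Fin 2) F := (s : Matrix (Fin 2) (Fin 2) F) * y *
      ((s⁻¹ : SpecialLinearGroup (Fin 2) F) : Matrix (Fin 2) (Fin 2) F) with hy'
  have h3 : q7R z x (s • ω) y' := hy.smul s
  have h4 : (s : Matrix (Fin 2) (Fin 2) F) * y = y' * (s : Matrix (Fin 2) (Fin 2) F) := by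
    rw [hy', Matrix.mul_assoc, q7_inv_mul, Matrix.mul_one]
  have h5 := congrFun (congrFun h4 1) 0
  rw [Matrix.mul_apply, Matrix.mul_apply, Fin.sum_univ_two, Fin.sum_univ_two] at h5
  have e00 : (s : Matrix (Fin 2) (Fin 2) F) 0 0 = r⁻¹ := rfl
  have e10 : (s : Matrix (Fin 2) (Fin 2) F) 1 0 = 0 := rfl
  have e11 : (s : Matrix (Fin 2) (Fin 2) F) 1 1 = r := rfl
  rw [e00, e10, e11, zero_mul, zero_add, mul_zero, add_zero, hc _ _ h3, hc _ _ hy] at h5
  apply Units.ext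
  rw [Units.val_mul, hr]
  have h6 : ((c (s • ω) : Fˣ) : F) = ((c (s • ω) : Fˣ) : F) * r⁻¹ * r := by
    rw [mul_assoc, inv_mul_cancel₀ hr0, mul_one]
  rw [h6, ← h5]
  ring

/-- If `∑_ω φ (c ω) = 0` then `∑ φ = 0`. -/
theorem q7_sum0 [Nonempty Ω] (c : Ω → Fˣ)
    (hs : ∀ b : Fˣ, ∃ s : SpecialLinearGroup (Fin 2) F, ∀ ω, c (s • ω) = b * c ω)
    (φ : Fˣ → ℚ) (h : ∑ ω, φ (c ω) = 0) : ∑ b, φ b = 0 := by
  have h1 : ∑ ω : Ω, ∑ b : Fˣ, φ (b * c ω) = 0 := by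
    rw [sum_comm]
    refine sum_eq_zero fun b _ => ?_
    obtain ⟨s, hs⟩ := hs b
    rw [← h, ← Equiv.sum_comp (MulAction.toPerm s) (fun ω => φ (c ω))]
    refine sum_congr rfl fun ω _ => ?_
    rw [← hs ω]
    rfl
  have h3 : ∀ ω ∈ (univ : Finset Ω), ∑ b : Fˣ, φ (b * c ω) = ∑ b, φ b := by
    intro ω _
    exact Equiv.sum_comp (Equiv.mulRight (c ω)) φ
  rw [sum_congr rfl h3, sum_const, card_univ, nsmul_eq_mul] at h1
  have h4 : (Fintype.card Ω : ℚ) ≠ 0 := by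
    have : 0 < Fintype.card Ω := Fintype.card_pos
    positivity
  exact (mul_eq_zero.1 h1).resolve_left h4

/-- Functions with sum `0` which are invariant under the stabiliser of the first basis vector. -/
theorem q7_inv_mem [Nonempty Ω] (h2 : (2 : F) = 0) (hp : (Fintype.card F - 1).Prime)
    (hz : ¬ HasEV z) (ht : z.trace = 1)
    (htr : ∀ ω : Ω, ∃ s : SpecialLinearGroup (Fin 2) F, s • x = ω)
    (hK : ∀ s : SpecialLinearGroup (Fin 2) F, s • x = x ↔ s ∈ nz z)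
    (W : Submodule ℚ (Ω → ℚ))
    (hW : ∀ s : SpecialLinearGroup (Fin 2) F, ∀ f ∈ W, (fun ω => f (s • ω)) ∈ W)
    (hW0 : ∀ f ∈ W, ∑ ω, f ω = 0) (f₁ : Ω → ℚ) (hf₁ : f₁ ∈ W) (hf₁0 : f₁ ≠ 0)
    (hinv₁ : ∀ s : SpecialLinearGroup (Fin 2) F,
      (s : Matrix (Fin 2) (Fin 2) F).mulVec (q7e F) = q7e F → ∀ ω, f₁ (s • ω) = f₁ ω)
    (g : Ω → ℚ) (hg : ∑ ω, g ω = 0)
    (hinv : ∀ s : SpecialLinearGroup (Fin 2) F,
      (s : Matrix (Fin 2) (Fin 2) F).mulVec (q7e F) = q7e F → ∀ ω, g (s • ω) = g ω) :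
    g ∈ W := by
  obtain ⟨c, hc⟩ := q7_exists_c h2 hz ht htr hK
  have htor := q7_torus h2 htr c hc
  have hfac : ∀ g : Ω → ℚ, (∀ s : SpecialLinearGroup (Fin 2) F,
      (s : Matrix (Fin 2) (Fin 2) F).mulVec (q7e F) = q7e F → ∀ ω, g (s • ω) = g ω) →
      ∃ φ : Fˣ → ℚ, ∀ ω, g ω = φ (c ω) := by
    intro g hg
    refine ⟨fun b => if h : ∃ ω, c ω = b then g (Classical.choose h) else 0, fun ω => ?_⟩
    have h3 : ∃ ω', c ω' = c ω := ⟨ω, rfl⟩
    simp only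
    rw [dif_pos h3]
    obtain ⟨u, hu, huω⟩ := q7_same h2 hz ht htr hK c hc (Classical.choose_spec h3)
    have h5 := hg u hu (Classical.choose h3)
    rw [huω] at h5
    exact h5
  obtain ⟨φ₁, hφ₁⟩ := hfac f₁ hinv₁
  obtain ⟨φ, hφ⟩ := hfac g hinv
  have hg' : g = fun ω => φ (c ω) := funext hφ
  have hf' : f₁ = fun ω => φ₁ (c ω) := funext hφ₁
  have key := cyc_irr (C := Fˣ) (by rw [Fintype.card_units]; exact hp)
    (W.comap (LinearMap.funLeft ℚ ℚ c)) ?_ ⟨φ₁, ?_, ?_, ?_⟩ φ ?_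
  · rw [Submodule.mem_comap] at key
    rw [hg']
    exact key
  · intro b ψ hψ
    rw [Submodule.mem_comap] at hψ ⊢
    obtain ⟨s, hs⟩ := htor b
    have h3 := hW s _ hψ
    have h4 : (fun ω => (LinearMap.funLeft ℚ ℚ c ψ) (s • ω)) =
        LinearMap.funLeft ℚ ℚ c (fun x => ψ (b * x)) := by
      funext ω
      rw [LinearMap.funLeft_apply, LinearMap.funLeft_apply, hs]
    rw [← h4]
    exact h3
  · rw [Submodule.mem_comap]
    have h3 : LinearMap.funLeft ℚ ℚ c φ₁ = f₁ := by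
      rw [hf']
      rfl
    rw [h3]
    exact hf₁
  · rintro rfl
    exact hf₁0 hf'
  · refine q7_sum0 c htor φ₁ ?_
    rw [hf'] at hf₁
    exact hW0 _ hf₁
  · refine q7_sum0 c htor φ ?_
    rw [hg'] at hg
    exact hg

omit [Fintype Ω] in
/-- `q7H f v` is invariant under the stabiliser of `v`. -/
theorem q7H_inv (f : Ω → ℚ) (v : Fin 2 → F) (s : SpecialLinearGroup (Fin 2) F)
    (hs : (s : Matrix (Fin 2) (Fin 2) F).mulVec v = v) (ω : Ω) :
    q7H f v (s • ω) = q7H f v ω := by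
  unfold q7H
  refine sum_bij' (fun r _ => r * s) (fun r _ => r * s⁻¹) ?_ ?_ ?_ ?_ ?_
  · intro r hr
    rw [mem_filter] at hr ⊢
    refine ⟨mem_univ _, ?_⟩
    rw [Matrix.SpecialLinearGroup.coe_mul, ← Matrix.mulVec_mulVec, hs, hr.2]
  · intro r hr
    rw [mem_filter] at hr ⊢
    refine ⟨mem_univ _, ?_⟩
    have h1 : ((s⁻¹ : SpecialLinearGroup (Fin 2) F) : Matrix (Fin 2) (Fin 2) F).mulVec v = v := by
      have h3 : ((s⁻¹ : SpecialLinearGroup (Fin 2) F) : Matrix (Fin 2) (Fin 2) F).mulVec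
          ((s : Matrix (Fin 2) (Fin 2) F).mulVec v) = v := by
        rw [Matrix.mulVec_mulVec, q7_inv_mul, Matrix.one_mulVec]
      rw [hs] at h3
      exact h3
    rw [Matrix.SpecialLinearGroup.coe_mul, ← Matrix.mulVec_mulVec, h1, hr.2]
  · intro r _
    exact mul_inv_cancel_right r s
  · intro r _
    exact inv_mul_cancel_right r s
  · intro r _
    rw [mul_smul]

/-- The irreducibility. -/
theorem q7_irr [Nonempty Ω] (h2 : (2 : F) = 0) (hq : 1 < Fintype.card F)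
    (hp : (Fintype.card F - 1).Prime) (hz : ¬ HasEV z) (ht : z.trace = 1)
    (htr : ∀ ω : Ω, ∃ s : SpecialLinearGroup (Fin 2) F, s • x = ω)
    (hK : ∀ s : SpecialLinearGroup (Fin 2) F, s • x = x ↔ s ∈ nz z)
    (W : Submodule ℚ (Ω → ℚ))
    (hW : ∀ s : SpecialLinearGroup (Fin 2) F, ∀ f ∈ W, (fun ω => f (s • ω)) ∈ W)
    (hW0 : ∀ f ∈ W, ∑ ω, f ω = 0) (hne : W ≠ ⊥) (g : Ω → ℚ) (hg : ∑ ω, g ω = 0) : g ∈ W := by
  have hcst : (2 * (Fintype.card F : ℚ) * ((Fintype.card F : ℚ) - 1)) ≠ 0 := by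
    have h3 : (1 : ℚ) < Fintype.card F := by exact_mod_cast hq
    have h4 : (0 : ℚ) < (Fintype.card F : ℚ) - 1 := by linarith
    positivity
  have hmemH : ∀ (f : Ω → ℚ), f ∈ W → ∀ v : Fin 2 → F, q7H f v ∈ W := by
    intro f hf v
    have h3 : q7H f v = ∑ s ∈ (univ : Finset (SpecialLinearGroup (Fin 2) F)).filter
        (fun s : SpecialLinearGroup (Fin 2) F =>
          (s : Matrix (Fin 2) (Fin 2) F).mulVec v = v), (fun ω => f (s • ω)) := by
      funext ω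
      rw [Finset.sum_apply]
      rfl
    rw [h3]
    exact Submodule.sum_mem _ fun s _ => hW s f hf
  have hsum : ∀ (f : Ω → ℚ) (s : SpecialLinearGroup (Fin 2) F), ∑ ω, f (s • ω) = ∑ ω, f ω :=
    fun f s => Equiv.sum_comp (MulAction.toPerm s) f
  obtain ⟨f, hf, hf0⟩ := Submodule.exists_mem_ne_zero_of_ne_bot hne
  -- a nonzero invariant function
  obtain ⟨v, hv, hHv⟩ : ∃ v : Fin 2 → F, v ≠ 0 ∧ q7H f v ≠ 0 := by
    by_contra hcon
    push Not at hcon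
    apply hf0
    funext ω
    have h3 := q7_H h2 hz ht htr hK f (hW0 f hf) ω
    rw [sum_eq_zero (fun v hv => by rw [hcon v (mem_filter.1 hv).2]; rfl)] at h3
    exact (mul_eq_zero.1 h3.symm).resolve_left hcst
  obtain ⟨t, ht'⟩ := sl_trans le_rfl (q7e F) v q7e_ne hv
  have hconj : ∀ (H : Ω → ℚ) (w : Fin 2 → F) (r : SpecialLinearGroup (Fin 2) F),
      (r : Matrix (Fin 2) (Fin 2) F).mulVec (q7e F) = w →
      (∀ s : SpecialLinearGroup (Fin 2) F, (s : Matrix (Fin 2) (Fin 2) F).mulVec w = w →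
        ∀ ω, H (s • ω) = H ω) →
      ∀ s : SpecialLinearGroup (Fin 2) F,
        (s : Matrix (Fin 2) (Fin 2) F).mulVec (q7e F) = q7e F →
        ∀ ω, (fun ω => H (r • ω)) (s • ω) = (fun ω => H (r • ω)) ω := by
    intro H w r hr hH s hs ω
    have h3 : r • s • ω = (r * s * r⁻¹) • r • ω := by
      rw [← mul_smul, ← mul_smul, inv_mul_cancel_right]
    change H (r • s • ω) = H (r • ω)
    rw [h3]
    apply hH
    have h4 : ((r⁻¹ : SpecialLinearGroup (Fin 2) F) : Matrix (Fin 2) (Fin 2) F).mulVec w =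
        q7e F := by
      rw [← hr, Matrix.mulVec_mulVec, q7_inv_mul, Matrix.one_mulVec]
    rw [Matrix.SpecialLinearGroup.coe_mul, Matrix.SpecialLinearGroup.coe_mul,
      ← Matrix.mulVec_mulVec, h4, ← Matrix.mulVec_mulVec, hs, hr]
  have hf₁ne : (fun ω => q7H f v (t • ω)) ≠ 0 := by
    intro h0
    apply hHv
    funext ω
    have h3 := congrFun h0 (t⁻¹ • ω)
    simp only [smul_inv_smul] at h3
    exact h3
  have hall : ∀ g' : Ω → ℚ, ∑ ω, g' ω = 0 → (∀ s : SpecialLinearGroup (Fin 2) F,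
      (s : Matrix (Fin 2) (Fin 2) F).mulVec (q7e F) = q7e F → ∀ ω, g' (s • ω) = g' ω) →
      g' ∈ W := fun g' h3 h4 =>
    q7_inv_mem h2 hp hz ht htr hK W hW hW0 (fun ω => q7H f v (t • ω)) (hW t _ (hmemH f hf v))
      hf₁ne (hconj _ v t ht' (q7H_inv f v)) g' h3 h4
  -- all the functions `q7H g w` belong to `W`
  have hgH : ∀ w : Fin 2 → F, w ≠ 0 → q7H g w ∈ W := by
    intro w hw
    obtain ⟨r, hr⟩ := sl_trans le_rfl (q7e F) w q7e_ne hw
    have h3 : (fun ω => q7H g w (r • ω)) ∈ W := by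
      refine hall _ ?_ (hconj _ w r hr (q7H_inv g w))
      rw [hsum (q7H g w) r]
      unfold q7H
      rw [sum_comm]
      refine sum_eq_zero fun s _ => ?_
      rw [hsum g s, hg]
    have h4 := hW r⁻¹ _ h3
    simp only [smul_inv_smul] at h4
    exact h4
  have h5 : g = (2 * (Fintype.card F : ℚ) * ((Fintype.card F : ℚ) - 1))⁻¹ •
      ∑ w ∈ (univ : Finset (Fin 2 → F)).filter (fun w => w ≠ 0), q7H g w := by
    funext ω
    rw [Pi.smul_apply, Finset.sum_apply, q7_H h2 hz ht htr hK g hg ω, smul_eq_mul,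
      inv_mul_cancel_left₀ hcst]
  rw [h5]
  exact Submodule.smul_mem _ _ (Submodule.sum_mem _ fun w hw => hgH w (mem_filter.1 hw).2)

end Lin43
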