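import Pool.Agent.Lib.MP_43150e_al.Defs
import Pool.Agent.Lib.MP_43150e_al.Lin.Cyc
import Pool.Agent.Lib.MP_43150e_al.Lin.N2I
import Pool.Agent.Lib.MP_43150e_al.Lin.N2Qb

/-! # `n = 2`, `q` even, `q - 1` prime: QI (paragraph 7b)

`K = stabS j x = nz z`, `tr z = 1`. For `ω = j (toP s) • x` the pair `{y, y + 1}`, `y = s z s⁻¹`, depends only on
`ω` and determines it. `V` = functions with sum `0`; `W ≤ V` invariant, `W ≠ 0`. For `v ≠ 0` let
`U_v = {s ∈ SL_2 | s v = v}`, `(H_v f)(ω) = ∑_(s ∈ U_v) f(j (toP s) • ω)`; `H_v f ∈ W` for `f ∈ W`.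
(1) For `f ∈ V`: `∑_(P) H_P f = 2 q f`, sum over the points `P = ⟨v⟩`: the involutions are the disjoint union of the
`U_P \ 1`, and for `ω' ≠ ω` exactly two involutions map `ω` to `ω'`, `q + 1` fix `ω` (`N2I`).
(2) So some `H_P f ≠ 0` for `0 ≠ f ∈ W`. (3) A `U`-invariant function (`U = U_(e_0)`) is `f = F(c(ω))`,
`c(ω) = y 1 0 ∈ F^*` (`conj_uni`); `diag(a, a⁻¹)` acts by `c ↦ a^(-2) c`; `cyc_irr` for `Fˣ`: if `W` contains a nonzero
`U_P`-invariant function then it contains all `U_P`-invariant functions of `V`; by conjugation for all `P`.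
(4) `2 q g = ∑_P H_P g ∈ W` for every `g ∈ V`. -/

set_option autoImplicit false

namespace Lin43

open Matrix Spr43

theorem n2_even_qi {F Γ Ω : Type*} [Field F] [Fintype F] [Group Γ] [MulAction Γ Ω]
    [Fintype Ω] [DecidableEq Ω] (hq : 59 < Fintype.card F) (h2 : (2 : F) = 0)
    (hp : (Fintype.card F - 1).Prime)
    (j : ProjectiveSpecialLinearGroup (Fin 2) F →* Γ)
    (htr : ∀ x y : Ω, ∃ t, j t • x = y) (x : Ω)
    (z : Matrix (Fin 2) (Fin 2) F) (hz : ¬ HasEV z) (ht : z.trace = 1)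
    (hK : stabS j x = nz z) :
    IsQI Γ Ω := by
  classical
  have : Nonempty Ω := ⟨x⟩
  let _ : MulAction (SpecialLinearGroup (Fin 2) F) Ω := MulAction.compHom Ω (j.comp (toP 2 F))
  have hsm : ∀ (s : SpecialLinearGroup (Fin 2) F) (ω : Ω), s • ω = j (toP 2 F s) • ω :=
    fun _ _ => rfl
  have htr' : ∀ ω : Ω, ∃ s : SpecialLinearGroup (Fin 2) F, s • x = ω := by
    intro ω
    obtain ⟨t, ht⟩ := htr x ω
    obtain ⟨s, rfl⟩ := QuotientGroup.mk'_surjective
      (Subgroup.center (SpecialLinearGroup (Fin 2) F)) t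
    exact ⟨s, ht⟩
  have hK' : ∀ s : SpecialLinearGroup (Fin 2) F, s • x = x ↔ s ∈ nz z := by
    intro s
    rw [← hK, mem_stabS]
    rfl
  have hN : (Fintype.card Ω : ℚ) ≠ 0 := by
    have : 0 < Fintype.card Ω := Fintype.card_pos
    positivity
  let V : Submodule ℚ (Ω → ℚ) := LinearMap.ker (∑ x : Ω, (LinearMap.proj x : (Ω → ℚ) →ₗ[ℚ] ℚ))
  have hV : ∀ f : Ω → ℚ, f ∈ V ↔ ∑ x, f x = 0 := by
    intro f
    rw [LinearMap.mem_ker, LinearMap.sum_apply]
    rfl
  refine ⟨V, ?_, ⟨?_, ?_⟩, ?_, ?_⟩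
  · intro g f hf
    rw [hV] at hf ⊢
    rw [← hf]
    exact Equiv.sum_comp (MulAction.toPerm g) f
  · rw [Submodule.disjoint_def]
    intro f hf hfV
    rw [Submodule.mem_span_singleton] at hf
    obtain ⟨c, rfl⟩ := hf
    rw [hV] at hfV
    simp only [Pi.smul_apply, smul_eq_mul, mul_one, Finset.sum_const, Finset.card_univ,
      nsmul_eq_mul] at hfV
    have hc : c = 0 := (mul_eq_zero.1 hfV).resolve_left hN
    rw [hc, zero_smul]
  · rw [codisjoint_iff, eq_top_iff]
    intro f _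
    set c : ℚ := (∑ x, f x) / Fintype.card Ω with hc
    have h1 : f = c • (fun _ => 1 : Ω → ℚ) + (f - c • (fun _ => 1 : Ω → ℚ)) := by simp
    rw [h1]
    refine Submodule.add_mem_sup (Submodule.smul_mem _ _ (Submodule.mem_span_singleton_self _)) ?_
    rw [hV]
    simp only [Pi.sub_apply, Pi.smul_apply, smul_eq_mul, mul_one, Finset.sum_sub_distrib,
      Finset.sum_const, Finset.card_univ, nsmul_eq_mul]
    rw [hc]
    field_simp
    ring
  · obtain ⟨s, hs⟩ : ∃ s : SpecialLinearGroup (Fin 2) F, s • x ≠ x := by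
      by_contra hcon
      push Not at hcon
      refine nz_ne_top (by rw [Nat.card_eq_fintype_card]; omega) z hz ?_
      rw [Subgroup.eq_top_iff']
      exact fun s => (hK' s).1 (hcon s)
    intro hb
    have h1 : (Pi.single (s • x) 1 - Pi.single x 1 : Ω → ℚ) ∈ V := by
      rw [hV]
      simp
    rw [hb, Submodule.mem_bot] at h1
    have h3 := congrFun h1 (s • x)
    rw [Pi.sub_apply, Pi.single_eq_same, Pi.single_eq_of_ne hs, Pi.zero_apply, sub_zero] at h3
    exact one_ne_zero h3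
  · intro W hWV hinv
    by_cases hW : W = ⊥
    · exact Or.inl hW
    right
    apply le_antisymm hWV
    intro g hg
    exact q7_irr h2 (by omega) hp hz ht htr' hK' W (fun s f hf => hinv (j (toP 2 F s)) f hf)
      (fun f hf => (hV f).1 (hWV hf)) hW g ((hV g).1 hg)

end Lin43
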