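import Pool.Agent.Lib.MP_43150e_al.Lin.Tri

/-! # A subgroup of `U` whose superdiagonals are everything is `U` (paragraph 6) -/

set_option autoImplicit false

namespace Lin43

open Matrix

section aux
variable {n : ℕ} {F : Type*} [Field F]

/-- `N` vanishes below the `k`-th superdiagonal. -/
private def Zk (k : ℕ) (N : Matrix (Fin n) (Fin n) F) : Prop :=
  ∀ i j : Fin n, (j : ℕ) < i + k → N i j = 0

private theorem Zk.mul {a b : ℕ} {N N' : Matrix (Fin n) (Fin n) F} (h : Zk a N) (h' : Zk b N') :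
    Zk (a + b) (N * N') := by
  intro i j hij
  rw [Matrix.mul_apply]
  refine Finset.sum_eq_zero fun l _ => ?_
  by_cases hl : (l : ℕ) < i + a
  · rw [h i l hl, zero_mul]
  · rw [h' l j (by omega), mul_zero]

private theorem Zk.mul_diag {a b : ℕ} {N N' : Matrix (Fin n) (Fin n) F} (h : Zk a N)
    (h' : Zk b N') {i l j : Fin n} (hl : (l : ℕ) = i + a) (hj : (j : ℕ) = l + b) :
    (N * N') i j = N i l * N' l j := by
  rw [Matrix.mul_apply]
  refine Finset.sum_eq_single l (fun k _ hk => ?_) fun h1 => absurd (Finset.mem_univ l) h1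
  have hk' : (k : ℕ) ≠ l := fun h1 => hk (Fin.ext h1)
  by_cases h1 : (k : ℕ) < i + a
  · rw [h i k h1, zero_mul]
  · rw [h' k j (by omega), mul_zero]

private theorem Zk.mono {a b : ℕ} {N : Matrix (Fin n) (Fin n) F} (h : Zk b N) (hab : a ≤ b) :
    Zk a N := fun i j hij => h i j (by omega)

private theorem Zk.add {a : ℕ} {N N' : Matrix (Fin n) (Fin n) F} (h : Zk a N) (h' : Zk a N') :
    Zk a (N + N') := fun i j hij => by rw [Matrix.add_apply, h i j hij, h' i j hij, add_zero]

private theorem Zk.sub {a : ℕ} {N N' : Matrix (Fin n) (Fin n) F} (h : Zk a N) (h' : Zk a N') :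
    Zk a (N - N') := fun i j hij => by rw [Matrix.sub_apply, h i j hij, h' i j hij, sub_zero]

private theorem UU.zk {M : Matrix (Fin n) (Fin n) F} (h : UU M) : Zk 1 (M - 1) := by
  intro i j hij
  rw [Matrix.sub_apply]
  rcases lt_trichotomy j i with h1 | h1 | h1
  · rw [h.1 i j h1, Matrix.one_apply_ne h1.ne', sub_zero]
  · subst h1
    rw [h.2, Matrix.one_apply_eq, sub_self]
  · rw [Fin.lt_def] at h1
    omega

private theorem Zk.uu {k : ℕ} (hk : 1 ≤ k) {M : Matrix (Fin n) (Fin n) F} (h : Zk k (M - 1)) :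
    UU M := by
  constructor
  · intro i j hij
    have h1 := h i j (by rw [Fin.lt_def] at hij; omega)
    rwa [Matrix.sub_apply, Matrix.one_apply_ne hij.ne', sub_zero] at h1
  · intro i
    have h1 := h i i (by omega)
    rw [Matrix.sub_apply, Matrix.one_apply_eq] at h1
    exact sub_eq_zero.1 h1

/-- The `k`-th superdiagonals of `Q ∩ U_k`. -/
private def Dg (Q : Subgroup (SpecialLinearGroup (Fin n) F)) (k : ℕ) (w : Fin n → F) : Prop :=
  ∃ u ∈ Q, Zk k ((u : Matrix (Fin n) (Fin n) F) - 1) ∧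
    ∀ i j : Fin n, (j : ℕ) = i + k → (u : Matrix (Fin n) (Fin n) F) i j = w i

private theorem Dg.zero (Q : Subgroup (SpecialLinearGroup (Fin n) F)) {k : ℕ} (hk : 1 ≤ k) :
    Dg Q k (0 : Fin n → F) := by
  refine ⟨1, Q.one_mem, ?_, ?_⟩
  · intro i j _
    rw [Matrix.SpecialLinearGroup.coe_one, sub_self, Matrix.zero_apply]
  · intro i j hij
    rw [Matrix.SpecialLinearGroup.coe_one, Matrix.one_apply_ne, Pi.zero_apply]
    intro h
    rw [h] at hij
    omega

private theorem Dg.add {Q : Subgroup (SpecialLinearGroup (Fin n) F)} {k : ℕ} (hk : 1 ≤ k)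
    {w w' : Fin n → F} (h : Dg Q k w) (h' : Dg Q k w') : Dg Q k (w + w') := by
  obtain ⟨u, hu, h1, h2⟩ := h
  obtain ⟨u', hu', h1', h2'⟩ := h'
  have e : ((u * u' : SpecialLinearGroup (Fin n) F) : Matrix (Fin n) (Fin n) F) - 1 =
      ((u : Matrix (Fin n) (Fin n) F) - 1) + ((u' : Matrix (Fin n) (Fin n) F) - 1) +
      ((u : Matrix (Fin n) (Fin n) F) - 1) * ((u' : Matrix (Fin n) (Fin n) F) - 1) := by
    rw [Matrix.SpecialLinearGroup.coe_mul]
    noncomm_ring
  have h3 := h1.mul h1'
  refine ⟨u * u', Q.mul_mem hu hu', ?_, ?_⟩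
  · rw [e]
    exact (h1.add h1').add (h3.mono (by omega))
  · intro i j hij
    have hne : i ≠ j := by
      intro h
      rw [h] at hij
      omega
    have h4 := congrFun (congrFun e i) j
    rw [Matrix.sub_apply, Matrix.add_apply, Matrix.add_apply, h3 i j (by omega),
      Matrix.sub_apply, Matrix.sub_apply, Matrix.one_apply_ne hne, sub_zero, sub_zero, sub_zero,
      add_zero, h2 i j hij, h2' i j hij] at h4
    rw [h4, Pi.add_apply]

/-- The commutator of two elements. -/
private theorem comm_zk {k : ℕ} (hk : 1 ≤ k) {x y : SpecialLinearGroup (Fin n) F}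
    (hx : Zk 1 ((x : Matrix (Fin n) (Fin n) F) - 1))
    (hy : Zk k ((y : Matrix (Fin n) (Fin n) F) - 1)) :
    Zk (k + 1) (((x * y * x⁻¹ * y⁻¹ : SpecialLinearGroup (Fin n) F) :
      Matrix (Fin n) (Fin n) F) - 1) ∧
    ∀ i l l' j : Fin n, (l : ℕ) = i + 1 → (l' : ℕ) = i + k → (j : ℕ) = i + (k + 1) →
      ((x * y * x⁻¹ * y⁻¹ : SpecialLinearGroup (Fin n) F) : Matrix (Fin n) (Fin n) F) i j =
      (x : Matrix (Fin n) (Fin n) F) i l * (y : Matrix (Fin n) (Fin n) F) l j -
      (y : Matrix (Fin n) (Fin n) F) i l' * (x : Matrix (Fin n) (Fin n) F) l' j := by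
  obtain ⟨X, hX⟩ : ∃ X, X = (x : Matrix (Fin n) (Fin n) F) - 1 := ⟨_, rfl⟩
  obtain ⟨Y, hY⟩ : ∃ Y, Y = (y : Matrix (Fin n) (Fin n) F) - 1 := ⟨_, rfl⟩
  obtain ⟨z, hz⟩ : ∃ z : SpecialLinearGroup (Fin n) F, z = x⁻¹ * y⁻¹ := ⟨_, rfl⟩
  have hux : x ∈ uniS n F := Zk.uu le_rfl hx
  have huy : y ∈ uniS n F := Zk.uu hk hy
  have huz : z ∈ uniS n F := by
    rw [hz]
    exact (uniS n F).mul_mem ((uniS n F).inv_mem hux) ((uniS n F).inv_mem huy)
  have hz1 : Zk 1 ((z : Matrix (Fin n) (Fin n) F) - 1) := UU.zk huz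
  rw [← hX] at hx
  rw [← hY] at hy
  have hyxz : (y : Matrix (Fin n) (Fin n) F) * (x : Matrix (Fin n) (Fin n) F) *
      (z : Matrix (Fin n) (Fin n) F) = 1 := by
    rw [← Matrix.SpecialLinearGroup.coe_mul, ← Matrix.SpecialLinearGroup.coe_mul, hz]
    have : y * x * (x⁻¹ * y⁻¹) = 1 := by group
    rw [this, Matrix.SpecialLinearGroup.coe_one]
  have e : ((x * y * x⁻¹ * y⁻¹ : SpecialLinearGroup (Fin n) F) : Matrix (Fin n) (Fin n) F) - 1 =
      (X * Y - Y * X) + (X * Y - Y * X) * ((z : Matrix (Fin n) (Fin n) F) - 1) := by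
    have h1 : (x * y * x⁻¹ * y⁻¹ : SpecialLinearGroup (Fin n) F) = x * y * z := by
      rw [hz]
      group
    rw [h1, Matrix.SpecialLinearGroup.coe_mul, Matrix.SpecialLinearGroup.coe_mul, hX, hY]
    calc (x : Matrix (Fin n) (Fin n) F) * y * z - 1
        = (x : Matrix (Fin n) (Fin n) F) * y * z - (y : Matrix (Fin n) (Fin n) F) * x * z := by
          rw [hyxz]
      _ = _ := by noncomm_ring
  have h1 : Zk (k + 1) (X * Y - Y * X) := ((hx.mul hy).mono (by omega)).sub (hy.mul hx)
  have h2 := h1.mul hz1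
  constructor
  · rw [e]
    exact h1.add (h2.mono (by omega))
  · intro i l l' j hl hl' hj
    have hne : i ≠ j := by
      intro h
      rw [h] at hj
      omega
    have h4 := congrFun (congrFun e i) j
    have hil : i ≠ l := by
      intro h
      rw [h] at hl
      omega
    have hlj : l ≠ j := by
      intro h
      rw [h] at hl
      omega
    have hil' : i ≠ l' := by
      intro h
      rw [h] at hl'
      omega
    have hlj' : l' ≠ j := by
      intro h
      rw [h] at hl'
      omega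
    rw [Matrix.sub_apply, Matrix.add_apply, h2 i j (by omega), add_zero, Matrix.sub_apply,
      hx.mul_diag hy hl (by omega), hy.mul_diag hx hl' (by omega), Matrix.one_apply_ne hne,
      sub_zero, hX, hY, Matrix.sub_apply, Matrix.sub_apply, Matrix.sub_apply, Matrix.sub_apply,
      Matrix.one_apply_ne hil, Matrix.one_apply_ne hlj, Matrix.one_apply_ne hil',
      Matrix.one_apply_ne hlj', sub_zero, sub_zero, sub_zero, sub_zero] at h4
    exact h4

private theorem Dg.step {Q : Subgroup (SpecialLinearGroup (Fin n) F)} {k : ℕ} (hk : 1 ≤ k)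
    (h1 : ∀ w, Dg Q 1 w) (h : ∀ w, Dg Q k w) : ∀ w, Dg Q (k + 1) w := by
  classical
  have key : ∀ (i0 : Fin n) (c : F), Dg Q (k + 1) (Pi.single i0 c) := by
    intro i0 c
    by_cases hi : (i0 : ℕ) + (k + 1) < n
    · obtain ⟨x, hx, hx1, hx2⟩ := h1 (Pi.single i0 1)
      obtain ⟨i1, hi1⟩ : ∃ i1 : Fin n, (i1 : ℕ) = i0 + 1 := ⟨⟨i0 + 1, by omega⟩, rfl⟩
      obtain ⟨y, hy, hy1, hy2⟩ := h (Pi.single i1 c)
      have h2 := comm_zk hk hx1 hy1
      refine ⟨x * y * x⁻¹ * y⁻¹, Q.mul_mem (Q.mul_mem (Q.mul_mem hx hy) (Q.inv_mem hx))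
        (Q.inv_mem hy), h2.1, ?_⟩
      intro i j hij
      obtain ⟨l, hl⟩ : ∃ l : Fin n, (l : ℕ) = i + 1 := ⟨⟨i + 1, by omega⟩, rfl⟩
      obtain ⟨l', hl'⟩ : ∃ l' : Fin n, (l' : ℕ) = i + k := ⟨⟨i + k, by omega⟩, rfl⟩
      rw [h2.2 i l l' j hl hl' hij, hx2 i l hl, hy2 l j (by omega), hy2 i l' hl',
        hx2 l' j (by omega)]
      by_cases hii : i = i0
      · have h3 : l = i1 := Fin.ext (by rw [hl, hi1, hii])
        have h4 : i ≠ i1 := by
          intro h5
          rw [← h5, hii] at hi1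
          omega
        rw [hii, Pi.single_eq_same, h3, Pi.single_eq_same, Pi.single_eq_same, one_mul,
          Pi.single_eq_of_ne (hii ▸ h4), zero_mul, sub_zero]
      · rw [Pi.single_eq_of_ne hii, zero_mul, Pi.single_eq_of_ne hii]
        by_cases h3 : i = i1
        · have h4 : l' ≠ i0 := by
            intro h5
            rw [h5, h3, hi1] at hl'
            omega
          rw [Pi.single_eq_of_ne h4, mul_zero, sub_zero]
        · rw [Pi.single_eq_of_ne h3, zero_mul, sub_zero]
    · obtain ⟨u, hu, hu1, -⟩ := Dg.zero Q (k := k + 1) (by omega)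
      have h0 := Dg.zero (F := F) Q (k := k + 1) (by omega)
      obtain ⟨u, hu, hu1, hu2⟩ := h0
      refine ⟨u, hu, hu1, ?_⟩
      intro i j hij
      have hii : i ≠ i0 := by
        intro h2
        have := j.2
        rw [h2] at hij
        omega
      rw [hu2 i j hij, Pi.single_eq_of_ne hii, Pi.zero_apply]
  intro w
  have h2 : ∀ s : Finset (Fin n), Dg Q (k + 1) (∑ i ∈ s, Pi.single i (w i)) := by
    intro s
    induction s using Finset.induction_on with
    | empty =>
      rw [Finset.sum_empty]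
      exact Dg.zero Q (by omega)
    | insert a s ha ih =>
      rw [Finset.sum_insert ha]
      exact Dg.add (by omega) (key _ _) ih
  have h3 := h2 Finset.univ
  rwa [Finset.univ_sum_single] at h3

end aux

/-- A subgroup of `U` whose superdiagonals are everything is `U`: `U` is a finite `p`-group, a
maximal subgroup contains `[U, U]`, and `[U, U]` contains all `1 + c E_ij`, `j - i ≥ 2`, hence all
elements with zero superdiagonal. (Or directly by descending induction.) -/
theorem nil_uni {m : ℕ} {F : Type*} [Field F] [Finite F]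
    (Q : Subgroup (SpecialLinearGroup (Fin (m + 1)) F))
    (h : ∀ v : Fin m → F, ∃ u ∈ Q, UU (u : Matrix (Fin (m + 1)) (Fin (m + 1)) F) ∧
      ∀ a, (u : Matrix (Fin (m + 1)) (Fin (m + 1)) F) a.castSucc a.succ = v a) :
    ∀ u : SpecialLinearGroup (Fin (m + 1)) F,
      UU (u : Matrix (Fin (m + 1)) (Fin (m + 1)) F) → u ∈ Q := by
  have h1 : ∀ w, Dg Q 1 w := by
    intro w
    obtain ⟨u, hu, huu, h2⟩ := h fun a => w a.castSucc
    refine ⟨u, hu, UU.zk huu, ?_⟩
    intro i j hij
    obtain ⟨a, ha⟩ : ∃ a : Fin m, (a : ℕ) = i := ⟨⟨i, by have := j.2; omega⟩, rfl⟩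
    have hi : i = a.castSucc := Fin.ext (by rw [Fin.val_castSucc, ha])
    have hj : j = a.succ := Fin.ext (by rw [Fin.val_succ, ha, hij])
    rw [hi, hj]
    exact h2 a
  have h2 : ∀ k, ∀ w, Dg Q (k + 1) w := by
    intro k
    induction k with
    | zero => exact h1
    | succ k ih => exact Dg.step (by omega) h1 ih
  -- descending induction
  have h3 : ∀ k, k ≤ m → ∀ u : SpecialLinearGroup (Fin (m + 1)) F,
      Zk (m - k + 1) ((u : Matrix (Fin (m + 1)) (Fin (m + 1)) F) - 1) → u ∈ Q := by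
    intro k
    induction k with
    | zero =>
      intro _ u hu
      have h4 : u = 1 := by
        ext i j
        have h5 := hu i j (by have := j.2; omega)
        rw [Matrix.sub_apply] at h5
        rw [Matrix.SpecialLinearGroup.coe_one]
        exact sub_eq_zero.1 h5
      rw [h4]
      exact Q.one_mem
    | succ k ih =>
      intro hk u hu
      obtain ⟨w, hw⟩ : ∃ w : Fin (m + 1) → F, ∀ i j : Fin (m + 1),
          (j : ℕ) = i + (m - (k + 1) + 1) →
          w i = (u : Matrix (Fin (m + 1)) (Fin (m + 1)) F) i j := by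
        refine ⟨fun i => if hi : (i : ℕ) + (m - (k + 1) + 1) < m + 1 then
          (u : Matrix (Fin (m + 1)) (Fin (m + 1)) F) i ⟨i + (m - (k + 1) + 1), hi⟩ else 0, ?_⟩
        intro i j hij
        have h12 : (i : ℕ) + (m - (k + 1) + 1) < m + 1 := by
          have := j.2
          omega
        have h13 : j = ⟨i + (m - (k + 1) + 1), h12⟩ := Fin.ext hij
        dsimp only
        rw [dif_pos h12, ← h13]
      obtain ⟨y, hy, hy1, hy2⟩ := h2 (m - (k + 1)) w
      have hyu : y⁻¹ * u ∈ Q := by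
        refine ih (by omega) _ ?_
        have h4 : (y⁻¹ * u : SpecialLinearGroup (Fin (m + 1)) F) ∈ uniS (m + 1) F := by
          refine (uniS (m + 1) F).mul_mem ((uniS (m + 1) F).inv_mem ?_) ?_
          · exact Zk.uu (by omega) hy1
          · exact Zk.uu (by omega) hu
        have h5 : ((y⁻¹ : SpecialLinearGroup (Fin (m + 1)) F) ∈ uniS (m + 1) F) :=
          (uniS (m + 1) F).inv_mem (Zk.uu (by omega) hy1)
        have h6 := UU.zk h5
        -- `y⁻¹ u - 1 = y⁻¹ (u - y)`
        have e : ((y⁻¹ * u : SpecialLinearGroup (Fin (m + 1)) F) :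
            Matrix (Fin (m + 1)) (Fin (m + 1)) F) - 1 =
            ((u : Matrix (Fin (m + 1)) (Fin (m + 1)) F) -
              (y : Matrix (Fin (m + 1)) (Fin (m + 1)) F)) +
            (((y⁻¹ : SpecialLinearGroup (Fin (m + 1)) F) :
              Matrix (Fin (m + 1)) (Fin (m + 1)) F) - 1) *
            ((u : Matrix (Fin (m + 1)) (Fin (m + 1)) F) -
              (y : Matrix (Fin (m + 1)) (Fin (m + 1)) F)) := by
          have h7 : ((y⁻¹ : SpecialLinearGroup (Fin (m + 1)) F) :
              Matrix (Fin (m + 1)) (Fin (m + 1)) F) *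
              (y : Matrix (Fin (m + 1)) (Fin (m + 1)) F) = 1 := by
            rw [← Matrix.SpecialLinearGroup.coe_mul, inv_mul_cancel,
              Matrix.SpecialLinearGroup.coe_one]
          rw [Matrix.SpecialLinearGroup.coe_mul]
          calc ((y⁻¹ : SpecialLinearGroup (Fin (m + 1)) F) :
              Matrix (Fin (m + 1)) (Fin (m + 1)) F) *
              (u : Matrix (Fin (m + 1)) (Fin (m + 1)) F) - 1 =
              ((y⁻¹ : SpecialLinearGroup (Fin (m + 1)) F) :
              Matrix (Fin (m + 1)) (Fin (m + 1)) F) *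
              (u : Matrix (Fin (m + 1)) (Fin (m + 1)) F) -
              ((y⁻¹ : SpecialLinearGroup (Fin (m + 1)) F) :
              Matrix (Fin (m + 1)) (Fin (m + 1)) F) *
              (y : Matrix (Fin (m + 1)) (Fin (m + 1)) F) := by rw [h7]
            _ = _ := by noncomm_ring
        have h8 : Zk (m - k + 1) ((u : Matrix (Fin (m + 1)) (Fin (m + 1)) F) -
            (y : Matrix (Fin (m + 1)) (Fin (m + 1)) F)) := by
          intro i j hij
          rw [Matrix.sub_apply]
          by_cases h9 : (j : ℕ) < i + (m - (k + 1) + 1)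
          · have h10 := hu i j h9
            have h11 := hy1 i j h9
            rw [Matrix.sub_apply] at h10 h11
            rw [sub_eq_zero.1 h10, sub_eq_zero.1 h11, sub_self]
          · have h10 : (j : ℕ) = i + (m - (k + 1) + 1) := by omega
            rw [hy2 i j h10, hw i j h10, sub_self]
        rw [e]
        exact h8.add ((h6.mul h8).mono (by omega))
      have h4 : u = y * (y⁻¹ * u) := by rw [mul_inv_cancel_left]
      rw [h4]
      exact Q.mul_mem hy hyu
  intro u hu
  refine h3 m le_rfl u ?_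
  rw [Nat.sub_self]
  exact UU.zk hu

end Lin43
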