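import Pool.Agent.Lib.MP_43150e_al.Lin.Gen

/-! # Flag-transitive groups: the group induced on `V/P` and transitivity on incident pairs -/

set_option autoImplicit false

namespace Lin43

open Matrix

/-- The group induced by the stabiliser of `P = ⟨e_0⟩` on `V/P`: all `D` with `blk a w D ∈ K`. -/
def pen {m : ℕ} {F : Type*} [Field F] (K : Subgroup (GeneralLinearGroup (Fin (m + 1)) F)) :
    Subgroup (GeneralLinearGroup (Fin m) F) where
  carrier := {D | ∃ (a : F) (w : Fin m → F), inG K (blk a w (D : Matrix (Fin m) (Fin m) F))}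
  one_mem' := ⟨1, 0, 1, K.one_mem, blk_one.symm⟩
  mul_mem' := by
    rintro D E ⟨a, w, k, hk, hD⟩ ⟨b, u, l, hl, hE⟩
    refine ⟨a * b, a • u + Matrix.vecMul w (E : Matrix (Fin m) (Fin m) F), k * l,
      K.mul_mem hk hl, ?_⟩
    rw [Units.val_mul, hD, hE, blk_mul, Units.val_mul]
  inv_mem' := by
    rintro D ⟨a, w, k, hk, hD⟩
    have ha : a ≠ 0 := by
      intro ha
      have h1 := GeneralLinearGroup.det_ne_zero k
      rw [hD, blk_det, ha, zero_mul] at h1
      exact h1 rfl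
    refine ⟨a⁻¹, -(a⁻¹ • Matrix.vecMul w ((D⁻¹ : GeneralLinearGroup (Fin m) F) :
      Matrix (Fin m) (Fin m) F)), k⁻¹, K.inv_mem hk, ?_⟩
    have h1 : (k : Matrix (Fin (m + 1)) (Fin (m + 1)) F) *
        blk a⁻¹ (-(a⁻¹ • Matrix.vecMul w ((D⁻¹ : GeneralLinearGroup (Fin m) F) :
          Matrix (Fin m) (Fin m) F))) ((D⁻¹ : GeneralLinearGroup (Fin m) F) :
          Matrix (Fin m) (Fin m) F) = 1 := by
      rw [hD, blk_mul, mul_inv_cancel₀ ha, smul_neg, smul_smul, mul_inv_cancel₀ ha, one_smul,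
        neg_add_cancel, ← Units.val_mul, mul_inv_cancel, Units.val_one, blk_one]
    exact Units.inv_eq_of_mul_eq_one_right h1

theorem mem_pen {m : ℕ} {F : Type*} [Field F] (K : Subgroup (GeneralLinearGroup (Fin (m + 1)) F))
    (D : GeneralLinearGroup (Fin m) F) :
    D ∈ pen K ↔ ∃ (a : F) (w : Fin m → F), inG K (blk a w (D : Matrix (Fin m) (Fin m) F)) :=
  Iff.rfl

/-- Flag-transitivity in the form `k = g S`, `S` upper triangular. -/
theorem flag_mul {n : ℕ} {F : Type*} [Field F] (K : Subgroup (GeneralLinearGroup (Fin n) F))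
    (hK : FlagTr K) (g : GeneralLinearGroup (Fin n) F) :
    ∃ k ∈ K, ∃ S : GeneralLinearGroup (Fin n) F, k = g * S ∧
      UT (S : Matrix (Fin n) (Fin n) F) := by
  obtain ⟨k, hk, hT⟩ := hK g
  refine ⟨k, hk, g⁻¹ * k, (mul_inv_cancel_left g k).symm, ?_⟩
  refine UT.of_mul_eq_one hT ?_
  rw [← Units.val_mul, mul_assoc, mul_inv_cancel_left, inv_mul_cancel, Units.val_one]

theorem flagTr_pen {m : ℕ} {F : Type*} [Field F]
    (K : Subgroup (GeneralLinearGroup (Fin (m + 1)) F)) (hK : FlagTr K) : FlagTr (pen K) := by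
  intro D
  have hdet : (blk (1 : F) (0 : Fin m → F) (D : Matrix (Fin m) (Fin m) F)).det ≠ 0 := by
    rw [blk_det, one_mul]
    exact GeneralLinearGroup.det_ne_zero D
  obtain ⟨k, hk, S, hkS, hS⟩ := flag_mul K hK (GeneralLinearGroup.mkOfDetNeZero _ hdet)
  obtain ⟨w, T, hT⟩ := exists_blk (S : Matrix (Fin (m + 1)) (Fin (m + 1)) F)
    fun i hi => hS i 0 (Fin.pos_of_ne_zero hi)
  have hTU : UT T := by
    rw [hT] at hS
    exact (blk_UT _ _ _).1 hS
  have hTd : T.det ≠ 0 := by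
    intro h
    have h1 := GeneralLinearGroup.det_ne_zero S
    rw [hT, blk_det, h, mul_zero] at h1
    exact h1 rfl
  refine ⟨D * GeneralLinearGroup.mkOfDetNeZero T hTd, ?_, ?_⟩
  · refine ⟨1 * (S : Matrix (Fin (m + 1)) (Fin (m + 1)) F) 0 0,
      (1 : F) • w + Matrix.vecMul (0 : Fin m → F) T, k, hk, ?_⟩
    have h1 : (k : Matrix (Fin (m + 1)) (Fin (m + 1)) F) =
        blk (1 : F) (0 : Fin m → F) (D : Matrix (Fin m) (Fin m) F) *
          (S : Matrix (Fin (m + 1)) (Fin (m + 1)) F) := by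
      rw [hkS]
      rfl
    have h2 : blk (1 : F) (0 : Fin m → F) (D : Matrix (Fin m) (Fin m) F) *
        blk ((S : Matrix (Fin (m + 1)) (Fin (m + 1)) F) 0 0) w T =
        blk (1 * (S : Matrix (Fin (m + 1)) (Fin (m + 1)) F) 0 0)
          ((1 : F) • w + Matrix.vecMul (0 : Fin m → F) T)
          ((D : Matrix (Fin m) (Fin m) F) * T) := blk_mul _ _ _ _ _ _
    rw [h1]
    exact (congrArg (blk (1 : F) (0 : Fin m → F) (D : Matrix (Fin m) (Fin m) F) * ·) hT).trans h2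
  · refine UT.of_mul_eq_one (M := T) hTU ?_
    have h1 : (GeneralLinearGroup.mkOfDetNeZero T hTd) *
        ((D * GeneralLinearGroup.mkOfDetNeZero T hTd)⁻¹ * D) = 1 := by
      rw [_root_.mul_inv_rev, mul_assoc, inv_mul_cancel, mul_one, mul_inv_cancel]
    exact congrArg Units.val h1

/-- `GL_n(F)` is transitive on the nonzero vectors. -/
theorem exists_GL {n : ℕ} {F : Type*} [Field F] (u v : Fin n → F) (hu : u ≠ 0) (hv : v ≠ 0) :
    ∃ g : GeneralLinearGroup (Fin n) F, (g : Matrix (Fin n) (Fin n) F).mulVec u = v := by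
  -- a covector `φ` with `φ u = 1`, `φ v ≠ 0`
  have hφ : ∃ φ : Fin n → F, φ ⬝ᵥ u = 1 ∧ φ ⬝ᵥ v ≠ 0 := by
    obtain ⟨i, hi⟩ := Function.ne_iff.1 hu
    obtain ⟨j, hj⟩ := Function.ne_iff.1 hv
    rw [Pi.zero_apply] at hi hj
    by_cases h1 : v i = 0
    · by_cases h2 : u j = 0
      · refine ⟨Pi.single i (u i)⁻¹ + Pi.single j 1, ?_, ?_⟩
        · rw [add_dotProduct, single_dotProduct, single_dotProduct, inv_mul_cancel₀ hi, h2,
            mul_zero, add_zero]
        · rw [add_dotProduct, single_dotProduct, single_dotProduct, h1, mul_zero, zero_add,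
            one_mul]
          exact hj
      · refine ⟨Pi.single j (u j)⁻¹, ?_, ?_⟩
        · rw [single_dotProduct, inv_mul_cancel₀ h2]
        · rw [single_dotProduct]
          exact mul_ne_zero (inv_ne_zero h2) hj
    · refine ⟨Pi.single i (u i)⁻¹, ?_, ?_⟩
      · rw [single_dotProduct, inv_mul_cancel₀ hi]
      · rw [single_dotProduct]
        exact mul_ne_zero (inv_ne_zero hi) h1
  obtain ⟨φ, h1, h2⟩ := hφ
  have hdet : (tv (v - u) φ).det ≠ 0 := by
    rw [tv, Matrix.vecMulVec_eq Unit, Matrix.det_one_add_replicateCol_mul_replicateRow,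
      dotProduct_sub, h1, add_sub_cancel]
    exact h2
  refine ⟨GeneralLinearGroup.mkOfDetNeZero _ hdet, ?_⟩
  change (tv (v - u) φ).mulVec u = v
  rw [tv_mulVec, h1, one_smul, add_sub_cancel]

/-- The same for covectors. -/
theorem exists_GL' {n : ℕ} {F : Type*} [Field F] (u v : Fin n → F) (hu : u ≠ 0) (hv : v ≠ 0) :
    ∃ g : GeneralLinearGroup (Fin n) F, Matrix.vecMul u (g : Matrix (Fin n) (Fin n) F) = v := by
  obtain ⟨g, hg⟩ := exists_GL u v hu hv
  have hdet : ((g : Matrix (Fin n) (Fin n) F)ᵀ).det ≠ 0 := by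
    rw [Matrix.det_transpose]
    exact GeneralLinearGroup.det_ne_zero g
  refine ⟨GeneralLinearGroup.mkOfDetNeZero _ hdet, ?_⟩
  change Matrix.vecMul u (g : Matrix (Fin n) (Fin n) F)ᵀ = v
  rw [Matrix.vecMul_transpose, hg]

theorem UT.diag_ne_zero {n : ℕ} {F : Type*} [Field F] (S : GeneralLinearGroup (Fin n) F)
    (hS : UT (S : Matrix (Fin n) (Fin n) F)) (i : Fin n) :
    (S : Matrix (Fin n) (Fin n) F) i i ≠ 0 := by
  have h1 := GeneralLinearGroup.det_ne_zero S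
  rw [hS.det] at h1
  exact Finset.prod_ne_zero_iff.1 h1 i (Finset.mem_univ i)

theorem UT.mulVec_zero {m : ℕ} {F : Type*} [Field F] {M : Matrix (Fin (m + 1)) (Fin (m + 1)) F}
    (hM : UT M) : M.mulVec (Pi.single 0 1) = M 0 0 • (Pi.single 0 1 : Fin (m + 1) → F) := by
  funext i
  rw [Matrix.mulVec_single_one, Pi.smul_apply, smul_eq_mul]
  by_cases hi : i = 0
  · subst hi
    rw [Pi.single_eq_same, mul_one]
    rfl
  · rw [Pi.single_eq_of_ne hi, mul_zero]
    exact hM i 0 (Fin.pos_of_ne_zero hi)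

theorem UT.vecMul_last {m : ℕ} {F : Type*} [Field F] {M : Matrix (Fin (m + 1)) (Fin (m + 1)) F}
    (hM : UT M) : Matrix.vecMul (Pi.single (Fin.last m) 1) M =
      M (Fin.last m) (Fin.last m) • (Pi.single (Fin.last m) 1 : Fin (m + 1) → F) := by
  funext i
  rw [Matrix.single_one_vecMul, Pi.smul_apply, smul_eq_mul]
  by_cases hi : i = Fin.last m
  · subst hi
    rw [Pi.single_eq_same, mul_one]
    rfl
  · rw [Pi.single_eq_of_ne hi, mul_zero]
    exact hM _ _ (Fin.lt_last_iff_ne_last.2 hi)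

/-- A matrix adapted to an incident pair. -/
theorem exists_adapted {m : ℕ} {F : Type*} [Field F] (v φ : Fin (m + 1) → F) (hv : v ≠ 0)
    (hφ : φ ≠ 0) (h : φ ⬝ᵥ v = 0) :
    ∃ g : GeneralLinearGroup (Fin (m + 1)) F,
      (g : Matrix (Fin (m + 1)) (Fin (m + 1)) F).mulVec (Pi.single 0 1) = v ∧
      Matrix.vecMul φ (g : Matrix (Fin (m + 1)) (Fin (m + 1)) F) =
        Pi.single (Fin.last m) 1 := by
  have he : (Pi.single 0 1 : Fin (m + 1) → F) ≠ 0 := by
    rw [Ne, Pi.single_eq_zero_iff]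
    exact one_ne_zero
  obtain ⟨g, hg⟩ := exists_GL (Pi.single 0 1 : Fin (m + 1) → F) v he hv
  -- `φ g = (0, ψ)`
  set χ := Matrix.vecMul φ (g : Matrix (Fin (m + 1)) (Fin (m + 1)) F) with hχ
  have hχ0 : χ 0 = 0 := by
    have h1 : χ ⬝ᵥ (Pi.single 0 1) = 0 := by
      rw [hχ, ← Matrix.dotProduct_mulVec, hg, h]
    rwa [dotProduct_single_one] at h1
  have hχn : χ ≠ 0 := by
    intro h1
    apply hφ
    have h2 : Matrix.vecMul χ ((g⁻¹ : GeneralLinearGroup (Fin (m + 1)) F) :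
        Matrix (Fin (m + 1)) (Fin (m + 1)) F) = φ := by
      rw [hχ, Matrix.vecMul_vecMul, ← Units.val_mul, mul_inv_cancel, Units.val_one,
        Matrix.vecMul_one]
    rw [← h2, h1, Matrix.zero_vecMul]
  have hψ : Fin.tail χ ≠ 0 := by
    intro h1
    apply hχn
    funext i
    refine Fin.cases ?_ (fun i => ?_) i
    · exact hχ0
    · exact congrFun h1 i
  have hm : m ≠ 0 := by
    rintro rfl
    exact hψ (funext fun i => i.elim0)
  obtain ⟨r, rfl⟩ := Nat.exists_eq_succ_of_ne_zero hm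
  have he' : (Pi.single (Fin.last r) 1 : Fin (r + 1) → F) ≠ 0 := by
    rw [Ne, Pi.single_eq_zero_iff]
    exact one_ne_zero
  obtain ⟨D, hD⟩ := exists_GL' (Fin.tail χ) (Pi.single (Fin.last r) 1 : Fin (r + 1) → F) hψ he'
  have hdet : (blk (1 : F) (0 : Fin (r + 1) → F)
      (D : Matrix (Fin (r + 1)) (Fin (r + 1)) F)).det ≠ 0 := by
    rw [blk_det, one_mul]
    exact GeneralLinearGroup.det_ne_zero D
  refine ⟨g * GeneralLinearGroup.mkOfDetNeZero _ hdet, ?_, ?_⟩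
  · rw [Units.val_mul, ← Matrix.mulVec_mulVec]
    have h1 : ((GeneralLinearGroup.mkOfDetNeZero _ hdet :
        GeneralLinearGroup (Fin (r + 1 + 1)) F) :
        Matrix (Fin (r + 1 + 1)) (Fin (r + 1 + 1)) F).mulVec (Pi.single 0 1) =
        Pi.single 0 1 := by
      funext i
      rw [Matrix.mulVec_single_one]
      refine Fin.cases ?_ (fun i => ?_) i
      · rw [Pi.single_eq_same]
        rfl
      · rw [Pi.single_eq_of_ne (Fin.succ_ne_zero i)]
        rfl
    rw [h1, hg]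
  · rw [Units.val_mul, ← Matrix.vecMul_vecMul, ← hχ]
    funext j
    have h1 : Matrix.vecMul χ ((GeneralLinearGroup.mkOfDetNeZero _ hdet :
        GeneralLinearGroup (Fin (r + 1 + 1)) F) :
        Matrix (Fin (r + 1 + 1)) (Fin (r + 1 + 1)) F) j =
        ∑ i : Fin (r + 1), Fin.tail χ i * blk (1 : F) (0 : Fin (r + 1) → F)
          (D : Matrix (Fin (r + 1)) (Fin (r + 1)) F) i.succ j := by
      rw [Matrix.vecMul, dotProduct, Fin.sum_univ_succ, hχ0, zero_mul, zero_add]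
      rfl
    rw [h1]
    refine Fin.cases ?_ (fun j => ?_) j
    · rw [Pi.single_eq_of_ne (Fin.last_pos).ne]
      exact Finset.sum_eq_zero fun i _ => by rw [blk_sz, mul_zero]
    · have h2 := congrFun hD j
      rw [Matrix.vecMul, dotProduct] at h2
      simp only [blk_ss]
      rw [h2, ← Fin.succ_last, Pi.single_apply, Pi.single_apply]
      simp only [Fin.succ_inj]

theorem flag_std {m : ℕ} {F : Type*} [Field F]
    (K : Subgroup (GeneralLinearGroup (Fin (m + 1)) F))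
    (hK : FlagTr K) (v φ : Fin (m + 1) → F) (hv : v ≠ 0) (hφ : φ ≠ 0) (h : φ ⬝ᵥ v = 0) :
    ∃ k ∈ K, ∃ c d : F, c ≠ 0 ∧ d ≠ 0 ∧
      (k : Matrix (Fin (m + 1)) (Fin (m + 1)) F).mulVec (Pi.single 0 1) = c • v ∧
      Matrix.vecMul φ (k : Matrix (Fin (m + 1)) (Fin (m + 1)) F) =
        d • (Pi.single (Fin.last m) 1 : Fin (m + 1) → F) := by
  obtain ⟨g, hg, hg'⟩ := exists_adapted v φ hv hφ h
  obtain ⟨k, hk, S, hkS, hS⟩ := flag_mul K hK g
  refine ⟨k, hk, (S : Matrix (Fin (m + 1)) (Fin (m + 1)) F) 0 0,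
    (S : Matrix (Fin (m + 1)) (Fin (m + 1)) F) (Fin.last m) (Fin.last m),
    UT.diag_ne_zero S hS _, UT.diag_ne_zero S hS _, ?_, ?_⟩
  · rw [hkS, Units.val_mul, ← Matrix.mulVec_mulVec, hS.mulVec_zero, Matrix.mulVec_smul, hg]
  · rw [hkS, Units.val_mul, ← Matrix.vecMul_vecMul, hg', hS.vecMul_last]

/-- A flag-transitive group is transitive on incident pairs (point, hyperplane). -/
theorem flag_pair {n : ℕ} {F : Type*} [Field F] (K : Subgroup (GeneralLinearGroup (Fin n) F))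
    (hK : FlagTr K) (v φ v' φ' : Fin n → F) (hv : v ≠ 0) (hφ : φ ≠ 0) (h : φ ⬝ᵥ v = 0)
    (hv' : v' ≠ 0) (hφ' : φ' ≠ 0) (h' : φ' ⬝ᵥ v' = 0) :
    ∃ k ∈ K, ∃ c c' : F, c ≠ 0 ∧ c' ≠ 0 ∧
      (k : Matrix (Fin n) (Fin n) F).mulVec v = c • v' ∧
      Matrix.vecMul φ' (k : Matrix (Fin n) (Fin n) F) = c' • φ := by
  rcases n with _ | m
  · exact absurd (funext fun i => i.elim0) hv
  obtain ⟨k, hk, c, d, hc, hd, hkv, hkφ⟩ := flag_std K hK v φ hv hφ h
  obtain ⟨k', hk', c', d', hc', hd', hkv', hkφ'⟩ := flag_std K hK v' φ' hv' hφ' h'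
  refine ⟨k' * k⁻¹, K.mul_mem hk' (K.inv_mem hk), c⁻¹ * c', d' * d⁻¹,
    mul_ne_zero (inv_ne_zero hc) hc', mul_ne_zero hd' (inv_ne_zero hd), ?_, ?_⟩
  · have h1 : ((k⁻¹ : GeneralLinearGroup (Fin (m + 1)) F) :
        Matrix (Fin (m + 1)) (Fin (m + 1)) F).mulVec v = c⁻¹ • (Pi.single 0 1) := by
      rw [← inv_smul_smul₀ hc v, ← hkv, Matrix.mulVec_smul, Matrix.mulVec_mulVec,
        ← Units.val_mul, inv_mul_cancel, Units.val_one, Matrix.one_mulVec]
    rw [Units.val_mul, ← Matrix.mulVec_mulVec, h1, Matrix.mulVec_smul, hkv', smul_smul]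
  · have h1 : Matrix.vecMul (Pi.single (Fin.last m) 1)
        ((k⁻¹ : GeneralLinearGroup (Fin (m + 1)) F) :
        Matrix (Fin (m + 1)) (Fin (m + 1)) F) = d⁻¹ • φ := by
      rw [← inv_smul_smul₀ hd (Pi.single (Fin.last m) 1 : Fin (m + 1) → F), ← hkφ,
        Matrix.smul_vecMul, Matrix.vecMul_vecMul,
        ← Units.val_mul, mul_inv_cancel, Units.val_one, Matrix.vecMul_one]
    rw [Units.val_mul, ← Matrix.vecMul_vecMul, hkφ', Matrix.smul_vecMul, h1, smul_smul]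

/-- A flag-transitive group is transitive on points. -/
theorem flag_point {n : ℕ} {F : Type*} [Field F] (K : Subgroup (GeneralLinearGroup (Fin n) F))
    (hK : FlagTr K) (v v' : Fin n → F) (hv : v ≠ 0) (hv' : v' ≠ 0) :
    ∃ k ∈ K, ∃ c : F, c ≠ 0 ∧ (k : Matrix (Fin n) (Fin n) F).mulVec v = c • v' := by
  rcases n with _ | m
  · exact absurd (funext fun i => i.elim0) hv
  have he : (Pi.single 0 1 : Fin (m + 1) → F) ≠ 0 := by
    rw [Ne, Pi.single_eq_zero_iff]
    exact one_ne_zero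
  have hstd : ∀ v : Fin (m + 1) → F, v ≠ 0 → ∃ k ∈ K, ∃ c : F, c ≠ 0 ∧
      (k : Matrix (Fin (m + 1)) (Fin (m + 1)) F).mulVec (Pi.single 0 1) = c • v := by
    intro v hv
    obtain ⟨g, hg⟩ := exists_GL (Pi.single 0 1 : Fin (m + 1) → F) v he hv
    obtain ⟨k, hk, S, hkS, hS⟩ := flag_mul K hK g
    refine ⟨k, hk, (S : Matrix (Fin (m + 1)) (Fin (m + 1)) F) 0 0,
      UT.diag_ne_zero S hS _, ?_⟩
    rw [hkS, Units.val_mul, ← Matrix.mulVec_mulVec, hS.mulVec_zero, Matrix.mulVec_smul, hg]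
  obtain ⟨k, hk, c, hc, hkv⟩ := hstd v hv
  obtain ⟨k', hk', c', hc', hkv'⟩ := hstd v' hv'
  refine ⟨k' * k⁻¹, K.mul_mem hk' (K.inv_mem hk), c⁻¹ * c', mul_ne_zero (inv_ne_zero hc) hc', ?_⟩
  have h1 : ((k⁻¹ : GeneralLinearGroup (Fin (m + 1)) F) :
      Matrix (Fin (m + 1)) (Fin (m + 1)) F).mulVec v = c⁻¹ • (Pi.single 0 1) := by
    rw [← inv_smul_smul₀ hc v, ← hkv, Matrix.mulVec_smul, Matrix.mulVec_mulVec,
      ← Units.val_mul, inv_mul_cancel, Units.val_one, Matrix.one_mulVec]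
  rw [Units.val_mul, ← Matrix.mulVec_mulVec, h1, Matrix.mulVec_smul, hkv', smul_smul]

end Lin43
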