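import Pool.Agent.Lib.MP_43150e_al.Lin.Defs

/-! # Triangular matrices: closure properties -/

set_option autoImplicit false

namespace Lin43

open Matrix

section
variable {n : ℕ} {F : Type*} [Field F]

theorem UT.blockTriangular {M : Matrix (Fin n) (Fin n) F} (hM : UT M) :
    M.BlockTriangular id := fun i j h => hM i j h

theorem UT.of_blockTriangular {M : Matrix (Fin n) (Fin n) F} (hM : M.BlockTriangular id) :
    UT M := fun _ _ h => hM h

theorem UT.one : UT (1 : Matrix (Fin n) (Fin n) F) := by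
  intro i j h
  rw [Matrix.one_apply_ne h.ne']

theorem UT.mul {M N : Matrix (Fin n) (Fin n) F} (hM : UT M) (hN : UT N) : UT (M * N) :=
  UT.of_blockTriangular (hM.blockTriangular.mul hN.blockTriangular)

theorem UT.mul_diag {M N : Matrix (Fin n) (Fin n) F} (hM : UT M) (hN : UT N) (i : Fin n) :
    (M * N) i i = M i i * N i i := by
  rw [Matrix.mul_apply, Finset.sum_eq_single i]
  · intro j _ hj
    rcases lt_or_gt_of_ne hj with h | h
    · rw [hM i j h, zero_mul]
    · rw [hN j i h, mul_zero]
  · intro h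
    exact absurd (Finset.mem_univ i) h

/-- The inverse of an upper triangular matrix is upper triangular. -/
theorem UT.of_mul_eq_one {M N : Matrix (Fin n) (Fin n) F} (hM : UT M) (h : M * N = 1) :
    UT N := by
  have hinv : M⁻¹ = N := Matrix.inv_eq_right_inv h
  have : Invertible M := invertibleOfRightInverse _ _ h
  rw [← hinv]
  exact UT.of_blockTriangular (blockTriangular_inv_of_blockTriangular hM.blockTriangular)

theorem UT.det {M : Matrix (Fin n) (Fin n) F} (hM : UT M) : M.det = ∏ i, M i i :=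
  Matrix.det_of_isUpperTriangular hM.blockTriangular

theorem UU.one : UU (1 : Matrix (Fin n) (Fin n) F) :=
  ⟨UT.one, fun i => Matrix.one_apply_eq i⟩

theorem UU.mul {M N : Matrix (Fin n) (Fin n) F} (hM : UU M) (hN : UU N) : UU (M * N) := by
  refine ⟨hM.1.mul hN.1, fun i => ?_⟩
  rw [hM.1.mul_diag hN.1, hM.2, hN.2, mul_one]

theorem UU.of_mul_eq_one {M N : Matrix (Fin n) (Fin n) F} (hM : UU M) (h : M * N = 1) :
    UU N := by
  have h1 := hM.1.of_mul_eq_one h
  refine ⟨h1, fun i => ?_⟩
  have h2 := hM.1.mul_diag h1 i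
  rw [h, Matrix.one_apply_eq, hM.2, one_mul] at h2
  exact h2.symm

/-- The superdiagonal of a product of upper triangular matrices. -/
theorem UT.superdiag {M N : Matrix (Fin n) (Fin n) F} (hM : UT M) (hN : UT N) (i j : Fin n)
    (hij : (i : ℕ) + 1 = j) : (M * N) i j = M i i * N i j + M i j * N j j := by
  have hne : i ≠ j := by
    intro h
    rw [h] at hij
    omega
  rw [Matrix.mul_apply, Fintype.sum_eq_add i j hne]
  rintro k ⟨hk1, hk2⟩
  by_cases h : k < i
  · rw [hM i k h, zero_mul]
  · have h1 : i < k := lt_of_le_of_ne (not_lt.1 h) hk1.symm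
    have h2 : j < k := by
      rw [Fin.lt_def] at h1 ⊢
      have h3 : (k : ℕ) ≠ j := fun h => hk2 (Fin.ext h)
      omega
    rw [hN k j h2, mul_zero]

/-- The superdiagonal is additive on unitriangular matrices. -/
theorem UU.superdiag {M N : Matrix (Fin n) (Fin n) F} (hM : UU M) (hN : UU N) (i j : Fin n)
    (hij : (i : ℕ) + 1 = j) : (M * N) i j = M i j + N i j := by
  rw [hM.1.superdiag hN.1 i j hij, hM.2, hN.2, one_mul, mul_one, add_comm]

/-- The upper triangular subgroup of `SL_n`. -/
def borelS (n : ℕ) (F : Type*) [Field F] : Subgroup (SpecialLinearGroup (Fin n) F) where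
  carrier := {s | UT (s : Matrix (Fin n) (Fin n) F)}
  one_mem' := UT.one
  mul_mem' := fun ha hb => ha.mul hb
  inv_mem' := by
    intro s hs
    have h : (s : Matrix (Fin n) (Fin n) F) * ((s⁻¹ : SpecialLinearGroup (Fin n) F) :
        Matrix (Fin n) (Fin n) F) = 1 := by
      rw [← Matrix.SpecialLinearGroup.coe_mul, mul_inv_cancel, Matrix.SpecialLinearGroup.coe_one]
    exact UT.of_mul_eq_one hs h

/-- The upper unitriangular subgroup of `SL_n`. -/
def uniS (n : ℕ) (F : Type*) [Field F] : Subgroup (SpecialLinearGroup (Fin n) F) where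
  carrier := {s | UU (s : Matrix (Fin n) (Fin n) F)}
  one_mem' := UU.one
  mul_mem' := fun ha hb => ha.mul hb
  inv_mem' := by
    intro s hs
    have h : (s : Matrix (Fin n) (Fin n) F) * ((s⁻¹ : SpecialLinearGroup (Fin n) F) :
        Matrix (Fin n) (Fin n) F) = 1 := by
      rw [← Matrix.SpecialLinearGroup.coe_mul, mul_inv_cancel, Matrix.SpecialLinearGroup.coe_one]
    exact UU.of_mul_eq_one hs h

theorem mem_borelS (s : SpecialLinearGroup (Fin n) F) :
    s ∈ borelS n F ↔ UT (s : Matrix (Fin n) (Fin n) F) := Iff.rfl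

theorem mem_uniS (s : SpecialLinearGroup (Fin n) F) :
    s ∈ uniS n F ↔ UU (s : Matrix (Fin n) (Fin n) F) := Iff.rfl

/-- The centre of `SL_n` consists of scalar matrices, in particular lies in the Borel
subgroup. -/
theorem center_scalar (z : SpecialLinearGroup (Fin n) F)
    (hz : z ∈ Subgroup.center (SpecialLinearGroup (Fin n) F)) :
    ∃ c : F, (z : Matrix (Fin n) (Fin n) F) = Matrix.scalar (Fin n) c := by
  obtain ⟨c, -, hc⟩ := Matrix.SpecialLinearGroup.mem_center_iff.1 hz
  exact ⟨c, hc.symm⟩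

theorem UT.scalar (c : F) : UT (Matrix.scalar (Fin n) c) := by
  intro i j h
  rw [Matrix.scalar_apply, Matrix.diagonal_apply_ne _ h.ne']

theorem mem_borelS_map (s : SpecialLinearGroup (Fin n) F) :
    toP n F s ∈ (borelS n F).map (toP n F) ↔ UT (s : Matrix (Fin n) (Fin n) F) := by
  constructor
  · rintro ⟨b, hb, hbs⟩
    have h1 : b⁻¹ * s ∈ Subgroup.center (SpecialLinearGroup (Fin n) F) :=
      QuotientGroup.eq.1 hbs
    obtain ⟨c, hc⟩ := center_scalar _ h1
    have h2 : s = b * (b⁻¹ * s) := by rw [mul_inv_cancel_left]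
    rw [h2, Matrix.SpecialLinearGroup.coe_mul, hc]
    exact UT.mul hb (UT.scalar c)
  · intro h
    exact ⟨s, h, rfl⟩

end

end Lin43
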